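import Pool.Agent.Work.MP_7b0bad_ag.Bd.B12

set_option autoImplicit false

/-!
# The line has no connected cover that is unramified over the affine line and split at infinity

`B` Galois over `k[x]` with group `H`, a domain, `j : B → k((1/x))` over `k[x]`. A family `e` of
elements of `B` indexed by `H` with `det (g • e h) ^ 2` a nonzero constant and with pole orders
`n h` at all places over infinity is reduced until all `n h` are `0`; then the `e h` are constants
and `H` is trivial.
-/

namespace MP7b0bad.MT

open Polynomial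

/-- power series as Laurent series -/
noncomputable abbrev MQp_ps (k : Type) [Field k] : PowerSeries k →+* LaurentSeries k :=
  HahnSeries.ofPowerSeries ℤ k

theorem MQp_ps_coeff {k : Type} [Field k] (u : PowerSeries k) (i : ℤ) :
    (MQp_ps k u).coeff i = if i < 0 then 0 else PowerSeries.coeff i.natAbs u :=
  PowerSeries.coeff_coe u i

theorem MQp_atInfX (k : Type) [Field k] : atInf k X = HahnSeries.single (-1 : ℤ) (1 : k) := by
  unfold atInf
  rw [coe_eval₂RingHom, eval₂_X]

theorem MQp_atInfC {k : Type} [Field k] (c : k) : atInf k (C c) = MQp_ps k (PowerSeries.C c) := by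
  unfold atInf
  rw [coe_eval₂RingHom, eval₂_C, HahnSeries.ofPowerSeries_C]

theorem MQp_XpsX (k : Type) [Field k] : atInf k X * MQp_ps k PowerSeries.X = 1 := by
  rw [MQp_atInfX, HahnSeries.ofPowerSeries_X, HahnSeries.single_mul_single]
  simp

/-- a Laurent series is a power series after multiplication by a power of the parameter -/
theorem MQp_ls {k : Type} [Field k] (a : LaurentSeries k) : ∃ n : ℕ, ∀ m : ℕ, n ≤ m →
    ∃ u : PowerSeries k, a = atInf k X ^ m * MQp_ps k u := by
  refine ⟨(-a.order).toNat, fun m hm => ?_⟩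
  refine ⟨PowerSeries.mk fun i => a.coeff ((i : ℤ) - m), ?_⟩
  ext i
  rw [MQp_atInfX, HahnSeries.single_pow, one_pow]
  have h1 : i = (i + m) + (m • (-1 : ℤ)) := by simp
  conv_rhs => rw [h1, HahnSeries.coeff_single_mul_add, one_mul, MQp_ps_coeff]
  split_ifs with h2
  · refine HahnSeries.coeff_eq_zero_of_lt_order ?_
    omega
  · rw [PowerSeries.coeff_mk]
    congr 1
    omega

section

variable {k : Type} [Field k] {H : Type} [Group H] [Fintype H] [DecidableEq H] {B : Type}
  [CommRing B] [Algebra k[X] B] [MulSemiringAction H B]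

/-- the matrix of the conjugates -/
def MQp_M (e : H → B) : Matrix H H B := Matrix.of fun g h => g • e h

theorem MQp_smul_det (τ : H) (e : H → B) :
    τ • (MQp_M e).det = ((Equiv.Perm.sign (Equiv.mulLeft τ) : ℤ) : B) * (MQp_M e).det := by
  rw [← Matrix.det_permute]
  have h1 := RingHom.map_det (MulSemiringAction.toRingHom H B τ) (MQp_M e)
  rw [MulSemiringAction.toRingHom_apply] at h1
  rw [h1]
  congr 1
  ext g h
  simp only [RingHom.mapMatrix_apply, Matrix.map_apply, MulSemiringAction.toRingHom_apply, MQp_M,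
    Matrix.of_apply, Matrix.submatrix_apply, Equiv.coe_mulLeft, id_eq, mul_smul]

theorem MQp_sq (hB : GalAlg k[X] H B) (e : H → B) :
    ∃ c : k[X], algebraMap k[X] B c = (MQp_M e).det ^ 2 := by
  refine hB.inv _ fun τ => ?_
  rw [smul_pow', MQp_smul_det, mul_pow, ← Int.cast_pow]
  have h1 : ((Equiv.Perm.sign (Equiv.mulLeft τ) : ℤ)) ^ 2 = 1 := by
    rw [← Units.val_pow_eq_pow_val, Int.units_sq, Units.val_one]
  rw [h1, Int.cast_one, one_mul]

/-- the initial family -/
theorem MQp_init [IsDomain B] (hB : GalAlg k[X] H B) :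
    ∃ (e : H → B) (c : k), c ≠ 0 ∧ (MQp_M e).det ^ 2 = algebraMap k[X] B (C c) := by
  have hfin : Module.Finite k[X] B := gal_finite hB
  obtain ⟨n, x, y, hxy⟩ := prf_E2 H B hB.unr
  obtain ⟨hfree, hrank⟩ := prf_E1 k H B hB.inj hB.comm hfin hB.inv (by
    intro σ hσ
    by_contra hcon
    push Not at hcon
    have h1 := hB.unr σ hσ
    have h2 : Ideal.span {x : B | ∃ b : B, x = b - σ • b} = ⊥ := by
      rw [Ideal.span_eq_bot]
      rintro x ⟨b, rfl⟩
      rw [hcon b, sub_self]
    rw [h2] at h1
    exact bot_ne_top h1)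
  let β : Module.Basis H k[X] B := (Module.finBasisOfFinrankEq k[X] B
    (hrank.trans Nat.card_eq_fintype_card)).reindex (Fintype.equivFin H).symm
  let f : H → B := fun h => ∑ m, algebraMap k[X] B (β.repr (x m) h) * y m
  have hf : ∀ σ : H, ∑ h, β h * (σ • f h) = if σ = 1 then 1 else 0 := by
    intro σ
    have h1 : ∀ h, β h * (σ • f h) =
        ∑ m, (β.repr (x m) h • β h) * (σ • y m) := by
      intro h
      simp only [f]
      rw [Finset.smul_sum, Finset.mul_sum]
      refine Finset.sum_congr rfl fun m _ => ?_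
      rw [smul_mul', hB.comm, Algebra.smul_def]
      ring
    rw [Finset.sum_congr rfl fun h _ => h1 h, Finset.sum_comm]
    have h2 : ∀ m, ∑ h, (β.repr (x m) h • β h) * (σ • y m) = x m * (σ • y m) := by
      intro m
      rw [← Finset.sum_mul, β.sum_repr]
    rw [Finset.sum_congr rfl fun m _ => h2 m]
    convert hxy σ
  have hMN : MQp_M (fun h => β h) * (MQp_M f).transpose = 1 := by
    ext g g'
    rw [Matrix.mul_apply, Matrix.one_apply]
    have h1 : ∀ h, MQp_M (fun h => β h) g h * (MQp_M f).transpose h g' =
        g • (β h * ((g⁻¹ * g') • f h)) := by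
      intro h
      simp only [MQp_M, Matrix.of_apply, Matrix.transpose_apply]
      rw [smul_mul', smul_smul, mul_inv_cancel_left]
    rw [Finset.sum_congr rfl fun h _ => h1 h, ← Finset.smul_sum, hf]
    by_cases h2 : g = g'
    · subst h2
      simp
    · rw [if_neg h2, if_neg (fun h3 => h2 (by rwa [inv_mul_eq_one] at h3)), smul_zero]
  have hdet : (MQp_M (fun h => β h)).det * (MQp_M f).det = 1 := by
    rw [← Matrix.det_transpose (MQp_M f), ← Matrix.det_mul, hMN, Matrix.det_one]
  obtain ⟨c, hc⟩ := MQp_sq hB (fun h => β h)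
  obtain ⟨c', hc'⟩ := MQp_sq hB f
  have hcc : c * c' = 1 := by
    apply hB.inj
    rw [map_mul, hc, hc', ← mul_pow, hdet, one_pow, map_one]
  obtain ⟨r, hr, hrc⟩ := Polynomial.isUnit_iff.1 (IsUnit.of_mul_eq_one _ hcc)
  exact ⟨fun h => β h, r, hr.ne_zero, by rw [hrc, hc]⟩

omit [DecidableEq H] in
/-- elements without poles that vanish at one place over infinity are zero -/
theorem MQp_zero [IsDomain B] (hB : GalAlg k[X] H B) (j : B →+* LaurentSeries k)
    (hj : ∀ f : k[X], j (algebraMap k[X] B f) = atInf k f) (b : B) (u : H → PowerSeries k)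
    (hu : ∀ g, j (g • b) = MQp_ps k (u g)) (g₀ : H) (h0 : PowerSeries.constantCoeff (u g₀) = 0) :
    b = 0 := by
  obtain ⟨f, hf⟩ := hB.inv (∏ g : H, g • b) (fun τ => by
    rw [Finset.smul_prod']
    rw [← Equiv.prod_comp (Equiv.mulLeft τ) (fun g => g • b)]
    refine Finset.prod_congr rfl fun g _ => ?_
    rw [Equiv.coe_mulLeft, mul_smul])
  have h1 : atInf k f = MQp_ps k (∏ g : H, u g) := by
    rw [← hj, hf, map_prod, map_prod]
    exact Finset.prod_congr rfl fun g _ => hu g
  have h2 : f = 0 := by
    ext n
    have h3 := E3_atInf_coeff k f (-(n : ℤ))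
    rw [if_pos (by omega), neg_neg, Int.toNat_natCast] at h3
    rw [← h3, h1, MQp_ps_coeff]
    split_ifs with h4
    · simp
    · have h5 : n = 0 := by omega
      subst h5
      simp only [Nat.cast_zero, neg_zero, Int.natAbs_zero, coeff_zero]
      rw [PowerSeries.coeff_zero_eq_constantCoeff_apply, map_prod]
      exact Finset.prod_eq_zero (Finset.mem_univ g₀) h0
  rw [h2, map_zero] at hf
  obtain ⟨g, _, hg⟩ := Finset.prod_eq_zero_iff.1 hf.symm
  have h3 : g⁻¹ • (g • b) = 0 := by rw [hg, smul_zero]
  rwa [inv_smul_smul] at h3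

/-- the reduction -/
theorem MQp_red [IsDomain B] (hB : GalAlg k[X] H B) (j : B →+* LaurentSeries k)
    (hj : ∀ f : k[X], j (algebraMap k[X] B f) = atInf k f) : ∀ (s : ℕ) (e : H → B) (c : k)
    (n : H → ℕ) (u : H → H → PowerSeries k), c ≠ 0 →
    (MQp_M e).det ^ 2 = algebraMap k[X] B (C c) →
    (∀ g h, j (g • e h) = atInf k X ^ n h * MQp_ps k (u g h)) → ∑ h, n h = s →
    Subsingleton H := by
  intro s
  induction s using Nat.strong_induction_on with
  | _ s ih =>
  intro e c n u hc hdet hu hs
  -- the determinant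
  have hXne : atInf k X ≠ 0 := fun h => by
    have := MQp_XpsX k
    rw [h, zero_mul] at this
    exact zero_ne_one this
  have hD : j (MQp_M e).det = atInf k X ^ s * MQp_ps k (Matrix.of u).det := by
    rw [RingHom.map_det]
    have h1 : j.mapMatrix (MQp_M e) =
        Matrix.of fun g h => atInf k X ^ n h * ((MQp_ps k).mapMatrix (Matrix.of u)) g h := by
      ext g h
      simp only [RingHom.mapMatrix_apply, Matrix.map_apply, MQp_M, Matrix.of_apply]
      rw [hu]
    rw [h1, Matrix.det_mul_row, Finset.prod_pow_eq_pow_sum, hs, RingHom.map_det]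
  have hD2 : atInf k X ^ (2 * s) * MQp_ps k ((Matrix.of u).det ^ 2) = MQp_ps k (PowerSeries.C c) := by
    rw [← MQp_atInfC, ← hj (C c), ← hdet, map_pow, map_pow, hD]
    ring
  have hD3 : (Matrix.of u).det ^ 2 = PowerSeries.C c * PowerSeries.X ^ (2 * s) := by
    apply HahnSeries.ofPowerSeries_injective (Γ := ℤ) (R := k)
    have h1 : MQp_ps k ((Matrix.of u).det ^ 2) =
        MQp_ps k (PowerSeries.C c) * MQp_ps k PowerSeries.X ^ (2 * s) := by
      rw [← hD2, mul_right_comm, ← mul_pow, MQp_XpsX, one_pow, one_mul]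
    rw [h1, map_mul, map_pow]
  rcases Nat.eq_zero_or_pos s with hs0 | hs0
  · -- all degrees are zero
    subst hs0
    have hn : ∀ h, n h = 0 := by
      intro h
      exact (Finset.sum_eq_zero_iff.1 hs) h (Finset.mem_univ h)
    have he : ∀ h, e h = algebraMap k[X] B (C (PowerSeries.constantCoeff (u 1 h))) := by
      intro h
      rw [← sub_eq_zero]
      refine MQp_zero hB j hj _
        (fun g => u g h - PowerSeries.C (PowerSeries.constantCoeff (u 1 h))) ?_ 1 ?_
      · intro g
        rw [smul_sub, hB.comm, map_sub, hu, hn, pow_zero, one_mul, hj, MQp_atInfC, map_sub]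
      · rw [map_sub, PowerSeries.constantCoeff_C, sub_self]
    refine ⟨fun g₁ g₂ => ?_⟩
    by_contra hg
    have h1 : (MQp_M e).det = 0 := by
      refine Matrix.det_zero_of_row_eq hg ?_
      funext h
      simp only [MQp_M, Matrix.of_apply]
      rw [he h, hB.comm, hB.comm]
    rw [h1, zero_pow two_ne_zero] at hdet
    have h2 : (0 : k[X]) = C c := hB.inj (by rw [map_zero]; exact hdet)
    exact hc (C_eq_zero.1 h2.symm)
  · -- reduction
    have hL : ((PowerSeries.constantCoeff (R := k)).mapMatrix (Matrix.of u)).det = 0 := by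
      rw [← RingHom.map_det]
      have h1 := congrArg PowerSeries.constantCoeff hD3
      rw [map_pow, map_mul, map_pow, PowerSeries.constantCoeff_X, zero_pow (by omega),
        mul_zero] at h1
      exact pow_eq_zero_iff (two_ne_zero) |>.1 h1
    obtain ⟨v, hv0, hv⟩ := Matrix.exists_mulVec_eq_zero_iff.2 hL
    obtain ⟨h₁, hh₁⟩ : ∃ h, v h ≠ 0 := by
      by_contra hcon
      push Not at hcon
      exact hv0 (funext hcon)
    classical
    obtain ⟨h₀, hh₀, hmax⟩ := Finset.exists_max_image (Finset.univ.filter fun h => v h ≠ 0) n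
      ⟨h₁, by simp [hh₁]⟩
    have hvh₀ : v h₀ ≠ 0 := (Finset.mem_filter.1 hh₀).2
    have hmax' : ∀ h, v h ≠ 0 → n h ≤ n h₀ := fun h hh =>
      hmax h (Finset.mem_filter.2 ⟨Finset.mem_univ h, hh⟩)
    -- the new element
    let a : H → k[X] := fun h => C (v h) * X ^ (n h₀ - n h)
    let e₀ : B := ∑ h, algebraMap k[X] B (a h) * e h
    have hw : ∀ g : H, ∃ w : PowerSeries k,
        ∑ h, PowerSeries.C (v h) * u g h = PowerSeries.X * w := by
      intro g
      have h1 : PowerSeries.constantCoeff (∑ h, PowerSeries.C (v h) * u g h) = 0 := by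
        rw [map_sum]
        have h2 := congrFun hv g
        simp only [Matrix.mulVec, dotProduct, RingHom.mapMatrix_apply, Matrix.map_apply,
          Matrix.of_apply, Pi.zero_apply] at h2
        rw [← h2]
        refine Finset.sum_congr rfl fun h _ => ?_
        rw [map_mul, PowerSeries.constantCoeff_C, mul_comm]
      exact PowerSeries.X_dvd_iff.2 h1
    choose w hw using hw
    have he₀ : ∀ g, j (g • e₀) = atInf k X ^ n h₀ * MQp_ps k (PowerSeries.X * w g) := by
      intro g
      simp only [e₀]
      rw [Finset.smul_sum, map_sum, ← hw, map_sum, Finset.mul_sum]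
      refine Finset.sum_congr rfl fun h _ => ?_
      rw [smul_mul', hB.comm, map_mul, hj, hu, map_mul, map_mul]
      by_cases hvh : v h = 0
      · rw [hvh]
        simp
      · rw [map_pow, MQp_atInfC]
        have h2 : atInf k X ^ n h₀ = atInf k X ^ (n h₀ - n h) * atInf k X ^ n h := by
          rw [← pow_add, Nat.sub_add_cancel (hmax' h hvh)]
        rw [h2]
        ring
    have hdet' : (MQp_M (Function.update e h₀ e₀)).det =
        algebraMap k[X] B (C (v h₀)) * (MQp_M e).det := by
      have h1 := Matrix.det_updateCol_sum (MQp_M e) h₀ (fun h => algebraMap k[X] B (a h))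
      have h2 : algebraMap k[X] B (a h₀) = algebraMap k[X] B (C (v h₀)) := by
        simp only [a]
        rw [Nat.sub_self, pow_zero, mul_one]
      rw [smul_eq_mul, h2] at h1
      rw [← h1]
      congr 1
      ext g h
      by_cases hh : h = h₀
      · subst hh
        rw [Matrix.updateCol_self]
        simp only [MQp_M, Matrix.of_apply, Function.update_self, e₀]
        rw [Finset.smul_sum]
        refine Finset.sum_congr rfl fun h _ => ?_
        rw [smul_mul', hB.comm, smul_eq_mul]
      · rw [Matrix.updateCol_ne hh]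
        simp only [MQp_M, Matrix.of_apply, Function.update_of_ne hh]
    have hdet'' : (MQp_M (Function.update e h₀ e₀)).det ^ 2 =
        algebraMap k[X] B (C (v h₀ ^ 2 * c)) := by
      rw [hdet', mul_pow, hdet, C_mul, C_pow, map_mul, map_pow]
    have hcne : v h₀ ^ 2 * c ≠ 0 := mul_ne_zero (pow_ne_zero 2 hvh₀) hc
    rcases Nat.eq_zero_or_pos (n h₀) with hn | hn
    · -- the new element is zero
      exfalso
      have h1 : e₀ = 0 := by
        refine MQp_zero hB j hj e₀ (fun g => PowerSeries.X * w g) (fun g => ?_) 1 ?_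
        · rw [he₀, hn, pow_zero, one_mul]
        · simp
      have h2 : (MQp_M (Function.update e h₀ e₀)).det = 0 := by
        refine Matrix.det_eq_zero_of_column_eq_zero h₀ fun g => ?_
        simp only [MQp_M, Matrix.of_apply, Function.update_self]
        rw [h1, smul_zero]
      rw [h2, zero_pow two_ne_zero] at hdet''
      have h3 : (0 : k[X]) = C (v h₀ ^ 2 * c) := hB.inj (by rw [map_zero]; exact hdet'')
      exact hcne (C_eq_zero.1 h3.symm)
    · refine ih (∑ h, Function.update n h₀ (n h₀ - 1) h) ?_ (Function.update e h₀ e₀)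
        (v h₀ ^ 2 * c) (Function.update n h₀ (n h₀ - 1))
        (fun g => Function.update (u g) h₀ (w g)) hcne hdet'' ?_ rfl
      · rw [← hs]
        refine Finset.sum_lt_sum (fun h _ => ?_) ⟨h₀, Finset.mem_univ h₀, ?_⟩
        · by_cases hh : h = h₀
          · subst hh
            rw [Function.update_self]
            omega
          · rw [Function.update_of_ne hh]
        · rw [Function.update_self]
          omega
      · intro g h
        by_cases hh : h = h₀
        · subst hh
          simp only [Function.update_self]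
          rw [he₀, map_mul, ← mul_assoc]
          congr 1
          obtain ⟨m, hm⟩ : ∃ m, n h = m + 1 := ⟨n h - 1, by omega⟩
          rw [hm, Nat.add_sub_cancel, pow_succ, mul_assoc, MQp_XpsX, mul_one]
        · simp only [Function.update_of_ne hh]
          exact hu g h

/-- the core statement: no connected covers that are split at infinity -/
theorem MQp_core [IsDomain B] (hB : GalAlg k[X] H B) (j : B →+* LaurentSeries k)
    (hj : ∀ f : k[X], j (algebraMap k[X] B f) = atInf k f) : Subsingleton H := by
  obtain ⟨e, c, hc, hdet⟩ := MQp_init hB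
  have h1 : ∀ h : H, ∃ n : ℕ, ∀ g : H, ∃ u : PowerSeries k,
      j (g • e h) = atInf k X ^ n * MQp_ps k u := by
    intro h
    choose m hm using fun g : H => MQp_ls (j (g • e h))
    refine ⟨∑ g, m g, fun g => hm g _ ?_⟩
    exact Finset.single_le_sum (f := m) (fun _ _ => Nat.zero_le _) (Finset.mem_univ g)
  choose n hn using h1
  choose u hu using hn
  exact MQp_red hB j hj _ e c n (fun g h => u h g) hc hdet (fun g h => hu h g) rfl

end

/-- the same for `Rel` -/
theorem MQp_rel (k : Type) [Field k] (H : Type) [Group H] [Finite H]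
    (h : Rel k H (⊥ : Subgroup H)) : Subsingleton H := by
  classical
  have := Fintype.ofFinite H
  obtain ⟨B, _, _, _, E, _, _, _, ι, hB, hd, hE, -, hι, -⟩ := h
  have hbij : Function.Bijective (algebraMap (LaurentSeries k) E) := by
    refine ⟨hE.inj, fun b => hE.inv b fun g => ?_⟩
    rw [Subsingleton.elim g 1, one_smul]
  let σ := RingEquiv.ofBijective (algebraMap (LaurentSeries k) E) hbij
  refine MQp_core hB (σ.symm.toRingHom.comp ι) fun f => ?_
  rw [RingHom.comp_apply, hι]
  exact σ.symm_apply_apply (atInf k f)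

end MP7b0bad.MT
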