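import Pool.Agent.Work.MP_7b0bad_ag.MT.GStmts
import Pool.Agent.Work.MP_7b0bad_ag.MT.MQpC
import Pool.Agent.Work.MP_7b0bad_ag.Bd.B15
import Pool.Agent.Work.MP_7b0bad_ag.SV.VBase
import Pool.Agent.Work.MP_7b0bad_ag.SV.VBC
import Pool.Agent.Work.MP_7b0bad_ag.SV.VBcI
import Pool.Agent.Work.MP_7b0bad_ag.SV.VBcU
import Pool.Agent.Work.MP_7b0bad_ag.SV.VCp
import Pool.Agent.Work.MP_7b0bad_ag.SV.VCR
import Pool.Agent.Work.MP_7b0bad_ag.SV.VFld
import Pool.Agent.Work.MP_7b0bad_ag.SV.VH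
import Pool.Agent.Work.MP_7b0bad_ag.SV.VHom
import Pool.Agent.Work.MP_7b0bad_ag.SV.VKum
import Pool.Agent.Work.MP_7b0bad_ag.SV.VLT
import Pool.Agent.Work.MP_7b0bad_ag.SV.VNaq
import Pool.Agent.Work.MP_7b0bad_ag.SV.VNrm
import Pool.Agent.Work.MP_7b0bad_ag.SV.VPl
import Pool.Agent.Work.MP_7b0bad_ag.SV.VQuo
import Pool.Agent.Work.MP_7b0bad_ag.SV.VRC
import Pool.Agent.Work.MP_7b0bad_ag.SV.VRg
import Pool.Agent.Work.MP_7b0bad_ag.SV.VSt
import Pool.Agent.Work.MP_7b0bad_ag.SV.VStI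
import Pool.Agent.Work.MP_7b0bad_ag.SV.VSub
import Pool.Agent.Work.MP_7b0bad_ag.SV.VSur
import Pool.Agent.Work.MP_7b0bad_ag.SV.VUp

set_option autoImplicit false

/-!
# Item MQp: the `p`-part of the inertia group generates as a normal subgroup
-/

namespace MP7b0bad.MT

open Polynomial

/-- the known converse direction: tame covers of the affine line are trivial -/
def MQp : Prop := ∀ (k : Type) [Field k] [IsAlgClosed k] (p : ℕ) [Fact p.Prime] [CharP k p]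
  (H : Type) [Group H] [Finite H] (P : Subgroup H) (c : H), Nz p P c →
  Rel k H (P ⊔ Subgroup.zpowers c) → Subgroup.normalClosure (P : Set H) = ⊤

theorem MQp_VRC : SV.VRC := SV.prf_VRC SV.prf_VHom

theorem MQp_VCR : SV.VCR :=
  SV.prf_VCR SV.prf_VPl SV.prf_VCp SV.prf_VFld
    (SV.prf_VRg SV.prf_VPl SV.prf_VFld SV.prf_VH all_YEt)

theorem MQp_VBase : SV.VBase := SV.prf_VBase SV.prf_VPl SV.prf_VH

theorem MQp_VQuo : SV.VQuo := SV.prf_VQuo MQp_VBase MQp_VRC MQp_VCR SV.prf_VCp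

theorem MQp_VLT : SV.VLT := SV.prf_VLT SV.prf_VKum all_YRoot

theorem MQp_VUp : SV.VUp := SV.prf_VUp SV.prf_VPl SV.prf_VCp SV.prf_VH SV.prf_VSub

theorem MQp_VBC : SV.VBC :=
  SV.prf_VBC MQp_VBase MQp_VRC MQp_VCR
    (SV.prf_VSur SV.prf_VNrm (SV.prf_VNaq SV.prf_VPl SV.prf_VH SV.prf_VKum))
    (SV.prf_VBcU MQp_VUp SV.prf_VH SV.prf_VCp)
    (SV.prf_VBcI SV.prf_VPl SV.prf_VCp SV.prf_VH)
    (SV.prf_VSt all_YRoot all_YDim) (SV.prf_VStI MQp_VLT) SV.prf_VPl SV.prf_VH SV.prf_VCp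
    SV.prf_VSub

theorem prf_MQp : MQp := by
  intro k _ _ p _ _ H _ _ P c hN hR
  let N : Subgroup H := Subgroup.normalClosure (P : Set H)
  have hPN : P ≤ N := Subgroup.le_normalClosure
  have h1 := MQp_VQuo.1 k p H (H ⧸ N) (QuotientGroup.mk' N) _ (QuotientGroup.mk'_surjective N) hR
  have h2 : (P ⊔ Subgroup.zpowers c).map (QuotientGroup.mk' N) =
      GT.Pc (⊥ : Subgroup (H ⧸ N)) ((c : H) : H ⧸ N) := by
    unfold GT.Pc
    rw [Subgroup.map_sup, MonoidHom.map_zpowers]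
    congr 1
    rw [eq_bot_iff]
    rintro _ ⟨x, hx, rfl⟩
    rw [Subgroup.mem_bot]
    exact (QuotientGroup.eq_one_iff x).2 (hPN hx)
  rw [h2] at h1
  have hD : GT.Dat0 p (⊥ : Subgroup (H ⧸ N)) ((c : H) : H ⧸ N) := by
    refine ⟨IsPGroup.of_bot, fun u hu => ?_, fun hd => hN.2.1 ?_⟩
    · rw [Subgroup.mem_bot] at hu ⊢
      rw [hu, mul_one, mul_inv_cancel]
    · exact hd.trans (orderOf_map_dvd (QuotientGroup.mk' N) c)
  have h3 := MQp_VBC k p (H ⧸ N) ⊥ ((c : H) : H ⧸ N) (orderOf c) hD hN.2.1 h1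
  have h4 : (((c : H) : H ⧸ N)) ^ orderOf c = 1 := by
    rw [← QuotientGroup.mk_pow, pow_orderOf_eq_one, QuotientGroup.mk_one]
  have h5 : GT.Pc (⊥ : Subgroup (H ⧸ N)) 1 = ⊥ := by
    unfold GT.Pc
    rw [Subgroup.zpowers_one_eq_bot, bot_sup_eq]
  rw [h4, h5] at h3
  have h6 := MQp_rel k (H ⧸ N) h3
  rw [eq_top_iff]
  intro x _
  exact (QuotientGroup.eq_one_iff x).1 (Subsingleton.elim _ _)

end MP7b0bad.MT
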