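import Pool.Agent.Work.MP_7b0bad_ag.MT.GStmts
import Pool.Agent.Work.MP_7b0bad_ag.AllH

set_option autoImplicit false

/-!
# Alternating groups, `p` odd: the group `G₁` contains a `p`-cycle
-/

namespace MP7b0bad.MT

open Polynomial

/-- from `Rel k G D` to the subgroup `⊤` -/
theorem ANmain_toTop (k : Type) [Field k] (G : Type) [Group G] (D : Subgroup G)
    (h : Rel k G D) : Rel k (⊤ : Subgroup G) (D.subgroupOf ⊤) := by
  have h1 := all_QIso k G (⊤ : Subgroup G) Subgroup.topEquiv.symm D h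
  have h2 : D.map (Subgroup.topEquiv (G := G)).symm.toMonoidHom = D.subgroupOf ⊤ := by
    ext x
    rw [Subgroup.mem_subgroupOf, Subgroup.mem_map]
    constructor
    · rintro ⟨y, hy, rfl⟩
      exact hy
    · intro hx
      exact ⟨(x : G), hx, Subtype.ext rfl⟩
  rw [h2] at h1
  exact h1

/-- from the subgroup `⊤` to `Rel k G D` -/
theorem ANmain_ofTop (k : Type) [Field k] (G : Type) [Group G] (D : Subgroup G)
    (h : Rel k (⊤ : Subgroup G) (D.subgroupOf ⊤)) : Rel k G D := by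
  have h1 := all_QIso k (⊤ : Subgroup G) G Subgroup.topEquiv (D.subgroupOf ⊤) h
  have h2 : (D.subgroupOf ⊤).map (Subgroup.topEquiv (G := G)).toMonoidHom = D := by
    ext x
    rw [Subgroup.mem_map]
    constructor
    · rintro ⟨y, hy, rfl⟩
      exact Subgroup.mem_subgroupOf.mp hy
    · intro hx
      exact ⟨⟨x, Subgroup.mem_top x⟩, Subgroup.mem_subgroupOf.mpr hx, rfl⟩
  rw [h2] at h1
  exact h1

/-- the subgroup `⟨x⟩⟨c⟩` of a subgroup `A` -/
theorem ANmain_sub {G : Type} [Group G] (A : Subgroup G) (x c : A) :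
    (Subgroup.zpowers (x : G) ⊔ Subgroup.zpowers (c : G)).subgroupOf A
      = Subgroup.zpowers x ⊔ Subgroup.zpowers c := by
  have h1 : (Subgroup.zpowers x ⊔ Subgroup.zpowers c).map A.subtype
      = Subgroup.zpowers (x : G) ⊔ Subgroup.zpowers (c : G) := by
    rw [Subgroup.map_sup, MonoidHom.map_zpowers, MonoidHom.map_zpowers]
    rfl
  rw [← h1]
  exact Subgroup.comap_map_eq_self_of_injective A.subtype_injective _

/-- the trivial group -/
theorem ANmain_bot (k : Type) [Field k] [IsAlgClosed k] (p : ℕ) [Fact p.Prime] [CharP k p]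
    (G : Type) [Group G] [Finite G] : Rz k (⊥ : Subgroup G) (1 : G) ⊥ := by
  have h0 : (⊥ : Subgroup G) ⊔ Subgroup.zpowers (1 : G) = ⊥ := by
    rw [Subgroup.zpowers_one_eq_bot, sup_bot_eq]
  refine ⟨h0.le, ?_⟩
  rw [h0, Subgroup.subgroupOf_self]
  exact all_QRP k p (⊥ : Subgroup G) IsPGroup.of_bot

/-- alternating groups -/
theorem prf_ANmain (hMRz : MRz) (hANgrp : ANgrp) (hANax : ANax) : ANmain := by
  intro k _ _ p _ _ n hp hn P x c hPc hxP hxc hxs hcx
  have hp1 : p.Prime := Fact.out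
  -- the relation for permutations
  have hco : orderOf (c : Equiv.Perm (Fin n)) = orderOf c := Subgroup.orderOf_coe c
  have hcp : ¬ p ∣ orderOf (c : Equiv.Perm (Fin n)) := by
    rw [hco]
    exact hPc.2.1
  have hcx' : ∃ a : ℕ, (c : Equiv.Perm (Fin n)) * x * (c : Equiv.Perm (Fin n))⁻¹
      = (x : Equiv.Perm (Fin n)) ^ a := by
    obtain ⟨a, ha⟩ := hcx
    refine ⟨a, ?_⟩
    have := congrArg (fun g : alternatingGroup (Fin n) => (g : Equiv.Perm (Fin n))) ha
    simpa using this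
  have hZ := hANgrp p n hp hn _ (hANax k p n hp) (x : Equiv.Perm (Fin n))
    (c : Equiv.Perm (Fin n)) hxc hxs c.2 hcp hcx'
  have hRz := hZ.2.2.2.2
  rw [ANmain_sub] at hRz
  have hR0 : Rz k (Subgroup.zpowers x) c (⊤ : Subgroup (alternatingGroup (Fin n))) :=
    ⟨le_top, ANmain_toTop k _ _ hRz⟩
  -- the join with the trivial group
  have hone : Nz p P (1 : alternatingGroup (Fin n)) := by
    refine ⟨hPc.1, ?_, ?_⟩
    · rw [orderOf_one]
      exact hp1.one_lt.ne' ∘ Nat.dvd_one.mp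
    · intro y hy
      simpa using hy
  have hbot : Nz p (⊥ : Subgroup (alternatingGroup (Fin n))) (1 : alternatingGroup (Fin n)) := by
    refine ⟨IsPGroup.of_bot, ?_, ?_⟩
    · rw [orderOf_one]
      exact hp1.one_lt.ne' ∘ Nat.dvd_one.mp
    · intro y hy
      simpa using hy
  have hxP' : Subgroup.zpowers x ≤ P := by
    rw [Subgroup.zpowers_le]
    exact hxP
  have hzx : Nz p (Subgroup.zpowers x) c := by
    refine ⟨hPc.1.to_le hxP', hPc.2.1, ?_⟩
    intro y hy
    obtain ⟨a, ha⟩ := hcx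
    obtain ⟨m, rfl⟩ := Subgroup.mem_zpowers_iff.mp hy
    rw [← conj_zpow, ha]
    exact Subgroup.zpow_mem _ (Subgroup.pow_mem _ (Subgroup.mem_zpowers x) a) m
  have h := hMRz k p (alternatingGroup (Fin n)) P (Subgroup.zpowers x) ⊥ ⊤ ⊥ c 1 hPc hone hzx
    hbot hxP' bot_le (by rw [mul_one, one_mul]) hR0 (ANmain_bot k p _)
  rw [mul_one, sup_top_eq, top_sup_eq] at h
  exact ANmain_ofTop k _ _ h.2

end MP7b0bad.MT
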