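import Pool.Agent.Work.MP_7b0bad_ag.MT.GStmts
import Pool.Agent.Work.MP_7b0bad_ag.SV.VAll

set_option autoImplicit false

/-!
# The axioms for the covers with inertia group generated by a `p`-cycle and a tame element
-/

namespace MP7b0bad.MT

/-- images under homomorphisms -/
theorem anax_tr {k : Type} [Field k] [IsAlgClosed k] (p : ℕ) [Fact p.Prime] [CharP k p]
    {G G' : Type} [Group G] [Finite G] [Group G'] (f : G →* G') {P : Subgroup G} {c : G}
    {H : Subgroup G} (h : Rz k P c H) : Rz k (P.map f) (f c) (H.map f) := by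
  obtain ⟨h1, h2⟩ := h
  have hm : ((P ⊔ Subgroup.zpowers c).subgroupOf H).map (f.subgroupMap H)
      = (P.map f ⊔ Subgroup.zpowers (f c)).subgroupOf (H.map f) := by
    rw [← MonoidHom.map_zpowers, ← Subgroup.map_sup]
    ext ⟨y, hy⟩
    simp only [Subgroup.mem_map, Subgroup.mem_subgroupOf]
    constructor
    · rintro ⟨x, hx, hxy⟩
      exact ⟨x, hx, by simpa using congrArg Subtype.val hxy⟩
    · rintro ⟨x, hx, hxy⟩
      exact ⟨⟨x, h1 hx⟩, hx, Subtype.ext (by simpa using hxy)⟩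
  refine ⟨?_, ?_⟩
  · rw [← MonoidHom.map_zpowers, ← Subgroup.map_sup]
    exact Subgroup.map_mono h1
  · rw [← hm]
    exact (SV.all_VRAx k p).quo H (H.map f) (f.subgroupMap H) _
      (MonoidHom.subgroupMap_surjective f H) h2

/-- conjugation by `c` preserves `⟨x⟩` -/
theorem anax_nz {G : Type} [Group G] {x c : G} (h : ∃ a : ℕ, c * x * c⁻¹ = x ^ a) :
    ∀ y ∈ Subgroup.zpowers x, c * y * c⁻¹ ∈ Subgroup.zpowers x := by
  obtain ⟨a, ha⟩ := h
  rintro y ⟨m, rfl⟩
  change c * x ^ m * c⁻¹ ∈ _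
  rw [← conj_zpow, ha]
  exact Subgroup.zpow_mem _ (Subgroup.pow_mem _ (Subgroup.mem_zpowers x) a) m

theorem anax_nz' {G : Type} [Group G] [Finite G] {x c : G}
    (h : ∀ y ∈ Subgroup.zpowers x, c * y * c⁻¹ ∈ Subgroup.zpowers x) :
    ∃ a : ℕ, c * x * c⁻¹ = x ^ a := by
  have h1 := h x (Subgroup.mem_zpowers x)
  rw [← mem_powers_iff_mem_zpowers] at h1
  obtain ⟨a, ha⟩ := h1
  exact ⟨a, ha.symm⟩

/-- the elements `g` with `g ⟨x⟩ g⁻¹ ≤ ⟨x⟩` -/
theorem anax_nmem {G : Type} [Group G] [Finite G] {x c c' : G}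
    (h : ∃ a : ℕ, c * x * c⁻¹ = x ^ a)
    (hc : c' ∈ Subgroup.zpowers x ⊔ Subgroup.zpowers c) : ∃ a : ℕ, c' * x * c'⁻¹ = x ^ a := by
  have hn : ∀ g : G, g ∈ Subgroup.normalizer (Subgroup.zpowers x : Set G) ↔
      ∀ y ∈ Subgroup.zpowers x, g * y * g⁻¹ ∈ Subgroup.zpowers x := by
    intro g
    constructor
    · intro hg y hy
      exact (Subgroup.mem_normalizer_iff.mp hg y).mp hy
    · intro hg
      have hle : (Subgroup.zpowers x).map (MulAut.conj g).toMonoidHom ≤ Subgroup.zpowers x := by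
        rintro y ⟨z, hz, rfl⟩
        exact hg z hz
      have heq : (Subgroup.zpowers x).map (MulAut.conj g).toMonoidHom = Subgroup.zpowers x := by
        refine Subgroup.eq_of_le_of_card_ge hle ?_
        exact (Nat.card_congr ((Subgroup.zpowers x).equivMapOfInjective _
          (MulAut.conj g).injective).toEquiv).le
      refine Subgroup.mem_normalizer_iff.mpr fun y => ⟨fun hy => hg y hy, fun hy => ?_⟩
      have hy' : g * y * g⁻¹ ∈ (Subgroup.zpowers x).map (MulAut.conj g).toMonoidHom := by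
        rw [heq]
        exact hy
      obtain ⟨z, hz, hzy⟩ := hy'
      have : z = y := (MulAut.conj g).injective hzy
      exact this ▸ hz
  have h1 : Subgroup.zpowers x ⊔ Subgroup.zpowers c
      ≤ Subgroup.normalizer (Subgroup.zpowers x : Set G) := by
    refine sup_le Subgroup.le_normalizer ?_
    rw [Subgroup.zpowers_le]
    exact (hn c).mpr (anax_nz h)
  exact anax_nz' ((hn c').mp (h1 hc))

/-- powers of the tame generator -/
theorem anax_pow {k : Type} [Field k] [IsAlgClosed k] (p : ℕ) [Fact p.Prime] [CharP k p]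
    {G : Type} [Group G] [Finite G] {P H : Subgroup G} {c : G} (m : ℕ) (hP : Nz p P c)
    (h : Rz k P c H) : Rz k P (c ^ m) H := by
  obtain ⟨h1, h2⟩ := h
  obtain ⟨hp, ho, hn⟩ := hP
  have hPH : P ≤ H := le_sup_left.trans h1
  have hcH : Subgroup.zpowers c ≤ H := le_sup_right.trans h1
  have hc : c ∈ H := hcH (Subgroup.mem_zpowers c)
  have key : ∀ d : H, (P ⊔ Subgroup.zpowers (d : G)).subgroupOf H
      = GT.Pc (P.subgroupOf H) d := by
    intro d
    have hd : Subgroup.zpowers (d : G) ≤ H := (Subgroup.zpowers_le).mpr d.2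
    rw [Subgroup.subgroupOf_sup hPH hd]
    change _ = P.subgroupOf H ⊔ Subgroup.zpowers d
    congr 1
    have := MonoidHom.map_zpowers H.subtype d
    change _ = Subgroup.zpowers (d : G) at this
    rw [← this, Subgroup.subgroupOf]
    exact Subgroup.comap_map_eq_self_of_injective H.subtype_injective _
  have main : ∀ m' : ℕ, ¬ p ∣ m' → Rz k P (c ^ m') H := by
    intro m' hm'
    refine ⟨sup_le hPH ?_, ?_⟩
    · rw [Subgroup.zpowers_le]
      exact Subgroup.pow_mem _ hc m'
    · have e1 := key ⟨c, hc⟩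
      have e2 := key (⟨c, hc⟩ ^ m')
      change _ = GT.Pc (P.subgroupOf H) ⟨c, hc⟩ at e1
      change (P ⊔ Subgroup.zpowers (c ^ m')).subgroupOf H = _ at e2
      rw [e2]
      have h2' : Rel k H (GT.Pc (P.subgroupOf H) ⟨c, hc⟩) := by
        rw [← e1]
        exact h2
      refine (SV.all_VRAx k p).bc H (P.subgroupOf H) ⟨c, hc⟩ m' ⟨?_, ?_, ?_⟩ hm' h2'
      · exact hp.comap_of_injective H.subtype H.subtype_injective
      · intro u hu
        exact hn u hu
      · rw [Subgroup.orderOf_mk]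
        exact ho
  by_cases hm : p ∣ m
  · have hm' : ¬ p ∣ m + orderOf c := fun h => ho ((Nat.dvd_add_right hm).mp h)
    have := main _ hm'
    rwa [pow_add, pow_orderOf_eq_one, mul_one] at this
  · exact main m hm

theorem prf_ANax (hMRz : MRz) (hMSgn : MSgn) (hAb : AbMain) : ANax := by
  intro k _ _ p _ _ n hp2
  have hpp : p.Prime := Fact.out
  have hNz : ∀ x c : Equiv.Perm (Fin n), orderOf x = p → ¬ p ∣ orderOf c →
      (∃ a : ℕ, c * x * c⁻¹ = x ^ a) → Nz p (Subgroup.zpowers x) c := by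
    intro x c hx hc ha
    refine ⟨?_, hc, anax_nz ha⟩
    refine IsPGroup.of_card (n := 1) ?_
    rw [Nat.card_zpowers, hx, pow_one]
  refine ⟨?_, ?_, ?_, ?_, ?_, ?_, ?_⟩
  · -- dat
    rintro x c H ⟨h1, h2, h3, h4, -⟩
    refine ⟨h1, h2, h3, ?_, ?_⟩
    · exact (le_sup_left.trans h4) (Subgroup.mem_zpowers x)
    · exact (le_sup_right.trans h4) (Subgroup.mem_zpowers c)
  · -- alt
    rintro x c H ⟨h1, h2, h3, -, h5⟩ g hg
    rw [Equiv.Perm.mem_alternatingGroup]
    exact hMSgn k p H _ hp2 h5 (Equiv.Perm.sign.comp H.subtype) ⟨g, hg⟩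
  · -- conj
    rintro g x c H ⟨h1, h2, ⟨a, ha⟩, h4⟩
    have e : ∀ y : Equiv.Perm (Fin n), g * y * g⁻¹ = (MulAut.conj g).toMonoidHom y := fun y => rfl
    have hinj : Function.Injective (MulAut.conj g).toMonoidHom := (MulAut.conj g).injective
    refine ⟨?_, ?_, ⟨a, ?_⟩, ?_⟩
    · rw [e, orderOf_injective _ hinj]
      exact h1
    · rw [e, orderOf_injective _ hinj]
      exact h2
    · rw [e, e, ← map_inv, ← map_mul, ← map_mul, ← map_pow, ha]
    · have := anax_tr p (MulAut.conj g).toMonoidHom h4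
      rw [MonoidHom.map_zpowers] at this
      exact this
  · -- same
    rintro x c c' H ⟨h1, h2, h3, h4, h5⟩ hc' heq
    have hm : c' ∈ Subgroup.zpowers x ⊔ Subgroup.zpowers c := by
      rw [heq]
      exact (le_sup_right : Subgroup.zpowers c' ≤ _) (Subgroup.mem_zpowers c')
    refine ⟨h1, hc', anax_nmem h3 hm, ?_, ?_⟩
    · rw [← heq]
      exact h4
    · rw [← heq]
      exact h5
  · -- pow
    rintro x c H m ⟨h1, h2, h3, h4⟩
    refine ⟨h1, ?_, ?_, anax_pow p m (hNz x c h1 h2 h3) h4⟩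
    · exact fun h => h2 (h.trans (orderOf_pow_dvd m))
    · refine anax_nmem h3 ?_
      exact (le_sup_right : Subgroup.zpowers c ≤ _)
        (Subgroup.pow_mem _ (Subgroup.mem_zpowers c) m)
  · -- mul
    rintro x c₀ c₁ H₀ H₁ ⟨h1, h2, h3, h4⟩ ⟨g1, g2, g3, g4⟩ hcc
    have hN0 := hNz x c₀ h1 h2 h3
    have hN1 := hNz x c₁ g1 g2 g3
    refine ⟨h1, ?_, ?_, ?_⟩
    · intro hd
      have hcc' : Commute c₀ c₁ := hcc
      have := hd.trans (hcc'.orderOf_mul_dvd_mul_orderOf)
      rcases (Nat.Prime.dvd_mul hpp).mp this with h | h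
      · exact h2 h
      · exact g2 h
    · refine anax_nz' fun y hy => ?_
      have e1 := anax_nz g3 y hy
      have e2 := anax_nz h3 _ e1
      have e3 : c₀ * c₁ * y * (c₀ * c₁)⁻¹ = c₀ * (c₁ * y * c₁⁻¹) * c₀⁻¹ := by group
      rw [e3]
      exact e2
    · exact hMRz k p (Equiv.Perm (Fin n)) (Subgroup.zpowers x) (Subgroup.zpowers x)
        (Subgroup.zpowers x) H₀ H₁ c₀ c₁ hN0 hN1 hN0 hN1 le_rfl le_rfl hcc h4 g4
  · -- ab
    intro e he hpe hn
    obtain ⟨H, x, c, hx, hxs, hc, ⟨a, ha⟩, ⟨i₀, hi₀, hci₀⟩, hcS, hc1, hH, hR⟩ :=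
      hAb p k e hp2 he hpe
    let ι : Fin (p + e) ↪ Fin n := Fin.castLEEmb hn
    let V : Equiv.Perm (Fin (p + e)) →* Equiv.Perm (Fin n) := Equiv.Perm.viaEmbeddingHom ι
    have hVinj : Function.Injective V := Equiv.Perm.viaEmbeddingHom_injective ι
    have hV1 : ∀ (f : Equiv.Perm (Fin (p + e))) (i : Fin (p + e)), V f (ι i) = ι (f i) := by
      intro f i
      exact Equiv.Perm.viaEmbedding_apply f ι i
    have hV2 : ∀ (f : Equiv.Perm (Fin (p + e))) (i : Fin n), i ∉ Set.range ι → V f i = i := by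
      intro f i hi
      exact Equiv.Perm.viaEmbedding_apply_of_notMem f ι i hi
    have hsupp : ∀ f : Equiv.Perm (Fin (p + e)), (V f).support = f.support.map ι := by
      intro f
      ext i
      rw [Equiv.Perm.mem_support, Finset.mem_map]
      constructor
      · intro hi
        by_cases hr : i ∈ Set.range ι
        · obtain ⟨j, rfl⟩ := hr
          refine ⟨j, ?_, rfl⟩
          rw [Equiv.Perm.mem_support]
          intro hj
          exact hi (by rw [hV1, hj])
        · exact absurd (hV2 f i hr) hi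
      · rintro ⟨j, hj, rfl⟩
        rw [Equiv.Perm.mem_support] at hj
        rw [hV1]
        exact fun h => hj (ι.injective h)
    have hox : orderOf x = p := by rw [hx.orderOf, hxs]
    refine ⟨V x, V c, H.map V, (Finset.univ \ x.support).map ι, ⟨?_, ?_, ⟨a, ?_⟩, ?_⟩, ?_, ?_, ?_,
      ?_, ?_, ?_, ?_, ?_, ?_⟩
    · rw [orderOf_injective _ hVinj]
      exact hox
    · rw [orderOf_injective _ hVinj]
      exact hc
    · rw [← map_inv, ← map_mul, ← map_mul, ← map_pow, ha]
    · have := anax_tr p V hR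
      rw [MonoidHom.map_zpowers] at this
      exact this
    · -- cycle
      obtain ⟨j, hj, hj'⟩ := hx
      refine ⟨ι j, ?_, ?_⟩
      · rw [hV1]
        exact fun h => hj (ι.injective h)
      · intro y hy
        by_cases hr : y ∈ Set.range ι
        · obtain ⟨y', rfl⟩ := hr
          have hy' : x y' ≠ y' := fun h => hy (by rw [hV1, h])
          obtain ⟨m, hm⟩ := hj' hy'
          refine ⟨m, ?_⟩
          rw [← map_zpow, hV1, hm]
        · exact absurd (hV2 x y hr) hy
    · rw [hsupp, Finset.card_map, hxs]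
    · rw [Finset.card_map, Finset.card_sdiff_of_subset (Finset.subset_univ _), hxs,
        Finset.card_univ, Fintype.card_fin]
      omega
    · rw [hsupp, Finset.disjoint_map]
      exact Finset.sdiff_disjoint
    · refine ⟨ι i₀, ?_, ?_⟩
      · rw [hsupp]
        exact Finset.mem_map_of_mem ι hi₀
      · rw [hV1, hci₀]
    · rintro h ⟨h', -, rfl⟩ i hi hi'
      refine hV2 h' i ?_
      rintro ⟨j, rfl⟩
      by_cases hj : j ∈ x.support
      · exact hi (by rw [hsupp]; exact Finset.mem_map_of_mem ι hj)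
      · exact hi' (Finset.mem_map_of_mem ι (by simpa using hj))
    · have hran : ∀ i ∈ (V x).support ∪ (Finset.univ \ x.support).map ι, ∃ j, ι j = i := by
        intro i hi
        rw [hsupp, Finset.mem_union, Finset.mem_map, Finset.mem_map] at hi
        rcases hi with ⟨j, -, hj⟩ | ⟨j, -, hj⟩
        · exact ⟨j, hj⟩
        · exact ⟨j, hj⟩
      intro i hi j hj
      obtain ⟨i', rfl⟩ := hran i hi
      obtain ⟨j', rfl⟩ := hran j hj
      obtain ⟨h, hh, hij⟩ := hH i' j'
      exact ⟨V h, ⟨h, hh, rfl⟩, by rw [hV1, hij]⟩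
    · intro i hi j hj
      rw [Finset.mem_map] at hi hj
      obtain ⟨i', hi', rfl⟩ := hi
      obtain ⟨j', hj', rfl⟩ := hj
      rw [Finset.mem_sdiff] at hi' hj'
      obtain ⟨m, hm⟩ := hcS i' hi'.2 j' hj'.2
      refine ⟨m, ?_⟩
      rw [← map_pow, hV1, hm]
    · intro he1 m hm
      refine hc1 he1 m (hVinj ?_)
      rw [map_mul, map_mul, map_pow]
      exact hm

end MP7b0bad.MT
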