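import Pool.Agent.Work.MP_7b0bad_ag.MT.GStmts
import Pool.Agent.Work.MP_7b0bad_ag.SV.VBase
import Pool.Agent.Work.MP_7b0bad_ag.SV.VH
import Pool.Agent.Work.MP_7b0bad_ag.SV.VHom
import Pool.Agent.Work.MP_7b0bad_ag.SV.VKum
import Pool.Agent.Work.MP_7b0bad_ag.SV.VNaq
import Pool.Agent.Work.MP_7b0bad_ag.SV.VPl
import Pool.Agent.Work.MP_7b0bad_ag.SV.VRC

set_option autoImplicit false

/-!
# Item MSgn: there are no quadratic covers for odd `p`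
-/

namespace MP7b0bad.MT

open Polynomial

theorem prf_MSgn : MSgn := by
  intro k _ _ p _ _ H _ _ H₀ hp hR f h
  obtain ⟨Ω, Λ, _, _, _, _, hI, jI, ρI, hb⟩ := SV.prf_VBase SV.prf_VPl SV.prf_VH k p
  obtain ⟨Φ, hΦ⟩ := SV.prf_VRC SV.prf_VHom k p Ω Λ hI jI ρI hb H H₀ hR
  have hcard : ¬ p ∣ Nat.card ℤˣ := by
    intro hd
    have h2 : Nat.card ℤˣ = 2 := by
      rw [Nat.card_eq_fintype_card]
      rfl
    rw [h2] at hd
    exact hp ((Nat.prime_dvd_prime_iff_eq (Fact.out : p.Prime) Nat.prime_two).mp hd)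
  have h1 : f.comp Φ = 1 := by
    refine SV.prf_VNaq SV.prf_VPl SV.prf_VH SV.prf_VKum k p Ω Λ hI jI ρI hb ℤˣ hcard (f.comp Φ) ?_ ?_
    · obtain ⟨S, hS⟩ := hΦ.cts
      exact ⟨S, fun γ hγ => by rw [MonoidHom.comp_apply, hS γ hγ, map_one]⟩
    · intro a h' j ρ hh hc δ
      rw [MonoidHom.comp_apply, hΦ.unr a h' j ρ hh hc δ, map_one]
  obtain ⟨γ, rfl⟩ := hΦ.surj h
  exact DFunLike.congr_fun h1 γ

end MP7b0bad.MT
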