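import Pool.Agent.Work.MP_7b0bad_ag.MT.GStmts

set_option autoImplicit false

/-!
# Group theory for the alternating groups
-/

namespace MP7b0bad.MT

open Equiv Equiv.Perm

theorem ANgrp_ai {α : Type} (g : Perm α) (j : α) : g (g⁻¹ j) = j := g.apply_symm_apply j

theorem ANgrp_ia {α : Type} (g : Perm α) (j : α) : g⁻¹ (g j) = j := g.symm_apply_apply j

/-- a permutation with prescribed values -/
theorem ANgrp_ext {ι α : Type} [Fintype α] [DecidableEq α] (u' u : ι → α)
    (h : ∀ k l, u' k = u' l ↔ u k = u l) : ∃ g : Perm α, ∀ k, g (u' k) = u k := by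
  classical
  let f : α → α := fun y => if h : ∃ k, u' k = y then u h.choose else y
  have hf : ∀ k, f (u' k) = u k := by
    intro k
    have h1 : ∃ l, u' l = u' k := ⟨k, rfl⟩
    simp only [f]
    rw [dif_pos h1]
    exact (h _ _).1 h1.choose_spec
  obtain ⟨g, hg⟩ := Finset.exists_equiv_extend_of_card_eq (t := (Finset.univ : Finset α))
    (by simp) (s := Finset.univ.filter (fun y => ∃ k, u' k = y)) (f := f)
    (by intro y _; exact Finset.mem_univ _)
    (by
      intro y hy z hz hyz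
      simp only [Finset.coe_filter, Finset.mem_univ, true_and, Set.mem_ofPred_eq] at hy hz
      obtain ⟨k, rfl⟩ := hy
      obtain ⟨l, rfl⟩ := hz
      rw [hf, hf] at hyz
      exact (h _ _).2 hyz)
  refine ⟨g.trans (Equiv.subtypeUnivEquiv (fun y => Finset.mem_univ y)), fun k => ?_⟩
  have h2 := hg (u' k) (by simp only [Finset.mem_filter, Finset.mem_univ, true_and]; exact ⟨k, rfl⟩)
  rw [hf] at h2
  exact h2

theorem ANgrp_per {α : Type} (τ : Perm α) (j : α) (a b : ℕ) :
    (τ ^ a) j = (τ ^ b) j ↔ a ≡ b [MOD Function.minimalPeriod τ j] := by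
  wlog hab : a ≤ b generalizing a b
  · rw [eq_comm, this b a (by omega)]
    exact ⟨Nat.ModEq.symm, Nat.ModEq.symm⟩
  obtain ⟨c, rfl⟩ := Nat.exists_eq_add_of_le hab
  rw [pow_add, Perm.mul_apply, (τ ^ a).injective.eq_iff, eq_comm]
  have h1 : (τ ^ c) j = j ↔ Function.minimalPeriod τ j ∣ c := by
    rw [← Function.isPeriodicPt_iff_minimalPeriod_dvd, Function.IsPeriodicPt, Function.IsFixedPt,
      Equiv.Perm.iterate_eq_pow]
  rw [h1]
  constructor
  · intro h
    exact (Nat.modEq_iff_dvd' (by omega)).2 (by simpa using h)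
  · intro h
    simpa using (Nat.modEq_iff_dvd' (by omega)).1 h

theorem ANgrp_orb {α : Type} [Fintype α] [DecidableEq α] (τ : Perm α) (j : α) (S : Finset α)
    (h : ∀ i, i ∈ S ↔ ∃ t : ℕ, (τ ^ t) j = i) : S.card = Function.minimalPeriod τ j := by
  classical
  have hpos : 0 < Function.minimalPeriod τ j := by
    refine Function.minimalPeriod_pos_of_mem_periodicPts ?_
    refine ⟨orderOf τ, orderOf_pos τ, ?_⟩
    rw [Function.IsPeriodicPt, Function.IsFixedPt, Equiv.Perm.iterate_eq_pow, pow_orderOf_eq_one]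
    rfl
  have h1 : S = (Finset.range (Function.minimalPeriod τ j)).image (fun t => (τ ^ t) j) := by
    ext i
    rw [h, Finset.mem_image]
    constructor
    · rintro ⟨t, rfl⟩
      refine ⟨t % Function.minimalPeriod τ j, Finset.mem_range.2 (Nat.mod_lt _ hpos), ?_⟩
      rw [ANgrp_per]
      exact Nat.mod_modEq _ _
    · rintro ⟨t, _, rfl⟩
      exact ⟨t, rfl⟩
  rw [h1, Finset.card_image_of_injOn, Finset.card_range]
  intro a ha b hb hab
  simp only [Finset.coe_range, Set.mem_Iio] at ha hb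
  have h2 := (ANgrp_per τ j a b).1 hab
  exact Nat.ModEq.eq_of_lt_of_lt h2 ha hb

theorem ANgrp_minper_dvd {α : Type} [Finite α] (τ : Perm α) (j : α) :
    Function.minimalPeriod τ j ∣ orderOf τ := by
  rw [← Function.isPeriodicPt_iff_minimalPeriod_dvd, Function.IsPeriodicPt, Function.IsFixedPt,
    Equiv.Perm.iterate_eq_pow, pow_orderOf_eq_one]
  rfl

/-- normalising elements preserve the support -/
theorem ANgrp_supp {n : ℕ} {x c : Perm (Fin n)} {a : ℕ} (h : c * x * c⁻¹ = x ^ a) (j : Fin n) :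
    c j ∈ x.support ↔ j ∈ x.support := by
  have h1 : x.support.map c.toEmbedding = x.support := by
    refine Finset.eq_of_subset_of_card_le ?_ (by rw [Finset.card_map])
    rw [← Equiv.Perm.support_conj, h]
    exact support_pow_le x a
  constructor
  · intro h2
    rw [← h1, Finset.mem_map] at h2
    obtain ⟨k, hk, hk2⟩ := h2
    have : k = j := c.injective hk2
    rwa [← this]
  · intro h2
    rw [← h1, Finset.mem_map]
    exact ⟨j, h2, rfl⟩

theorem ANgrp_suppow {n : ℕ} {x : Perm (Fin n)} {i : Fin n} (hi : i ∈ x.support) (t : ℕ) :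
    (x ^ t) i ∈ x.support := by
  rw [Equiv.Perm.mem_support]
  intro h
  have h1 : (x ^ t) (x i) = (x ^ t) i := by
    rw [← Perm.mul_apply, (Commute.pow_self x t).eq, Perm.mul_apply]
    exact h
  exact (Equiv.Perm.mem_support.1 hi) ((x ^ t).injective h1)

theorem ANgrp_lin {n : ℕ} {x c : Perm (Fin n)} {a : ℕ} (h : c * x * c⁻¹ = x ^ a) {i : Fin n}
    (hi : c i = i) (t : ℕ) : c ((x ^ t) i) = (x ^ (a * t)) i := by
  have h1 : c * x ^ t = x ^ (a * t) * c := by
    have h2 : (c * x * c⁻¹) ^ t = c * x ^ t * c⁻¹ := conj_pow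
    rw [h, ← pow_mul] at h2
    rw [h2]
    group
  have h2 : c ((x ^ t) i) = (c * x ^ t) i := rfl
  rw [h2, h1, Perm.mul_apply, hi]

theorem ANgrp_inv {n : ℕ} {x c : Perm (Fin n)} {a : ℕ} (h : c * x * c⁻¹ = x ^ a) :
    ∃ b : ℕ, c⁻¹ * x * c = x ^ b := by
  have h1 : ∀ k : ℕ, c ^ k * x * (c ^ k)⁻¹ = x ^ (a ^ k) := by
    intro k
    induction k with
    | zero => simp
    | succ k ih =>
      have h2 : c ^ (k + 1) * x * (c ^ (k + 1))⁻¹ = c * (c ^ k * x * (c ^ k)⁻¹) * c⁻¹ := by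
        rw [pow_succ' c k]
        group
      rw [h2, ih, ← conj_pow, h, ← pow_mul, pow_succ']
  have hpos : 0 < orderOf c := orderOf_pos c
  have h3 : c ^ (orderOf c - 1) = c⁻¹ := by
    rw [eq_inv_iff_mul_eq_one, ← pow_succ, Nat.sub_add_cancel hpos, pow_orderOf_eq_one]
  refine ⟨a ^ (orderOf c - 1), ?_⟩
  have h4 := h1 (orderOf c - 1)
  rw [h3, inv_inv] at h4
  exact h4

theorem ANgrp_cyc {n p : ℕ} {x : Perm (Fin n)} (hx : x.IsCycle) (hxs : x.support.card = p)
    {i : Fin n} (hi : i ∈ x.support) (a b : ℕ) :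
    (x ^ a) i = (x ^ b) i ↔ a ≡ b [MOD p] := by
  have h1 : (x ^ a) i = (x ^ b) i ↔ x ^ a = x ^ b := by
    constructor
    · intro h
      exact hx.pow_eq_pow_iff.2 ⟨i, Equiv.Perm.mem_support.1 hi, h⟩
    · intro h
      rw [h]
  rw [h1, pow_eq_pow_iff_modEq, hx.orderOf, hxs]

/-- the model elements -/
theorem ANgrp_model {p n : ℕ} [Fact p.Prime]
    {Z : Perm (Fin n) → Perm (Fin n) → Subgroup (Perm (Fin n)) → Prop} (hZ : ZAx p n Z)
    {x : Perm (Fin n)} (hx : x.IsCycle) (hxs : x.support.card = p) {i₀ : Fin n}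
    (hi₀ : i₀ ∈ x.support) (σ : Perm (Fin n)) (s : Fin n)
    (hdis : ∀ t : ℕ, (σ ^ t) s ∉ x.support) (e : ℕ) (he : Function.minimalPeriod σ s = e)
    (he0 : 0 < e) (hpe : ¬ p ∣ e) (hpn : p + e ≤ n) :
    ∃ (d : Perm (Fin n)) (H : Subgroup (Perm (Fin n))), Z x d H ∧ d i₀ = i₀ ∧
      (∀ t : ℕ, d ((σ ^ t) s) = (σ ^ (t + 1)) s) ∧
      (∀ h ∈ H, ∀ j, j ∉ x.support → (∀ t : ℕ, (σ ^ t) s ≠ j) → h j = j) ∧
      (∀ i ∈ x.support, ∃ h ∈ H, h s = i) ∧
      (e = 1 → ∀ m : ℕ, d ^ m * x = x * d ^ m → (p - 1) / 2 ∣ m) := by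
  obtain ⟨x', c', H', S', hZ', hx', hxs', hS', hdis', ⟨i', hi', hci'⟩, hfix, htr, hcyc, h1⟩ :=
    hZ.ab e he0 hpe hpn
  obtain ⟨-, -, ⟨a', ha'⟩, hxH, hcH⟩ := hZ.dat _ _ _ hZ'
  obtain ⟨s', hs'⟩ : S'.Nonempty := by
    rw [← Finset.card_pos, hS']
    exact he0
  have hdisj : ∀ j, j ∈ S' → j ∉ x'.support := fun j hj => Finset.disjoint_left.1 hdis' hj
  -- `c'` preserves `S'`
  have hcS : ∀ j, j ∈ S' → c' j ∈ S' := by
    intro j hj
    by_contra h2
    have h3 : c' j ∉ x'.support := by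
      rw [ANgrp_supp ha']
      exact hdisj j hj
    have h4 := hfix c' hcH (c' j) h3 h2
    have h5 : c' j = j := c'.injective h4
    rw [h5] at h2
    exact h2 hj
  have hcSp : ∀ t : ℕ, (c' ^ t) s' ∈ S' := by
    intro t
    induction t with
    | zero => simpa using hs'
    | succ t ih =>
      rw [pow_succ', Perm.mul_apply]
      exact hcS _ ih
  have hper : Function.minimalPeriod c' s' = e := by
    rw [← hS']
    refine (ANgrp_orb c' s' S' fun i => ⟨fun hi => hcyc s' hs' i hi, ?_⟩).symm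
    rintro ⟨t, rfl⟩
    exact hcSp t
  -- the conjugating permutation
  let u' : ℕ ⊕ ℕ → Fin n := Sum.elim (fun t => (x' ^ t) i') (fun t => (c' ^ t) s')
  let u : ℕ ⊕ ℕ → Fin n := Sum.elim (fun t => (x ^ t) i₀) (fun t => (σ ^ t) s)
  obtain ⟨g, hg⟩ := ANgrp_ext u' u (by
    rintro (a | a) (b | b)
    · show (x' ^ a) i' = (x' ^ b) i' ↔ (x ^ a) i₀ = (x ^ b) i₀
      rw [ANgrp_cyc hx' hxs' hi', ANgrp_cyc hx hxs hi₀]
    · show (x' ^ a) i' = (c' ^ b) s' ↔ (x ^ a) i₀ = (σ ^ b) s
      constructor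
      · intro h2
        exact absurd (h2 ▸ ANgrp_suppow hi' a) (hdisj _ (hcSp b))
      · intro h2
        exact absurd (h2 ▸ ANgrp_suppow hi₀ a) (hdis b)
    · show (c' ^ a) s' = (x' ^ b) i' ↔ (σ ^ a) s = (x ^ b) i₀
      constructor
      · intro h2
        exact absurd (h2 ▸ ANgrp_suppow hi' b) (hdisj _ (hcSp a))
      · intro h2
        exact absurd (h2 ▸ ANgrp_suppow hi₀ b) (hdis a)
    · show (c' ^ a) s' = (c' ^ b) s' ↔ (σ ^ a) s = (σ ^ b) s
      rw [ANgrp_per, ANgrp_per, hper, he])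
  have hg1 : ∀ t : ℕ, g ((x' ^ t) i') = (x ^ t) i₀ := fun t => hg (Sum.inl t)
  have hg2 : ∀ t : ℕ, g ((c' ^ t) s') = (σ ^ t) s := fun t => hg (Sum.inr t)
  have hx1 : ∀ j, j ∈ x.support → ∃ t : ℕ, (x ^ t) i₀ = j := fun j hj =>
    hx.exists_pow_eq (Equiv.Perm.mem_support.1 hi₀) (Equiv.Perm.mem_support.1 hj)
  have hx1' : ∀ j, j ∈ x'.support → ∃ t : ℕ, (x' ^ t) i' = j := fun j hj =>
    hx'.exists_pow_eq (Equiv.Perm.mem_support.1 hi') (Equiv.Perm.mem_support.1 hj)
  have hgs : ∀ j, g⁻¹ j ∈ x'.support ↔ j ∈ x.support := by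
    intro j
    constructor
    · intro h2
      obtain ⟨t, ht⟩ := hx1' _ h2
      have h3 : j = (x ^ t) i₀ := by
        rw [← hg1, ht, ANgrp_ai]
      rw [h3]
      exact ANgrp_suppow hi₀ t
    · intro h2
      obtain ⟨t, rfl⟩ := hx1 _ h2
      rw [← hg1, ANgrp_ia]
      exact ANgrp_suppow hi' t
  have hgx : g * x' * g⁻¹ = x := by
    ext j
    rw [Perm.mul_apply, Perm.mul_apply]
    by_cases hj : j ∈ x.support
    · obtain ⟨t, rfl⟩ := hx1 _ hj
      rw [← hg1, ANgrp_ia, ← Perm.mul_apply x', ← pow_succ', hg1, hg1,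
        ← Perm.mul_apply x, ← pow_succ']
    · have h2 : g⁻¹ j ∉ x'.support := by rwa [hgs]
      rw [Equiv.Perm.notMem_support.1 h2, Equiv.Perm.notMem_support.1 hj, ANgrp_ai]
  have hgS : ∀ j, j ∉ x.support → (∀ t : ℕ, (σ ^ t) s ≠ j) → g⁻¹ j ∉ S' := by
    intro j _ hj h2
    obtain ⟨t, ht⟩ := hcyc s' hs' _ h2
    exact hj t (by rw [← hg2, ht, ANgrp_ai])
  refine ⟨g * c' * g⁻¹, H'.map (MulAut.conj g).toMonoidHom, ?_, ?_, ?_, ?_, ?_, ?_⟩
  · have h2 := hZ.conj g _ _ _ hZ'
    rwa [hgx] at h2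
  · have h2 : g i' = i₀ := by simpa using hg1 0
    rw [Perm.mul_apply, Perm.mul_apply, ← h2, ANgrp_ia, hci']
  · intro t
    rw [Perm.mul_apply, Perm.mul_apply, ← hg2, ANgrp_ia, ← Perm.mul_apply c',
      ← pow_succ', hg2]
  · intro h hh j hj hj2
    obtain ⟨h', hh', rfl⟩ := hh
    have h2 : ((MulAut.conj g).toMonoidHom h') j = g (h' (g⁻¹ j)) := rfl
    rw [h2, hfix h' hh' _ (by rwa [hgs]) (hgS j hj hj2), ANgrp_ai]
  · intro i hi
    have h2 : g s' = s := by simpa using hg2 0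
    obtain ⟨h', hh', h3⟩ := htr s' (Finset.mem_union_right _ hs') (g⁻¹ i)
      (Finset.mem_union_left _ ((hgs i).2 hi))
    refine ⟨_, ⟨h', hh', rfl⟩, ?_⟩
    have h4 : ((MulAut.conj g).toMonoidHom h') s = g (h' (g⁻¹ s)) := rfl
    rw [h4, ← h2, ANgrp_ia, h3, ANgrp_ai]
  · intro he1 m hm
    refine h1 he1 m ?_
    rw [conj_pow] at hm
    have h2 : g * (c' ^ m * x') * g⁻¹ = g * (x' * c' ^ m) * g⁻¹ := by
      have h3 : g * (c' ^ m * x') * g⁻¹ = g * c' ^ m * g⁻¹ * (g * x' * g⁻¹) := by group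
      have h4 : g * (x' * c' ^ m) * g⁻¹ = (g * x' * g⁻¹) * (g * c' ^ m * g⁻¹) := by group
      rw [h3, h4, hgx]
      exact hm
    have h3 := mul_right_cancel h2
    exact mul_left_cancel h3

/-- the multiplication by a generator of `F_p^*` is odd -/
theorem ANgrp_odd {p : ℕ} [Fact p.Prime] (hp : p ≠ 2) (u : (ZMod p)ˣ)
    (hu : ∀ w : (ZMod p)ˣ, w ∈ Subgroup.zpowers u) :
    Equiv.Perm.sign (MulAction.toPermHom (ZMod p)ˣ (ZMod p) u) = -1 := by
  classical
  have hpp : p.Prime := Fact.out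
  have hp2 : 2 < p := lt_of_le_of_ne hpp.two_le (Ne.symm hp)
  have hord : orderOf u = p - 1 := by
    rw [orderOf_eq_card_of_forall_mem_zpowers hu, Nat.card_eq_fintype_card, ZMod.card_units]
  have hu1 : u ≠ 1 := by
    intro h
    rw [h, orderOf_one] at hord
    omega
  set f : Perm (ZMod p) := MulAction.toPermHom (ZMod p)ˣ (ZMod p) u with hf
  have hfa : ∀ y : ZMod p, f y = (u : ZMod p) * y := fun y => rfl
  have hfz : ∀ (z : ℤ), f ^ z = MulAction.toPermHom (ZMod p)ˣ (ZMod p) (u ^ z) := by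
    intro z
    rw [map_zpow]
  have hsup : f.support = Finset.univ.erase 0 := by
    ext y
    rw [Equiv.Perm.mem_support, hfa, Finset.mem_erase]
    constructor
    · intro h
      refine ⟨?_, Finset.mem_univ _⟩
      rintro rfl
      exact h (mul_zero _)
    · rintro ⟨h, -⟩ h2
      have h3 : ((u : ZMod p) - 1) * y = 0 := by rw [sub_mul, h2, one_mul, sub_self]
      rcases mul_eq_zero.1 h3 with h4 | h4
      · exact hu1 (Units.ext (by rw [Units.val_one]; exact sub_eq_zero.1 h4))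
      · exact h h4
  have hcyc : f.IsCycle := by
    refine ⟨1, ?_, ?_⟩
    · rw [hfa, mul_one]
      intro h
      exact hu1 (Units.ext (by rw [Units.val_one]; exact h))
    · intro y hy
      have hy0 : y ≠ 0 := by
        rintro rfl
        exact hy (by rw [hfa, mul_zero])
      obtain ⟨z, hz⟩ := Subgroup.mem_zpowers_iff.1 (hu (Units.mk0 y hy0))
      refine ⟨z, ?_⟩
      rw [hfz, hz]
      show ((Units.mk0 y hy0 : (ZMod p)ˣ) : ZMod p) * 1 = y
      rw [mul_one, Units.val_mk0]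
  rw [hcyc.sign, hsup, Finset.card_erase_of_mem (Finset.mem_univ _), Finset.card_univ, ZMod.card]
  have heven : Even (p - 1) := hpp.even_sub_one hp
  rw [heven.neg_one_pow]

/-- elements fixing a point and normalising `⟨x⟩` -/
theorem ANgrp_base {p n : ℕ} [Fact p.Prime] (hp : p ≠ 2) {x : Perm (Fin n)} (hx : x.IsCycle)
    (hxs : x.support.card = p) {i₀ : Fin n} (hi₀ : i₀ ∈ x.support) {c d : Perm (Fin n)} {a b : ℕ}
    (hc : c * x * c⁻¹ = x ^ a) (hd : d * x * d⁻¹ = x ^ b) (hci : c i₀ = i₀) (hdi : d i₀ = i₀)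
    (hco : ∀ j, j ∉ x.support → c j = j) (hdo : ∀ j, j ∉ x.support → d j = j)
    (hca : Equiv.Perm.sign c = 1) (hda : Equiv.Perm.sign d = 1)
    (hdm : ∀ m : ℕ, d ^ m * x = x * d ^ m → (p - 1) / 2 ∣ m) : ∃ m : ℕ, c = d ^ m := by
  classical
  have hpp : p.Prime := Fact.out
  have hp2 : 2 < p := lt_of_le_of_ne hpp.two_le (Ne.symm hp)
  let θ : ZMod p ↪ Fin n := ⟨fun t => (x ^ t.val) i₀, by
    intro s t hst
    have h1 := (ANgrp_cyc hx hxs hi₀ s.val t.val).1 hst
    exact ZMod.val_injective p (Nat.ModEq.eq_of_lt_of_lt h1 (ZMod.val_lt s) (ZMod.val_lt t))⟩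
  have hθ : ∀ t : ZMod p, θ t = (x ^ t.val) i₀ := fun _ => rfl
  let μ : (ZMod p)ˣ →* Perm (Fin n) :=
    (Equiv.Perm.viaEmbeddingHom θ).comp (MulAction.toPermHom (ZMod p)ˣ (ZMod p))
  have hμ1 : ∀ (w : (ZMod p)ˣ) (t : ZMod p), μ w (θ t) = θ (w * t) := fun w t =>
    Equiv.Perm.viaEmbedding_apply _ θ t
  have hμ2 : ∀ (w : (ZMod p)ˣ) (j : Fin n), j ∉ Set.range θ → μ w j = j := fun w j hj =>
    Equiv.Perm.viaEmbedding_apply_of_notMem _ θ j hj
  have hμs : ∀ w : (ZMod p)ˣ, Equiv.Perm.sign (μ w) =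
      Equiv.Perm.sign (MulAction.toPermHom (ZMod p)ˣ (ZMod p) w) := by
    intro w
    exact @Equiv.Perm.sign_extendDomain _ _ _ _ _ _ _ _
      (fun a => Classical.propDecidable (a ∈ Set.range θ.toFun)) _
  have hrange : ∀ j, j ∈ x.support → j ∈ Set.range θ := by
    intro j hj
    obtain ⟨t, rfl⟩ := hx.exists_pow_eq (Equiv.Perm.mem_support.1 hi₀) (Equiv.Perm.mem_support.1 hj)
    refine ⟨(t : ZMod p), ?_⟩
    rw [hθ, ANgrp_cyc hx hxs hi₀, ZMod.val_natCast]
    exact Nat.mod_modEq _ _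
  have key : ∀ (c : Perm (Fin n)) (a : ℕ), c * x * c⁻¹ = x ^ a → c i₀ = i₀ →
      (∀ j, j ∉ x.support → c j = j) → ∃ w : (ZMod p)ˣ, c = μ w := by
    intro c a hc hci hco
    have hap : a.Coprime p := by
      rw [Nat.coprime_comm, hpp.coprime_iff_not_dvd]
      rintro ⟨k, rfl⟩
      have h1 : x ^ (p * k) = 1 := by
        rw [pow_mul, ← hxs, ← hx.orderOf, pow_orderOf_eq_one, one_pow]
      rw [h1] at hc
      have h2 : x = 1 := by
        have h3 : c * x = c := by
          rw [mul_inv_eq_one] at hc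
          exact hc
        exact mul_eq_left.1 h3
      exact hx.ne_one h2
    refine ⟨ZMod.unitOfCoprime a hap, ?_⟩
    ext1 j
    by_cases hj : j ∈ Set.range θ
    · obtain ⟨t, rfl⟩ := hj
      rw [hμ1, hθ, ANgrp_lin hc hci, hθ, ANgrp_cyc hx hxs hi₀, ZMod.coe_unitOfCoprime]
      rw [← ZMod.natCast_eq_natCast_iff, ZMod.natCast_val, ZMod.cast_id, Nat.cast_mul,
        ZMod.natCast_val, ZMod.cast_id]
    · rw [hμ2 _ _ hj]
      exact hco j (fun h => hj (hrange j h))
  obtain ⟨w, rfl⟩ := key c a hc hci hco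
  obtain ⟨v, rfl⟩ := key d b hd hdi hdo
  obtain ⟨u, hu⟩ := IsCyclic.exists_generator (α := (ZMod p)ˣ)
  have hodd := ANgrp_odd hp u hu
  have hord : orderOf u = p - 1 := by
    rw [orderOf_eq_card_of_forall_mem_zpowers hu, Nat.card_eq_fintype_card, ZMod.card_units]
  have heven : Even (p - 1) := hpp.even_sub_one hp
  have hsq : orderOf (u ^ 2) = (p - 1) / 2 := by
    rw [orderOf_pow, hord, Nat.gcd_eq_right (even_iff_two_dvd.1 heven)]
  have key2 : ∀ w : (ZMod p)ˣ, Equiv.Perm.sign (μ w) = 1 → w ∈ Subgroup.zpowers (u ^ 2) := by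
    intro w hw
    have h1 : w ∈ Submonoid.powers u := mem_powers_iff_mem_zpowers.2 (hu w)
    obtain ⟨k, rfl⟩ := h1
    simp only at hw
    rw [hμs, map_pow, map_pow, hodd] at hw
    have hk : Even k := by
      rw [← neg_one_pow_eq_one_iff_even (R := ℤˣ) (by decide)]
      exact hw
    obtain ⟨l, rfl⟩ := hk
    simp only
    rw [← two_mul, pow_mul]
    exact Subgroup.pow_mem _ (Subgroup.mem_zpowers _) l
  have hwu := key2 w hca
  have hvu := key2 v hda
  have hle : Subgroup.zpowers v ≤ Subgroup.zpowers (u ^ 2) := by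
    rw [Subgroup.zpowers_le]
    exact hvu
  have hdv : (p - 1) / 2 ∣ orderOf v := by
    apply hdm
    rw [← map_pow, pow_orderOf_eq_one, map_one, one_mul, mul_one]
  have heq : Subgroup.zpowers v = Subgroup.zpowers (u ^ 2) := by
    refine Subgroup.eq_of_le_of_card_ge hle ?_
    rw [Nat.card_zpowers, Nat.card_zpowers, hsq]
    exact Nat.le_of_dvd (orderOf_pos v) hdv
  rw [← heq] at hwu
  obtain ⟨m, hm⟩ := mem_powers_iff_mem_zpowers.2 hwu
  refine ⟨m, ?_⟩
  rw [← map_pow]
  exact congrArg μ hm.symm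

/-- the model elements fixing the points outside the support -/
theorem ANgrp_model1 {p n : ℕ} [Fact p.Prime] (hn : p + 1 ≤ n)
    {Z : Perm (Fin n) → Perm (Fin n) → Subgroup (Perm (Fin n)) → Prop} (hZ : ZAx p n Z)
    {x : Perm (Fin n)} (hx : x.IsCycle) (hxs : x.support.card = p) {i₀ : Fin n}
    (hi₀ : i₀ ∈ x.support) (s : Fin n) (hs : s ∉ x.support) :
    ∃ (d : Perm (Fin n)) (H : Subgroup (Perm (Fin n))), Z x d H ∧ d i₀ = i₀ ∧
      (∀ j, j ∉ x.support → d j = j) ∧ (∀ h ∈ H, ∀ j, j ∉ x.support → s ≠ j → h j = j) ∧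
      (∀ i ∈ x.support, ∃ h ∈ H, h s = i) ∧
      (∀ m : ℕ, d ^ m * x = x * d ^ m → (p - 1) / 2 ∣ m) := by
  have hpp : p.Prime := Fact.out
  obtain ⟨d, H, h1, h2, h3, h4, h5, h6⟩ := ANgrp_model hZ hx hxs hi₀ 1 s
    (fun t => by rw [one_pow]; exact hs) 1 (Function.minimalPeriod_id) one_pos
    (fun h => hpp.one_lt.ne' (Nat.dvd_one.1 h)) hn
  obtain ⟨-, -, -, -, hdH⟩ := hZ.dat _ _ _ h1
  have h4' : ∀ h ∈ H, ∀ j, j ∉ x.support → s ≠ j → h j = j := fun h hh j hj hsj =>
    h4 h hh j hj (fun t => by rw [one_pow]; exact hsj)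
  refine ⟨d, H, h1, h2, fun j hj => ?_, h4', h5, h6 rfl⟩
  by_cases hsj : s = j
  · rw [← hsj]
    have := h3 0
    simpa using this
  · exact h4' d hdH j hj hsj

theorem ANgrp_sign {p n : ℕ}
    {Z : Perm (Fin n) → Perm (Fin n) → Subgroup (Perm (Fin n)) → Prop} (hZ : ZAx p n Z)
    {x d : Perm (Fin n)} {H : Subgroup (Perm (Fin n))} (h : Z x d H) : Equiv.Perm.sign d = 1 := by
  obtain ⟨-, -, -, -, hdH⟩ := hZ.dat _ _ _ h
  exact Equiv.Perm.mem_alternatingGroup.1 (hZ.alt _ _ _ h hdH)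

/-- existence -/
theorem ANgrp_ex {p n : ℕ} [Fact p.Prime] (hp : p ≠ 2) (hn : p + 2 ≤ n)
    {Z : Perm (Fin n) → Perm (Fin n) → Subgroup (Perm (Fin n)) → Prop} (hZ : ZAx p n Z)
    {x : Perm (Fin n)} (hx : x.IsCycle) (hxs : x.support.card = p) {i₀ : Fin n}
    (hi₀ : i₀ ∈ x.support) : ∀ (N : ℕ) (c : Perm (Fin n)),
      (Finset.univ.filter (fun j => j ∉ x.support ∧ c j ≠ j)).card ≤ N →
      Equiv.Perm.sign c = 1 → ¬ p ∣ orderOf c → (∃ a : ℕ, c * x * c⁻¹ = x ^ a) → c i₀ = i₀ →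
      ∃ H, Z x c H := by
  classical
  have hpp : p.Prime := Fact.out
  intro N
  induction N with
  | zero =>
    intro c hN hcs _ ⟨a, ha⟩ hci
    have hco : ∀ j, j ∉ x.support → c j = j := by
      intro j hj
      by_contra h
      have h1 : j ∈ Finset.univ.filter (fun j => j ∉ x.support ∧ c j ≠ j) := by
        rw [Finset.mem_filter]
        exact ⟨Finset.mem_univ _, hj, h⟩
      rw [Finset.card_eq_zero.1 (Nat.le_zero.1 hN)] at h1
      exact absurd h1 (Finset.notMem_empty j)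
    obtain ⟨s, hs⟩ : ∃ s, s ∉ x.support := by
      by_contra h
      push Not at h
      have h1 : x.support = Finset.univ := Finset.eq_univ_iff_forall.2 h
      rw [h1, Finset.card_univ, Fintype.card_fin] at hxs
      omega
    obtain ⟨d, H, h1, h2, h3, -, -, h6⟩ := ANgrp_model1 (by omega) hZ hx hxs hi₀ s hs
    obtain ⟨-, -, ⟨b, hb⟩, -, -⟩ := hZ.dat _ _ _ h1
    obtain ⟨m, rfl⟩ := ANgrp_base hp hx hxs hi₀ ha hb hci h2 hco h3 hcs (ANgrp_sign hZ h1) h6
    exact ⟨H, hZ.pow _ _ _ m h1⟩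
  | succ N ih =>
    intro c hN hcs hcp ⟨a, ha⟩ hci
    by_cases hex : ∃ s, s ∉ x.support ∧ c s ≠ s
    swap
    · refine ih c ?_ hcs hcp ⟨a, ha⟩ hci
      push Not at hex
      rw [Finset.filter_eq_empty_iff.2 (fun j _ h => h.2 (hex j h.1))]
      simp
    obtain ⟨s, hs, hcs2⟩ := hex
    have hsup : ∀ t : ℕ, (c ^ t) s ∉ x.support := by
      intro t
      induction t with
      | zero => simpa using hs
      | succ t iht =>
        rw [pow_succ', Perm.mul_apply, ANgrp_supp ha]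
        exact iht
    have hpos : 0 < Function.minimalPeriod c s := by
      refine Function.minimalPeriod_pos_of_mem_periodicPts ⟨orderOf c, orderOf_pos c, ?_⟩
      rw [Function.IsPeriodicPt, Function.IsFixedPt, Equiv.Perm.iterate_eq_pow,
        pow_orderOf_eq_one]
      rfl
    have hcard : p + Function.minimalPeriod c s ≤ n := by
      have h1 := ANgrp_orb c s (Finset.univ.filter (fun i => ∃ t : ℕ, (c ^ t) s = i))
        (fun i => by simp)
      have h2 : Disjoint x.support (Finset.univ.filter (fun i => ∃ t : ℕ, (c ^ t) s = i)) := by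
        rw [Finset.disjoint_left]
        intro i hi hi2
        rw [Finset.mem_filter] at hi2
        obtain ⟨-, t, rfl⟩ := hi2
        exact hsup t hi
      have h3 := Finset.card_union_of_disjoint h2
      rw [h1, hxs] at h3
      rw [← h3]
      have h4 := Finset.card_le_univ
        (x.support ∪ Finset.univ.filter (fun i => ∃ t : ℕ, (c ^ t) s = i))
      rwa [Fintype.card_fin] at h4
    obtain ⟨d, H, h1, h2, h3, h4, -, -⟩ := ANgrp_model hZ hx hxs hi₀ c s hsup _ rfl hpos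
      (fun h => hcp (h.trans (ANgrp_minper_dvd c s))) hcard
    obtain ⟨-, hdp, ⟨b, hb⟩, -, hdH⟩ := hZ.dat _ _ _ h1
    have h4' : ∀ j, j ∉ x.support → (∀ t : ℕ, (c ^ t) s ≠ j) → d j = j := h4 d hdH
    have hcd : c * d = d * c := by
      ext1 j
      rw [Perm.mul_apply, Perm.mul_apply]
      by_cases hj : j ∈ x.support
      · obtain ⟨t, rfl⟩ :=
          hx.exists_pow_eq (Equiv.Perm.mem_support.1 hi₀) (Equiv.Perm.mem_support.1 hj)
        rw [ANgrp_lin hb h2, ANgrp_lin ha hci, ANgrp_lin ha hci, ANgrp_lin hb h2,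
          Nat.mul_left_comm]
      · by_cases hj2 : ∃ t : ℕ, (c ^ t) s = j
        · obtain ⟨t, rfl⟩ := hj2
          rw [h3, ← Perm.mul_apply c, ← pow_succ', ← Perm.mul_apply c, ← pow_succ', h3]
        · push Not at hj2
          rw [h4' j hj hj2, h4' (c j)]
          · rw [ANgrp_supp ha]
            exact hj
          · intro t ht
            have h5 : (c ^ (t + (orderOf c - 1))) s = j := by
              apply c.injective
              rw [← Perm.mul_apply c, ← pow_succ', add_assoc,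
                Nat.sub_add_cancel (orderOf_pos c), pow_add, pow_orderOf_eq_one, mul_one]
              exact ht
            exact hj2 _ h5
    have hcomm : Commute d⁻¹ c := (show Commute d c from hcd.symm).inv_left
    have hdc : d * (d⁻¹ * c) = c := by group
    obtain ⟨b', hb'⟩ := ANgrp_inv hb
    obtain ⟨H₂, hH₂⟩ := ih (d⁻¹ * c) (by
        have h5 : Finset.univ.filter (fun j => j ∉ x.support ∧ (d⁻¹ * c) j ≠ j) ⊆
            (Finset.univ.filter (fun j => j ∉ x.support ∧ c j ≠ j)).erase s := by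
          intro j hj
          rw [Finset.mem_filter] at hj
          obtain ⟨-, hj1, hj2⟩ := hj
          have hj3 : ∀ t : ℕ, (c ^ t) s ≠ j := by
            rintro t rfl
            apply hj2
            rw [Perm.mul_apply, ← Perm.mul_apply c, ← pow_succ', ← h3, ANgrp_ia]
          have hj4 : d j = j := h4' j hj1 hj3
          rw [Finset.mem_erase, Finset.mem_filter]
          refine ⟨fun h => hj3 0 (by rw [h]; rfl), Finset.mem_univ _, hj1, fun h => hj2 ?_⟩
          rw [Perm.mul_apply, h]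
          nth_rewrite 1 [← hj4]
          rw [ANgrp_ia]
        have h6 := Finset.card_le_card h5
        rw [Finset.card_erase_of_mem (by
          rw [Finset.mem_filter]; exact ⟨Finset.mem_univ _, hs, hcs2⟩)] at h6
        omega)
      (by rw [map_mul, map_inv, ANgrp_sign hZ h1, hcs, inv_one, one_mul])
      (by
        intro h
        have h5 := h.trans hcomm.orderOf_mul_dvd_mul_orderOf
        rw [orderOf_inv] at h5
        rcases hpp.dvd_mul.1 h5 with h6 | h6
        · exact hdp h6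
        · exact hcp h6)
      ⟨b' * a, by
        have h5 : d⁻¹ * c * x * (d⁻¹ * c)⁻¹ = d⁻¹ * (c * x * c⁻¹) * d := by group
        rw [h5, ha]
        have h6 : d⁻¹ * x ^ a * d = (d⁻¹ * x * d) ^ a := by
          have h7 := conj_pow (i := a) (a := d⁻¹) (b := x)
          rw [inv_inv] at h7
          exact h7.symm
        rw [h6, hb', ← pow_mul]⟩
      (by rw [Perm.mul_apply, hci]; nth_rewrite 1 [← h2]; rw [ANgrp_ia])
    have h7 := hZ.mul x d (d⁻¹ * c) H H₂ h1 hH₂ (by
      rw [hdc, mul_assoc, hcd, ← mul_assoc, inv_mul_cancel, one_mul])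
    rw [hdc] at h7
    exact ⟨_, h7⟩

/-- a tame element has a fixed point in the support -/
theorem ANgrp_fix {p n : ℕ} [Fact p.Prime] {x c : Perm (Fin n)} (hx : x.IsCycle)
    (hxs : x.support.card = p) {a : ℕ} (ha : c * x * c⁻¹ = x ^ a) (hcp : ¬ p ∣ orderOf c) :
    ∃ i ∈ x.support, c i = i := by
  have hpp : p.Prime := Fact.out
  have hne : x.support.Nonempty := by
    rw [← Finset.card_pos, hxs]
    exact hpp.pos
  obtain ⟨i, hi⟩ := hne
  obtain ⟨s, hs⟩ := hx.exists_pow_eq (Equiv.Perm.mem_support.1 hi)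
    (Equiv.Perm.mem_support.1 ((ANgrp_supp ha i).2 hi))
  have hct : ∀ t : ℕ, c ((x ^ t) i) = (x ^ (a * t + s)) i := by
    intro t
    have h1 : c * x ^ t = x ^ (a * t) * c := by
      have h2 : (c * x * c⁻¹) ^ t = c * x ^ t * c⁻¹ := conj_pow
      rw [ha, ← pow_mul] at h2
      rw [h2]
      group
    have h2 : c ((x ^ t) i) = (c * x ^ t) i := rfl
    rw [h2, h1, Perm.mul_apply, ← hs, ← Perm.mul_apply, ← pow_add]
  by_cases h1 : (a : ZMod p) = 1
  · -- `c` commutes with `x`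
    have hcx : c * x = x * c := by
      have h2 : x ^ a = x ^ 1 := by
        rw [pow_eq_pow_iff_modEq, hx.orderOf, hxs, ← ZMod.natCast_eq_natCast_iff, h1, Nat.cast_one]
      rw [h2, pow_one] at ha
      exact mul_inv_eq_iff_eq_mul.1 ha
    have h2 : ∀ m : ℕ, (c ^ m) i = (x ^ (s * m)) i := by
      intro m
      induction m with
      | zero => simp
      | succ m ih =>
        rw [pow_succ', Perm.mul_apply, ih]
        have h3 : c ((x ^ (s * m)) i) = (c * x ^ (s * m)) i := rfl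
        have h4 : c * x ^ (s * m) = x ^ (s * m) * c := ((show Commute c x from hcx).pow_right _).eq
        rw [h3, h4, Perm.mul_apply, ← hs, ← Perm.mul_apply, ← pow_add, mul_add, mul_one]
    have h3 := h2 (orderOf c)
    rw [pow_orderOf_eq_one, Perm.one_apply] at h3
    have h4 : (x ^ 0) i = (x ^ (s * orderOf c)) i := by
      rw [pow_zero, Perm.one_apply]
      exact h3
    rw [ANgrp_cyc hx hxs hi] at h4
    have h5 : p ∣ s * orderOf c := (Nat.modEq_zero_iff_dvd.1 h4.symm)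
    rcases hpp.dvd_mul.1 h5 with h6 | h6
    · refine ⟨i, hi, ?_⟩
      rw [← hs]
      have h7 : (x ^ s) i = (x ^ 0) i := by
        rw [ANgrp_cyc hx hxs hi]
        exact Nat.modEq_zero_iff_dvd.2 h6
      rw [h7, pow_zero, Perm.one_apply]
    · exact absurd h6 hcp
  · have h2 : (1 - (a : ZMod p)) ≠ 0 := fun h => h1 (sub_eq_zero.1 h).symm
    refine ⟨(x ^ ((s : ZMod p) / (1 - a)).val) i, ANgrp_suppow hi _, ?_⟩
    rw [hct, ANgrp_cyc hx hxs hi, ← ZMod.natCast_eq_natCast_iff]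
    push_cast
    rw [ZMod.natCast_val, ZMod.cast_id]
    field_simp
    ring

/-- a group with many products of two transpositions contains the alternating group -/
theorem ANgrp_gen {n : ℕ} (H : Subgroup (Perm (Fin n))) (τ : Perm (Fin n))
    (h : ∀ u v : Fin n, u ≠ v → swap u v * τ ∈ H) : alternatingGroup (Fin n) ≤ H := by
  intro σ hσ
  have hind : ∀ (k : ℕ) (l : List (Perm (Fin n))) (_ : ∀ g, g ∈ l → IsSwap g)
      (_ : l.length = 2 * k), l.prod ∈ H := by
    intro k
    induction k with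
    | zero => intro l _ hn; simp [List.length_eq_zero_iff.1 hn, one_mem]
    | succ k ih =>
      intro l hl hn
      rw [Nat.mul_succ] at hn
      obtain ⟨a, l, rfl⟩ := l.exists_of_length_succ hn
      rw [List.length_cons, Nat.succ_inj] at hn
      obtain ⟨b, l, rfl⟩ := l.exists_of_length_succ hn
      rw [List.prod_cons, List.prod_cons, ← mul_assoc]
      rw [List.length_cons, Nat.succ_inj] at hn
      refine mul_mem ?_ (ih _ (fun g hg =>
        hl g (List.mem_cons_of_mem _ (List.mem_cons_of_mem _ hg))) hn)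
      obtain ⟨u, v, huv, rfl⟩ := hl a List.mem_cons_self
      obtain ⟨u', v', huv', rfl⟩ := hl b (List.mem_cons_of_mem _ List.mem_cons_self)
      have h1 : swap u v * swap u' v' = (swap u v * τ) * (swap u' v' * τ)⁻¹ := by
        rw [mul_inv_rev, swap_inv]
        group
      rw [h1]
      exact mul_mem (h u v huv) (inv_mem (h u' v' huv'))
  obtain ⟨l, rfl, hl⟩ := (truncSwapFactors σ).out
  obtain ⟨k, hk⟩ := (prod_list_swap_mem_alternatingGroup_iff_even_length hl).1 hσ
  rw [← two_mul] at hk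
  exact hind k l hl hk

theorem prf_ANgrp : ANgrp := by
  classical
  intro p _ n hp hn Z hZ x c hx hxs hcA hcp ⟨a, ha⟩
  have hpp : p.Prime := Fact.out
  obtain ⟨i₀, hi₀, hci⟩ := ANgrp_fix hx hxs ha hcp
  obtain ⟨H₀, h₀⟩ := ANgrp_ex hp hn hZ hx hxs hi₀ _ c le_rfl
    (Equiv.Perm.mem_alternatingGroup.1 hcA) hcp ⟨a, ha⟩ hci
  obtain ⟨H, hH⟩ := Set.Finite.exists_maximal (Set.toFinite {H | Z x c H}) ⟨H₀, h₀⟩
  have hZH : Z x c H := hH.prop
  have hK : ∀ K, Z x 1 K → K ≤ H := by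
    intro K hK
    have h1 := hZ.mul x c 1 H K hZH hK (by rw [mul_one, one_mul])
    rw [mul_one] at h1
    have h2 : H ≤ Subgroup.zpowers x ⊔ H ⊔ K := le_sup_right.trans le_sup_left
    exact le_sup_right.trans (hH.le_of_ge h1 h2)
  have h3 : ∀ s b i, s ∉ x.support → b ∉ x.support → s ≠ b → i ∈ x.support →
      swap i b * swap s b ∈ H := by
    intro s b i hs hb hsb hi
    obtain ⟨d, K, h1, -, -, h4, h5, -⟩ := ANgrp_model1 (by omega) hZ hx hxs hi₀ s hs
    have hK1 : Z x 1 K := by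
      have := hZ.pow _ _ _ 0 h1
      rwa [pow_zero] at this
    obtain ⟨h, hh, hhs⟩ := h5 i hi
    have hhb : h b = b := h4 h hh b hb hsb
    have hcomm : swap s b * x * (swap s b)⁻¹ = x := by
      rw [mul_inv_eq_iff_eq_mul, Equiv.mul_swap_eq_swap_mul, Equiv.Perm.notMem_support.1 hs,
        Equiv.Perm.notMem_support.1 hb]
    have hK2 := hZ.conj (swap s b) _ _ _ hK1
    rw [hcomm, mul_one, mul_inv_cancel] at hK2
    have h6 : h ∈ H := hK K hK1 hh
    have h7 : swap s b * h⁻¹ * (swap s b)⁻¹ ∈ H :=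
      hK _ hK2 ⟨h⁻¹, inv_mem hh, rfl⟩
    have h8 : swap i b * swap s b = h * (swap s b * h⁻¹ * (swap s b)⁻¹) := by
      have h9 : h * swap s b = swap i b * h := by
        rw [Equiv.mul_swap_eq_swap_mul, hhs, hhb]
      rw [swap_inv, ← mul_assoc, ← mul_assoc, h9, mul_assoc _ h, mul_inv_cancel, mul_one]
    rw [h8]
    exact mul_mem h6 h7
  have hcompl : 1 < (x.supportᶜ).card := by
    rw [Finset.card_compl, Fintype.card_fin, hxs]
    omega
  obtain ⟨s, hs, b, hb, hsb⟩ := Finset.one_lt_card.1 hcompl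
  rw [Finset.mem_compl] at hs hb
  have h4 : ∀ j, j ≠ b → swap j b * swap s b ∈ H := by
    intro j hjb
    by_cases hj : j ∈ x.support
    · exact h3 s b j hs hb hsb hj
    · by_cases hjs : j = s
      · rw [hjs, swap_mul_self]
        exact one_mem H
      · have h5 := h3 j b i₀ hj hb hjb hi₀
        have h6 := h3 s b i₀ hs hb hsb hi₀
        have h7 : swap j b * swap s b = (swap i₀ b * swap j b)⁻¹ * (swap i₀ b * swap s b) := by
          rw [mul_inv_rev, swap_inv, swap_inv, mul_assoc, ← mul_assoc (swap i₀ b), swap_mul_self,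
            one_mul]
        rw [h7]
        exact mul_mem (inv_mem h5) h6
  have h5 : ∀ u v : Fin n, u ≠ v → swap u v * swap s b ∈ H := by
    intro u v huv
    by_cases hv : v = b
    · rw [hv]
      exact h4 u (by rw [← hv]; exact huv)
    by_cases hu : u = b
    · rw [hu, swap_comm]
      exact h4 v hv
    have h6 : swap u v = swap v b * swap u b * swap v b := by
      have h7 : swap v b * swap u b = swap u v * swap v b := by
        rw [Equiv.mul_swap_eq_swap_mul, swap_apply_of_ne_of_ne huv hu, swap_apply_right]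
      rw [h7, mul_assoc, swap_mul_self, mul_one]
    have h7 : swap u v * swap s b =
        (swap v b * swap s b) * (swap u b * swap s b)⁻¹ * (swap v b * swap s b) := by
      rw [h6, mul_inv_rev, swap_inv, swap_inv]
      have h8 : swap s b * swap s b = (1 : Perm (Fin n)) := swap_mul_self s b
      calc swap v b * swap u b * swap v b * swap s b
          = swap v b * 1 * swap u b * (swap v b * swap s b) := by group
        _ = swap v b * (swap s b * swap s b) * swap u b * (swap v b * swap s b) := by rw [h8]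
        _ = _ := by group
    rw [h7]
    exact mul_mem (mul_mem (h4 v hv) (inv_mem (h4 u hu))) (h4 v hv)
  have h6 : H = alternatingGroup (Fin n) :=
    le_antisymm (hZ.alt _ _ _ hZH) (ANgrp_gen H (swap s b) h5)
  rw [← h6]
  exact hZH

end MP7b0bad.MT
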