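import Pool.Agent.Work.MP_7b0bad_ag.MT.GStmts
import Pool.Agent.Work.MP_7b0bad_ag.SV.VAll
import Pool.Agent.Work.MP_7b0bad_ag.SV.GAll

set_option autoImplicit false

/-! # Solvable groups: `MSolv` from the theorem `GSolv` for the subgroup `H` -/

namespace MP7b0bad.MT

open Polynomial

theorem MSolv_pc {G : Type} [Group G] (P H : Subgroup G) (c : G)
    (hle : P ⊔ Subgroup.zpowers c ≤ H) (hc : c ∈ H) :
    GT.Pc (P.subgroupOf H) (⟨c, hc⟩ : H) = (P ⊔ Subgroup.zpowers c).subgroupOf H := by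
  have hP : P ≤ H := le_sup_left.trans hle
  have hz : Subgroup.zpowers c ≤ H := le_sup_right.trans hle
  rw [Subgroup.subgroupOf_sup hP hz]
  unfold GT.Pc
  congr 1
  apply Subgroup.map_injective H.subtype_injective
  rw [Subgroup.map_subgroupOf_eq_of_le hz, MonoidHom.map_zpowers]
  rfl

theorem MSolv_ncl {G : Type} [Group G] (P H : Subgroup G) (hP : P ≤ H)
    (hcl : Subgroup.closure {g | ∃ x ∈ H, ∃ q ∈ P, g = x * q * x⁻¹} = H) :
    Subgroup.normalClosure ((P.subgroupOf H : Subgroup H) : Set H) = ⊤ := by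
  apply Subgroup.map_injective H.subtype_injective
  rw [Subgroup.normalClosure, MonoidHom.map_closure, ← MonoidHom.range_eq_map,
    Subgroup.range_subtype]
  refine Eq.trans ?_ hcl
  congr 1
  ext g
  constructor
  · rintro ⟨y, hy, rfl⟩
    obtain ⟨q, hq, hqy⟩ := Group.mem_conjugatesOfSet_iff.1 hy
    obtain ⟨x, hx⟩ := isConj_iff.1 hqy
    refine ⟨x, x.2, q, Subgroup.mem_subgroupOf.1 hq, ?_⟩
    rw [← hx]
    rfl
  · rintro ⟨x, hx, q, hq, rfl⟩
    refine ⟨⟨x, hx⟩ * ⟨q, hP hq⟩ * ⟨x, hx⟩⁻¹, ?_, rfl⟩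
    exact Group.mem_conjugatesOfSet_iff.2 ⟨⟨q, hP hq⟩, Subgroup.mem_subgroupOf.2 hq,
      isConj_iff.2 ⟨⟨x, hx⟩, rfl⟩⟩

theorem prf_MSolv : MSolv := by
  intro k _ _ p _ _ G _ _ P H c hN hle hs hcl
  obtain ⟨h1, h2, h3⟩ := hN
  refine ⟨hle, ?_⟩
  have hP : P ≤ H := le_sup_left.trans hle
  have hc : c ∈ H := hle (le_sup_right (a := P) (Subgroup.mem_zpowers c))
  have hD : GT.Dat p (P.subgroupOf H) (⟨c, hc⟩ : H) := by
    refine ⟨?_, ?_, ?_, MSolv_ncl P H hP hcl⟩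
    · exact h1.comap_of_injective H.subtype H.subtype_injective
    · intro u hu
      rw [Subgroup.mem_subgroupOf] at hu ⊢
      exact h3 _ hu
    · rwa [Subgroup.orderOf_mk]
  rw [← MSolv_pc P H c hle hc]
  exact GT.all_GSolv p _ (GT.all_GAx p _ (MP7b0bad.SV.all_VRAx k p)) H (P.subgroupOf H)
    ⟨c, hc⟩ hD hs

end MP7b0bad.MT
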