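import Pool.Agent.Work.MP_7b0bad_ag.MT.GStmts
import Pool.Agent.Work.MP_7b0bad_ag.AllH
import Pool.Agent.Work.MP_7b0bad_ag.LF.Fin

set_option autoImplicit false

/-!
# Characteristic 2: the tame part can be realised in a subgroup
-/

namespace MP7b0bad.MT

open Polynomial

/-- the purely wild theorem in characteristic 2 in terms of `Rel` -/
theorem MChar2_wild (k : Type) [Field k] [IsAlgClosed k] [CharP k 2] (G : Type) [Group G]
    [Finite G] (P : Subgroup G) (hP : IsPGroup 2 P)
    (hn : Subgroup.normalClosure (P : Set G) = ⊤) : Rel k G P := by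
  have : Fact (Nat.Prime 2) := ⟨Nat.prime_two⟩
  exact all_HCrit 2 (fun (G : Type) [Group G] (P : Subgroup G) => Rel k G P)
    (YMain_relAx all_QIso all_QRP all_QR1 all_QR2 all_YBlk k 2) G P hP
    (LF.all_fin2 G P hP hn)

/-- from `Rel k G D` to the subgroup `⊤` -/
theorem MChar2_toTop (k : Type) [Field k] (G : Type) [Group G] (D : Subgroup G)
    (h : Rel k G D) : Rel k (⊤ : Subgroup G) (D.subgroupOf ⊤) := by
  have h1 := all_QIso k G (⊤ : Subgroup G) Subgroup.topEquiv.symm D h
  have h2 : D.map (Subgroup.topEquiv (G := G)).symm.toMonoidHom = D.subgroupOf ⊤ := by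
    ext x
    rw [Subgroup.mem_subgroupOf, Subgroup.mem_map]
    constructor
    · rintro ⟨y, hy, rfl⟩
      exact hy
    · intro hx
      exact ⟨(x : G), hx, Subtype.ext rfl⟩
  rw [h2] at h1
  exact h1

/-- from the subgroup `⊤` to `Rel k G D` -/
theorem MChar2_ofTop (k : Type) [Field k] (G : Type) [Group G] (D : Subgroup G)
    (h : Rel k (⊤ : Subgroup G) (D.subgroupOf ⊤)) : Rel k G D := by
  have h1 := all_QIso k (⊤ : Subgroup G) G Subgroup.topEquiv (D.subgroupOf ⊤) h
  have h2 : (D.subgroupOf ⊤).map (Subgroup.topEquiv (G := G)).toMonoidHom = D := by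
    ext x
    rw [Subgroup.mem_map]
    constructor
    · rintro ⟨y, hy, rfl⟩
      exact Subgroup.mem_subgroupOf.mp hy
    · intro hx
      exact ⟨⟨x, Subgroup.mem_top x⟩, Subgroup.mem_subgroupOf.mpr hx, rfl⟩
  rw [h2] at h1
  exact h1

/-- characteristic 2: the tame part can be realised in a subgroup -/
theorem prf_MChar2 (hMRz : MRz) : MChar2 := by
  intro k _ _ _ G _ _ P P₀ H c hP hP₀ hle hRz hn
  have : Fact (Nat.Prime 2) := ⟨Nat.prime_two⟩
  have hone : Nz 2 P (1 : G) := by
    refine ⟨hP.1, ?_, ?_⟩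
    · rw [orderOf_one]
      decide
    · intro x hx
      simpa using hx
  have hRz1 : Rz k P (1 : G) ⊤ := by
    refine ⟨le_top, ?_⟩
    rw [Subgroup.zpowers_one_eq_bot, sup_bot_eq]
    exact MChar2_toTop k G P (MChar2_wild k G P hP.1 hn)
  have h := hMRz k 2 G P P₀ P H ⊤ c 1 hP hone hP₀ hone hle le_rfl (by rw [mul_one, one_mul])
    hRz hRz1
  rw [mul_one, sup_top_eq] at h
  exact MChar2_ofTop k G _ h.2

end MP7b0bad.MT
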