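import Pool.Agent.Work.MP_7b0bad_ag.MT.GStmts

set_option autoImplicit false

/-!
# The join of a family of covers with tame inertia
-/

namespace MP7b0bad.MT

open Polynomial

/-- the product of commuting tame elements is tame and normalises `P` -/
theorem mfam_list {G : Type} [Group G] (p : ℕ) [Fact p.Prime] (P : Subgroup G) (hP : IsPGroup p P) :
    ∀ L : List G, (∀ a ∈ L, Nz p P a) → (∀ a ∈ L, ∀ b ∈ L, Commute a b) → Nz p P L.prod := by
  intro L
  induction L with
  | nil =>
    intro _ _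
    refine ⟨hP, ?_, fun x hx => ?_⟩
    · rw [List.prod_nil, orderOf_one]
      exact (Fact.out : p.Prime).one_lt.ne' ∘ Nat.dvd_one.mp
    · rw [List.prod_nil, one_mul, inv_one, mul_one]
      exact hx
  | cons a L ih =>
    intro h1 h2
    have hL : Nz p P L.prod := ih (fun b hb => h1 b (List.mem_cons_of_mem _ hb))
      (fun b hb c hc => h2 b (List.mem_cons_of_mem _ hb) c (List.mem_cons_of_mem _ hc))
    have ha : Nz p P a := h1 a List.mem_cons_self
    have hc : Commute a L.prod := Commute.list_prod_right _ _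
      (fun b hb => h2 a List.mem_cons_self b (List.mem_cons_of_mem _ hb))
    refine ⟨hP, ?_, fun x hx => ?_⟩
    · rw [List.prod_cons]
      intro h
      rcases (Fact.out : p.Prime).dvd_mul.mp (h.trans hc.orderOf_mul_dvd_mul_orderOf) with h3 | h3
      · exact ha.2.1 h3
      · exact hL.2.1 h3
    · rw [List.prod_cons]
      have e : a * L.prod * x * (a * L.prod)⁻¹ = a * (L.prod * x * L.prod⁻¹) * a⁻¹ := by group
      rw [e]
      exact ha.2.2 _ (hL.2.2 x hx)

/-- the trivial action -/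
@[reducible] def mfam_act (G R : Type) [Group G] [CommRing R] : MulSemiringAction G R where
  smul _ b := b
  one_smul _ := rfl
  mul_smul _ _ _ := rfl
  smul_zero _ := rfl
  smul_add _ _ _ := rfl
  smul_one _ := rfl
  smul_mul _ _ _ := rfl

theorem mfam_gal (R : Type) [CommRing R] (G : Type) [Group G] (hs : Subsingleton G) :
    letI := mfam_act G R
    GalAlg R G R := by
  let _ := mfam_act G R
  refine ⟨fun _ _ => rfl, fun a b h => h, fun b _ => ⟨b, rfl⟩, fun σ hσ => ?_⟩
  exact absurd (Subsingleton.elim σ 1) hσ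

/-- the trivial cover -/
theorem mfam_triv (k : Type) [Field k] (G : Type) [Group G] (hs : Subsingleton G)
    (G₀ : Subgroup G) : Rel k G G₀ := by
  have hs' : Subsingleton G₀ := inferInstance
  exact ⟨k[X], inferInstance, inferInstance, mfam_act G k[X], LaurentSeries k, inferInstance,
    inferInstance, mfam_act G₀ (LaurentSeries k), atInf k, mfam_gal k[X] G hs, inferInstance,
    mfam_gal (LaurentSeries k) G₀ hs', inferInstance, fun _ => rfl, fun _ _ => rfl⟩

theorem mfam_bot (k : Type) [Field k] {G : Type} [Group G] : Rz k (⊥ : Subgroup G) (1 : G) ⊥ := by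
  refine ⟨?_, ?_⟩
  · rw [Subgroup.zpowers_one_eq_bot, bot_sup_eq]
  · exact mfam_triv k _ inferInstance _

theorem mfam_nz_one {G : Type} [Group G] (p : ℕ) [Fact p.Prime] (P : Subgroup G) (hP : IsPGroup p P) :
    Nz p P (1 : G) := mfam_list p P hP [] (fun a ha => absurd ha List.not_mem_nil)
      (fun a ha => absurd ha List.not_mem_nil)

theorem mfam_sup {α : Type} [CompleteLattice α] (a : α) (r : ℕ) (H : Fin (r + 1) → α) :
    a ⊔ H 0 ⊔ (a ⊔ ⨆ i : Fin r, H i.succ) = a ⊔ ⨆ i : Fin (r + 1), H i := by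
  have h1 : ∀ j, H j ≤ ⨆ i, H i := fun j => le_iSup H j
  have h2 : (⨆ i : Fin r, H i.succ) ≤ ⨆ i, H i := iSup_le fun i => h1 i.succ
  have h3 : (⨆ i, H i) ≤ a ⊔ ⨆ i, H i := le_sup_right
  have h4 : a ≤ a ⊔ ⨆ i, H i := le_sup_left
  have h5 : a ≤ a ⊔ H 0 ⊔ (a ⊔ ⨆ i : Fin r, H i.succ) := le_sup_of_le_left le_sup_left
  have h6 : H 0 ≤ a ⊔ H 0 ⊔ (a ⊔ ⨆ i : Fin r, H i.succ) := le_sup_of_le_left le_sup_right
  have h7 : ∀ j : Fin r, H j.succ ≤ a ⊔ H 0 ⊔ (a ⊔ ⨆ i : Fin r, H i.succ) := fun j =>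
    le_sup_of_le_right (le_sup_of_le_right (le_iSup (fun i : Fin r => H i.succ) j))
  refine le_antisymm (sup_le (sup_le h4 ((h1 0).trans h3)) (sup_le h4 (h2.trans h3)))
    (sup_le h5 (iSup_le fun i => ?_))
  exact Fin.cases (motive := fun i => H i ≤ a ⊔ H 0 ⊔ (a ⊔ ⨆ i : Fin r, H i.succ)) h6 h7 i

theorem prf_MFam (hMRz : MRz) : MFam := by
  intro k _ _ p _ _ G _ _ P r
  induction r with
  | zero =>
    intro c P' H hP _ _ _ _ _
    have h0 : (⨆ i : Fin 0, H i) = ⊥ := iSup_of_empty _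
    rw [List.ofFn_zero, List.prod_nil, h0]
    have h1 := hMRz k p G P ⊥ ⊥ ⊥ ⊥ 1 1 (mfam_nz_one p P hP) (mfam_nz_one p P hP)
      (mfam_nz_one p ⊥ IsPGroup.of_bot) (mfam_nz_one p ⊥ IsPGroup.of_bot) bot_le bot_le rfl
      (mfam_bot k) (mfam_bot k)
    rw [mul_one, sup_bot_eq] at h1
    exact h1
  | succ r ih =>
    intro c P' H hP hc hP' hle hcc hRz
    have h1 := ih (fun i => c i.succ) (fun i => P' i.succ) (fun i => H i.succ) hP
      (fun i => hc i.succ) (fun i => hP' i.succ) (fun i => hle i.succ) (fun i j => hcc i.succ j.succ)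
      (fun i => hRz i.succ)
    have hmem : ∀ a ∈ List.ofFn (fun i : Fin r => c i.succ), ∃ i : Fin r, c i.succ = a := by
      intro a ha
      rw [List.mem_ofFn] at ha
      exact ha
    have hN : Nz p P (List.ofFn fun i : Fin r => c i.succ).prod := by
      refine mfam_list p P hP _ ?_ ?_
      · intro a ha
        obtain ⟨i, rfl⟩ := hmem a ha
        exact hc i.succ
      · intro a ha b hb
        obtain ⟨i, rfl⟩ := hmem a ha
        obtain ⟨j, rfl⟩ := hmem b hb
        exact hcc i.succ j.succ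
    have hcom : Commute (c 0) (List.ofFn fun i : Fin r => c i.succ).prod := by
      refine Commute.list_prod_right _ _ ?_
      intro b hb
      obtain ⟨j, rfl⟩ := hmem b hb
      exact hcc 0 j.succ
    have h2 := hMRz k p G P (P' 0) P (H 0) (P ⊔ ⨆ i : Fin r, H i.succ) (c 0)
      (List.ofFn fun i : Fin r => c i.succ).prod (hc 0) hN (hP' 0) hN (hle 0) le_rfl hcom (hRz 0) h1
    rw [List.ofFn_succ, List.prod_cons]
    have e : P ⊔ H 0 ⊔ (P ⊔ ⨆ i : Fin r, H i.succ) = P ⊔ ⨆ i : Fin (r + 1), H i := mfam_sup P r H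
    rw [← e]
    exact h2

end MP7b0bad.MT
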