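import Pool.Agent.Work.MP_7b0bad_ag.MT.GStmts
import Pool.Agent.Work.MP_7b0bad_ag.SV.GHyp

set_option autoImplicit false

/-!
# Block MT: `ANred`, the inertia groups in `A_n` when `n < 2 p`
-/

namespace MP7b0bad.MT

/-- `p²` does not divide the order of a permutation group on `n < 2 p` points -/
theorem ANred_sq (p : ℕ) [Fact p.Prime] (n : ℕ) (hn : n < 2 * p) : ¬ p ^ 2 ∣ n.factorial := by
  intro h
  have hp2 : 2 ≤ p := (Fact.out : p.Prime).two_le
  have h1 : padicValNat p n.factorial = ∑ i ∈ Finset.Ico 1 2, n / p ^ i := by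
    apply padicValNat_factorial
    apply Nat.log_lt_of_lt_pow'
    · norm_num
    · nlinarith
  have h2 : 2 ≤ padicValNat p n.factorial :=
    (padicValNat_dvd_iff_le (Nat.factorial_ne_zero n)).1 h
  rw [h1] at h2
  simp only [Finset.sum_Ico_eq_sum_range] at h2
  simp at h2
  have h3 : n / p < 2 := Nat.div_lt_of_lt_mul (by linarith)
  omega

theorem prf_ANred : ANred := by
  intro p _ n hp2 hn G₁ G₀ hne hH
  have hpp : p.Prime := Fact.out
  obtain ⟨h1, h2, h3, h4, h5, h6⟩ := hH
  obtain ⟨c, hc, hG₀⟩ := GT.prf_GHyp p (alternatingGroup (Fin n)) G₀ G₁ h1 h2 h3 h4 h5 h6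
  obtain ⟨k, hk⟩ := IsPGroup.iff_card.1 h3
  have hdvd : Nat.card G₁ ∣ n.factorial := by
    have ha : Nat.card G₁ ∣ Nat.card (alternatingGroup (Fin n)) := Subgroup.card_subgroup_dvd_card _
    have hb : Nat.card (alternatingGroup (Fin n)) ∣ Nat.card (Equiv.Perm (Fin n)) :=
      Subgroup.card_subgroup_dvd_card _
    have hc' : Nat.card (Equiv.Perm (Fin n)) = n.factorial := by
      rw [Nat.card_eq_fintype_card, Fintype.card_perm, Fintype.card_fin]
    rw [hc'] at hb
    exact ha.trans hb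
  have hk2 : k < 2 := by
    by_contra hcon
    push Not at hcon
    apply ANred_sq p n hn
    exact (pow_dvd_pow p hcon).trans (hk ▸ hdvd)
  have hcard1 : Nat.card G₁ ≠ 1 := by
    intro h
    exact hne ((Subgroup.card_eq_one).1 h)
  have hcard : Nat.card G₁ = p := by
    interval_cases k
    · simp at hk
      exact absurd hk hne
    · simpa using hk
  obtain ⟨x, hx, hx1⟩ : ∃ x ∈ G₁, x ≠ 1 := by
    by_contra hcon
    push Not at hcon
    exact hne ((Subgroup.eq_bot_iff_forall _).2 hcon)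
  have hox : orderOf x = p := by
    have h7 : orderOf x ∣ Nat.card G₁ := Subgroup.orderOf_dvd_natCard _ hx
    rw [hcard] at h7
    rcases (Nat.dvd_prime hpp).1 h7 with h8 | h8
    · exact absurd (orderOf_eq_one_iff.1 h8) hx1
    · exact h8
  have hox' : orderOf (x : Equiv.Perm (Fin n)) = p := by
    rw [Subgroup.orderOf_coe, hox]
  have hcyc : (x : Equiv.Perm (Fin n)).IsCycle := by
    apply Equiv.Perm.isCycle_of_prime_order'
    · rw [hox']
      exact hpp
    · rw [hox', Fintype.card_fin]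
      exact hn
  have hz : Subgroup.zpowers x = G₁ := by
    apply Subgroup.eq_of_le_of_card_ge
    · rw [Subgroup.zpowers_le]
      exact hx
    · rw [Nat.card_zpowers, hox, hcard]
  refine ⟨x, c, ⟨hc.pgr, hc.cop, hc.nrm⟩, hG₀, hx, hcyc, ?_, ?_⟩
  · rw [← hcyc.orderOf, hox']
  · have h9 : c * x * c⁻¹ ∈ Subgroup.zpowers x := by
      rw [hz]
      exact hc.nrm x hx
    obtain ⟨a, ha⟩ := (mem_powers_iff_mem_zpowers.2 h9)
    exact ⟨a, ha.symm⟩

end MP7b0bad.MT
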