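import Pool.Agent.Work.MP_7b0bad_ag.MT.Defs

set_option autoImplicit false

/-!
# Descent of covers with tame and wild ramification: statements

`ξ = HahnSeries.single 1 1 = 1 / x` in `κ((ξ))`.  Tools: `SV/JAll.lean` (`all_JGeo`, `all_JApp`,
`all_JTNS`, `all_JIdem`, `all_JIdK`, ...), `AllH.lean` / `Bd` (`QTN`, `QSTN`, `QQuo`, `QBC`, `QSpr`,
`QDomB`, `E9`), `SV/JCR.lean` (`JCR_surj`, `JCR_tn_map`, `JCR_b`), `SV/JIdL.lean`.
-/

namespace MP7b0bad.MT

open Polynomial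

/-- `ξ ^ d` in an algebra over `κ((ξ))` -/
noncomputable def xi (κ : Type) [Field κ] (D : Type) [CommRing D] [Algebra (LaurentSeries κ) D]
    (d : ℤ) : D := algebraMap (LaurentSeries κ) D (HahnSeries.single d (1 : κ))

/-- `z'` is close to `z` -/
def Near (κ : Type) [Field κ] {D : Type} [CommRing D] [Algebra (LaurentSeries κ) D] (L : ℕ)
    (z z' : D) : Prop := ∃ w : D, IntL (κ := κ) w ∧ z' = z + xi κ D (L : ℤ) * w

/-- continuity at `z` of a function of finitely many elements of `D` -/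
def Ct (κ : Type) [Field κ] {D : Type} [CommRing D] [Algebra (LaurentSeries κ) D] {I : Type}
    (z : I → D) (Φ : (I → D) → D) : Prop :=
  ∀ M : ℕ, ∃ L : ℕ, ∀ z' : I → D, (∀ i, Near κ L (z i) (z' i)) → Near κ M (Φ z) (Φ z')

/-- `x ^ (d N)` times `f (t / x ^ d)`, for `deg f ≤ N` -/
noncomputable def Ev (κ : Type) [Field κ] {B : Type} [CommRing B] [Algebra κ[X] B] (d N : ℕ)
    (f : κ[X]) (t : B) : B :=
  ∑ i ∈ Finset.range (N + 1), algebraMap κ[X] B (C (f.coeff i) * X ^ (d * (N - i))) * t ^ i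

/-- Certificate: `β / x^d`, `t / x^d`, `η / x^d` are approximations of an idempotent with stabiliser
`G₀`, of an `n`-th root `τ` of `x` and of Artin-Schreier generators. -/
structure CTd (κ : Type) [Field κ] (p n : ℕ) (ζ : κ) {G : Type} [Group G] {G₀ : Subgroup G}
    (P : Subgroup G₀) (c : G₀) {B : Type} [CommRing B] [Algebra κ[X] B] [MulSemiringAction G B]
    (d N : ℕ) (β t : B) (η : (P →* Multiplicative (ZMod p)) → B)
    (f : (P →* Multiplicative (ZMod p)) → κ[X]) : Prop where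
  idem : Small κ (2 * d) (β ^ 2 - algebraMap κ[X] B (X ^ d) * β)
  orth : ∀ γ : G, γ ∉ G₀ → Small κ (2 * d) (β * (γ • β))
  inv : ∀ τ : G₀, Small κ d ((τ : G) • β - β)
  sum : ∃ s : Finset G, Small κ d (∑ γ ∈ s, γ • β - algebraMap κ[X] B (X ^ d))
  pow : Small κ (d * (n + 1) + 1)
    (algebraMap κ[X] B (X ^ N) * β * (t ^ n - algebraMap κ[X] B (X ^ (d * n + 1))))
  fix : ∀ g : G₀, g ∈ P → Small κ (d * (n + 1) + 1) (β * ((g : G) • t - t) * t ^ (n - 1))
  tame : Small κ (d * (n + 1) + 1)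
    (β * ((c : G) • t - algebraMap κ[X] B (C ζ) * t) * t ^ (n - 1))
  as : ∀ l, l ≠ 1 → Small κ (d * (N + 1)) (β * (algebraMap κ[X] B (X ^ (d * (N - p))) * η l ^ p -
    algebraMap κ[X] B (X ^ (d * (N - 1))) * η l - Ev κ d N (f l) t))
  act : ∀ l, l ≠ 1 → ∀ g : P, Small κ (2 * d) (β * (((g : G₀) : G) • η l - η l -
    algebraMap κ[X] B (X ^ d) * (((Multiplicative.toAdd (l g)).val : ℕ) : B)))
  deg : ∀ l, l ≠ 1 → ¬ p ∣ (f l).natDegree ∧ (f l).natDegree ≤ N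
  pN : p ≤ N

/-! ## Connectedness -/

/-- [MTVal] the Artin-Schreier equation `y^p - y = f(τ)` has no solution in `K((ξ))(τ)`, `τ^n = 1/ξ`,
if `p` does not divide `deg f`.  `T^n - 1/ξ` is irreducible over `K((ξ))` and there is
`K((ξ)) → K((σ))`, `ξ ↦ σ^n` (`T ↦ 1/σ`), so the equation holds in `K((σ))` with
`y' = ∑ a_i(σ^n) σ^(-i)`: if `deg f > 0` then `ord y' < 0` and `p ord y' = - deg f`. -/
def MTVal : Prop := ∀ (K : Type) [Field K] (p : ℕ) [Fact p.Prime] [CharP K p] (n : ℕ) (L : Type)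
  [CommRing L] [IsDomain L] [Algebra (LaurentSeries K) L] (τ y : L) (a : Fin n → LaurentSeries K)
  (f : K[X]), 0 < n → τ ^ n * xi K L 1 = 1 →
  y = ∑ i, algebraMap (LaurentSeries K) L (a i) * τ ^ (i : ℕ) →
  y ^ p - y = f.eval₂ ((algebraMap (LaurentSeries K) L).comp
    (HahnSeries.C : K →+* LaurentSeries K)) τ → p ∣ f.natDegree

/-- [MTDomI] (hVal : MTVal) `MTDom`.  Let `E → E₁` be a component of the Galois algebra `E` over the
field `K((ξ))` (`YComp`, see `SV/JDom.lean`), `Δ ≤ G₀` its stabiliser, `E₁` is a field, Galois with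
group `Δ`; `τ₁ ∈ E₁` the image of `τ`.  `T^n - 1/ξ` is irreducible, so the conjugates of `τ₁` are all
`ζ^i τ₁`, hence `Δ P = G₀`.  If `Δ ⊓ P ≠ P` choose a maximal subgroup of `P` that contains it: it is
normal of index `p`, the kernel of some `l : P → Z/p`, `l ≠ 1`.  `y, f` from `TTR.as l`: the image
`y₁` of `y` is fixed by `Δ ⊓ P`.  Take `δ ∈ Δ` with `δ τ₁ = ζ τ₁`; `δ^n ∈ Δ ⊓ P`; the
eigencomponents `(1/n) ∑_j ζ^(-ij) δ^j y₁` are `a_i τ₁^i` with `a_i` fixed by `Δ`, so in `K((ξ))`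
(`GalAlg.inv`): `y₁ = ∑ a_i τ₁^i`, contradiction to `MTVal`.  So `P ≤ Δ`, `Δ = G₀` and `E = E₁`. -/
def MTDomI : Prop := MTDom

/-- [MGeoT] (hTDom : MTDom) base change to `Ω((ξ))` (`QBC` with `E7_phi K Ω`): the data `TTR` are
mapped to the base change, which is a domain by `MTDom` -/
def MGeoT : Prop := ∀ (K : Type) [Field K] (p : ℕ) [Fact p.Prime] [CharP K p] (n : ℕ) (ζ : K)
  (G₀ : Type) [Group G₀] [Finite G₀] (P : Subgroup G₀) (c : G₀), P.Normal → IsPGroup p P →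
  P ⊔ Subgroup.zpowers c = ⊤ → orderOf c = n → ¬ p ∣ n → IsPrimitiveRoot ζ n →
  ∀ (E : Type) [CommRing E] [Algebra (LaurentSeries K) E] [MulSemiringAction G₀ E] (τ : E),
  GalAlg (LaurentSeries K) G₀ E → TTR K p n ζ P c E τ → GeoDom K G₀ E

/-! ## Approximation over `K` -/

/-- [TCont] rules for continuity.  Every element becomes integral after multiplication with a power
of `ξ` (compare `JSm`); products: `Φ'Ψ' - ΦΨ = (Φ' - Φ) Ψ' + Φ (Ψ' - Ψ)`. -/
def TCont : Prop := ∀ (κ : Type) [Field κ] (Γ : Type) [Group Γ] [Finite Γ] (D : Type) [CommRing D]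
  [Algebra (LaurentSeries κ) D] [MulSemiringAction Γ D], GalAlg (LaurentSeries κ) Γ D →
  ∀ (I : Type) [Finite I] (z : I → D), (∀ a : D, Ct κ z (fun _ => a)) ∧
  (∀ i, Ct κ z (fun u => u i)) ∧
  (∀ Φ Ψ : (I → D) → D, Ct κ z Φ → Ct κ z Ψ → Ct κ z (fun u => Φ u + Ψ u) ∧
    Ct κ z (fun u => Φ u * Ψ u) ∧ Ct κ z (fun u => Φ u - Ψ u)) ∧
  ∀ (Φ : (I → D) → D) (γ : Γ), Ct κ z Φ → Ct κ z (fun u => γ • Φ u)

/-- [TAppr] simultaneous approximation with a common exponent: `JApp` for `ξ^(-L) z_i`, topologically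
nilpotent elements are integral, and `ξ^(d+1) q(x t) = ξ^d q(t)` -/
def TAppr : Prop := ∀ (κ : Type) [Field κ] (Γ : Type) [Group Γ] [Finite Γ] (C D : Type)
  [CommRing C] [Algebra κ[X] C] [MulSemiringAction Γ C] [CommRing D] [Algebra (LaurentSeries κ) D]
  [MulSemiringAction Γ D] (q : C →+* D), GalAlg κ[X] Γ C → GalAlg (LaurentSeries κ) Γ D →
  (∀ f, q (algebraMap κ[X] C f) = algebraMap (LaurentSeries κ) D (atInf κ f)) →
  (∀ (γ : Γ) (c : C), q (γ • c) = γ • q c) → ∀ (I : Type) [Finite I] (z : I → D) (L : ℕ),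
  ∃ (d : ℕ) (t : I → C), ∀ i, Near κ L (z i) (xi κ D (d : ℤ) * q (t i))

/-- [MCertT] (hCont : TCont, hAppr : TAppr) the certificate over `K`.  `D` = base change of `B` to
`K((ξ))` (`QBC`), `π : D → E`, `e` = the idempotent of `π` (`JIdK`: `e z = 0` if `π z = 0`), `τ'`,
`y'_l` lifts of `τ`, `y_l` to `D` (`JCR_surj`; for `l = 1` take `0`), `N = p + ∑ deg f_l`.
Approximate `e`, `τ'`, `y'_l` by `ξ^d β`, `ξ^d t`, `ξ^d η_l` (`TAppr`) with `L` so large that all the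
expressions of `CTd` (as functions of the approximations, `TCont`) are close to their exact values
(mod `ξ^(N+1)` integral, so topologically nilpotent even after multiplication with `x^N`); the exact
values are `0`, e.g. `e (τ'^n ξ - 1) = 0`, because `π` maps them to `0`.  Then `JTNS`. -/
def MCertT : Prop := ∀ (K : Type) [Field K] (p : ℕ) [Fact p.Prime] [CharP K p] (n : ℕ) (ζ : K)
  (G : Type) [Group G] [Finite G] (G₀ : Subgroup G) (P : Subgroup G₀) (c : G₀) (B E : Type)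
  [CommRing B] [Algebra K[X] B] [MulSemiringAction G B] [CommRing E] [Algebra (LaurentSeries K) E]
  [MulSemiringAction G₀ E] (ι : B →+* E) (τ : E), 0 < n → GalAlg K[X] G B →
  GalAlg (LaurentSeries K) G₀ E →
  (∀ f, ι (algebraMap K[X] B f) = algebraMap (LaurentSeries K) E (atInf K f)) →
  (∀ (g : G₀) (b : B), ι ((g : G) • b) = g • ι b) → TTR K p n ζ P c E τ →
  ∃ (d N : ℕ) (β t : B) (η : (P →* Multiplicative (ZMod p)) → B)
    (f : (P →* Multiplicative (ZMod p)) → K[X]), CTd K p n ζ P c d N β t η f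

/-! ## Specialisation -/

/-- [MSp] general specialisation lemma.  Adapt `SV/JDes.lean` (`QSpr`, `TII_small`, `TII_lift`, `E9`,
`QBC`, `TII_small'`): `ZK` there = `ZK` ∪ coefficients of `F` ∪ the sets of `TII_small`. -/
def MSp : Prop := ∀ (k : Type) [Field k] [IsAlgClosed k] (K : Type) [Field K] [Algebra k K]
  (Γ : Type) [Group Γ] [Finite Γ] (C : Type) [CommRing C] [Algebra K[X] C] [MulSemiringAction Γ C],
  GalAlg K[X] Γ C → ∀ (ZC : Finset C) (ZK : Finset K) (F : K[X][X]), F.Monic →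
  0 < F.natDegree → AbsIrr K F → ∀ w : K, w ≠ 0 → ∀ (I : Type) [Finite I] (d : I → ℕ) (s : I → C),
  (∀ i, Small K (d i) (s i)) →
  ∃ (R' : Subalgebra k K) (φ : R' →ₐ[k] k) (C' : Type) (_ : CommRing C') (_ : Algebra (R')[X] C')
    (_ : MulSemiringAction Γ C') (incl : C' →+* C) (C'' : Type) (_ : CommRing C'')
    (_ : Algebra k[X] C'') (_ : MulSemiringAction Γ C'') (q : C' →+* C'') (F' : (R')[X][X]),
    (∀ z ∈ ZK, z ∈ R') ∧ w ∈ R' ∧ (∀ r : R', (r : K) = w → φ r ≠ 0) ∧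
    Function.Injective incl ∧ (∀ a : (R')[X], incl (algebraMap (R')[X] C' a) =
      algebraMap K[X] C (a.map (algebraMap R' K))) ∧
    (∀ (g : Γ) (b : C'), incl (g • b) = g • incl b) ∧ (∀ z ∈ ZC, ∃ z', incl z' = z) ∧
    GalAlg k[X] Γ C'' ∧ (∀ a : (R')[X], q (algebraMap (R')[X] C' a) =
      algebraMap k[X] C'' (a.map (φ : R' →+* k))) ∧ (∀ (g : Γ) (b : C'), q (g • b) = g • q b) ∧
    (∀ (i : I) (z' : C'), incl z' = s i → Small k (d i) (q z')) ∧
    F'.map (mapRingHom (algebraMap R' K)) = F ∧ F'.Monic ∧ F'.natDegree = F.natDegree ∧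
    Irreducible (F'.map (mapRingHom (φ : R' →+* k)))

/-- [MCSp] (hSp : MSp) specialisation of the certificates `CTd` together with the irreducible
equation (`QDomB` gives `IsDomain`).  `ZC` = `θ, β, t, η_l`, `ZK` = the coefficients of the `f_l` and
`ζ`, `w` = the product of the leading coefficients of the `f_l`, `l ≠ 1`. -/
def MCSp : Prop := ∀ (k : Type) [Field k] [IsAlgClosed k] (p : ℕ) [Fact p.Prime] [CharP k p]
  (K : Type) [Field K] [Algebra k K] (n : ℕ) (ζ : k) (G : Type) [Group G] [Finite G]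
  (G₀ : Subgroup G) (P : Subgroup G₀) (c : G₀) (B : Type) [CommRing B] [Algebra K[X] B]
  [MulSemiringAction G B] (d N : ℕ) (β t : B) (η : (P →* Multiplicative (ZMod p)) → B)
  (f : (P →* Multiplicative (ZMod p)) → K[X]) (θ : B) (F : K[X][X]), GalAlg K[X] G B →
  F.Monic → F.natDegree = Nat.card G → aeval θ F = 0 → AbsIrr K F →
  CTd K p n (algebraMap k K ζ) P c d N β t η f →
  ∃ (B' : Type) (_ : CommRing B') (_ : Algebra k[X] B') (_ : MulSemiringAction G B') (β' t' : B')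
    (η' : (P →* Multiplicative (ZMod p)) → B') (f' : (P →* Multiplicative (ZMod p)) → k[X]),
    GalAlg k[X] G B' ∧ IsDomain B' ∧ CTd k p n ζ P c d N β' t' η' f'

/-! ## Reconstruction over `k` -/

/-- [MEx1] `n`-th roots.  `w = ξ^(-N) (u - 1)` is topologically nilpotent, `O = κ[[ξ]][w]` is a finite
`κ[[ξ]]`-module, complete for `ξ O` (see `SV/JIdL.lean`), hence henselian: Hensel for `X^n - u`
(`u ∈ 1 + ξ O`) gives `v ∈ 1 + ξ O`, `v^n = u`; `v^n - 1 = (v - 1) (n + (v - 1) ...)` and the second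
factor is a unit of `O`, so `v - 1 = ξ^N w'`, `w' ∈ w O` TN. -/
def MEx1 : Prop := ∀ (κ : Type) [Field κ] (Γ : Type) [Group Γ] [Finite Γ] (D : Type) [CommRing D]
  [Algebra (LaurentSeries κ) D] [MulSemiringAction Γ D], GalAlg (LaurentSeries κ) Γ D →
  ∀ (n N : ℕ) (u : D), 0 < n → (n : κ) ≠ 0 → 0 < N →
  TN (κ := κ) (xi κ D (-(N : ℤ)) * (u - 1)) →
  ∃ v : D, v ^ n = u ∧ TN (κ := κ) (xi κ D (-(N : ℤ)) * (v - 1))

/-- [MEx2] Artin-Schreier: `z₀ = -(h + h^p + ... + h^(p^(i-1)))` has `z₀^p - z₀ = h - h^(p^i)`, and for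
large `i` `h^(p^i) ∈ ξ κ[[ξ]][h]`; then Hensel for `X^p - X - h^(p^i)` as in `MEx1`. -/
def MEx2 : Prop := ∀ (κ : Type) [Field κ] (p : ℕ) [Fact p.Prime] [CharP κ p] (Γ : Type) [Group Γ]
  [Finite Γ] (D : Type) [CommRing D] [Algebra (LaurentSeries κ) D] [MulSemiringAction Γ D],
  GalAlg (LaurentSeries κ) Γ D → ∀ h : D, TN (κ := κ) h → ∃ z : D, TN (κ := κ) z ∧ z ^ p - z = h

/-- [MEx3] integral elements: roots; inverse of `1 - z`, `z` topologically nilpotent (`z^m = ξ w` with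
`w` integral; `1 - z^m` has an inverse in `κ[[ξ]][w]`) -/
def MEx3 : Prop := ∀ (κ : Type) [Field κ] (Γ : Type) [Group Γ] [Finite Γ] (D : Type) [CommRing D]
  [Algebra (LaurentSeries κ) D] [MulSemiringAction Γ D], GalAlg (LaurentSeries κ) Γ D →
  (∀ (z : D) (n : ℕ), 0 < n → IntL (κ := κ) (z ^ n) → IntL (κ := κ) z) ∧
  ∀ z : D, TN (κ := κ) z → ∃ u : D, IntL (κ := κ) u ∧ (1 - z) * u = 1

/-- [MExact] (hEx1, hEx2, hEx3) from approximate to exact data.
(1) `u = T^n ξ = 1 + ξ^N w`, `w` topologically nilpotent (TN): `MEx1` gives `v` with `v^n = u`,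
`v = 1 + ξ^N w'`, `w'` TN.  `τ = T v⁻¹`, `τ^n ξ = 1`.
(2) `g ∈ P`: `λ = g τ / τ`, `λ^n = 1`, `λ - 1` is TN (from the condition on `(g T - T) T^(n-1) ξ`), so
`λ = 1` (`(1 + z)^n = 1`, `z` TN: `z (n + z ...) = 0`).  The same for `c` and `ζ`.
(3) `f(T) - f(τ) = ∑ f_i τ^i (v^i - 1)` is TN, because `τ^i ξ^N` is integral for `i ≤ N`
(`(τ^i ξ^N)^n = ξ^(N n - i)`).  So `h = Y^p - Y - f(τ)` is TN; `MEx2`: `z^p - z = h`, `z` TN;
`y = Y - z`: `y^p - y = f(τ)`.
(4) `g ∈ P`: `δ = g y - y - l(g)` is TN and `δ^p = δ` (`g τ = τ`), so `δ^(p-1)` is a TN idempotent,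
`δ = 0`. -/
def MExact : Prop := ∀ (k : Type) [Field k] (p : ℕ) [Fact p.Prime] [CharP k p] (n N : ℕ) (ζ : k)
  (G₀ : Type) [Group G₀] [Finite G₀] (P : Subgroup G₀) (c : G₀) (E : Type) [CommRing E]
  [Algebra (LaurentSeries k) E] [MulSemiringAction G₀ E] (T : E)
  (Y : (P →* Multiplicative (ZMod p)) → E) (f : (P →* Multiplicative (ZMod p)) → k[X]),
  GalAlg (LaurentSeries k) G₀ E → 0 < n → ¬ p ∣ n → ζ ^ n = 1 → 0 < N →
  TN (κ := k) (xi k E (-(N : ℤ)) * (T ^ n * xi k E 1 - 1)) →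
  (∀ g ∈ P, TN (κ := k) ((g • T - T) * T ^ (n - 1) * xi k E 1)) →
  TN (κ := k) ((c • T - algebraMap (LaurentSeries k) E (HahnSeries.C ζ) * T) * T ^ (n - 1) *
    xi k E 1) →
  (∀ l, l ≠ 1 → TN (κ := k) (Y l ^ p - Y l - (f l).eval₂ ((algebraMap (LaurentSeries k) E).comp
    (HahnSeries.C : k →+* LaurentSeries k)) T)) →
  (∀ l, l ≠ 1 → ∀ g : P, TN (κ := k) ((g : G₀) • Y l - Y l -
    (((Multiplicative.toAdd (l g)).val : ℕ) : E))) →
  (∀ l, l ≠ 1 → ¬ p ∣ (f l).natDegree ∧ (f l).natDegree ≤ N) →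
  ∃ τ : E, TTR k p n ζ P c E τ

/-- [MCRT] (hExact : MExact, hTDom : MTDom) the cover from the certificate over `k`.  `D'` = base
change of `B` to `k((ξ))` (`QBC`), `b = ξ^d β` satisfies the conditions of `JIdem` (`JCR_b`,
`QSTN`), so there is an idempotent `e`, `e - b` TN, and `QQuo` gives the `G₀`-Galois algebra `E'` with
`π : D' → E'`, `π e = 1`, so `π b = 1 + TN`, a unit with integral inverse.  `T = π(ξ^d t)`,
`Y_l = π(ξ^d η_l)` satisfy the conditions of `MExact` (`QSTN`, `JCR_tn_map`); `MTDom`: `E'` is a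
domain; `Rel k G G₀`. -/
def MCRT : Prop := ∀ (k : Type) [Field k] [IsAlgClosed k] (p : ℕ) [Fact p.Prime] [CharP k p]
  (n : ℕ) (ζ : k) (G : Type) [Group G] [Finite G] (G₀ : Subgroup G) (P : Subgroup G₀) (c : G₀),
  P.Normal → IsPGroup p P → P ⊔ Subgroup.zpowers c = ⊤ → orderOf c = n → ¬ p ∣ n →
  IsPrimitiveRoot ζ n → ∀ (B : Type) [CommRing B] [Algebra k[X] B] [MulSemiringAction G B]
  (d N : ℕ) (β t : B) (η : (P →* Multiplicative (ZMod p)) → B)
  (f : (P →* Multiplicative (ZMod p)) → k[X]), GalAlg k[X] G B → IsDomain B →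
  CTd k p n ζ P c d N β t η f → Rel k G G₀

/-- [MDesA] (hTDom : MTDom, hGeoT, hCertT, hCSp, hCRT) `MDes`: `MGeoT`, `JGeo` (`θ`, `F`), `MCertT`,
`MCSp`, `MCRT` -/
def MDesA : Prop := MDes

end MP7b0bad.MT
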