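import Pool.Agent.Work.MP_7b0bad_ag.SV.JStmts

set_option autoImplicit false

/-!
# Join of covers with tame inertia: definitions

`K = k((T))`, `F = k((w))((T))`, `KWp = k[w, 1/w]((T))`. The discs have parameter `w = V(x)`, the
inner covers are covers of the `X`-line with `X = w / T^m`, the outer torsor lives over the ring
`R = K[x][1/V]` and has tame ramification inside the discs.
-/

namespace MP7b0bad.MT

open Polynomial

/-- homomorphism of Laurent series rings given by the coefficients -/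
noncomputable def lmap {A B : Type} [CommRing A] [CommRing B] (f : A →+* B) :
    LaurentSeries A →+* LaurentSeries B where
  toFun a := a.map f
  map_one' := by
    refine HahnSeries.ext ?_
    funext n
    rw [HahnSeries.map_coeff, HahnSeries.coeff_one, HahnSeries.coeff_one]
    split_ifs <;> simp
  map_mul' a b := HahnSeries.map_mul f.toNonUnitalRingHom
  map_zero' := by ext; simp
  map_add' a b := by ext; simp

theorem lmap_coeff {A B : Type} [CommRing A] [CommRing B] (f : A →+* B) (a : LaurentSeries A)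
    (n : ℤ) : (lmap f a).coeff n = f (a.coeff n) := rfl

/-- `k[w, 1/w]((T))` -/
abbrev KWp (k : Type) [Field k] : Type := LaurentSeries (LaurentPolynomial k)

/-- `w` as a unit of `k((w))` -/
noncomputable def wU (k : Type) [Field k] : (LaurentSeries k)ˣ where
  val := HahnSeries.single (1 : ℤ) (1 : k)
  inv := HahnSeries.single (-1 : ℤ) (1 : k)
  val_inv := by rw [HahnSeries.single_mul_single]; simp
  inv_val := by rw [HahnSeries.single_mul_single]; simp

/-- `k[w, 1/w] → k((w))` -/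
noncomputable def wLp (k : Type) [Field k] : LaurentPolynomial k →+* LaurentSeries k :=
  LaurentPolynomial.eval₂ (HahnSeries.C : k →+* LaurentSeries k) (wU k)

/-- `k[w, 1/w]((T)) → k((w))((T))` -/
noncomputable def WFp (k : Type) [Field k] : KWp k →+* Fk k := lmap (wLp k)

/-- `k((T)) → k[w, 1/w]((T))` -/
noncomputable def KKp (k : Type) [Field k] : LaurentSeries k →+* KWp k :=
  lmap (LaurentPolynomial.C : k →+* LaurentPolynomial k)

/-- `k[w]((T)) → k[w, 1/w]((T))` -/
noncomputable def toP (k : Type) [Field k] : KW k →+* KWp k :=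
  lmap (Polynomial.toLaurent : k[X] →+* LaurentPolynomial k)

/-- `k[X] → k[w, 1/w]((T))`, `X ↦ w / T^m` -/
noncomputable def toXp (k : Type) [Field k] (m : ℕ) : k[X] →+* KWp k :=
  eval₂RingHom ((HahnSeries.C : LaurentPolynomial k →+* KWp k).comp
    (LaurentPolynomial.C : k →+* LaurentPolynomial k))
    (HahnSeries.single (-(m : ℤ)) (LaurentPolynomial.T 1 : LaurentPolynomial k))

/-- `k[X] → k((w))((T))`, `X ↦ w / T^m` -/
noncomputable def toXm (k : Type) [Field k] (m : ℕ) : k[X] →+* Fk k :=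
  eval₂RingHom (kF k) (Ww k * (Tt k)⁻¹ ^ m)

/-- The base ring `R = K[x][1/V]` with its maps to `k[w, 1/w]((T))` at the discs and to `K((1/x))`. -/
structure RB (k : Type) [Field k] (N : ℕ) (V : (LaurentSeries k)[X]) (ξ : Fin N → Fk k) where
  R : Type
  [ring : CommRing R]
  [dom : IsDomain R]
  [pid : IsPrincipalIdealRing R]
  κ : (LaurentSeries k)[X] →+* R
  inj : Function.Injective κ
  unit : IsUnit (κ V)
  frac : ∀ r : R, ∃ (n : ℕ) (f : (LaurentSeries k)[X]), κ V ^ n * r = κ f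
  ρ : Fin N → R →+* KWp k
  ρ_κ : ∀ i (f : (LaurentSeries k)[X]), WFp k (ρ i (κ f)) = f.eval₂ (KF k) (ξ i)
  ρI : R →+* LaurentSeries (LaurentSeries k)
  ρI_κ : ∀ f : (LaurentSeries k)[X], ρI (κ f) = atInf (LaurentSeries k) f

attribute [instance] RB.ring RB.dom RB.pid

/-- The outer torsor (any finite group `P`) over `R` with its maps to the algebras `Q i` over `F` at
the discs. -/
structure OuterR (k : Type) [Field k] {N : ℕ} {V : (LaurentSeries k)[X]} {ξ : Fin N → Fk k}
    (b : RB k N V ξ) (P : Type) [Group P]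
    (P' : Fin N → Type) [∀ i, Group (P' i)] (π : ∀ i, P' i →* P)
    (Q : Fin N → Type) [∀ i, CommRing (Q i)] [∀ i, Algebra (Fk k) (Q i)]
    [∀ i, MulSemiringAction (P' i) (Q i)] where
  A : Type
  [ringA : CommRing A]
  [algA : Algebra b.R A]
  [actA : MulSemiringAction P A]
  gal : GalAlg b.R P A
  a : ∀ i, A →+* Q i
  a_alg : ∀ i (r : b.R), a i (algebraMap b.R A r) = algebraMap (Fk k) (Q i) (WFp k (b.ρ i r))
  a_act : ∀ i (g : P' i) (e : A), a i (π i g • e) = g • a i e

attribute [instance] OuterR.ringA OuterR.algA OuterR.actA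

/-- A connected cover of the `X`-line over `k` with group `H`, with a map to the algebra `Q` over
`F` (`X ↦ w / T^m`) that is equivariant for `P'`. -/
structure InnerM (k : Type) [Field k] (m : ℕ) (H : Type) [Group H] (P' : Type) [Group P']
    (π : P' →* H) (Q : Type) [CommRing Q] [Algebra (Fk k) Q] [MulSemiringAction P' Q] where
  B : Type
  [ringB : CommRing B]
  [algB : Algebra k[X] B]
  [actB : MulSemiringAction H B]
  gal : GalAlg k[X] H B
  dom : IsDomain B
  ι : B →+* Q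
  ι_alg : ∀ f : k[X], ι (algebraMap k[X] B f) = algebraMap (Fk k) Q (toXm k m f)
  ι_act : ∀ (g : P') (b : B), ι (π g • b) = g • ι b

attribute [instance] InnerM.ringB InnerM.algB InnerM.actB

/-- total ramification of a Galois algebra over `K((ξ))` with group `G₀ = P ⟨c⟩`, `n` the order of
`c`, in terms of `τ = ξ^{-1/n}` and Artin-Schreier data over `K((1/τ))` -/
structure TTR (K : Type) [Field K] (p n : ℕ) (ζ : K) {G₀ : Type} [Group G₀] (P : Subgroup G₀)
    (c : G₀) (E : Type) [CommRing E] [Algebra (LaurentSeries K) E] [MulSemiringAction G₀ E]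
    (τ : E) : Prop where
  pow : τ ^ n * algebraMap (LaurentSeries K) E (HahnSeries.single (1 : ℤ) (1 : K)) = 1
  fix : ∀ g ∈ P, g • τ = τ
  tame : c • τ = algebraMap (LaurentSeries K) E (HahnSeries.C ζ) * τ
  as : ∀ l : P →* Multiplicative (ZMod p), l ≠ 1 → ∃ (y : E) (f : K[X]),
    (∀ g : P, (g : G₀) • y = y + (((Multiplicative.toAdd (l g)).val : ℕ) : E)) ∧
    y ^ p - y = f.eval₂ ((algebraMap (LaurentSeries K) E).comp
      (HahnSeries.C : K →+* LaurentSeries K)) τ ∧ ¬ p ∣ f.natDegree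

/-! ## The main statements -/

/-- PATCHING -/
def MPT : Prop := ∀ (k : Type) [Field k] (m N : ℕ) (V : (LaurentSeries k)[X]) (ξ : Fin N → Fk k)
  (b : RB k N V ξ) (G : Type) [Group G] [Finite G] (Γ P G₀ : Subgroup G)
  (D H : Fin N → Subgroup G) (hD : ∀ i, D i ≤ Γ) (hH : ∀ i, D i ≤ H i) (h0 : G₀ ≤ Γ)
  (Q : Fin N → Type) [∀ i, CommRing (Q i)] [∀ i, Algebra (Fk k) (Q i)]
  [∀ i, MulSemiringAction (D i) (Q i)]
  (O : OuterR k b Γ (fun i => D i) (fun i => Subgroup.inclusion (hD i)) Q)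
  (_ : ∀ i, InnerM k m (H i) (D i) (Subgroup.inclusion (hH i)) (Q i))
  (E : Type) [CommRing E] [Algebra (LaurentSeries (LaurentSeries k)) E]
  [MulSemiringAction G₀ E] (j : O.A →+* E),
  0 < m → 0 < N → DiscsK k N V ξ → (∀ i, GalAlg (Fk k) (D i) (Q i)) → (∀ i, IsDomain (Q i)) →
  P ≤ G₀ → (∀ g ∈ Γ, ∀ x ∈ P, g * x * g⁻¹ ∈ P) →
  (∀ g ∈ Γ, ∀ h ∈ Γ, g * h * g⁻¹ * h⁻¹ ∈ P) →
  G₀ ⊔ (⨆ i, D i) = Γ → Γ ⊔ (⨆ i, H i) = ⊤ →
  GalAlg (LaurentSeries (LaurentSeries k)) G₀ E → IsDomain E →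
  (∀ r : b.R, j (algebraMap b.R O.A r) =
    algebraMap (LaurentSeries (LaurentSeries k)) E (b.ρI r)) →
  (∀ (g : G₀) (e : O.A), j (Subgroup.inclusion h0 g • e) = g • j e) →
  ∃ (B : Type) (_ : CommRing B) (_ : Algebra (LaurentSeries k)[X] B)
    (_ : MulSemiringAction G B) (ι : B →+* E),
    GalAlg (LaurentSeries k)[X] G B ∧ IsDomain B ∧
    (∀ f : (LaurentSeries k)[X], ι (algebraMap (LaurentSeries k)[X] B f) =
      algebraMap (LaurentSeries (LaurentSeries k)) E (atInf (LaurentSeries k) f)) ∧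
    ∀ (g : G₀) (b : B), ι ((g : G) • b) = g • ι b

/-- DESCENT from `K` to `k` of a cover whose local extension at infinity is totally ramified in the
sense of `TTR` -/
def MDes : Prop := ∀ (k : Type) [Field k] [IsAlgClosed k] (p : ℕ) [Fact p.Prime] [CharP k p]
  (K : Type) [Field K] [Algebra k K] (n : ℕ) (ζ : k) (G : Type) [Group G] [Finite G]
  (G₀ : Subgroup G) (P : Subgroup G₀) (c : G₀), P.Normal → IsPGroup p P →
  P ⊔ Subgroup.zpowers c = ⊤ → orderOf c = n → ¬ p ∣ n → IsPrimitiveRoot ζ n →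
  ∀ (B E : Type) [CommRing B] [Algebra K[X] B] [MulSemiringAction G B] [CommRing E]
    [Algebra (LaurentSeries K) E] [MulSemiringAction G₀ E] (ι : B →+* E) (τ : E),
  GalAlg K[X] G B → IsDomain B → GalAlg (LaurentSeries K) G₀ E →
  (∀ f, ι (algebraMap K[X] B f) = algebraMap (LaurentSeries K) E (atInf K f)) →
  (∀ (g : G₀) (b : B), ι ((g : G) • b) = g • ι b) →
  TTR K p n (algebraMap k K ζ) P c E τ → Rel k G G₀

/-- total ramification implies that the algebra is a domain -/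
def MTDom : Prop := ∀ (K : Type) [Field K] (p : ℕ) [Fact p.Prime] [CharP K p] (n : ℕ) (ζ : K)
  (G₀ : Type) [Group G₀] [Finite G₀] (P : Subgroup G₀) (c : G₀), P.Normal → IsPGroup p P →
  P ⊔ Subgroup.zpowers c = ⊤ → orderOf c = n → ¬ p ∣ n → IsPrimitiveRoot ζ n →
  ∀ (E : Type) [CommRing E] [Algebra (LaurentSeries K) E] [MulSemiringAction G₀ E] (τ : E),
  GalAlg (LaurentSeries K) G₀ E → TTR K p n ζ P c E τ → IsDomain E

/-- NORMALISATION: the tame generator acts by a given root of unity -/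
def MNorm : Prop := ∀ (k : Type) [Field k] [IsAlgClosed k] (p : ℕ) [Fact p.Prime] [CharP k p]
  (H : Type) [Group H] [Finite H] (D : Subgroup H) (P : Subgroup D) (c : D) (n : ℕ) (ζ : k),
  P.Normal → IsPGroup p P → P ⊔ Subgroup.zpowers c = ⊤ → orderOf c = n → ¬ p ∣ n →
  IsPrimitiveRoot ζ n → Rel k H D →
  ∃ (B : Type) (_ : CommRing B) (_ : Algebra k[X] B) (_ : MulSemiringAction H B)
    (E : Type) (_ : CommRing E) (_ : Algebra (LaurentSeries k) E) (_ : MulSemiringAction D E)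
    (ι : B →+* E) (t : E),
    GalAlg k[X] H B ∧ IsDomain B ∧ GalAlg (LaurentSeries k) D E ∧ IsDomain E ∧
    (∀ f : k[X], ι (algebraMap k[X] B f) = algebraMap (LaurentSeries k) E (atInf k f)) ∧
    (∀ (g : D) (b : B), ι ((g : H) • b) = g • ι b) ∧
    t ^ n = algebraMap (LaurentSeries k) E (atInf k X) ∧ (∀ g ∈ P, g • t = t) ∧
    c • t = algebraMap (LaurentSeries k) E (HahnSeries.C ζ) * t

/-- THE JOIN with two tame discs -/
def MJ2 : Prop := ∀ (k : Type) [Field k] [IsAlgClosed k] (p : ℕ) [Fact p.Prime] [CharP k p]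
  (G : Type) [Group G] [Finite G] (P : Subgroup G) (c : Fin 2 → G) (P' H : Fin 2 → Subgroup G),
  IsPGroup p P → (∀ i, ¬ p ∣ orderOf (c i)) → c 0 * c 1 = c 1 * c 0 →
  Subgroup.zpowers (c 0) ⊓ Subgroup.zpowers (c 1) = ⊥ → (∀ i, ∀ x ∈ P, c i * x * (c i)⁻¹ ∈ P) →
  (∀ i, P' i ≤ P) → (∀ i, ∀ x ∈ P' i, c i * x * (c i)⁻¹ ∈ P' i) →
  (∀ i, P' i ⊔ Subgroup.zpowers (c i) ≤ H i) →
  (∀ i, Rel k (H i) ((P' i ⊔ Subgroup.zpowers (c i)).subgroupOf (H i))) →
  P ⊔ H 0 ⊔ H 1 = ⊤ → Rel k G (P ⊔ Subgroup.zpowers (c 0 * c 1))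

end MP7b0bad.MT
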