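import Pool.Agent.Work.MP_7b0bad_ag.MT.TStmts

set_option autoImplicit false

/-!
# Join of covers with tame inertia: assembly and consequences, statements
-/

namespace MP7b0bad.MT

open Polynomial

/-- `MNorm` for subgroups of a group -/
def MNormS : Prop := ∀ (k : Type) [Field k] [IsAlgClosed k] (p : ℕ) [Fact p.Prime] [CharP k p]
  (G : Type) [Group G] [Finite G] (P D H : Subgroup G) (hDH : D ≤ H) (c : G) (hc : c ∈ D)
  (n : ℕ) (ζ : k), IsPGroup p P → (∀ x ∈ P, c * x * c⁻¹ ∈ P) → D = P ⊔ Subgroup.zpowers c →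
  orderOf c = n → ¬ p ∣ n → IsPrimitiveRoot ζ n → Rel k H (D.subgroupOf H) →
  ∃ (B : Type) (_ : CommRing B) (_ : Algebra k[X] B) (_ : MulSemiringAction H B)
    (E : Type) (_ : CommRing E) (_ : Algebra (LaurentSeries k) E) (_ : MulSemiringAction D E)
    (ι : B →+* E) (t : E),
    GalAlg k[X] H B ∧ IsDomain B ∧ GalAlg (LaurentSeries k) D E ∧ IsDomain E ∧
    (∀ f : k[X], ι (algebraMap k[X] B f) = algebraMap (LaurentSeries k) E (atInf k f)) ∧
    (∀ (g : D) (b : B), ι (Subgroup.inclusion hDH g • b) = g • ι b) ∧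
    t ^ n = algebraMap (LaurentSeries k) E (atInf k X) ∧ (∀ g : D, (g : G) ∈ P → g • t = t) ∧
    (⟨c, hc⟩ : D) • t = algebraMap (LaurentSeries k) E (HahnSeries.C ζ) * t

end MP7b0bad.MT
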