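import Pool.Agent.Work.MP_7b0bad_ag.MT.FStmts
import Pool.Agent.Work.MP_7b0bad_ag.SV.Fin

set_option autoImplicit false

/-!
# Consequences of the join with tame inertia: statements
-/

namespace MP7b0bad.MT

open Polynomial

/-- `P ⟨c⟩` is realised in the subgroup `H` -/
def Rz (k : Type) [Field k] {G : Type} [Group G] (P : Subgroup G) (c : G) (H : Subgroup G) : Prop :=
  P ⊔ Subgroup.zpowers c ≤ H ∧ Rel k H ((P ⊔ Subgroup.zpowers c).subgroupOf H)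

/-- `P` is a `p`-group normalised by `c`, which has order prime to `p` -/
def Nz (p : ℕ) {G : Type} [Group G] (P : Subgroup G) (c : G) : Prop :=
  IsPGroup p P ∧ ¬ p ∣ orderOf c ∧ ∀ x ∈ P, c * x * c⁻¹ ∈ P

/-- solvable groups with central tame elements of any order -/
def MGS : Prop := ∀ (p : ℕ) [Fact p.Prime] (n : ℕ), 0 < n → ¬ p ∣ n →
  ∃ (S : Type) (_ : Group S) (_ : Finite S) (Q : Subgroup S) (s : S), Group.IsSolvable S ∧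
    IsPGroup p Q ∧ orderOf s = n ∧ (∀ x ∈ Q, s * x * s⁻¹ ∈ Q) ∧
    Subgroup.normalClosure (Q : Set S) = ⊤

/-- the join inside a group, with independent `c₀`, `c₁` -/
def MRz0 : Prop := ∀ (k : Type) [Field k] [IsAlgClosed k] (p : ℕ) [Fact p.Prime] [CharP k p]
  (G : Type) [Group G] [Finite G] (P P₀ P₁ H₀ H₁ : Subgroup G) (c₀ c₁ : G), Nz p P c₀ → Nz p P c₁ →
  Nz p P₀ c₀ → Nz p P₁ c₁ → P₀ ≤ P → P₁ ≤ P → c₀ * c₁ = c₁ * c₀ →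
  Subgroup.zpowers c₀ ⊓ Subgroup.zpowers c₁ = ⊥ → Rz k P₀ c₀ H₀ → Rz k P₁ c₁ H₁ →
  Rz k P (c₀ * c₁) (P ⊔ H₀ ⊔ H₁)

/-- the join inside a group -/
def MRz : Prop := ∀ (k : Type) [Field k] [IsAlgClosed k] (p : ℕ) [Fact p.Prime] [CharP k p]
  (G : Type) [Group G] [Finite G] (P P₀ P₁ H₀ H₁ : Subgroup G) (c₀ c₁ : G), Nz p P c₀ → Nz p P c₁ →
  Nz p P₀ c₀ → Nz p P₁ c₁ → P₀ ≤ P → P₁ ≤ P → c₀ * c₁ = c₁ * c₀ → Rz k P₀ c₀ H₀ → Rz k P₁ c₁ H₁ →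
  Rz k P (c₀ * c₁) (P ⊔ H₀ ⊔ H₁)

/-- the join of a family -/
def MFam : Prop := ∀ (k : Type) [Field k] [IsAlgClosed k] (p : ℕ) [Fact p.Prime] [CharP k p]
  (G : Type) [Group G] [Finite G] (P : Subgroup G) (r : ℕ) (c : Fin r → G)
  (P' H : Fin r → Subgroup G), IsPGroup p P → (∀ i, Nz p P (c i)) → (∀ i, Nz p (P' i) (c i)) →
  (∀ i, P' i ≤ P) → (∀ i j, Commute (c i) (c j)) → (∀ i, Rz k (P' i) (c i) (H i)) →
  Rz k P (List.ofFn c).prod (P ⊔ ⨆ i, H i)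

/-- solvable groups -/
def MSolv : Prop := ∀ (k : Type) [Field k] [IsAlgClosed k] (p : ℕ) [Fact p.Prime] [CharP k p]
  (G : Type) [Group G] [Finite G] (P H : Subgroup G) (c : G), Nz p P c →
  P ⊔ Subgroup.zpowers c ≤ H → Group.IsSolvable H →
  Subgroup.closure {g | ∃ x ∈ H, ∃ q ∈ P, g = x * q * x⁻¹} = H → Rz k P c H

/-- characteristic 2: the tame part can be realised in a subgroup -/
def MChar2 : Prop := ∀ (k : Type) [Field k] [IsAlgClosed k] [CharP k 2]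
  (G : Type) [Group G] [Finite G] (P P₀ H : Subgroup G) (c : G), Nz 2 P c → Nz 2 P₀ c → P₀ ≤ P →
  Rz k P₀ c H → Subgroup.normalClosure (P : Set G) = ⊤ → Rel k G (P ⊔ Subgroup.zpowers c)

/-- there are no quadratic covers for odd `p` -/
def MSgn : Prop := ∀ (k : Type) [Field k] [IsAlgClosed k] (p : ℕ) [Fact p.Prime] [CharP k p]
  (H : Type) [Group H] [Finite H] (H₀ : Subgroup H), p ≠ 2 → Rel k H H₀ →
  ∀ f : H →* ℤˣ, ∀ h : H, f h = 1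

/-- ABHYANKAR'S COVERS `y^(p+e) - x y^e + 1 = 0`, `p` odd: `H` the Galois group, `x` (a `p`-cycle)
generates the wild inertia group at infinity, `c` the tame part -/
def AbMain : Prop := ∀ (p : ℕ) [Fact p.Prime] (k : Type) [Field k] [IsAlgClosed k] [CharP k p]
  (e : ℕ), p ≠ 2 → 0 < e → ¬ p ∣ e →
  ∃ (H : Subgroup (Equiv.Perm (Fin (p + e)))) (x c : Equiv.Perm (Fin (p + e))),
    x.IsCycle ∧ x.support.card = p ∧ ¬ p ∣ orderOf c ∧ (∃ a : ℕ, c * x * c⁻¹ = x ^ a) ∧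
    (∃ i ∈ x.support, c i = i) ∧
    (∀ i, i ∉ x.support → ∀ j, j ∉ x.support → ∃ m : ℕ, (c ^ m) i = j) ∧
    (e = 1 → ∀ m : ℕ, c ^ m * x = x * c ^ m → (p - 1) / 2 ∣ m) ∧
    (∀ i j, ∃ h ∈ H, h i = j) ∧ Rz k (Subgroup.zpowers x) c H

/-- properties of the relation `Z x c H`: `⟨x⟩⟨c⟩` is realised in `H` -/
structure ZAx (p n : ℕ)
    (Z : Equiv.Perm (Fin n) → Equiv.Perm (Fin n) → Subgroup (Equiv.Perm (Fin n)) → Prop) :
    Prop where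
  dat : ∀ x c H, Z x c H → orderOf x = p ∧ ¬ p ∣ orderOf c ∧ (∃ a : ℕ, c * x * c⁻¹ = x ^ a) ∧
    x ∈ H ∧ c ∈ H
  alt : ∀ x c H, Z x c H → H ≤ alternatingGroup (Fin n)
  conj : ∀ g x c H, Z x c H →
    Z (g * x * g⁻¹) (g * c * g⁻¹) (H.map (MulAut.conj g).toMonoidHom)
  same : ∀ x c c' H, Z x c H → ¬ p ∣ orderOf c' →
    Subgroup.zpowers x ⊔ Subgroup.zpowers c = Subgroup.zpowers x ⊔ Subgroup.zpowers c' → Z x c' H
  pow : ∀ x c H (m : ℕ), Z x c H → Z x (c ^ m) H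
  mul : ∀ x c₀ c₁ H₀ H₁, Z x c₀ H₀ → Z x c₁ H₁ → c₀ * c₁ = c₁ * c₀ →
    Z x (c₀ * c₁) (Subgroup.zpowers x ⊔ H₀ ⊔ H₁)
  ab : ∀ e : ℕ, 0 < e → ¬ p ∣ e → p + e ≤ n → ∃ (x c : Equiv.Perm (Fin n))
    (H : Subgroup (Equiv.Perm (Fin n))) (S : Finset (Fin n)), Z x c H ∧ x.IsCycle ∧
    x.support.card = p ∧ S.card = e ∧ Disjoint S x.support ∧ (∃ i ∈ x.support, c i = i) ∧
    (∀ h ∈ H, ∀ i, i ∉ x.support → i ∉ S → h i = i) ∧
    (∀ i ∈ x.support ∪ S, ∀ j ∈ x.support ∪ S, ∃ h ∈ H, h i = j) ∧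
    (∀ i ∈ S, ∀ j ∈ S, ∃ m : ℕ, (c ^ m) i = j) ∧
    (e = 1 → ∀ m : ℕ, c ^ m * x = x * c ^ m → (p - 1) / 2 ∣ m)

/-- the group theory for alternating groups -/
def ANgrp : Prop := ∀ (p : ℕ) [Fact p.Prime] (n : ℕ), p ≠ 2 → p + 2 ≤ n →
  ∀ Z : Equiv.Perm (Fin n) → Equiv.Perm (Fin n) → Subgroup (Equiv.Perm (Fin n)) → Prop,
  ZAx p n Z → ∀ x c : Equiv.Perm (Fin n), x.IsCycle → x.support.card = p →
  c ∈ alternatingGroup (Fin n) → ¬ p ∣ orderOf c → (∃ a : ℕ, c * x * c⁻¹ = x ^ a) →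
  Z x c (alternatingGroup (Fin n))

/-- the axioms for the covers -/
def ANax : Prop := ∀ (k : Type) [Field k] [IsAlgClosed k] (p : ℕ) [Fact p.Prime] [CharP k p]
  (n : ℕ), p ≠ 2 → ZAx p n (fun x c H => orderOf x = p ∧ ¬ p ∣ orderOf c ∧
    (∃ a : ℕ, c * x * c⁻¹ = x ^ a) ∧ Rz k (Subgroup.zpowers x) c H)

/-- ALTERNATING GROUPS, `p` odd: the group `G₁` contains a `p`-cycle `x` and the tame generator `c`
normalises `⟨x⟩` -/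
def ANmain : Prop := ∀ (k : Type) [Field k] [IsAlgClosed k] (p : ℕ) [Fact p.Prime] [CharP k p]
  (n : ℕ), p ≠ 2 → p + 2 ≤ n → ∀ (P : Subgroup (alternatingGroup (Fin n)))
  (x c : alternatingGroup (Fin n)), Nz p P c → x ∈ P →
  (x : Equiv.Perm (Fin n)).IsCycle → (x : Equiv.Perm (Fin n)).support.card = p →
  (∃ a : ℕ, c * x * c⁻¹ = x ^ a) → Rel k (alternatingGroup (Fin n)) (P ⊔ Subgroup.zpowers c)

/-- if `n < 2 p` the condition holds for all inertia groups -/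
def ANred : Prop := ∀ (p : ℕ) [Fact p.Prime] (n : ℕ), p ≠ 2 → n < 2 * p →
  ∀ (G₁ G₀ : Subgroup (alternatingGroup (Fin n))), G₁ ≠ ⊥ → SVF.Hyp p G₁ G₀ →
  ∃ x c : alternatingGroup (Fin n), Nz p G₁ c ∧ G₀ = G₁ ⊔ Subgroup.zpowers c ∧ x ∈ G₁ ∧
    (x : Equiv.Perm (Fin n)).IsCycle ∧ (x : Equiv.Perm (Fin n)).support.card = p ∧
    ∃ a : ℕ, c * x * c⁻¹ = x ^ a

end MP7b0bad.MT
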