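import Pool.Agent.Work.MP_7b0bad_ag.MT.GStmts

set_option autoImplicit false

/-!
# Groups generated by rank one groups in the defining characteristic: statements
-/

namespace MP7b0bad.MT

open Polynomial Matrix

/-- upper triangular matrices in `SL_2(F)` -/
def Bor2 (F : Type) [Field F] : Subgroup (SpecialLinearGroup (Fin 2) F) where
  carrier := {M | M.1 1 0 = 0}
  one_mem' := by
    show (1 : Matrix (Fin 2) (Fin 2) F) 1 0 = 0
    simp
  mul_mem' := by
    intro a b ha hb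
    have ha' : a.1 1 0 = 0 := ha
    have hb' : b.1 1 0 = 0 := hb
    show (a.1 * b.1) 1 0 = 0
    rw [Matrix.mul_apply, Fin.sum_univ_two, ha', hb']
    ring
  inv_mem' := by
    intro a ha
    have ha' : a.1 1 0 = 0 := ha
    show (Matrix.adjugate a.1) 1 0 = 0
    rw [Matrix.adjugate_fin_two]
    simp [ha']

/-- `diag(s, s⁻¹)` -/
def h2 {F : Type} [Field F] (s : Fˣ) : SpecialLinearGroup (Fin 2) F :=
  ⟨!![(s : F), 0; 0, ((s⁻¹ : Fˣ) : F)], by simp [Matrix.det_fin_two]⟩

/-- upper unitriangular matrices `[1, b; 0, 1]` -/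
def u2 {F : Type} [Field F] (b : F) : SpecialLinearGroup (Fin 2) F :=
  ⟨!![1, b; 0, 1], by simp [Matrix.det_fin_two]⟩

/-- THE COVER of the additive polynomial `Y^(q^2) + x Y^q + Y`, `q = |F|`: group `SL_2(F)`, inertia
group at infinity the Borel subgroup -/
def AdMain : Prop := ∀ (p : ℕ) [Fact p.Prime] (k : Type) [Field k] [IsAlgClosed k] [CharP k p]
  (F : Type) [Field F] [Finite F] [CharP F p], Rel k (SpecialLinearGroup (Fin 2) F) (Bor2 F)

/-- groups generated by a `p`-group and images of groups `SL_2(F_i)` -/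
def MLie : Prop := ∀ (k : Type) [Field k] [IsAlgClosed k] (p : ℕ) [Fact p.Prime] [CharP k p]
  (G : Type) [Group G] [Finite G] (P : Subgroup G) (r : ℕ) (F : Fin r → Type) [∀ i, Field (F i)]
  [∀ i, Finite (F i)] [∀ i, CharP (F i) p] (φ : ∀ i, SpecialLinearGroup (Fin 2) (F i) →* G),
  IsPGroup p P → (∀ i (b : F i), φ i (u2 b) ∈ P) →
  (∀ i (s : (F i)ˣ), ∀ x ∈ P, φ i (h2 s) * x * (φ i (h2 s))⁻¹ ∈ P) →
  (∀ i j (s : (F i)ˣ) (t : (F j)ˣ), Commute (φ i (h2 s)) (φ j (h2 t))) →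
  P ⊔ (⨆ i, (φ i).range) = ⊤ → ∀ s : ∀ i, (F i)ˣ,
  Rel k G (P ⊔ Subgroup.zpowers (List.ofFn fun i => φ i (h2 (s i))).prod)

/-- special linear groups in the defining characteristic: all groups `G₀` that contain a Sylow
`p`-subgroup -/
def MSLn : Prop := ∀ (k : Type) [Field k] [IsAlgClosed k] (p : ℕ) [Fact p.Prime] [CharP k p]
  (F : Type) [Field F] [Finite F] [CharP F p] (n : ℕ)
  (P : Sylow p (SpecialLinearGroup (Fin n) F)) (c : SpecialLinearGroup (Fin n) F),
  (∀ x ∈ P, c * x * c⁻¹ ∈ P) →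
  Rel k (SpecialLinearGroup (Fin n) F) ((P : Subgroup _) ⊔ Subgroup.zpowers c)

/-- `SL_2` over finite fields of characteristic 2: the full conjecture -/
def MSL2 : Prop := ∀ (k : Type) [Field k] [IsAlgClosed k] [CharP k 2] (F : Type) [Field F]
  [Finite F] [CharP F 2] (P : Subgroup (SpecialLinearGroup (Fin 2) F))
  (c : SpecialLinearGroup (Fin 2) F), Nz 2 P c → Subgroup.normalClosure (P : Set (SpecialLinearGroup (Fin 2) F)) = ⊤ →
  Rel k (SpecialLinearGroup (Fin 2) F) (P ⊔ Subgroup.zpowers c)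

end MP7b0bad.MT
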