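import Pool.Agent.Work.MP_7b0bad_ag.MT.DStmts
import Pool.Agent.Work.MP_7b0bad_ag.Bd.B12

set_option autoImplicit false

/-!
Item MCSp: specialisation of the certificates with tame and wild ramification.
-/

namespace MP7b0bad.MT

open Polynomial

theorem MCSp_lift {K R' : Type} [Field K] [CommRing R'] [Algebra R' K] (c : K[X])
    (h : ∀ z ∈ c.coeffs, ∃ z' : R', algebraMap R' K z' = z) :
    ∃ c' : R'[X], c'.map (algebraMap R' K) = c := by
  have h1 : c ∈ Polynomial.lifts (algebraMap R' K) := by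
    rw [lifts_iff_coeff_lifts]
    intro n
    by_cases hn : c.coeff n = 0
    · exact ⟨0, by rw [map_zero, hn]⟩
    · exact h _ (coeff_mem_coeffs hn)
  exact (Polynomial.mem_lifts _).1 h1

theorem prf_MCSp (hSp : MSp) : MCSp := by
  classical
  intro k _ _ p _ _ K _ _ n ζ G _ _ G₀ P c B _ _ _ d N β t η f θ F hgal hFm hFd hFθ hFirr hC
  have hpP : p.Prime := Fact.out
  have : NeZero p := ⟨hpP.ne_zero⟩
  have hfin : Finite (Multiplicative (ZMod p)) := inferInstanceAs (Finite (ZMod p))
  have hLf : Finite (P →* Multiplicative (ZMod p)) :=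
    Finite.of_injective (fun l : P →* Multiplicative (ZMod p) => (l : P → Multiplicative (ZMod p)))
      DFunLike.coe_injective
  have := Fintype.ofFinite (P →* Multiplicative (ZMod p))
  obtain ⟨s, hs⟩ := hC.sum
  have hcard : 0 < Nat.card G := Nat.card_pos
  have hf0 : ∀ l, l ≠ 1 → f l ≠ 0 := by
    intro l hl h0
    apply (hC.deg l hl).1
    rw [h0, natDegree_zero]
    exact dvd_zero p
  set w : K := ∏ l ∈ Finset.univ.filter (fun l : P →* Multiplicative (ZMod p) => l ≠ 1),
    (f l).leadingCoeff with hw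
  have hw0 : w ≠ 0 := by
    rw [hw, Finset.prod_ne_zero_iff]
    intro l hl
    rw [Finset.mem_filter] at hl
    rw [Ne, leadingCoeff_eq_zero]
    exact hf0 l hl.2
  set S : Set (ℕ × B) := {((2 * d : ℕ), β ^ 2 - algebraMap K[X] B (X ^ d) * β)} ∪
    ((fun γ : G => ((2 * d : ℕ), β * (γ • β))) '' {γ | γ ∉ G₀}) ∪
    (Set.range (fun τ : G₀ => ((d : ℕ), (τ : G) • β - β))) ∪
    {((d : ℕ), ∑ γ ∈ s, γ • β - algebraMap K[X] B (X ^ d))} ∪
    {((d * (n + 1) + 1 : ℕ), algebraMap K[X] B (X ^ N) * β *
      (t ^ n - algebraMap K[X] B (X ^ (d * n + 1))))} ∪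
    ((fun g : G₀ => ((d * (n + 1) + 1 : ℕ), β * ((g : G) • t - t) * t ^ (n - 1))) ''
      {g | g ∈ P}) ∪
    {((d * (n + 1) + 1 : ℕ), β * ((c : G) • t - algebraMap K[X] B (C (algebraMap k K ζ)) * t) *
      t ^ (n - 1))} ∪
    ((fun l : P →* Multiplicative (ZMod p) => ((d * (N + 1) : ℕ),
      β * (algebraMap K[X] B (X ^ (d * (N - p))) * η l ^ p -
      algebraMap K[X] B (X ^ (d * (N - 1))) * η l - Ev K d N (f l) t))) '' {l | l ≠ 1}) ∪
    ((fun x : (P →* Multiplicative (ZMod p)) × P => ((2 * d : ℕ),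
      β * (((x.2 : G₀) : G) • η x.1 - η x.1 -
      algebraMap K[X] B (X ^ d) * (((Multiplicative.toAdd (x.1 x.2)).val : ℕ) : B)))) ''
      {x | x.1 ≠ 1}) with hSdef
  have hSfin : S.Finite := by
    rw [hSdef]
    repeat' apply Set.Finite.union
    all_goals first
      | exact Set.finite_singleton _
      | exact Set.finite_range _
      | exact (Set.toFinite _).image _
  have := hSfin.to_subtype
  have hSs : ∀ x : S, Small K x.1.1 x.1.2 := by
    rintro ⟨x, hx⟩
    rw [hSdef] at hx
    rcases hx with (((((((hx | hx) | hx) | hx) | hx) | hx) | hx) | hx) | hx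
    · rw [Set.mem_singleton_iff] at hx
      subst hx
      exact hC.idem
    · obtain ⟨γ, hγ, rfl⟩ := hx
      exact hC.orth γ hγ
    · obtain ⟨τ, rfl⟩ := hx
      exact hC.inv τ
    · rw [Set.mem_singleton_iff] at hx
      subst hx
      exact hs
    · rw [Set.mem_singleton_iff] at hx
      subst hx
      exact hC.pow
    · obtain ⟨g, hg, rfl⟩ := hx
      exact hC.fix g hg
    · rw [Set.mem_singleton_iff] at hx
      subst hx
      exact hC.tame
    · obtain ⟨l, hl, rfl⟩ := hx
      exact hC.as l hl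
    · obtain ⟨y, hy, rfl⟩ := hx
      exact hC.act y.1 hy y.2
  obtain ⟨R', φ, C', _, _, _, incl, C'', _, _, _, q, F', hZK, hwR, hwφ, hinj, halg, hact, hZC,
    hgal'', hq1, hq2, hsm, hF', hF'm, hF'd, hF'irr⟩ := hSp k K G B hgal
      ({θ, β, t} ∪ Finset.univ.image η)
      (Finset.univ.biUnion (fun l : P →* Multiplicative (ZMod p) => (f l).coeffs)) F hFm
      (by rw [hFd]; exact hcard) hFirr w hw0 S (fun x => x.1.1) (fun x => x.1.2) hSs
  have key : ∀ (e : ℕ) (y : B), (e, y) ∈ S → ∀ z' : C', incl z' = y → Small k e (q z') := by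
    intro e y hy z' hz'
    exact hsm ⟨(e, y), hy⟩ z' hz'
  have hRK : Function.Injective (algebraMap R' K) := FaithfulSMul.algebraMap_injective R' K
  obtain ⟨θ', hθ'⟩ := hZC θ (by simp)
  obtain ⟨β', hβ'⟩ := hZC β (by simp)
  obtain ⟨t', ht'⟩ := hZC t (by simp)
  have hη1 : ∀ l, ∃ y', incl y' = η l := fun l => hZC (η l) (by simp)
  choose η' hη' using hη1
  have hlf : ∀ l, ∃ f' : (R')[X], f'.map (algebraMap R' K) = f l := fun l =>
    MCSp_lift (R' := R') (f l) fun z hz => ⟨⟨z, hZK z
      (Finset.mem_biUnion.2 ⟨l, Finset.mem_univ _, hz⟩)⟩, rfl⟩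
  choose f' hf' using hlf
  have hf'd : ∀ l, (f' l).natDegree = (f l).natDegree := fun l => by
    rw [← hf', natDegree_map_eq_of_injective hRK]
  have hf'l : ∀ l, algebraMap R' K (f' l).leadingCoeff = (f l).leadingCoeff := fun l => by
    rw [← hf', leadingCoeff_map_of_injective hRK]
  have hφl : ∀ l, l ≠ 1 → φ (f' l).leadingCoeff ≠ 0 := by
    have h1 := hwφ (∏ l ∈ Finset.univ.filter (fun l : P →* Multiplicative (ZMod p) => l ≠ 1),
      (f' l).leadingCoeff) (by
        rw [hw]
        change algebraMap R' K _ = _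
        rw [map_prod]
        exact Finset.prod_congr rfl fun l _ => hf'l l)
    rw [map_prod, Finset.prod_ne_zero_iff] at h1
    intro l hl
    exact h1 l (Finset.mem_filter.2 ⟨Finset.mem_univ _, hl⟩)
  have halgX : ∀ m : ℕ, incl (algebraMap (R')[X] C' (X ^ m)) = algebraMap K[X] B (X ^ m) := by
    intro m
    rw [halg]
    simp
  have hqX : ∀ m : ℕ, q (algebraMap (R')[X] C' (X ^ m)) = algebraMap k[X] C'' (X ^ m) := by
    intro m
    rw [hq1]
    simp
  have halgζ : incl (algebraMap (R')[X] C' (C (algebraMap k R' ζ))) =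
      algebraMap K[X] B (C (algebraMap k K ζ)) := by
    rw [halg, Polynomial.map_C, ← IsScalarTower.algebraMap_apply]
  have hqζ : q (algebraMap (R')[X] C' (C (algebraMap k R' ζ))) = algebraMap k[X] C'' (C ζ) := by
    rw [hq1, Polynomial.map_C]
    congr 2
    exact φ.commutes ζ
  have hinclEv : ∀ l, incl (∑ i ∈ Finset.range (N + 1),
      algebraMap (R')[X] C' (C ((f' l).coeff i) * X ^ (d * (N - i))) * t' ^ i) =
      Ev K d N (f l) t := by
    intro l
    rw [map_sum]
    refine Finset.sum_congr rfl fun i _ => ?_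
    rw [map_mul, map_pow, ht', halg, Polynomial.map_mul, Polynomial.map_C, Polynomial.map_pow,
      Polynomial.map_X, ← hf' l, Polynomial.coeff_map]
  have hqEv : ∀ l, q (∑ i ∈ Finset.range (N + 1),
      algebraMap (R')[X] C' (C ((f' l).coeff i) * X ^ (d * (N - i))) * t' ^ i) =
      Ev k d N ((f' l).map (φ : R' →+* k)) (q t') := by
    intro l
    rw [map_sum]
    refine Finset.sum_congr rfl fun i _ => ?_
    rw [map_mul, map_pow, hq1, Polynomial.map_mul, Polynomial.map_C, Polynomial.map_pow,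
      Polynomial.map_X, Polynomial.coeff_map]
  have hθ0 : aeval θ' F' = 0 := by
    apply hinj
    rw [map_zero, aeval_def, hom_eval₂, hθ', ← hFθ, ← hF', aeval_def, eval₂_map]
    congr 1
    ext a
    · simp [halg]
    · simp [halg]
  refine ⟨C'', inferInstance, inferInstance, inferInstance, q β', q t', fun l => q (η' l),
    fun l => (f' l).map (φ : R' →+* k), hgal'', ?_, ?_⟩
  · refine (all_QDomB k G C'' hgal'').2 (q θ') (F'.map (mapRingHom (φ : R' →+* k)))
      (hF'm.map _) ?_ ?_ hF'irr
    · rw [hF'm.natDegree_map, hF'd, hFd]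
    · have h1 := congrArg q hθ0
      rw [map_zero, aeval_def, hom_eval₂] at h1
      rw [aeval_def, eval₂_map, ← h1]
      congr 1
      ext a
      · simp [hq1]
      · simp [hq1]
  · refine ⟨?_, ?_, ?_, ⟨s, ?_⟩, ?_, ?_, ?_, ?_, ?_, ?_, hC.pN⟩
    · have h1 := key _ _ (by
        rw [hSdef]
        exact Or.inl (Or.inl (Or.inl (Or.inl (Or.inl (Or.inl (Or.inl (Or.inl rfl))))))))
        (β' ^ 2 - algebraMap (R')[X] C' (X ^ d) * β')
        (by rw [map_sub, map_mul, map_pow, hβ', halgX])
      rw [map_sub, map_mul, map_pow, hqX] at h1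
      exact h1
    · intro γ hγ
      have h1 := key _ _ (by
        rw [hSdef]
        exact Or.inl (Or.inl (Or.inl (Or.inl (Or.inl (Or.inl (Or.inl (Or.inr ⟨γ, hγ, rfl⟩))))))))
        (β' * (γ • β')) (by rw [map_mul, hact, hβ'])
      rw [map_mul, hq2] at h1
      exact h1
    · intro τ
      have h1 := key _ _ (by
        rw [hSdef]
        exact Or.inl (Or.inl (Or.inl (Or.inl (Or.inl (Or.inl (Or.inr ⟨τ, rfl⟩)))))))
        ((τ : G) • β' - β') (by rw [map_sub, hact, hβ'])
      rw [map_sub, hq2] at h1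
      exact h1
    · have h1 := key _ _ (by
        rw [hSdef]
        exact Or.inl (Or.inl (Or.inl (Or.inl (Or.inl (Or.inr rfl))))))
        (∑ γ ∈ s, γ • β' - algebraMap (R')[X] C' (X ^ d))
        (by
          rw [map_sub, map_sum, halgX]
          simp only [hact, hβ'])
      rw [map_sub, map_sum, hqX] at h1
      simp only [hq2] at h1
      exact h1
    · have h1 := key _ _ (by
        rw [hSdef]
        exact Or.inl (Or.inl (Or.inl (Or.inl (Or.inr rfl)))))
        (algebraMap (R')[X] C' (X ^ N) * β' *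
          (t' ^ n - algebraMap (R')[X] C' (X ^ (d * n + 1))))
        (by rw [map_mul, map_mul, map_sub, map_pow incl t' n, hβ', ht', halgX, halgX])
      rw [map_mul, map_mul, map_sub, map_pow q t' n, hqX, hqX] at h1
      exact h1
    · intro g hg
      have h1 := key _ _ (by
        rw [hSdef]
        exact Or.inl (Or.inl (Or.inl (Or.inr ⟨g, hg, rfl⟩))))
        (β' * ((g : G) • t' - t') * t' ^ (n - 1))
        (by rw [map_mul, map_mul, map_sub, map_pow, hact, hβ', ht'])
      rw [map_mul, map_mul, map_sub, map_pow, hq2] at h1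
      exact h1
    · have h1 := key _ _ (by
        rw [hSdef]
        exact Or.inl (Or.inl (Or.inr rfl)))
        (β' * ((c : G) • t' - algebraMap (R')[X] C' (C (algebraMap k R' ζ)) * t') * t' ^ (n - 1))
        (by rw [map_mul, map_mul, map_sub, map_pow, map_mul, hact, hβ', ht', halgζ])
      rw [map_mul, map_mul, map_sub, map_pow, map_mul, hq2, hqζ] at h1
      exact h1
    · intro l hl
      have h1 := key _ _ (by
        rw [hSdef]
        exact Or.inl (Or.inr ⟨l, hl, rfl⟩))
        (β' * (algebraMap (R')[X] C' (X ^ (d * (N - p))) * η' l ^ p -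
          algebraMap (R')[X] C' (X ^ (d * (N - 1))) * η' l - ∑ i ∈ Finset.range (N + 1),
          algebraMap (R')[X] C' (C ((f' l).coeff i) * X ^ (d * (N - i))) * t' ^ i))
        (by rw [map_mul, map_sub, map_sub, map_mul, map_mul, map_pow incl (η' l) p, hβ', hη',
          halgX, halgX, hinclEv])
      rw [map_mul, map_sub, map_sub, map_mul, map_mul, map_pow q (η' l) p, hqX, hqX, hqEv] at h1
      exact h1
    · intro l hl g
      have h1 := key _ _ (by
        rw [hSdef]
        exact Or.inr ⟨(l, g), hl, rfl⟩)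
        (β' * (((g : G₀) : G) • η' l - η' l -
          algebraMap (R')[X] C' (X ^ d) * (((Multiplicative.toAdd (l g)).val : ℕ) : C')))
        (by rw [map_mul, map_sub, map_sub, map_mul, map_natCast, hact, hβ', hη', halgX])
      rw [map_mul, map_sub, map_sub, map_mul, map_natCast, hq2, hqX] at h1
      exact h1
    · intro l hl
      have h1 : ((f' l).map (φ : R' →+* k)).natDegree = (f l).natDegree := by
        rw [← hf'd]
        exact natDegree_map_of_leadingCoeff_ne_zero _ (hφl l hl)
      rw [h1]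
      exact hC.deg l hl

end MP7b0bad.MT
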