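import Pool.Agent.Work.MP_7b0bad_ag.MT.MCRT

set_option autoImplicit false

/-!
# Item MCertT: the certificate over `K`
-/

namespace MP7b0bad.MT

open Polynomial Filter

section

variable {κ : Type} [Field κ] {D : Type} [CommRing D] [Algebra (LaurentSeries κ) D]

theorem MCertT_int (d : ℤ) (hd : 0 ≤ d) : IntL (κ := κ) (xi κ D d) := by
  refine JCR_int _ fun m hm => ?_
  exact HahnSeries.coeff_single_of_ne (by omega)

theorem MCertT_xi1 : TN (κ := κ) (xi κ D 1) := by
  refine ⟨1, fun _ => -(HahnSeries.single (1 : ℤ) (1 : κ)), one_pos, fun _ m hm => ?_, ?_⟩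
  · rw [HahnSeries.coeff_neg, HahnSeries.coeff_single_of_ne (by omega), neg_zero]
  · simp [xi]

variable {Γ : Type} [Group Γ] [Finite Γ] [MulSemiringAction Γ D]

theorem MCertT_mono (hD : GalAlg (LaurentSeries κ) Γ D) {L L' : ℕ} (h : L ≤ L') (a b : D)
    (hab : Near κ L' a b) : Near κ L a b := by
  obtain ⟨w, hw, rfl⟩ := hab
  refine ⟨xi κ D ((L' : ℤ) - L) * w, ?_, ?_⟩
  · exact ((all_QTN κ Γ D hD).1 _ _ (MCertT_int _ (by omega)) hw).2.1
  · rw [← mul_assoc, ← MCRT_xi_add, add_sub_cancel]

/-- the neighbourhoods of a family -/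
def MCertT_S (κ : Type) [Field κ] {D : Type} [CommRing D] [Algebra (LaurentSeries κ) D]
    {I : Type} (z : I → D) (L : ℕ) : Set (I → D) := {z' | ∀ i, Near κ L (z i) (z' i)}

/-- the filter of the neighbourhoods -/
def MCertT_F (κ : Type) [Field κ] {D : Type} [CommRing D] [Algebra (LaurentSeries κ) D]
    {I : Type} (z : I → D) : Filter (I → D) := ⨅ L, 𝓟 (MCertT_S κ z L)

theorem MCertT_basis (hD : GalAlg (LaurentSeries κ) Γ D) {I : Type} (z : I → D) :
    (MCertT_F κ z).HasBasis (fun _ => True) (MCertT_S κ z) := by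
  refine Filter.hasBasis_iInf_principal ?_
  intro a b
  refine ⟨max a b, fun z' hz' i => ?_, fun z' hz' i => ?_⟩
  · exact MCertT_mono hD (le_max_left a b) _ _ (hz' i)
  · exact MCertT_mono hD (le_max_right a b) _ _ (hz' i)

theorem MCertT_ev (hD : GalAlg (LaurentSeries κ) Γ D) {I : Type} (z : I → D)
    (Φ : (I → D) → D) (hΦ : Ct κ z Φ) (h0 : Φ z = 0) (N : ℕ) :
    ∀ᶠ z' in MCertT_F κ z, TN (κ := κ) (xi κ D (-(N : ℤ)) * Φ z') := by
  obtain ⟨L, hL⟩ := hΦ (N + 1)
  refine (MCertT_basis hD z).eventually_iff.2 ⟨L, trivial, fun z' hz' => ?_⟩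
  obtain ⟨w, hw, hw'⟩ := hL z' hz'
  rw [hw', h0, zero_add, ← mul_assoc, ← MCRT_xi_add]
  have h1 : -(N : ℤ) + ((N + 1 : ℕ) : ℤ) = 1 := by
    push_cast
    ring
  rw [h1]
  exact (all_QTN κ Γ D hD).2.2.1 _ _ MCertT_xi1 hw

theorem MCertT_ev0 (hD : GalAlg (LaurentSeries κ) Γ D) {I : Type} (z : I → D)
    (Φ : (I → D) → D) (hΦ : Ct κ z Φ) (h0 : Φ z = 0) :
    ∀ᶠ z' in MCertT_F κ z, TN (κ := κ) (Φ z') := by
  have h := MCertT_ev hD z Φ hΦ h0 0
  have h1 : xi κ D (-((0 : ℕ) : ℤ)) = 1 := by
    rw [Nat.cast_zero, neg_zero, MCRT_xi_zero]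
  simpa only [h1, one_mul] using h

end

theorem prf_MCertT (hCont : TCont) (hAppr : TAppr) : MCertT := by
  intro K _ p _ _ n ζ G _ _ G₀ P c B E _ _ _ _ _ _ ι τ hn hB hE hι hιe hT
  classical
  obtain ⟨D, _, _, _, q, hD, hq, hqe, hu, hgen⟩ :=
    all_QBC K[X] (LaurentSeries K) (atInf K) G B hB
  obtain ⟨π, hπq, hπa⟩ := hu E ι (algebraMap (LaurentSeries K) E) hι
  have hπe : ∀ (g : G₀) (z : D), π ((g : G) • z) = g • π z := by
    intro g z
    obtain ⟨r, a, b, hz⟩ := hgen z
    rw [hz, Finset.smul_sum, map_sum, map_sum, Finset.smul_sum]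
    refine Finset.sum_congr rfl fun m _ => ?_
    rw [smul_mul', hD.comm, ← hqe, map_mul, map_mul, hπa, hπq, hπq, smul_mul', hιe, hE.comm]
  have hπxi : ∀ m : ℤ, π (xi K D m) = xi K E m := fun m => hπa _
  have hsurj : Function.Surjective π := JCR_surj G₀.subtype G₀.subtype_injective hD hE π hπa hπe
  obtain ⟨e, he1, he2, he3, ⟨σ, he4⟩, he5, he6⟩ :=
    all_JIdK (LaurentSeries K) G G₀ G₀.subtype D E π G₀.subtype_injective hD hE hπa hπe
  have he2' : ∀ g : G₀, (g : G) • e = e := he2
  have he3' : ∀ γ : G, γ ∉ G₀ → e * (γ • e) = 0 := by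
    intro γ hγ
    refine he3 γ ?_
    rwa [Subgroup.range_subtype]
  obtain ⟨τ', hτ'⟩ := hsurj τ
  -- the Artin-Schreier data
  have hAS : ∀ l : P →* Multiplicative (ZMod p), ∃ (y : D) (f : K[X]), l ≠ 1 →
      (∀ g : P, (g : G₀) • π y = π y + (((Multiplicative.toAdd (l g)).val : ℕ) : E)) ∧
      π y ^ p - π y = f.eval₂ ((algebraMap (LaurentSeries K) E).comp
        (HahnSeries.C : K →+* LaurentSeries K)) τ ∧ ¬ p ∣ f.natDegree := by
    intro l
    by_cases hl : l = 1
    · exact ⟨0, 0, fun h => absurd hl h⟩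
    · obtain ⟨y, f, h1, h2, h3⟩ := hT.as l hl
      obtain ⟨y', rfl⟩ := hsurj y
      exact ⟨y', f, fun _ => ⟨h1, h2, h3⟩⟩
  choose y f hyf using hAS
  have hfin : Finite (P →* Multiplicative (ZMod p)) := by
    have : Finite (Multiplicative (ZMod p)) := Finite.of_equiv (ZMod p) Multiplicative.ofAdd
    exact Finite.of_injective (fun l : P →* Multiplicative (ZMod p) => (l : P → Multiplicative
      (ZMod p))) DFunLike.coe_injective
  have := Fintype.ofFinite (P →* Multiplicative (ZMod p))
  set N : ℕ := p + ∑ l, (f l).natDegree with hN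
  have hfN : ∀ l, (f l).natDegree ≤ N := by
    intro l
    have := Finset.single_le_sum (f := fun l => (f l).natDegree) (fun _ _ => Nat.zero_le _)
      (Finset.mem_univ l)
    change (f l).natDegree ≤ _ at this
    omega
  -- the family
  let I : Type := Option (Option (P →* Multiplicative (ZMod p)))
  let z : I → D := fun i => i.elim e fun j => j.elim τ' y
  have hz0 : z none = e := rfl
  have hz1 : z (some none) = τ' := rfl
  have hz2 : ∀ l, z (some (some l)) = y l := fun _ => rfl
  obtain ⟨cst, prj, ops, act⟩ := hCont K G D hD I z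
  have cadd : ∀ Φ Ψ : (I → D) → D, Ct K z Φ → Ct K z Ψ → Ct K z (fun u => Φ u + Ψ u) :=
    fun Φ Ψ h h' => (ops Φ Ψ h h').1
  have cmul : ∀ Φ Ψ : (I → D) → D, Ct K z Φ → Ct K z Ψ → Ct K z (fun u => Φ u * Ψ u) :=
    fun Φ Ψ h h' => (ops Φ Ψ h h').2.1
  have csub : ∀ Φ Ψ : (I → D) → D, Ct K z Φ → Ct K z Ψ → Ct K z (fun u => Φ u - Ψ u) :=
    fun Φ Ψ h h' => (ops Φ Ψ h h').2.2
  have cpow : ∀ (Φ : (I → D) → D) (m : ℕ), Ct K z Φ → Ct K z (fun u => Φ u ^ m) := by
    intro Φ m h
    induction m with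
    | zero => simpa only [pow_zero] using cst 1
    | succ m ih => simpa only [pow_succ] using cmul _ _ ih h
  have csum : ∀ {A : Type} (s : Finset A) (Φ : A → (I → D) → D), (∀ a, Ct K z (Φ a)) →
      Ct K z (fun u => ∑ a ∈ s, Φ a u) := by
    intro A s Φ h
    induction s using Finset.induction_on with
    | empty => simpa only [Finset.sum_empty] using cst 0
    | insert a s ha ih =>
      simp only [Finset.sum_insert ha]
      exact cadd _ _ (h a) ih
  -- the expressions
  let pe : (I → D) → D := fun u => u none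
  let pt : (I → D) → D := fun u => u (some none)
  let pl : (P →* Multiplicative (ZMod p)) → (I → D) → D := fun l u => u (some (some l))
  have ce : Ct K z pe := prj none
  have ct : Ct K z pt := prj (some none)
  have cl : ∀ l, Ct K z (pl l) := fun l => prj (some (some l))
  have hpe : pe z = e := rfl
  have hpt : pt z = τ' := rfl
  have hpl : ∀ l, pl l z = y l := fun _ => rfl
  have g1 := MCertT_ev0 hD z (fun u => pe u * pe u - pe u) (csub _ _ (cmul _ _ ce ce) ce)
    (by rw [hpe, he1, sub_self])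
  have g2 : ∀ᶠ u in MCertT_F K z, ∀ γ : G, γ ∉ G₀ → TN (κ := K) (pe u * (γ • pe u)) := by
    rw [Filter.eventually_all]
    intro γ
    by_cases hγ : γ ∈ G₀
    · exact Filter.Eventually.of_forall fun u h => absurd hγ h
    · refine (MCertT_ev0 hD z (fun u => pe u * (γ • pe u)) (cmul _ _ ce (act _ γ ce))
        (by rw [hpe, he3' γ hγ])).mono fun u hu _ => hu
  have g3 : ∀ᶠ u in MCertT_F K z, ∀ g : G₀, TN (κ := K) ((g : G) • pe u - pe u) := by
    rw [Filter.eventually_all]
    intro g
    exact MCertT_ev0 hD z (fun u => (g : G) • pe u - pe u) (csub _ _ (act _ _ ce) ce)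
      (by rw [hpe, he2', sub_self])
  have g4 := MCertT_ev0 hD z (fun u => (∑ γ ∈ σ, γ • pe u) - 1)
    (csub _ _ (csum σ (fun γ u => γ • pe u) fun γ => act _ γ ce) (cst 1))
    (by rw [hpe, he4, sub_self])
  have g5 := MCertT_ev hD z (fun u => pe u * (pt u ^ n * xi K D 1 - 1))
    (cmul _ _ ce (csub _ _ (cmul _ _ (cpow _ n ct) (cst _)) (cst 1)))
    (by
      rw [hpe, hpt]
      apply he6
      rw [map_sub, map_mul, map_pow, hτ', hπxi, map_one]
      have h1 : τ ^ n * xi K E 1 = 1 := hT.pow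
      rw [h1, sub_self]) N
  have g6 : ∀ᶠ u in MCertT_F K z, ∀ g : G₀, g ∈ P →
      TN (κ := K) (pe u * ((g : G) • pt u - pt u) * pt u ^ (n - 1) * xi K D 1) := by
    rw [Filter.eventually_all]
    intro g
    by_cases hg : g ∈ P
    · refine (MCertT_ev0 hD z
        (fun u => pe u * ((g : G) • pt u - pt u) * pt u ^ (n - 1) * xi K D 1)
        (cmul _ _ (cmul _ _ (cmul _ _ ce (csub _ _ (act _ _ ct) ct)) (cpow _ _ ct)) (cst _))
        ?_).mono fun u hu _ => hu
      have h1 : e * ((g : G) • τ' - τ') = 0 := by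
        apply he6
        rw [map_sub, hπe, hτ', hT.fix g hg, sub_self]
      rw [hpe, hpt, h1, zero_mul, zero_mul]
    · exact Filter.Eventually.of_forall fun u h => absurd h hg
  have g7 := MCertT_ev0 hD z (fun u => pe u * ((c : G) • pt u -
      algebraMap (LaurentSeries K) D (HahnSeries.C ζ) * pt u) * pt u ^ (n - 1) * xi K D 1)
      (cmul _ _ (cmul _ _ (cmul _ _ ce (csub _ _ (act _ _ ct) (cmul _ _ (cst _) ct)))
        (cpow _ _ ct)) (cst _))
      (by
        have h1 : e * ((c : G) • τ' - algebraMap (LaurentSeries K) D (HahnSeries.C ζ) * τ') = 0 := by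
          apply he6
          rw [map_sub, hπe, map_mul, hπa, hτ', hT.tame, sub_self]
        rw [hpe, hpt, h1, zero_mul, zero_mul])
  have g8 : ∀ᶠ u in MCertT_F K z, ∀ l, l ≠ 1 → TN (κ := K) (pe u * (pl l u ^ p - pl l u -
      ∑ i ∈ Finset.range (N + 1), algebraMap (LaurentSeries K) D (HahnSeries.C ((f l).coeff i)) *
        pt u ^ i)) := by
    rw [Filter.eventually_all]
    intro l
    by_cases hl : l = 1
    · exact Filter.Eventually.of_forall fun u h => absurd hl h
    · refine (MCertT_ev0 hD z (fun u => pe u * (pl l u ^ p - pl l u -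
        ∑ i ∈ Finset.range (N + 1), algebraMap (LaurentSeries K) D
          (HahnSeries.C ((f l).coeff i)) * pt u ^ i)) (cmul _ _ ce (csub _ _ (csub _ _
          (cpow _ _ (cl l)) (cl l)) (csum _ (fun i u => algebraMap (LaurentSeries K) D
          (HahnSeries.C ((f l).coeff i)) * pt u ^ i) fun i => cmul _ _ (cst _) (cpow _ _ ct))))
        ?_).mono fun u hu _ => hu
      rw [hpe, hpt, hpl]
      apply he6
      have h2 := (hyf l hl).2.1
      rw [map_sub, map_sub, map_pow, h2, map_sum,
        eval₂_eq_sum_range' _ (Nat.lt_succ_of_le (hfN l)), sub_eq_zero]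
      refine Finset.sum_congr rfl fun i _ => ?_
      rw [map_mul, map_pow, hπa, hτ', RingHom.comp_apply]
  have g9 : ∀ᶠ u in MCertT_F K z, ∀ l, ∀ g : P, l ≠ 1 → TN (κ := K) (pe u *
      (((g : G₀) : G) • pl l u - pl l u - (((Multiplicative.toAdd (l g)).val : ℕ) : D))) := by
    rw [Filter.eventually_all]
    intro l
    rw [Filter.eventually_all]
    intro g
    by_cases hl : l = 1
    · exact Filter.Eventually.of_forall fun u h => absurd hl h
    · refine (MCertT_ev0 hD z (fun u => pe u *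
        (((g : G₀) : G) • pl l u - pl l u - (((Multiplicative.toAdd (l g)).val : ℕ) : D)))
        (cmul _ _ ce (csub _ _ (csub _ _ (act _ _ (cl l)) (cl l)) (cst _))) ?_).mono
        fun u hu _ => hu
      rw [hpe, hpl]
      apply he6
      rw [map_sub, map_sub, hπe, (hyf l hl).1 g, map_natCast]
      ring
  have gall := ((((((((g1.and g2).and g3).and g4).and g5).and g6).and g7).and g8).and g9)
  obtain ⟨L, -, hL⟩ := (MCertT_basis hD z).eventually_iff.1 gall
  obtain ⟨d, t, ht⟩ := hAppr K G B D q hB hD hq hqe I z L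
  obtain ⟨⟨⟨⟨⟨⟨⟨⟨k1, k2⟩, k3⟩, k4⟩, k5⟩, k6⟩, k7⟩, k8⟩, k9⟩ := hL (x := fun i => xi K D (d : ℤ) * q (t i)) ht
  have hTNS : ∀ (m : ℕ) (j : B), TN (κ := K) (xi K D (m : ℤ) * q j) → Small K m j :=
    fun m j hj => all_JTNS K G B D q hB hD hq hqe m j hj
  set s : D := xi K D (d : ℤ) with hs
  set s' : D := xi K D (-(d : ℤ)) with hs'
  set x : D := xi K D 1 with hx
  set x' : D := xi K D (-1) with hx'
  have hss : s * s' = 1 := MCRT_inv K D _
  have hxx : x * x' = 1 := MCRT_inv K D _
  have hssp : ∀ m : ℕ, s ^ m * s' ^ m = 1 := fun m => by rw [← mul_pow, hss, one_pow]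
  have hqX : ∀ m : ℕ, q (algebraMap K[X] B (X ^ (d * m))) = s' ^ m := fun m => by
    rw [MCRT_q q hq, MCRT_xi_mul']
  have hqX1 : q (algebraMap K[X] B (X ^ d)) = s' := by
    have := hqX 1
    rwa [mul_one, pow_one] at this
  have hs2 : xi K D ((2 * d : ℕ) : ℤ) = s ^ 2 := by
    rw [mul_comm 2 d, MCRT_xi_mul]
  have hxi1 : xi K D ((d * (n + 1) + 1 : ℕ) : ℤ) = s ^ (n + 1) * x := by
    rw [Nat.cast_add, MCRT_xi_add, MCRT_xi_mul, Nat.cast_one]
  have hn1 : s ^ (n + 1) = s * (s * s ^ (n - 1)) := by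
    rw [← pow_succ', ← pow_succ', Nat.sub_add_cancel hn]
  have hγ : ∀ (γ : G) (b : B), γ • (s * q b) = s * q (γ • b) := by
    intro γ b
    rw [smul_mul', MCRT_xiS hD, hqe]
  have hp : 0 < p := (Fact.out : p.Prime).pos
  have hpN : p ≤ N := Nat.le_add_right _ _
  refine ⟨d, N, t none, t (some none), fun l => t (some (some l)), f, ?_, fun γ hγ' => ?_,
    fun g => ?_, ⟨σ, ?_⟩, ?_, fun g hg => ?_, ?_, fun l hl => ?_, fun l hl g => ?_,
    fun l hl => ⟨(hyf l hl).2.2, hfN l⟩, hpN⟩
  · apply hTNS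
    have e1 : xi K D ((2 * d : ℕ) : ℤ) * q (t none ^ 2 - algebraMap K[X] B (X ^ d) * t none) =
        (s * q (t none)) * (s * q (t none)) - s * q (t none) := by
      rw [hs2, map_sub, map_mul, map_pow, hqX1]
      calc s ^ 2 * (q (t none) ^ 2 - s' * q (t none)) =
            (s * q (t none)) * (s * q (t none)) - (s * s') * (s * q (t none)) := by ring
        _ = _ := by rw [hss, one_mul]
    rw [e1]
    exact k1
  · apply hTNS
    have e1 : xi K D ((2 * d : ℕ) : ℤ) * q (t none * (γ • t none)) =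
        (s * q (t none)) * (γ • (s * q (t none))) := by
      rw [hs2, map_mul, hγ]
      ring
    rw [e1]
    exact k2 γ hγ'
  · apply hTNS
    have e1 : s * q ((g : G) • t none - t none) =
        (g : G) • (s * q (t none)) - s * q (t none) := by
      rw [map_sub, hγ]
      ring
    rw [← hs, e1]
    exact k3 g
  · apply hTNS
    have e1 : s * q (∑ γ ∈ σ, γ • t none - algebraMap K[X] B (X ^ d)) =
        ∑ γ ∈ σ, γ • (s * q (t none)) - 1 := by
      rw [map_sub, map_sum, mul_sub, hqX1, hss, Finset.mul_sum]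
      congr 1
      exact Finset.sum_congr rfl fun γ _ => (hγ γ _).symm
    rw [← hs, e1]
    exact k4
  · apply hTNS
    have hX : q (algebraMap K[X] B (X ^ (d * n + 1))) = s' ^ n * x' := by
      rw [pow_add, map_mul, map_mul, hqX, MCRT_q q hq, Nat.cast_one]
    have e1 : xi K D ((d * (n + 1) + 1 : ℕ) : ℤ) * q (algebraMap K[X] B (X ^ N) * t none *
        (t (some none) ^ n - algebraMap K[X] B (X ^ (d * n + 1)))) =
        xi K D (-(N : ℤ)) * ((s * q (t none)) * ((s * q (t (some none))) ^ n * x - 1)) := by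
      rw [hxi1, map_mul, map_mul, map_sub, hX, MCRT_q q hq, map_pow]
      calc s ^ (n + 1) * x * (xi K D (-(N : ℤ)) * q (t none) *
            (q (t (some none)) ^ n - s' ^ n * x')) =
            xi K D (-(N : ℤ)) * ((s * q (t none)) * ((s ^ n * q (t (some none)) ^ n) * x -
              (s ^ n * s' ^ n) * (x * x'))) := by ring
        _ = _ := by rw [hssp, hxx, one_mul, mul_pow]
    rw [e1]
    exact k5
  · apply hTNS
    have e1 : xi K D ((d * (n + 1) + 1 : ℕ) : ℤ) * q (t none *
        ((g : G) • t (some none) - t (some none)) * t (some none) ^ (n - 1)) =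
        (s * q (t none)) * ((g : G) • (s * q (t (some none))) - s * q (t (some none))) *
          (s * q (t (some none))) ^ (n - 1) * x := by
      rw [hxi1, map_mul, map_mul, map_sub, map_pow, hγ, hn1, mul_pow]
      ring
    rw [e1]
    exact k6 g hg
  · apply hTNS
    have hCζ : q (algebraMap K[X] B (C ζ)) =
        algebraMap (LaurentSeries K) D (HahnSeries.C ζ) := by
      rw [hq, atInf, coe_eval₂RingHom, eval₂_C]
    have e1 : xi K D ((d * (n + 1) + 1 : ℕ) : ℤ) * q (t none *
        ((c : G) • t (some none) - algebraMap K[X] B (C ζ) * t (some none)) *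
          t (some none) ^ (n - 1)) =
        (s * q (t none)) * ((c : G) • (s * q (t (some none))) -
          algebraMap (LaurentSeries K) D (HahnSeries.C ζ) * (s * q (t (some none)))) *
          (s * q (t (some none))) ^ (n - 1) * x := by
      rw [hxi1, map_mul, map_mul, map_sub, map_pow, map_mul q (algebraMap K[X] B (C ζ)), hCζ, hγ,
        hn1, mul_pow]
      ring
    rw [e1]
    exact k7
  · apply hTNS
    have hEv := MCRT_Ev q hq d N (f l) (hfN l) (t (some none)) (s * q (t (some none))) rfl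
    rw [eval₂_eq_sum_range' _ (Nat.lt_succ_of_le (hfN l))] at hEv
    have e2 : s ^ N = s ^ p * s ^ (N - p) := by
      rw [← pow_add, Nat.add_sub_cancel' hpN]
    have e3 : s ^ N = s * s ^ (N - 1) := by
      rw [← pow_succ', Nat.sub_add_cancel (lt_of_lt_of_le hp hpN)]
    have e1 : xi K D ((d * (N + 1) : ℕ) : ℤ) * q (t none *
        (algebraMap K[X] B (X ^ (d * (N - p))) * t (some (some l)) ^ p -
          algebraMap K[X] B (X ^ (d * (N - 1))) * t (some (some l)) -
          Ev K d N (f l) (t (some none)))) =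
        (s * q (t none)) * ((s * q (t (some (some l)))) ^ p - s * q (t (some (some l))) -
          ∑ i ∈ Finset.range (N + 1), algebraMap (LaurentSeries K) D
            (HahnSeries.C ((f l).coeff i)) * (s * q (t (some none))) ^ i) := by
      have hEv' : s ^ N * q (Ev K d N (f l) (t (some none))) =
          ∑ i ∈ Finset.range (N + 1), algebraMap (LaurentSeries K) D
            (HahnSeries.C ((f l).coeff i)) * (s * q (t (some none))) ^ i := hEv
      rw [← hEv', MCRT_xi_mul, map_mul, map_sub, map_sub, map_mul, map_mul, hqX, hqX, map_pow]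
      calc s ^ (N + 1) * (q (t none) * (s' ^ (N - p) * q (t (some (some l))) ^ p -
            s' ^ (N - 1) * q (t (some (some l))) - q (Ev K d N (f l) (t (some none))))) =
            (s * q (t none)) * (s ^ N * s' ^ (N - p) * q (t (some (some l))) ^ p -
            s ^ N * s' ^ (N - 1) * q (t (some (some l))) -
            s ^ N * q (Ev K d N (f l) (t (some none)))) := by ring
        _ = (s * q (t none)) * (s ^ p * (s ^ (N - p) * s' ^ (N - p)) *
            q (t (some (some l))) ^ p - s * (s ^ (N - 1) * s' ^ (N - 1)) *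
            q (t (some (some l))) - s ^ N * q (Ev K d N (f l) (t (some none)))) := by
          rw [show s ^ N * s' ^ (N - p) = s ^ p * (s ^ (N - p) * s' ^ (N - p)) by rw [e2]; ring,
            show s ^ N * s' ^ (N - 1) = s * (s ^ (N - 1) * s' ^ (N - 1)) by rw [e3]; ring]
        _ = _ := by rw [hssp, hssp, mul_one, mul_one, mul_pow]
    rw [e1]
    exact k8 l hl
  · apply hTNS
    have e1 : xi K D ((2 * d : ℕ) : ℤ) * q (t none * (((g : G₀) : G) • t (some (some l)) -
        t (some (some l)) - algebraMap K[X] B (X ^ d) *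
          (((Multiplicative.toAdd (l g)).val : ℕ) : B))) =
        (s * q (t none)) * (((g : G₀) : G) • (s * q (t (some (some l)))) -
          s * q (t (some (some l))) - (((Multiplicative.toAdd (l g)).val : ℕ) : D)) := by
      rw [hs2, map_mul, map_sub, map_sub, map_mul, map_natCast, hqX1, hγ]
      calc s ^ 2 * (q (t none) * (q (((g : G₀) : G) • t (some (some l))) -
            q (t (some (some l))) - s' * (((Multiplicative.toAdd (l g)).val : ℕ) : D))) =
            (s * q (t none)) * (s * q (((g : G₀) : G) • t (some (some l))) -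
            s * q (t (some (some l))) -
            (s * s') * (((Multiplicative.toAdd (l g)).val : ℕ) : D)) := by ring
        _ = _ := by rw [hss, one_mul]
    rw [e1]
    exact k9 l g hl

end MP7b0bad.MT
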