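import Pool.Agent.Work.MP_7b0bad_ag.MT.DStmts
import Pool.Agent.Work.MP_7b0bad_ag.SV.JAll

set_option autoImplicit false

/-!
# Item MDesA: assembly of the descent theorem
-/

namespace MP7b0bad.MT

open Polynomial

theorem prf_MDesA (_hTDom : MTDom) (hGeoT : MGeoT) (hCertT : MCertT) (hCSp : MCSp)
    (hCRT : MCRT) : MDesA := by
  intro k _ _ p _ _ K _ _ n ζ G _ _ G₀ P c hPn hP hPc hord hpn hζ B E _ _ _ _ _ _ ι τ hB hBd hE
    hι hact hT
  have hch : CharP K p := charP_of_injective_algebraMap (algebraMap k K).injective p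
  have hn : 0 < n := hord ▸ orderOf_pos c
  have hζK : IsPrimitiveRoot (algebraMap k K ζ) n :=
    hζ.map_of_injective (algebraMap k K).injective
  have hgeo : GeoDom K G₀ E :=
    hGeoT K p n (algebraMap k K ζ) G₀ P c hPn hP hPc hord hpn hζK E τ hE hT
  obtain ⟨θ, F, hF1, hF2, hF3, hF4⟩ :=
    all_JGeo K G G₀ G₀.subtype B E ι hB hBd hE hgeo hι (fun g b => hact g b)
  obtain ⟨d, N, β, t, η, f, hC⟩ :=
    hCertT K p n (algebraMap k K ζ) G G₀ P c B E ι τ hn hB hE hι hact hT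
  obtain ⟨B', _, _, _, β', t', η', f', hB', hB'd, hC'⟩ :=
    hCSp k p K n ζ G G₀ P c B d N β t η f θ F hB hF1 hF2 hF3 hF4 hC
  exact hCRT k p n ζ G G₀ P c hPn hP hPc hord hpn hζ B' d N β' t' η' f' hB' hB'd hC'

end MP7b0bad.MT
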