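import Pool.Agent.Work.MP_7b0bad_ag.MT.DStmts
import Pool.Agent.Work.MP_7b0bad_ag.SV.JIdL

set_option autoImplicit false

/-!
# Roots of elements close to one

`w = ξ^(-N) (u - 1)` is topologically nilpotent, `A = κ[[ξ]][w]` is a finite module over `κ[[ξ]]`,
hence complete for `ξ A`, hence henselian.
-/

namespace MP7b0bad.MT

open Polynomial

/-- `n`-th roots in rings which are complete for an ideal -/
theorem MEx1_root {A : Type} [CommRing A] (I : Ideal A) [IsAdicComplete I A] (n : ℕ) (hn : 0 < n)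
    (hu : IsUnit (n : A)) (x : A) (hx : x ∈ I) :
    ∃ a g : A, a ^ n = 1 + x ∧ (a - 1) = x * g := by
  have hh : HenselianRing A I := IsAdicComplete.henselianRing A I
  have hev : (X ^ n - C (1 + x) : A[X]).eval 1 ∈ I := by
    have : (X ^ n - C (1 + x) : A[X]).eval 1 = -x := by
      rw [eval_sub, eval_pow, eval_X, eval_C, one_pow]
      ring
    rw [this]
    exact I.neg_mem hx
  have hder : IsUnit (Ideal.Quotient.mk I ((derivative (X ^ n - C (1 + x) : A[X])).eval 1)) := by
    have : (derivative (X ^ n - C (1 + x) : A[X])).eval 1 = (n : A) := by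
      rw [derivative_sub, derivative_X_pow, derivative_C, sub_zero, eval_mul, eval_pow, eval_X,
        one_pow, mul_one]
      simp
    rw [this]
    exact hu.map _
  obtain ⟨a, ha1, ha2⟩ := hh.is_henselian (X ^ n - C (1 + x) : A[X])
    (monic_X_pow_sub_C _ hn.ne') 1 hev hder
  have ha3 : a ^ n = 1 + x := by
    have h11 : a ^ n - (1 + x) = 0 := by
      rw [IsRoot, eval_sub, eval_pow, eval_X, eval_C] at ha1
      exact ha1
    exact sub_eq_zero.1 h11
  -- the second factor is a unit
  have hgeo : (∑ i ∈ Finset.range n, a ^ i) * (a - 1) = x := by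
    rw [geom_sum_mul, ha3]
    ring
  have hunit : IsUnit (∑ i ∈ Finset.range n, a ^ i) := by
    have h1 : (∑ i ∈ Finset.range n, a ^ i) - (n : A) ∈ I := by
      have h2 : (∑ i ∈ Finset.range n, a ^ i) - (n : A) = ∑ i ∈ Finset.range n, (a ^ i - 1) := by
        rw [Finset.sum_sub_distrib]
        simp
      rw [h2]
      refine I.sum_mem fun i _ => ?_
      exact I.mem_of_dvd (by simpa using sub_dvd_pow_sub_pow a 1 i) ha2
    have h3 := hh.jac
    obtain ⟨m, hm⟩ := hu
    have h4 : IsUnit (1 + ((m⁻¹ : Aˣ) : A) * ((∑ i ∈ Finset.range n, a ^ i) - (n : A))) := by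
      have h5 := h3 (I.mul_mem_left ((m⁻¹ : Aˣ) : A) h1)
      rw [Ideal.mem_jacobson_bot] at h5
      have h6 := h5 1
      rw [mul_one, add_comm] at h6
      exact h6
    have h7 : (∑ i ∈ Finset.range n, a ^ i) =
        (m : A) * (1 + ((m⁻¹ : Aˣ) : A) * ((∑ i ∈ Finset.range n, a ^ i) - (n : A))) := by
      rw [mul_add, mul_one, ← mul_assoc, Units.mul_inv, one_mul, hm]
      ring
    rw [h7]
    exact m.isUnit.mul h4
  obtain ⟨g, hg⟩ := hunit
  refine ⟨a, ((g⁻¹ : Aˣ) : A), ha3, ?_⟩
  rw [← hgeo, ← hg, mul_right_comm, Units.mul_inv, one_mul]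

theorem prf_MEx1 : MEx1 := by
  intro κ _ Γ _ _ D _ _ _ hD n N u hn hnκ hN hw
  obtain ⟨t1, t2, t3, t4, t5, t6, t7, t8, t9⟩ := all_QTN κ Γ D hD
  set w : D := xi κ D (-(N : ℤ)) * (u - 1) with hwdef
  have hwi : (QTN_f κ D).IsIntegralElem w := QTN_tn_int w hw
  let _ : Algebra (PowerSeries κ) D := (QTN_f κ D).toAlgebra
  have hwi' : IsIntegral (PowerSeries κ) w := hwi
  have : Module.Finite (PowerSeries κ) (Algebra.adjoin (PowerSeries κ) {w}) :=
    Algebra.finite_adjoin_simple_of_isIntegral hwi'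
  have h1 : IsPrecomplete (Ideal.span {(PowerSeries.X : PowerSeries κ)})
      (Algebra.adjoin (PowerSeries κ) {w}) := JIdL_prec _
  have h2 : IsHausdorff (Ideal.span {(PowerSeries.X : PowerSeries κ)})
      (Algebra.adjoin (PowerSeries κ) {w}) := by
    refine IsHausdorff.of_isLocalRing _ _ ?_
    rw [Ne, Ideal.span_singleton_eq_top]
    exact PowerSeries.X_irreducible.not_isUnit
  have h3 : IsAdicComplete (Ideal.span {(PowerSeries.X : PowerSeries κ)})
      (Algebra.adjoin (PowerSeries κ) {w}) := { h1, h2 with }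
  set A := Algebra.adjoin (PowerSeries κ) {w} with hA
  set I : Ideal A := (Ideal.span {(PowerSeries.X : PowerSeries κ)}).map
    (algebraMap (PowerSeries κ) A) with hI
  have h4 : IsAdicComplete I A := (IsAdicComplete.map_algebraMap_iff _ _).mpr h3
  have hint : ∀ a : A, IntL (κ := κ) (a : D) := by
    intro a
    rw [QTN_intL]
    have h5 : IsIntegral (PowerSeries κ) a := Algebra.IsIntegral.isIntegral a
    exact h5.map A.val
  let w' : A := ⟨w, Algebra.self_mem_adjoin_singleton _ _⟩
  set x : A := algebraMap (PowerSeries κ) A ((PowerSeries.X : PowerSeries κ) ^ N) * w' with hx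
  have hxI : x ∈ I := by
    refine I.mul_mem_right _ ?_
    rw [hI]
    refine Ideal.mem_map_of_mem _ ?_
    rw [Ideal.mem_span_singleton]
    exact dvd_pow_self _ hN.ne'
  have hunit : IsUnit ((n : ℕ) : A) := by
    have h5 : IsUnit ((n : ℕ) : κ) := isUnit_iff_ne_zero.2 hnκ
    have h6 := (h5.map (PowerSeries.C : κ →+* PowerSeries κ)).map (algebraMap (PowerSeries κ) A)
    rwa [map_natCast, map_natCast] at h6
  obtain ⟨a, g, ha, hg⟩ := MEx1_root I n hn hunit x hxI
  have hX : ((algebraMap (PowerSeries κ) A ((PowerSeries.X : PowerSeries κ) ^ N) : A) : D) =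
      xi κ D (N : ℤ) := by
    show QTN_f κ D ((PowerSeries.X : PowerSeries κ) ^ N) = _
    rw [QTN_f, RingHom.comp_apply, map_pow, HahnSeries.ofPowerSeries_X, HahnSeries.single_pow,
      one_pow, xi]
    congr 2
    simp
  have hxi : xi κ D (N : ℤ) * xi κ D (-(N : ℤ)) = 1 := by
    rw [xi, xi, ← map_mul, HahnSeries.single_mul_single]
    simp
  have hxD : (x : D) = u - 1 := by
    show ((algebraMap (PowerSeries κ) A ((PowerSeries.X : PowerSeries κ) ^ N) : A) : D) * w = _
    rw [hX, hwdef, ← mul_assoc, hxi, one_mul]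
  refine ⟨(a : D), ?_, ?_⟩
  · have h5 := congrArg (Subtype.val : A → D) ha
    have h6 : (a : D) ^ n = 1 + (x : D) := h5
    rw [h6, hxD]
    ring
  · have h5 : (a : D) - 1 = (x : D) * (g : D) := congrArg (Subtype.val : A → D) hg
    rw [h5, hxD, ← mul_assoc, ← hwdef]
    exact t3 _ _ hw (hint g)

end MP7b0bad.MT
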