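import Pool.Agent.Work.MP_7b0bad_ag.MT.DStmts
import Pool.Agent.Work.MP_7b0bad_ag.SV.JIdL

set_option autoImplicit false

/-!
# Item MEx2: Artin-Schreier equations with topologically nilpotent right hand side
-/

namespace MP7b0bad.MT

open Polynomial

/-- Hensel for `X ^ p - X - h₁` -/
theorem MEx2_hensel {A : Type} [CommRing A] (I : Ideal A) [IsAdicComplete I A] (p : ℕ)
    (hp : 2 ≤ p) (h₁ : A) (hh : h₁ ∈ I) : ∃ a : A, a ∈ I ∧ a ^ p - a = h₁ := by
  have hmon : (X ^ p - X - C h₁ : A[X]).Monic := by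
    have h1 : (X ^ p - X - C h₁ : A[X]) = X ^ p - (X + C h₁) := by ring
    rw [h1]
    rcases subsingleton_or_nontrivial A with hA | hA
    · exact Subsingleton.elim _ _
    · apply monic_X_pow_sub
      rw [degree_X_add_C]
      exact_mod_cast hp
  have hev : (X ^ p - X - C h₁ : A[X]).eval 0 ∈ I := by
    have : (X ^ p - X - C h₁ : A[X]).eval 0 = -h₁ := by
      simp [show p ≠ 0 by omega]
    rw [this]
    exact I.neg_mem hh
  have hder : IsUnit (Ideal.Quotient.mk I ((derivative (X ^ p - X - C h₁ : A[X])).eval 0)) := by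
    have h9 : (derivative (X ^ p - X - C h₁ : A[X])).eval 0 = -1 := by
      simp [derivative_X_pow, show p - 1 ≠ 0 by omega]
    rw [h9, map_neg, map_one]
    exact isUnit_one.neg
  have hH : HenselianRing A I := IsAdicComplete.henselianRing A I
  obtain ⟨a, ha1, ha2⟩ := hH.is_henselian _ hmon 0 hev hder
  refine ⟨a, by simpa using ha2, ?_⟩
  have h11 : a ^ p - a - h₁ = 0 := by simpa [IsRoot] using ha1
  exact sub_eq_zero.1 h11

theorem prf_MEx2 : MEx2 := by
  intro κ _ p _ _ Γ _ _ D _ _ _ hD b hb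
  obtain ⟨t1, t2, t3, t4, t5, t6, t7, t8, t9⟩ := all_QTN κ Γ D hD
  rcases subsingleton_or_nontrivial D with hDs | hDn
  · exact ⟨b, hb, Subsingleton.elim _ _⟩
  have hp : p.Prime := Fact.out
  have hchar : CharP D p := by
    have : Function.Injective ((algebraMap (LaurentSeries κ) D).comp
      (HahnSeries.C : κ →+* LaurentSeries κ)) := RingHom.injective _
    exact charP_of_injective_ringHom this p
  have hbi : (QTN_f κ D).IsIntegralElem b := (QTN_intL b).1 (t4 b hb)
  let _ : Algebra (PowerSeries κ) D := (QTN_f κ D).toAlgebra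
  have hbi' : IsIntegral (PowerSeries κ) b := hbi
  have : Module.Finite (PowerSeries κ) (Algebra.adjoin (PowerSeries κ) {b}) :=
    Algebra.finite_adjoin_simple_of_isIntegral hbi'
  have h1 : IsPrecomplete (Ideal.span {(PowerSeries.X : PowerSeries κ)})
      (Algebra.adjoin (PowerSeries κ) {b}) := JIdL_prec _
  have h2 : IsHausdorff (Ideal.span {(PowerSeries.X : PowerSeries κ)})
      (Algebra.adjoin (PowerSeries κ) {b}) := by
    refine IsHausdorff.of_isLocalRing _ _ ?_
    rw [Ne, Ideal.span_singleton_eq_top]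
    exact PowerSeries.X_irreducible.not_isUnit
  have h3 : IsAdicComplete (Ideal.span {(PowerSeries.X : PowerSeries κ)})
      (Algebra.adjoin (PowerSeries κ) {b}) := { h1, h2 with }
  set A := Algebra.adjoin (PowerSeries κ) {b} with hA
  set I : Ideal A := (Ideal.span {(PowerSeries.X : PowerSeries κ)}).map
    (algebraMap (PowerSeries κ) A) with hI
  have h4 : IsAdicComplete I A := (IsAdicComplete.map_algebraMap_iff _ _).mpr h3
  have hint : ∀ a : A, IntL (κ := κ) (a : D) := by
    intro a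
    rw [QTN_intL]
    have h5 : IsIntegral (PowerSeries κ) a := Algebra.IsIntegral.isIntegral a
    exact h5.map A.val
  have hmemI : ∀ a : A, a ∈ I ↔ ∃ c : A, algebraMap (PowerSeries κ) A PowerSeries.X * c = a := by
    intro a
    rw [hI, Ideal.map_span, Set.image_singleton, Ideal.mem_span_singleton']
    constructor
    · rintro ⟨c, hc⟩
      exact ⟨c, by rw [← hc, mul_comm]⟩
    · rintro ⟨c, hc⟩
      exact ⟨c, by rw [← hc, mul_comm]⟩
  have hX : ((algebraMap (PowerSeries κ) A PowerSeries.X : A) : D) =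
      algebraMap (LaurentSeries κ) D (HahnSeries.single (1 : ℤ) (1 : κ)) := by
    show QTN_f κ D PowerSeries.X = _
    rw [QTN_f, RingHom.comp_apply, HahnSeries.ofPowerSeries_X]
  have hITN : ∀ a : A, a ∈ I → TN (κ := κ) (a : D) := by
    intro a ha
    obtain ⟨c, hc⟩ := (hmemI a).1 ha
    refine QIdS_J_TN _ ⟨(c : D), (QTN_intL _).1 (hint c), ?_⟩
    rw [← hX, ← hc]
    rfl
  let b' : A := ⟨b, Algebra.self_mem_adjoin_singleton _ _⟩
  have htn : ∃ n : ℕ, b' ^ n ∈ I := by
    have hb1 := hb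
    rw [QTN_Q1, QTN_QR] at hb1
    obtain ⟨q, hp1, hp2, hp3, hp4⟩ := hb1
    refine ⟨q.natDegree, ?_⟩
    have hp5 : aeval b' q = 0 := by
      have h6 : A.val (aeval b' q) = 0 := by
        rw [← aeval_algHom_apply]
        exact hp4
      exact Subtype.ext h6
    rw [aeval_eq_sum_range, Finset.sum_range_succ] at hp5
    have h7 : q.coeff q.natDegree = 1 := hp1
    rw [h7, one_smul] at hp5
    have h8 : b' ^ q.natDegree = -∑ i ∈ Finset.range q.natDegree, q.coeff i • b' ^ i := by
      rw [eq_neg_iff_add_eq_zero, add_comm]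
      exact hp5
    rw [h8]
    refine I.neg_mem (I.sum_mem fun i hi => ?_)
    obtain ⟨u, hu⟩ := hp3 i (Finset.mem_range.1 hi)
    rw [hmemI, hu, pow_one, Algebra.smul_def, map_mul]
    exact ⟨algebraMap _ _ u * b' ^ i, by ring⟩
  obtain ⟨n, hn⟩ := htn
  have hn2 : b' ^ (p ^ n) ∈ I := by
    have h5 : n ≤ p ^ n := (Nat.lt_pow_self hp.one_lt).le
    obtain ⟨e, he⟩ := Nat.exists_eq_add_of_le h5
    rw [he, pow_add]
    exact I.mul_mem_right _ hn
  obtain ⟨a, haI, ha⟩ := MEx2_hensel I p hp.two_le _ hn2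
  set c : A := -∑ j ∈ Finset.range n, b' ^ (p ^ j - 1) with hc
  have hbc : b * (c : D) = -∑ j ∈ Finset.range n, b ^ (p ^ j) := by
    rw [hc]
    push_cast
    rw [mul_neg, Finset.mul_sum]
    congr 1
    refine Finset.sum_congr rfl fun j _ => ?_
    show b * b ^ (p ^ j - 1) = b ^ (p ^ j)
    rw [← pow_succ', Nat.sub_add_cancel (Nat.one_le_pow _ _ hp.pos)]
  refine ⟨(a : D) + b * (c : D), t2 _ _ (hITN _ haI) (t3 _ _ hb (hint c)), ?_⟩
  have haD : (a : D) ^ p - (a : D) = b ^ (p ^ n) := congrArg (Subtype.val : A → D) ha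
  rw [hbc, ← sub_eq_add_neg, sub_pow_char, sum_pow_char]
  have hs : ∑ j ∈ Finset.range n, (b ^ (p ^ j)) ^ p = ∑ j ∈ Finset.range n, b ^ (p ^ j) +
      b ^ (p ^ n) - b := by
    have h6 : ∀ j, (b ^ (p ^ j)) ^ p = b ^ (p ^ (j + 1)) := by
      intro j
      rw [← pow_mul, ← pow_succ]
    simp only [h6]
    have h7 := Finset.sum_range_succ' (fun j => b ^ (p ^ j)) n
    have h8 := Finset.sum_range_succ (fun j => b ^ (p ^ j)) n
    simp only [pow_zero, pow_one] at h7
    rw [h8] at h7
    rw [eq_sub_iff_add_eq, ← h7]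
  rw [hs]
  have : (a : D) ^ p = (a : D) + b ^ (p ^ n) := by rw [← haD]; ring
  rw [this]
  ring

end MP7b0bad.MT
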