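import Pool.Agent.Work.MP_7b0bad_ag.MT.DStmts
import Pool.Agent.Work.MP_7b0bad_ag.SV.JIdL

set_option autoImplicit false

/-!
# Integral elements: roots and inverses

`z` is integral over `κ[[ξ]]`, the subring `A` generated by `z` is a finite module over `κ[[ξ]]`,
hence complete for `ξ A`, and `z` is nilpotent modulo `ξ A` if `z` is topologically nilpotent.
-/

namespace MP7b0bad.MT

open Polynomial

/-- one minus an element which is nilpotent modulo an ideal for which the ring is complete -/
theorem MEx3_unit {A : Type} [CommRing A] (I : Ideal A) [IsAdicComplete I A] (b : A) (n : ℕ)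
    (hn : b ^ n ∈ I) : ∃ u : A, (1 - b) * u = 1 := by
  have hh : HenselianRing A I := IsAdicComplete.henselianRing A I
  have h5 := hh.jac hn
  rw [Ideal.mem_jacobson_bot] at h5
  have h6 := h5 (-1)
  have h7 : b ^ n * (-1) + 1 = 1 - b ^ n := by ring
  rw [h7] at h6
  obtain ⟨c, hc⟩ := one_sub_dvd_one_sub_pow b n
  rw [hc] at h6
  obtain ⟨u, hu⟩ := (isUnit_of_mul_isUnit_left h6).exists_right_inv
  exact ⟨u, hu⟩

theorem prf_MEx3 : MEx3 := by
  intro κ _ Γ _ _ D _ _ _ hD
  refine ⟨fun z n hn hz => ?_, fun z hz => ?_⟩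
  · rw [QTN_intL] at hz ⊢
    let _ : Algebra (PowerSeries κ) D := (QTN_f κ D).toAlgebra
    have hz' : IsIntegral (PowerSeries κ) (z ^ n) := hz
    exact hz'.of_pow hn
  · have hzi : (QTN_f κ D).IsIntegralElem z := QTN_tn_int z hz
    let _ : Algebra (PowerSeries κ) D := (QTN_f κ D).toAlgebra
    have hzi' : IsIntegral (PowerSeries κ) z := hzi
    have : Module.Finite (PowerSeries κ) (Algebra.adjoin (PowerSeries κ) {z}) :=
      Algebra.finite_adjoin_simple_of_isIntegral hzi'
    have h1 : IsPrecomplete (Ideal.span {(PowerSeries.X : PowerSeries κ)})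
        (Algebra.adjoin (PowerSeries κ) {z}) := JIdL_prec _
    have h2 : IsHausdorff (Ideal.span {(PowerSeries.X : PowerSeries κ)})
        (Algebra.adjoin (PowerSeries κ) {z}) := by
      refine IsHausdorff.of_isLocalRing _ _ ?_
      rw [Ne, Ideal.span_singleton_eq_top]
      exact PowerSeries.X_irreducible.not_isUnit
    have h3 : IsAdicComplete (Ideal.span {(PowerSeries.X : PowerSeries κ)})
        (Algebra.adjoin (PowerSeries κ) {z}) := { h1, h2 with }
    set A := Algebra.adjoin (PowerSeries κ) {z} with hA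
    set I : Ideal A := (Ideal.span {(PowerSeries.X : PowerSeries κ)}).map
      (algebraMap (PowerSeries κ) A) with hI
    have h4 : IsAdicComplete I A := (IsAdicComplete.map_algebraMap_iff _ _).mpr h3
    have hint : ∀ a : A, IntL (κ := κ) (a : D) := by
      intro a
      rw [QTN_intL]
      have h5 : IsIntegral (PowerSeries κ) a := Algebra.IsIntegral.isIntegral a
      exact h5.map A.val
    have hmemI : ∀ a : A, (∃ c : A, algebraMap (PowerSeries κ) A PowerSeries.X * c = a) → a ∈ I := by
      rintro a ⟨c, hc⟩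
      rw [hI, Ideal.map_span, Set.image_singleton, Ideal.mem_span_singleton']
      exact ⟨c, by rw [← hc, mul_comm]⟩
    let z' : A := ⟨z, Algebra.self_mem_adjoin_singleton _ _⟩
    have htn : ∃ n : ℕ, z' ^ n ∈ I := by
      have hb1 := hz
      rw [QTN_Q1, QTN_QR] at hb1
      obtain ⟨p, hp1, hp2, hp3, hp4⟩ := hb1
      refine ⟨p.natDegree, ?_⟩
      have hp5 : aeval z' p = 0 := by
        have h6 : A.val (aeval z' p) = 0 := by
          rw [← aeval_algHom_apply]
          exact hp4
        exact Subtype.ext h6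
      rw [aeval_eq_sum_range, Finset.sum_range_succ] at hp5
      have h7 : p.coeff p.natDegree = 1 := hp1
      rw [h7, one_smul] at hp5
      have h8 : z' ^ p.natDegree =
          -∑ i ∈ Finset.range p.natDegree, p.coeff i • z' ^ i := by
        rw [eq_neg_iff_add_eq_zero, add_comm]
        exact hp5
      rw [h8]
      refine I.neg_mem (I.sum_mem fun i hi => ?_)
      obtain ⟨u, hu⟩ := hp3 i (Finset.mem_range.1 hi)
      refine hmemI _ ?_
      rw [hu, pow_one, Algebra.smul_def, map_mul]
      exact ⟨algebraMap _ _ u * z' ^ i, by ring⟩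
    obtain ⟨n, hn⟩ := htn
    obtain ⟨u, hu⟩ := MEx3_unit I z' n hn
    exact ⟨(u : D), hint u, congrArg (Subtype.val : A → D) hu⟩

end MP7b0bad.MT
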