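import Pool.Agent.Work.MP_7b0bad_ag.MT.DStmts
import Pool.Agent.Work.MP_7b0bad_ag.Bd.B12

set_option autoImplicit false

/-! Item MExact: from approximate to exact data. -/

namespace MP7b0bad.MT

open Polynomial

/-- rules for integral and topologically nilpotent elements -/
structure MExact_P {E : Type} [CommRing E] (I T : E → Prop) : Prop where
  iadd : ∀ a b, I a → I b → I (a + b)
  imul : ∀ a b, I a → I b → I (a * b)
  ineg : ∀ a, I a → I (-a)
  i1 : I 1
  t0 : T 0
  tadd : ∀ a b, T a → T b → T (a + b)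
  tmul : ∀ a b, T a → I b → T (a * b)
  ti : ∀ a, T a → I a
  tu : ∀ a, T a → IsUnit (1 - a)

namespace MExact_P

variable {E : Type} [CommRing E] {I T : E → Prop} (h : MExact_P I T)

include h

theorem i0 : I 0 := h.ti 0 h.t0

theorem tneg {a : E} (ha : T a) : T (-a) := by
  have := h.tmul a (-1) ha (h.ineg 1 h.i1)
  rwa [mul_neg_one] at this

theorem tsub {a b : E} (ha : T a) (hb : T b) : T (a - b) := by
  rw [sub_eq_add_neg]
  exact h.tadd _ _ ha (h.tneg hb)

theorem ipow {a : E} (ha : I a) (n : ℕ) : I (a ^ n) := by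
  induction n with
  | zero => rw [pow_zero]; exact h.i1
  | succ n ih => rw [pow_succ]; exact h.imul _ _ ih ha

theorem isum {ι : Type} (s : Finset ι) (f : ι → E) (hf : ∀ i ∈ s, I (f i)) : I (∑ i ∈ s, f i) :=
  Finset.sum_induction f I h.iadd h.i0 hf

theorem tsum {ι : Type} (s : Finset ι) (f : ι → E) (hf : ∀ i ∈ s, T (f i)) : T (∑ i ∈ s, f i) :=
  Finset.sum_induction f T h.tadd h.t0 hf

theorem one_add {a : E} (ha : T (a - 1)) : I a := by
  have := h.iadd _ _ (h.ti _ ha) h.i1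
  rwa [sub_add_cancel] at this

theorem pow_sub {a : E} (ha : T (a - 1)) (i : ℕ) : T (a ^ i - 1) := by
  rw [← mul_geom_sum]
  exact h.tmul _ _ ha (h.isum _ _ fun j _ => h.ipow (h.one_add ha) j)

theorem mul_sub {a b : E} (ha : T (a - 1)) (hb : T (b - 1)) : T (a * b - 1) := by
  have h1 : a * b - 1 = (a - 1) * b + (b - 1) := by ring
  rw [h1]
  exact h.tadd _ _ (h.tmul _ _ ha (h.one_add hb)) hb

/-- roots of unity congruent to `1` -/
theorem root (n : ℕ) (m : E) (hm : I m) (hnm : (n : E) * m = 1) {a : E} (ha : a ^ n = 1)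
    (hT : T (a - 1)) : a = 1 := by
  set S : E := ∑ i ∈ Finset.range n, (a ^ i - 1) with hS
  have h2 : (a - 1) * ∑ i ∈ Finset.range n, a ^ i = 0 := by rw [mul_geom_sum, ha, sub_self]
  have h3 : ∑ i ∈ Finset.range n, a ^ i = n + S := by
    rw [hS, Finset.sum_sub_distrib]
    simp
  have h4 : T S := h.tsum _ _ fun i _ => h.pow_sub hT i
  have h5 : IsUnit (1 - -(S * m)) := h.tu _ (h.tneg (h.tmul _ _ h4 hm))
  rw [h3] at h2
  have h6 : (a - 1) * (1 - -(S * m)) = 0 := by
    linear_combination m * h2 - (a - 1) * hnm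
  exact sub_eq_zero.1 ((h5.mul_left_eq_zero).1 h6)

/-- the root `τ = t w` with `v w = 1` -/
theorem conj (n : ℕ) (hn : 0 < n) (m : E) (hm : I m) (hnm : (n : E) * m = 1) (g : E →+* E)
    (hg : ∀ a, T a → T (g a)) {t v w x z : E} (hv : T (v - 1)) (hIw : I w) (hw : v * w = 1)
    (hx : t ^ n * x = v ^ n) (hgx : g x = x) (hz : z ^ n = 1) (hIz : I z)
    (ht : T ((g t - z * t) * t ^ (n - 1) * x)) : g (t * w) = z * (t * w) := by
  obtain ⟨n, rfl⟩ : ∃ k, n = k + 1 := ⟨n - 1, by omega⟩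
  rw [Nat.add_sub_cancel] at ht
  have hTw : T (w - 1) := by
    have h1 : w - 1 = -((v - 1) * w) := by linear_combination hw
    rw [h1]
    exact h.tneg (h.tmul _ _ hv hIw)
  have hTgw : T (g w - 1) := by
    have h1 := hg _ hTw
    rwa [map_sub, map_one] at h1
  have hIgw : I (g w) := h.one_add hTgw
  -- `τ ^ n x = 1`
  have hτ : (t * w) ^ (n + 1) * x = 1 := by
    have h1 : v ^ (n + 1) * w ^ (n + 1) = 1 := by rw [← mul_pow, hw, one_pow]
    calc (t * w) ^ (n + 1) * x = (t ^ (n + 1) * x) * w ^ (n + 1) := by ring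
      _ = 1 := by rw [hx, h1]
  have hgτ : (g (t * w)) ^ (n + 1) * x = 1 := by
    have h1 := congrArg g hτ
    rwa [map_mul, map_pow, hgx, map_one] at h1
  set r : E := (g t - z * t) * t ^ n * x with hr
  set l : E := g (t * w) * (t * w) ^ n * x * z ^ n with hl
  have hln : l ^ (n + 1) = 1 := by
    have h1 : l ^ (n + 1) = ((g (t * w)) ^ (n + 1) * x) * ((t * w) ^ (n + 1) * x) ^ n *
        (z ^ (n + 1)) ^ n := by
      rw [hl]
      ring
    rw [h1, hgτ, hτ, hz]
    simp
  have hvw : v ^ (n + 1) * w ^ n = v := by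
    have h1 : v ^ n * w ^ n = 1 := by rw [← mul_pow, hw, one_pow]
    calc v ^ (n + 1) * w ^ n = v * (v ^ n * w ^ n) := by ring
      _ = v := by rw [h1, mul_one]
  have hl1 : l - 1 = (v * g w - 1) + r * (g w * w ^ n * z ^ n) := by
    have h1 : l = z ^ (n + 1) * (t ^ (n + 1) * x) * w ^ n * g w + r * (g w * w ^ n * z ^ n) := by
      rw [hl, hr, map_mul]
      ring
    have h2 : z ^ (n + 1) * (t ^ (n + 1) * x) * w ^ n * g w = v * g w := by
      rw [hz, hx, one_mul, hvw]
    rw [h1, h2]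
    ring
  have hTl : T (l - 1) := by
    rw [hl1]
    refine h.tadd _ _ (h.mul_sub hv hTgw) (h.tmul _ _ ht ?_)
    exact h.imul _ _ (h.imul _ _ hIgw (h.ipow hIw n)) (h.ipow hIz n)
  have h1 : l = 1 := h.root (n + 1) m hm hnm hln hTl
  calc g (t * w) = g (t * w) * ((t * w) ^ (n + 1) * x) * z ^ (n + 1) := by
        rw [hτ, hz, mul_one, mul_one]
    _ = l * (z * (t * w)) := by rw [hl]; ring
    _ = z * (t * w) := by rw [h1, one_mul]

/-- `f(T) - f(τ)` is topologically nilpotent -/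
theorem poly {k : Type} [Field k] (φ : k →+* E) (hφ : ∀ a, I (φ a)) (f : k[X]) (N : ℕ)
    (hf : f.natDegree ≤ N) {t v s x y : E} (hs : t = s * v) (hv : v - 1 = x * y) (hy : T y)
    (hTv : T (v - 1)) (hsx : ∀ i ≤ N, I (s ^ i * x)) : T (f.eval₂ φ t - f.eval₂ φ s) := by
  rw [eval₂_eq_sum_range, eval₂_eq_sum_range, ← Finset.sum_sub_distrib]
  refine h.tsum _ _ fun i hi => ?_
  have hi' : i ≤ N := by
    have := Finset.mem_range.1 hi
    omega
  have h1 : φ (f.coeff i) * t ^ i - φ (f.coeff i) * s ^ i =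
      y * ((∑ j ∈ Finset.range i, v ^ j) * (φ (f.coeff i) * (s ^ i * x))) := by
    have h2 := mul_geom_sum v i
    rw [hv] at h2
    rw [hs, mul_pow]
    linear_combination -(φ (f.coeff i) * s ^ i) * h2
  rw [h1]
  exact h.tmul _ _ hy (h.imul _ _ (h.isum _ _ fun j _ => h.ipow (h.one_add hTv) j)
    (h.imul _ _ (hφ _) (hsx i hi')))

/-- topologically nilpotent elements with `δ ^ p = δ` -/
theorem frob (p : ℕ) (hp : 2 ≤ p) {a : E} (ha : T a) (hap : a ^ p = a) : a = 0 := by
  obtain ⟨q, rfl⟩ : ∃ q, p = q + 2 := ⟨p - 2, by omega⟩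
  have h1 : IsUnit (1 - a * a ^ q) := h.tu _ (h.tmul _ _ ha (h.ipow (h.ti _ ha) q))
  have h2 : a * (1 - a * a ^ q) = 0 := by
    linear_combination -hap
  exact (h1.mul_left_eq_zero).1 h2

end MExact_P

theorem MExact_xi_add {k : Type} [Field k] {D : Type} [CommRing D]
    [Algebra (LaurentSeries k) D] (a b : ℤ) : xi k D a * xi k D b = xi k D (a + b) := by
  rw [xi, xi, xi, ← map_mul, HahnSeries.single_mul_single, one_mul]

theorem MExact_xi_zero {k : Type} [Field k] {D : Type} [CommRing D]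
    [Algebra (LaurentSeries k) D] : xi k D 0 = 1 := by
  rw [xi]
  exact map_one _

theorem MExact_intL {κ : Type} [Field κ] {D : Type} [CommRing D] [Algebra (LaurentSeries κ) D]
    (a : LaurentSeries κ) (ha : ∀ m : ℤ, m < 0 → a.coeff m = 0) :
    IntL (κ := κ) (algebraMap (LaurentSeries κ) D a) := by
  refine ⟨1, fun _ => -a, one_pos, fun _ m hm => ?_, by simp⟩
  rw [HahnSeries.coeff_neg, ha m hm, neg_zero]

theorem MExact_xi_int {κ : Type} [Field κ] {D : Type} [CommRing D] [Algebra (LaurentSeries κ) D]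
    (d : ℤ) (hd : 0 ≤ d) : IntL (κ := κ) (xi κ D d) := by
  refine MExact_intL _ fun m hm => ?_
  rw [HahnSeries.coeff_single_of_ne (by omega)]

theorem MExact_C_int {κ : Type} [Field κ] {D : Type} [CommRing D] [Algebra (LaurentSeries κ) D]
    (a : κ) : IntL (κ := κ) (algebraMap (LaurentSeries κ) D (HahnSeries.C a)) := by
  refine MExact_intL _ fun m hm => ?_
  rw [HahnSeries.C_apply, HahnSeries.coeff_single_of_ne (by omega)]

theorem MExact_TN_zero {κ : Type} [Field κ] {D : Type} [CommRing D]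
    [Algebra (LaurentSeries κ) D] : TN (κ := κ) (0 : D) :=
  ⟨1, fun _ => 0, one_pos, fun _ _ _ => rfl, by simp⟩

theorem MExact_rules {k : Type} [Field k] {Γ : Type} [Group Γ] [Finite Γ] {E : Type} [CommRing E]
    [Algebra (LaurentSeries k) E] [MulSemiringAction Γ E] (hE : GalAlg (LaurentSeries k) Γ E) :
    MExact_P (E := E) (IntL (κ := k)) (TN (κ := k)) := by
  obtain ⟨q1, q2, q3, q4, q5, q6, q7, q8, q9⟩ := all_QTN k Γ E hE
  refine ⟨fun a b ha hb => (q1 a b ha hb).1, fun a b ha hb => (q1 a b ha hb).2.1,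
    fun a ha => (q1 a a ha ha).2.2, ?_, MExact_TN_zero, q2, q3, q4, q8⟩
  have h1 := MExact_C_int (κ := k) (D := E) 1
  rwa [map_one, map_one] at h1

theorem prf_MExact (hEx1 : MEx1) (hEx2 : MEx2) (hEx3 : MEx3) : MExact := by
  intro k _ p hpf _ n N ζ G₀ _ _ P c E _ _ _ t Y f hE hn hpn hζ hN hT hfix htame has hact hdeg
  obtain ⟨r1, r2⟩ := hEx3 k G₀ E hE
  have hR : MExact_P (E := E) (IntL (κ := k)) (TN (κ := k)) := MExact_rules hE
  have hsmul : ∀ (z : E) (γ : G₀), TN (κ := k) z → TN (κ := k) (γ • z) :=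
    (all_QTN k G₀ E hE).2.2.2.2.1
  have hp2 : 2 ≤ p := hpf.out.two_le
  have : CharP (LaurentSeries k) p :=
    charP_of_injective_ringHom (HahnSeries.C_injective (Γ := ℤ) (R := k)) p
  have : CharP E p := charP_of_injective_algebraMap hE.inj p
  have hnk : (n : k) ≠ 0 := by
    intro h0
    exact hpn ((CharP.cast_eq_zero_iff k p n).1 h0)
  obtain ⟨v, hv1, hv2⟩ := hEx1 k G₀ E hE n N (t ^ n * xi k E 1) hn hnk hN hT
  set y₀ : E := xi k E (-(N : ℤ)) * (v - 1) with hy₀
  have hv3 : v - 1 = xi k E N * y₀ := by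
    rw [hy₀, ← mul_assoc, MExact_xi_add, add_neg_cancel, MExact_xi_zero, one_mul]
  have hTv : TN (κ := k) (v - 1) := by
    rw [hv3, mul_comm]
    exact hR.tmul _ _ hv2 (MExact_xi_int _ (by omega))
  obtain ⟨w, hIw, hw⟩ := r2 (-(v - 1)) (hR.tneg hTv)
  have hvw : v * w = 1 := by
    linear_combination hw
  set φ : k →+* E := (algebraMap (LaurentSeries k) E).comp (HahnSeries.C : k →+* LaurentSeries k)
    with hφ
  have hφI : ∀ a, IntL (κ := k) (φ a) := fun a => MExact_C_int a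
  -- the inverse of `n`
  have hnm : (n : E) * φ ((n : k)⁻¹) = 1 := by
    rw [← map_natCast φ n, ← map_mul, mul_inv_cancel₀ hnk, map_one]
  have hconj : ∀ (g : G₀) (z : k), z ^ n = 1 →
      TN (κ := k) ((g • t - φ z * t) * t ^ (n - 1) * xi k E 1) →
      g • (t * w) = φ z * (t * w) := by
    intro g z hz h1
    refine hR.conj n hn (φ ((n : k)⁻¹)) (hφI _) hnm (MulSemiringAction.toRingHom G₀ E g)
      (fun a ha => hsmul a g ha) hTv hIw hvw hv1.symm ?_ ?_ (hφI z) h1
    · exact hE.comm g _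
    · rw [← map_pow, hz, map_one]
  -- `τ`
  set τ : E := t * w with hτ
  have hpow : τ ^ n * xi k E 1 = 1 := by
    have h1 : v ^ n * w ^ n = 1 := by rw [← mul_pow, hvw, one_pow]
    calc τ ^ n * xi k E 1 = (t ^ n * xi k E 1) * w ^ n := by rw [hτ]; ring
      _ = 1 := by rw [← hv1, h1]
  have htτ : t = τ * v := by
    rw [hτ]
    linear_combination -t * hvw
  have hτn : τ ^ n = xi k E (-1) := by
    calc τ ^ n = (τ ^ n * xi k E 1) * xi k E (-1) := by
          rw [mul_assoc, MExact_xi_add, add_neg_cancel, MExact_xi_zero, mul_one]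
      _ = xi k E (-1) := by rw [hpow, one_mul]
  have hxipow : ∀ (a : ℤ) (m : ℕ), xi k E a ^ m = xi k E (m * a) := by
    intro a m
    induction m with
    | zero => rw [pow_zero, Nat.cast_zero, zero_mul, MExact_xi_zero]
    | succ m ih =>
      rw [pow_succ, ih, MExact_xi_add]
      congr 1
      push_cast
      ring
  have hsx : ∀ i ≤ N, IntL (κ := k) (τ ^ i * xi k E N) := by
    intro i hi
    refine r1 _ n hn ?_
    have h1 : (τ ^ i * xi k E N) ^ n = xi k E (n * N - i) := by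
      calc (τ ^ i * xi k E N) ^ n = (τ ^ n) ^ i * xi k E N ^ n := by ring
        _ = xi k E (n * N - i) := by
          rw [hτn, hxipow, hxipow, MExact_xi_add]
          congr 1
          ring
    rw [h1]
    refine MExact_xi_int _ ?_
    have h2 : (i : ℤ) ≤ N := by exact_mod_cast hi
    have h3 : (1 : ℤ) ≤ n := by exact_mod_cast hn
    nlinarith
  have hfixτ : ∀ g ∈ P, g • τ = τ := by
    intro g hg
    have h1 := hconj g 1 (one_pow n) (by rw [map_one, one_mul]; exact hfix g hg)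
    rwa [map_one, one_mul] at h1
  refine ⟨τ, hpow, hfixτ, hconj c ζ hζ htame, fun l hl => ?_⟩
  have hTf : TN (κ := k) ((f l).eval₂ φ t - (f l).eval₂ φ τ) :=
    hR.poly φ hφI (f l) N (hdeg l hl).2 htτ hv3 hv2 hTv hsx
  have hTh : TN (κ := k) (Y l ^ p - Y l - (f l).eval₂ φ τ) := by
    have h1 := hR.tadd _ _ (has l hl) hTf
    have h2 : Y l ^ p - Y l - (f l).eval₂ φ t + ((f l).eval₂ φ t - (f l).eval₂ φ τ) =
        Y l ^ p - Y l - (f l).eval₂ φ τ := by ring
    rwa [h2] at h1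
  obtain ⟨z, hz1, hz2⟩ := hEx2 k p G₀ E hE _ hTh
  have hy : (Y l - z) ^ p - (Y l - z) = (f l).eval₂ φ τ := by
    rw [sub_pow_char]
    linear_combination -hz2
  refine ⟨Y l - z, f l, fun g => ?_, hy, (hdeg l hl).1⟩
  have hgf : (g : G₀) • (f l).eval₂ φ τ = (f l).eval₂ φ τ := by
    have h1 := Polynomial.hom_eval₂ (f l) φ (MulSemiringAction.toRingHom G₀ E g) τ
    have h2 : (MulSemiringAction.toRingHom G₀ E (g : G₀)).comp φ = φ := by
      ext a
      exact hE.comm (g : G₀) _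
    have h3 : (MulSemiringAction.toRingHom G₀ E (g : G₀)) τ = τ := hfixτ g g.2
    rw [h2, h3] at h1
    exact h1
  have hgy : ((g : G₀) • (Y l - z)) ^ p - (g : G₀) • (Y l - z) = (f l).eval₂ φ τ := by
    rw [← smul_pow', ← smul_sub, hy, hgf]
  set N₀ : ℕ := (Multiplicative.toAdd (l g)).val with hN₀
  have hδ : (g : G₀) • (Y l - z) - (Y l - z) - (N₀ : E) = 0 := by
    refine hR.frob p hp2 ?_ ?_
    · have h1 : (g : G₀) • (Y l - z) - (Y l - z) - (N₀ : E) =
          ((g : G₀) • Y l - Y l - (N₀ : E)) - ((g : G₀) • z - z) := by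
        rw [smul_sub]
        ring
      rw [h1]
      exact hR.tsub (hact l hl g) (hR.tsub (hsmul _ _ hz1) hz1)
    · rw [sub_pow_char, sub_pow_char, ← frobenius_def p (N₀ : E), map_natCast]
      linear_combination hgy - hy
  linear_combination hδ

end MP7b0bad.MT
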