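import Pool.Agent.Work.MP_7b0bad_ag.MT.GStmts

set_option autoImplicit false

/-!
# MGS: a finite solvable group which is the normal closure of a `p`-subgroup centralised by an
element of order `n`, `n` prime to `p`
-/

namespace MP7b0bad.MT

open Polynomial

namespace MGSa

/-- the ring: finite, of characteristic `n`, with a `p`-th root of unity `z`, `1 - z` a unit -/
theorem ring_ex (p : ℕ) [Fact p.Prime] (n : ℕ) (hn : 1 < n) (h : ¬ p ∣ n) :
    ∃ (R : Type) (_ : CommRing R) (_ : Finite R) (z : R), CharP R n ∧ z ^ p = 1 ∧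
      IsUnit (1 - z) := by
  classical
  have hp : p.Prime := Fact.out
  haveI : NeZero n := ⟨by omega⟩
  haveI : Fact (1 < n) := ⟨hn⟩
  haveI : Nontrivial (ZMod n) := ZMod.nontrivial n
  set f : (ZMod n)[X] := cyclotomic p (ZMod n) with hf
  have hfm : f.Monic := cyclotomic.monic p (ZMod n)
  have hdeg : 0 < f.natDegree := by
    rw [hf, natDegree_cyclotomic]
    exact Nat.totient_pos.2 hp.pos
  have hroot : aeval (AdjoinRoot.root f) f = 0 := by
    rw [AdjoinRoot.aeval_eq, AdjoinRoot.mk_self]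
  haveI : Module.Finite (ZMod n) (AdjoinRoot f) := hfm.finite_adjoinRoot
  have hfin : Finite (AdjoinRoot f) := Module.finite_of_finite (ZMod n)
  refine ⟨AdjoinRoot f, inferInstance, hfin, AdjoinRoot.root f, ?_, ?_, ?_⟩
  · have hinj : Function.Injective (AdjoinRoot.of f) := by
      rw [injective_iff_map_eq_zero]
      intro a ha
      by_contra hne
      have h1 : f ∣ C a := by
        rw [← AdjoinRoot.mk_eq_zero]
        exact ha
      obtain ⟨g, hg⟩ := h1
      have hg0 : g ≠ 0 := by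
        rintro rfl
        rw [mul_zero, C_eq_zero] at hg
        exact hne hg
      have h2 := congrArg natDegree hg
      rw [natDegree_C, hfm.natDegree_mul' hg0] at h2
      omega
    exact charP_of_injective_ringHom hinj n
  · have h1 : (X : (ZMod n)[X]) ^ p - 1 = f * (X - 1) := by
      rw [hf, cyclotomic_prime, geom_sum_mul]
    have h2 := congrArg (aeval (AdjoinRoot.root f)) h1
    rw [map_mul, hroot, zero_mul, map_sub, map_pow, aeval_X, map_one] at h2
    exact sub_eq_zero.1 h2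
  · have h1 : (X - C 1 : (ZMod n)[X]) ∣ f - C (eval 1 f) := X_sub_C_dvd_sub_C_eval
    obtain ⟨g, hg⟩ := h1
    have h2 := congrArg (aeval (AdjoinRoot.root f)) hg
    rw [hf, eval_one_cyclotomic_prime, ← hf, map_sub, hroot, map_mul, map_sub, aeval_X, aeval_C,
      aeval_C, map_one] at h2
    have h3 : IsUnit (algebraMap (ZMod n) (AdjoinRoot f) (p : ZMod n)) := by
      apply IsUnit.map
      rw [ZMod.isUnit_iff_coprime]
      exact (Nat.Prime.coprime_iff_not_dvd hp).2 h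
    have h4 : algebraMap (ZMod n) (AdjoinRoot f) (p : ZMod n) =
        (1 - AdjoinRoot.root f) * aeval (AdjoinRoot.root f) g := by
      linear_combination -h2
    rw [h4] at h3
    exact isUnit_of_mul_isUnit_left h3

/-- the group `Heis(R) ⋊ μ_p(R)` -/
@[ext]
structure HG (p : ℕ) (R : Type) [CommRing R] : Type where
  u : rootsOfUnity p R
  a : R
  b : R
  c : R

variable {p : ℕ} {R : Type} [CommRing R]

/-- the scalar of `u` -/
def sc (u : rootsOfUnity p R) : R := ((u : Rˣ) : R)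

theorem sc_mul (u v : rootsOfUnity p R) : sc (u * v) = sc u * sc v := by
  simp [sc]

theorem sc_one : sc (1 : rootsOfUnity p R) = 1 := by simp [sc]

theorem sc_inv_mul (u : rootsOfUnity p R) : sc (u⁻¹) * sc u = 1 := by
  rw [← sc_mul, inv_mul_cancel, sc_one]

instance : Mul (HG p R) := ⟨fun x y => ⟨x.u * y.u, x.a + sc x.u * y.a,
  x.b + y.b + x.a * (sc x.u⁻¹ * y.c), x.c + sc x.u⁻¹ * y.c⟩⟩

instance : One (HG p R) := ⟨⟨1, 0, 0, 0⟩⟩

instance : Inv (HG p R) := ⟨fun x => ⟨x.u⁻¹, -(sc x.u⁻¹ * x.a), x.a * x.c - x.b,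
  -(sc x.u * x.c)⟩⟩

theorem mul_def (x y : HG p R) : x * y = ⟨x.u * y.u, x.a + sc x.u * y.a,
  x.b + y.b + x.a * (sc x.u⁻¹ * y.c), x.c + sc x.u⁻¹ * y.c⟩ := rfl

theorem one_def : (1 : HG p R) = ⟨1, 0, 0, 0⟩ := rfl

theorem inv_def (x : HG p R) : x⁻¹ = ⟨x.u⁻¹, -(sc x.u⁻¹ * x.a), x.a * x.c - x.b,
  -(sc x.u * x.c)⟩ := rfl

instance : Group (HG p R) := Group.ofLeftAxioms
  (by
    intro x y z
    have h1 := sc_inv_mul x.u
    simp only [mul_def, mul_inv, sc_mul]
    ext1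
    · exact mul_assoc _ _ _
    · ring
    · linear_combination (y.a * sc y.u⁻¹ * z.c) * h1
    · ring)
  (by
    intro x
    simp only [mul_def, one_def, inv_one, sc_one]
    ext1
    · exact one_mul _
    · simp
    · simp
    · simp)
  (by
    intro x
    have h1 := sc_inv_mul x.u
    simp only [mul_def, one_def, inv_def, inv_inv]
    ext1
    · exact inv_mul_cancel _
    · ring
    · show x.a * x.c - x.b + x.b + -(sc x.u⁻¹ * x.a) * (sc x.u * x.c) = 0
      linear_combination (-(x.a * x.c)) * h1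
    · ring)

instance [Finite R] : Finite (HG p R) := by
  haveI : Finite Rˣ := inferInstance
  exact Finite.of_injective
    (fun x : HG p R => ((x.u, x.a, x.b, x.c) : (rootsOfUnity p R) × R × R × R))
    (by
      intro x y h
      simp only [Prod.mk.injEq] at h
      exact HG.ext h.1 h.2.1 h.2.2.1 h.2.2.2)

/-- `u ↦ (u, 0, 0, 0)` -/
def inU (p : ℕ) (R : Type) [CommRing R] : rootsOfUnity p R →* HG p R where
  toFun u := ⟨u, 0, 0, 0⟩
  map_one' := rfl
  map_mul' u v := by rw [mul_def]; ext1 <;> simp [sc_one]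

/-- `b ↦ (1, 0, b, 0)` -/
def inB (p : ℕ) (R : Type) [CommRing R] : Multiplicative R →* HG p R where
  toFun b := ⟨1, 0, Multiplicative.toAdd b, 0⟩
  map_one' := rfl
  map_mul' u v := by rw [mul_def]; ext1 <;> simp [sc_one]

theorem solv : Group.IsSolvable (HG p R) := by
  let f : HG p R →* rootsOfUnity p R :=
    { toFun := fun x => x.u, map_one' := rfl, map_mul' := fun _ _ => rfl }
  let g : f.ker →* Multiplicative (R × R) :=
    { toFun := fun x => Multiplicative.ofAdd ((x : HG p R).a, (x : HG p R).c)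
      map_one' := rfl
      map_mul' := by
        intro x y
        have hx : (x : HG p R).u = 1 := x.2
        rw [← ofAdd_add]
        congr 1
        rw [Subgroup.coe_mul, mul_def]
        simp [hx, sc_one] }
  have hB : ∀ b : Multiplicative R, inB p R b ∈ f.ker := fun b => rfl
  let j : Multiplicative R →* f.ker := (inB p R).codRestrict f.ker hB
  haveI : Group.IsSolvable f.ker := by
    refine Group.isSolvable_of_ker_le_range j g ?_
    intro x hx
    have hx1 : (x : HG p R).u = 1 := x.2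
    have hx2 : ((x : HG p R).a, (x : HG p R).c) = ((0 : R), (0 : R)) :=
      Multiplicative.ofAdd.injective hx
    rw [Prod.mk.injEq] at hx2
    refine ⟨Multiplicative.ofAdd (x : HG p R).b, Subtype.ext ?_⟩
    show (⟨1, 0, (x : HG p R).b, 0⟩ : HG p R) = x
    ext1
    · exact hx1.symm
    · exact hx2.1.symm
    · rfl
    · exact hx2.2.symm
  exact Group.isSolvable_of_ker_le_range f.ker.subtype f (by rw [Subgroup.range_subtype])

theorem closure_top (z : R) (hz : z ^ p = 1) (hu : IsUnit (1 - z)) (hp : p ≠ 0) :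
    Subgroup.normalClosure (((inU p R).range : Subgroup (HG p R)) : Set (HG p R)) = ⊤ := by
  set N := Subgroup.normalClosure (((inU p R).range : Subgroup (HG p R)) : Set (HG p R)) with hN
  have hQ : ∀ u : rootsOfUnity p R, (⟨u, 0, 0, 0⟩ : HG p R) ∈ N := fun u =>
    Subgroup.subset_normalClosure ⟨u, rfl⟩
  haveI : N.Normal := Subgroup.normalClosure_normal
  obtain ⟨w, hw⟩ : ∃ w : rootsOfUnity p R, sc w = z := by
    haveI : NeZero p := ⟨hp⟩
    refine ⟨rootsOfUnity.mkOfPowEq z hz, ?_⟩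
    simp [sc]
  have hwi := sc_inv_mul w
  obtain ⟨v, hv⟩ := hu.exists_right_inv
  -- `(1, a, 0, 0)`
  have hA : ∀ a : R, (⟨1, a, 0, 0⟩ : HG p R) ∈ N := by
    intro a
    have h1 : (⟨1, a * v, 0, 0⟩ : HG p R) * ⟨w, 0, 0, 0⟩ * (⟨1, a * v, 0, 0⟩ : HG p R)⁻¹ *
        (⟨w, 0, 0, 0⟩ : HG p R)⁻¹ ∈ N :=
      N.mul_mem (‹N.Normal›.conj_mem _ (hQ w) _) (N.inv_mem (hQ w))
    have h2 : (⟨1, a * v, 0, 0⟩ : HG p R) * ⟨w, 0, 0, 0⟩ * (⟨1, a * v, 0, 0⟩ : HG p R)⁻¹ *
        (⟨w, 0, 0, 0⟩ : HG p R)⁻¹ = ⟨1, a, 0, 0⟩ := by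
      simp only [mul_def, inv_def, inv_one, sc_one, hw]
      ext1
      · simp
      · show a * v + 1 * 0 + sc (1 * w) * -(1 * (a * v)) + _ = a
        simp only [one_mul, hw]
        linear_combination a * hv
      · simp
      · simp
    rwa [h2] at h1
  have hC : ∀ c : R, (⟨1, 0, 0, c⟩ : HG p R) ∈ N := by
    intro c
    have h1 : (⟨1, 0, 0, -(c * v * z)⟩ : HG p R) * ⟨w, 0, 0, 0⟩ *
        (⟨1, 0, 0, -(c * v * z)⟩ : HG p R)⁻¹ * (⟨w, 0, 0, 0⟩ : HG p R)⁻¹ ∈ N :=
      N.mul_mem (‹N.Normal›.conj_mem _ (hQ w) _) (N.inv_mem (hQ w))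
    have h2 : (⟨1, 0, 0, -(c * v * z)⟩ : HG p R) * ⟨w, 0, 0, 0⟩ *
        (⟨1, 0, 0, -(c * v * z)⟩ : HG p R)⁻¹ * (⟨w, 0, 0, 0⟩ : HG p R)⁻¹ = ⟨1, 0, 0, c⟩ := by
      rw [hw] at hwi
      simp only [mul_def, inv_def, inv_one, sc_one, hw]
      ext1
      · simp
      · simp
      · simp
      · simp only [mul_zero, add_zero, one_mul, mul_inv, inv_one, neg_zero, neg_neg, mul_neg]
        linear_combination c * hv + c * v * hwi
    rwa [h2] at h1
  have hBb : ∀ b : R, (⟨1, 0, b, 0⟩ : HG p R) ∈ N := by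
    intro b
    have h1 : (⟨1, b, 0, 0⟩ : HG p R) * ⟨1, 0, 0, 1⟩ *
        ((⟨1, 0, 0, 1⟩ : HG p R) * ⟨1, b, 0, 0⟩)⁻¹ ∈ N :=
      N.mul_mem (N.mul_mem (hA b) (hC 1)) (N.inv_mem (N.mul_mem (hC 1) (hA b)))
    have h2 : (⟨1, b, 0, 0⟩ : HG p R) * ⟨1, 0, 0, 1⟩ *
        ((⟨1, 0, 0, 1⟩ : HG p R) * ⟨1, b, 0, 0⟩)⁻¹ = ⟨1, 0, b, 0⟩ := by
      rw [mul_inv_eq_iff_eq_mul]
      simp only [mul_def, inv_one, sc_one]
      ext1 <;> simp [sc_one]
    rwa [h2] at h1
  rw [eq_top_iff]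
  intro x _
  have h1 : (⟨1, 0, x.b, 0⟩ : HG p R) * ⟨1, 0, 0, x.c⟩ * ⟨1, x.a, 0, 0⟩ * ⟨x.u, 0, 0, 0⟩ ∈ N :=
    N.mul_mem (N.mul_mem (N.mul_mem (hBb x.b) (hC x.c)) (hA x.a)) (hQ x.u)
  have h2 : (⟨1, 0, x.b, 0⟩ : HG p R) * ⟨1, 0, 0, x.c⟩ * ⟨1, x.a, 0, 0⟩ * ⟨x.u, 0, 0, 0⟩ = x := by
    simp only [mul_def, inv_one, sc_one]
    ext1 <;> simp [sc_one]
  rwa [h2] at h1

end MGSa

open MGSa in
theorem prf_MGS : MGS := by
  intro p hpF n hn hpn
  have hp : p.Prime := hpF.out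
  rcases Nat.lt_or_ge 1 n with h1 | h1
  · obtain ⟨R, iR, iF, z, hch, hz, hu⟩ := MGSa.ring_ex p n h1 hpn
    refine ⟨HG p R, inferInstance, inferInstance, (inU p R).range,
      inB p R (Multiplicative.ofAdd 1), MGSa.solv, ?_, ?_, ?_, MGSa.closure_top z hz hu hp.ne_zero⟩
    · rintro ⟨x, u, rfl⟩
      refine ⟨1, Subtype.ext ?_⟩
      show (inU p R u) ^ p ^ 1 = 1
      rw [pow_one, ← map_pow]
      have h2 : u ^ p = 1 := Subtype.ext u.2
      rw [h2, map_one]
    · have hinj : Function.Injective (inB p R) := by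
        intro x y hxy
        have := congrArg HG.b hxy
        exact Multiplicative.toAdd.injective this
      rw [orderOf_injective (inB p R) hinj, orderOf_ofAdd_eq_addOrderOf]
      exact CharP.eq R (CharP.addOrderOf_one R) hch
    · rintro x ⟨u, rfl⟩
      refine ⟨u, ?_⟩
      rw [eq_mul_inv_iff_mul_eq]
      show (⟨u, 0, 0, 0⟩ : HG p R) * ⟨1, 0, 1, 0⟩ = ⟨1, 0, 1, 0⟩ * ⟨u, 0, 0, 0⟩
      simp only [mul_def]
      ext1 <;> simp [sc_one]
  · have hn1 : n = 1 := by omega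
    subst hn1
    refine ⟨Multiplicative (ZMod 1), inferInstance, inferInstance, ⊤, 1, inferInstance, ?_,
      orderOf_one, fun _ _ => trivial, ?_⟩
    · intro x
      exact ⟨0, Subsingleton.elim _ _⟩
    · exact eq_top_iff.2 fun x _ => Subgroup.subset_normalClosure trivial

end MP7b0bad.MT
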