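import Pool.Agent.Work.MP_7b0bad_ag.MT.TStmts

set_option autoImplicit false

/-!
# The groups in the join
-/

namespace MP7b0bad.MT

theorem mgrp_z0 {G : Type} [Group G] (c : G) (n : ℕ) (h : orderOf c = n) :
    (zmultiplesHom (Additive G)) (Additive.ofMul c) ((n : ℕ) : ℤ) = 0 := by
  rw [zmultiplesHom_apply, natCast_zsmul, ← h]
  exact congrArg Additive.ofMul (pow_orderOf_eq_one c)

/-- the homomorphism from the cyclic group given by an element -/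
noncomputable def mgrpZ {G : Type} [Group G] (c : G) (n : ℕ) (h : orderOf c = n) :
    Multiplicative (ZMod n) →* G :=
  MonoidHom.mk' (fun x => Additive.toMul (ZMod.lift n (A := Additive G)
    ⟨(zmultiplesHom (Additive G)) (Additive.ofMul c), mgrp_z0 c n h⟩ (Multiplicative.toAdd x)))
    (by
      intro a b
      rw [toAdd_mul, map_add]
      rfl)

theorem mgrpZ_int {G : Type} [Group G] (c : G) (n : ℕ) (h : orderOf c = n) (z : ℤ) :
    mgrpZ c n h (Multiplicative.ofAdd (z : ZMod n)) = c ^ z := by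
  change Additive.toMul (ZMod.lift n (A := Additive G) _ (z : ZMod n)) = _
  rw [ZMod.lift_coe]
  rfl

theorem mgrpZ_mem {G : Type} [Group G] (c : G) (n : ℕ) (h : orderOf c = n)
    (x : Multiplicative (ZMod n)) : mgrpZ c n h x ∈ Subgroup.zpowers c := by
  obtain ⟨z, hz⟩ := ZMod.intCast_surjective (Multiplicative.toAdd x)
  have : x = Multiplicative.ofAdd (z : ZMod n) := by rw [hz]; rfl
  rw [this, mgrpZ_int]
  exact ⟨z, rfl⟩

theorem mgrpZ_inj {G : Type} [Group G] (c : G) (n : ℕ) (h : orderOf c = n)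
    (x : Multiplicative (ZMod n)) (hx : mgrpZ c n h x = 1) : x = 1 := by
  obtain ⟨z, hz⟩ := ZMod.intCast_surjective (Multiplicative.toAdd x)
  have h1 : x = Multiplicative.ofAdd (z : ZMod n) := by rw [hz]; rfl
  rw [h1, mgrpZ_int] at hx
  have h2 : (orderOf c : ℤ) ∣ z := orderOf_dvd_iff_zpow_eq_one.mpr hx
  rw [h] at h2
  rw [h1, (ZMod.intCast_zmod_eq_zero_iff_dvd z n).mpr h2]
  rfl

theorem mgrpZ_one {G : Type} [Group G] (c : G) (n : ℕ) (h : orderOf c = n) :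
    mgrpZ c n h (Multiplicative.ofAdd 1) = c := by
  have := mgrpZ_int c n h 1
  rw [Int.cast_one, zpow_one] at this
  exact this

/-- the homomorphism from the product -/
noncomputable def mgrpF {G : Type} [Group G] (c : Fin 2 → G) (n : Fin 2 → ℕ)
    (hn : ∀ i, orderOf (c i) = n i) (hc : c 0 * c 1 = c 1 * c 0) : CT n →* G :=
  MonoidHom.mk' (fun g => mgrpZ (c 0) (n 0) (hn 0) (g 0) * mgrpZ (c 1) (n 1) (hn 1) (g 1)) (by
    intro a b
    have hcc : Commute (c 0) (c 1) := hc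
    have key : Commute (mgrpZ (c 0) (n 0) (hn 0) (b 0)) (mgrpZ (c 1) (n 1) (hn 1) (a 1)) := by
      obtain ⟨z, hz⟩ := mgrpZ_mem (c 0) (n 0) (hn 0) (b 0)
      obtain ⟨w, hw⟩ := mgrpZ_mem (c 1) (n 1) (hn 1) (a 1)
      rw [← hz, ← hw]
      exact (hcc.zpow_left z).zpow_right w
    rw [Pi.mul_apply, Pi.mul_apply, map_mul, map_mul]
    calc _ = mgrpZ (c 0) (n 0) (hn 0) (a 0) * (mgrpZ (c 0) (n 0) (hn 0) (b 0) *
          mgrpZ (c 1) (n 1) (hn 1) (a 1)) * mgrpZ (c 1) (n 1) (hn 1) (b 1) := by group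
      _ = mgrpZ (c 0) (n 0) (hn 0) (a 0) * (mgrpZ (c 1) (n 1) (hn 1) (a 1) *
          mgrpZ (c 0) (n 0) (hn 0) (b 0)) * mgrpZ (c 1) (n 1) (hn 1) (b 1) := by rw [key.eq]
      _ = _ := by group)

theorem mgrpF_apply {G : Type} [Group G] (c : Fin 2 → G) (n : Fin 2 → ℕ)
    (hn : ∀ i, orderOf (c i) = n i) (hc : c 0 * c 1 = c 1 * c 0) (g : CT n) :
    mgrpF c n hn hc g = mgrpZ (c 0) (n 0) (hn 0) (g 0) * mgrpZ (c 1) (n 1) (hn 1) (g 1) := rfl

theorem mgrpF_cT {G : Type} [Group G] (c : Fin 2 → G) (n : Fin 2 → ℕ)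
    (hn : ∀ i, orderOf (c i) = n i) (hc : c 0 * c 1 = c 1 * c 0) (i : Fin 2) :
    mgrpF c n hn hc (cT n i) = c i := by
  rw [mgrpF_apply]
  fin_cases i
  · simp only [Fin.zero_eta]
    rw [show cT n 0 0 = Multiplicative.ofAdd 1 by simp [cT],
      show cT n 0 1 = 1 by simp [cT], mgrpZ_one, MonoidHom.map_one, mul_one]
  · simp only [Fin.mk_one]
    rw [show cT n 1 1 = Multiplicative.ofAdd 1 by simp [cT],
      show cT n 1 0 = 1 by simp [cT], mgrpZ_one, MonoidHom.map_one, one_mul]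

theorem mgrpF_inj {G : Type} [Group G] (c : Fin 2 → G) (n : Fin 2 → ℕ)
    (hn : ∀ i, orderOf (c i) = n i) (hc : c 0 * c 1 = c 1 * c 0)
    (hb : Subgroup.zpowers (c 0) ⊓ Subgroup.zpowers (c 1) = ⊥) (g : CT n)
    (hg : mgrpF c n hn hc g = 1) : g = 1 := by
  rw [mgrpF_apply] at hg
  have h1 : mgrpZ (c 0) (n 0) (hn 0) (g 0) = (mgrpZ (c 1) (n 1) (hn 1) (g 1))⁻¹ :=
    eq_inv_of_mul_eq_one_left hg
  have h2 : mgrpZ (c 0) (n 0) (hn 0) (g 0) ∈ Subgroup.zpowers (c 0) ⊓ Subgroup.zpowers (c 1) := by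
    refine ⟨mgrpZ_mem _ _ _ _, ?_⟩
    rw [h1]
    exact Subgroup.inv_mem _ (mgrpZ_mem _ _ _ _)
  rw [hb, Subgroup.mem_bot] at h2
  have h3 : mgrpZ (c 1) (n 1) (hn 1) (g 1) = 1 := by
    rw [h2] at h1
    exact inv_eq_one.mp h1.symm
  funext i
  fin_cases i
  · exact mgrpZ_inj _ _ _ _ h2
  · exact mgrpZ_inj _ _ _ _ h3

theorem mgrpT_apply (n : Fin 2 → ℕ) (i : Fin 2) :
    (cT n 0 * cT n 1) i = Multiplicative.ofAdd 1 := by
  fin_cases i
  · simp [cT]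
  · simp [cT]

theorem mgrpT_order (n : Fin 2 → ℕ) : orderOf (cT n 0 * cT n 1) = Nat.lcm (n 0) (n 1) := by
  have key : ∀ m : ℕ, (cT n 0 * cT n 1) ^ m = 1 ↔ ∀ i, n i ∣ m := by
    intro m
    rw [funext_iff]
    refine forall_congr' fun i => ?_
    rw [Pi.pow_apply, mgrpT_apply, ← ofAdd_nsmul, Pi.one_apply, ← ofAdd_zero,
      Equiv.apply_eq_iff_eq, nsmul_one, ZMod.natCast_eq_zero_iff]
  refine Nat.dvd_antisymm ?_ ?_
  · rw [orderOf_dvd_iff_pow_eq_one, key]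
    intro i
    fin_cases i
    · exact Nat.dvd_lcm_left _ _
    · exact Nat.dvd_lcm_right _ _
  · have := (key _).mp (pow_orderOf_eq_one (cT n 0 * cT n 1))
    exact Nat.lcm_dvd (this 0) (this 1)

theorem mgrpT_pow (n : Fin 2 → ℕ) (g : CT n) : g ^ (n 0 * n 1) = 1 := by
  funext i
  rw [Pi.pow_apply, Pi.one_apply]
  have h : (g i) ^ (n i) = 1 := by
    rw [← toAdd_eq_zero, toAdd_pow, nsmul_eq_mul, ZMod.natCast_self, zero_mul]
  fin_cases i
  · exact (pow_mul _ _ _).trans (by rw [show (g (⟨0, by omega⟩ : Fin 2)) ^ n 0 = 1 from h, one_pow])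
  · rw [mul_comm]
    exact (pow_mul _ _ _).trans (by rw [show (g (⟨1, by omega⟩ : Fin 2)) ^ n 1 = 1 from h, one_pow])

theorem prf_MGrp : MGrp := by
  intro p _ G _ _ P c n hP hn hpn hc hb hcP
  have hprime : p.Prime := Fact.out
  obtain ⟨Γ, hΓ⟩ : ∃ Γ : Subgroup G, Γ = P ⊔ Subgroup.zpowers (c 0) ⊔ Subgroup.zpowers (c 1) :=
    ⟨_, rfl⟩
  have hPΓ : P ≤ Γ := by rw [hΓ]; exact le_sup_left.trans le_sup_left
  have h0Γ : Subgroup.zpowers (c 0) ≤ Γ := by rw [hΓ]; exact le_sup_right.trans le_sup_left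
  have h1Γ : Subgroup.zpowers (c 1) ≤ Γ := by rw [hΓ]; exact le_sup_right
  have hcΓ : ∀ i, c i ∈ Γ := by
    intro i
    fin_cases i
    · exact h0Γ (Subgroup.mem_zpowers _)
    · exact h1Γ (Subgroup.mem_zpowers _)
  have hcN : ∀ i, c i ∈ Subgroup.normalizer (P : Set G) := fun i =>
    Subgroup.mem_normalizer_fintype (fun x hx => hcP i x hx)
  have hnorm : Γ ≤ Subgroup.normalizer (P : Set G) := by
    rw [hΓ]
    refine sup_le (sup_le Subgroup.le_normalizer ?_) ?_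
    · rw [Subgroup.zpowers_le]; exact hcN 0
    · rw [Subgroup.zpowers_le]; exact hcN 1
  have hNor : (P.subgroupOf Γ).Normal :=
    (Subgroup.normal_subgroupOf_iff_le_normalizer hPΓ).mpr hnorm
  have hφΓ : ∀ g : CT n, mgrpF c n hn hc g ∈ Γ := by
    intro g
    rw [mgrpF_apply]
    exact Γ.mul_mem (h0Γ (mgrpZ_mem _ _ _ _)) (h1Γ (mgrpZ_mem _ _ _ _))
  obtain ⟨φ, hφ⟩ : ∃ φ : CT n →* Γ, ∀ g, (φ g : G) = mgrpF c n hn hc g :=
    ⟨(mgrpF c n hn hc).codRestrict Γ hφΓ, fun g => rfl⟩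
  obtain ⟨ψ, hψ⟩ : ∃ ψ : CT n →* Γ ⧸ P.subgroupOf Γ,
      ∀ g, ψ g = QuotientGroup.mk' (P.subgroupOf Γ) (φ g) :=
    ⟨(QuotientGroup.mk' (P.subgroupOf Γ)).comp φ, fun g => rfl⟩
  have hmk : ∀ x : Γ, QuotientGroup.mk' (P.subgroupOf Γ) x = 1 ↔ (x : G) ∈ P := by
    intro x
    rw [QuotientGroup.mk'_apply, QuotientGroup.eq_one_iff, Subgroup.mem_subgroupOf]
  have hinj : Function.Injective ψ := by
    rw [injective_iff_map_eq_one]
    intro g hg
    rw [hψ, hmk, hφ] at hg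
    refine mgrpF_inj c n hn hc hb g ?_
    obtain ⟨j, hj⟩ := hP ⟨_, hg⟩
    have h1 : (mgrpF c n hn hc g) ^ p ^ j = 1 := by
      have := congrArg (fun y : P => (y : G)) hj
      simpa using this
    have h2 : (mgrpF c n hn hc g) ^ (n 0 * n 1) = 1 := by
      rw [← map_pow, mgrpT_pow, map_one]
    have hcop : Nat.Coprime (p ^ j) (n 0 * n 1) := by
      refine Nat.Coprime.pow_left _ ?_
      exact Nat.Coprime.mul_right ((Nat.Prime.coprime_iff_not_dvd hprime).mpr (hpn 0))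
        ((Nat.Prime.coprime_iff_not_dvd hprime).mpr (hpn 1))
    have h3 := pow_gcd_eq_one.mpr ⟨h1, h2⟩
    rw [hcop, pow_one] at h3
    exact h3
  have hmkc : ∀ i, ψ (cT n i) = QuotientGroup.mk' (P.subgroupOf Γ) ⟨c i, hcΓ i⟩ := by
    intro i
    rw [hψ]
    congr 1
    apply Subtype.ext
    rw [hφ, mgrpF_cT]
  have hsurj : Function.Surjective ψ := by
    have hle : Γ ≤ (ψ.range.comap (QuotientGroup.mk' (P.subgroupOf Γ))).map Γ.subtype := by
      have hz : ∀ i, Subgroup.zpowers (c i) ≤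
          (ψ.range.comap (QuotientGroup.mk' (P.subgroupOf Γ))).map Γ.subtype := by
        intro i
        rw [Subgroup.zpowers_le]
        exact ⟨⟨c i, hcΓ i⟩, ⟨cT n i, hmkc i⟩, rfl⟩
      conv_lhs => rw [hΓ]
      refine sup_le (sup_le ?_ (hz 0)) (hz 1)
      intro x hx
      exact ⟨⟨x, hPΓ hx⟩, ⟨1, by rw [map_one]; exact ((hmk _).mpr hx).symm⟩, rfl⟩
    intro y
    obtain ⟨x, rfl⟩ := QuotientGroup.mk'_surjective (P.subgroupOf Γ) y
    obtain ⟨z, ⟨g, hg⟩, hz⟩ := hle x.2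
    have hzx : z = x := Subtype.ext hz
    exact ⟨g, by rw [hg, hzx]⟩
  obtain ⟨q, hq⟩ : ∃ q : Γ →* CT n, ∀ x, ψ (q x) = QuotientGroup.mk' (P.subgroupOf Γ) x :=
    ⟨((MulEquiv.ofBijective ψ ⟨hinj, hsurj⟩).symm.toMonoidHom).comp
      (QuotientGroup.mk' (P.subgroupOf Γ)), fun x =>
        (MulEquiv.ofBijective ψ ⟨hinj, hsurj⟩).apply_symm_apply _⟩
  have hq1 : ∀ x : Γ, q x = 1 ↔ (x : G) ∈ P := by
    intro x
    rw [← hmk, ← hq]
    constructor
    · intro h; rw [h, map_one]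
    · intro h; exact hinj (by rw [h, map_one])
  have hqc : ∀ i (h : c i ∈ Γ), q ⟨c i, h⟩ = cT n i := by
    intro i h
    apply hinj
    rw [hq, hmkc]
  have hcc : c 0 * c 1 ∈ Γ := Γ.mul_mem (hcΓ 0) (hcΓ 1)
  have hqcc : q ⟨c 0 * c 1, hcc⟩ = cT n 0 * cT n 1 := by
    rw [← hqc 0 (hcΓ 0), ← hqc 1 (hcΓ 1), ← map_mul]
    rfl
  have hFinj : Function.Injective (mgrpF c n hn hc) := by
    rw [injective_iff_map_eq_one]
    exact mgrpF_inj c n hn hc hb
  refine ⟨Γ, q, hΓ, ?_, hq1, hqc, ?_, ?_, mgrpT_order n⟩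
  · intro g
    obtain ⟨x, hx⟩ := QuotientGroup.mk'_surjective (P.subgroupOf Γ) (ψ g)
    exact ⟨x, hinj (by rw [hq, hx])⟩
  · intro x
    have hsub : P ⊔ Subgroup.zpowers (c 0 * c 1) ≤
        ((Subgroup.zpowers (cT n 0 * cT n 1)).comap q).map Γ.subtype := by
      refine sup_le ?_ ?_
      · intro y hy
        refine ⟨⟨y, hPΓ hy⟩, ?_, rfl⟩
        have := (hq1 ⟨y, hPΓ hy⟩).mpr hy
        change q ⟨y, hPΓ hy⟩ ∈ Subgroup.zpowers (cT n 0 * cT n 1)
        rw [this]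
        exact one_mem _
      · rw [Subgroup.zpowers_le]
        refine ⟨⟨c 0 * c 1, hcc⟩, ?_, rfl⟩
        change q ⟨c 0 * c 1, hcc⟩ ∈ Subgroup.zpowers (cT n 0 * cT n 1)
        rw [hqcc]
        exact Subgroup.mem_zpowers _
    constructor
    · rintro ⟨z, hz⟩
      have hz' : (cT n 0 * cT n 1) ^ z = q x := hz
      have h1 : q (x * (⟨c 0 * c 1, hcc⟩ ^ z)⁻¹) = 1 := by
        rw [map_mul, map_inv, map_zpow, hqcc, hz', mul_inv_cancel]
      rw [hq1] at h1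
      have h2 : (x : G) = (x : G) * ((c 0 * c 1) ^ z)⁻¹ * (c 0 * c 1) ^ z := by
        rw [inv_mul_cancel_right]
      rw [h2]
      refine Subgroup.mul_mem_sup ?_ ⟨z, rfl⟩
      simpa using h1
    · intro h
      obtain ⟨y, hy, hyx⟩ := hsub h
      have : y = x := Subtype.ext hyx
      rw [← this]
      exact hy
  · rw [← mgrpT_order n, ← orderOf_injective _ hFinj, map_mul, mgrpF_cT, mgrpF_cT]

end MP7b0bad.MT
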