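import Pool.Agent.Work.MP_7b0bad_ag.MT.FStmts

set_option autoImplicit false

/-!
# Join of covers with tame inertia: assembly of the join with two tame discs (item MJ2)
-/

namespace MP7b0bad.MT

open Polynomial

/-- the local data at a disc -/
structure MJ2_L (k : Type) [Field k] (m : ℕ) {G : Type} [Group G] (P' D H : Subgroup G)
    (hDH : D ≤ H) (c : G) (hc : c ∈ D) (n : ℕ) (ζ : k) where
  L : Type
  [rL : CommRing L]
  [aL : Algebra (KWp k) L]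
  [sL : MulSemiringAction D L]
  Q : Type
  [rQ : CommRing Q]
  [aQ : Algebra (Fk k) Q]
  [sQ : MulSemiringAction D Q]
  inner : InnerM k m H D (Subgroup.inclusion hDH) Q
  t : L
  lQ : L →+* Q
  gL : GalAlg (KWp k) D L
  gQ : GalAlg (Fk k) D Q
  dQ : IsDomain Q
  lQ_alg : ∀ a, lQ (algebraMap (KWp k) L a) = algebraMap (Fk k) Q (WFp k a)
  lQ_act : ∀ (d : D) (x : L), lQ (d • x) = d • lQ x
  t_pow : t ^ n = algebraMap (KWp k) L (toXp k m X)
  t_P : ∀ g : D, (g : G) ∈ P' → g • t = t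
  t_c : (⟨c, hc⟩ : D) • t = algebraMap (KWp k) L (HahnSeries.C (LaurentPolynomial.C ζ)) * t

attribute [instance] MJ2_L.rL MJ2_L.aL MJ2_L.sL MJ2_L.rQ MJ2_L.aQ MJ2_L.sQ

theorem MJ2_loc (hN : MNormS) (hLQ : OLQ) (k : Type) [Field k] [IsAlgClosed k] (p : ℕ)
    [Fact p.Prime] [CharP k p] (G : Type) [Group G] [Finite G] (P' D H : Subgroup G) (hDH : D ≤ H)
    (c : G) (hc : c ∈ D) (n : ℕ) (ζ : k) (m : ℕ) (ψ : LaurentSeries k →+* KWp k) (hm : 0 < m)
    (hψ : PSp k m ψ) (hco : Nat.Coprime m (Nat.card D)) (h1 : IsPGroup p P')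
    (h2 : ∀ x ∈ P', c * x * c⁻¹ ∈ P') (h3 : D = P' ⊔ Subgroup.zpowers c) (h4 : orderOf c = n)
    (h5 : ¬ p ∣ n) (h6 : IsPrimitiveRoot ζ n) (h7 : Rel k H (D.subgroupOf H)) :
    Nonempty (MJ2_L k m P' D H hDH c hc n ζ) := by
  obtain ⟨B, _, _, _, E, _, _, _, ι, t, hB, hBd, hE, hEd, hι, hιa, ht, htP, htc⟩ :=
    hN k p G P' D H hDH c hc n ζ h1 h2 h3 h4 h5 h6 h7
  obtain ⟨L, _, _, _, Q, _, _, _, lE, lQ, hL, hQ, hQd, hlE, hlEa, hlQ, hlQa⟩ :=
    hLQ k m ψ D E hm hψ hco hE hEd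
  refine ⟨{ L := L, Q := Q, t := lE t, lQ := lQ, gL := hL, gQ := hQ, dQ := hQd, lQ_alg := hlQ,
            lQ_act := hlQa, t_pow := ?_, t_P := ?_, t_c := ?_,
            inner := { B := B, gal := hB, dom := hBd, ι := (lQ.comp lE).comp ι,
                       ι_alg := ?_, ι_act := ?_ } }⟩
  · intro f
    rw [RingHom.comp_apply, RingHom.comp_apply, hι, hlE, hlQ, hψ.p, hψ.w]
  · intro g b
    rw [RingHom.comp_apply, RingHom.comp_apply, RingHom.comp_apply, RingHom.comp_apply, hιa, hlEa,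
      hlQa]
  · rw [← map_pow, ht, hlE, hψ.p]
  · intro g hg
    rw [← hlEa, htP g hg]
  · rw [← hlEa, htc, map_mul, hlE, hψ.c]

theorem MJ2_gen {G : Type} [Group G] [Finite G] (P' D : Subgroup G) (c : G) (hc : c ∈ D)
    (hD : D = P' ⊔ Subgroup.zpowers c) (R : D → Prop) (h1 : R 1)
    (hmul : ∀ a b, R a → R b → R (a * b)) (hP : ∀ d : D, (d : G) ∈ P' → R d)
    (hcR : R ⟨c, hc⟩) : ∀ d, R d := by
  let S : Submonoid D :=
    { carrier := {d | R d}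
      mul_mem' := fun {a b} ha hb => hmul a b ha hb
      one_mem' := h1 }
  let T : Subgroup D :=
    { S with
      inv_mem' := by
        intro x hx
        have h2 : x⁻¹ ∈ Submonoid.powers x :=
          mem_powers_iff_mem_zpowers.2 (inv_mem (Subgroup.mem_zpowers x))
        exact (Submonoid.powers_le.2 (show x ∈ S from hx)) h2 }
  have hT : ∀ d : D, d ∈ T → R d := fun d hd => hd
  have h3 : D ≤ T.map D.subtype := by
    refine hD.le.trans (sup_le ?_ ?_)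
    · intro x hx
      have hxD : x ∈ D := by
        rw [hD]
        exact (le_sup_left : P' ≤ P' ⊔ Subgroup.zpowers c) hx
      exact ⟨⟨x, hxD⟩, hP ⟨x, hxD⟩ hx, rfl⟩
    · rw [Subgroup.zpowers_le]
      exact ⟨⟨c, hc⟩, hcR, rfl⟩
  intro d
  obtain ⟨e, he, hed⟩ := h3 d.2
  have : e = d := Subtype.ext hed
  rw [← this]
  exact hT e he

theorem MJ2_eig {G : Type} [Group G] [Finite G] (P' D : Subgroup G) (c : G) (hc : c ∈ D)
    (hD : D = P' ⊔ Subgroup.zpowers c) {S L : Type} [CommRing S] [CommRing L] [Algebra S L]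
    [MulSemiringAction D L] (hfix : ∀ (d : D) (x : S), d • algebraMap S L x = algebraMap S L x)
    (n : ℕ) [NeZero n] (u : S) (hu : u ^ n = 1) (t : L) (qi : D →* Multiplicative (ZMod n))
    (hP : ∀ d : D, (d : G) ∈ P' → d • t = t) (hqP : ∀ d : D, (d : G) ∈ P' → qi d = 1)
    (hct : (⟨c, hc⟩ : D) • t = algebraMap S L u * t)
    (hqc : qi ⟨c, hc⟩ = Multiplicative.ofAdd 1) (d : D) :
    d • t = algebraMap S L (u ^ (Multiplicative.toAdd (qi d)).val) * t := by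
  refine MJ2_gen P' D c hc hD
    (fun d => d • t = algebraMap S L (u ^ (Multiplicative.toAdd (qi d)).val) * t) ?_ ?_ ?_ ?_ d
  · rw [one_smul, map_one, toAdd_one, ZMod.val_zero, pow_zero, map_one, one_mul]
  · intro a b ha hb
    rw [mul_smul, hb, smul_mul', hfix, ha, map_mul, toAdd_mul, ZMod.val_add, ← pow_eq_pow_mod _ hu,
      pow_add, map_mul]
    ring
  · intro a ha
    rw [hP a ha, hqP a ha, toAdd_one, ZMod.val_zero, pow_zero, map_one, one_mul]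
  · rw [hct, hqc, toAdd_ofAdd, ZMod.val_one_eq_one_mod, ← pow_eq_pow_mod _ hu, pow_one]

theorem MJ2_card (n : Fin 2 → ℕ) [∀ i, NeZero (n i)] (p : ℕ) [hp : Fact p.Prime]
    (h : ∀ i, ¬ p ∣ n i) : ¬ p ∣ Nat.card (CT n) := by
  have h1 : Nat.card (CT n) = n 0 * n 1 := by
    rw [Nat.card_pi, Fin.prod_univ_two]
    have h2 : ∀ i, Nat.card (Multiplicative (ZMod (n i))) = n i := fun i =>
      (Nat.card_congr Multiplicative.toAdd).trans (Nat.card_zmod (n i))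
    rw [h2, h2]
  rw [h1, hp.out.dvd_mul]
  rintro (h2 | h2)
  · exact h 0 h2
  · exact h 1 h2

theorem prf_MJ2 (hMPT : MPT) (hMDes : MDes) (hMTDom : MTDom) (hMNormS : MNormS) (hOTor : OTor)
    (hOInf : OInf) (hORB : ORB) (hOPsp : OPsp) (hOLQ : OLQ) (hOKum : OKum) (hOSub : OSub)
    (hMGrp : MGrp) (hQDiscs : QDiscs) (hQDF : QDF) : MJ2 := by
  intro k _ _ p hp _ G _ _ P c P' H hP hpn hcomm hint hcP hPP hcP' hDH hRel htop
  -- numbers
  obtain ⟨n, hn⟩ : ∃ n : Fin 2 → ℕ, ∀ i, orderOf (c i) = n i := ⟨_, fun _ => rfl⟩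
  have hpn' : ∀ i, ¬ p ∣ n i := fun i => hn i ▸ hpn i
  have hn0 : ∀ i, 0 < n i := fun i => hn i ▸ orderOf_pos (c i)
  have hnz : ∀ i, NeZero (n i) := fun i => ⟨(hn0 i).ne'⟩
  obtain ⟨N, hN⟩ : ∃ N, N = Nat.lcm (n 0) (n 1) := ⟨_, rfl⟩
  have hN0 : 0 < N := by rw [hN]; exact Nat.lcm_pos (hn0 0) (hn0 1)
  have hpN : ¬ p ∣ N := by
    intro h
    rw [hN] at h
    have h1 : p ∣ n 0 * n 1 := h.trans (Nat.lcm_dvd_mul (n 0) (n 1))
    rcases hp.out.dvd_mul.1 h1 with h2 | h2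
    · exact hpn' 0 h2
    · exact hpn' 1 h2
  have hnN : ∀ i, n i ∣ N := by
    rw [hN, Fin.forall_fin_two]
    exact ⟨Nat.dvd_lcm_left _ _, Nat.dvd_lcm_right _ _⟩
  have hGpos : 0 < Nat.card G := Nat.card_pos
  obtain ⟨m, hm⟩ : ∃ m, m + 1 = 2 * Nat.card G := ⟨2 * Nat.card G - 1, by omega⟩
  have hm0 : 0 < m := by omega
  have hnm : ∀ i, n i ∣ m + 1 := fun i => by
    rw [hm]
    exact Dvd.dvd.mul_left (hn i ▸ orderOf_dvd_natCard (c i)) 2
  have hco : ∀ D : Subgroup G, Nat.Coprime m (Nat.card D) := fun D => by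
    have h1 : Nat.Coprime m (m + 1) := by simp
    refine h1.coprime_dvd_right ?_
    rw [hm]
    exact Dvd.dvd.mul_left (Subgroup.card_subgroup_dvd_card D) 2
  have hNk : (N : k) ≠ 0 := fun h => hpN ((CharP.cast_eq_zero_iff k p N).1 h)
  have : NeZero (N : k) := ⟨hNk⟩
  have : NeZero N := ⟨hN0.ne'⟩
  obtain ⟨ζ, hζ⟩ : ∃ ζ : k, IsPrimitiveRoot ζ N := HasEnoughRootsOfUnity.exists_primitiveRoot k N
  have hζi : ∀ i, IsPrimitiveRoot (ζ ^ (N / n i)) (n i) := fun i =>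
    hζ.pow hN0 (Nat.div_mul_cancel (hnN i)).symm
  have hζC : IsPrimitiveRoot (HahnSeries.C ζ : LaurentSeries k) N :=
    hζ.map_of_injective (f := (HahnSeries.C : k →+* LaurentSeries k)) HahnSeries.C_injective
  -- the base
  obtain ⟨W, a, η, hd⟩ := hQDiscs k 2
  obtain ⟨hDK, _, _⟩ := hQDF k 2 W a η hd
  obtain ⟨b, hb⟩ := hORB k 2 W a η hd (by norm_num)
  obtain ⟨σ, rot, hσ, hrot⟩ := hOSub (LaurentSeries k) N (HahnSeries.C ζ) hN0
    (hζC.ne_zero hN0.ne')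
  obtain ⟨A0, _, _, _, jI, hTD, hjσ, hjrot, hloc⟩ :=
    hOKum k p W a η hd b hb m N n ζ σ rot hn0 hpn' hnm hN hζ hσ hrot
  -- the groups
  obtain ⟨Γ, q, hΓ, hqs, hqP, hqc, hqG, hoG, hoC⟩ := hMGrp p G P c n hP hn hpn' hcomm hint hcP
  rw [← hN] at hoG hoC
  obtain ⟨D, hD⟩ : ∃ D : Fin 2 → Subgroup G, ∀ i, D i = P' i ⊔ Subgroup.zpowers (c i) :=
    ⟨_, fun _ => rfl⟩
  have hDH' : ∀ i, D i ≤ H i := fun i => by rw [hD]; exact hDH i
  have hRel' : ∀ i, Rel k (H i) ((D i).subgroupOf (H i)) := fun i => by rw [hD]; exact hRel i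
  obtain ⟨G₀, hG₀⟩ : ∃ G₀ : Subgroup G, G₀ = P ⊔ Subgroup.zpowers (c 0 * c 1) := ⟨_, rfl⟩
  rw [← hG₀]
  simp only [← hG₀] at hqG
  have hPΓ : P ≤ Γ := by rw [hΓ, sup_assoc]; exact le_sup_left
  have hcΓ : ∀ i, c i ∈ Γ := by
    rw [Fin.forall_fin_two, hΓ]
    exact ⟨(le_sup_right.trans le_sup_left :
        Subgroup.zpowers (c 0) ≤ P ⊔ Subgroup.zpowers (c 0) ⊔ Subgroup.zpowers (c 1))
        (Subgroup.mem_zpowers _),
      (le_sup_right :
        Subgroup.zpowers (c 1) ≤ P ⊔ Subgroup.zpowers (c 0) ⊔ Subgroup.zpowers (c 1))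
        (Subgroup.mem_zpowers _)⟩
  have hPD : ∀ i, P' i ≤ D i := fun i => by rw [hD]; exact le_sup_left
  have hcD : ∀ i, c i ∈ D i := fun i => by
    rw [hD]
    exact (le_sup_right : Subgroup.zpowers (c i) ≤ P' i ⊔ Subgroup.zpowers (c i))
      (Subgroup.mem_zpowers _)
  have hDΓ : ∀ i, D i ≤ Γ := fun i => by
    rw [hD]
    exact sup_le ((hPP i).trans hPΓ) ((Subgroup.zpowers_le).2 (hcΓ i))
  have hPG₀ : P ≤ G₀ := by rw [hG₀]; exact le_sup_left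
  have hcG₀ : c 0 * c 1 ∈ G₀ := by
    rw [hG₀]
    exact (le_sup_right : Subgroup.zpowers (c 0 * c 1) ≤ P ⊔ Subgroup.zpowers (c 0 * c 1))
      (Subgroup.mem_zpowers _)
  have h0 : G₀ ≤ Γ := by
    rw [hG₀]
    exact sup_le hPΓ ((Subgroup.zpowers_le).2 (mul_mem (hcΓ 0) (hcΓ 1)))
  have hcard : ¬ p ∣ Nat.card (CT n) := MJ2_card n p hpn'
  have hker : IsPGroup p q.ker := by
    have h1 : q.ker = P.comap Γ.subtype := by
      ext x
      rw [MonoidHom.mem_ker, hqP, Subgroup.mem_comap, Subgroup.subtype_apply]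
    rw [h1]
    exact hP.comap_of_injective Γ.subtype Subtype.val_injective
  -- the local data
  obtain ⟨ψ, hψ⟩ := hOPsp k m hm0
  obtain ⟨X⟩ : Nonempty (∀ i, MJ2_L k m (P' i) (D i) (H i) (hDH' i) (c i) (hcD i) (n i)
      (ζ ^ (N / n i))) := ⟨fun i => (MJ2_loc hMNormS hOLQ k p G (P' i) (D i) (H i) (hDH' i) (c i)
        (hcD i) (n i) (ζ ^ (N / n i)) m ψ hm0 hψ (hco (D i)) (hP.to_le (hPP i)) (hcP' i) (hD i)
        (hn i) (hpn' i) (hζi i) (hRel' i)).some⟩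
  have hq1 : ∀ i (d : D i), (d : G) ∈ P' i → q (Subgroup.inclusion (hDΓ i) d) = 1 := fun i d hd =>
    (hqP _).2 (hPP i hd)
  have hqc' : ∀ i, q (Subgroup.inclusion (hDΓ i) ⟨c i, hcD i⟩) = cT n i := fun i =>
    hqc i (hcΓ i)
  have hqj : ∀ i (d : D i) (j : Fin 2), j ≠ i →
      (q.comp (Subgroup.inclusion (hDΓ i))) d j = 1 := by
    intro i
    refine MJ2_gen (P' i) (D i) (c i) (hcD i) (hD i)
      (fun d => ∀ j : Fin 2, j ≠ i → (q.comp (Subgroup.inclusion (hDΓ i))) d j = 1) ?_ ?_ ?_ ?_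
    · intro j _
      rw [map_one, Pi.one_apply]
    · intro x y hx hy j hj
      rw [map_mul, Pi.mul_apply, hx j hj, hy j hj, one_mul]
    · intro d hd j _
      rw [MonoidHom.comp_apply, hq1 i d hd, Pi.one_apply]
    · intro j hj
      rw [MonoidHom.comp_apply, hqc' i]
      exact Pi.mulSingle_eq_of_ne hj _
  have hloc' : ∀ i, ∃ ψ0 : A0 →+* (X i).L,
      (∀ x : b.R, ψ0 (algebraMap b.R A0 x) = algebraMap (KWp k) (X i).L (b.ρ i x)) ∧
      ∀ (d : D i) (x : A0), ψ0 (q (Subgroup.inclusion (hDΓ i) d) • x) = d • ψ0 x := by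
    intro i
    refine hloc i (D i) (X i).L (q.comp (Subgroup.inclusion (hDΓ i))) (X i).t (X i).gL.comm
      (X i).t_pow (hqj i) ?_
    intro d
    have h1 := MJ2_eig (P' i) (D i) (c i) (hcD i) (hD i) (X i).gL.comm (n i)
      (HahnSeries.C (LaurentPolynomial.C (ζ ^ (N / n i))))
      (by rw [← map_pow, ← map_pow, (hζi i).pow_eq_one, map_one, map_one]) (X i).t
      ((Pi.evalMonoidHom (fun i => Multiplicative (ZMod (n i))) i).comp
        (q.comp (Subgroup.inclusion (hDΓ i)))) (X i).t_P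
      (fun d hd => by
        rw [MonoidHom.comp_apply, MonoidHom.comp_apply, hq1 i d hd, map_one])
      (X i).t_c
      (by
        rw [MonoidHom.comp_apply, MonoidHom.comp_apply, hqc' i]
        exact Pi.mulSingle_eq_same i _) d
    rw [h1, ← map_pow, ← map_pow, ← pow_mul]
    rfl
  choose ψ0 hψ0 hψ0a using hloc'
  -- the torsor
  have : CharP (LaurentSeries k) p :=
    charP_of_injective_ringHom (HahnSeries.C_injective : Function.Injective
      (HahnSeries.C : k →+* LaurentSeries k)) p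
  obtain ⟨A, _, _, _, e, ψ', hA, heR, heA, hψ'e, hψ'a, hTRA⟩ := hOTor k p 2 b.R b.ρ _ _ (CT n) A0
    (LaurentSeries k) _ _ jI hcard hTD Γ q hqs hker (fun i => D i)
    (fun i => Subgroup.inclusion (hDΓ i)) (fun i => (X i).L) ψ0 (fun i => (X i).gL) hψ0 hψ0a
  -- infinity
  have hrange : (Subgroup.inclusion h0).range =
      (Subgroup.zpowers (cT n 0 * cT n 1)).comap q := by
    ext x
    rw [Subgroup.mem_comap, hqG]
    constructor
    · rintro ⟨y, rfl⟩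
      exact y.2
    · intro hx
      exact ⟨⟨x, hx⟩, rfl⟩
  have hqc₀ : q (Subgroup.inclusion h0 ⟨c 0 * c 1, hcG₀⟩) = cT n 0 * cT n 1 := by
    rw [← hqc 0 (hcΓ 0), ← hqc 1 (hcΓ 1), ← map_mul]
    rfl
  obtain ⟨E, _, _, _, j, τ, hE, hjR, hjA, hTTR⟩ := hOInf p (LaurentSeries k) b.R b.ρI (CT n) A0 jI
    (cT n 0 * cT n 1) N (HahnSeries.C ζ) σ rot hTD.char hcard hTD.gal hoC hζC hσ hrot hjσ hjrot
    Γ q A e hqs hker hA heR heA hTRA G₀ (Subgroup.inclusion h0)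
    (q.ker.comap (Subgroup.inclusion h0)) ⟨c 0 * c 1, hcG₀⟩ (Subgroup.inclusion_injective h0)
    hrange rfl hqc₀
  have hP₀ : IsPGroup p (q.ker.comap (Subgroup.inclusion h0)) :=
    hker.comap_of_injective _ (Subgroup.inclusion_injective h0)
  have hnorm₀ : (q.ker.comap (Subgroup.inclusion h0)).Normal := inferInstance
  have htop₀ : q.ker.comap (Subgroup.inclusion h0) ⊔
      Subgroup.zpowers (⟨c 0 * c 1, hcG₀⟩ : G₀) = ⊤ := by
    rw [eq_top_iff]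
    intro x _
    have h1 : q (Subgroup.inclusion h0 x) ∈ Subgroup.zpowers (cT n 0 * cT n 1) :=
      (hqG _).2 x.2
    obtain ⟨z, hz⟩ := Subgroup.mem_zpowers_iff.1 h1
    have h2 : x * ((⟨c 0 * c 1, hcG₀⟩ : G₀) ^ z)⁻¹ ∈ q.ker.comap (Subgroup.inclusion h0) := by
      rw [Subgroup.mem_comap, MonoidHom.mem_ker, map_mul, map_inv, map_zpow, map_mul, map_inv,
        map_zpow, hqc₀, hz, mul_inv_cancel]
    have h3 := Subgroup.mul_mem_sup h2 (zpow_mem (Subgroup.mem_zpowers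
      (⟨c 0 * c 1, hcG₀⟩ : G₀)) z)
    rwa [inv_mul_cancel_right] at h3
  have hord₀ : orderOf (⟨c 0 * c 1, hcG₀⟩ : G₀) = N := by
    rw [← hoG]
    exact (Subgroup.orderOf_coe (⟨c 0 * c 1, hcG₀⟩ : G₀)).symm
  have hEd : IsDomain E := hMTDom (LaurentSeries k) p N (HahnSeries.C ζ) G₀ _ _ hnorm₀ hP₀ htop₀
    hord₀ hpN hζC E τ hE hTTR
  -- patching
  let O : OuterR k b Γ (fun i => D i) (fun i => Subgroup.inclusion (hDΓ i)) (fun i => (X i).Q) :=
    { A := A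
      gal := hA
      a := fun i => (X i).lQ.comp (ψ' i)
      a_alg := by
        intro i r
        rw [RingHom.comp_apply, ← heR, hψ'e, hψ0, (X i).lQ_alg]
      a_act := by
        intro i g x
        rw [RingHom.comp_apply, RingHom.comp_apply, hψ'a, (X i).lQ_act] }
  have hnΓ : ∀ g ∈ Γ, ∀ x ∈ P, g * x * g⁻¹ ∈ P := by
    intro g hg x hx
    have h1 : q (⟨g, hg⟩ * ⟨x, hPΓ hx⟩ * ⟨g, hg⟩⁻¹) = 1 := by
      have h2 : q ⟨x, hPΓ hx⟩ = 1 := (hqP _).2 hx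
      rw [map_mul, map_mul, map_inv, h2, mul_one, mul_inv_cancel]
    exact (hqP _).1 h1
  have hcΓ' : ∀ g ∈ Γ, ∀ h ∈ Γ, g * h * g⁻¹ * h⁻¹ ∈ P := by
    intro g hg h hh
    have h1 : q (⟨g, hg⟩ * ⟨h, hh⟩ * ⟨g, hg⟩⁻¹ * ⟨h, hh⟩⁻¹) = 1 := by
      rw [map_mul, map_mul, map_mul, map_inv, map_inv, mul_comm (q ⟨g, hg⟩) (q ⟨h, hh⟩),
        mul_inv_cancel_right, mul_inv_cancel]
    exact (hqP _).1 h1
  have hs1 : G₀ ⊔ (⨆ i, D i) = Γ := by
    apply le_antisymm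
    · exact sup_le h0 (iSup_le hDΓ)
    · rw [hΓ]
      have h1 : ∀ i, Subgroup.zpowers (c i) ≤ ⨆ i, D i := fun i =>
        (Subgroup.zpowers_le.2 (hcD i)).trans (le_iSup D i)
      exact sup_le (sup_le (hPG₀.trans le_sup_left) ((h1 0).trans le_sup_right))
        ((h1 1).trans le_sup_right)
  have hs2 : Γ ⊔ (⨆ i, H i) = ⊤ := by
    rw [eq_top_iff, ← htop]
    exact sup_le (sup_le (hPΓ.trans le_sup_left) ((le_iSup H 0).trans le_sup_right))
      ((le_iSup H 1).trans le_sup_right)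
  obtain ⟨B, _, _, _, ι, hB, hBd, hι, hιa⟩ := hMPT k m 2 (VT k W) (fun i => WF k (η i)) b G Γ P G₀
    D H hDΓ hDH' h0 (fun i => (X i).Q) O (fun i => (X i).inner) E j hm0 (by norm_num) hDK
    (fun i => (X i).gQ) (fun i => (X i).dQ) hPG₀ hnΓ hcΓ' hs1 hs2 hE hEd hjR hjA
  let _ : Algebra k (LaurentSeries k) := (HahnSeries.C : k →+* LaurentSeries k).toAlgebra
  exact hMDes k p (LaurentSeries k) N ζ G G₀ _ _ hnorm₀ hP₀ htop₀ hord₀ hpN hζ B E ι τ hB hBd hE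
    hι hιa hTTR

end MP7b0bad.MT
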