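import Pool.Agent.Work.MP_7b0bad_ag.MT.TStmts
import Pool.Agent.Work.MP_7b0bad_ag.SV.JAll

set_option autoImplicit false

/-!
# MNorm: the tame generator acts by a given root of unity
-/

namespace MP7b0bad.MT

open Polynomial

/-- the character of `D / P` with a given value at `c` -/
theorem MNorm_chi {p : ℕ} (hp : p.Prime) {D M : Type} [Group D] [Finite D] [CommGroup M]
    (P : Subgroup D) (hPn : P.Normal) (hPp : IsPGroup p P) (c : D)
    (hPc : P ⊔ Subgroup.zpowers c = ⊤) (hpn : ¬ p ∣ orderOf c) (z : M)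
    (hz : orderOf z = orderOf c) : ∃ χ : D →* M, (∀ g ∈ P, χ g = 1) ∧ χ c = z := by
  have hgen : ∀ x : D ⧸ P, x ∈ Subgroup.zpowers (QuotientGroup.mk' P c) := by
    intro x
    obtain ⟨d, rfl⟩ := QuotientGroup.mk'_surjective P x
    have hd : QuotientGroup.mk' P d ∈ (P ⊔ Subgroup.zpowers c).map (QuotientGroup.mk' P) := by
      rw [hPc]
      exact Subgroup.mem_map_of_mem _ (Subgroup.mem_top d)
    rw [Subgroup.map_sup, QuotientGroup.map_mk'_self, bot_sup_eq, MonoidHom.map_zpowers] at hd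
    exact hd
  have hord : orderOf z ∣ orderOf (QuotientGroup.mk' P c) := by
    rw [hz]
    apply orderOf_dvd_of_pow_eq_one
    have h1 : QuotientGroup.mk' P (c ^ orderOf (QuotientGroup.mk' P c)) = 1 := by
      rw [map_pow, pow_orderOf_eq_one]
    have h2 : c ^ orderOf (QuotientGroup.mk' P c) ∈ P := by
      rwa [← QuotientGroup.eq_one_iff]
    obtain ⟨m, hm⟩ := hPp ⟨_, h2⟩
    have h3 : (c ^ orderOf (QuotientGroup.mk' P c)) ^ p ^ m = 1 := by
      have := congrArg Subtype.val hm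
      simpa using this
    have h4 : (c ^ orderOf (QuotientGroup.mk' P c)) ^ orderOf c = 1 := by
      rw [← pow_mul, mul_comm, pow_mul, pow_orderOf_eq_one, one_pow]
    have h5 : Nat.Coprime (p ^ m) (orderOf c) :=
      Nat.Coprime.pow_left m ((Nat.Prime.coprime_iff_not_dvd hp).2 hpn)
    have h6 := Nat.dvd_gcd (orderOf_dvd_of_pow_eq_one h3) (orderOf_dvd_of_pow_eq_one h4)
    rw [h5, Nat.dvd_one] at h6
    exact orderOf_eq_one_iff.1 h6
  refine ⟨(monoidHomOfForallMemZpowers hgen hord).comp (QuotientGroup.mk' P), fun g hg => ?_, ?_⟩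
  · rw [MonoidHom.comp_apply]
    have h1 : QuotientGroup.mk' P g = 1 := (QuotientGroup.eq_one_iff g).2 hg
    rw [h1, map_one]
  · rw [MonoidHom.comp_apply]
    exact monoidHomOfForallMemZpowers_apply_gen hgen hord

/-- nontrivial elements of the group move something -/
theorem MNorm_move {R D E : Type} [CommRing R] [Group D] [CommRing E] [Nontrivial E] [Algebra R E]
    [MulSemiringAction D E] (hE : GalAlg R D E) (g : D) (hg : g ≠ 1) : ∃ x : E, g • x ≠ x := by
  by_contra hcon
  push Not at hcon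
  have h1 := hE.unr g hg
  have h2 : {x : E | ∃ b : E, x = b - g • b} ⊆ {0} := by
    rintro x ⟨b, rfl⟩
    rw [hcon b, sub_self]
    rfl
  have h3 := Ideal.span_mono h2
  rw [h1] at h3
  have h4 : (1 : E) ∈ Ideal.span ({0} : Set E) := h3 Submodule.mem_top
  rw [Ideal.mem_span_singleton, zero_dvd_iff] at h4
  exact one_ne_zero h4

/-- eigenvectors for a character -/
theorem MNorm_eig {k D E : Type} [Field k] [Group D] [Finite D] [Field E]
    [Algebra (LaurentSeries k) E] [MulSemiringAction D E] (hE : GalAlg (LaurentSeries k) D E)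
    (χ : D →* kˣ) : ∃ t : E, t ≠ 0 ∧
      ∀ d : D, d • t = algebraMap (LaurentSeries k) E (HahnSeries.C ((χ d : kˣ) : k)) * t := by
  let i : k →+* E := (algebraMap (LaurentSeries k) E).comp HahnSeries.C
  obtain ⟨a, ha⟩ := all_YH90 D E (MNorm_move hE) (fun d => Units.map (i : k →* E) (χ d)) (by
    intro g h
    show i ((χ (g * h) : kˣ) : k) = i ((χ g : kˣ) : k) * g • i ((χ h : kˣ) : k)
    have h1 : g • i ((χ h : kˣ) : k) = i ((χ h : kˣ) : k) := hE.comm g _
    rw [h1, map_mul, Units.val_mul, map_mul])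
  exact ⟨a, a.ne_zero, ha⟩

/-- the order of the `n`-th power of the eigenvector is prime to `n` -/
theorem MNorm_cop {k D E : Type} [Field k] [IsAlgClosed k] (p : ℕ) [Fact p.Prime] [CharP k p]
    [Group D] [Field E] [Algebra (LaurentSeries k) E] [MulSemiringAction D E]
    (hE : GalAlg (LaurentSeries k) D E) (c : D) (n : ℕ) (hn : 0 < n) (hpn : ¬ p ∣ n) (ζ : k)
    (hζ : IsPrimitiveRoot ζ n) (t : E) (ht : t ≠ 0)
    (hct : c • t = algebraMap (LaurentSeries k) E (HahnSeries.C ζ) * t) (a : LaurentSeries k)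
    (ha : algebraMap (LaurentSeries k) E a = t ^ n) : IsCoprime a.order (n : ℤ) := by
  rw [Int.isCoprime_iff_gcd_eq_one]
  obtain ⟨g, hg⟩ : ∃ g : ℕ, g = Int.gcd a.order n := ⟨_, rfl⟩
  rw [← hg]
  have hgn : g ∣ n := by
    have : (g : ℤ) ∣ (n : ℤ) := by rw [hg]; exact Int.gcd_dvd_right _ _
    exact_mod_cast this
  have hgo : (g : ℤ) ∣ a.order := by rw [hg]; exact Int.gcd_dvd_left _ _
  have hgk : (g : k) ≠ 0 := by
    rw [Ne, CharP.cast_eq_zero_iff k p]
    exact fun h => hpn (h.trans hgn)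
  have ha0 : a ≠ 0 := by
    rintro rfl
    rw [map_zero] at ha
    exact pow_ne_zero n ht ha.symm
  obtain ⟨b, hb⟩ := all_YRoot k g hgk a ha0 hgo
  obtain ⟨m, hm⟩ := hgn
  have hm0 : m ≠ 0 := by
    rintro rfl
    rw [mul_zero] at hm
    omega
  have hg0 : g ≠ 0 := by
    rintro rfl
    rw [zero_mul] at hm
    omega
  have hb0 : b ≠ 0 := by
    rintro rfl
    rw [zero_pow hg0] at hb
    exact ha0 hb.symm
  let i : k →+* E := (algebraMap (LaurentSeries k) E).comp HahnSeries.C
  have hω : IsPrimitiveRoot (i (ζ ^ m)) g :=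
    (hζ.pow hn (hm.trans (mul_comm _ _))).map_of_injective i.injective
  have hb0' : algebraMap (LaurentSeries k) E b ≠ 0 := (map_ne_zero_iff _ hE.inj).2 hb0
  have hx : (t ^ m / algebraMap (LaurentSeries k) E b) ^ g = 1 := by
    rw [div_pow, ← pow_mul, mul_comm m g, ← hm, ← ha, ← map_pow, hb, div_self]
    exact (map_ne_zero_iff _ hE.inj).2 ha0
  have : NeZero g := ⟨hg0⟩
  obtain ⟨j, -, hj⟩ := hω.eq_pow_of_pow_eq_one hx
  have h1 : t ^ m = i ((ζ ^ m) ^ j) * algebraMap (LaurentSeries k) E b := by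
    rw [map_pow, hj, div_mul_cancel₀ _ hb0']
  have h2 : c • t ^ m = t ^ m := by
    rw [h1, smul_mul', hE.comm]
    congr 1
    exact hE.comm c _
  have h3 : c • t ^ m = i (ζ ^ m) * t ^ m := by
    rw [smul_pow', hct, mul_pow, map_pow]
    rfl
  rw [h2] at h3
  have h4 : i (ζ ^ m) = 1 := by
    have h5 : t ^ m ≠ 0 := pow_ne_zero m ht
    have h6 : (i (ζ ^ m) - 1) * t ^ m = 0 := by rw [sub_mul, one_mul, ← h3, sub_self]
    rcases mul_eq_zero.1 h6 with h7 | h7
    · exact sub_eq_zero.1 h7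
    · exact absurd h7 h5
  have h5 : ζ ^ m = 1 := i.injective (by rw [h4, map_one])
  have h6 := (hζ.pow_eq_one_iff_dvd m).1 h5
  have h7 := Nat.le_of_dvd (Nat.pos_of_ne_zero hm0) h6
  have h8 : g * m ≤ 1 * m := by rw [← hm, one_mul]; exact h7
  have h9 := Nat.le_of_mul_le_mul_right h8 (Nat.pos_of_ne_zero hm0)
  omega

/-- `Y^q - X` is irreducible over the local extension -/
theorem MNorm_irr {k D E : Type} [Field k] [Group D] [Finite D] [Field E]
    [Algebra (LaurentSeries k) E] [MulSemiringAction D E] (hE : GalAlg (LaurentSeries k) D E)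
    (q : ℕ) (hq : q.Prime) (hqD : ¬ q ∣ Nat.card D) :
    Irreducible (X ^ q - C (algebraMap (LaurentSeries k) E (atInf k X)) : E[X]) := by
  classical
  have := Fintype.ofFinite D
  refine X_pow_sub_C_irreducible_of_prime hq fun b hb => hqD ?_
  obtain ⟨a, ha⟩ := hE.inv (∏ d : D, d • b) (fun g => by
    rw [Finset.smul_prod']
    refine Fintype.prod_bijective (fun x => g * x) (Group.mulLeft_bijective g) _ _ fun x => ?_
    rw [smul_smul])
  have h1 : a ^ q = atInf k X ^ Nat.card D := by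
    apply hE.inj
    rw [map_pow, ha, ← Finset.prod_pow, map_pow, Nat.card_eq_fintype_card,
      ← Finset.card_univ, ← Finset.prod_const]
    refine Finset.prod_congr rfl fun d _ => ?_
    rw [← smul_pow', hb, hE.comm]
  have hX : atInf k X = HahnSeries.single (-1 : ℤ) (1 : k) := by
    show eval₂RingHom _ _ X = _
    rw [coe_eval₂RingHom, eval₂_X]
  have h2 := congrArg HahnSeries.order h1
  rw [HahnSeries.order_pow, HahnSeries.order_pow, hX, HahnSeries.order_single one_ne_zero,
    nsmul_eq_mul, nsmul_eq_mul, mul_neg_one] at h2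
  have h3 : (q : ℤ) ∣ (Nat.card D : ℤ) := by
    rw [← dvd_neg, ← h2]
    exact dvd_mul_right _ _
  exact_mod_cast h3

/-- the base change by `X = u^q` is a domain -/
theorem MNorm_dom {k H B E : Type} [Field k] [Group H] [CommRing B] [IsDomain B]
    [Algebra k[X] B] [MulSemiringAction H B] [Field E] (ι : B →+* E)
    (hι : Function.Injective ι) (q : ℕ) (hq : q ≠ 0)
    (hirr : Irreducible (X ^ q - C (ι (algebraMap k[X] B X)) : E[X]))
    {B' : Type} [CommRing B'] [Algebra k[X] B'] (s : B →+* B')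
    (hs : ∀ a : k[X], s (algebraMap k[X] B a) = algebraMap k[X] B' (a.comp (X ^ q)))
    (huniv : ∀ (T : Type) [CommRing T] (f : B →+* T) (h : k[X] →+* T),
      (∀ a : k[X], f (algebraMap k[X] B a) = h (a.comp (X ^ q))) →
      ∃ F : B' →+* T, (∀ b : B, F (s b) = f b) ∧ ∀ a : k[X], F (algebraMap k[X] B' a) = h a)
    (hgen : ∀ z : B', ∃ (n : ℕ) (r : Fin n → k[X]) (b : Fin n → B),
      z = ∑ i, algebraMap k[X] B' (r i) * s (b i)) : IsDomain B' := by
  obtain ⟨P, hP⟩ : ∃ P : B[X], P = X ^ q - C (algebraMap k[X] B X) := ⟨_, rfl⟩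
  have hPm : P.Monic := by rw [hP]; exact monic_X_pow_sub_C _ hq
  have hPmap : P.map ι = X ^ q - C (ι (algebraMap k[X] B X)) := by
    rw [hP, Polynomial.map_sub, Polynomial.map_pow, map_X, map_C]
  have hprime : Prime P := by
    refine ⟨hPm.ne_zero, fun hu => ?_, fun a b hab => ?_⟩
    · have h1 := hu.map (mapRingHom ι)
      rw [coe_mapRingHom, hPmap] at h1
      exact hirr.not_isUnit h1
    · rw [← map_dvd_map ι hι hPm, Polynomial.map_mul] at hab
      rw [← map_dvd_map ι hι hPm, ← map_dvd_map ι hι hPm]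
      have h1 : Prime (P.map ι) := by rw [hPmap]; exact hirr.prime
      exact h1.dvd_or_dvd hab
  have hdom : IsDomain (AdjoinRoot P) := AdjoinRoot.isDomain_of_prime hprime
  have hroot : (AdjoinRoot.root P) ^ q = AdjoinRoot.of P (algebraMap k[X] B X) := by
    have h1 : AdjoinRoot.mk P (X ^ q - C (algebraMap k[X] B X)) = 0 :=
      AdjoinRoot.mk_eq_zero.mpr (by rw [hP])
    rw [map_sub, map_pow, AdjoinRoot.mk_X, AdjoinRoot.mk_C, sub_eq_zero] at h1
    exact h1
  let h : k[X] →+* AdjoinRoot P :=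
    eval₂RingHom (((AdjoinRoot.of P).comp (algebraMap k[X] B)).comp C) (AdjoinRoot.root P)
  have hhC : ∀ a, h (C a) = AdjoinRoot.of P (algebraMap k[X] B (C a)) := by
    intro a
    show eval₂ _ _ (C a) = _
    rw [eval₂_C]
    rfl
  have hhX : h X = AdjoinRoot.root P := by
    show eval₂ _ _ X = _
    rw [eval₂_X]
  have hcompat : ∀ a : k[X], AdjoinRoot.of P (algebraMap k[X] B a) = h (a.comp (X ^ q)) := by
    have h1 : (AdjoinRoot.of P).comp (algebraMap k[X] B) = h.comp (compRingHom (X ^ q)) := by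
      apply Polynomial.ringHom_ext
      · intro a
        rw [RingHom.comp_apply, RingHom.comp_apply, coe_compRingHom_apply, C_comp, hhC]
      · rw [RingHom.comp_apply, RingHom.comp_apply, coe_compRingHom_apply, X_comp, map_pow, hhX,
          hroot]
    intro a
    exact congrArg (fun f => f a) h1
  obtain ⟨F, hF1, hF2⟩ := huniv (AdjoinRoot P) (AdjoinRoot.of P) h hcompat
  let G : AdjoinRoot P →+* B' := AdjoinRoot.lift s (algebraMap k[X] B' X) (by
    rw [hP, eval₂_sub, eval₂_pow, eval₂_X, eval₂_C, hs, X_comp, map_pow, sub_self])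
  have hG1 : ∀ b, G (AdjoinRoot.of P b) = s b := fun b => AdjoinRoot.lift_of _
  have hG2 : G (AdjoinRoot.root P) = algebraMap k[X] B' X := AdjoinRoot.lift_root _
  have hG3 : ∀ a, G (h a) = algebraMap k[X] B' a := by
    have h1 : G.comp h = algebraMap k[X] B' := by
      apply Polynomial.ringHom_ext
      · intro a
        rw [RingHom.comp_apply, hhC, hG1, hs, C_comp]
      · rw [RingHom.comp_apply, hhX, hG2]
    intro a
    exact congrArg (fun f => f a) h1
  have hGF : ∀ z, G (F z) = z := by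
    intro z
    obtain ⟨m, r, b, rfl⟩ := hgen z
    rw [map_sum, map_sum]
    refine Finset.sum_congr rfl fun l _ => ?_
    rw [map_mul, map_mul, hF1, hF2, hG1, hG3]
  exact Function.Injective.isDomain F (Function.LeftInverse.injective hGF)

/-- a homomorphism from a connected Galois algebra is injective if it is on the base -/
theorem MNorm_inj {R H B E : Type} [CommRing R] [Group H] [Finite H] [CommRing B] [IsDomain B]
    [Algebra R B] [MulSemiringAction H B] [CommRing E] (hG : GalAlg R H B) (ι : B →+* E)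
    (h0 : ∀ a : R, ι (algebraMap R B a) = 0 → a = 0) : Function.Injective ι := by
  classical
  have := Fintype.ofFinite H
  rw [injective_iff_map_eq_zero]
  intro b hb
  obtain ⟨a, ha⟩ := hG.inv (∏ g : H, g • b) (fun g => by
    rw [Finset.smul_prod']
    refine Fintype.prod_bijective (fun x => g * x) (Group.mulLeft_bijective g) _ _ fun x => ?_
    rw [smul_smul])
  have h1 : ι (algebraMap R B a) = 0 := by
    rw [ha, ← Finset.mul_prod_erase Finset.univ _ (Finset.mem_univ (1 : H)), one_smul, map_mul,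
      hb, zero_mul]
  rw [h0 a h1, map_zero] at ha
  obtain ⟨g, -, hg⟩ := Finset.prod_eq_zero_iff.1 ha.symm
  have h2 := congrArg (fun x => g⁻¹ • x) hg
  simpa using h2

theorem MNorm_main {k : Type} [Field k] [IsAlgClosed k] (p : ℕ) [Fact p.Prime] [CharP k p]
    {H : Type} [Group H] [Finite H] (D : Subgroup H) (P : Subgroup D) (c : D) (ζ : k)
    (hPn : P.Normal) (hPp : IsPGroup p P) (hPc : P ⊔ Subgroup.zpowers c = ⊤)
    (hpn : ¬ p ∣ orderOf c) (hζ : IsPrimitiveRoot ζ (orderOf c))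
    (B : Type) [CommRing B] [Algebra k[X] B] [MulSemiringAction H B]
    (E : Type) [Field E] [Algebra (LaurentSeries k) E] [MulSemiringAction D E] (ι : B →+* E)
    (hB : GalAlg k[X] H B) (hdB : IsDomain B) (hE : GalAlg (LaurentSeries k) D E)
    (hι : ∀ f : k[X], ι (algebraMap k[X] B f) = algebraMap (LaurentSeries k) E (atInf k f))
    (hιg : ∀ (g : D) (b : B), ι ((g : H) • b) = g • ι b) :
    ∃ (B : Type) (_ : CommRing B) (_ : Algebra k[X] B) (_ : MulSemiringAction H B)
      (E : Type) (_ : CommRing E) (_ : Algebra (LaurentSeries k) E) (_ : MulSemiringAction D E)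
      (ι : B →+* E) (t : E),
      GalAlg k[X] H B ∧ IsDomain B ∧ GalAlg (LaurentSeries k) D E ∧ IsDomain E ∧
      (∀ f : k[X], ι (algebraMap k[X] B f) = algebraMap (LaurentSeries k) E (atInf k f)) ∧
      (∀ (g : D) (b : B), ι ((g : H) • b) = g • ι b) ∧
      t ^ orderOf c = algebraMap (LaurentSeries k) E (atInf k X) ∧ (∀ g ∈ P, g • t = t) ∧
      c • t = algebraMap (LaurentSeries k) E (HahnSeries.C ζ) * t := by
  obtain ⟨n, hn⟩ : ∃ n, n = orderOf c := ⟨_, rfl⟩
  have hn0 : 0 < n := by rw [hn]; exact orderOf_pos c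
  have hpp : p.Prime := Fact.out
  have hζu : ζ ≠ 0 := hζ.ne_zero (by rw [← hn]; omega)
  obtain ⟨χ, hχP, hχc⟩ := MNorm_chi hpp P hPn hPp c hPc hpn (Units.mk0 ζ hζu) (by
    rw [← orderOf_units, Units.val_mk0, ← hζ.eq_orderOf])
  obtain ⟨t₀, ht₀, hact⟩ := MNorm_eig hE χ
  have hct : c • t₀ = algebraMap (LaurentSeries k) E (HahnSeries.C ζ) * t₀ := by
    rw [hact, hχc, Units.val_mk0]
  rw [← hn] at hζ hpn ⊢
  obtain ⟨a, ha⟩ := hE.inv (t₀ ^ n) (fun d => by
    rw [smul_pow', hact, mul_pow, ← map_pow, ← map_pow]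
    have h1 : ((χ d : kˣ) : k) ^ n = 1 := by
      have h2 : ∀ d : D, χ d ^ n = 1 := by
        intro d
        have hd : d ∈ P ⊔ Subgroup.zpowers c := by rw [hPc]; exact Subgroup.mem_top d
        have h3 : P ⊔ Subgroup.zpowers c ≤ ((powMonoidHom n).comp χ).ker := by
          refine sup_le (fun x hx => ?_) ?_
          · rw [MonoidHom.mem_ker, MonoidHom.comp_apply, hχP x hx, map_one]
          · rw [Subgroup.zpowers_le, MonoidHom.mem_ker, MonoidHom.comp_apply, powMonoidHom_apply,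
              ← map_pow, hn, pow_orderOf_eq_one, map_one]
        have h4 := h3 hd
        rwa [MonoidHom.mem_ker, MonoidHom.comp_apply, powMonoidHom_apply] at h4
      have h3 := congrArg Units.val (h2 d)
      simpa using h3
    rw [h1, map_one, map_one, one_mul])
  have ha0 : a ≠ 0 := by
    rintro rfl
    rw [map_zero] at ha
    exact pow_ne_zero n ht₀ ha.symm
  obtain ⟨x, y, hxy⟩ := MNorm_cop p hE c n hn0 hpn ζ hζ t₀ ht₀ hct a ha
  obtain ⟨m, hmD, hmp, hmx⟩ := Nat.forall_exists_prime_gt_and_zmodEq (Nat.card D) (q := n)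
    (a := -x) (by omega) (by
      refine ⟨-a.order, y, ?_⟩
      rw [neg_mul_neg, mul_comm, hxy])
  have hdvd : (n : ℤ) ∣ (m : ℤ) * a.order + 1 := by
    obtain ⟨w, hw⟩ := Int.modEq_iff_dvd.1 hmx
    refine ⟨y - w * a.order, ?_⟩
    have h2 : (m : ℤ) = -x - n * w := by linarith
    rw [h2]
    linear_combination (-1) * hxy
  have hmD' : ¬ m ∣ Nat.card D := fun h =>
    absurd (Nat.le_of_dvd Nat.card_pos h) (not_le.2 hmD)
  obtain ⟨ψ, hψ⟩ := prf_JSub k k (RingHom.id k) (X ^ m) (by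
    rw [natDegree_X_pow]; exact hmp.pos)
  have hψord : ∀ a : LaurentSeries k, a ≠ 0 → (ψ a).order = (m : ℤ) * a.order := by
    intro a ha
    rw [hψ.ord a ha, natDegree_X_pow]
  have hψX : ∀ f : k[X], ψ (atInf k f) = atInf k (f.comp (X ^ m)) := by
    intro f
    rw [hψ.p, Polynomial.map_id]
  obtain ⟨B', iB1, iB2, iB3, s, hB', hs, hsg, hsu, hsgen⟩ :=
    all_QBC k[X] k[X] (compRingHom (X ^ m)) H B hB
  obtain ⟨E', iE1, iE2, iE3, r, hE', hr, hrg, -, -⟩ :=
    all_QBC (LaurentSeries k) (LaurentSeries k) ψ D E hE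
  have hdE' : IsDomain E' := all_JDom k k (RingHom.id k) m ψ hmp.pos hψ.c hψord D E E' r hE
    inferInstance hE' ((Nat.Prime.coprime_iff_not_dvd hmp).2 hmD') hr hrg
  have hιinj : Function.Injective ι := by
    refine MNorm_inj hB ι fun f hf => ?_
    rw [hι] at hf
    have h1 : atInf k f = 0 := hE.inj (by rw [hf, map_zero])
    exact E7_atInf_inj k (by rw [h1, map_zero])
  have hdB' : IsDomain B' := MNorm_dom (H := H) ι hιinj m hmp.ne_zero
    (by rw [hι]; exact MNorm_irr hE m hmp hmD') s hs hsu hsgen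
  obtain ⟨ι', hι1, hι2⟩ := hsu E' (r.comp ι) ((algebraMap (LaurentSeries k) E').comp (atInf k)) (by
    intro f
    rw [RingHom.comp_apply, RingHom.comp_apply, hι, hr, hψX]
    rfl)
  have hψa : ψ a ≠ 0 := (map_ne_zero_iff _ ψ.injective).2 ha0
  have hX : atInf k X = HahnSeries.single (-1 : ℤ) (1 : k) := by
    show eval₂RingHom _ _ X = _
    rw [coe_eval₂RingHom, eval₂_X]
  have hX0 : atInf k X ≠ 0 := by
    rw [hX]
    exact HahnSeries.single_ne_zero one_ne_zero
  obtain ⟨y0, hy0⟩ := all_YRoot k n (by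
      rw [Ne, CharP.cast_eq_zero_iff k p]
      exact hpn) (atInf k X * ψ a ^ (n - 1)) (mul_ne_zero hX0 (pow_ne_zero _ hψa)) (by
      rw [HahnSeries.order_mul hX0 (pow_ne_zero _ hψa), HahnSeries.order_pow, hψord a ha0, hX,
        HahnSeries.order_single one_ne_zero, nsmul_eq_mul, Nat.cast_sub (by omega), Nat.cast_one]
      obtain ⟨w, hw⟩ := hdvd
      refine ⟨m * a.order - w, ?_⟩
      linear_combination (-1) * hw)
  refine ⟨B', iB1, iB2, iB3, E', iE1, iE2, iE3, ι',
    r t₀ * algebraMap (LaurentSeries k) E' (y0 * (ψ a)⁻¹), hB', hdB', hE', hdE', hι2, ?_, ?_, ?_, ?_⟩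
  · intro g b
    obtain ⟨l, u, v, rfl⟩ := hsgen b
    rw [Finset.smul_sum, map_sum, map_sum, Finset.smul_sum]
    refine Finset.sum_congr rfl fun j _ => ?_
    rw [smul_mul', map_mul, map_mul, hB'.comm, smul_mul', ← hsg, hι1, hι1, RingHom.comp_apply,
      RingHom.comp_apply, hιg, hrg, hι2, RingHom.comp_apply, hE'.comm]
  · rw [mul_pow, ← map_pow, ← ha, hr, ← map_pow, ← map_mul, mul_pow, hy0]
    congr 1
    have h1 : ψ a ^ n = ψ a ^ (n - 1) * ψ a := by
      rw [← pow_succ, Nat.sub_add_cancel hn0]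
    rw [inv_pow]
    have h2 : ψ a ^ n ≠ 0 := pow_ne_zero _ hψa
    calc ψ a * (atInf k X * ψ a ^ (n - 1) * (ψ a ^ n)⁻¹)
        = atInf k X * ((ψ a ^ (n - 1) * ψ a) * (ψ a ^ n)⁻¹) := by ring
      _ = atInf k X := by rw [← h1, mul_inv_cancel₀ h2, mul_one]
  · intro g hg
    rw [smul_mul', hE'.comm, ← hrg, hact, hχP g hg, Units.val_one, map_one, map_one, one_mul]
  · rw [smul_mul', hE'.comm, ← hrg, hct, map_mul, hr, hψ.c, RingHom.id_apply, mul_assoc]

theorem prf_MNorm : MNorm := by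
  intro k _ _ p _ _ H _ _ D P c n ζ hPn hPp hPc hn hpn hζ hR
  obtain ⟨B, iB, iBA, iBM, E, iE, iEA, iEM, ι, hG, hdB, hE, hdE, hι, hιg⟩ := hR
  have hfin : Module.Finite (LaurentSeries k) E := gal_finite hE
  have hF : IsField E := isField_of_isIntegral_of_isField'
    (R := LaurentSeries k) (Field.toIsField (LaurentSeries k))
  subst hn
  exact @MNorm_main k _ _ p _ _ H _ _ D P c ζ hPn hPp hPc hpn hζ B iB iBA iBM E hF.toField iEA iEM
    ι hG hdB hE hι hιg

end MP7b0bad.MT
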