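import Mathlib
import Pool.Agent.Work.MP_7b0bad_ag.MT.FStmts

set_option autoImplicit false

/-!
# Join of covers with tame inertia: `MNorm` for subgroups of a group
-/

namespace MP7b0bad.MT

open Polynomial

/-- transport of a Galois algebra along an isomorphism of groups -/
theorem MNormS_gal {R : Type} [CommRing R] {D D' : Type} [Group D] [Group D'] (e : D ≃* D')
    (E : Type) [CommRing E] [Algebra R E] [MulSemiringAction D' E] (h : GalAlg R D' E) :
    @GalAlg R _ D _ E _ _ (MulSemiringAction.compHom E (e : D →* D')) := by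
  let act : MulSemiringAction D E := MulSemiringAction.compHom E (e : D →* D')
  have hs : ∀ (g : D) (x : E), g • x = e g • x := fun g x => rfl
  refine ⟨?_, h.inj, ?_, ?_⟩
  · intro g a
    rw [hs]
    exact h.comm _ a
  · intro b hb
    refine h.inv b ?_
    intro g
    have h1 := hb (e.symm g)
    rw [hs, MulEquiv.apply_symm_apply] at h1
    exact h1
  · intro σ hσ
    have h1 : e σ ≠ 1 := by
      intro h2
      exact hσ (by
        have h3 := congrArg e.symm h2
        rwa [MulEquiv.symm_apply_apply, map_one] at h3)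
    exact h.unr (e σ) h1

/-- a finite group generated by `P` and `c` with `c P c⁻¹ ≤ P` normalises `P` -/
theorem MNormS_norm {G : Type} [Group G] [Finite G] (P : Subgroup G) (c : G)
    (h : ∀ x ∈ P, c * x * c⁻¹ ∈ P) : ∀ g ∈ P ⊔ Subgroup.zpowers c, ∀ x ∈ P, g * x * g⁻¹ ∈ P := by
  have h1 : P ⊔ Subgroup.zpowers c ≤ Subgroup.normalizer (P : Set G) := by
    refine sup_le Subgroup.le_normalizer ?_
    rw [Subgroup.zpowers_le, Subgroup.mem_normalizer_iff]
    intro x
    refine ⟨fun hx => h x hx, fun hx => ?_⟩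
    -- the conjugation is a bijection of the finite set `P`
    have hinj : Function.Injective (fun y : P => (⟨c * y * c⁻¹, h y y.2⟩ : P)) := by
      intro y z hyz
      have h2 : c * (y : G) * c⁻¹ = c * (z : G) * c⁻¹ := congrArg Subtype.val hyz
      have h3 : (y : G) = z := by
        have h4 := mul_right_cancel h2
        exact mul_left_cancel h4
      exact Subtype.ext h3
    obtain ⟨y, hy⟩ := (Finite.injective_iff_surjective.mp hinj) ⟨c * x * c⁻¹, hx⟩
    have h2 : c * (y : G) * c⁻¹ = c * x * c⁻¹ := congrArg Subtype.val hy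
    have h3 : (y : G) = x := mul_left_cancel (mul_right_cancel h2)
    rw [← h3]
    exact y.2
  intro g hg x hx
  exact (Subgroup.mem_normalizer_iff.mp (h1 hg) x).mp hx

/-- `MNorm` for subgroups of a group -/
theorem prf_MNormS (hMNorm : MNorm) : MNormS := by
  intro k _ _ p _ _ G _ _ P D H hDH c hc n ζ hP hPc hD ho hpn hζ hRel
  have hPD : P ≤ D := by rw [hD]; exact le_sup_left
  let e : D.subgroupOf H ≃* D := Subgroup.subgroupOfEquivOfLe hDH
  have he : ∀ g : D.subgroupOf H, ((e g : D) : G) = ((g : H) : G) := fun g => rfl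
  have hes : ∀ g : D, (((e.symm g : D.subgroupOf H) : H) : G) = (g : G) := fun g => by
    rw [← he, MulEquiv.apply_symm_apply]
  let φ : D.subgroupOf H →* G := D.subtype.comp (e : D.subgroupOf H →* D)
  have hφ : ∀ g : D.subgroupOf H, φ g = ((g : H) : G) := fun g => rfl
  have hφi : Function.Injective φ := by
    intro a b hab
    exact e.injective (Subtype.ext hab)
  let P₁ : Subgroup (D.subgroupOf H) := P.comap φ
  let c₁ : D.subgroupOf H := e.symm ⟨c, hc⟩
  have hφc : φ c₁ = c := by
    rw [hφ]
    exact hes ⟨c, hc⟩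
  have hnorm : P₁.Normal := by
    constructor
    intro x hx g
    have hg : φ g ∈ P ⊔ Subgroup.zpowers c := hD.le (e g).2
    have h1 := MNormS_norm P c hPc (φ g) hg (φ x) hx
    change φ (g * x * g⁻¹) ∈ P
    rw [map_mul, map_mul, map_inv]
    exact h1
  have hPp : IsPGroup p P₁ := hP.comap_of_injective φ hφi
  have hrange : (⊤ : Subgroup (D.subgroupOf H)).map φ = D := by
    ext g
    constructor
    · rintro ⟨y, -, rfl⟩
      exact (e y).2
    · intro hg
      exact ⟨e.symm ⟨g, hg⟩, trivial, by rw [hφ]; exact hes ⟨g, hg⟩⟩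
  have hPmap : P₁.map φ = P := by
    ext g
    constructor
    · rintro ⟨y, hy, rfl⟩
      exact hy
    · intro hg
      refine ⟨e.symm ⟨g, hPD hg⟩, ?_, ?_⟩
      · change φ (e.symm ⟨g, hPD hg⟩) ∈ P
        rw [hφ, hes]
        exact hg
      · rw [hφ]
        exact hes ⟨g, hPD hg⟩
  have hsup : P₁ ⊔ Subgroup.zpowers c₁ = ⊤ := by
    apply Subgroup.map_injective hφi
    rw [Subgroup.map_sup, hPmap, MonoidHom.map_zpowers, hφc, hrange, ← hD]
  have hoc : orderOf c₁ = n := by
    rw [← orderOf_injective φ hφi c₁, hφc, ho]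
  obtain ⟨B, iB, aB, sB, E, iE, aE, sE, ι, t, h1, h2, h3, h4, h5, h6, h7, h8, h9⟩ :=
    hMNorm k p H (D.subgroupOf H) P₁ c₁ n ζ hnorm hPp hsup hoc hpn hζ hRel
  refine ⟨B, iB, aB, sB, E, iE, aE,
    MulSemiringAction.compHom E (e.symm : D →* D.subgroupOf H), ι, t, h1, h2,
    MNormS_gal e.symm E h3, h4, h5, ?_, h7, ?_, ?_⟩
  · intro g b
    have h10 := h6 (e.symm g) b
    have h11 : ((e.symm g : D.subgroupOf H) : H) = Subgroup.inclusion hDH g := Subtype.ext (hes g)
    rw [h11] at h10
    exact h10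
  · intro g hg
    refine h8 (e.symm g) ?_
    change φ (e.symm g) ∈ P
    rw [hφ, hes]
    exact hg
  · exact h9

end MP7b0bad.MT
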