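import Pool.Agent.Work.MP_7b0bad_ag.MT.GStmts
import Pool.Agent.Work.MP_7b0bad_ag.SV.VAll
import Pool.Agent.Work.MP_7b0bad_ag.SV.GAll

set_option autoImplicit false

/-!
# The join inside a group: from independent to arbitrary commuting tame parts
-/

namespace MP7b0bad.MT

/-- push forward of a realisation along a homomorphism -/
theorem MRz_push (k : Type) [Field k] [IsAlgClosed k] (p : ℕ) [Fact p.Prime] [CharP k p]
    {X G : Type} [Group X] [Finite X] [Group G] (q : X →* G) (M : Subgroup X) (K L : Subgroup G)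
    (hK : q.range = K) (hL : M.map q = L) (h : Rel k X M) : Rel k K (L.subgroupOf K) := by
  subst hK hL
  have h1 := (SV.all_VRAx k p).quo X q.range q.rangeRestrict M q.rangeRestrict_surjective h
  have h2 : M.map q.rangeRestrict = (M.map q).subgroupOf q.range := by
    apply Subgroup.map_injective q.range.subtype_injective
    rw [Subgroup.map_map, Subgroup.map_subgroupOf_eq_of_le (Subgroup.map_le_range q M)]
    rfl
  rw [h2] at h1
  exact h1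

theorem MRz_pgr {A B : Type} [Group A] [Group B] {p : ℕ} {P : Subgroup A} {Q : Subgroup B}
    (hP : IsPGroup p P) (hQ : IsPGroup p Q) : IsPGroup p (P.prod Q) := by
  rintro ⟨⟨x, y⟩, hx, hy⟩
  obtain ⟨a, ha⟩ := hP ⟨x, hx⟩
  obtain ⟨b, hb⟩ := hQ ⟨y, hy⟩
  have ha' : x ^ p ^ a = 1 := by simpa using congrArg Subtype.val ha
  have hb' : y ^ p ^ b = 1 := by simpa using congrArg Subtype.val hb
  refine ⟨a + b, Subtype.ext (Prod.ext ?_ ?_)⟩
  · show x ^ p ^ (a + b) = 1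
    rw [pow_add, pow_mul, ha', one_pow]
  · show y ^ p ^ (a + b) = 1
    rw [pow_add, mul_comm, pow_mul, hb', one_pow]

theorem MRz_ncl {A B : Type} [Group A] [Group B] (P : Subgroup A) (Q : Subgroup B)
    (hP : Subgroup.normalClosure (P : Set A) = ⊤) (hQ : Subgroup.normalClosure (Q : Set B) = ⊤) :
    Subgroup.normalClosure ((P.prod Q : Subgroup (A × B)) : Set (A × B)) = ⊤ := by
  have h1 : (⊤ : Subgroup A) ≤ (Subgroup.normalClosure
      ((P.prod Q : Subgroup (A × B)) : Set (A × B))).comap (MonoidHom.inl A B) := by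
    rw [← hP]
    refine Subgroup.normalClosure_le_normal ?_
    intro x hx
    exact Subgroup.subset_normalClosure (s := ((P.prod Q : Subgroup (A × B)) : Set (A × B)))
      ⟨hx, Q.one_mem⟩
  have h2 : (⊤ : Subgroup B) ≤ (Subgroup.normalClosure
      ((P.prod Q : Subgroup (A × B)) : Set (A × B))).comap (MonoidHom.inr A B) := by
    rw [← hQ]
    refine Subgroup.normalClosure_le_normal ?_
    intro x hx
    exact Subgroup.subset_normalClosure (s := ((P.prod Q : Subgroup (A × B)) : Set (A × B)))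
      ⟨P.one_mem, hx⟩
  rw [eq_top_iff]
  rintro ⟨a, b⟩ -
  have h3 := h1 (Subgroup.mem_top a)
  have h4 := h2 (Subgroup.mem_top b)
  rw [Subgroup.mem_comap] at h3 h4
  have h5 := Subgroup.mul_mem _ h3 h4
  simpa using h5

/-- `[N, G]` has `p`-power index in `N = 1 × S` -/
theorem MRz_cop {A S : Type} [Group A] [Finite A] [Group S] [Finite S] {p : ℕ} [Fact p.Prime]
    (Q : Subgroup S) (hQ : IsPGroup p Q) (hn : Subgroup.normalClosure (Q : Set S) = ⊤) (r : ℕ)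
    (hr : r.Prime) (hrp : r ≠ p) :
    ¬ r ∣ ⁅(MonoidHom.fst A S).ker, (⊤ : Subgroup (A × S))⁆.relIndex (MonoidHom.fst A S).ker := by
  set N : Subgroup (A × S) := (MonoidHom.fst A S).ker with hN
  set K : Subgroup (A × S) := ⁅N, (⊤ : Subgroup (A × S))⁆ with hK
  have hin : ∀ y : S, ((1 : A), y) ∈ N := fun y => (MonoidHom.mem_ker).2 rfl
  have hcom : ∀ (y : S) (g : A × S), ((1 : A), y) * g * ((1 : A), y)⁻¹ * g⁻¹ ∈ K := by
    intro y g
    exact Subgroup.commutator_mem_commutator (hin y) (Subgroup.mem_top g)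
  let φ : S →* (A × S) ⧸ K := (QuotientGroup.mk' K).comp (MonoidHom.inr A S)
  have hφ : ∀ (y z : S), φ y * φ z = φ z * φ y := by
    intro y z
    have h := hcom y ((1 : A), z)
    have h1 : ((QuotientGroup.mk' K) (((1 : A), y) * ((1 : A), z) * ((1 : A), y)⁻¹ *
        ((1 : A), z)⁻¹)) = 1 := (QuotientGroup.eq_one_iff _).2 h
    simp only [map_mul, map_inv] at h1
    have h2 : φ y * φ z * (φ y)⁻¹ * (φ z)⁻¹ = 1 := h1
    rw [mul_inv_eq_one, mul_inv_eq_iff_eq_mul] at h2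
    exact h2
  let T : Subgroup S :=
    { carrier := {y | ∃ j : ℕ, φ y ^ p ^ j = 1}
      one_mem' := ⟨0, by simp⟩
      mul_mem' := by
        rintro a b ⟨i, hi⟩ ⟨j, hj⟩
        refine ⟨i + j, ?_⟩
        rw [map_mul, (show Commute (φ a) (φ b) from hφ a b).mul_pow, pow_add, pow_mul, hi, one_pow,
          one_mul, mul_comm, pow_mul, hj, one_pow]
      inv_mem' := by
        rintro a ⟨i, hi⟩
        exact ⟨i, by rw [map_inv, inv_pow, hi, inv_one]⟩ }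
  have hTn : T.Normal := by
    refine ⟨?_⟩
    rintro a ⟨i, hi⟩ g
    refine ⟨i, ?_⟩
    rw [map_mul, map_mul, map_inv, hφ g a, mul_inv_cancel_right, hi]
  have hT : T = ⊤ := by
    rw [eq_top_iff, ← hn]
    refine Subgroup.normalClosure_le_normal ?_
    intro y hy
    obtain ⟨j, hj⟩ := hQ ⟨y, hy⟩
    have hj' : y ^ p ^ j = 1 := by simpa using congrArg Subtype.val hj
    exact ⟨j, by rw [← map_pow, hj', map_one]⟩
  have hp : IsPGroup p (N ⧸ K.subgroupOf N) := by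
    intro x
    obtain ⟨⟨⟨a, y⟩, hx⟩, rfl⟩ := QuotientGroup.mk_surjective x
    have ha : a = 1 := (MonoidHom.mem_ker).1 hx
    subst ha
    have hy : y ∈ T := hT ▸ Subgroup.mem_top y
    obtain ⟨j, hj⟩ := hy
    refine ⟨j, ?_⟩
    rw [← QuotientGroup.mk_pow, QuotientGroup.eq_one_iff, Subgroup.mem_subgroupOf]
    rw [← map_pow] at hj
    have h1 := (QuotientGroup.eq_one_iff (N := K) ((1 : A), y ^ p ^ j)).1 hj
    have h2 : (((⟨((1 : A), y), hx⟩ : N) ^ p ^ j : N) : A × S) = ((1 : A), y ^ p ^ j) := by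
      simp [Prod.pow_mk]
    rw [h2]
    exact h1
  intro hd
  obtain ⟨m, hm⟩ := IsPGroup.iff_card.1 hp
  have h3 : K.relIndex N = p ^ m := hm
  rw [h3] at hd
  exact hrp ((Nat.prime_dvd_prime_iff_eq hr Fact.out).1 (hr.dvd_of_dvd_pow hd))

/-- adding a solvable factor -/
theorem MRz_add (k : Type) [Field k] [IsAlgClosed k] (p : ℕ) [Fact p.Prime] [CharP k p]
    {A S : Type} [Group A] [Finite A] [Group S] [Finite S] (P : Subgroup A) (c : A)
    (Q : Subgroup S) (s : S) (hP : Nz p P c) (hn : Subgroup.normalClosure (P : Set A) = ⊤)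
    (h : Rel k A (P ⊔ Subgroup.zpowers c)) (hS : Group.IsSolvable S) (hQ : IsPGroup p Q)
    (hs : ¬ p ∣ orderOf s) (hsQ : ∀ x ∈ Q, s * x * s⁻¹ ∈ Q)
    (hnQ : Subgroup.normalClosure (Q : Set S) = ⊤) :
    Rel k (A × S) (P.prod Q ⊔ Subgroup.zpowers (c, s)) := by
  have hax := GT.all_GAx p _ (SV.all_VRAx k p)
  obtain ⟨hP1, hP2, hP3⟩ := hP
  have hcop : ¬ p ∣ orderOf (c, s) := by
    rw [Prod.orderOf]
    intro hd
    have h1 : p ∣ orderOf c * orderOf s := hd.trans (Nat.lcm_dvd_mul _ _)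
    rcases ((Fact.out : p.Prime).dvd_mul).1 h1 with h2 | h2
    · exact hP2 h2
    · exact hs h2
  have hdat : GT.Dat p (P.prod Q) (c, s) := by
    refine ⟨MRz_pgr hP1 hQ, ?_, hcop, MRz_ncl P Q hn hnQ⟩
    rintro ⟨x, y⟩ ⟨hx, hy⟩
    exact ⟨hP3 x hx, hsQ y hy⟩
  have hsol : Group.IsSolvable (MonoidHom.fst A S).ker := by
    have hinj : Function.Injective ((MonoidHom.snd A S).comp (MonoidHom.fst A S).ker.subtype) := by
      rintro ⟨⟨a, y⟩, h1⟩ ⟨⟨b, z⟩, h2⟩ h3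
      have ha : a = 1 := (MonoidHom.mem_ker).1 h1
      have hb : b = 1 := (MonoidHom.mem_ker).1 h2
      have hyz : y = z := h3
      subst ha hb hyz
      rfl
    exact Group.isSolvable_of_isSolvable_injective hinj
  have hres := GT.all_GMain p (fun G _ G₀ => Rel k G G₀) hax (A × S) (P.prod Q)
    (MonoidHom.fst A S).ker (c, s) hdat hsol
    (fun r hr hrp hd => absurd hd (MRz_cop Q hQ hnQ r hr hrp)) ?_
  · exact hres
  · let q : A →* (A × S) ⧸ (MonoidHom.fst A S).ker :=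
      (QuotientGroup.mk' _).comp (MonoidHom.inl A S)
    have hq : ∀ (a : A) (y : S), QuotientGroup.mk' (MonoidHom.fst A S).ker (a, y) = q a := by
      intro a y
      refine (QuotientGroup.eq).2 ?_
      rw [MonoidHom.mem_ker]
      simp
    have hqs : Function.Surjective q := by
      intro x
      obtain ⟨⟨a, y⟩, rfl⟩ := QuotientGroup.mk_surjective x
      exact ⟨a, (hq a y).symm⟩
    have h1 := (SV.all_VRAx k p).quo A _ q (P ⊔ Subgroup.zpowers c) hqs h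
    have h2 : (P ⊔ Subgroup.zpowers c).map q =
        (GT.Pc (P.prod Q) (c, s)).map (QuotientGroup.mk' (MonoidHom.fst A S).ker) := by
      rw [GT.Pc, Subgroup.map_sup, Subgroup.map_sup, MonoidHom.map_zpowers, MonoidHom.map_zpowers,
        hq c s]
      congr 1
      ext x
      constructor
      · rintro ⟨a, ha, rfl⟩
        exact ⟨(a, 1), ⟨ha, Q.one_mem⟩, hq a 1⟩
      · rintro ⟨⟨a, y⟩, ⟨ha, -⟩, rfl⟩
        exact ⟨a, ha, (hq a y).symm⟩
    rw [h2] at h1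
    exact h1

theorem MRz_rz (hMQp : ∀ (k : Type) [Field k] [IsAlgClosed k] (p : ℕ) [Fact p.Prime] [CharP k p]
      (H : Type) [Group H] [Finite H] (P : Subgroup H) (c : H), Nz p P c →
      Rel k H (P ⊔ Subgroup.zpowers c) → Subgroup.normalClosure (P : Set H) = ⊤)
    (k : Type) [Field k] [IsAlgClosed k] (p : ℕ) [Fact p.Prime] [CharP k p]
    {G S : Type} [Group G] [Finite G] [Group S] [Finite S] (P H : Subgroup G) (c : G)
    (Q : Subgroup S) (s : S) (hP : Nz p P c) (hR : Rz k P c H) (hS : Group.IsSolvable S)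
    (hQ : IsPGroup p Q) (hs : ¬ p ∣ orderOf s) (hsQ : ∀ x ∈ Q, s * x * s⁻¹ ∈ Q)
    (hnQ : Subgroup.normalClosure (Q : Set S) = ⊤) :
    Rz k (P.prod Q) (c, s) (H.prod ⊤) := by
  obtain ⟨hle, hrel⟩ := hR
  obtain ⟨hP1, hP2, hP3⟩ := hP
  have hPH : P ≤ H := le_sup_left.trans hle
  have hcH : c ∈ H := hle (le_sup_right (a := P) (Subgroup.mem_zpowers c))
  have hsub : (P ⊔ Subgroup.zpowers c).subgroupOf H =
      P.subgroupOf H ⊔ Subgroup.zpowers (⟨c, hcH⟩ : H) := by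
    apply Subgroup.map_injective H.subtype_injective
    rw [Subgroup.map_subgroupOf_eq_of_le hle, Subgroup.map_sup,
      Subgroup.map_subgroupOf_eq_of_le hPH, MonoidHom.map_zpowers]
    rfl
  rw [hsub] at hrel
  have hNz : Nz p (P.subgroupOf H) (⟨c, hcH⟩ : H) := by
    refine ⟨?_, ?_, ?_⟩
    · exact hP1.of_injective (Subgroup.subgroupOfEquivOfLe hPH).toMonoidHom
        (Subgroup.subgroupOfEquivOfLe hPH).injective
    · rwa [Subgroup.orderOf_mk]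
    · rintro ⟨x, hx⟩ hxP
      exact hP3 x hxP
  have hn := hMQp k p H _ _ hNz hrel
  have h1 := MRz_add k p (P.subgroupOf H) (⟨c, hcH⟩ : H) Q s hNz hn hrel hS hQ hs hsQ hnQ
  refine ⟨?_, MRz_push k p (H.subtype.prodMap (MonoidHom.id S)) _ _ _ ?_ ?_ h1⟩
  · refine sup_le (Subgroup.prod_mono hPH le_top) ?_
    rw [Subgroup.zpowers_le]
    exact ⟨hcH, Subgroup.mem_top _⟩
  · ext ⟨x, y⟩
    constructor
    · rintro ⟨⟨a, b⟩, hab⟩
      have h2 : (a : G) = x := congrArg Prod.fst hab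
      subst h2
      exact ⟨a.2, Subgroup.mem_top _⟩
    · rintro ⟨hx, -⟩
      exact ⟨(⟨x, hx⟩, y), rfl⟩
  · rw [Subgroup.map_sup, MonoidHom.map_zpowers]
    congr 1
    ext ⟨x, y⟩
    constructor
    · rintro ⟨⟨a, b⟩, ⟨ha, hb⟩, hab⟩
      have h2 : (a : G) = x := congrArg Prod.fst hab
      have h3 : b = y := congrArg Prod.snd hab
      subst h2 h3
      exact ⟨ha, hb⟩
    · rintro ⟨hx, hy⟩
      exact ⟨(⟨x, hPH hx⟩, y), ⟨hx, hy⟩, rfl⟩

theorem MRz_nz {G S : Type} [Group G] [Finite G] [Group S] [Finite S] {p : ℕ} [Fact p.Prime]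
    {P : Subgroup G} {c : G} {Q : Subgroup S} {s : S} (hP : Nz p P c)
    (hQ : IsPGroup p Q) (hs : ¬ p ∣ orderOf s) (hsQ : ∀ x ∈ Q, s * x * s⁻¹ ∈ Q) :
    Nz p (P.prod Q) (c, s) := by
  obtain ⟨hP1, hP2, hP3⟩ := hP
  refine ⟨MRz_pgr hP1 hQ, ?_, ?_⟩
  · rw [Prod.orderOf]
    intro hd
    have h1 : p ∣ orderOf c * orderOf s := hd.trans (Nat.lcm_dvd_mul _ _)
    rcases ((Fact.out : p.Prime).dvd_mul).1 h1 with h2 | h2
    · exact hP2 h2
    · exact hs h2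
  · rintro ⟨x, y⟩ ⟨hx, hy⟩
    exact ⟨hP3 x hx, hsQ y hy⟩

theorem MRz_map_fst {G S : Type} [Group G] [Group S] (H : Subgroup G) (Q : Subgroup S) :
    (H.prod Q).map (MonoidHom.fst G S) = H := by
  ext x
  constructor
  · rintro ⟨⟨a, b⟩, ⟨ha, -⟩, rfl⟩
    exact ha
  · intro hx
    exact ⟨(x, 1), ⟨hx, Q.one_mem⟩, rfl⟩

theorem prf_MRz (hMRz0 : MRz0) (hMGS : MGS)
    (hMQp : ∀ (k : Type) [Field k] [IsAlgClosed k] (p : ℕ) [Fact p.Prime] [CharP k p]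
      (H : Type) [Group H] [Finite H] (P : Subgroup H) (c : H), Nz p P c →
      Rel k H (P ⊔ Subgroup.zpowers c) → Subgroup.normalClosure (P : Set H) = ⊤) : MRz := by
  intro k _ _ p _ _ G _ _ P P₀ P₁ H₀ H₁ c₀ c₁ hN0 hN1 hP0 hP1 hP0le hP1le hcom hR0 hR1
  obtain ⟨S₀, _, _, Q₀, s₀, hS0, hQ0, ho0, hs0, hn0⟩ := hMGS p (orderOf c₀) (orderOf_pos c₀) hN0.2.1
  obtain ⟨S₁, _, _, Q₁, s₁, hS1, hQ1, ho1, hs1, hn1⟩ := hMGS p (orderOf c₁) (orderOf_pos c₁) hN1.2.1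
  have hSS : Group.IsSolvable (S₀ × S₁) := inferInstance
  have hQQ : IsPGroup p (Q₀.prod Q₁) := MRz_pgr hQ0 hQ1
  have hnQ := MRz_ncl Q₀ Q₁ hn0 hn1
  have ho0' : orderOf ((s₀, 1) : S₀ × S₁) = orderOf c₀ := by
    rw [Prod.orderOf, orderOf_one, Nat.lcm_one_right, ho0]
  have ho1' : orderOf ((1, s₁) : S₀ × S₁) = orderOf c₁ := by
    rw [Prod.orderOf, orderOf_one, Nat.lcm_one_left, ho1]
  have hd0 : ¬ p ∣ orderOf ((s₀, 1) : S₀ × S₁) := ho0' ▸ hN0.2.1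
  have hd1 : ¬ p ∣ orderOf ((1, s₁) : S₀ × S₁) := ho1' ▸ hN1.2.1
  have hq0 : ∀ x ∈ Q₀.prod Q₁, ((s₀, 1) : S₀ × S₁) * x * (s₀, 1)⁻¹ ∈ Q₀.prod Q₁ := by
    rintro ⟨x, y⟩ ⟨hx, hy⟩
    refine ⟨hs0 x hx, ?_⟩
    show (1 : S₁) * y * (1 : S₁)⁻¹ ∈ Q₁
    simpa using hy
  have hq1 : ∀ x ∈ Q₀.prod Q₁, ((1, s₁) : S₀ × S₁) * x * (1, s₁)⁻¹ ∈ Q₀.prod Q₁ := by
    rintro ⟨x, y⟩ ⟨hx, hy⟩
    refine ⟨?_, hs1 y hy⟩
    show (1 : S₀) * x * (1 : S₀)⁻¹ ∈ Q₀
    simpa using hx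
  have hR0' := MRz_rz hMQp k p P₀ H₀ c₀ (Q₀.prod Q₁) (s₀, 1) hP0 hR0 hSS hQQ hd0 hq0 hnQ
  have hR1' := MRz_rz hMQp k p P₁ H₁ c₁ (Q₀.prod Q₁) (1, s₁) hP1 hR1 hSS hQQ hd1 hq1 hnQ
  have key := hMRz0 k p (G × (S₀ × S₁)) (P.prod (Q₀.prod Q₁)) (P₀.prod (Q₀.prod Q₁))
    (P₁.prod (Q₀.prod Q₁)) (H₀.prod ⊤) (H₁.prod ⊤) (c₀, (s₀, 1)) (c₁, (1, s₁))
    (MRz_nz hN0 hQQ hd0 hq0) (MRz_nz hN1 hQQ hd1 hq1) (MRz_nz hP0 hQQ hd0 hq0)
    (MRz_nz hP1 hQQ hd1 hq1) (Subgroup.prod_mono hP0le le_rfl) (Subgroup.prod_mono hP1le le_rfl)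
    ?_ ?_ hR0' hR1'
  · obtain ⟨hle, hrel⟩ := key
    have e1 : ((P.prod (Q₀.prod Q₁)) ⊔ (H₀.prod ⊤) ⊔ (H₁.prod ⊤) :
        Subgroup (G × (S₀ × S₁))).map (MonoidHom.fst G (S₀ × S₁)) = P ⊔ H₀ ⊔ H₁ := by
      rw [Subgroup.map_sup, Subgroup.map_sup, MRz_map_fst, MRz_map_fst, MRz_map_fst]
    have e2 : ((P.prod (Q₀.prod Q₁)) ⊔ Subgroup.zpowers
        (((c₀, (s₀, 1)) : G × (S₀ × S₁)) * (c₁, (1, s₁)))).map (MonoidHom.fst G (S₀ × S₁)) =
        P ⊔ Subgroup.zpowers (c₀ * c₁) := by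
      rw [Subgroup.map_sup, MRz_map_fst, MonoidHom.map_zpowers]
      rfl
    refine ⟨?_, MRz_push k p ((MonoidHom.fst G (S₀ × S₁)).comp (Subgroup.subtype _)) _ _ _
      ?_ ?_ hrel⟩
    · rw [← e1, ← e2]
      exact Subgroup.map_mono hle
    · rw [MonoidHom.range_comp, Subgroup.range_subtype, e1]
    · rw [← Subgroup.map_map, Subgroup.map_subgroupOf_eq_of_le hle, e2]
  · refine Prod.ext hcom (Prod.ext ?_ ?_)
    · show s₀ * 1 = 1 * s₀
      rw [mul_one, one_mul]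
    · show 1 * s₁ = s₁ * 1
      rw [mul_one, one_mul]
  · rw [eq_bot_iff]
    intro x hx
    obtain ⟨⟨a, ha⟩, ⟨b, hb⟩⟩ := hx
    have h1 : s₀ ^ a = 1 := by
      have h2 : ((((c₀, (s₀, 1)) : G × (S₀ × S₁)) ^ a).2).1 =
          ((((c₁, (1, s₁)) : G × (S₀ × S₁)) ^ b).2).1 := by
        have ha' : ((c₀, (s₀, 1)) : G × (S₀ × S₁)) ^ a = x := ha
        have hb' : ((c₁, (1, s₁)) : G × (S₀ × S₁)) ^ b = x := hb
        rw [ha', hb']
      have h3 : s₀ ^ a = (1 : S₀) ^ b := h2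
      rwa [one_zpow] at h3
    have h4 : c₀ ^ a = 1 := by
      rw [← orderOf_dvd_iff_zpow_eq_one, ho0] at h1
      exact orderOf_dvd_iff_zpow_eq_one.1 h1
    have ha' : ((c₀, (s₀, 1)) : G × (S₀ × S₁)) ^ a = x := ha
    rw [Subgroup.mem_bot, ← ha']
    refine Prod.ext h4 (Prod.ext h1 ?_)
    show (1 : S₁) ^ a = 1
    exact one_zpow a

end MP7b0bad.MT
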