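import Pool.Agent.Work.MP_7b0bad_ag.MT.GStmts
import Pool.Agent.Work.MP_7b0bad_ag.SV.VAll

set_option autoImplicit false

/-! Item MRz0: the join inside a group, with independent `c₀`, `c₁`. -/

namespace MP7b0bad.MT

open Polynomial

/-- transport of a realisation to the group `H.subgroupOf T` -/
theorem MRz0_side (k : Type) [Field k] [IsAlgClosed k] (p : ℕ) [Fact p.Prime] [CharP k p]
    (G : Type) [Group G] [Finite G] (T H K : Subgroup G) (hHT : H ≤ T)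
    (hR : Rel k H (K.subgroupOf H)) :
    Rel k (H.subgroupOf T) ((K.subgroupOf T).subgroupOf (H.subgroupOf T)) := by
  let e : H ≃* H.subgroupOf T := (Subgroup.subgroupOfEquivOfLe hHT).symm
  have h1 := SV.all_VQuo.1 k p H (H.subgroupOf T) e.toMonoidHom (K.subgroupOf H) e.surjective hR
  have h2 : (K.subgroupOf H).map e.toMonoidHom =
      (K.subgroupOf T).subgroupOf (H.subgroupOf T) := by
    ext x
    rw [Subgroup.mem_map_equiv, Subgroup.mem_subgroupOf, Subgroup.mem_subgroupOf,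
      Subgroup.mem_subgroupOf]
    rfl
  rw [h2] at h1
  exact h1

theorem MRz0_zpowers {G : Type} [Group G] (T : Subgroup G) (c : G) (hc : c ∈ T) :
    (Subgroup.zpowers c).subgroupOf T = Subgroup.zpowers (⟨c, hc⟩ : T) := by
  ext x
  rw [Subgroup.mem_subgroupOf, Subgroup.mem_zpowers_iff, Subgroup.mem_zpowers_iff]
  constructor
  · rintro ⟨n, hn⟩
    exact ⟨n, Subtype.ext hn⟩
  · rintro ⟨n, hn⟩
    exact ⟨n, congrArg Subtype.val hn⟩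

theorem MRz0_sup {G : Type} [Group G] (T P : Subgroup G) (c : G) (hc : c ∈ T) (hP : P ≤ T) :
    (P ⊔ Subgroup.zpowers c).subgroupOf T = P.subgroupOf T ⊔ Subgroup.zpowers (⟨c, hc⟩ : T) := by
  rw [Subgroup.subgroupOf_sup hP (by rwa [Subgroup.zpowers_le]), MRz0_zpowers T c hc]

theorem prf_MRz0 (hMJ2 : MJ2) : MRz0 := by
  intro k _ _ p _ _ G _ _ P P₀ P₁ H₀ H₁ c₀ c₁ hP0 hP1 hN0 hN1 hle0 hle1 hcomm hind hR0 hR1
  have hPT : P ≤ P ⊔ H₀ ⊔ H₁ := le_sup_left.trans le_sup_left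
  have hH0T : H₀ ≤ P ⊔ H₀ ⊔ H₁ := le_sup_right.trans le_sup_left
  have hH1T : H₁ ≤ P ⊔ H₀ ⊔ H₁ := le_sup_right
  have hc0H : c₀ ∈ H₀ := hR0.1 ((le_sup_right : Subgroup.zpowers c₀ ≤ _)
    (Subgroup.mem_zpowers c₀))
  have hc1H : c₁ ∈ H₁ := hR1.1 ((le_sup_right : Subgroup.zpowers c₁ ≤ _)
    (Subgroup.mem_zpowers c₁))
  have hP0H : P₀ ≤ H₀ := le_sup_left.trans hR0.1
  have hP1H : P₁ ≤ H₁ := le_sup_left.trans hR1.1
  have hsup : (P ⊔ H₀ ⊔ H₁).subgroupOf (P ⊔ H₀ ⊔ H₁) = P.subgroupOf (P ⊔ H₀ ⊔ H₁) ⊔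
      H₀.subgroupOf (P ⊔ H₀ ⊔ H₁) ⊔ H₁.subgroupOf (P ⊔ H₀ ⊔ H₁) := by
    rw [Subgroup.subgroupOf_sup le_sup_left hH1T, Subgroup.subgroupOf_sup hPT hH0T]
  rw [Subgroup.subgroupOf_self] at hsup
  unfold Rz
  generalize P ⊔ H₀ ⊔ H₁ = T at *
  have hc0 : c₀ ∈ T := hH0T hc0H
  have hc1 : c₁ ∈ T := hH1T hc1H
  have hcc : c₀ * c₁ ∈ T := T.mul_mem hc0 hc1
  refine ⟨sup_le hPT (by rwa [Subgroup.zpowers_le]), ?_⟩
  rw [MRz0_sup T P (c₀ * c₁) hcc hPT]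
  have hside : ∀ (c : G) (hc : c ∈ T) (P' H : Subgroup G), P' ≤ T → H ≤ T → Nz p P c → P' ≤ P →
      Nz p P' c → Rz k P' c H → (¬ p ∣ orderOf (⟨c, hc⟩ : T)) ∧
      (∀ x ∈ P.subgroupOf T, (⟨c, hc⟩ : T) * x * (⟨c, hc⟩ : T)⁻¹ ∈ P.subgroupOf T) ∧
      P'.subgroupOf T ≤ P.subgroupOf T ∧
      (∀ x ∈ P'.subgroupOf T, (⟨c, hc⟩ : T) * x * (⟨c, hc⟩ : T)⁻¹ ∈ P'.subgroupOf T) ∧
      P'.subgroupOf T ⊔ Subgroup.zpowers (⟨c, hc⟩ : T) ≤ H.subgroupOf T ∧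
      Rel k (H.subgroupOf T)
        ((P'.subgroupOf T ⊔ Subgroup.zpowers (⟨c, hc⟩ : T)).subgroupOf (H.subgroupOf T)) := by
    intro c hc P' H hP'T hHT hNP hP'P hNP' hRz
    refine ⟨?_, ?_, ?_, ?_, ?_, ?_⟩
    · rw [Subgroup.orderOf_mk]
      exact hNP.2.1
    · intro x hx
      exact hNP.2.2 _ hx
    · intro x hx
      exact hP'P hx
    · intro x hx
      exact hNP'.2.2 _ hx
    · rw [← MRz0_sup T P' c hc hP'T]
      intro x hx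
      exact hRz.1 hx
    · rw [← MRz0_sup T P' c hc hP'T]
      exact MRz0_side k p G T H _ hHT hRz.2
  have s0 := hside c₀ hc0 P₀ H₀ (hP0H.trans hH0T) hH0T hP0 hle0 hN0 hR0
  have s1 := hside c₁ hc1 P₁ H₁ (hP1H.trans hH1T) hH1T hP1 hle1 hN1 hR1
  refine hMJ2 k p T (P.subgroupOf T) ![⟨c₀, hc0⟩, ⟨c₁, hc1⟩] ![P₀.subgroupOf T, P₁.subgroupOf T]
    ![H₀.subgroupOf T, H₁.subgroupOf T] ?_ ?_ ?_ ?_ ?_ ?_ ?_ ?_ ?_ ?_
  · exact hP0.1.comap_subtype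
  · exact Fin.forall_fin_two.2 ⟨s0.1, s1.1⟩
  · exact Subtype.ext hcomm
  · rw [eq_bot_iff]
    intro x hx
    rw [Subgroup.mem_inf] at hx
    obtain ⟨hx0, hx1⟩ := hx
    have g0 : (x : G) ∈ Subgroup.zpowers c₀ := by
      have h1 : x ∈ (Subgroup.zpowers c₀).subgroupOf T := by
        rw [MRz0_zpowers T c₀ hc0]
        exact hx0
      exact h1
    have g1 : (x : G) ∈ Subgroup.zpowers c₁ := by
      have h1 : x ∈ (Subgroup.zpowers c₁).subgroupOf T := by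
        rw [MRz0_zpowers T c₁ hc1]
        exact hx1
      exact h1
    have g2 : (x : G) ∈ Subgroup.zpowers c₀ ⊓ Subgroup.zpowers c₁ := ⟨g0, g1⟩
    rw [hind, Subgroup.mem_bot] at g2
    rw [Subgroup.mem_bot]
    exact Subtype.ext g2
  · exact Fin.forall_fin_two.2 ⟨s0.2.1, s1.2.1⟩
  · exact Fin.forall_fin_two.2 ⟨s0.2.2.1, s1.2.2.1⟩
  · exact Fin.forall_fin_two.2 ⟨s0.2.2.2.1, s1.2.2.2.1⟩
  · exact Fin.forall_fin_two.2 ⟨s0.2.2.2.2.1, s1.2.2.2.2.1⟩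
  · exact Fin.forall_fin_two.2 ⟨s0.2.2.2.2.2, s1.2.2.2.2.2⟩
  · exact hsup.symm

end MP7b0bad.MT
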