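import Pool.Agent.Work.MP_7b0bad_ag.MT.DStmts
import Pool.Agent.Work.MP_7b0bad_ag.Bd.B08
import Pool.Agent.Work.MP_7b0bad_ag.Bd.B15

set_option autoImplicit false

/-!
# Block MT, item MTDomI: total ramification implies that the algebra is a domain
-/

open Polynomial

namespace MP7b0bad.MT

/-- the element `c` acts by a root of unity and `P` trivially -/
theorem MTDomI_chi {E G₀ : Type} [CommRing E] [Group G₀] [Finite G₀] [MulSemiringAction G₀ E]
    (P : Subgroup G₀) (hPn : P.Normal) (c : G₀) (hPc : P ⊔ Subgroup.zpowers c = ⊤) (τ z : E)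
    (hz : ∀ g : G₀, g • z = z) (hfix : ∀ g ∈ P, g • τ = τ) (hc : c • τ = z * τ) (g : G₀) :
    ∃ (x : G₀) (i : ℕ), x ∈ P ∧ g = x * c ^ i ∧ g • τ = z ^ i * τ := by
  have hpow : ∀ i : ℕ, c ^ i • τ = z ^ i * τ := by
    intro i
    induction i with
    | zero => simp
    | succ i ih =>
      rw [pow_succ', mul_smul, ih, smul_mul', smul_pow', hz, hc, pow_succ]
      ring
  have h1 : g ∈ P ⊔ Subgroup.zpowers c := by rw [hPc]; exact Subgroup.mem_top g
  rw [← SetLike.mem_coe, Subgroup.normal_mul] at h1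
  obtain ⟨x, hx, y, hy, rfl⟩ := Set.mem_mul.1 h1
  obtain ⟨i, rfl⟩ := (mem_powers_iff_mem_zpowers.2 hy)
  refine ⟨x, i, hx, rfl, ?_⟩
  change (x * c ^ i) • τ = _
  rw [mul_smul, hpow, smul_mul', smul_pow', hz, hfix x hx]

/-- orders of elements of `K((ξ))` -/
theorem MTDomI_ord {K : Type} [Field K] (n e : ℕ) (b : LaurentSeries K)
    (h : b ^ n * HahnSeries.single (1 : ℤ) (1 : K) ^ e = 1) : n ∣ e := by
  have hb : b ^ n ≠ 0 := fun h0 => by rw [h0, zero_mul] at h; exact zero_ne_one h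
  have hx : (HahnSeries.single (1 : ℤ) (1 : K)) ≠ 0 := by
    rw [Ne, HahnSeries.single_eq_zero_iff]
    exact one_ne_zero
  have h1 := congrArg HahnSeries.order h
  rw [HahnSeries.order_mul hb (pow_ne_zero e hx), HahnSeries.order_pow, HahnSeries.order_pow,
    HahnSeries.order_single one_ne_zero, HahnSeries.order_one] at h1
  have h2 : ((n : ℤ)) ∣ (e : ℤ) := by
    refine ⟨-b.order, ?_⟩
    simp only [nsmul_eq_mul] at h1
    linarith
  exact_mod_cast h2

theorem prf_MTDomI (hVal : MTVal) : MTDomI := by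
  intro K _ p _ _ n ζ G₀ _ _ P c hPn hPp hPc hcn hpn hζ E _ _ _ τ hE hT
  have hn0 : 0 < n := by rw [← hcn]; exact orderOf_pos c
  have hEnt : Nontrivial E := by
    refine ⟨⟨0, 1, fun h => ?_⟩⟩
    have h1 : algebraMap (LaurentSeries K) E 0 = algebraMap (LaurentSeries K) E 1 := by
      rw [map_zero, map_one, h]
    exact zero_ne_one (hE.inj h1)
  obtain ⟨𝔪, h𝔪⟩ := Ideal.exists_maximal E
  obtain ⟨D, E₁, _, _, _, π, -, hg, -, hker, halg, hact, -, -, htop, -, -⟩ :=
    all_YComp (LaurentSeries K) G₀ E hE 𝔪 h𝔪.isPrime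
  set zE : E := algebraMap (LaurentSeries K) E (HahnSeries.C ζ) with hzE
  have hzfix : ∀ g : G₀, g • zE = zE := fun g => hE.comm g _
  have hzn : zE ^ n = 1 := by
    rw [hzE, ← map_pow, ← map_pow, hζ.pow_eq_one, map_one, map_one]
  have hchi := MTDomI_chi P hPn c hPc τ zE hzfix hT.fix hT.tame
  have hτu : IsUnit τ := by
    refine IsUnit.of_mul_eq_one
      (τ ^ (n - 1) * algebraMap (LaurentSeries K) E (HahnSeries.single (1 : ℤ) (1 : K))) ?_
    have h1 := hT.pow
    rw [← Nat.succ_pred_eq_of_pos hn0, pow_succ'] at h1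
    rw [← mul_assoc]
    exact h1
  have hzpow : ∀ i : ℕ, zE ^ i = 1 → n ∣ i := by
    intro i hi
    rw [hzE, ← map_pow, ← map_pow] at hi
    have h2 : algebraMap (LaurentSeries K) E (HahnSeries.C (ζ ^ i)) =
        algebraMap (LaurentSeries K) E (HahnSeries.C (1 : K)) := by
      rw [hi, map_one, map_one]
    exact (hζ.pow_eq_one_iff_dvd i).1 (HahnSeries.C_injective (hE.inj h2))
  have hkerP : ∀ g : G₀, g • τ = τ → g ∈ P := by
    intro g hgτ
    obtain ⟨x, i, hx, rfl, h1⟩ := hchi g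
    rw [h1] at hgτ
    have h2 : zE ^ i = 1 := by
      have h3 : zE ^ i * τ = 1 * τ := by rw [hgτ, one_mul]
      exact hτu.mul_right_cancel h3
    obtain ⟨j, rfl⟩ := hzpow i h2
    have h4 : c ^ (n * j) = 1 := by rw [pow_mul, ← hcn, pow_orderOf_eq_one, one_pow]
    rw [h4, mul_one]
    exact hx
  -- the image of `D`
  let zu : Eˣ := Units.ofPowEqOne zE n hzn hn0.ne'
  have hzu : (zu : E) = zE := Units.val_ofPowEqOne ..
  have hord : orderOf zu = n := by
    rw [orderOf_eq_iff hn0]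
    refine ⟨Units.ext (by rw [Units.val_pow_eq_pow_val, hzu, hzn, Units.val_one]), ?_⟩
    intro m hm hm0 h
    have h1 : zE ^ m = 1 := by
      rw [← hzu, ← Units.val_pow_eq_pow_val, h, Units.val_one]
    exact absurd (Nat.le_of_dvd hm0 (hzpow m h1)) (not_le.2 hm)
  have hzwfix : ∀ w ∈ Subgroup.zpowers zu, ∀ g : G₀, g • (w : E) = w := by
    intro w hw g
    have hfo : IsOfFinOrder zu := orderOf_pos_iff.1 (by rw [hord]; exact hn0)
    obtain ⟨i, rfl⟩ := (hfo.mem_powers_iff_mem_zpowers).2 hw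
    change g • ((zu ^ i : Eˣ) : E) = ((zu ^ i : Eˣ) : E)
    rw [Units.val_pow_eq_pow_val, hzu, smul_pow', hzfix]
  let R : Subgroup Eˣ :=
    { carrier := {w | w ∈ Subgroup.zpowers zu ∧ ∃ d ∈ D, d • τ = (w : E) * τ}
      one_mem' := ⟨one_mem _, 1, one_mem _, by simp⟩
      mul_mem' := by
        rintro w w' ⟨hw, d, hd, h1⟩ ⟨hw', d', hd', h1'⟩
        refine ⟨mul_mem hw hw', d * d', mul_mem hd hd', ?_⟩
        rw [mul_smul, h1', smul_mul', hzwfix w' hw', h1, Units.val_mul]
        ring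
      inv_mem' := by
        rintro w ⟨hw, d, hd, h1⟩
        refine ⟨inv_mem hw, d⁻¹, inv_mem hd, ?_⟩
        have h2 : τ = (w : E) * (d⁻¹ • τ) := by
          have h3 := congrArg (fun t => d⁻¹ • t) h1
          simp only [inv_smul_smul, smul_mul'] at h3
          rw [hzwfix w hw] at h3
          exact h3
        calc d⁻¹ • τ = ((w⁻¹ : Eˣ) : E) * ((w : E) * (d⁻¹ • τ)) := by
              rw [← mul_assoc, Units.inv_mul, one_mul]
          _ = ((w⁻¹ : Eˣ) : E) * τ := by rw [← h2] }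
  have hRle : R ≤ Subgroup.zpowers zu := fun w hw => hw.1
  have hfin : Finite (Subgroup.zpowers zu) := by
    refine Nat.finite_of_card_ne_zero ?_
    rw [Nat.card_zpowers, hord]
    exact hn0.ne'
  have hfinR : Finite R := Finite.of_injective _ (Subgroup.inclusion_injective hRle)
  set e : ℕ := Nat.card R with he
  have he0 : 0 < e := Nat.card_pos
  have hen : e ∣ n := by
    have := Subgroup.card_dvd_of_le hRle
    rwa [Nat.card_zpowers, hord] at this
  have hRe : ∀ w ∈ R, w ^ e = 1 := by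
    intro w hw
    have := pow_card_eq_one' (G := R) (x := ⟨w, hw⟩)
    exact congrArg Subtype.val this
  have hRD : ∀ d ∈ D, ∃ w ∈ R, d • τ = (w : E) * τ := by
    intro d hd
    obtain ⟨x, i, -, -, h1⟩ := hchi d
    refine ⟨zu ^ i, ⟨Subgroup.npow_mem_zpowers zu i, d, hd, ?_⟩, ?_⟩
    · rw [h1, Units.val_pow_eq_pow_val, hzu]
    · rw [h1, Units.val_pow_eq_pow_val, hzu]
  set τ₁ : E₁ := π τ with hτ₁
  set ξ₁ : E₁ := algebraMap (LaurentSeries K) E₁ (HahnSeries.single (1 : ℤ) (1 : K)) with hξ₁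
  have hpow₁ : τ₁ ^ n * ξ₁ = 1 := by
    have h1 := congrArg π hT.pow
    rw [map_mul, map_pow, halg, map_one π] at h1
    exact h1
  have hτ₁0 : τ₁ ≠ 0 := by
    intro h0
    rw [h0, zero_pow hn0.ne', zero_mul] at hpow₁
    exact zero_ne_one hpow₁
  obtain ⟨b, hb⟩ := hg.inv (τ₁ ^ e) (fun d => by
    obtain ⟨w, hw, h1⟩ := hRD d d.2
    rw [smul_pow', hτ₁, ← hact, h1, ← map_pow, mul_pow, ← Units.val_pow_eq_pow_val, hRe w hw,
      Units.val_one, one_mul, map_pow])
  have hne : n ∣ e := by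
    refine MTDomI_ord n e b (hg.inj ?_)
    rw [map_mul, map_pow, map_pow, hb, map_one (algebraMap (LaurentSeries K) E₁), ← hξ₁, ← pow_mul, mul_comm e n, pow_mul,
      ← mul_pow, hpow₁, one_pow]
  have hen' : e = n := Nat.dvd_antisymm hen hne
  have hRtop : R = Subgroup.zpowers zu := by
    refine Subgroup.eq_of_le_of_card_ge hRle ?_
    rw [Nat.card_zpowers, hord, ← he, hen']
  obtain ⟨-, δ, hδD, hδ⟩ : zu ∈ R := by rw [hRtop]; exact Subgroup.mem_zpowers zu
  rw [hzu] at hδ
  -- `P ≤ D`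
  have hPD : P ≤ D := by
    by_contra hnot
    have hD' : D.subgroupOf P ≠ ⊤ := by
      intro h
      exact hnot (Subgroup.subgroupOf_eq_top.1 h)
    obtain ⟨M, l, hM, hl, hlM⟩ := QTR_char p P hPp (D.subgroupOf P) hD'
    obtain ⟨y, f, hy, hyf, hf⟩ := hT.as l hl
    apply hf
    set y₁ : E₁ := π y with hy₁
    set δD : D := ⟨δ, hδD⟩ with hδDd
    have hδpow : ∀ i : ℕ, δ ^ i • τ = zE ^ i * τ := by
      intro i
      induction i with
      | zero => simp
      | succ i ih =>
        rw [pow_succ', mul_smul, ih, smul_mul', smul_pow', hzfix, hδ, pow_succ]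
        ring
    -- the elements of `D ⊓ P` fix `y₁`
    have hfixy : ∀ d : D, (d : G₀) ∈ P → d • y₁ = y₁ := by
      intro d hd
      have h1 := hy ⟨(d : G₀), hd⟩
      have h2 : l ⟨(d : G₀), hd⟩ = 1 := by
        apply hlM
        apply hM
        rw [Subgroup.mem_subgroupOf]
        exact d.2
      rw [h2] at h1
      simp only [toAdd_one, ZMod.val_zero, Nat.cast_zero, add_zero] at h1
      rw [hy₁, ← hact, h1]
    have hδn : δD ^ n • y₁ = y₁ := by
      apply hfixy
      apply hkerP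
      change (δ ^ n) • τ = τ
      rw [hδpow, hzn, one_mul]
    set z₁ : E₁ := algebraMap (LaurentSeries K) E₁ (HahnSeries.C ζ) with hz₁
    set z' : E₁ := algebraMap (LaurentSeries K) E₁ (HahnSeries.C ζ⁻¹) with hz'
    have hζ0 : ζ ≠ 0 := hζ.ne_zero hn0.ne'
    have hzz : z₁ * z' = 1 := by
      rw [hz₁, hz', ← map_mul, ← map_mul, mul_inv_cancel₀ hζ0, map_one, map_one]
    have hz'n : z' ^ n = 1 := by
      rw [hz', ← map_pow, ← map_pow, inv_pow, hζ.pow_eq_one, inv_one, map_one, map_one]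
    have hz'fix : ∀ d : D, d • z' = z' := fun d => hg.comm d _
    have hz₁fix : ∀ d : D, d • z₁ = z₁ := fun d => hg.comm d _
    have hπz : π zE = z₁ := by rw [hzE, halg]
    let w : ℕ → E₁ := fun i => ∑ j ∈ Finset.range n, z' ^ (i * j) * (δD ^ j • y₁)
    have hwδ : ∀ i, δD • w i = z₁ ^ i * w i := by
      intro i
      have h1 : δD • w i = ∑ j ∈ Finset.range n, z₁ ^ i * (z' ^ (i * (j + 1)) * (δD ^ (j + 1) • y₁)) := by
        change δD • (∑ j ∈ Finset.range n, z' ^ (i * j) * (δD ^ j • y₁)) = _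
        rw [Finset.smul_sum]
        refine Finset.sum_congr rfl fun j _ => ?_
        have h3 : z' ^ (i * (j + 1)) = z' ^ (i * j) * z' ^ i := by rw [mul_add, mul_one, pow_add]
        rw [smul_mul', smul_pow', hz'fix, ← mul_smul, ← pow_succ', h3]
        have h2 : z₁ ^ i * z' ^ i = 1 := by rw [← mul_pow, hzz, one_pow]
        calc z' ^ (i * j) * (δD ^ (j + 1) • y₁)
            = z' ^ (i * j) * (z₁ ^ i * z' ^ i) * (δD ^ (j + 1) • y₁) := by rw [h2, mul_one]
          _ = _ := by ring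
      rw [h1, ← Finset.mul_sum]
      congr 1
      have h4 := (Finset.sum_range_succ' (fun j => z' ^ (i * j) * (δD ^ j • y₁)) n).symm.trans
        (Finset.sum_range_succ (fun j => z' ^ (i * j) * (δD ^ j • y₁)) n)
      have h5 : z' ^ (i * n) * (δD ^ n • y₁) = z' ^ (i * 0) * (δD ^ 0 • y₁) := by
        rw [hδn, mul_comm i n, pow_mul, hz'n, one_pow, mul_zero, pow_zero, pow_zero, one_smul]
      rw [h5] at h4
      exact add_right_cancel h4
    have hwfix : ∀ i (d : D), (d : G₀) ∈ P → d • w i = w i := by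
      intro i d hd
      change d • (∑ j ∈ Finset.range n, z' ^ (i * j) * (δD ^ j • y₁)) = _
      rw [Finset.smul_sum]
      refine Finset.sum_congr rfl fun j _ => ?_
      rw [smul_mul', smul_pow', hz'fix, ← mul_smul]
      have h1 : d * δD ^ j = δD ^ j * ((δD ^ j)⁻¹ * d * δD ^ j) := by group
      rw [h1, mul_smul, hfixy]
      have h2 := hPn.conj_mem (d : G₀) hd ((δ ^ j)⁻¹)
      simpa using h2
    have hwD : ∀ i (d : D), d • (w i * (τ₁ ^ i)⁻¹) = w i * (τ₁ ^ i)⁻¹ := by
      intro i d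
      obtain ⟨x, i₀, hx, hdx, hdτ⟩ := hchi d
      set h : D := (δD ^ i₀)⁻¹ * d with hh
      have hhP : (h : G₀) ∈ P := by
        apply hkerP
        have h1 : (h : G₀) = (δ ^ i₀)⁻¹ * (d : G₀) := by
          rw [hh]; rfl
        rw [h1, mul_smul, hdτ, inv_smul_eq_iff, hδpow]
      have hd : d = δD ^ i₀ * h := by rw [hh]; group
      have h2 : ∀ m : ℕ, δD ^ m • w i = z₁ ^ (i * m) * w i := by
        intro m
        induction m with
        | zero => simp
        | succ m ih =>
          rw [pow_succ', mul_smul, ih, smul_mul', smul_pow', hz₁fix, hwδ, mul_add, mul_one,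
            pow_add]
          ring
      have h3 : d • w i = z₁ ^ (i * i₀) * w i := by
        rw [hd, mul_smul, hwfix i h hhP, h2]
      have h4 : d • τ₁ = z₁ ^ i₀ * τ₁ := by
        rw [hτ₁, ← hact, hdτ, map_mul, map_pow, hπz]
      have h5 : d • (τ₁ ^ i) = z₁ ^ (i * i₀) * τ₁ ^ i := by
        rw [smul_pow', h4, mul_pow, ← pow_mul, mul_comm i₀ i]
      have h6 : (d • (w i * (τ₁ ^ i)⁻¹)) * (d • (τ₁ ^ i)) = d • w i := by
        rw [← smul_mul', inv_mul_cancel_right₀ (pow_ne_zero i hτ₁0)]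
      have hz0 : z₁ ^ (i * i₀) ≠ 0 := pow_ne_zero _ (left_ne_zero_of_mul_eq_one hzz)
      rw [h5, h3] at h6
      have h7 : d • (w i * (τ₁ ^ i)⁻¹) * τ₁ ^ i = w i := by
        apply mul_left_cancel₀ hz0
        rw [← h6]; ring
      calc d • (w i * (τ₁ ^ i)⁻¹) = (d • (w i * (τ₁ ^ i)⁻¹) * τ₁ ^ i) * (τ₁ ^ i)⁻¹ :=
            (mul_inv_cancel_right₀ (pow_ne_zero i hτ₁0) _).symm
        _ = w i * (τ₁ ^ i)⁻¹ := by rw [h7]
    have hex : ∀ i, ∃ a : LaurentSeries K, algebraMap (LaurentSeries K) E₁ a =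
        w i * (τ₁ ^ i)⁻¹ := fun i => hg.inv _ (hwD i)
    choose a ha using hex
    have hnK : (n : K) ≠ 0 := by
      intro h0
      exact hpn ((CharP.cast_eq_zero_iff K p n).1 h0)
    have hnF : ((n : ℕ) : LaurentSeries K) ≠ 0 := by
      intro h0
      apply hnK
      have h1 : (HahnSeries.C (n : K) : LaurentSeries K) = HahnSeries.C 0 := by
        rw [map_natCast, map_zero]; exact h0
      exact HahnSeries.C_injective h1
    have hnE : ((n : ℕ) : E₁) ≠ 0 := by
      intro h0
      apply hnF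
      apply hg.inj
      rw [map_natCast, map_zero]
      exact h0
    have hsum : ∑ i ∈ Finset.range n, w i = (n : E₁) * y₁ := by
      change ∑ i ∈ Finset.range n, ∑ j ∈ Finset.range n, z' ^ (i * j) * (δD ^ j • y₁) = _
      rw [Finset.sum_comm, Finset.sum_eq_single 0]
      · simp
      · intro j hj hj0
        rw [← Finset.sum_mul]
        have h1 : ∑ i ∈ Finset.range n, z' ^ (i * j) = 0 := by
          have h2 : ∀ i, z' ^ (i * j) = (z' ^ j) ^ i := fun i => by rw [← pow_mul, mul_comm]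
          simp_rw [h2]
          have h3 : (z' ^ j) ≠ 1 := by
            intro h4
            rw [hz', ← map_pow, ← map_pow] at h4
            have h5 : algebraMap (LaurentSeries K) E₁ (HahnSeries.C (ζ⁻¹ ^ j)) =
                algebraMap (LaurentSeries K) E₁ (HahnSeries.C (1 : K)) := by
              rw [h4, map_one, map_one]
            have h6 := HahnSeries.C_injective (hg.inj h5)
            rw [inv_pow, inv_eq_one] at h6
            have h7 := (hζ.pow_eq_one_iff_dvd j).1 h6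
            exact absurd (Nat.le_of_dvd (Nat.pos_of_ne_zero hj0) h7)
              (not_le.2 (Finset.mem_range.1 hj))
          have h4 := geom_sum_mul (z' ^ j) n
          rw [← pow_mul, mul_comm j n, pow_mul, hz'n, one_pow, sub_self] at h4
          exact (mul_eq_zero.1 h4).resolve_right (sub_ne_zero.2 h3)
        rw [h1, zero_mul]
      · intro h
        exact absurd (Finset.mem_range.2 hn0) h
    refine hVal K p n E₁ τ₁ y₁ (fun i : Fin n => a i * ((n : ℕ) : LaurentSeries K)⁻¹) f hn0 ?_ ?_ ?_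
    · exact hpow₁
    · have h1 : ∑ i : Fin n, algebraMap (LaurentSeries K) E₁
          (a i * ((n : ℕ) : LaurentSeries K)⁻¹) * τ₁ ^ (i : ℕ) =
          ∑ i ∈ Finset.range n, algebraMap (LaurentSeries K) E₁
          (a i * ((n : ℕ) : LaurentSeries K)⁻¹) * τ₁ ^ i :=
        Fin.sum_univ_eq_sum_range (fun i => algebraMap (LaurentSeries K) E₁
          (a i * ((n : ℕ) : LaurentSeries K)⁻¹) * τ₁ ^ i) n
      rw [h1]
      have h2 : ∀ i ∈ Finset.range n, algebraMap (LaurentSeries K) E₁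
          (a i * ((n : ℕ) : LaurentSeries K)⁻¹) * τ₁ ^ i = w i * ((n : ℕ) : E₁)⁻¹ := by
        intro i _
        rw [map_mul, ha, map_inv₀, map_natCast]
        field_simp
      rw [Finset.sum_congr rfl h2, ← Finset.sum_mul, hsum]
      field_simp
    · have h1 := congrArg π hyf
      rw [map_sub, map_pow, Polynomial.hom_eval₂] at h1
      rw [hy₁, h1, hτ₁]
      congr 1
      ext a
      simp [halg]
  have hDtop : D = ⊤ := by
    rw [eq_top_iff, ← hPc]
    refine sup_le hPD ?_
    rw [Subgroup.zpowers_le]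
    have h1 : δ⁻¹ * c ∈ P := by
      apply hkerP
      rw [mul_smul, hT.tame, ← hzE, ← hδ, inv_smul_smul]
    have h2 := mul_mem hδD (hPD h1)
    rwa [mul_inv_cancel_left] at h2
  exact (htop hDtop).2

end MP7b0bad.MT
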