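import Pool.Agent.Work.MP_7b0bad_ag.MT.DStmts

set_option autoImplicit false

/-!
# Block MT, item MTVal: the Artin-Schreier equation over `K((ξ))(τ)`
-/

open Polynomial

namespace MP7b0bad.MT

/-- `X ^ n - ξ` is irreducible over `K((ξ))` -/
theorem MTVal_irr (k : Type) [Field k] (n : ℕ) (hn : 0 < n) :
    Irreducible (X ^ n - C (HahnSeries.single (1 : ℤ) (1 : k)) : (LaurentSeries k)[X]) := by
  have hP : (Ideal.span {(PowerSeries.X : PowerSeries k)}).IsPrime := PowerSeries.span_X_isPrime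
  have hmon : (X ^ n - C (PowerSeries.X : PowerSeries k) : (PowerSeries k)[X]).Monic :=
    monic_X_pow_sub_C _ hn.ne'
  have hdeg : (X ^ n - C (PowerSeries.X : PowerSeries k) : (PowerSeries k)[X]).natDegree = n :=
    natDegree_X_pow_sub_C
  have h1 : Irreducible (X ^ n - C (PowerSeries.X : PowerSeries k) : (PowerSeries k)[X]) := by
    refine Polynomial.IsEisensteinAt.irreducible
      (𝓟 := Ideal.span {(PowerSeries.X : PowerSeries k)}) ⟨?_, ?_, ?_⟩ hP hmon.isPrimitive
      (by rw [hdeg]; exact hn)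
    · rw [hmon.leadingCoeff]
      exact fun h => hP.ne_top ((Ideal.eq_top_iff_one _).2 h)
    · intro m hm
      rw [hdeg] at hm
      rw [coeff_sub, coeff_X_pow, if_neg hm.ne, zero_sub, coeff_C]
      split_ifs
      · exact neg_mem (Ideal.mem_span_singleton_self _)
      · simp
    · rw [coeff_sub, coeff_X_pow, if_neg hn.ne, zero_sub, coeff_C_zero, neg_mem_iff,
        Ideal.span_singleton_pow, Ideal.mem_span_singleton, PowerSeries.X_pow_dvd_iff]
      intro h
      have := h 1 (by norm_num)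
      rw [PowerSeries.coeff_one_X] at this
      exact one_ne_zero this
  have h2 := (hmon.irreducible_iff_irreducible_map_fraction_map (K := LaurentSeries k)).1 h1
  have h3 : (X ^ n - C (PowerSeries.X : PowerSeries k) : (PowerSeries k)[X]).map
      (algebraMap (PowerSeries k) (LaurentSeries k)) =
      X ^ n - C (HahnSeries.single (1 : ℤ) (1 : k)) := by
    rw [Polynomial.map_sub, Polynomial.map_pow, map_X, map_C]
    congr 2
    exact HahnSeries.ofPowerSeries_X
  rwa [h3] at h2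

/-- the substitution `ξ ↦ s ^ n` -/
theorem MTVal_subst (k : Type) [Field k] (n : ℕ) (hn : 0 < n) :
    ∃ E : LaurentSeries k →+* LaurentSeries k, (∀ x, E (HahnSeries.C x) = HahnSeries.C x) ∧
      E (HahnSeries.single (1 : ℤ) (1 : k)) = (HahnSeries.single (1 : ℤ) (1 : k)) ^ n := by
  have hn' : (0 : ℤ) < n := by exact_mod_cast hn
  set g : ℤ →+ ℤ := AddMonoidHom.mulLeft (n : ℤ) with hg
  have hinj : Function.Injective g := fun a b h => by
    have h' : (n : ℤ) * a = (n : ℤ) * b := h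
    exact mul_left_cancel₀ hn'.ne' h'
  have hle : ∀ a b : ℤ, g a ≤ g b ↔ a ≤ b := fun a b =>
    mul_le_mul_iff_right₀ hn'
  set E : LaurentSeries k →+* LaurentSeries k := HahnSeries.embDomainRingHom g hinj hle with hE
  have hEap : ∀ a : LaurentSeries k, E a = HahnSeries.embDomain ⟨⟨g, hinj⟩, hle _ _⟩ a :=
    fun a => rfl
  refine ⟨E, fun x => ?_, ?_⟩
  · rw [hEap, HahnSeries.C_apply, HahnSeries.embDomain_single]
    simp [hg]
  · rw [hEap, HahnSeries.embDomain_single, HahnSeries.single_pow]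
    simp [hg]

/-- the order of `f (1 / s)` -/
theorem MTVal_ord {K : Type} [Field K] (f : K[X]) (hf : 0 < f.natDegree) :
    HahnSeries.addVal ℤ K (f.eval₂ (HahnSeries.C : K →+* LaurentSeries K)
      (HahnSeries.single (-1 : ℤ) (1 : K))) = ((-(f.natDegree : ℤ) : ℤ) : WithTop ℤ) := by
  have hval : ∀ (i : ℕ) (c : K), c ≠ 0 → HahnSeries.addVal ℤ K
      ((HahnSeries.C : K →+* LaurentSeries K) c * (HahnSeries.single (-1 : ℤ) (1 : K)) ^ i) =
      ((-(i : ℤ) : ℤ) : WithTop ℤ) := by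
    intro i c hc
    rw [HahnSeries.addVal_apply, HahnSeries.C_apply, HahnSeries.single_pow,
      HahnSeries.single_mul_single, one_pow, mul_one, HahnSeries.orderTop_single hc]
    congr 1
    simp
  have h0 : f.coeff f.natDegree ≠ 0 := by
    rw [coeff_natDegree]
    exact leadingCoeff_ne_zero.2 (fun h => by rw [h, natDegree_zero] at hf; exact lt_irrefl _ hf)
  rw [eval₂_eq_sum_range, Finset.sum_range_succ]
  have h1 : ((-(f.natDegree : ℤ) : ℤ) : WithTop ℤ) < HahnSeries.addVal ℤ K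
      (∑ i ∈ Finset.range f.natDegree, (HahnSeries.C : K →+* LaurentSeries K) (f.coeff i) *
        (HahnSeries.single (-1 : ℤ) (1 : K)) ^ i) := by
    refine AddValuation.map_lt_sum _ (WithTop.coe_ne_top) fun i hi => ?_
    rw [Finset.mem_range] at hi
    by_cases hc : f.coeff i = 0
    · rw [hc, map_zero, zero_mul, AddValuation.map_zero]
      exact WithTop.coe_lt_top _
    · rw [hval i _ hc]
      refine WithTop.coe_lt_coe.2 ?_
      omega
  rw [← hval f.natDegree _ h0] at h1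
  rw [AddValuation.map_add_eq_of_lt_right _ h1, hval f.natDegree _ h0]

/-- the equation over `K((s))` -/
theorem MTVal_main {K : Type} [Field K] (p : ℕ) (hp : 1 < p) (y : LaurentSeries K) (f : K[X])
    (h : y ^ p - y = f.eval₂ (HahnSeries.C : K →+* LaurentSeries K)
      (HahnSeries.single (-1 : ℤ) (1 : K))) : p ∣ f.natDegree := by
  rcases Nat.eq_zero_or_pos f.natDegree with h0 | h0
  · rw [h0]
    exact dvd_zero p
  have h1 := MTVal_ord f h0
  rw [← h] at h1
  set v := HahnSeries.addVal ℤ K with hv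
  have hlt : v y < 0 := by
    by_contra hge
    have hge' : 0 ≤ v y := not_lt.1 hge
    have h2 : 0 ≤ v (y ^ p) := by
      rw [AddValuation.map_pow]
      exact nsmul_nonneg hge' p
    have h3 : 0 ≤ v (y ^ p - y) := AddValuation.map_le_sub _ h2 hge'
    rw [h1] at h3
    have h4 : (0 : ℤ) ≤ -(f.natDegree : ℤ) := WithTop.coe_le_coe.1 h3
    omega
  obtain ⟨r, hr⟩ := WithTop.ne_top_iff_exists.1 (ne_top_of_lt hlt)
  have hr0 : r < 0 := by
    rw [← hr] at hlt
    exact WithTop.coe_lt_coe.1 hlt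
  have hyp : v (y ^ p) = ((p * r : ℤ) : WithTop ℤ) := by
    rw [AddValuation.map_pow, ← hr, ← WithTop.coe_nsmul, nsmul_eq_mul]
  have hlt2 : v (y ^ p) < v y := by
    rw [hyp, ← hr]
    refine WithTop.coe_lt_coe.2 ?_
    have : (1 : ℤ) < p := by exact_mod_cast hp
    nlinarith
  have h5 : v (y ^ p - y) = v (y ^ p) := AddValuation.map_sub_eq_of_lt_left _ hlt2
  rw [h1, hyp] at h5
  have h6 : -(f.natDegree : ℤ) = p * r := WithTop.coe_injective h5
  have h7 : (p : ℤ) ∣ (f.natDegree : ℤ) := ⟨-r, by linarith [mul_neg (p : ℤ) r]⟩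
  exact_mod_cast h7

theorem prf_MTVal : MTVal := by
  intro K _ p _ _ n L _ _ _ τ y a f hn hτ hy he
  have hpp : p.Prime := Fact.out
  -- the inverse of `τ`
  obtain ⟨σ, hσ⟩ : ∃ σ, σ = τ ^ (n - 1) * xi K L 1 := ⟨_, rfl⟩
  have hτσ : τ * σ = 1 := by
    rw [hσ, ← mul_assoc, mul_comm τ, ← pow_succ, Nat.sub_add_cancel hn, hτ]
  have hσn : σ ^ n = xi K L 1 := by
    have h1 : τ ^ n * σ ^ n = 1 := by rw [← mul_pow, hτσ, one_pow]
    have h2 : τ ^ n * (σ ^ n - xi K L 1) = 0 := by rw [mul_sub, h1, hτ, sub_self]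
    have h3 : σ ^ n = σ ^ n * (τ ^ n * xi K L 1) := by rw [hτ, mul_one]
    calc σ ^ n = σ ^ n * (τ ^ n * xi K L 1) := h3
      _ = (τ ^ n * σ ^ n) * xi K L 1 := by ring
      _ = xi K L 1 := by rw [h1, one_mul]
  -- the field `K((ξ))(ξ ^ (1/n))`
  have : Fact (Irreducible (X ^ n - C (HahnSeries.single (1 : ℤ) (1 : K)) :
    (LaurentSeries K)[X])) := ⟨MTVal_irr K n hn⟩
  let P : (LaurentSeries K)[X] := X ^ n - C (HahnSeries.single (1 : ℤ) (1 : K))
  obtain ⟨Ex, hE1, hE2⟩ := MTVal_subst K n hn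
  let φ : AdjoinRoot P →+* L := AdjoinRoot.lift (algebraMap (LaurentSeries K) L) σ (by
    rw [eval₂_sub, eval₂_pow, eval₂_X, eval₂_C, hσn]
    exact sub_self _)
  let ψ : AdjoinRoot P →+* LaurentSeries K :=
    AdjoinRoot.lift Ex (HahnSeries.single (1 : ℤ) (1 : K)) (by
      rw [eval₂_sub, eval₂_pow, eval₂_X, eval₂_C, hE2, sub_self])
  have hφinj : Function.Injective φ := φ.injective
  have hφof : ∀ x, φ (AdjoinRoot.of P x) = algebraMap (LaurentSeries K) L x := fun x =>
    AdjoinRoot.lift_of _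
  have hφr : φ (AdjoinRoot.root P) = σ := AdjoinRoot.lift_root _
  have hψof : ∀ x, ψ (AdjoinRoot.of P x) = Ex x := fun x => AdjoinRoot.lift_of _
  have hψr : ψ (AdjoinRoot.root P) = HahnSeries.single (1 : ℤ) (1 : K) := AdjoinRoot.lift_root _
  have hr0 : AdjoinRoot.root P ≠ 0 := by
    intro h0
    rw [h0, map_zero] at hφr
    rw [← hφr, mul_zero] at hτσ
    exact zero_ne_one hτσ
  have hφi : φ (AdjoinRoot.root P)⁻¹ = τ := by
    have h1 : φ (AdjoinRoot.root P)⁻¹ * σ = 1 := by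
      rw [← hφr, ← map_mul, inv_mul_cancel₀ hr0, map_one]
    calc φ (AdjoinRoot.root P)⁻¹ = φ (AdjoinRoot.root P)⁻¹ * (τ * σ) := by rw [hτσ, mul_one]
      _ = τ * (φ (AdjoinRoot.root P)⁻¹ * σ) := by ring
      _ = τ := by rw [h1, mul_one]
  have hψi : ψ (AdjoinRoot.root P)⁻¹ = HahnSeries.single (-1 : ℤ) (1 : K) := by
    rw [map_inv₀, hψr, HahnSeries.inv_single, inv_one]
  obtain ⟨y₁, hy₁⟩ : ∃ y₁ : AdjoinRoot P, y₁ = ∑ i, AdjoinRoot.of P (a i) *
      ((AdjoinRoot.root P)⁻¹) ^ (i : ℕ) := ⟨_, rfl⟩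
  have hφy : φ y₁ = y := by
    rw [hy₁, hy, map_sum]
    refine Finset.sum_congr rfl fun i _ => ?_
    rw [map_mul, map_pow, hφof, hφi]
  have hφf : φ (f.eval₂ ((AdjoinRoot.of P).comp (HahnSeries.C : K →+* LaurentSeries K))
      (AdjoinRoot.root P)⁻¹) = f.eval₂ ((algebraMap (LaurentSeries K) L).comp
        (HahnSeries.C : K →+* LaurentSeries K)) τ := by
    rw [hom_eval₂, hφi]
    congr 1
    ext x
    exact hφof _
  have hψf : ψ (f.eval₂ ((AdjoinRoot.of P).comp (HahnSeries.C : K →+* LaurentSeries K))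
      (AdjoinRoot.root P)⁻¹) = f.eval₂ (HahnSeries.C : K →+* LaurentSeries K)
        (HahnSeries.single (-1 : ℤ) (1 : K)) := by
    rw [hom_eval₂, hψi]
    congr 1
    refine RingHom.ext fun x => ?_
    exact (hψof _).trans (hE1 x)
  have h1 : y₁ ^ p - y₁ = f.eval₂ ((AdjoinRoot.of P).comp (HahnSeries.C : K →+* LaurentSeries K))
      (AdjoinRoot.root P)⁻¹ := by
    apply hφinj
    rw [hφf, map_sub, map_pow, hφy, he]
  have h2 := congrArg ψ h1
  rw [hψf, map_sub, map_pow] at h2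
  exact MTVal_main p hpp.one_lt (ψ y₁) f h2

end MP7b0bad.MT
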