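import Pool.Agent.Work.MP_7b0bad_ag.MT.TStmts

set_option autoImplicit false

/-!
# Item OAS: Artin-Schreier algebras for `F_p^r`

Induction on `r`; the step is the one variable construction `QASX` of the library.
-/

namespace MP7b0bad.MT

open Polynomial

/-- the statement for a fixed base ring, `B` in the role of `R` -/
def OAS_conc (p r : ℕ) (B : Type) [CommRing B] (a : Fin r → B) : Prop :=
  ∃ (E : Type) (_ : CommRing E) (_ : Algebra B E)
    (_ : MulSemiringAction (Multiplicative (Fin r → ZMod p)) E) (y : Fin r → E),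
    GalAlg B (Multiplicative (Fin r → ZMod p)) E ∧
    (∀ (v : Fin r → ZMod p) (j : Fin r), Multiplicative.ofAdd v • y j = y j + cz E (v j)) ∧
    (∀ j, y j ^ p - y j = algebraMap B E (a j)) ∧
    (∀ (T : Type) [CommRing T] (f : B →+* T) (t : Fin r → T),
      (∀ j, t j ^ p - t j = f (a j)) →
      ∃ F : E →+* T, (∀ x, F (algebraMap B E x) = f x) ∧ ∀ j, F (y j) = t j) ∧
    ∀ (T : Type) [CommRing T] (F F' : E →+* T),
      (∀ x, F (algebraMap B E x) = F' (algebraMap B E x)) → (∀ j, F (y j) = F' (y j)) → F = F'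

/-- the trivial action of a group on a ring -/
@[reducible] def OAS_triv (G : Type) [Group G] (B : Type) [CommRing B] : MulSemiringAction G B where
  smul _ x := x
  one_smul _ := rfl
  mul_smul _ _ _ := rfl
  smul_zero _ := rfl
  smul_add _ _ _ := rfl
  smul_one _ := rfl
  smul_mul _ _ _ := rfl

/-- values of `cz` under a ring homomorphism -/
theorem OAS_cz_map {p : ℕ} {A B : Type} [CommRing A] [CommRing B] (f : A →+* B) (v : ZMod p) :
    f (cz A v) = cz B v := by
  simp only [cz, map_natCast]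

theorem OAS_cz_eq {p : ℕ} [Fact p.Prime] (B : Type) [CommRing B] [CharP B p] (v : ZMod p) :
    cz B v = ZMod.castHom (dvd_refl p) B v := by
  rw [cz, ZMod.castHom_apply, ZMod.natCast_val]

theorem OAS_cz_add {p : ℕ} [Fact p.Prime] (B : Type) [CommRing B] [CharP B p] (v w : ZMod p) :
    cz B (v + w) = cz B v + cz B w := by
  rw [OAS_cz_eq, OAS_cz_eq, OAS_cz_eq, map_add]

theorem OAS_cz_pow {p : ℕ} [Fact p.Prime] (B : Type) [CommRing B] [CharP B p] (v : ZMod p) :
    cz B v ^ p = cz B v := by
  rw [OAS_cz_eq, ← map_pow, ZMod.pow_card]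

theorem OAS_cz_one {p : ℕ} [Fact p.Prime] (B : Type) [CommRing B] : cz B (1 : ZMod p) = 1 := by
  have : Fact (1 < p) := ⟨(Fact.out : p.Prime).one_lt⟩
  rw [cz, ZMod.val_one, Nat.cast_one]

/-- the case of the trivial group -/
theorem OAS_zero (p : ℕ) (B : Type) [CommRing B] (a : Fin 0 → B) : OAS_conc p 0 B a := by
  let inst : MulSemiringAction (Multiplicative (Fin 0 → ZMod p)) B :=
    OAS_triv (Multiplicative (Fin 0 → ZMod p)) B
  refine ⟨B, inferInstance, Algebra.id B, inst, Fin.elim0, ⟨fun _ _ => rfl, fun _ _ h => h,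
    fun b _ => ⟨b, rfl⟩, fun σ hσ => (hσ ?_).elim⟩, fun _ j => j.elim0, fun j => j.elim0,
    fun T _ f t _ => ⟨f, fun _ => rfl, fun j => j.elim0⟩, fun T _ F F' h _ => RingHom.ext h⟩
  exact Multiplicative.toAdd.injective (Subsingleton.elim _ _)

/-- the case of the zero ring -/
theorem OAS_sub (p r : ℕ) (B : Type) [CommRing B] [Subsingleton B] (a : Fin r → B) :
    OAS_conc p r B a := by
  let inst : MulSemiringAction (Multiplicative (Fin r → ZMod p)) B :=
    OAS_triv (Multiplicative (Fin r → ZMod p)) B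
  refine ⟨B, inferInstance, Algebra.id B, inst, a, ⟨fun _ _ => rfl, fun _ _ h => h,
    fun b _ => ⟨b, rfl⟩, fun σ hσ => Subsingleton.elim _ _⟩, fun _ j => Subsingleton.elim _ _,
    fun j => Subsingleton.elim _ _, fun T _ f t _ => ⟨f, fun _ => rfl, fun j => ?_⟩,
    fun T _ F F' h _ => RingHom.ext h⟩
  have h1 : (1 : T) = 0 := by
    rw [← map_one f, ← map_zero f, Subsingleton.elim (1 : B) 0]
  have h2 : ∀ x y : T, x = y := fun x y => by
    rw [← one_mul x, ← one_mul y, h1, zero_mul, zero_mul]
  exact h2 _ _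

/-- forget the last coordinate -/
def OAS_q (p r : ℕ) :
    Multiplicative (Fin (r + 1) → ZMod p) →* Multiplicative (Fin r → ZMod p) :=
  AddMonoidHom.toMultiplicative
    { toFun := fun v => fun j => v j.castSucc
      map_zero' := rfl
      map_add' := fun _ _ => rfl }

theorem OAS_q_apply (p r : ℕ) (v : Fin (r + 1) → ZMod p) :
    OAS_q p r (Multiplicative.ofAdd v) = Multiplicative.ofAdd fun j => v j.castSucc := rfl

/-- the last basis vector -/
def OAS_z (p r : ℕ) : Multiplicative (Fin (r + 1) → ZMod p) :=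
  Multiplicative.ofAdd (Pi.single (Fin.last r) 1)

theorem OAS_ker (p r : ℕ) [Fact p.Prime] : (OAS_q p r).ker = Subgroup.zpowers (OAS_z p r) := by
  ext g
  obtain ⟨v, rfl⟩ := Multiplicative.ofAdd.surjective g
  rw [MonoidHom.mem_ker, OAS_q_apply, Subgroup.mem_zpowers_iff]
  constructor
  · intro h
    have h1 : ∀ j : Fin r, v j.castSucc = 0 := fun j => congrFun (Multiplicative.ofAdd.injective h) j
    refine ⟨((v (Fin.last r)).val : ℤ), ?_⟩
    rw [OAS_z, ← ofAdd_zsmul]
    refine congrArg Multiplicative.ofAdd ?_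
    funext j
    refine Fin.lastCases ?_ (fun i => ?_) j
    · simp
    · simp [h1 i]
  · rintro ⟨n, hn⟩
    rw [OAS_z, ← ofAdd_zsmul] at hn
    have h1 := Multiplicative.ofAdd.injective hn
    rw [← h1]
    refine congrArg Multiplicative.ofAdd ?_
    funext j
    simp

theorem OAS_order (p r : ℕ) [Fact p.Prime] : orderOf (OAS_z p r) = p := by
  have hp : p.Prime := Fact.out
  refine orderOf_eq_prime ?_ ?_
  · rw [OAS_z, ← ofAdd_nsmul]
    refine congrArg Multiplicative.ofAdd (?_ : _ = (0 : Fin (r + 1) → ZMod p))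
    funext j
    simp
  · intro h
    have h1 : (Pi.single (Fin.last r) 1 : Fin (r + 1) → ZMod p) = 0 :=
      Multiplicative.ofAdd.injective h
    have h2 := congrFun h1 (Fin.last r)
    simp at h2

/-- the induction step -/
theorem OAS_step (p : ℕ) [Fact p.Prime] (r : ℕ) (B : Type) [CommRing B] [CharP B p]
    (ih : ∀ a : Fin r → B, OAS_conc p r B a) (a : Fin (r + 1) → B) : OAS_conc p (r + 1) B a := by
  have hp : p.Prime := Fact.out
  obtain ⟨E₀, i1, i2, i3, y₀, hgal, hact, hpow, huniv, huniq⟩ := ih (fun j => a j.castSucc)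
  have hBnt : Nontrivial B := CharP.nontrivial_of_char_ne_one (R := B) hp.one_lt.ne'
  have hEnt : Nontrivial E₀ := hgal.inj.nontrivial
  have hchar : CharP E₀ p := charP_of_injective_algebraMap hgal.inj p
  have hfix : ∀ (g : Multiplicative (Fin r → ZMod p)) (v : ZMod p), g • cz E₀ v = cz E₀ v := by
    intro g v
    have h1 := hgal.comm g (cz B v)
    rwa [OAS_cz_map] at h1
  obtain ⟨E, j1, j2, j3, i, y, Hgal, Halg, Hinj, Hact, Hy, Hpow, Huniv, Hgen⟩ :=
    prf_QASX prf_B1 all_B2 prf_B4 all_B8 B p (Multiplicative (Fin (r + 1) → ZMod p))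
      (Multiplicative (Fin r → ZMod p)) (OAS_q p r) (OAS_z p r) E₀
      (fun g => cz E₀ (Multiplicative.toAdd g (Fin.last r)))
      (algebraMap B E₀ (a (Fin.last r))) (fun g => by
        refine ⟨Multiplicative.ofAdd (Fin.snoc (α := fun _ => ZMod p) (Multiplicative.toAdd g) 0), ?_⟩
        rw [OAS_q_apply]
        refine congrArg Multiplicative.ofAdd ?_
        funext j
        rw [Fin.snoc_castSucc]
        rfl)
      (by rw [Subgroup.mem_center_iff]; exact fun g => mul_comm _ _) (OAS_order p r) (OAS_ker p r)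
      hgal (fun g h => by
        rw [hfix, toAdd_mul, Pi.add_apply, OAS_cz_add])
      (by
        rw [OAS_z, toAdd_ofAdd, Pi.single_eq_same, OAS_cz_one])
      (fun g => by
        rw [OAS_cz_pow, hgal.comm, sub_self, sub_self])
  refine ⟨E, j1, j2, j3, Fin.snoc (α := fun _ => E) (fun j => i (y₀ j)) y, Hgal, ?_, ?_, ?_, ?_⟩
  · intro v j
    refine Fin.lastCases ?_ (fun j => ?_) j
    · rw [Fin.snoc_last, Hy, OAS_cz_map, toAdd_ofAdd]
    · rw [Fin.snoc_castSucc, Hact, OAS_q_apply, hact, map_add, OAS_cz_map]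
  · intro j
    refine Fin.lastCases ?_ (fun j => ?_) j
    · rw [Fin.snoc_last, Hpow, Halg]
    · rw [Fin.snoc_castSucc, ← map_pow, ← map_sub, hpow, Halg]
  · intro T _ f t ht
    obtain ⟨F₀, hF1, hF2⟩ := huniv T f (fun j => t j.castSucc) (fun j => ht j.castSucc)
    obtain ⟨F, hF3, hF4⟩ := Huniv T F₀ (t (Fin.last r)) (by rw [hF1, ht])
    refine ⟨F, fun x => ?_, fun j => ?_⟩
    · rw [← Halg, hF3, hF1]
    · refine Fin.lastCases ?_ (fun j => ?_) j
      · rw [Fin.snoc_last, hF4]
      · rw [Fin.snoc_castSucc, hF3, hF2]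
  · intro T _ F F' h1 h2
    have h3 : F.comp i = F'.comp i := by
      refine huniq T _ _ (fun x => ?_) (fun j => ?_)
      · rw [RingHom.comp_apply, RingHom.comp_apply, Halg, h1]
      · have h4 := h2 j.castSucc
        rw [Fin.snoc_castSucc] at h4
        exact h4
    have h5 := h2 (Fin.last r)
    rw [Fin.snoc_last] at h5
    refine RingHom.ext fun x => ?_
    obtain ⟨c, rfl⟩ := Hgen x
    rw [map_sum, map_sum]
    refine Finset.sum_congr rfl fun l _ => ?_
    rw [map_mul, map_mul, map_pow, map_pow, h5]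
    have h6 := RingHom.congr_fun h3 (c l)
    rw [RingHom.comp_apply, RingHom.comp_apply] at h6
    rw [h6]

theorem prf_OAS : OAS := by
  intro p hpf r B _ a h0
  have hp : p.Prime := hpf.out
  rcases subsingleton_or_nontrivial B with hB | hB
  · exact OAS_sub p r B a
  · have hchar : CharP B p := by
      obtain ⟨c, hc⟩ := CharP.exists B
      have h1 : c ∣ p := (CharP.cast_eq_zero_iff B c p).1 h0
      rcases (Nat.dvd_prime hp).1 h1 with h2 | h2
      · subst h2
        have h3 := (CharP.cast_eq_zero_iff B 1 1).2 dvd_rfl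
        rw [Nat.cast_one] at h3
        exact (one_ne_zero (α := B) h3).elim
      · subst h2
        exact hc
    have key : ∀ (r : ℕ) (a : Fin r → B), OAS_conc p r B a := by
      intro r
      induction r with
      | zero => exact fun a => OAS_zero p B a
      | succ r ih => exact fun a => OAS_step p r B ih a
    exact key r a

end MP7b0bad.MT
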