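import Pool.Agent.Work.MP_7b0bad_ag.MT.TStmts

set_option autoImplicit false

/-! Item OCoh: existence of the cocycle `z` and of `a` with coboundary `z^p - z`. -/

namespace MP7b0bad.MT

open Polynomial

theorem OCoh_mod {p : ℕ} {B : Type} [CommRing B] (hp : (p : B) = 0) (n : ℕ) :
    ((n % p : ℕ) : B) = (n : B) := by
  conv_rhs => rw [← Nat.mod_add_div n p]
  push_cast
  rw [hp, zero_mul, add_zero]

/-- `cz` as a ring homomorphism -/
def OCoh_czR {p : ℕ} [Fact p.Prime] {B : Type} [CommRing B] (hp : (p : B) = 0) : ZMod p →+* B where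
  toFun := cz B
  map_zero' := by
    show (((0 : ZMod p).val : ℕ) : B) = 0
    rw [ZMod.val_zero, Nat.cast_zero]
  map_one' := by
    show (((1 : ZMod p).val : ℕ) : B) = 1
    rw [ZMod.val_one, Nat.cast_one]
  map_add' a b := by
    show (((a + b : ZMod p).val : ℕ) : B) = ((a.val : ℕ) : B) + ((b.val : ℕ) : B)
    rw [ZMod.val_add, OCoh_mod hp, Nat.cast_add]
  map_mul' a b := by
    show (((a * b : ZMod p).val : ℕ) : B) = ((a.val : ℕ) : B) * ((b.val : ℕ) : B)
    rw [ZMod.val_mul, OCoh_mod hp, Nat.cast_mul]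

theorem OCoh_cz {p : ℕ} [Fact p.Prime] {B : Type} [CommRing B] (hp : (p : B) = 0) (a : ZMod p) :
    cz B a = OCoh_czR hp a := rfl

theorem OCoh_smul_cz {p : ℕ} {L D : Type} [CommRing L] [Group D] [MulSemiringAction D L] (e : D)
    (a : ZMod p) : e • (cz L a : L) = cz L a := by
  unfold cz
  exact map_natCast (MulSemiringAction.toRingHom D L e) _

theorem OCoh_addpow {p : ℕ} [Fact p.Prime] {B : Type} [CommRing B] (hp : (p : B) = 0) (x y : B) :
    (x + y) ^ p = x ^ p + y ^ p := by
  rw [add_pow_prime_eq (Fact.out : p.Prime), hp]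
  simp

theorem OCoh_sumpow {p : ℕ} [Fact p.Prime] {B ι : Type} [CommRing B] (hp : (p : B) = 0)
    (s : Finset ι) (x : ι → B) : (∑ j ∈ s, x j) ^ p = ∑ j ∈ s, x j ^ p := by
  classical
  induction s using Finset.induction_on with
  | empty => simp [(Fact.out : p.Prime).ne_zero]
  | insert a s ha ih => rw [Finset.sum_insert ha, Finset.sum_insert ha, OCoh_addpow hp, ih]

theorem OCoh_czpow {p : ℕ} [Fact p.Prime] {B : Type} [CommRing B] (hp : (p : B) = 0)
    (a : ZMod p) : (cz B a) ^ p = cz B a := by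
  rw [OCoh_cz hp, ← map_pow, ZMod.pow_card]

/-- a twisted cocycle on `Γb` is a coboundary -/
theorem OCoh_cob {R : Type} [CommRing R] {p r : ℕ} {Γb : Type} [Group Γb] [Fintype Γb]
    (M : Γb →* Matrix (Fin r) (Fin r) (ZMod p)) {B : Type} [CommRing B] [Algebra R B]
    [MulSemiringAction Γb B] (t : B) (ht : ∑ σ : Γb, σ • t = 1) (W : Γb → Fin r → B)
    (hW : ∀ g h : Γb, W (g * h) = W g + vA (M g) (g • W h)) :
    ∃ a : Fin r → B, ∀ g : Γb, W g = vA (M g) (g • a) - a := by
  classical
  refine ⟨fun j => -∑ σ : Γb, (σ • t) * W σ j, fun e => ?_⟩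
  funext j
  have h1 : vA (M e) (e • (fun j => -∑ d : Γb, (d • t) * W d j)) j =
      -∑ d : Γb, ((e * d) • t) * ∑ l, cz B (M e j l) * (e • W d l) := by
    unfold vA
    have h2 : ∀ l, (e • (fun j => -∑ d : Γb, (d • t) * W d j) : Fin r → B) l =
        -∑ d : Γb, ((e * d) • t) * (e • W d l) := by
      intro l
      show e • (-∑ d : Γb, (d • t) * W d l) = _
      rw [smul_neg, Finset.smul_sum]
      congr 1
      refine Finset.sum_congr rfl fun d _ => ?_
      rw [smul_mul', mul_smul]
    simp only [h2]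
    simp only [mul_neg, Finset.sum_neg_distrib, Finset.mul_sum]
    rw [Finset.sum_comm]
    congr 1
    refine Finset.sum_congr rfl fun d _ => Finset.sum_congr rfl fun l _ => ?_
    ring
  have h3 : ∀ d : Γb, ∑ l, cz B (M e j l) * (e • W d l) = W (e * d) j - W e j := by
    intro d
    have h4 := congrFun (hW e d) j
    rw [h4]
    show ∑ l, cz B (M e j l) * (e • W d l) =
      (W e j + ∑ l, cz B (M e j l) * (e • W d l)) - W e j
    ring
  show W e j = vA (M e) (e • (fun j => -∑ d : Γb, (d • t) * W d j)) j -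
    (-∑ d : Γb, (d • t) * W d j)
  rw [h1]
  simp only [h3]
  have h6 : ∑ d : Γb, ((e * d) • t) * (W (e * d) j - W e j) =
      ∑ d : Γb, (d • t) * (W d j - W e j) :=
    Fintype.sum_equiv (Equiv.mulLeft e) _ _ (fun d => rfl)
  rw [h6]
  simp only [mul_sub, Finset.sum_sub_distrib, ← Finset.sum_mul, ht, one_mul]
  ring

theorem prf_OCoh : OCoh := by
  intro R _ p _ r Γ Γb _ _ _ _ π i M B _ _ _ hpR hE hgal
  classical
  let _ : Fintype Γb := Fintype.ofFinite Γb
  obtain ⟨t, ht⟩ := gal_trace_one hgal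
  have hp : (p : B) = 0 := by
    have h := congrArg (algebraMap R B) hpR
    rwa [map_natCast, map_zero] at h
  choose s hs using hE.surj
  -- the cocycle of the section
  have hc : ∀ (g : Γ) (σ : Γb), ∃ v : Multiplicative (Fin r → ZMod p),
      i v = g * s σ * (s (π g * σ))⁻¹ := by
    intro g σ
    refine (hE.ker _).1 ?_
    rw [map_mul, map_mul, map_inv, hs, hs, mul_inv_cancel]
  choose c hc using hc
  have hcm : ∀ (g h : Γ) (σ : Γb), Multiplicative.toAdd (c (g * h) σ) =
      (M (π g)).mulVec (Multiplicative.toAdd (c h σ)) + Multiplicative.toAdd (c g (π h * σ)) := by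
    intro g h σ
    have h1 : i (c (g * h) σ) = i (Multiplicative.ofAdd
        ((M (π g)).mulVec (Multiplicative.toAdd (c h σ)) +
          Multiplicative.toAdd (c g (π h * σ)))) := by
      rw [ofAdd_add, map_mul, ← hE.conj, ofAdd_toAdd, ofAdd_toAdd, hc, hc, hc, map_mul,
        mul_assoc (π g)]
      group
    have h2 := hE.inj h1
    rw [h2]
    rfl
  have hck : ∀ (v : Fin r → ZMod p) (σ : Γb),
      Multiplicative.toAdd (c (i (Multiplicative.ofAdd v)) σ) = v := by
    intro v σ
    have h0 : π (i (Multiplicative.ofAdd v)) = 1 := (hE.ker _).2 ⟨_, rfl⟩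
    have h1 : i (c (i (Multiplicative.ofAdd v)) σ) = i (Multiplicative.ofAdd v) := by
      rw [hc, h0, one_mul, mul_inv_cancel_right]
    rw [hE.inj h1]
    rfl
  -- the cocycle
  set z : Γ → Fin r → B := fun g j =>
    ∑ σ : Γb, cz B (Multiplicative.toAdd (c g σ) j) * ((π g * σ) • t) with hz
  have hzm : ∀ g h : Γ, z (g * h) = z g + vA (M (π g)) (π g • z h) := by
    intro g h
    funext j
    show ∑ σ : Γb, cz B (Multiplicative.toAdd (c (g * h) σ) j) * ((π (g * h) * σ) • t) =
      ∑ σ : Γb, cz B (Multiplicative.toAdd (c g σ) j) * ((π g * σ) • t) +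
        ∑ l, cz B (M (π g) j l) *
          (π g • ∑ σ : Γb, cz B (Multiplicative.toAdd (c h σ) l) * ((π h * σ) • t))
    have h1 : ∀ σ : Γb, cz B (Multiplicative.toAdd (c (g * h) σ) j) * ((π (g * h) * σ) • t) =
        cz B (Multiplicative.toAdd (c g (π h * σ)) j) * ((π g * (π h * σ)) • t) +
        ∑ l, cz B (M (π g) j l) *
          (cz B (Multiplicative.toAdd (c h σ) l) * ((π g * (π h * σ)) • t)) := by
      intro σ
      rw [hcm, map_mul, mul_assoc (π g)]
      have h2 : cz B (((M (π g)).mulVec (Multiplicative.toAdd (c h σ)) +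
          Multiplicative.toAdd (c g (π h * σ))) j) =
          ∑ l, cz B (M (π g) j l) * cz B (Multiplicative.toAdd (c h σ) l) +
            cz B (Multiplicative.toAdd (c g (π h * σ)) j) := by
        show OCoh_czR hp (∑ l, M (π g) j l * Multiplicative.toAdd (c h σ) l +
          Multiplicative.toAdd (c g (π h * σ)) j) =
          ∑ l, OCoh_czR hp (M (π g) j l) * OCoh_czR hp (Multiplicative.toAdd (c h σ) l) +
            OCoh_czR hp (Multiplicative.toAdd (c g (π h * σ)) j)
        rw [map_add, map_sum]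
        simp only [map_mul]
      rw [h2, add_mul, Finset.sum_mul, add_comm]
      congr 1
      exact Finset.sum_congr rfl fun l _ => by ring
    rw [Finset.sum_congr rfl fun σ _ => h1 σ, Finset.sum_add_distrib]
    congr 1
    · exact Fintype.sum_equiv (Equiv.mulLeft (π h)) _ _ (fun d => rfl)
    · rw [Finset.sum_comm]
      refine Finset.sum_congr rfl fun l _ => ?_
      rw [← Finset.mul_sum, Finset.smul_sum]
      congr 1
      refine Finset.sum_congr rfl fun σ _ => ?_
      rw [smul_mul', OCoh_smul_cz, ← mul_smul]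
  have hzk : ∀ v : Fin r → ZMod p, z (i (Multiplicative.ofAdd v)) = fun j => cz B (v j) := by
    intro v
    funext j
    show ∑ σ : Γb, cz B (Multiplicative.toAdd (c (i (Multiplicative.ofAdd v)) σ) j) *
      ((π (i (Multiplicative.ofAdd v)) * σ) • t) = cz B (v j)
    have h0 : π (i (Multiplicative.ofAdd v)) = 1 := (hE.ker _).2 ⟨_, rfl⟩
    simp only [hck, h0, one_mul]
    rw [← Finset.mul_sum, ht, mul_one]
  clear_value z
  -- the power map
  set w : Γ → Fin r → B := fun g j => z g j ^ p - z g j with hw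
  have hwm : ∀ g h : Γ, w (g * h) = w g + vA (M (π g)) (π g • w h) := by
    intro g h
    funext j
    have h1 : z (g * h) j = z g j + ∑ l, cz B (M (π g) j l) * (π g • z h l) :=
      congrFun (hzm g h) j
    show z (g * h) j ^ p - z (g * h) j = (z g j ^ p - z g j) +
      ∑ l, cz B (M (π g) j l) * (π g • (z h l ^ p - z h l))
    rw [h1, OCoh_addpow hp, OCoh_sumpow hp]
    simp only [mul_pow, OCoh_czpow hp, smul_sub, smul_pow', mul_sub, Finset.sum_sub_distrib]
    ring
  have hwk : ∀ v : Fin r → ZMod p, w (i (Multiplicative.ofAdd v)) = 0 := by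
    intro v
    funext j
    show z (i (Multiplicative.ofAdd v)) j ^ p - z (i (Multiplicative.ofAdd v)) j = 0
    rw [hzk]
    show cz B (v j) ^ p - cz B (v j) = 0
    rw [OCoh_czpow hp, sub_self]
  have hvA1 : ∀ x : Fin r → B, vA (1 : Matrix (Fin r) (Fin r) (ZMod p)) x = x := by
    intro x
    funext a
    show ∑ j, OCoh_czR hp ((1 : Matrix (Fin r) (Fin r) (ZMod p)) a j) * x j = x a
    rw [Finset.sum_eq_single a]
    · rw [Matrix.one_apply_eq, map_one, one_mul]
    · intro j _ hj
      rw [Matrix.one_apply_ne (Ne.symm hj), map_zero, zero_mul]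
    · intro h
      exact absurd (Finset.mem_univ a) h
  have hws : ∀ g : Γ, w g = w (s (π g)) := by
    intro g
    obtain ⟨v, hv⟩ := (hE.ker (g * (s (π g))⁻¹)).1 (by
      rw [map_mul, map_inv, hs, mul_inv_cancel])
    have h0 : π (i v) = 1 := (hE.ker _).2 ⟨_, rfl⟩
    have h1 : g = i v * s (π g) := by rw [hv, inv_mul_cancel_right]
    have h2 : w (i v) = 0 := hwk (Multiplicative.toAdd v)
    conv_lhs => rw [h1]
    rw [hwm, h2, h0, map_one, hvA1, one_smul, zero_add]
  obtain ⟨a, ha⟩ := OCoh_cob (R := R) M t ht (fun σ => w (s σ)) (by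
    intro g h
    show w (s (g * h)) = w (s g) + vA (M g) (g • w (s h))
    have h1 := hwm (s g) (s h)
    rw [hs] at h1
    rw [← h1, hws (s g * s h), map_mul, hs, hs])
  refine ⟨z, a, ⟨hzm, hzk⟩, fun g => ?_⟩
  show w g = vA (M (π g)) (π g • a) - a
  rw [← ha (π g)]
  exact hws g

end MP7b0bad.MT
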