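import Pool.Agent.Work.MP_7b0bad_ag.MT.TStmts

set_option autoImplicit false

/-! Item ODisc: the local embedding problems at the discs. -/

namespace MP7b0bad.MT

open Polynomial

theorem ODisc_map_cz {p : ℕ} {B L : Type} [CommRing B] [CommRing L] (ψ : B →+* L) (a : ZMod p) :
    ψ (cz B a) = cz L a := by
  unfold cz
  exact map_natCast ψ _

theorem ODisc_vA_add {p r : ℕ} {B : Type} [CommRing B] (M : Matrix (Fin r) (Fin r) (ZMod p))
    (x y : Fin r → B) : vA M (x + y) = vA M x + vA M y := by
  funext i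
  simp only [vA, Pi.add_apply, mul_add, Finset.sum_add_distrib]

theorem ODisc_vA_sub {p r : ℕ} {B : Type} [CommRing B] (M : Matrix (Fin r) (Fin r) (ZMod p))
    (x y : Fin r → B) : vA M (x - y) = vA M x - vA M y := by
  funext i
  simp only [vA, Pi.sub_apply, mul_sub, Finset.sum_sub_distrib]

theorem ODisc_vA_map {p r : ℕ} {B L : Type} [CommRing B] [CommRing L] (ψ : B →+* L)
    (M : Matrix (Fin r) (Fin r) (ZMod p)) (x : Fin r → B) :
    (fun j => ψ (vA M x j)) = vA M (fun j => ψ (x j)) := by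
  funext i
  simp only [vA, map_sum, map_mul, ODisc_map_cz]

/-- the Frobenius endomorphism -/
theorem ODisc_frob (p : ℕ) [Fact p.Prime] (B : Type) [CommRing B] (hB : (p : B) = 0) :
    ∃ F : B →+* B, ∀ x, F x = x ^ p := by
  by_cases h : Subsingleton B
  · exact ⟨RingHom.id B, fun x => Subsingleton.elim _ _⟩
  · rw [not_subsingleton_iff_nontrivial] at h
    have h2 := CharP.ringChar_of_prime_eq_zero (R := B) (p := p) Fact.out hB
    have h3 : CharP B (ringChar B) := ringChar.charP B
    rw [h2] at h3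
    exact ⟨frobenius B p, fun x => rfl⟩

theorem ODisc_vA_as {p r : ℕ} [Fact p.Prime] {B : Type} [CommRing B] (hB : (p : B) = 0)
    (M : Matrix (Fin r) (Fin r) (ZMod p)) (x : Fin r → B) (j : Fin r) :
    vA M x j ^ p - vA M x j = vA M (fun j => x j ^ p - x j) j := by
  obtain ⟨F, hF⟩ := ODisc_frob p B hB
  have h1 : vA M x j ^ p = vA M (fun j => x j ^ p) j := by
    rw [← hF]
    have h2 := congrFun (ODisc_vA_map F M x) j
    simpa only [hF] using h2
  rw [h1]
  have h3 : (fun j => x j ^ p - x j) = (fun j => x j ^ p) - x := rfl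
  rw [h3, ODisc_vA_sub]
  rfl

theorem ODisc_add_as {p : ℕ} [Fact p.Prime] {B : Type} [CommRing B] (hB : (p : B) = 0)
    (x y : B) : (x + y) ^ p - (x + y) = (x ^ p - x) + (y ^ p - y) := by
  obtain ⟨F, hF⟩ := ODisc_frob p B hB
  rw [← hF, ← hF, ← hF, map_add]
  ring

theorem ODisc_smul_as {p r : ℕ} {L D : Type} [CommRing L] [Group D] [MulSemiringAction D L]
    (d : D) (x : Fin r → L) :
    (d • fun j => x j ^ p - x j) = fun j => (d • x) j ^ p - (d • x) j := by
  funext j
  show d • (x j ^ p - x j) = (d • x j) ^ p - d • x j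
  rw [smul_sub, smul_pow']

/-- a multiple by an element of the prime field stays in a subgroup -/
theorem ODisc_cz_mem {p : ℕ} {L : Type} [CommRing L] (S : AddSubgroup L) (a : ZMod p) {x : L}
    (hx : x ∈ S) : cz L a * x ∈ S := by
  unfold cz
  rw [← nsmul_eq_mul]
  exact S.nsmul_mem hx _

theorem ODisc_vA_mem {p r : ℕ} {L : Type} [CommRing L] (S : AddSubgroup L)
    (M : Matrix (Fin r) (Fin r) (ZMod p)) {x : Fin r → L} (hx : ∀ j, x j ∈ S) (j : Fin r) :
    vA M x j ∈ S :=
  AddSubgroup.sum_mem S fun i _ => ODisc_cz_mem S _ (hx i)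

/-- a bound for finitely many integers -/
theorem ODisc_bdd {N r : ℕ} (f : Fin N → Fin r → ℤ) : ∃ b : ℤ, ∀ l j, f l j ≤ b := by
  obtain ⟨b, hb⟩ := (Set.finite_range (fun s : Fin N × Fin r => f s.1 s.2)).bddAbove
  exact ⟨b, fun l j => hb ⟨(l, j), rfl⟩⟩

theorem prf_ODisc (hOLoc : OLoc) (hOTDen : OTDen) (hOFil : OFil) : ODisc := by
  intro k _ p _ _ N R _ ρ θ hpR hDns hθ r Γ Γb _ _ _ _ π i M B _ _ _ z a hEl hGB hZC hZA D _ _ δ
    L _ _ _ ψ hGL hψalg hψact
  have hpB : (p : B) = 0 := by
    have := congrArg (algebraMap R B) hpR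
    rwa [map_natCast, map_zero] at this
  have hpL : ∀ l, (p : L l) = 0 := by
    intro l
    have := congrArg (ψ l) hpB
    rwa [map_natCast, map_zero] at this
  have hpΛ : (p : LaurentPolynomial k) = 0 := by
    have := congrArg (LaurentPolynomial.C : k →+* LaurentPolynomial k) (CharP.cast_eq_zero k p)
    rwa [map_natCast, map_zero] at this
  -- invariance of the image of an invariant vector
  have himg : ∀ (v : Fin r → B), (∀ g : Γb, vA (M g) (g • v) = v) → ∀ l (d : D l),
      vA (M (π (δ l d))) (d • fun j => ψ l (v j)) = fun j => ψ l (v j) := by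
    intro v hv l d
    have h1 : (d • fun j => ψ l (v j)) = fun j => ψ l ((π (δ l d) • v) j) := by
      funext j
      exact (hψact l d (v j)).symm
    rw [h1, ← ODisc_vA_map, hv]
  choose y0 hy0 using fun l => hOLoc p r Γ Γb π i M B z (KWp k) (D l) (δ l) (L l) (ψ l) (hpL l)
    hZC.mul (hGL l) (hψact l)
  -- the defect of the first solution
  have hw0 : ∀ l (d : D l), vA (M (π (δ l d))) (d • fun j => y0 l j ^ p - y0 l j - ψ l (a j)) =
      fun j => y0 l j ^ p - y0 l j - ψ l (a j) := by
    intro l d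
    have h1 : (d • fun j => y0 l j ^ p - y0 l j - ψ l (a j)) =
        (fun j => (d • y0 l) j ^ p - (d • y0 l) j) - (fun j => ψ l ((π (δ l d) • a) j)) := by
      funext j
      show d • (y0 l j ^ p - y0 l j - ψ l (a j)) =
        (d • y0 l j) ^ p - d • y0 l j - ψ l (π (δ l d) • a j)
      rw [smul_sub, smul_sub, smul_pow', hψact]
    rw [h1, ODisc_vA_sub, ← ODisc_vA_map]
    funext j
    have h2 := ODisc_vA_as (hpL l) (M (π (δ l d))) (d • y0 l) j
    rw [Pi.sub_apply, ← h2, hy0 l d, Pi.add_apply, ODisc_add_as (hpL l)]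
    have h3 := congrArg (ψ l) (congrFun (hZA (δ l d)) j)
    rw [map_sub, map_pow, Pi.sub_apply, map_sub] at h3
    rw [h3]
    ring
  obtain ⟨n, u, hu, hgen⟩ := hOTDen R p r Γb M B hpR hGB
  choose κ hκ using fun l => hgen (KWp k) (ρ l) (D l) (π.comp (δ l)) (L l) (ψ l) (hGL l)
    (hψalg l) (fun d x => hψact l d x) (fun j => y0 l j ^ p - y0 l j - ψ l (a j)) (hw0 l)
  choose S hSD hSu hSm using fun l => hOFil (LaurentPolynomial k) p (D l) (L l) hpΛ (hGL l)
  choose m1 hm1 using fun l (j : Fin r) => hSm l n (fun m => ψ l (u m j))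
  obtain ⟨m0, hm0⟩ := ODisc_bdd m1
  choose x hx using fun m : Fin n => hDns (fun l => κ l m) m0
  have hr1 : ∀ g : Γb, vA (M g) (g • fun j => ∑ m, algebraMap R B (x m) * u m j) =
      fun j => ∑ m, algebraMap R B (x m) * u m j := by
    intro g
    funext j
    show ∑ i, cz B (M g j i) * (g • ∑ m, algebraMap R B (x m) * u m i) = _
    have h1 : ∀ i, cz B (M g j i) * (g • ∑ m, algebraMap R B (x m) * u m i) =
        ∑ m, algebraMap R B (x m) * (cz B (M g j i) * (g • u m i)) := by
      intro i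
      rw [Finset.smul_sum, Finset.mul_sum]
      refine Finset.sum_congr rfl fun m _ => ?_
      rw [smul_mul', hGB.comm]
      ring
    simp only [h1]
    rw [Finset.sum_comm]
    refine Finset.sum_congr rfl fun m _ => ?_
    rw [← Finset.mul_sum]
    congr 1
    exact congrFun (hu m g) j
  refine ⟨fun j => ∑ m, algebraMap R B (x m) * u m j, hr1, ?_⟩
  intro w hw
  choose m2 hm2 using fun l (j : Fin r) => hSm l 1 (fun _ => ψ l (w j))
  obtain ⟨b1, hb1⟩ := ODisc_bdd m2
  refine ⟨b1.toNat, fun b hb l => ?_⟩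
  have hbb : b1 ≤ (b : ℤ) := le_trans (Int.self_le_toNat b1) (by exact_mod_cast hb)
  -- the small element
  obtain ⟨s, hs⟩ : ∃ s : Fin r → L l, s = fun j => (∑ m, ψ l (algebraMap R B (x m) * u m j)) +
      ψ l (algebraMap R B (θ ^ b) * w j) - (y0 l j ^ p - y0 l j - ψ l (a j)) := ⟨_, rfl⟩
  have hθb : ∀ v : B, ψ l (algebraMap R B (θ ^ b) * v) =
      algebraMap (KWp k) (L l) (HahnSeries.single (b : ℤ) (1 : LaurentPolynomial k)) * ψ l v := by
    intro v
    rw [map_mul, hψalg, map_pow, hθ, HahnSeries.single_pow, one_pow]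
    congr 3
    simp
  have hsS : ∀ j, s j ∈ S l := by
    intro j
    have h1 : s j = ∑ m, algebraMap (KWp k) (L l) (ρ l (x m) - κ l m) * ψ l (u m j) +
        ∑ _ : Fin 1, algebraMap (KWp k) (L l)
          (HahnSeries.single (b : ℤ) (1 : LaurentPolynomial k)) * ψ l (w j) := by
      have h2 : s j = (∑ m, ψ l (algebraMap R B (x m) * u m j)) +
        ψ l (algebraMap R B (θ ^ b) * w j) - (y0 l j ^ p - y0 l j - ψ l (a j)) := by rw [hs]
      rw [h2, hκ l j, hθb]
      simp only [map_mul, hψalg, map_sub, sub_mul, Finset.sum_sub_distrib, Finset.univ_unique,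
        Finset.sum_const, Finset.card_singleton, one_smul]
      ring
    rw [h1]
    refine AddSubgroup.add_mem _ ?_ ?_
    · exact hm1 l j (fun m => ρ l (x m) - κ l m)
        (fun m t ht => hx m l t (lt_of_lt_of_le ht (hm0 l j)))
    · refine hm2 l j (fun _ => HahnSeries.single (b : ℤ) (1 : LaurentPolynomial k))
        (fun m t ht => ?_)
      refine HahnSeries.coeff_single_of_ne ?_
      have := hb1 l j
      omega
  have hsinv : ∀ d : D l, vA (M (π (δ l d))) (d • s) = s := by
    intro d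
    have h1 : s = ((fun j => ψ l (∑ m, algebraMap R B (x m) * u m j)) +
        fun j => ψ l (algebraMap R B (θ ^ b) * w j)) -
        (fun j => y0 l j ^ p - y0 l j - ψ l (a j)) := by
      rw [hs]
      funext j
      simp only [Pi.sub_apply, Pi.add_apply, map_sum]
    have h2 : ∀ g : Γb, vA (M g) (g • fun j => algebraMap R B (θ ^ b) * w j) =
        fun j => algebraMap R B (θ ^ b) * w j := by
      intro g
      funext j
      show ∑ i, cz B (M g j i) * (g • (algebraMap R B (θ ^ b) * w i)) = _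
      have h3 : ∀ i, cz B (M g j i) * (g • (algebraMap R B (θ ^ b) * w i)) =
          algebraMap R B (θ ^ b) * (cz B (M g j i) * (g • w i)) := by
        intro i
        rw [smul_mul', hGB.comm]
        ring
      simp only [h3]
      rw [← Finset.mul_sum]
      congr 1
      exact congrFun (hw g) j
    rw [h1, smul_sub, smul_add, ODisc_vA_sub, ODisc_vA_add, himg _ hr1, himg _ h2, hw0]
  choose h hhS hheq hhuniq using fun j => hSu l (s j) (hsS j)
  refine ⟨y0 l + h, fun d => ?_, fun j => ?_⟩
  · have h1 : vA (M (π (δ l d))) (d • h) = h := by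
      funext j
      refine hhuniq j _ (ODisc_vA_mem (S l) _ (fun i => hSD l d _ (hhS i)) j) ?_
      rw [ODisc_vA_as (hpL l)]
      have h2 : (fun j => (d • h) j ^ p - (d • h) j) = d • s := by
        rw [← ODisc_smul_as]
        congr 1
        funext j
        exact hheq j
      rw [h2, hsinv]
    rw [smul_add, ODisc_vA_add, hy0, h1]
    abel
  · show (y0 l j + h j) ^ p - (y0 l j + h j) = _
    rw [ODisc_add_as (hpL l), hheq, hs]
    simp only [map_add, map_sum]
    ring

end MP7b0bad.MT
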