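import Pool.Agent.Work.MP_7b0bad_ag.MT.OStmts

set_option autoImplicit false

/-!
# Join of covers with tame inertia: the base ring, the tame torsor, local algebras, assembly
-/

namespace MP7b0bad.MT

open Polynomial

/-- existence of the base ring -/
def ORB : Prop := ∀ (k : Type) [Field k] (N : ℕ) (W : k[X]) (a : Fin N → k) (η : Fin N → KW k),
  DiscsT k N W a η → 0 < N →
  ∃ b : RB k N (VT k W) (fun i => WF k (η i)),
    ∀ i (f : (LaurentSeries k)[X]), b.ρ i (b.κ f) = toP k (f.eval₂ (KKW k) (η i))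

/-- density of the base ring -/
def ODns : Prop := ∀ (k : Type) [Field k] (p : ℕ) [Fact p.Prime] [CharP k p] (N : ℕ) (W : k[X])
  (a : Fin N → k) (η : Fin N → KW k), DiscsT k N W a η → 0 < N →
  ∀ b : RB k N (VT k W) (fun i => WF k (η i)),
  (∀ i (f : (LaurentSeries k)[X]), b.ρ i (b.κ f) = toP k (f.eval₂ (KKW k) (η i))) → Dns b.ρ

/-- the substitution `1/X ↦ T^m / w`, `k((1/X)) → k[w, 1/w]((T))` -/
structure PSp (k : Type) [Field k] (m : ℕ) (ψ : LaurentSeries k →+* KWp k) : Prop where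
  c : ∀ a : k, ψ (HahnSeries.C a) = HahnSeries.C (LaurentPolynomial.C a)
  p : ∀ f : k[X], ψ (atInf k f) = toXp k m f
  w : ∀ f : k[X], WFp k (toXp k m f) = toXm k m f
  ord : ∀ a : LaurentSeries k, a ≠ 0 → (WFp k (ψ a)).order = (m : ℤ) * a.order

def OPsp : Prop := ∀ (k : Type) [Field k] (m : ℕ), 0 < m → ∃ ψ, PSp k m ψ

/-- the local algebras over `k[w, 1/w]((T))` and over `F` -/
def OLQ : Prop := ∀ (k : Type) [Field k] [IsAlgClosed k] (m : ℕ) (ψ : LaurentSeries k →+* KWp k)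
  (D : Type) [Group D] [Finite D] (E : Type) [CommRing E] [Algebra (LaurentSeries k) E]
  [MulSemiringAction D E], 0 < m → PSp k m ψ → Nat.Coprime m (Nat.card D) →
  GalAlg (LaurentSeries k) D E → IsDomain E →
  ∃ (L : Type) (_ : CommRing L) (_ : Algebra (KWp k) L) (_ : MulSemiringAction D L)
    (Q : Type) (_ : CommRing Q) (_ : Algebra (Fk k) Q) (_ : MulSemiringAction D Q)
    (lE : E →+* L) (lQ : L →+* Q), GalAlg (KWp k) D L ∧ GalAlg (Fk k) D Q ∧ IsDomain Q ∧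
    (∀ a, lE (algebraMap (LaurentSeries k) E a) = algebraMap (KWp k) L (ψ a)) ∧
    (∀ (d : D) (x : E), lE (d • x) = d • lE x) ∧
    (∀ a, lQ (algebraMap (KWp k) L a) = algebraMap (Fk k) Q (WFp k a)) ∧
    ∀ (d : D) (x : L), lQ (d • x) = d • lQ x

/-- the group of the tame torsor -/
abbrev CT (n : Fin 2 → ℕ) : Type := (i : Fin 2) → Multiplicative (ZMod (n i))

/-- the generator of the `i`-th factor -/
def cT (n : Fin 2 → ℕ) (i : Fin 2) : CT n := Pi.mulSingle i (Multiplicative.ofAdd 1)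

/-- Kummer algebras: `s_i^{n_i} = f_i`, `f_i` units -/
def OKA : Prop := ∀ (R : Type) [CommRing R] [Nontrivial R] (n : Fin 2 → ℕ) (f : Fin 2 → R)
  (ζ : Fin 2 → R), (∀ i, 0 < n i) → (∀ i, IsUnit (n i : R)) → (∀ i, IsUnit (f i)) →
  (∀ i, ζ i ^ n i = 1) → (∀ i (j : ℕ), 0 < j → j < n i → IsUnit (1 - ζ i ^ j)) →
  ∃ (A : Type) (_ : CommRing A) (_ : Algebra R A) (_ : MulSemiringAction (CT n) A)
    (s : Fin 2 → A), GalAlg R (CT n) A ∧ (∀ i, s i ^ n i = algebraMap R A (f i)) ∧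
    (∀ (g : CT n) i, g • s i = algebraMap R A (ζ i ^ (Multiplicative.toAdd (g i)).val) * s i) ∧
    (∀ (T : Type) [CommRing T] (φ : R →+* T) (t : Fin 2 → T), (∀ i, t i ^ n i = φ (f i)) →
      ∃ F : A →+* T, (∀ x, F (algebraMap R A x) = φ x) ∧ ∀ i, F (s i) = t i) ∧
    ∀ (T : Type) [CommRing T] (F F' : A →+* T),
      (∀ x, F (algebraMap R A x) = F' (algebraMap R A x)) → (∀ i, F (s i) = F' (s i)) → F = F'

/-- roots of `x - a_j` at the disc `i` -/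
def ORt : Prop := ∀ (k : Type) [Field k] [IsAlgClosed k] (N : ℕ) (W : k[X])
  (a : Fin N → k) (η : Fin N → KW k), DiscsT k N W a η →
  ∀ (b : RB k N (VT k W) (fun i => WF k (η i))),
  (∀ i (f : (LaurentSeries k)[X]), b.ρ i (b.κ f) = toP k (f.eval₂ (KKW k) (η i))) →
  ∀ (n m : ℕ) (i : Fin N), 0 < n → (n : k) ≠ 0 → n ∣ m + 1 →
    (∃ v : KWp k, b.ρ i (b.κ (X - C (HahnSeries.C (a i)))) = v ^ n * toXp k m X) ∧
    ∀ j : Fin N, j ≠ i → ∃ v : KWp k, b.ρ i (b.κ (X - C (HahnSeries.C (a j)))) = v ^ n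

/-- roots of `x - a` at infinity -/
def ORtI : Prop := ∀ (κ : Type) [Field κ] (a : κ) (n N : ℕ) (σ : LaurentSeries κ →+* LaurentSeries κ),
  0 < N → n ∣ N → (n : κ) ≠ 0 → SubN N σ →
  ∃ v : LaurentSeries κ, σ (atInf κ (X - C a)) =
    (HahnSeries.single (-((N / n : ℕ) : ℤ)) (1 : κ) * σ v) ^ n ∧ v ≠ 0 ∧ v.order = 0

/-- existence of the substitution and the rotation -/
def OSub : Prop := ∀ (κ : Type) [Field κ] (n : ℕ) (ζ : κ), 0 < n → ζ ≠ 0 →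
  ∃ σ rot : LaurentSeries κ →+* LaurentSeries κ, SubN n σ ∧
    ∀ (a : LaurentSeries κ) (t : ℤ), (rot a).coeff t = ζ ^ (-t) * a.coeff t

/-- the tame torsor -/
def OKum : Prop := ∀ (k : Type) [Field k] [IsAlgClosed k] (p : ℕ) [Fact p.Prime] [CharP k p]
  (W : k[X]) (a : Fin 2 → k) (η : Fin 2 → KW k), DiscsT k 2 W a η →
  ∀ b : RB k 2 (VT k W) (fun i => WF k (η i)),
  (∀ i (f : (LaurentSeries k)[X]), b.ρ i (b.κ f) = toP k (f.eval₂ (KKW k) (η i))) →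
  ∀ (m N : ℕ) (n : Fin 2 → ℕ) (ζ : k) (σ rot : LaurentSeries (LaurentSeries k) →+*
    LaurentSeries (LaurentSeries k)), (∀ i, 0 < n i) → (∀ i, ¬ p ∣ n i) → (∀ i, n i ∣ m + 1) →
  N = Nat.lcm (n 0) (n 1) → IsPrimitiveRoot ζ N → SubN N σ →
  (∀ (x : LaurentSeries (LaurentSeries k)) (t : ℤ),
    (rot x).coeff t = (HahnSeries.C ζ : LaurentSeries k) ^ (-t) * x.coeff t) →
  ∃ (A0 : Type) (_ : CommRing A0) (_ : Algebra b.R A0) (_ : MulSemiringAction (CT n) A0)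
    (jI : A0 →+* LaurentSeries (LaurentSeries k)),
    TameD (C := CT n) p b.ρ (b.κ.comp ((C : LaurentSeries k →+* (LaurentSeries k)[X]).comp
      (HahnSeries.C : k →+* LaurentSeries k))) (b.κ (C (HahnSeries.single (1 : ℤ) (1 : k))))
      (HahnSeries.C : k →+* LaurentSeries k) (HahnSeries.single (1 : ℤ) (1 : k)) jI ∧
    (∀ x : b.R, jI (algebraMap b.R A0 x) = σ (b.ρI x)) ∧
    (∀ x : A0, jI ((cT n 0 * cT n 1) • x) = rot (jI x)) ∧
    ∀ (i : Fin 2) (D : Type) [Group D] (L : Type) [CommRing L] [Algebra (KWp k) L]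
      [MulSemiringAction D L] (q : D →* CT n) (t : L),
      (∀ (d : D) (x : KWp k), d • algebraMap (KWp k) L x = algebraMap (KWp k) L x) →
      t ^ n i = algebraMap (KWp k) L (toXp k m X) → (∀ (d : D) (j : Fin 2), j ≠ i → q d j = 1) →
      (∀ d : D, d • t = algebraMap (KWp k) L (HahnSeries.C (LaurentPolynomial.C
        (ζ ^ ((N / n i) * (Multiplicative.toAdd (q d i)).val)))) * t) →
      ∃ ψ : A0 →+* L, (∀ x : b.R, ψ (algebraMap b.R A0 x) = algebraMap (KWp k) L (b.ρ i x)) ∧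
        ∀ (d : D) (x : A0), ψ (q d • x) = d • ψ x

/-- the groups in the join -/
def MGrp : Prop := ∀ (p : ℕ) [Fact p.Prime] (G : Type) [Group G] [Finite G] (P : Subgroup G)
  (c : Fin 2 → G) (n : Fin 2 → ℕ), IsPGroup p P → (∀ i, orderOf (c i) = n i) →
  (∀ i, ¬ p ∣ n i) → c 0 * c 1 = c 1 * c 0 →
  Subgroup.zpowers (c 0) ⊓ Subgroup.zpowers (c 1) = ⊥ → (∀ i, ∀ x ∈ P, c i * x * (c i)⁻¹ ∈ P) →
  ∃ (Γ : Subgroup G) (q : Γ →* CT n), Γ = P ⊔ Subgroup.zpowers (c 0) ⊔ Subgroup.zpowers (c 1) ∧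
    Function.Surjective q ∧ (∀ x : Γ, q x = 1 ↔ (x : G) ∈ P) ∧
    (∀ i (h : c i ∈ Γ), q ⟨c i, h⟩ = cT n i) ∧
    (∀ x : Γ, q x ∈ Subgroup.zpowers (cT n 0 * cT n 1) ↔
      (x : G) ∈ P ⊔ Subgroup.zpowers (c 0 * c 1)) ∧
    orderOf (c 0 * c 1) = Nat.lcm (n 0) (n 1) ∧
    orderOf (cT n 0 * cT n 1) = Nat.lcm (n 0) (n 1)

end MP7b0bad.MT
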