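import Mathlib
import Pool.Agent.Work.MP_7b0bad_ag.MT.TStmts

set_option autoImplicit false

/-!
# Density of the base ring `K[x][1/V]` in the product of the rings `k[w, 1/w]((T))` at the discs
-/

namespace MP7b0bad.MT

open Polynomial

theorem ODns_toP_C (k : Type) [Field k] (q : k[X]) :
    toP k (HahnSeries.C q) = HahnSeries.C (Polynomial.toLaurent q) := by
  refine HahnSeries.ext (funext fun n => ?_)
  rw [toP, lmap_coeff, HahnSeries.C_apply, HahnSeries.C_apply, HahnSeries.coeff_single,
    HahnSeries.coeff_single]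
  split_ifs
  · rfl
  · exact map_zero _

theorem ODns_KKW_single (k : Type) [Field k] (m : ℤ) (c : k) :
    KKW k (HahnSeries.single m c) = HahnSeries.single m (Polynomial.C c) := by
  change HahnSeries.map (HahnSeries.single m c) (Polynomial.C : k →+* k[X]) = _
  refine HahnSeries.ext (funext fun n => ?_)
  rw [HahnSeries.map_coeff, HahnSeries.coeff_single, HahnSeries.coeff_single]
  split_ifs
  · rfl
  · exact map_zero _

theorem ODns_toP_single (k : Type) [Field k] (m : ℤ) (c : k) :
    toP k (HahnSeries.single m (Polynomial.C c)) =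
      HahnSeries.single m (LaurentPolynomial.C c) := by
  refine HahnSeries.ext (funext fun n => ?_)
  rw [toP, lmap_coeff, HahnSeries.coeff_single, HahnSeries.coeff_single]
  split_ifs
  · exact Polynomial.toLaurent_C c
  · exact map_zero _

theorem ODns_ofPS {A : Type} [CommRing A] (d : LaurentSeries A)
    (h : ∀ n : ℤ, n < 0 → d.coeff n = 0) :
    HahnSeries.ofPowerSeries ℤ A (PowerSeries.mk fun n : ℕ => d.coeff n) = d := by
  refine HahnSeries.ext (funext fun n => ?_)
  change ((PowerSeries.mk fun n : ℕ => d.coeff n : PowerSeries A) : LaurentSeries A).coeff n =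
    d.coeff n
  rw [PowerSeries.coeff_coe]
  split_ifs with h1
  · exact (h n h1).symm
  · rw [PowerSeries.coeff_mk]
    congr 1
    omega

theorem ODns_E (k : Type) [Field k] (e : k[X]) (a : k) (η : KW k)
    (h0 : ∀ n : ℤ, n < 0 → η.coeff n = 0) (h1 : η.coeff 0 = Polynomial.C a) :
    (∀ n : ℤ, n < 0 → (e.eval₂ ((KKW k).comp (HahnSeries.C : k →+* LaurentSeries k)) η).coeff n = 0) ∧
    (e.eval₂ ((KKW k).comp (HahnSeries.C : k →+* LaurentSeries k)) η).coeff 0 =
      Polynomial.C (e.eval a) := by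
  set H : PowerSeries k[X] := PowerSeries.mk fun n : ℕ => η.coeff n with hH
  have hη : HahnSeries.ofPowerSeries ℤ k[X] H = η := ODns_ofPS η h0
  have hcomp : (KKW k).comp (HahnSeries.C : k →+* LaurentSeries k) =
      (HahnSeries.ofPowerSeries ℤ k[X]).comp
        ((PowerSeries.C : k[X] →+* PowerSeries k[X]).comp (Polynomial.C : k →+* k[X])) := by
    refine RingHom.ext fun c => ?_
    rw [RingHom.comp_apply, RingHom.comp_apply, RingHom.comp_apply, HahnSeries.ofPowerSeries_C]
    exact ODns_KKW_single k 0 c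
  have hE : e.eval₂ ((KKW k).comp (HahnSeries.C : k →+* LaurentSeries k)) η =
      HahnSeries.ofPowerSeries ℤ k[X] (e.eval₂
        ((PowerSeries.C : k[X] →+* PowerSeries k[X]).comp (Polynomial.C : k →+* k[X])) H) := by
    rw [hom_eval₂, hη, hcomp]
  rw [hE]
  set G : PowerSeries k[X] := e.eval₂
        ((PowerSeries.C : k[X] →+* PowerSeries k[X]).comp (Polynomial.C : k →+* k[X])) H with hG
  constructor
  · intro n hn
    change ((G : PowerSeries k[X]) : LaurentSeries k[X]).coeff n = 0
    rw [PowerSeries.coeff_coe, if_pos hn]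
  · change ((G : PowerSeries k[X]) : LaurentSeries k[X]).coeff 0 = _
    rw [PowerSeries.coeff_coe, if_neg (by norm_num), Int.natAbs_zero,
      PowerSeries.coeff_zero_eq_constantCoeff_apply, hG, hom_eval₂]
    have h2 : PowerSeries.constantCoeff H = Polynomial.C a := by
      rw [← PowerSeries.coeff_zero_eq_constantCoeff_apply, hH, PowerSeries.coeff_mk, Nat.cast_zero,
        h1]
    have h3 : (PowerSeries.constantCoeff (R := k[X])).comp
        ((PowerSeries.C : k[X] →+* PowerSeries k[X]).comp (Polynomial.C : k →+* k[X])) =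
        Polynomial.C := by
      refine RingHom.ext fun c => ?_
      simp
    rw [h2, h3, eval₂_at_apply]

/-- two homomorphisms of `k[w, 1/w]` that agree on `k` and on `w` are equal -/
theorem ODns_ext (k : Type) [Field k] {S : Type} [CommRing S]
    (f g : LaurentPolynomial k →+* S) (hC : ∀ c : k, f (LaurentPolynomial.C c) =
      g (LaurentPolynomial.C c)) (hT : f (LaurentPolynomial.T 1) = g (LaurentPolynomial.T 1))
    (q : LaurentPolynomial k) : f q = g q := by
  have hu : ∀ n : ℕ, f (LaurentPolynomial.T (n : ℤ)) = g (LaurentPolynomial.T (n : ℤ)) := by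
    intro n
    have h1 : (LaurentPolynomial.T (n : ℤ) : LaurentPolynomial k) =
        LaurentPolynomial.T 1 ^ n := by
      rw [LaurentPolynomial.T_pow, mul_one]
    rw [h1, map_pow, map_pow, hT]
  have hv : ∀ n : ℕ, f (LaurentPolynomial.T (-(n : ℤ))) = g (LaurentPolynomial.T (-(n : ℤ))) := by
    intro n
    have h2 : (LaurentPolynomial.T (-(n : ℤ)) : LaurentPolynomial k) *
        LaurentPolynomial.T (n : ℤ) = 1 := by
      rw [← LaurentPolynomial.T_add, neg_add_cancel, LaurentPolynomial.T_zero]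
    have h3 : f (LaurentPolynomial.T (-(n : ℤ))) * f (LaurentPolynomial.T (n : ℤ)) = 1 := by
      rw [← map_mul, h2, map_one]
    have h4 : g (LaurentPolynomial.T (-(n : ℤ))) * f (LaurentPolynomial.T (n : ℤ)) = 1 := by
      rw [hu, ← map_mul, h2, map_one]
    calc f (LaurentPolynomial.T (-(n : ℤ)))
        = f (LaurentPolynomial.T (-(n : ℤ))) *
          (g (LaurentPolynomial.T (-(n : ℤ))) * f (LaurentPolynomial.T (n : ℤ))) := by
          rw [h4, mul_one]
      _ = g (LaurentPolynomial.T (-(n : ℤ))) *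
          (f (LaurentPolynomial.T (-(n : ℤ))) * f (LaurentPolynomial.T (n : ℤ))) := by ring
      _ = g (LaurentPolynomial.T (-(n : ℤ))) := by rw [h3, mul_one]
  have hz : ∀ n : ℤ, f (LaurentPolynomial.T n) = g (LaurentPolynomial.T n) := by
    intro n
    rcases Int.eq_nat_or_neg n with ⟨m, rfl | rfl⟩
    · exact hu m
    · exact hv m
  induction q using LaurentPolynomial.induction_on' with
  | add p q hp hq => rw [map_add, map_add, hp, hq]
  | C_mul_T n c => rw [map_mul, map_mul, hC, hz]

theorem ODns_step (k : Type) [Field k] (N : ℕ) (W : k[X]) (a : Fin N → k) (η : Fin N → KW k)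
    (h : DiscsT k N W a η) (b : RB k N (VT k W) (fun i => WF k (η i)))
    (hb : ∀ i (f : (LaurentSeries k)[X]), b.ρ i (b.κ f) = toP k (f.eval₂ (KKW k) (η i)))
    (m : ℤ) (u : Fin N → KWp k) (hu : ∀ i (n : ℤ), n < m → (u i).coeff n = 0) :
    ∃ x : b.R, ∀ i (n : ℤ), n < m + 1 → (u i - b.ρ i x).coeff n = 0 := by
  classical
  obtain ⟨U, hU⟩ := b.unit
  set L : LaurentPolynomial k →+* b.R := LaurentPolynomial.eval₂
    (b.κ.comp ((C : LaurentSeries k →+* (LaurentSeries k)[X]).comp
      (HahnSeries.C : k →+* LaurentSeries k))) U with hL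
  have hLC : ∀ c : k, L (LaurentPolynomial.C c) = b.κ (C (HahnSeries.C c)) := by
    intro c
    rw [hL, LaurentPolynomial.eval₂_C]
    rfl
  have hLT : L (LaurentPolynomial.T 1) = b.κ (VT k W) := by
    rw [hL, LaurentPolynomial.eval₂_T, zpow_one, hU]
  have hρL : ∀ j (q : LaurentPolynomial k), b.ρ j (L q) = HahnSeries.C q := by
    intro j q
    refine ODns_ext k ((b.ρ j).comp L) (HahnSeries.C : LaurentPolynomial k →+* KWp k) ?_ ?_ q
    · intro c
      rw [RingHom.comp_apply, hLC, hb, eval₂_C, HahnSeries.C_apply, ODns_KKW_single,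
        ODns_toP_single, HahnSeries.C_apply]
    · rw [RingHom.comp_apply, hLT, hb, h.root, ODns_toP_C, Polynomial.toLaurent_X]
  set c : Fin N → LaurentPolynomial k := fun i => (u i).coeff m with hc
  set e : Fin N → k[X] := fun i => Lagrange.basis Finset.univ a i with he
  refine ⟨∑ i, b.κ (C (HahnSeries.single m (1 : k))) *
    (L (c i) * b.κ ((e i).map (HahnSeries.C : k →+* LaurentSeries k))), ?_⟩
  intro j
  have hE : ∀ i, (∀ n : ℤ, n < 0 →
      ((e i).eval₂ ((KKW k).comp (HahnSeries.C : k →+* LaurentSeries k)) (η j)).coeff n = 0) ∧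
      ((e i).eval₂ ((KKW k).comp (HahnSeries.C : k →+* LaurentSeries k)) (η j)).coeff 0 =
      Polynomial.C ((e i).eval (a j)) := fun i => ODns_E k (e i) (a j) (η j) (h.neg j) (h.zero j)
  set E : Fin N → KWp k := fun i =>
    toP k ((e i).eval₂ ((KKW k).comp (HahnSeries.C : k →+* LaurentSeries k)) (η j)) with hEdef
  have hE1 : ∀ i (n : ℤ), n < 0 → (E i).coeff n = 0 := by
    intro i n hn
    simp only [hEdef, toP, lmap_coeff]
    rw [(hE i).1 n hn, map_zero]
  have hE2 : ∀ i, (E i).coeff 0 = LaurentPolynomial.C ((e i).eval (a j)) := by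
    intro i
    simp only [hEdef, toP, lmap_coeff]
    rw [(hE i).2]
    exact Polynomial.toLaurent_C _
  have hval : b.ρ j (∑ i, b.κ (C (HahnSeries.single m (1 : k))) *
    (L (c i) * b.κ ((e i).map (HahnSeries.C : k →+* LaurentSeries k)))) =
      ∑ i, HahnSeries.single m (c i) * E i := by
    rw [map_sum]
    refine Finset.sum_congr rfl fun i _ => ?_
    rw [map_mul, map_mul, hρL, hb, hb, eval₂_C, ODns_KKW_single, ODns_toP_single, eval₂_map,
      map_one, ← mul_assoc, HahnSeries.C_apply, HahnSeries.single_mul_single, add_zero, one_mul]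
  rw [hval]
  intro n hn
  rw [HahnSeries.coeff_sub, HahnSeries.coeff_sum]
  have hco : ∀ i, (HahnSeries.single m (c i) * E i).coeff n = c i * (E i).coeff (n - m) := by
    intro i
    have h5 := HahnSeries.coeff_single_mul_add (r := c i) (x := E i) (a := n - m) (b := m)
    rw [sub_add_cancel] at h5
    exact h5
  simp only [hco]
  rcases lt_or_eq_of_le (Int.lt_add_one_iff.1 hn) with h6 | h6
  · rw [hu j n h6, zero_sub, neg_eq_zero]
    refine Finset.sum_eq_zero fun i _ => ?_
    rw [hE1 i (n - m) (by omega), mul_zero]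
  · subst h6
    rw [sub_self, Finset.sum_eq_single j]
    · rw [hE2 j, he]
      simp only
      rw [Lagrange.eval_basis_self h.inj.injOn (Finset.mem_univ j), map_one, mul_one, hc]
      exact sub_self _
    · intro i _ hij
      rw [hE2 i, he]
      simp only
      rw [Lagrange.eval_basis_of_ne hij (Finset.mem_univ j), map_zero, mul_zero]
    · intro h7
      exact absurd (Finset.mem_univ j) h7

theorem ODns_iter (k : Type) [Field k] (N : ℕ) (W : k[X]) (a : Fin N → k) (η : Fin N → KW k)
    (h : DiscsT k N W a η) (b : RB k N (VT k W) (fun i => WF k (η i)))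
    (hb : ∀ i (f : (LaurentSeries k)[X]), b.ρ i (b.κ f) = toP k (f.eval₂ (KKW k) (η i)))
    (n₀ : ℤ) (J : ℕ) : ∀ (u : Fin N → KWp k),
    (∀ i (n : ℤ), n < n₀ - (J : ℤ) → (u i).coeff n = 0) →
    ∃ x : b.R, ∀ i (n : ℤ), n < n₀ → (u i - b.ρ i x).coeff n = 0 := by
  induction J with
  | zero =>
    intro u hu
    refine ⟨0, fun i n hn => ?_⟩
    rw [map_zero, sub_zero]
    exact hu i n (by simpa using hn)
  | succ J ih =>
    intro u hu
    obtain ⟨f, hf⟩ := ODns_step k N W a η h b hb (n₀ - ((J + 1 : ℕ) : ℤ)) u hu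
    obtain ⟨g, hg⟩ := ih (fun i => u i - b.ρ i f)
      (fun i n hn => hf i n (by push_cast; omega))
    refine ⟨f + g, fun i n hn => ?_⟩
    rw [map_add, ← sub_sub]
    exact hg i n hn

theorem ODns_bound (k : Type) [Field k] (N : ℕ) (u : Fin N → KWp k) (n₀ : ℤ) :
    ∃ J : ℕ, ∀ i (n : ℤ), n < n₀ - (J : ℤ) → (u i).coeff n = 0 := by
  classical
  refine ⟨∑ i, (n₀ - (u i).order).natAbs, fun i n hn => ?_⟩
  apply HahnSeries.coeff_eq_zero_of_lt_order
  have h1 : (n₀ - (u i).order).natAbs ≤ ∑ i, (n₀ - (u i).order).natAbs :=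
    Finset.single_le_sum (f := fun i => (n₀ - (u i).order).natAbs) (fun _ _ => Nat.zero_le _)
      (Finset.mem_univ i)
  omega

theorem prf_ODns : ODns := by
  intro k _ p _ _ N W a η h _ b hb u n
  obtain ⟨J, hJ⟩ := ODns_bound k N u n
  obtain ⟨x, hx⟩ := ODns_iter k N W a η h b hb n J u hJ
  refine ⟨x, fun i t ht => ?_⟩
  have h1 := hx i t ht
  rw [HahnSeries.coeff_sub] at h1 ⊢
  rw [← neg_sub, h1, neg_zero]

end MP7b0bad.MT
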