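import Pool.Agent.Work.MP_7b0bad_ag.MT.TStmts
import Mathlib

set_option autoImplicit false

/-!
# Eigenvectors of an irreducible representation over `F_p` of an abelian group
-/

namespace MP7b0bad.MT

/-- a commuting family of endomorphisms has a common eigenvector -/
theorem OEig_common {k V ι : Type} [Field k] [IsAlgClosed k] [AddCommGroup V] [Module k V]
    [FiniteDimensional k V] [Nontrivial V] (F : ι → Module.End k V)
    (hc : ∀ i j, F i * F j = F j * F i) : ∃ v : V, v ≠ 0 ∧ ∀ i, ∃ μ : k, F i v = μ • v := by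
  classical
  -- a minimal nonzero invariant subspace
  let S : Set (Submodule k V) := {W | W ≠ ⊥ ∧ ∀ i, ∀ w ∈ W, F i w ∈ W}
  have hS : (⊤ : Submodule k V) ∈ S := ⟨bot_ne_top.symm, fun i w _ => Submodule.mem_top⟩
  obtain ⟨W, ⟨hW0, hWi⟩, hmin⟩ :=
    (wellFounded_lt (α := Submodule k V)).has_min S ⟨⊤, hS⟩
  obtain ⟨v, hvW, hv0⟩ := W.ne_bot_iff.1 hW0
  refine ⟨v, hv0, fun i => ?_⟩
  let f : Module.End k W := (F i).restrict (hWi i)
  have : Nontrivial W := Submodule.nontrivial_iff_ne_bot.2 hW0
  obtain ⟨μ, hμ⟩ := Module.End.exists_eigenvalue f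
  obtain ⟨w, hw⟩ := hμ.exists_hasEigenvector
  have hw1 : F i (w : V) = μ • (w : V) := by
    have := congrArg (Subtype.val) hw.apply_eq_smul
    simpa [f] using this
  have hw0 : (w : V) ≠ 0 := fun h => hw.2 (Subtype.ext h)
  let W' : Submodule k V := W ⊓ LinearMap.ker (F i - μ • (1 : Module.End k V))
  have hmem : ∀ x : V, x ∈ W' ↔ x ∈ W ∧ F i x = μ • x := by
    intro x
    simp only [W', Submodule.mem_inf, LinearMap.mem_ker, LinearMap.sub_apply,
      LinearMap.smul_apply, Module.End.one_apply, sub_eq_zero]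
  have hW' : W' ∈ S := by
    refine ⟨fun h => ?_, fun j x hx => ?_⟩
    · have : (w : V) ∈ W' := (hmem _).2 ⟨w.2, hw1⟩
      rw [h, Submodule.mem_bot] at this
      exact hw0 this
    · rw [hmem] at hx ⊢
      refine ⟨hWi j x hx.1, ?_⟩
      have h1 : F i (F j x) = F j (F i x) := by
        have := congrArg (fun φ : Module.End k V => φ x) (hc i j)
        simpa using this
      rw [h1, hx.2, map_smul]
  have hle : W' ≤ W := inf_le_left
  have hEq : W' = W := by
    by_contra hne
    exact hmin W' hW' (lt_of_le_of_ne hle hne)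
  refine ⟨μ, ?_⟩
  have : v ∈ W' := hEq ▸ hvW
  exact ((hmem v).1 this).2

theorem prf_OEig : OEig := by
  intro k _ _ p _ _ C Γb _ _ _ _ qb r M hpC hr hq hker hirr
  classical
  let φ : ZMod p →+* k := ZMod.castHom (dvd_refl p) k
  have hcz : ∀ a : ZMod p, cz k a = φ a := by
    intro a
    simp only [cz, φ, ZMod.castHom_apply]
    exact ZMod.natCast_val a
  -- `M g` depends only on `qb g`
  have hMq : ∀ g h : Γb, qb g = qb h → M g = M h := by
    intro g h hgh
    have h1 : M (h⁻¹ * g) = 1 := hker _ (by rw [map_mul, map_inv, hgh, inv_mul_cancel])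
    have h2 : g = h * (h⁻¹ * g) := by group
    rw [h2, map_mul, h1, mul_one]
  have : Nonempty (Fin r) := ⟨⟨0, hr⟩⟩
  have : Nontrivial (Fin r → k) := inferInstance
  let F : Γb → Module.End k (Fin r → k) := fun g => Matrix.toLin' ((M g).map φ)
  have hFmul : ∀ g h : Γb, F (g * h) = F g * F h := by
    intro g h
    simp only [F]
    rw [map_mul, Matrix.map_mul, Matrix.toLin'_mul]
    rfl
  have hFone : F 1 = 1 := by
    simp only [F]
    rw [map_one, Matrix.map_one φ (map_zero φ) (map_one φ), Matrix.toLin'_one]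
    rfl
  have hFq : ∀ g h : Γb, qb g = qb h → F g = F h := by
    intro g h hgh
    simp only [F]
    rw [hMq g h hgh]
  have hFc : ∀ g h : Γb, F g * F h = F h * F g := by
    intro g h
    rw [← hFmul, ← hFmul]
    exact hFq _ _ (by rw [map_mul, map_mul, mul_comm])
  obtain ⟨v₀, hv₀, hev⟩ := OEig_common F hFc
  choose μ hμ using hev
  have hinj : ∀ a b : k, a • v₀ = b • v₀ → a = b := fun a b h => by
    by_contra hne
    have : (a - b) • v₀ = 0 := by rw [sub_smul, h, sub_self]
    rcases smul_eq_zero.1 this with h1 | h1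
    · exact hne (sub_eq_zero.1 h1)
    · exact hv₀ h1
  have hμmul : ∀ g h : Γb, μ (g * h) = μ g * μ h := by
    intro g h
    apply hinj
    rw [← hμ, hFmul, Module.End.mul_apply, hμ h, map_smul, hμ g, smul_smul, mul_comm (μ h)]
  have hμone : μ 1 = 1 := by
    apply hinj
    rw [← hμ, hFone, one_smul]
    rfl
  have hμq : ∀ g h : Γb, qb g = qb h → μ g = μ h := by
    intro g h hgh
    apply hinj
    rw [← hμ, ← hμ, hFq g h hgh]
  let s : C → Γb := Function.surjInv hq
  have hs : ∀ c, qb (s c) = c := Function.surjInv_eq hq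
  let χ₀ : C →* k :=
    { toFun := fun c => μ (s c)
      map_one' := by
        rw [← hμone]
        exact hμq _ _ (by rw [hs, map_one])
      map_mul' := fun a b => by
        rw [← hμmul]
        exact hμq _ _ (by rw [hs, map_mul, hs, hs]) }
  let χ : C →* kˣ := χ₀.toHomUnits
  have hχ : ∀ g : Γb, ((χ (qb g) : kˣ) : k) = μ g := by
    intro g
    have : ((χ (qb g) : kˣ) : k) = χ₀ (qb g) := rfl
    rw [this]
    exact hμq _ _ (hs _)
  have hvA : ∀ g : Γb, vA (M g) v₀ = F g v₀ := by
    intro g
    funext i
    simp only [vA, F, Matrix.toLin'_apply, Matrix.mulVec, dotProduct, Matrix.map_apply, hcz]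
  refine ⟨v₀, χ, fun g => ?_, ?_⟩
  · rw [hvA, hμ, hχ]
    rfl
  -- the annihilator
  let Ann : Submodule (ZMod p) (Fin r → ZMod p) :=
    { carrier := {v | ∑ j, φ (v j) * v₀ j = 0}
      add_mem' := by
        intro a b ha hb
        simp only [Set.mem_setOf_eq] at ha hb ⊢
        simp only [Pi.add_apply, map_add, add_mul, Finset.sum_add_distrib, ha, hb, add_zero]
      zero_mem' := by simp
      smul_mem' := by
        intro c a ha
        simp only [Set.mem_setOf_eq] at ha ⊢
        simp only [Pi.smul_apply, smul_eq_mul, map_mul, mul_assoc, ← Finset.mul_sum, ha,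
          mul_zero] }
  have hAnn : ∀ v, v ∈ Ann ↔ ∑ j, φ (v j) * v₀ j = 0 := fun v => Iff.rfl
  have hAnnT : ∀ (g : Γb), ∀ v ∈ Ann, (M g).transpose.mulVec v ∈ Ann := by
    intro g v hv
    rw [hAnn] at hv ⊢
    have h1 : ∀ i, ∑ j, φ (M g i j) * v₀ j = μ g * v₀ i := by
      intro i
      have := congrFun (hμ g) i
      simpa [F, Matrix.toLin'_apply, Matrix.mulVec, dotProduct] using this
    calc ∑ j, φ ((M g).transpose.mulVec v j) * v₀ j
        = ∑ j, ∑ i, φ (M g i j) * φ (v i) * v₀ j := by
          refine Finset.sum_congr rfl fun j _ => ?_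
          simp only [Matrix.mulVec, dotProduct, Matrix.transpose_apply, map_sum, map_mul,
            Finset.sum_mul]
      _ = ∑ i, ∑ j, φ (M g i j) * φ (v i) * v₀ j := Finset.sum_comm
      _ = ∑ i, φ (v i) * (μ g * v₀ i) := by
          refine Finset.sum_congr rfl fun i _ => ?_
          rw [← h1 i, Finset.mul_sum]
          refine Finset.sum_congr rfl fun j _ => ?_
          ring
      _ = μ g * ∑ i, φ (v i) * v₀ i := by
          rw [Finset.mul_sum]
          refine Finset.sum_congr rfl fun i _ => ?_
          ring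
      _ = 0 := by rw [hv, mul_zero]
  let W : Submodule (ZMod p) (Fin r → ZMod p) :=
    { carrier := {w | ∀ v ∈ Ann, v ⬝ᵥ w = 0}
      add_mem' := by
        intro a b ha hb v hv
        rw [dotProduct_add, ha v hv, hb v hv, add_zero]
      zero_mem' := by
        intro v _
        exact dotProduct_zero v
      smul_mem' := by
        intro c a ha v hv
        rw [dotProduct_smul, ha v hv, smul_zero] }
  have hWm : ∀ w, w ∈ W ↔ ∀ v ∈ Ann, v ⬝ᵥ w = 0 := fun w => Iff.rfl
  have hWst : ∀ (g : Γb), ∀ w ∈ W, (M g).mulVec w ∈ W := by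
    intro g w hw
    rw [hWm] at hw ⊢
    intro v hv
    have h1 := hw _ (hAnnT g v hv)
    rw [Matrix.mulVec_transpose] at h1
    rw [Matrix.dotProduct_mulVec]
    exact h1
  have hAnn0 : Ann = ⊥ := by
    rcases hirr W hWst with hb | ht
    · exfalso
      have hAt : Ann = ⊤ := by
        by_contra hne
        obtain ⟨f, hf0, hf⟩ := Submodule.exists_le_ker_of_lt_top Ann (lt_top_iff_ne_top.2 hne)
        let w : Fin r → ZMod p := fun j => f (Pi.single j 1)
        have hfw : ∀ v, f v = v ⬝ᵥ w := by
          intro v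
          conv_lhs => rw [← Finset.univ_sum_single v]
          rw [map_sum, dotProduct]
          refine Finset.sum_congr rfl fun j _ => ?_
          have : (Pi.single j (v j) : Fin r → ZMod p) = v j • Pi.single j 1 := by
            rw [← Pi.single_smul, smul_eq_mul, mul_one]
          rw [this, map_smul, smul_eq_mul]
        have hwW : w ∈ W := by
          rw [hWm]
          intro v hv
          rw [← hfw]
          exact hf hv
        rw [hb, Submodule.mem_bot] at hwW
        apply hf0
        ext j
        have := congrFun hwW j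
        simpa [w] using this
      apply hv₀
      funext j
      have h1 : (Pi.single j 1 : Fin r → ZMod p) ∈ Ann := by rw [hAt]; exact Submodule.mem_top
      rw [hAnn, Finset.sum_eq_single j] at h1
      · simpa using h1
      · intro i _ hi
        rw [Pi.single_eq_of_ne hi, map_zero, zero_mul]
      · intro h
        exact absurd (Finset.mem_univ j) h
    · rw [eq_bot_iff]
      intro v hv
      rw [Submodule.mem_bot]
      funext j
      have h1 : (Pi.single j 1 : Fin r → ZMod p) ∈ W := by rw [ht]; exact Submodule.mem_top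
      have h2 := (hWm _).1 h1 v hv
      simpa using h2
  intro v hv h0
  apply hv
  have : v ∈ Ann := by
    rw [hAnn]
    simpa only [hcz] using h0
  rw [hAnn0, Submodule.mem_bot] at this
  exact this

end MP7b0bad.MT
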