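import Pool.Agent.Work.MP_7b0bad_ag.MT.TStmts

set_option autoImplicit false
set_option linter.unusedSectionVars false

/-!
# The filtration on a Galois algebra over Laurent series, and Artin-Schreier equations
-/

namespace MP7b0bad.MT

open Finset

/-- coefficients below `m` vanish -/
def OFil_ge {Λ : Type} [CommRing Λ] (m : ℤ) (a : LaurentSeries Λ) : Prop :=
  ∀ t : ℤ, t < m → a.coeff t = 0

section ge

variable {Λ : Type} [CommRing Λ]

theorem OFil_ge_mono {m m' : ℤ} {a : LaurentSeries Λ} (h : OFil_ge m a) (hm : m' ≤ m) :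
    OFil_ge m' a := fun t ht => h t (lt_of_lt_of_le ht hm)

theorem OFil_ge_zero (m : ℤ) : OFil_ge m (0 : LaurentSeries Λ) := fun t _ => by simp

theorem OFil_ge_add {m : ℤ} {a b : LaurentSeries Λ} (ha : OFil_ge m a) (hb : OFil_ge m b) :
    OFil_ge m (a + b) := fun t ht => by
  rw [HahnSeries.coeff_add, ha t ht, hb t ht, add_zero]

theorem OFil_ge_neg {m : ℤ} {a : LaurentSeries Λ} (ha : OFil_ge m a) :
    OFil_ge m (-a) := fun t ht => by
  rw [HahnSeries.coeff_neg, ha t ht, neg_zero]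

theorem OFil_ge_sum {m : ℤ} {K : Type} (s : Finset K) {a : K → LaurentSeries Λ}
    (ha : ∀ l ∈ s, OFil_ge m (a l)) : OFil_ge m (∑ l ∈ s, a l) := by
  classical
  induction s using Finset.induction_on with
  | empty => simpa using OFil_ge_zero m
  | insert x s hx ih =>
    rw [Finset.sum_insert hx]
    exact OFil_ge_add (ha x (Finset.mem_insert_self _ _))
      (ih fun l hl => ha l (Finset.mem_insert_of_mem hl))

theorem OFil_ge_mul {m m' : ℤ} {a b : LaurentSeries Λ} (ha : OFil_ge m a) (hb : OFil_ge m' b) :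
    OFil_ge (m + m') (a * b) := fun t ht => by
  rw [HahnSeries.coeff_mul]
  refine Finset.sum_eq_zero fun ij hij => ?_
  have h1 := (Finset.mem_antidiagonal.1 hij).2.2
  rcases lt_or_ge ij.1 m with h | h
  · rw [ha _ h, zero_mul]
  · rw [hb ij.2 (by omega), mul_zero]

theorem OFil_ge_exists (a : LaurentSeries Λ) : ∃ m : ℤ, OFil_ge m a :=
  ⟨a.order, fun _ ht => HahnSeries.coeff_eq_zero_of_lt_order ht⟩

theorem OFil_ge_bdd {K : Type} [Finite K] (a : K → LaurentSeries Λ) :
    ∃ m : ℤ, ∀ l, OFil_ge m (a l) := by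
  classical
  have := Fintype.ofFinite K
  choose m hm using fun l => OFil_ge_exists (a l)
  refine ⟨-∑ l, |m l|, fun l => OFil_ge_mono (hm l) ?_⟩
  have h1 : |m l| ≤ ∑ l, |m l| :=
    Finset.single_le_sum (f := fun l => |m l|) (fun i _ => abs_nonneg _) (Finset.mem_univ l)
  have h2 := neg_abs_le (m l)
  omega

theorem OFil_mk (m : ℤ) (f : ℤ → Λ) (hf : ∀ t, t < m → f t = 0) :
    ∃ a : LaurentSeries Λ, ∀ t, a.coeff t = f t := by
  refine ⟨HahnSeries.ofSuppBddBelow f ⟨m, ?_⟩, fun t => rfl⟩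
  intro t ht
  by_contra h
  exact ht (hf t (not_le.1 h))

end ge

section fil

variable {Λ : Type} [CommRing Λ] {L : Type} [CommRing L] [Algebra (LaurentSeries Λ) L]
  {J : Type} [Fintype J]

/-- the filtration -/
def OFil_F (tr : L →+ LaurentSeries Λ) (Y : J → L) (m : ℤ) (b : L) : Prop :=
  ∀ j, OFil_ge m (tr (Y j * b))

variable {tr : L →+ LaurentSeries Λ} {Y X : J → L}

theorem OFil_F_mono {m m' : ℤ} {b : L} (h : OFil_F tr Y m b) (hm : m' ≤ m) :
    OFil_F tr Y m' b := fun j => OFil_ge_mono (h j) hm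

theorem OFil_F_zero (m : ℤ) : OFil_F tr Y m 0 := fun j => by
  rw [mul_zero, map_zero]; exact OFil_ge_zero m

theorem OFil_F_add {m : ℤ} {a b : L} (ha : OFil_F tr Y m a) (hb : OFil_F tr Y m b) :
    OFil_F tr Y m (a + b) := fun j => by
  rw [mul_add, map_add]; exact OFil_ge_add (ha j) (hb j)

theorem OFil_F_neg {m : ℤ} {a : L} (ha : OFil_F tr Y m a) :
    OFil_F tr Y m (-a) := fun j => by
  rw [mul_neg, map_neg]; exact OFil_ge_neg (ha j)

theorem OFil_F_sub {m : ℤ} {a b : L} (ha : OFil_F tr Y m a) (hb : OFil_F tr Y m b) :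
    OFil_F tr Y m (a - b) := by
  rw [sub_eq_add_neg]; exact OFil_F_add ha (OFil_F_neg hb)

theorem OFil_F_sum {m : ℤ} {K : Type} (s : Finset K) {a : K → L}
    (ha : ∀ l ∈ s, OFil_F tr Y m (a l)) : OFil_F tr Y m (∑ l ∈ s, a l) := fun j => by
  rw [Finset.mul_sum, map_sum]
  exact OFil_ge_sum s fun l hl => ha l hl j

theorem OFil_bdd (hl : ∀ a b, tr (algebraMap (LaurentSeries Λ) L a * b) = a * tr b)
    {K : Type} [Fintype K] (z : K → L) : ∃ c : ℤ, ∀ (m : ℤ) (a : K → LaurentSeries Λ),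
    (∀ l, OFil_ge (m + c) (a l)) →
      OFil_F tr Y m (∑ l, algebraMap (LaurentSeries Λ) L (a l) * z l) := by
  obtain ⟨c, hc⟩ := OFil_ge_bdd (K := J × K) fun q => tr (Y q.1 * z q.2)
  refine ⟨-c, fun m a ha j => ?_⟩
  rw [Finset.mul_sum, map_sum]
  refine OFil_ge_sum _ fun l _ => ?_
  have h1 : Y j * (algebraMap (LaurentSeries Λ) L (a l) * z l) =
      algebraMap (LaurentSeries Λ) L (a l) * (Y j * z l) := by ring
  rw [h1, hl]
  exact OFil_ge_mono (OFil_ge_mul (ha l) (hc (j, l))) (by omega)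

theorem OFil_mul (hl : ∀ a b, tr (algebraMap (LaurentSeries Λ) L a * b) = a * tr b)
    (hf : ∀ b, b = ∑ j, algebraMap (LaurentSeries Λ) L (tr (Y j * b)) * X j) :
    ∃ C : ℤ, ∀ (m m' : ℤ) (b b' : L), OFil_F tr Y m b → OFil_F tr Y m' b' →
      OFil_F tr Y (m + m' - C) (b * b') := by
  obtain ⟨C, hC⟩ := OFil_bdd (tr := tr) (Y := Y) hl (K := J × J) fun q => X q.1 * X q.2
  refine ⟨C, fun m m' b b' hb hb' => ?_⟩
  have h1 := hC (m + m' - C) (fun q => tr (Y q.1 * b) * tr (Y q.2 * b')) (fun q => by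
    exact OFil_ge_mono (OFil_ge_mul (hb q.1) (hb' q.2)) (by omega))
  have h2 : b * b' = ∑ q : J × J, algebraMap (LaurentSeries Λ) L (tr (Y q.1 * b) * tr (Y q.2 * b'))
      * (X q.1 * X q.2) := by
    conv_lhs => rw [hf b, hf b', Finset.sum_mul_sum]
    rw [Fintype.sum_prod_type]
    refine Finset.sum_congr rfl fun i _ => Finset.sum_congr rfl fun j _ => ?_
    generalize tr (Y i * b) = u
    generalize tr (Y j * b') = v
    rw [map_mul]
    ring
  rw [h2]
  exact h1

theorem OFil_sep (hf : ∀ b, b = ∑ j, algebraMap (LaurentSeries Λ) L (tr (Y j * b)) * X j)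
    {b : L} (hb : ∀ m, OFil_F tr Y m b) : b = 0 := by
  rw [hf b]
  refine Finset.sum_eq_zero fun j _ => ?_
  have h1 : tr (Y j * b) = 0 := by
    ext t
    exact hb (t + 1) j t (by omega)
  rw [h1, map_zero, zero_mul]

theorem OFil_complete (hl : ∀ a b, tr (algebraMap (LaurentSeries Λ) L a * b) = a * tr b)
    (hf : ∀ b, b = ∑ j, algebraMap (LaurentSeries Λ) L (tr (Y j * b)) * X j) :
    ∃ c : ℤ, ∀ (N : ℤ) (w : ℕ → L), (∀ k : ℕ, OFil_F tr Y (N + k) (w k)) →
      ∃ s : L, ∀ k : ℕ, OFil_F tr Y (N + k - c) (s - ∑ i ∈ range k, w i) := by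
  obtain ⟨c, hc⟩ := OFil_bdd (tr := tr) (Y := Y) hl X
  refine ⟨c, fun N w hw => ?_⟩
  have h1 : ∀ j : J, ∃ A : LaurentSeries Λ, ∀ t, A.coeff t =
      ∑ i ∈ range (t - N + 1).toNat, (tr (Y j * w i)).coeff t := by
    intro j
    refine OFil_mk N _ fun t ht => ?_
    have h2 : (t - N + 1).toNat = 0 := by omega
    rw [h2]
    simp
  choose A hA using h1
  refine ⟨∑ j, algebraMap (LaurentSeries Λ) L (A j) * X j, fun k => ?_⟩
  have h3 : (∑ j, algebraMap (LaurentSeries Λ) L (A j) * X j) - ∑ i ∈ range k, w i =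
      ∑ j, algebraMap (LaurentSeries Λ) L (A j - ∑ i ∈ range k, tr (Y j * w i)) * X j := by
    have h4 : ∑ i ∈ range k, w i =
        ∑ j, algebraMap (LaurentSeries Λ) L (∑ i ∈ range k, tr (Y j * w i)) * X j := by
      conv_lhs => rw [hf (∑ i ∈ range k, w i)]
      refine Finset.sum_congr rfl fun j _ => ?_
      rw [Finset.mul_sum, map_sum]
    rw [h4, ← Finset.sum_sub_distrib]
    refine Finset.sum_congr rfl fun j _ => ?_
    rw [map_sub, sub_mul]
  rw [h3]
  refine hc _ _ fun j t ht => ?_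
  rw [HahnSeries.coeff_sub, HahnSeries.coeff_sum, hA, sub_eq_zero]
  refine Finset.sum_subset (fun i hi => ?_) fun i _ hi => ?_
  · rw [Finset.mem_range] at hi ⊢
    omega
  · rw [Finset.mem_range] at hi
    exact hw i j t (by omega)

end fil

theorem OFil_main {Λ : Type} [CommRing Λ] {L : Type} [CommRing L] [Algebra (LaurentSeries Λ) L]
    {J : Type} [Fintype J] {tr : L →+ LaurentSeries Λ} {Y X : J → L}
    (hl : ∀ a b, tr (algebraMap (LaurentSeries Λ) L a * b) = a * tr b)
    (hf : ∀ b, b = ∑ j, algebraMap (LaurentSeries Λ) L (tr (Y j * b)) * X j)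
    (p : ℕ) (hp : p.Prime) (hp0 : (p : L) = 0) :
    ∃ N : ℤ, ∀ z, OFil_F tr Y N z → ∃ h, OFil_F tr Y N h ∧ h ^ p - h = z ∧
      ∀ h', OFil_F tr Y N h' → h' ^ p - h' = z → h' = h := by
  obtain ⟨C, hC⟩ := OFil_mul hl hf
  obtain ⟨c, hc⟩ := OFil_complete hl hf
  -- powers
  have hpow : ∀ (z : L), OFil_F tr Y (C + 1) z → ∀ k : ℕ, OFil_F tr Y (C + 1 + k) (z ^ (k + 1)) := by
    intro z hz k
    induction k with
    | zero => simpa using hz
    | succ k ih =>
      rw [pow_succ]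
      refine OFil_F_mono (hC _ _ _ _ ih hz) ?_
      push_cast
      omega
  have hpow' : ∀ (m : ℤ), C ≤ m → ∀ (z : L), OFil_F tr Y m z → ∀ k : ℕ,
      OFil_F tr Y m (z ^ (k + 1)) := by
    intro m hm z hz k
    induction k with
    | zero => simpa using hz
    | succ k ih =>
      rw [pow_succ]
      exact OFil_F_mono (hC _ _ _ _ ih hz) (by omega)
  have hpp : ∀ (z : L), OFil_F tr Y (C + 1) z → ∀ i : ℕ, OFil_F tr Y (C + 1 + i) (z ^ (p ^ i)) := by
    intro z hz i
    have h1 : i < p ^ i := Nat.lt_pow_self hp.one_lt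
    obtain ⟨k, hk⟩ : ∃ k, p ^ i = k + 1 := ⟨p ^ i - 1, by omega⟩
    rw [hk]
    exact OFil_F_mono (hpow z hz k) (by omega)
  -- Frobenius
  have hadd : ∀ x y : L, (x + y) ^ p = x ^ p + y ^ p := by
    intro x y
    obtain ⟨r, hr⟩ := exists_add_pow_prime_eq hp x y
    rw [hr, hp0]
    ring
  obtain ⟨φ, hφ⟩ : ∃ φ : L →+ L, ∀ x, φ x = x ^ p :=
    ⟨AddMonoidHom.mk' (fun x => x ^ p) hadd, fun _ => rfl⟩
  have huniq : ∀ h h' : L, OFil_F tr Y (C + 1) h → OFil_F tr Y (C + 1) h' →
      h ^ p - h = h' ^ p - h' → h' = h := by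
    intro h h' hh hh' he
    rw [← sub_eq_zero]
    have h1 : (h' - h) ^ p = h' - h := by
      rw [← hφ, map_sub, hφ, hφ]
      linear_combination -he
    have h2 : ∀ i : ℕ, (h' - h) ^ (p ^ i) = h' - h := by
      intro i
      induction i with
      | zero => simp
      | succ i ih => rw [pow_succ, pow_mul, ih, h1]
    refine OFil_sep hf fun m => ?_
    have h3 := hpp (h' - h) (OFil_F_sub hh' hh) (|m| + |C|).toNat
    rw [h2, Int.toNat_of_nonneg (by positivity)] at h3
    have hm1 := le_abs_self m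
    have hC1 := neg_abs_le C
    exact OFil_F_mono h3 (by omega)
  refine ⟨C + 1, fun z hz => ?_⟩
  obtain ⟨s, hs⟩ := hc (C + 1) (fun i => z ^ (p ^ i)) (fun k => hpp z hz k)
  have hz' : ∀ k : ℕ, OFil_F tr Y (C + 1) (∑ i ∈ range k, z ^ (p ^ i)) := fun k =>
    OFil_F_sum _ fun i _ => OFil_F_mono (hpp z hz i) (by omega)
  have hFs : OFil_F tr Y (C + 1) (-s) := by
    have h1 := OFil_F_add (OFil_F_mono (hs c.toNat) (m' := C + 1) (by omega)) (hz' c.toNat)
    rw [sub_add_cancel] at h1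
    exact OFil_F_neg h1
  have heq : (-s) ^ p - -s = z := by
    rw [← sub_eq_zero]
    refine OFil_sep hf fun m => ?_
    set k : ℕ := (|m| + |c| + |C|).toNat with hk
    have hk1 : (k : ℤ) = |m| + |c| + |C| := by
      rw [hk, Int.toNat_of_nonneg (by positivity)]
    have hm1 := le_abs_self m
    have hc1 := le_abs_self c
    have hC1 := neg_abs_le C
    set u : L := s - ∑ i ∈ range k, z ^ (p ^ i) with hu
    have hs' : s = u + ∑ i ∈ range k, z ^ (p ^ i) := by rw [hu]; ring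
    have h2 : (-s) ^ p - -s - z = u - φ u - z ^ (p ^ k) := by
      have h3 : (-s) ^ p = -(φ u + ∑ i ∈ range k, z ^ (p ^ (i + 1))) := by
        rw [← hφ, map_neg, hs', map_add, map_sum]
        congr 2
        refine Finset.sum_congr rfl fun i _ => ?_
        rw [hφ, ← pow_mul, ← pow_succ]
      have h4 := Finset.sum_range_sub' (fun i => z ^ (p ^ i)) k
      rw [Finset.sum_sub_distrib] at h4
      simp only [pow_zero, pow_one] at h4
      rw [h3, sub_neg_eq_add, hs']
      linear_combination h4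
    rw [h2, hφ]
    have h5 : OFil_F tr Y (C + 1 + k - c) u := hs k
    obtain ⟨q, hq⟩ : ∃ q, p = q + 1 := ⟨p - 1, by have := hp.pos; omega⟩
    have h6 : OFil_F tr Y (C + 1 + k - c) (u ^ p) := by
      rw [hq]
      exact hpow' _ (by have := abs_nonneg m; have := abs_nonneg C; omega) u h5 q
    have h7 := hpp z hz k
    refine OFil_F_sub (OFil_F_sub (OFil_F_mono h5 ?_) (OFil_F_mono h6 ?_)) (OFil_F_mono h7 ?_)
    · omega
    · omega
    · have := abs_nonneg c
      omega
  exact ⟨-s, hFs, heq, fun h' hh' hh'z => huniq _ _ hFs hh' (heq.trans hh'z.symm)⟩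

theorem prf_OFil : OFil := by
  intro Λ _ p _ D _ _ L _ _ _ hp0 hG
  classical
  have := Fintype.ofFinite D
  obtain ⟨n, x, y, hxy, hxy1⟩ := gal_dual' hG
  choose tr0 htr0 using fun b : L => gal_trace hG b
  obtain ⟨tr, htr⟩ : ∃ tr : L →+ LaurentSeries Λ, ∀ b,
      algebraMap (LaurentSeries Λ) L (tr b) = ∑ g : D, g • b := by
    refine ⟨AddMonoidHom.mk' tr0 fun a b => hG.inj ?_, htr0⟩
    rw [map_add, htr0, htr0, htr0, ← Finset.sum_add_distrib]
    exact Finset.sum_congr rfl fun g _ => smul_add g a b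
  have htrg : ∀ (g : D) (b : L), tr (g • b) = tr b := by
    intro g b
    apply hG.inj
    rw [htr, htr]
    refine Fintype.sum_bijective (fun x => x * g) (Group.mulRight_bijective g) _ _ fun x => ?_
    rw [smul_smul]
  have hl : ∀ a b, tr (algebraMap (LaurentSeries Λ) L a * b) = a * tr b := by
    intro a b
    apply hG.inj
    rw [htr, map_mul, htr, Finset.mul_sum]
    refine Finset.sum_congr rfl fun g _ => ?_
    rw [smul_mul', hG.comm]
  set Y : D × Fin n → L := fun q => q.1 • y q.2 with hY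
  set X : D × Fin n → L := fun q => if q.1 = 1 then x q.2 else 0 with hX
  have hf : ∀ b, b = ∑ j, algebraMap (LaurentSeries Λ) L (tr (Y j * b)) * X j := by
    intro b
    rw [Fintype.sum_prod_type, Finset.sum_eq_single (1 : D)]
    · conv_lhs => rw [gal_formula hxy hxy1 b]
      refine Finset.sum_congr rfl fun m _ => ?_
      rw [htr]
      simp [hY, hX]
    · intro g _ hg
      refine Finset.sum_eq_zero fun m _ => ?_
      simp [hX, hg]
    · intro h
      exact absurd (Finset.mem_univ _) h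
  have hp0' : (p : L) = 0 := by
    have h1 : (p : LaurentSeries Λ) = 0 := by
      rw [← map_natCast (HahnSeries.C : Λ →+* LaurentSeries Λ) p, hp0, map_zero]
    rw [← map_natCast (algebraMap (LaurentSeries Λ) L) p, h1, map_zero]
  obtain ⟨N, hN⟩ := OFil_main hl hf p Fact.out hp0'
  refine ⟨{ carrier := {b | OFil_F tr Y N b}
            add_mem' := fun ha hb => OFil_F_add ha hb
            zero_mem' := OFil_F_zero N
            neg_mem' := fun ha => OFil_F_neg ha }, ?_, hN, ?_⟩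
  · intro g z hz q
    have h1 : Y q * (g • z) = g • (Y (g⁻¹ * q.1, q.2) * z) := by
      rw [smul_mul', hY]
      simp only [smul_smul, mul_inv_cancel_left]
    rw [h1, htrg]
    exact hz _
  · intro k z
    obtain ⟨c, hc⟩ := OFil_bdd (tr := tr) (Y := Y) hl z
    exact ⟨N + c, fun a ha => hc N a ha⟩

end MP7b0bad.MT
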