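import Pool.Agent.Work.MP_7b0bad_ag.MT.TStmts
import Pool.Agent.Work.MP_7b0bad_ag.Bd.B08

set_option autoImplicit false

/-!
# Join of covers with tame inertia: the local extension at infinity of the outer torsor
-/

namespace MP7b0bad.MT

open Polynomial

/-- the tame algebra is the algebra of invariants of the kernel -/
theorem OInf_inv {R : Type} [CommRing R] {C : Type} [Group C] [Finite C] {A0 : Type}
    [CommRing A0] [Algebra R A0] [MulSemiringAction C A0] (h0 : GalAlg R C A0) {Γ : Type}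
    [Group Γ] [Finite Γ] (q : Γ →* C) {A : Type} [CommRing A] [Algebra R A]
    [MulSemiringAction Γ A] (e : A0 →+* A) (hq : Function.Surjective q) (hA : GalAlg R Γ A)
    (he : ∀ x : R, e (algebraMap R A0 x) = algebraMap R A x)
    (hg : ∀ (g : Γ) (x : A0), g • e x = e (q g • x)) :
    Function.Injective e ∧ ∀ x : A, (∀ g ∈ q.ker, g • x = x) → ∃ a, e a = x := by
  obtain ⟨B, _, _, _, i, hB, hi, hia, hig, hik⟩ := prf_QSub R Γ C q A hq hA
  have h1 : ∀ x : A0, ∃ b : B, i b = e x := fun x => hik _ fun γ hγ => by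
    rw [hg, MonoidHom.mem_ker.mp hγ, one_smul]
  choose f hf using h1
  let ψ : A0 →+* B :=
    { toFun := f
      map_one' := hi (by rw [hf, map_one, map_one])
      map_mul' := fun x y => hi (by rw [hf, map_mul, map_mul, hf, hf])
      map_zero' := hi (by rw [hf, map_zero, map_zero])
      map_add' := fun x y => hi (by rw [hf, map_add, map_add, hf, hf]) }
  have hψ : ∀ x, i (ψ x) = e x := hf
  have hbij : Function.Bijective ψ := by
    refine gal_hom_bijective h0 hB ψ (fun a => hi ?_) (fun c b => hi ?_)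
    · rw [hψ, he, hia]
    · obtain ⟨γ, rfl⟩ := hq c
      rw [hψ, hig, hψ, hg]
  refine ⟨fun x y hxy => hbij.1 (hi (by rw [hψ, hψ, hxy])), fun x hx => ?_⟩
  obtain ⟨b, hb⟩ := hik x hx
  obtain ⟨a, ha⟩ := hbij.2 b
  exact ⟨a, by rw [← hψ, ha, hb]⟩

/-- base change of `A` from `A0` to a ring `L` -/
theorem OInf_bc {R : Type} [CommRing R] {C : Type} [Group C] [Finite C] {A0 : Type}
    [CommRing A0] [Algebra R A0] [MulSemiringAction C A0] (h0 : GalAlg R C A0) {Γ : Type}
    [Group Γ] [Finite Γ] (q : Γ →* C) {A : Type} [CommRing A] [Algebra R A]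
    [MulSemiringAction Γ A] (e : A0 →+* A) (hq : Function.Surjective q) (hA : GalAlg R Γ A)
    (he : ∀ x : R, e (algebraMap R A0 x) = algebraMap R A x)
    (hg : ∀ (g : Γ) (x : A0), g • e x = e (q g • x)) {L : Type} [CommRing L] (jI : A0 →+* L) :
    ∃ (E : Type) (_ : CommRing E) (F : q.ker → E →+* E) (jA : A →+* E) (aL : L →+* E),
      Function.Injective aL ∧ (∀ x : A0, jA (e x) = aL (jI x)) ∧
      (∀ (g : q.ker) (x : A), F g (jA x) = jA ((g : Γ) • x)) ∧
      (∀ (g : q.ker) (a : L), F g (aL a) = aL a) ∧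
      (∀ z : E, (∀ g : q.ker, F g z = z) → ∃ a, aL a = z) ∧
      (∀ g : q.ker, g ≠ 1 → Ideal.span {x : E | ∃ b : E, x = b - F g b} = ⊤) ∧
      (∀ (f : A →+* E) (h : L →+* E), (∀ a : A0, f (e a) = h (jI a)) →
        ∃ F : E →+* E, (∀ b, F (jA b) = f b) ∧ ∀ a, F (aL a) = h a) ∧
      ∀ F F' : E →+* E, (∀ x, F (jA x) = F' (jA x)) → (∀ a, F (aL a) = F' (aL a)) → F = F' := by
  obtain ⟨hei, hek⟩ := OInf_inv h0 q e hq hA he hg
  let _ : Algebra A0 A := e.toAlgebra
  let _ : MulSemiringAction q.ker A := MulSemiringAction.compHom A q.ker.subtype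
  have hgal : GalAlg A0 q.ker A := by
    constructor
    · intro g a
      show (g : Γ) • e a = e a
      rw [hg, MonoidHom.mem_ker.mp g.2, one_smul]
    · exact hei
    · intro b hb
      exact hek b fun γ hγ => hb ⟨γ, hγ⟩
    · intro σ hσ
      exact hA.unr (σ : Γ) (fun h => hσ (Subtype.ext h))
  obtain ⟨E, _, _, _, jA, hE, h1, h2, h3, h4⟩ := prf_QBC A0 L jI q.ker A hgal
  refine ⟨E, inferInstance, fun g => MulSemiringAction.toRingHom q.ker E g, jA, algebraMap L E,
    hE.inj, h1, fun g x => (h2 g x).symm, fun g a => hE.comm g a, hE.inv, hE.unr,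
    fun f h hfh => h3 E f h hfh, fun F F' hF hF' => ?_⟩
  refine RingHom.ext fun z => ?_
  obtain ⟨n, r, b, rfl⟩ := h4 z
  rw [map_sum, map_sum]
  exact Finset.sum_congr rfl fun i _ => by rw [map_mul, map_mul, hF, hF']

/-- powers of the rotation -/
noncomputable def OInf_rk {κ : Type} [Field κ] (rot : LaurentSeries κ →+* LaurentSeries κ) :
    ℕ → (LaurentSeries κ →+* LaurentSeries κ)
  | 0 => RingHom.id _
  | k + 1 => rot.comp (OInf_rk rot k)

theorem OInf_rk_coeff {κ : Type} [Field κ] {ζ : κ} {rot : LaurentSeries κ →+* LaurentSeries κ}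
    (hrot : ∀ (a : LaurentSeries κ) (t : ℤ), (rot a).coeff t = ζ ^ (-t) * a.coeff t) (k : ℕ)
    (a : LaurentSeries κ) (t : ℤ) : (OInf_rk rot k a).coeff t = (ζ ^ k) ^ (-t) * a.coeff t := by
  induction k with
  | zero => simp [OInf_rk]
  | succ k ih =>
    show (rot (OInf_rk rot k a)).coeff t = _
    rw [hrot, ih, ← mul_assoc, pow_succ', mul_zpow]

theorem OInf_core {R : Type} [CommRing R] {κ : Type} [Field κ] {C : Type} [CommGroup C] [Finite C]
    {A0 : Type} [CommRing A0] [Algebra R A0] [MulSemiringAction C A0] (h0 : GalAlg R C A0)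
    {Γ : Type} [Group Γ] [Finite Γ] (q : Γ →* C) {A : Type} [CommRing A] [Algebra R A]
    [MulSemiringAction Γ A] (e : A0 →+* A) (hq : Function.Surjective q) (hA : GalAlg R Γ A)
    (he : ∀ x : R, e (algebraMap R A0 x) = algebraMap R A x)
    (hg : ∀ (g : Γ) (x : A0), g • e x = e (q g • x)) (jI : A0 →+* LaurentSeries κ) (c : C)
    (n : ℕ) (ζ : κ) (rot : LaurentSeries κ →+* LaurentSeries κ) (hc : orderOf c = n)
    (hζ : IsPrimitiveRoot ζ n)
    (hrot : ∀ (a : LaurentSeries κ) (t : ℤ), (rot a).coeff t = ζ ^ (-t) * a.coeff t)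
    (hjc : ∀ x : A0, jI (c • x) = rot (jI x)) {G₀ : Type} [Group G₀] (δ : G₀ →* Γ)
    (hδ : Function.Injective δ) (hδr : δ.range = (Subgroup.zpowers c).comap q) :
    ∃ (ω : G₀ → κ) (E : Type) (_ : CommRing E) (_ : MulSemiringAction G₀ E) (jA : A →+* E)
      (aL : LaurentSeries κ →+* E),
      Function.Injective aL ∧ (∀ x : A0, jA (e x) = aL (jI x)) ∧
      (∀ (g : G₀) (x : A), jA (δ g • x) = g • jA x) ∧
      (∀ (g : G₀) (a a' : LaurentSeries κ), (∀ t, a'.coeff t = ω g ^ (-t) * a.coeff t) →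
        g • aL a = aL a') ∧
      (∀ z : E, (∀ g : G₀, q (δ g) = 1 → g • z = z) → ∃ a, aL a = z) ∧
      (∀ g : G₀, q (δ g) = 1 → g ≠ 1 → Ideal.span {x : E | ∃ b : E, x = b - g • b} = ⊤) ∧
      (∀ g, ω g = 1 ↔ q (δ g) = 1) ∧ (∀ g, q (δ g) = c → ω g = ζ) ∧ (∀ g, ω g ^ n = 1) ∧
      ∀ g (a : LaurentSeries κ), ∃ a' : LaurentSeries κ, ∀ t, a'.coeff t = ω g ^ (-t) * a.coeff t
      := by
  have hk : ∀ g : G₀, ∃ k : ℕ, c ^ k = q (δ g) := by
    intro g
    have h1 : q (δ g) ∈ Subgroup.zpowers c := by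
      have h2 : δ g ∈ δ.range := ⟨g, rfl⟩
      rw [hδr] at h2
      exact h2
    rw [← mem_powers_iff_mem_zpowers] at h1
    exact h1
  choose k hk using hk
  have hmod : ∀ i j : ℕ, c ^ i = c ^ j → ζ ^ i = ζ ^ j := by
    intro i j hij
    rw [pow_eq_pow_iff_modEq, hc] at hij
    have h1 : orderOf ζ = n := hζ.eq_orderOf.symm
    rw [← pow_mod_orderOf ζ i, ← pow_mod_orderOf ζ j, h1, hij]
  obtain ⟨E, _, F, jA, aL, hL, hje, hFj, hFL, hFi, hFu, huni, hext⟩ :=
    OInf_bc h0 q e hq hA he hg jI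
  have hjk : ∀ (i : ℕ) (x : A0), jI (c ^ i • x) = OInf_rk rot i (jI x) := by
    intro i
    induction i with
    | zero => intro x; simp [OInf_rk]
    | succ i ih =>
      intro x
      rw [pow_succ', mul_smul, hjc, ih]
      rfl
  have hΦ : ∀ g : G₀, ∃ Φ : E →+* E, (∀ x, Φ (jA x) = jA (δ g • x)) ∧
      ∀ a, Φ (aL a) = aL (OInf_rk rot (k g) a) := by
    intro g
    obtain ⟨Φ, h1, h2⟩ := huni (jA.comp (MulSemiringAction.toRingHom Γ A (δ g)))
      (aL.comp (OInf_rk rot (k g))) (fun a => by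
        show jA (δ g • e a) = aL (OInf_rk rot (k g) (jI a))
        rw [hg, hje, ← hk, hjk])
    exact ⟨Φ, h1, h2⟩
  choose Φ hΦ1 hΦ2 using hΦ
  have hω1 : ∀ g, ζ ^ k g = 1 ↔ q (δ g) = 1 := by
    intro g
    rw [hζ.pow_eq_one_iff_dvd, ← hk, ← orderOf_dvd_iff_pow_eq_one, hc]
  have hΦone : Φ 1 = RingHom.id E := by
    refine hext _ _ (fun x => ?_) (fun a => ?_)
    · rw [hΦ1, map_one, one_smul]; rfl
    · rw [hΦ2]
      show aL (OInf_rk rot (k 1) a) = aL a
      congr 1
      ext t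
      rw [OInf_rk_coeff hrot, (hω1 1).mpr (by rw [map_one, map_one]), one_zpow, one_mul]
  have hΦmul : ∀ g h, Φ (g * h) = (Φ g).comp (Φ h) := by
    intro g h
    refine hext _ _ (fun x => ?_) (fun a => ?_)
    · rw [hΦ1, RingHom.comp_apply, hΦ1, hΦ1, map_mul, mul_smul]
    · rw [hΦ2, RingHom.comp_apply, hΦ2, hΦ2]
      congr 1
      ext t
      rw [OInf_rk_coeff hrot, OInf_rk_coeff hrot, OInf_rk_coeff hrot, ← mul_assoc, ← mul_zpow,
        ← pow_add]
      congr 2
      apply hmod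
      rw [pow_add, hk, hk, hk, map_mul, map_mul]
  have hFΦ : ∀ (g : G₀) (hg1 : q (δ g) = 1), F ⟨δ g, MonoidHom.mem_ker.mpr hg1⟩ = Φ g := by
    intro g hg1
    refine hext _ _ (fun x => ?_) (fun a => ?_)
    · rw [hFj, hΦ1]
    · rw [hFL, hΦ2]
      congr 1
      ext t
      rw [OInf_rk_coeff hrot, (hω1 g).mpr hg1, one_zpow, one_mul]
  let act : MulSemiringAction G₀ E :=
    { smul := fun g z => Φ g z
      one_smul := fun z => by
        show Φ 1 z = z
        rw [hΦone]; rfl
      mul_smul := fun g h z => by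
        show Φ (g * h) z = Φ g (Φ h z)
        rw [hΦmul]; rfl
      smul_zero := fun g => map_zero (Φ g)
      smul_add := fun g x y => map_add (Φ g) x y
      smul_one := fun g => map_one (Φ g)
      smul_mul := fun g x y => map_mul (Φ g) x y }
  refine ⟨fun g => ζ ^ k g, E, inferInstance, act, jA, aL, hL, hje, fun g x => (hΦ1 g x).symm,
    fun g a a' ha => ?_, fun z hz => ?_, fun g hg1 hg2 => ?_, hω1, fun g hgc => ?_, fun g => ?_,
    fun g a => ⟨OInf_rk rot (k g) a, fun t => OInf_rk_coeff hrot (k g) a t⟩⟩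
  · show Φ g (aL a) = aL a'
    rw [hΦ2]
    congr 1
    ext t
    rw [OInf_rk_coeff hrot, ha]
  · apply hFi
    rintro ⟨γ, hγ⟩
    have h2 : γ ∈ δ.range := by
      rw [hδr, Subgroup.mem_comap, MonoidHom.mem_ker.mp hγ]
      exact Subgroup.one_mem _
    obtain ⟨g, rfl⟩ := h2
    have h3 := hFΦ g (MonoidHom.mem_ker.mp hγ)
    rw [h3]
    exact hz g (MonoidHom.mem_ker.mp hγ)
  · have h3 := hFu ⟨δ g, MonoidHom.mem_ker.mpr hg1⟩ (fun h => hg2 (hδ (by
      rw [map_one]; exact congrArg Subtype.val h)))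
    rw [hFΦ g hg1] at h3
    exact h3
  · have h1 : ζ ^ k g = ζ ^ 1 := hmod _ _ (by rw [hk, hgc, pow_one])
    show ζ ^ k g = ζ
    rw [h1, pow_one]
  · show (ζ ^ k g) ^ n = 1
    rw [← pow_mul, mul_comm, pow_mul, hζ.pow_eq_one, one_pow]

/-- the polynomial part and the small part of a Laurent series -/
theorem OInf_poly {κ : Type} [Field κ] (p : ℕ) [Fact p.Prime] [CharP κ p] (u : LaurentSeries κ)
    (d : ℕ) (hd : ¬ p ∣ d) (hu : u.order = -(d : ℤ)) :
    ∃ (f : κ[X]) (h : LaurentSeries κ), u - atInf κ f = h ^ p - h ∧ ¬ p ∣ f.natDegree := by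
  have hd0 : d ≠ 0 := fun h => hd (by rw [h]; exact dvd_zero p)
  have hu0 : u ≠ 0 := by
    rintro rfl
    rw [HahnSeries.order_zero] at hu
    omega
  have hlead : u.coeff (-(d : ℤ)) ≠ 0 := by
    rw [← hu]
    exact fun h => hu0 (HahnSeries.coeff_order_eq_zero.mp h)
  set f : κ[X] := ∑ i ∈ Finset.range (d + 1), monomial i (u.coeff (-(i : ℤ))) with hf
  have hfc : ∀ i, f.coeff i = if i ≤ d then u.coeff (-(i : ℤ)) else 0 := by
    intro i
    rw [hf, finsetSum_coeff]
    simp only [coeff_monomial]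
    rw [Finset.sum_ite_eq' (Finset.range (d + 1)) i (fun j => u.coeff (-(j : ℤ)))]
    by_cases hi : i ≤ d
    · rw [if_pos hi, if_pos (Finset.mem_range.mpr (by omega))]
    · rw [if_neg hi, if_neg (fun h => hi (by have := Finset.mem_range.mp h; omega))]
  have hdeg : f.natDegree = d := by
    apply natDegree_eq_of_le_of_coeff_ne_zero
    · rw [natDegree_le_iff_coeff_eq_zero]
      intro N hN
      rw [hfc, if_neg (by omega)]
    · rw [hfc, if_pos le_rfl]
      exact hlead
  obtain ⟨h, _, hh⟩ := prf_QSm0 κ p (u - atInf κ f) (by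
    intro t ht
    rw [HahnSeries.coeff_sub, C2b_atInf_coeff, if_pos ht, hfc]
    have h1 : -(((-t).toNat : ℕ) : ℤ) = t := by omega
    rw [h1]
    by_cases h2 : (-t).toNat ≤ d
    · rw [if_pos h2, sub_self]
    · rw [if_neg h2, sub_zero]
      apply HahnSeries.coeff_eq_zero_of_lt_order
      rw [hu]
      omega)
  exact ⟨f, h, hh, by rw [hdeg]; exact hd⟩

theorem prf_OInf : OInf := by
  intro p _ κ _ _ R _ ρI C _ _ A0 _ _ _ jI c n ζ σ rot _ _ h0 hc hζ hσ hrot hjI hjc Γ _ _ q A _
    _ _ e hq _ hA he hg hT G₀ _ _ δ P c₀ hδ hδr hP hc₀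
  have hn : 0 < n := by rw [← hc]; exact orderOf_pos c
  obtain ⟨ω, E, iE, iA, jA, aL, hL, hje, hjg, hact, hinv, hunr, hω1, hωc, hωn, hex⟩ :=
    OInf_core h0 q e hq hA he hg jI c n ζ rot hc hζ hrot hjc δ hδ hδr
  have hω0 : ∀ g, ω g ≠ 0 := by
    intro g h
    have h1 := hωn g
    rw [h, zero_pow hn.ne'] at h1
    exact zero_ne_one h1
  have hfix : ∀ g : G₀, q (δ g) = 1 → ∀ a : LaurentSeries κ, g • aL a = aL a := by
    intro g hg1 a
    refine hact g a a fun t => ?_
    rw [(hω1 g).mpr hg1, one_zpow, one_mul]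
  have hτ : ∀ g : G₀, g • aL (HahnSeries.single (-1 : ℤ) (1 : κ)) =
      aL (HahnSeries.single (-1 : ℤ) (ω g)) := by
    intro g
    refine hact g _ _ fun t => ?_
    rw [HahnSeries.coeff_single, HahnSeries.coeff_single]
    split_ifs with h
    · rw [h]; simp
    · simp
  have hσinj : Function.Injective σ := by
    intro a b hab
    ext t
    rw [← hσ.coeff a t, ← hσ.coeff b t, hab]
  have hσ1 : σ (HahnSeries.single (1 : ℤ) (1 : κ)) = HahnSeries.single (n : ℤ) (1 : κ) := by
    ext t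
    by_cases ht : (n : ℤ) ∣ t
    · obtain ⟨s, rfl⟩ := ht
      rw [hσ.coeff, HahnSeries.coeff_single, HahnSeries.coeff_single]
      have h1 : s = 1 ↔ (n : ℤ) * s = (n : ℤ) := by
        constructor
        · rintro rfl; ring
        · intro h
          have h2 : (n : ℤ) * s = (n : ℤ) * 1 := by rw [h, mul_one]
          exact mul_left_cancel₀ (by exact_mod_cast hn.ne') h2
      by_cases hs : s = 1
      · rw [if_pos hs, if_pos (h1.mp hs)]
      · rw [if_neg hs, if_neg (fun h => hs (h1.mpr h))]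
    · rw [hσ.coeff0 _ _ ht, HahnSeries.coeff_single, if_neg]
      rintro rfl
      exact ht dvd_rfl
  have hσg : ∀ (g : G₀) (a : LaurentSeries κ), g • aL (σ a) = aL (σ a) := by
    intro g a
    refine hact g _ _ fun t => ?_
    by_cases ht : (n : ℤ) ∣ t
    · obtain ⟨s, rfl⟩ := ht
      rw [show -((n : ℤ) * s) = (n : ℤ) * (-s) by ring, zpow_mul, zpow_natCast, hωn, one_zpow,
        one_mul]
    · rw [hσ.coeff0 _ _ ht, mul_zero]
  subst hP
  let alg : Algebra (LaurentSeries κ) E := (aL.comp σ).toAlgebra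
  refine ⟨E, iE, alg, iA, jA, aL (HahnSeries.single (-1 : ℤ) (1 : κ)), ?_, ?_, hjg, ?_⟩
  · refine GalAlg.mk ?_ ?_ ?_ ?_
    · intro g a
      exact hσg g a
    · exact hL.comp hσinj
    · intro b hb
      obtain ⟨a, rfl⟩ := hinv b (fun (g : G₀) _ => hb g)
      obtain ⟨a', ha'⟩ := hex c₀ a
      have h1 : aL a' = aL a := by rw [← hact c₀ a a' ha']; exact hb c₀
      have h2 : a' = a := hL h1
      subst h2
      have h3 : ∀ t : ℤ, ¬ (n : ℤ) ∣ t → a'.coeff t = 0 := by
        intro t ht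
        have h4 := ha' t
        rw [hωc c₀ hc₀] at h4
        by_contra h5
        have h6 : ζ ^ (-t) = 1 := by
          have h7 : ζ ^ (-t) * a'.coeff t = 1 * a'.coeff t := by rw [← h4, one_mul]
          exact mul_right_cancel₀ h5 h7
        rw [hζ.zpow_eq_one_iff_dvd] at h6
        exact ht ((dvd_neg).mp h6)
      have hb' : BddBelow (Function.support fun t : ℤ => a'.coeff ((n : ℤ) * t)) := by
        refine ⟨min a'.order 0, fun t ht => ?_⟩
        have h8 : a'.coeff ((n : ℤ) * t) ≠ 0 := ht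
        have h9 : a'.order ≤ (n : ℤ) * t := HahnSeries.order_le_of_coeff_ne_zero h8
        by_contra h10
        rw [not_le, lt_min_iff] at h10
        have h11 : (n : ℤ) * t ≤ 1 * t := by
          have h12 : (1 : ℤ) ≤ (n : ℤ) := by exact_mod_cast hn
          nlinarith [h10.2]
        omega
      refine ⟨HahnSeries.ofSuppBddBelow _ hb', ?_⟩
      show aL (σ _) = aL a'
      congr 1
      ext t
      by_cases ht : (n : ℤ) ∣ t
      · obtain ⟨s, rfl⟩ := ht
        rw [hσ.coeff, HahnSeries.coeff_ofSuppBddBelow]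
      · rw [hσ.coeff0 _ _ ht, h3 t ht]
    · intro g hg1
      by_cases hg2 : q (δ g) = 1
      · exact hunr g hg2 hg1
      · have h1 : ω g ≠ 1 := fun h => hg2 ((hω1 g).mp h)
        have h2 : IsUnit (HahnSeries.single (-1 : ℤ) (1 - ω g) : LaurentSeries κ) := by
          apply IsUnit.mk0
          exact HahnSeries.single_ne_zero (sub_ne_zero.mpr (Ne.symm h1))
        refine Ideal.eq_top_of_isUnit_mem _ (Ideal.subset_span ?_) (h2.map aL)
        refine ⟨aL (HahnSeries.single (-1 : ℤ) (1 : κ)), ?_⟩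
        rw [hτ, ← map_sub]
        congr 1
        ext t
        rw [HahnSeries.coeff_sub, HahnSeries.coeff_single, HahnSeries.coeff_single,
          HahnSeries.coeff_single]
        split_ifs
        · rfl
        · rw [sub_zero]
  · intro x
    show jA (algebraMap R A x) = aL (σ (ρI x))
    rw [← he, hje, hjI]
  · constructor
    · show (aL (HahnSeries.single (-1 : ℤ) (1 : κ))) ^ n *
        aL (σ (HahnSeries.single (1 : ℤ) (1 : κ))) = 1
      rw [hσ1, ← map_pow, ← map_mul, HahnSeries.single_pow, HahnSeries.single_mul_single, one_pow,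
        one_mul]
      rw [show n • (-1 : ℤ) + (n : ℤ) = 0 by simp]
      exact map_one aL
    · intro g hgP
      exact hfix g (MonoidHom.mem_ker.mp (Subgroup.mem_comap.mp hgP)) _
    · show c₀ • aL (HahnSeries.single (-1 : ℤ) (1 : κ)) =
        aL (σ (HahnSeries.C ζ)) * aL (HahnSeries.single (-1 : ℤ) (1 : κ))
      rw [hτ, hωc c₀ hc₀, hσ.c, ← map_mul, HahnSeries.C_apply, HahnSeries.single_mul_single,
        zero_add, mul_one]
    · intro l hl
      -- transport of the character
      have hPk : ∀ g : (q.ker.comap δ : Subgroup G₀), δ (g : G₀) ∈ q.ker := fun g => g.2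
      let φ : (q.ker.comap δ : Subgroup G₀) →* q.ker :=
        { toFun := fun g => ⟨δ g, hPk g⟩
          map_one' := Subtype.ext (by simp)
          map_mul' := fun g h => Subtype.ext (by simp) }
      have hφ : ∀ g, ((φ g : q.ker) : Γ) = δ (g : G₀) := fun _ => rfl
      have hφb : Function.Bijective φ := by
        constructor
        · intro g h hgh
          exact Subtype.ext (hδ (by rw [← hφ, ← hφ, hgh]))
        · rintro ⟨γ, hγ⟩
          have h2 : γ ∈ δ.range := by
            rw [hδr, Subgroup.mem_comap, MonoidHom.mem_ker.mp hγ]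
            exact Subgroup.one_mem _
          obtain ⟨g, rfl⟩ := h2
          exact ⟨⟨g, hγ⟩, rfl⟩
      let Φ : (q.ker.comap δ : Subgroup G₀) ≃* q.ker := MulEquiv.ofBijective φ hφb
      let l' : q.ker →* Multiplicative (ZMod p) := l.comp Φ.symm.toMonoidHom
      have hl'g : ∀ g, l' (φ g) = l g := by
        intro g
        show l (Φ.symm (Φ g)) = l g
        rw [MulEquiv.symm_apply_apply]
      have hl' : l' ≠ 1 := by
        intro h
        apply hl
        ext g
        rw [← hl'g, h]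
        rfl
      obtain ⟨y, b, d, hy1, hy2, hd, hbd⟩ := hT l' hl'
      obtain ⟨f, h, hfh, hfd⟩ := OInf_poly p (jI b) d hd hbd
      have hch1 : CharP (LaurentSeries κ) p :=
        charP_of_injective_ringHom (f := (HahnSeries.C : κ →+* LaurentSeries κ))
          HahnSeries.C_injective p
      have hch : CharP E p := charP_of_injective_ringHom hL p
      refine ⟨jA y - aL h, f, ?_, ?_, hfd⟩
      · intro g
        have h1 : q (δ (g : G₀)) = 1 := MonoidHom.mem_ker.mp (hPk g)
        rw [smul_sub, hfix _ h1, ← hjg]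
        have h2 := hy1 (φ g)
        rw [hφ, hl'g] at h2
        rw [h2, map_add, map_natCast]
        ring
      · rw [sub_pow_char, ← map_pow, ← map_pow]
        have h1 : jA (y ^ p) - aL (h ^ p) - (jA y - aL h) = jA (y ^ p - y) - aL (h ^ p - h) := by
          rw [map_sub, map_sub]; ring
        rw [h1, hy2, hje, ← hfh, map_sub, sub_sub_cancel]
        have h2 : (algebraMap (LaurentSeries κ) E).comp (HahnSeries.C : κ →+* LaurentSeries κ) =
            aL.comp (HahnSeries.C : κ →+* LaurentSeries κ) := by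
          refine RingHom.ext fun a => ?_
          show aL (σ (HahnSeries.C a)) = aL (HahnSeries.C a)
          rw [hσ.c]
        rw [h2, ← hom_eval₂]
        rfl

end MP7b0bad.MT
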