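import Pool.Agent.Work.MP_7b0bad_ag.MT.TStmts

set_option autoImplicit false

/-!
# Item OKA: Kummer algebras
-/

namespace MP7b0bad.MT

open Polynomial

/-- the power of `ζ` attached to an element of the cyclic group -/
def OKA_e {R : Type} [CommRing R] {n : ℕ} (ζ : R) (c : Multiplicative (ZMod n)) : R :=
  ζ ^ (Multiplicative.toAdd c).val

theorem OKA_e_one {R : Type} [CommRing R] {n : ℕ} (ζ : R) :
    OKA_e ζ (1 : Multiplicative (ZMod n)) = 1 := by
  unfold OKA_e
  rw [toAdd_one, ZMod.val_zero, pow_zero]

theorem OKA_e_mul {R : Type} [CommRing R] {n : ℕ} (hn : 0 < n) (ζ : R) (hζ : ζ ^ n = 1)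
    (c d : Multiplicative (ZMod n)) : OKA_e ζ (c * d) = OKA_e ζ c * OKA_e ζ d := by
  have : NeZero n := ⟨hn.ne'⟩
  unfold OKA_e
  rw [toAdd_mul, ZMod.val_add, ← pow_add]
  exact (pow_eq_pow_mod _ hζ).symm

theorem OKA_e_pow {R : Type} [CommRing R] {n : ℕ} (ζ : R) (hζ : ζ ^ n = 1)
    (c : Multiplicative (ZMod n)) : OKA_e ζ c ^ n = 1 := by
  unfold OKA_e
  rw [← pow_mul, mul_comm, pow_mul, hζ, one_pow]

/-- one step -/
theorem OKA_step (R : Type) [CommRing R] (G : Type) [Group G] (B : Type) [CommRing B]
    [Algebra R B] [MulSemiringAction G B] (hB : GalAlg R G B) (n : ℕ) (hn : 0 < n) (f ζ : R)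
    (hf : IsUnit f) (hζ : ζ ^ n = 1) (hu : ∀ j : ℕ, 0 < j → j < n → IsUnit (1 - ζ ^ j)) :
    ∃ (A : Type) (_ : CommRing A) (_ : Algebra R A)
      (_ : MulSemiringAction (G × Multiplicative (ZMod n)) A) (i : B →+* A) (s : A),
      GalAlg R (G × Multiplicative (ZMod n)) A ∧
      (∀ a : R, i (algebraMap R B a) = algebraMap R A a) ∧
      s ^ n = algebraMap R A f ∧
      (∀ (x : G × Multiplicative (ZMod n)) (b : B), x • i b = i (x.1 • b)) ∧
      (∀ (x : G × Multiplicative (ZMod n)), x • s = algebraMap R A (OKA_e ζ x.2) * s) ∧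
      (∀ (T : Type) [CommRing T] (φ : B →+* T) (t : T), t ^ n = φ (algebraMap R B f) →
        ∃ F : A →+* T, (∀ b, F (i b) = φ b) ∧ F s = t) ∧
      ∀ (T : Type) [CommRing T] (F F' : A →+* T), (∀ b, F (i b) = F' (i b)) → F s = F' s →
        F = F' := by
  classical
  have : NeZero n := ⟨hn.ne'⟩
  let q : B[X] := X ^ n - C (algebraMap R B f)
  have hq : q.Monic := monic_X_pow_sub_C _ hn.ne'
  have hroot : (AdjoinRoot.root q) ^ n = AdjoinRoot.of q (algebraMap R B f) := by
    have h := AdjoinRoot.eval₂_root q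
    simp only [q, eval₂_sub, eval₂_pow, eval₂_X, eval₂_C] at h
    exact sub_eq_zero.mp h
  have halg : ∀ a : R, algebraMap R (AdjoinRoot q) a = AdjoinRoot.of q (algebraMap R B a) := by
    intro a
    rfl
  have hwd : ∀ x : G × Multiplicative (ZMod n),
      q.eval₂ ((AdjoinRoot.of q).comp (MulSemiringAction.toRingHom G B x.1))
        (algebraMap R (AdjoinRoot q) (OKA_e ζ x.2) * AdjoinRoot.root q) = 0 := by
    intro x
    have h1 : q.eval₂ ((AdjoinRoot.of q).comp (MulSemiringAction.toRingHom G B x.1))
        (algebraMap R (AdjoinRoot q) (OKA_e ζ x.2) * AdjoinRoot.root q) =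
        (algebraMap R (AdjoinRoot q) (OKA_e ζ x.2) * AdjoinRoot.root q) ^ n -
        AdjoinRoot.of q (x.1 • algebraMap R B f) := by
      simp only [q, eval₂_sub, eval₂_pow, eval₂_X, eval₂_C]
      rfl
    rw [h1, mul_pow, ← map_pow, OKA_e_pow ζ hζ, map_one, one_mul, hroot, hB.comm, sub_self]
  let act : G × Multiplicative (ZMod n) → AdjoinRoot q →+* AdjoinRoot q := fun x =>
    AdjoinRoot.lift ((AdjoinRoot.of q).comp (MulSemiringAction.toRingHom G B x.1))
      (algebraMap R (AdjoinRoot q) (OKA_e ζ x.2) * AdjoinRoot.root q) (hwd x)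
  have act_of : ∀ x b, act x (AdjoinRoot.of q b) = AdjoinRoot.of q (x.1 • b) := by
    intro x b
    simp only [act, AdjoinRoot.lift_of]
    rfl
  have act_root : ∀ x, act x (AdjoinRoot.root q) =
      algebraMap R (AdjoinRoot q) (OKA_e ζ x.2) * AdjoinRoot.root q := by
    intro x
    simp only [act, AdjoinRoot.lift_root]
  have act_alg : ∀ x (a : R), act x (algebraMap R (AdjoinRoot q) a) =
      algebraMap R (AdjoinRoot q) a := by
    intro x a
    rw [halg, act_of, hB.comm]
  have hext : ∀ (T : Type) [CommRing T] (F F' : AdjoinRoot q →+* T),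
      (∀ b, F (AdjoinRoot.of q b) = F' (AdjoinRoot.of q b)) →
      F (AdjoinRoot.root q) = F' (AdjoinRoot.root q) → F = F' := by
    intro T _ F F' h1 h2
    refine RingHom.ext fun z => ?_
    obtain ⟨p, rfl⟩ := AdjoinRoot.mk_surjective z
    induction p using Polynomial.induction_on' with
    | add a b ha hb => rw [map_add, map_add, map_add, ha, hb]
    | monomial m b =>
      rw [← C_mul_X_pow_eq_monomial, map_mul, map_pow, AdjoinRoot.mk_C, AdjoinRoot.mk_X, map_mul,
        map_mul, map_pow, map_pow, h1, h2]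
  have act_one : act 1 = RingHom.id _ := by
    refine hext _ _ _ (fun b => ?_) ?_
    · rw [act_of]
      simp
    · rw [act_root]
      simp only [Prod.snd_one, OKA_e_one, map_one, one_mul, RingHom.id_apply]
  have act_mul : ∀ x y, act (x * y) = (act x).comp (act y) := by
    intro x y
    refine hext _ _ _ (fun b => ?_) ?_
    · rw [RingHom.comp_apply, act_of, act_of, act_of, Prod.fst_mul, mul_smul]
    · rw [RingHom.comp_apply, act_root, act_root, map_mul, act_alg, act_root, Prod.snd_mul,
        OKA_e_mul hn ζ hζ, map_mul]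
      ring
  let mact : MulSemiringAction (G × Multiplicative (ZMod n)) (AdjoinRoot q) :=
    { smul := fun x z => act x z
      one_smul := fun z => by
        show act 1 z = z
        rw [act_one]
        rfl
      mul_smul := fun x y z => by
        show act (x * y) z = act x (act y z)
        rw [act_mul]
        rfl
      smul_zero := fun x => map_zero (act x)
      smul_add := fun x a b => map_add (act x) a b
      smul_one := fun x => map_one (act x)
      smul_mul := fun x a b => map_mul (act x) a b }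
  have smul_def : ∀ (x : G × Multiplicative (ZMod n)) (z : AdjoinRoot q),
      @HSMul.hSMul _ _ _ (@instHSMul _ _ mact.toSMul) x z = act x z := fun _ _ => rfl
  -- basis
  rcases subsingleton_or_nontrivial B with hBs | hBn
  · -- everything is trivial
    have : Subsingleton (AdjoinRoot q) := by
      refine ⟨fun a b => ?_⟩
      have h01 : (1 : AdjoinRoot q) = 0 := by
        rw [← map_one (AdjoinRoot.of q), Subsingleton.elim (1 : B) 0, map_zero]
      rw [← mul_one a, ← mul_one b, h01, mul_zero, mul_zero]
    refine ⟨AdjoinRoot q, inferInstance, inferInstance, mact, AdjoinRoot.of q, AdjoinRoot.root q,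
      ?_, fun a => rfl, hroot, fun x b => act_of x b, fun x => act_root x, ?_, ?_⟩
    · refine ⟨fun g a => Subsingleton.elim _ _, ?_, fun b _ => ⟨0, Subsingleton.elim _ _⟩, ?_⟩
      · intro a b _
        exact hB.inj (Subsingleton.elim _ _)
      · intro σ _
        rw [Ideal.eq_top_iff_one, Subsingleton.elim (1 : AdjoinRoot q) 0]
        exact Ideal.zero_mem _
    · intro T _ φ t ht
      refine ⟨AdjoinRoot.lift φ t ?_, fun b => AdjoinRoot.lift_of _, AdjoinRoot.lift_root _⟩
      simp only [q, eval₂_sub, eval₂_pow, eval₂_X, eval₂_C]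
      rw [ht, sub_self]
    · intro T _ F F' h1 h2
      exact hext T F F' h1 h2
  have hdeg : q.natDegree = n := natDegree_X_pow_sub_C
  let pb := AdjoinRoot.powerBasis' hq
  have hpbdim : pb.dim = n := by
    rw [AdjoinRoot.powerBasis'_dim, hdeg]
  have hgen : pb.gen = AdjoinRoot.root q := AdjoinRoot.powerBasis'_gen hq
  -- expansion of an element
  have hexp : ∀ z : AdjoinRoot q, ∃ b : Fin n → B,
      z = ∑ l, AdjoinRoot.of q (b l) * AdjoinRoot.root q ^ (l : ℕ) := by
    intro z
    refine ⟨fun l => pb.basis.repr z (Fin.cast hpbdim.symm l), ?_⟩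
    conv_lhs => rw [← pb.basis.sum_repr z]
    rw [← (finCongr hpbdim).symm.sum_comp]
    refine Finset.sum_congr rfl fun l _ => ?_
    rw [pb.basis_eq_pow, hgen, Algebra.smul_def]
    rfl
  have hzero : ∀ b : Fin n → B,
      ∑ l, AdjoinRoot.of q (b l) * AdjoinRoot.root q ^ (l : ℕ) = 0 → ∀ l, b l = 0 := by
    intro b hb
    have hli := pb.basis.linearIndependent
    rw [Fintype.linearIndependent_iff] at hli
    have h1 := hli (fun l => b (Fin.cast hpbdim l)) (by
      rw [← hb, ← (finCongr hpbdim).symm.sum_comp]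
      refine Finset.sum_congr rfl fun l _ => ?_
      rw [pb.basis_eq_pow, hgen, Algebra.smul_def]
      rfl)
    intro l
    exact h1 (Fin.cast hpbdim.symm l)
  have hofinj : Function.Injective (AdjoinRoot.of q) := by
    rw [injective_iff_map_eq_zero]
    intro b hb
    have h0 : ∑ l : Fin n, AdjoinRoot.of q ((fun l : Fin n => if (l : ℕ) = 0 then b else 0) l) *
        AdjoinRoot.root q ^ (l : ℕ) = 0 := by
      refine Finset.sum_eq_zero fun l _ => ?_
      by_cases hl : (l : ℕ) = 0
      · simp only [hl, if_true, hb, zero_mul]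
      · simp only [hl, if_false, map_zero, zero_mul]
    have := hzero _ h0 ⟨0, hn⟩
    simpa using this
  refine ⟨AdjoinRoot q, inferInstance, inferInstance, mact, AdjoinRoot.of q, AdjoinRoot.root q,
      ?_, fun a => rfl, hroot, fun x b => act_of x b, fun x => act_root x, ?_, ?_⟩
  · refine ⟨fun x a => act_alg x a, ?_, ?_, ?_⟩
    · exact hofinj.comp hB.inj
    · intro z hz
      obtain ⟨b, hb⟩ := hexp z
      -- the generator of the cyclic group
      have hc : ∀ l : Fin n, 0 < (l : ℕ) → b l = 0 := by
        intro l hl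
        have hn1 : 1 < n := lt_of_le_of_lt hl l.2
        have h1 := hz ((1 : G), Multiplicative.ofAdd (1 : ZMod n))
        rw [smul_def] at h1
        have he : OKA_e ζ (Multiplicative.ofAdd (1 : ZMod n)) = ζ := by
          unfold OKA_e
          rw [toAdd_ofAdd]
          have : Fact (1 < n) := ⟨hn1⟩
          rw [ZMod.val_one, pow_one]
        have h2 : act ((1 : G), Multiplicative.ofAdd (1 : ZMod n)) z =
            ∑ l : Fin n, AdjoinRoot.of q (algebraMap R B (ζ ^ (l : ℕ)) * b l) *
              AdjoinRoot.root q ^ (l : ℕ) := by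
          rw [hb, map_sum]
          refine Finset.sum_congr rfl fun l _ => ?_
          rw [map_mul, map_pow, act_of, act_root, he, one_smul, mul_pow, ← map_pow, halg, map_mul]
          ring
        have h3 : ∑ l : Fin n, AdjoinRoot.of q (b l - algebraMap R B (ζ ^ (l : ℕ)) * b l) *
              AdjoinRoot.root q ^ (l : ℕ) = 0 := by
          have : ∑ l : Fin n, AdjoinRoot.of q (b l - algebraMap R B (ζ ^ (l : ℕ)) * b l) *
              AdjoinRoot.root q ^ (l : ℕ) = z - act ((1 : G), Multiplicative.ofAdd (1 : ZMod n)) z := by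
            rw [h2]
            conv_rhs => rw [hb]
            rw [← Finset.sum_sub_distrib]
            refine Finset.sum_congr rfl fun l _ => ?_
            rw [map_sub]
            ring
          rw [this, h1, sub_self]
        have h4 := hzero _ h3 l
        have h5 : algebraMap R B (1 - ζ ^ (l : ℕ)) * b l = 0 := by
          rw [map_sub, map_one, sub_mul, one_mul]
          exact h4
        have h6 : IsUnit (algebraMap R B (1 - ζ ^ (l : ℕ))) := (hu l hl l.2).map _
        exact (h6.mul_right_eq_zero).mp h5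
      have hz0 : z = AdjoinRoot.of q (b ⟨0, hn⟩) := by
        rw [hb, Finset.sum_eq_single (⟨0, hn⟩ : Fin n)]
        · simp
        · intro l _ hl
          have : 0 < (l : ℕ) := by
            rcases Nat.eq_zero_or_pos (l : ℕ) with h | h
            · exact absurd (Fin.ext h) hl
            · exact h
          rw [hc l this, map_zero, zero_mul]
        · intro h
          exact absurd (Finset.mem_univ _) h
      have hinv : ∀ g : G, g • b ⟨0, hn⟩ = b ⟨0, hn⟩ := by
        intro g
        have h1 := hz (g, 1)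
        rw [smul_def, hz0, act_of] at h1
        exact hofinj h1
      obtain ⟨a, ha⟩ := hB.inv _ hinv
      refine ⟨a, ?_⟩
      rw [halg, ha, hz0]
    · intro σ hσ
      by_cases hg : σ.1 = 1
      · have hc : σ.2 ≠ 1 := by
          intro h
          exact hσ (Prod.ext hg h)
        have hval : (Multiplicative.toAdd σ.2).val ≠ 0 := by
          intro h
          apply hc
          have : Multiplicative.toAdd σ.2 = 0 := (ZMod.val_eq_zero _).mp h
          exact toAdd_eq_zero.mp this
        have h1 : IsUnit (1 - OKA_e ζ σ.2) := hu _ (Nat.pos_of_ne_zero hval) (ZMod.val_lt _)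
        have h2 : IsUnit (AdjoinRoot.root q) := by
          have : IsUnit ((AdjoinRoot.root q) ^ n) := by
            rw [hroot]
            exact (hf.map (algebraMap R B)).map (AdjoinRoot.of q)
          exact (isUnit_pow_iff hn.ne').mp this
        have h3 : IsUnit (AdjoinRoot.root q - act σ (AdjoinRoot.root q)) := by
          have : AdjoinRoot.root q - act σ (AdjoinRoot.root q) =
              algebraMap R (AdjoinRoot q) (1 - OKA_e ζ σ.2) * AdjoinRoot.root q := by
            rw [act_root, map_sub, map_one]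
            ring
          rw [this]
          exact (h1.map _).mul h2
        exact Ideal.eq_top_of_isUnit_mem _ (Ideal.subset_span ⟨_, rfl⟩) h3
      · have h1 := hB.unr σ.1 hg
        rw [Ideal.eq_top_iff_one] at h1 ⊢
        have h2 : (AdjoinRoot.of q) 1 ∈
            Ideal.map (AdjoinRoot.of q) (Ideal.span {x : B | ∃ b : B, x = b - σ.1 • b}) :=
          Ideal.mem_map_of_mem _ h1
        rw [map_one] at h2
        refine Ideal.map_le_iff_le_comap.mpr ?_ h2
        rw [Ideal.span_le]
        rintro x ⟨b, rfl⟩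
        refine Ideal.subset_span ⟨AdjoinRoot.of q b, ?_⟩
        rw [smul_def, act_of, map_sub]
  · intro T _ φ t ht
    refine ⟨AdjoinRoot.lift φ t ?_, fun b => AdjoinRoot.lift_of _, AdjoinRoot.lift_root _⟩
    simp only [q, eval₂_sub, eval₂_pow, eval₂_X, eval₂_C]
    rw [ht, sub_self]
  · intro T _ F F' h1 h2
    exact hext T F F' h1 h2

/-- transport of a Galois algebra along an isomorphism of groups -/
theorem OKA_tr (R : Type) [CommRing R] (G G' : Type) [Group G] [Group G'] (e : G' ≃* G) (B : Type)
    [CommRing B] [Algebra R B] [MulSemiringAction G B] (hB : GalAlg R G B) :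
    ∃ (_ : MulSemiringAction G' B), GalAlg R G' B ∧ ∀ (g : G') (b : B), g • b = e g • b := by
  let m : MulSemiringAction G' B := MulSemiringAction.compHom B e.toMonoidHom
  refine ⟨m, ⟨fun g a => hB.comm (e g) a, hB.inj, ?_, ?_⟩, fun g b => rfl⟩
  · intro b hb
    apply hB.inv
    intro g
    have := hb (e.symm g)
    have h2 : e (e.symm g) • b = b := this
    rwa [e.apply_symm_apply] at h2
  · intro σ hσ
    have h1 := hB.unr (e σ) (by
      intro h
      apply hσ
      exact e.injective (by rw [h, map_one]))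
    exact h1

/-- the trivial Galois algebra -/
theorem OKA_triv (R : Type) [CommRing R] :
    ∃ (_ : MulSemiringAction Unit R), GalAlg R Unit R := by
  let m : MulSemiringAction Unit R :=
    { smul := fun _ z => z
      one_smul := fun _ => rfl
      mul_smul := fun _ _ _ => rfl
      smul_zero := fun _ => rfl
      smul_add := fun _ _ _ => rfl
      smul_one := fun _ => rfl
      smul_mul := fun _ _ _ => rfl }
  refine ⟨m, ⟨fun _ _ => rfl, fun _ _ h => h, fun b _ => ⟨b, rfl⟩, ?_⟩⟩
  intro σ hσ
  exact absurd rfl hσ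

/-- the group of the tame torsor as a product -/
def OKA_iso (n : Fin 2 → ℕ) :
    CT n ≃* (Unit × Multiplicative (ZMod (n 0))) × Multiplicative (ZMod (n 1)) where
  toFun g := (((), g 0), g 1)
  invFun x := Fin.cons x.1.2 (Fin.cons x.2 finZeroElim)
  left_inv g := by
    funext i
    fin_cases i <;> rfl
  right_inv x := by
    obtain ⟨⟨_, a⟩, b⟩ := x
    rfl
  map_mul' g h := rfl

theorem prf_OKA : OKA := by
  intro R _ _ n f ζ hn _ hf hζ hu
  obtain ⟨m0, h0⟩ := OKA_triv R
  obtain ⟨B, _, _, mB, i, s, hB, hi, hs, hBi, hBs, hBl, hBu⟩ :=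
    OKA_step R Unit R h0 (n 0) (hn 0) (f 0) (ζ 0) (hf 0) (hζ 0) (hu 0)
  obtain ⟨A, _, _, mA, i', s', hA, hi', hs', hAi, hAs, hAl, hAu⟩ :=
    OKA_step R (Unit × Multiplicative (ZMod (n 0))) B hB (n 1) (hn 1) (f 1) (ζ 1) (hf 1) (hζ 1)
      (hu 1)
  obtain ⟨mC, hC, hact⟩ := OKA_tr R _ _ (OKA_iso n) A hA
  refine ⟨A, inferInstance, inferInstance, mC, Fin.cons (i' s) (Fin.cons s' finZeroElim), hC, ?_,
    ?_, ?_, ?_⟩
  · intro j
    fin_cases j
    · show i' s ^ n 0 = _
      rw [← map_pow, hs, hi']
      rfl
    · exact hs'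
  · intro g j
    fin_cases j
    · show g • i' s = algebraMap R A (ζ 0 ^ (Multiplicative.toAdd (g 0)).val) * i' s
      rw [hact, hAi]
      show i' (((), g 0) • s) = _
      rw [hBs, map_mul, hi']
      rfl
    · show g • s' = algebraMap R A (ζ 1 ^ (Multiplicative.toAdd (g 1)).val) * s'
      rw [hact, hAs]
      rfl
  · intro T _ φ t ht
    obtain ⟨F, hF, hFs⟩ := hBl T φ (t 0) (ht 0)
    obtain ⟨F', hF', hFs'⟩ := hAl T F (t 1) (by
      rw [← hi, hF]
      exact ht 1)
    refine ⟨F', fun x => ?_, fun j => ?_⟩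
    · rw [← hi', hF', ← hi, hF]
      rfl
    · fin_cases j
      · show F' (i' s) = t 0
        rw [hF', hFs]
      · exact hFs'
  · intro T _ F F' h1 h2
    have h3 : F.comp i' = F'.comp i' := by
      refine hBu T _ _ (fun b => ?_) ?_
      · have e1 : i b = algebraMap R B b := by
          rw [← hi]
          rfl
        rw [RingHom.comp_apply, RingHom.comp_apply, e1, hi', h1]
      · exact h2 0
    refine hAu T F F' (fun b => ?_) (h2 1)
    exact congrArg (fun φ : B →+* T => φ b) h3

end MP7b0bad.MT
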