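import Pool.Agent.Work.MP_7b0bad_ag.MT.TStmts
import Pool.Agent.Work.MP_7b0bad_ag.SV.JAll

set_option autoImplicit false

/-!
# Local algebras over `k[w, 1/w]((T))` and over `k((w))((T))`
-/

namespace MP7b0bad.MT

open Polynomial

theorem OLQ_WFp_C (k : Type) [Field k] (a : k) :
    WFp k (HahnSeries.C (LaurentPolynomial.C a)) =
      (HahnSeries.C (HahnSeries.C a : LaurentSeries k) : Fk k) := by
  refine HahnSeries.ext ?_
  funext t
  change wLp k ((HahnSeries.C (LaurentPolynomial.C a) : KWp k).coeff t) = _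
  rw [HahnSeries.C_apply, HahnSeries.C_apply, HahnSeries.coeff_single, HahnSeries.coeff_single]
  split_ifs
  · rw [wLp, LaurentPolynomial.eval₂_C]
  · exact map_zero _

theorem prf_OLQ : OLQ := by
  intro k _ _ m ψ D _ _ E _ _ _ hm hψ hcop gE dE
  obtain ⟨L, rL, aL, mL, lE, gL, lE_alg, lE_act, -, -⟩ :=
    all_QBC (LaurentSeries k) (KWp k) ψ D E gE
  obtain ⟨Q, rQ, aQ, mQ, lQ, gQ, lQ_alg, lQ_act, -, -⟩ :=
    all_QBC (KWp k) (Fk k) (WFp k) D L gL
  refine ⟨L, rL, aL, mL, Q, rQ, aQ, mQ, lE, lQ, gL, gQ, ?_, lE_alg, lE_act, lQ_alg, lQ_act⟩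
  refine all_JDom k (LaurentSeries k) HahnSeries.C m ((WFp k).comp ψ) hm ?_ ?_ D E Q
    (lQ.comp lE) gE dE gQ hcop ?_ ?_
  · intro a
    rw [RingHom.comp_apply, hψ.c, OLQ_WFp_C]
  · intro a ha
    rw [RingHom.comp_apply]
    exact hψ.ord a ha
  · intro a
    rw [RingHom.comp_apply, lE_alg, lQ_alg, RingHom.comp_apply]
  · intro g x
    rw [RingHom.comp_apply, lE_act, lQ_act, RingHom.comp_apply]

end MP7b0bad.MT
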