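import Pool.Agent.Work.MP_7b0bad_ag.MT.TStmts

set_option autoImplicit false

/-! Item OLoc: cocycles with values in `L^r` are coboundaries. -/

namespace MP7b0bad.MT

open Polynomial

theorem OLoc_map_cz {p : ℕ} {B L : Type} [CommRing B] [CommRing L] (ψ : B →+* L) (a : ZMod p) :
    ψ (cz B a) = cz L a := by
  unfold cz
  exact map_natCast ψ _

theorem OLoc_smul_cz {p : ℕ} {L D : Type} [CommRing L] [Group D] [MulSemiringAction D L] (e : D)
    (a : ZMod p) : e • (cz L a : L) = cz L a := by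
  unfold cz
  exact map_natCast (MulSemiringAction.toRingHom D L e) _

theorem prf_OLoc : OLoc := by
  intro p _ r Γ Γb _ _ π i M B _ _ z R' _ D _ _ δ L _ _ _ ψ _ hz hgal hψ
  classical
  let _ : Fintype D := Fintype.ofFinite D
  obtain ⟨t, ht⟩ := gal_trace_one hgal
  refine ⟨fun j => -∑ d : D, (d • t) * ψ (z (δ d) j), fun e => ?_⟩
  funext j
  -- the left side
  have h1 : vA (M (π (δ e))) (e • (fun j => -∑ d : D, (d • t) * ψ (z (δ d) j))) j =
      -∑ d : D, ((e * d) • t) * ∑ l, cz L (M (π (δ e)) j l) * (e • ψ (z (δ d) l)) := by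
    unfold vA
    have h2 : ∀ l, (e • (fun j => -∑ d : D, (d • t) * ψ (z (δ d) j)) : Fin r → L) l =
        -∑ d : D, ((e * d) • t) * (e • ψ (z (δ d) l)) := by
      intro l
      show e • (-∑ d : D, (d • t) * ψ (z (δ d) l)) = _
      rw [smul_neg, Finset.smul_sum]
      congr 1
      refine Finset.sum_congr rfl fun d _ => ?_
      rw [smul_mul', mul_smul]
    simp only [h2]
    simp only [mul_neg, Finset.sum_neg_distrib, Finset.mul_sum]
    rw [Finset.sum_comm]
    congr 1
    refine Finset.sum_congr rfl fun d _ => Finset.sum_congr rfl fun l _ => ?_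
    ring
  have h3 : ∀ d : D, ∑ l, cz L (M (π (δ e)) j l) * (e • ψ (z (δ d) l)) =
      ψ (z (δ (e * d)) j) - ψ (z (δ e) j) := by
    intro d
    have h4 := congrFun (hz (δ e) (δ d)) j
    rw [map_mul δ, h4]
    have h5 : (z (δ e) + vA (M (π (δ e))) (π (δ e) • z (δ d))) j =
        z (δ e) j + ∑ l, cz B (M (π (δ e)) j l) * (π (δ e) • z (δ d) l) := rfl
    rw [h5, map_add, add_sub_cancel_left, map_sum]
    refine Finset.sum_congr rfl fun l _ => ?_
    rw [map_mul, OLoc_map_cz, hψ]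
  rw [h1]
  simp only [h3]
  have h6 : ∑ d : D, ((e * d) • t) * (ψ (z (δ (e * d)) j) - ψ (z (δ e) j)) =
      ∑ d : D, (d • t) * (ψ (z (δ d) j) - ψ (z (δ e) j)) :=
    Fintype.sum_equiv (Equiv.mulLeft e) _ _ (fun d => rfl)
  rw [h6]
  simp only [mul_sub, Finset.sum_sub_distrib, ← Finset.sum_mul, ht, one_mul]
  show -(∑ d : D, (d • t) * ψ (z (δ d) j) - ψ (z (δ e) j)) =
    -∑ d : D, (d • t) * ψ (z (δ d) j) + ψ (z (δ e) j)
  ring

end MP7b0bad.MT
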