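import Pool.Agent.Work.MP_7b0bad_ag.MT.TStmts

set_option autoImplicit false

/-!
# Item OMin of the block MT: a minimal normal subgroup contained in the kernel
-/

namespace MP7b0bad.MT

open Subgroup

/-- an elementary abelian group is a vector space -/
theorem OMin_basis (p : ℕ) [Fact p.Prime] (A : Type) [CommGroup A] [Finite A]
    (h : ∀ x : A, x ^ p = 1) : ∃ r : ℕ, Nonempty (Multiplicative (Fin r → ZMod p) ≃* A) := by
  let inst : Module (ZMod p) (Additive A) := AddCommGroup.zmodModule (n := p)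
    (fun x : Additive A => h x.toMul)
  have hf : Module.Finite (ZMod p) (Additive A) := Module.Finite.of_finite
  let b := Module.finBasis (ZMod p) (Additive A)
  exact ⟨_, ⟨AddEquiv.toMultiplicativeLeft b.equivFun.symm.toAddEquiv⟩⟩

/-- coordinates on an elementary abelian normal subgroup -/
theorem OMin_coords (p : ℕ) [Fact p.Prime] (Γ : Type) [Group Γ] [Finite Γ] (V : Subgroup Γ)
    [hV : V.Normal] (hcomm : ∀ x ∈ V, ∀ y ∈ V, x * y = y * x) (hexp : ∀ x ∈ V, x ^ p = 1) :
    ∃ (r : ℕ) (i : Multiplicative (Fin r → ZMod p) →* Γ)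
      (T : Γ →* Matrix (Fin r) (Fin r) (ZMod p)),
      Function.Injective i ∧ (∀ g : Γ, g ∈ V ↔ ∃ v, i v = g) ∧
      ∀ (g : Γ) (v : Fin r → ZMod p),
        g * i (Multiplicative.ofAdd v) * g⁻¹ = i (Multiplicative.ofAdd ((T g).mulVec v)) := by
  have he : ∃ r : ℕ, Nonempty (Multiplicative (Fin r → ZMod p) ≃* V) := by
    let inst : CommGroup V := { (inferInstance : Group V) with
      mul_comm := fun x y => Subtype.ext (hcomm x x.2 y y.2) }
    exact OMin_basis p V (fun x => Subtype.ext (hexp x x.2))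
  obtain ⟨r, ⟨e⟩⟩ := he
  let c : Γ → ((Fin r → ZMod p) →+ (Fin r → ZMod p)) := fun g =>
    { toFun := fun v =>
        (e.symm ((MulAut.conjNormal g : V ≃* V) (e (Multiplicative.ofAdd v)))).toAdd
      map_zero' := by rw [ofAdd_zero, map_one, map_one, map_one, toAdd_one]
      map_add' := fun v w => by rw [ofAdd_add, map_mul, map_mul, map_mul, toAdd_mul] }
  let T : Γ →* Module.End (ZMod p) (Fin r → ZMod p) :=
    { toFun := fun g => AddMonoidHom.toZModLinearMap p (c g)
      map_one' := by
        refine LinearMap.ext fun v => ?_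
        show (e.symm ((MulAut.conjNormal (1 : Γ) : V ≃* V) (e (Multiplicative.ofAdd v)))).toAdd = v
        rw [map_one]
        show (e.symm (e (Multiplicative.ofAdd v))).toAdd = v
        rw [MulEquiv.symm_apply_apply]
        rfl
      map_mul' := fun g h => by
        refine LinearMap.ext fun v => ?_
        show (e.symm ((MulAut.conjNormal (g * h) : V ≃* V) (e (Multiplicative.ofAdd v)))).toAdd =
          (e.symm ((MulAut.conjNormal g : V ≃* V) (e (e.symm ((MulAut.conjNormal h : V ≃* V)
            (e (Multiplicative.ofAdd v))))))).toAdd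
        rw [MulEquiv.apply_symm_apply, map_mul]
        rfl }
  refine ⟨r, V.subtype.comp e.toMonoidHom,
    (LinearMap.toMatrixAlgEquiv' : _ ≃ₐ[ZMod p] _).toMulEquiv.toMonoidHom.comp T, ?_, ?_, ?_⟩
  · exact V.subtype_injective.comp e.injective
  · intro g
    constructor
    · intro hg
      refine ⟨e.symm ⟨g, hg⟩, ?_⟩
      show ((e (e.symm ⟨g, hg⟩) : V) : Γ) = g
      rw [MulEquiv.apply_symm_apply]
    · rintro ⟨v, rfl⟩
      exact (e v).2
  · intro g v
    show g * ((e (Multiplicative.ofAdd v) : V) : Γ) * g⁻¹ =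
      ((e (Multiplicative.ofAdd ((LinearMap.toMatrixAlgEquiv' (T g)).mulVec v)) : V) : Γ)
    have h1 : (LinearMap.toMatrixAlgEquiv' (T g)).mulVec v = T g v := by
      rw [← Matrix.toLinAlgEquiv'_apply, Matrix.toLinAlgEquiv'_toMatrixAlgEquiv']
    rw [h1]
    show g * ((e (Multiplicative.ofAdd v) : V) : Γ) * g⁻¹ =
      ((e (e.symm ((MulAut.conjNormal g : V ≃* V) (e (Multiplicative.ofAdd v)))) : V) : Γ)
    rw [MulEquiv.apply_symm_apply]
    exact (MulAut.conjNormal_apply g (e (Multiplicative.ofAdd v))).symm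

theorem prf_OMin : OMin := by
  intro p _ Γ C _ _ _ _ q hq hP hne
  -- a minimal normal subgroup
  obtain ⟨V, hVmin⟩ := Set.Finite.exists_minimal
    (Set.toFinite {N : Subgroup Γ | N.Normal ∧ N ≤ q.ker ∧ N ≠ ⊥})
    ⟨q.ker, inferInstance, le_rfl, hne⟩
  obtain ⟨hVn, hVP, hVne⟩ := hVmin.prop
  have hmin : ∀ N : Subgroup Γ, N.Normal → N ≤ V → N ≠ ⊥ → N = V := by
    intro N h1 h2 h3
    exact le_antisymm h2 (hVmin.le_of_le ⟨h1, h2.trans hVP, h3⟩ h2)
  have hVp : IsPGroup p V := hP.to_le hVP
  haveI : Nontrivial V := (Subgroup.nontrivial_iff_ne_bot V).2 hVne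
  -- it is central in the kernel
  have hcen : V ≤ centralizer (q.ker : Set Γ) := by
    have h1 : V ⊓ centralizer (q.ker : Set Γ) = V := by
      refine hmin _ inferInstance inf_le_left ?_
      -- fixed points of the conjugation action
      have hdvd : p ∣ Nat.card V := by
        obtain ⟨n, hn, hn'⟩ := hVp.nontrivial_iff_card.1 inferInstance
        rw [hn']
        exact dvd_pow_self p hn.ne'
      letI act : MulAction q.ker V := MulAction.compHom V
        ((MulAut.conjNormal : Γ →* MulAut V).comp q.ker.subtype)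
      have hone : (1 : V) ∈ MulAction.fixedPoints q.ker V := by
        intro g
        show (MulAut.conjNormal (g : Γ) : V ≃* V) 1 = 1
        exact map_one _
      obtain ⟨x, hx, hx1⟩ :=
        hP.exists_fixed_point_of_prime_dvd_card_of_fixed_point V hdvd hone
      intro hbot
      have hmem : (x : Γ) ∈ V ⊓ centralizer (q.ker : Set Γ) := by
        refine ⟨x.2, ?_⟩
        show (x : Γ) ∈ centralizer (q.ker : Set Γ)
        rw [Subgroup.mem_centralizer_iff]
        intro g hg
        have h2 : (MulAut.conjNormal (g : Γ) : V ≃* V) x = x := hx ⟨g, hg⟩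
        have h3 := congrArg (fun y : V => (y : Γ)) h2
        simp only [MulAut.conjNormal_apply] at h3
        rw [mul_inv_eq_iff_eq_mul] at h3
        exact h3
      rw [hbot, Subgroup.mem_bot] at hmem
      exact hx1 (Subtype.ext hmem.symm)
    rw [← h1]
    exact inf_le_right
  have hcomm : ∀ x ∈ V, ∀ y ∈ V, x * y = y * x := by
    intro x hx y hy
    exact ((Subgroup.mem_centralizer_iff.1 (hcen hx)) y (hVP hy)).symm
  have hcomm' : ∀ x ∈ q.ker, ∀ y ∈ V, x * y = y * x := by
    intro x hx y hy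
    exact (Subgroup.mem_centralizer_iff.1 (hcen hy)) x hx
  -- it is elementary abelian
  have hexp : ∀ x ∈ V, x ^ p = 1 := by
    let U : Subgroup Γ :=
      { carrier := {x | x ∈ V ∧ x ^ p = 1}
        one_mem' := ⟨V.one_mem, one_pow p⟩
        mul_mem' := by
          intro x y hx hy
          refine ⟨V.mul_mem hx.1 hy.1, ?_⟩
          have hc : Commute x y := hcomm x hx.1 y hy.1
          rw [hc.mul_pow, hx.2, hy.2, one_mul]
        inv_mem' := by
          intro x hx
          refine ⟨V.inv_mem hx.1, ?_⟩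
          rw [inv_pow, hx.2, inv_one] }
    have hU : U = V := by
      refine hmin U ⟨?_⟩ (fun x hx => hx.1) ?_
      · intro x hx g
        refine ⟨hVn.conj_mem x hx.1 g, ?_⟩
        rw [conj_pow, hx.2, mul_one, mul_inv_cancel]
      · have hdvd : p ∣ Nat.card V := by
          obtain ⟨n, hn, hn'⟩ := hVp.nontrivial_iff_card.1 inferInstance
          rw [hn']
          exact dvd_pow_self p hn.ne'
        obtain ⟨x, hx⟩ := exists_prime_orderOf_dvd_card' (G := V) p hdvd
        intro hbot
        have hmem : (x : Γ) ∈ U := by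
          refine ⟨x.2, ?_⟩
          rw [← Subgroup.coe_pow, ← hx, pow_orderOf_eq_one]
          rfl
        rw [hbot, Subgroup.mem_bot] at hmem
        have hx1 : x = 1 := Subtype.ext hmem
        rw [hx1, orderOf_one] at hx
        exact (Fact.out : p.Prime).one_lt.ne hx
    intro x hx
    rw [← hU] at hx
    exact hx.2
  obtain ⟨r, i, T, hinj, hmem, hconj⟩ := OMin_coords p Γ V hcomm hexp
  have hone : ∀ (g : Γ), (∀ v ∈ V, g * v = v * g) → T g = 1 := by
    intro g hg
    refine Matrix.ext_of_mulVec_single ?_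
    intro j
    rw [Matrix.one_mulVec]
    have h1 := hconj g (Pi.single j 1)
    have h2 : i (Multiplicative.ofAdd (Pi.single j 1 : Fin r → ZMod p)) ∈ V :=
      (hmem _).2 ⟨_, rfl⟩
    rw [hg _ h2, mul_inv_cancel_right] at h1
    exact (hinj h1).symm
  have hTV : V ≤ T.ker := fun g hg => hone g fun v hv => hcomm g hg v hv
  refine ⟨r, Γ ⧸ V, inferInstance, inferInstance, QuotientGroup.mk' V, QuotientGroup.lift V q hVP,
    i, QuotientGroup.lift V T hTV, ?_, ⟨?_, hinj, ?_, ?_⟩, ?_, ?_, ?_, ?_, ?_, ?_⟩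
  · rcases Nat.eq_zero_or_pos r with hr | hr
    · exfalso
      subst hr
      obtain ⟨x, hx⟩ := exists_ne (1 : V)
      obtain ⟨v, hv⟩ := (hmem (x : Γ)).1 x.2
      refine hx (Subtype.ext ?_)
      rw [← hv, show v = 1 from Subsingleton.elim _ _, map_one]
      rfl
    · exact hr
  · exact QuotientGroup.mk'_surjective V
  · intro g
    rw [← MonoidHom.mem_ker, QuotientGroup.ker_mk']
    exact hmem g
  · intro g v
    exact hconj g v
  · exact MonoidHom.ext fun g => rfl
  · intro c
    obtain ⟨g, hg⟩ := hq c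
    exact ⟨QuotientGroup.mk' V g, hg⟩
  · rintro ⟨g, hg⟩
    obtain ⟨g, rfl⟩ := QuotientGroup.mk'_surjective V g
    have hg' : g ∈ q.ker := hg
    obtain ⟨k, hk⟩ := hP ⟨g, hg'⟩
    refine ⟨k, Subtype.ext ?_⟩
    have h1 := congrArg (fun y : q.ker => (y : Γ)) hk
    simp only [Subgroup.coe_pow, Subgroup.coe_one] at h1
    rw [Subgroup.coe_pow]
    show (QuotientGroup.mk' V g) ^ p ^ k = 1
    rw [← map_pow, h1, map_one]
  · let f : q.ker → (QuotientGroup.lift V q hVP).ker := fun g => ⟨QuotientGroup.mk' V g, g.2⟩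
    refine lt_of_le_of_ne (Nat.card_le_card_of_surjective f ?_) ?_
    · rintro ⟨g, hg⟩
      obtain ⟨g, rfl⟩ := QuotientGroup.mk'_surjective V g
      exact ⟨⟨g, hg⟩, rfl⟩
    · intro hcard
      have hsurj : Function.Surjective f := by
        rintro ⟨g, hg⟩
        obtain ⟨g, rfl⟩ := QuotientGroup.mk'_surjective V g
        exact ⟨⟨g, hg⟩, rfl⟩
      have hf : Function.Injective f :=
        ((Nat.bijective_iff_surjective_and_card f).2 ⟨hsurj, hcard.symm⟩).1
      obtain ⟨x, hx⟩ := exists_ne (1 : V)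
      have h1 : f ⟨x, hVP x.2⟩ = f 1 := by
        refine Subtype.ext ?_
        show QuotientGroup.mk' V (x : Γ) = QuotientGroup.mk' V 1
        rw [map_one, ← MonoidHom.mem_ker, QuotientGroup.ker_mk']
        exact x.2
      have h2 := congrArg (fun y : q.ker => (y : Γ)) (hf h1)
      exact hx (Subtype.ext h2)
  · intro g hg
    obtain ⟨g, rfl⟩ := QuotientGroup.mk'_surjective V g
    exact hone g fun v hv => hcomm' g hg v hv
  · intro W hW
    let N : Subgroup Γ :=
      { carrier := {g | ∃ v ∈ W, i (Multiplicative.ofAdd v) = g}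
        one_mem' := ⟨0, W.zero_mem, map_one i⟩
        mul_mem' := by
          rintro x y ⟨v, hv, rfl⟩ ⟨w, hw, rfl⟩
          exact ⟨v + w, W.add_mem hv hw, by rw [ofAdd_add, map_mul]⟩
        inv_mem' := by
          rintro x ⟨v, hv, rfl⟩
          exact ⟨-v, W.neg_mem hv, by rw [ofAdd_neg, map_inv]⟩ }
    by_cases hN : N = ⊥
    · left
      rw [Submodule.eq_bot_iff]
      intro v hv
      have h1 : i (Multiplicative.ofAdd v) ∈ N := ⟨v, hv, rfl⟩
      rw [hN, Subgroup.mem_bot] at h1
      have h2 : Multiplicative.ofAdd v = 1 := hinj (h1.trans (map_one i).symm)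
      exact h2
    · right
      have hNV : N = V := by
        refine hmin N ⟨?_⟩ ?_ hN
        · rintro x ⟨v, hv, rfl⟩ g
          exact ⟨_, hW (QuotientGroup.mk' V g) v hv, (hconj g v).symm⟩
        · rintro x ⟨v, hv, rfl⟩
          exact (hmem _).2 ⟨_, rfl⟩
      rw [Submodule.eq_top_iff']
      intro v
      have h1 : i (Multiplicative.ofAdd v) ∈ N := by
        rw [hNV]
        exact (hmem _).2 ⟨_, rfl⟩
      obtain ⟨w, hw, hwv⟩ := h1
      have h2 : Multiplicative.ofAdd w = Multiplicative.ofAdd v := hinj hwv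
      have h3 : w = v := h2
      rw [← h3]
      exact hw

end MP7b0bad.MT
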