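import Pool.Agent.Work.MP_7b0bad_ag.MT.TStmts

set_option autoImplicit false

/-!
# Join of covers with tame inertia, item OPsp: the substitution `1/X ↦ T^m / w`
-/

namespace MP7b0bad.MT

open Polynomial

/-- `a(T / w)` in `k[w, 1/w]((T))` -/
noncomputable def OPsp_fun (k : Type) [Field k] (a : LaurentSeries k) : KWp k where
  coeff n := LaurentPolynomial.C (a.coeff n) * LaurentPolynomial.T (-n)
  isPWO_support' := by
    refine a.isPWO_support.mono ?_
    intro n hn
    simp only [Function.mem_support, ne_eq] at hn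
    simp only [HahnSeries.mem_support, ne_eq]
    intro h
    exact hn (by rw [h]; simp)

theorem OPsp_coeff (k : Type) [Field k] (a : LaurentSeries k) (n : ℤ) :
    (OPsp_fun k a).coeff n = LaurentPolynomial.C (a.coeff n) * LaurentPolynomial.T (-n) := rfl

theorem OPsp_wLp (k : Type) [Field k] (c : k) (n : ℤ) :
    wLp k (LaurentPolynomial.C c * LaurentPolynomial.T n) = HahnSeries.single n c := by
  rw [wLp, map_mul, LaurentPolynomial.eval₂_C, LaurentPolynomial.eval₂_T, HahnSeries.C_apply]
  have h : ∀ j : ℤ, ((wU k ^ j : (LaurentSeries k)ˣ) : LaurentSeries k) = HahnSeries.single j (1 : k) := by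
    intro j
    induction j using Int.induction_on with
    | zero => rw [zpow_zero, Units.val_one]; rfl
    | succ i ih =>
      rw [zpow_add_one, Units.val_mul, ih]
      change HahnSeries.single (i : ℤ) (1 : k) * HahnSeries.single (1 : ℤ) (1 : k) = _
      rw [HahnSeries.single_mul_single, one_mul]
    | pred i ih =>
      rw [zpow_sub_one, Units.val_mul, ih]
      change HahnSeries.single (-(i : ℤ)) (1 : k) * HahnSeries.single (-1 : ℤ) (1 : k) = _
      rw [HahnSeries.single_mul_single, one_mul]
      rfl
  rw [h, HahnSeries.single_mul_single, zero_add, mul_one]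

theorem OPsp_ne (k : Type) [Field k] {c : k} (hc : c ≠ 0) (n : ℤ) :
    (LaurentPolynomial.C c * LaurentPolynomial.T n : LaurentPolynomial k) ≠ 0 := by
  intro h
  have h1 := OPsp_wLp k c n
  rw [h, map_zero] at h1
  exact hc (HahnSeries.single_eq_zero_iff.1 h1.symm)

theorem OPsp_support (k : Type) [Field k] (a : LaurentSeries k) :
    (OPsp_fun k a).support = a.support := by
  ext n
  simp only [HahnSeries.mem_support, OPsp_coeff]
  constructor
  · intro h h0
    exact h (by rw [h0]; simp)
  · intro h
    exact OPsp_ne k h _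

theorem OPsp_mul (k : Type) [Field k] (a b : LaurentSeries k) :
    OPsp_fun k (a * b) = OPsp_fun k a * OPsp_fun k b := by
  refine HahnSeries.ext ?_
  funext n
  rw [OPsp_coeff, HahnSeries.coeff_mul, HahnSeries.coeff_mul, map_sum, Finset.sum_mul]
  refine Finset.sum_congr ?_ ?_
  · ext ij
    simp only [Finset.mem_antidiagonal, OPsp_support]
  · intro ij hij
    have h2 : ij.1 + ij.2 = n := (Finset.mem_antidiagonal.1 hij).2.2
    rw [OPsp_coeff, OPsp_coeff, map_mul]
    have h3 : -n = -ij.1 + -ij.2 := by rw [← h2]; ring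
    rw [h3, LaurentPolynomial.T_add]
    ring

/-- the ring homomorphism `a ↦ a(T / w)` -/
noncomputable def OPsp_hom (k : Type) [Field k] : LaurentSeries k →+* KWp k where
  toFun := OPsp_fun k
  map_one' := by
    refine HahnSeries.ext ?_
    funext n
    rw [OPsp_coeff, HahnSeries.coeff_one, HahnSeries.coeff_one]
    split_ifs with h
    · subst h; simp
    · simp
  map_mul' := OPsp_mul k
  map_zero' := by
    refine HahnSeries.ext ?_
    funext n
    rw [OPsp_coeff]
    simp
  map_add' := by
    intro a b
    refine HahnSeries.ext ?_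
    funext n
    rw [HahnSeries.coeff_add, OPsp_coeff, OPsp_coeff, OPsp_coeff, HahnSeries.coeff_add, map_add, add_mul]

theorem prf_OPsp : OPsp := by
  intro k _ m hm
  have hm' : (0 : ℤ) < m := by exact_mod_cast hm
  let f : ℤ →+ ℤ := AddMonoidHom.mulLeft (m : ℤ)
  have hf : ∀ t, f t = m * t := fun t => rfl
  have hfi : Function.Injective f := fun x y h => mul_left_cancel₀ hm'.ne' h
  have hfo : ∀ g g' : ℤ, f g ≤ f g' ↔ g ≤ g' := fun g g' => by
    rw [hf, hf]
    exact mul_le_mul_iff_right₀ hm'
  let σ : KWp k →+* KWp k := HahnSeries.embDomainRingHom f hfi hfo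
  have hσ1 : ∀ (a : KWp k) (t : ℤ), (σ a).coeff (m * t) = a.coeff t := by
    intro a t
    exact HahnSeries.embDomain_coeff (f := ⟨⟨f, hfi⟩, hfo _ _⟩) (a := t)
  have hσ2 : ∀ (a : KWp k) (t : ℤ), ¬ (m : ℤ) ∣ t → (σ a).coeff t = 0 := by
    intro a t ht
    refine HahnSeries.embDomain_of_notMem_range (f := ⟨⟨f, hfi⟩, hfo _ _⟩) ?_
    rintro ⟨s, hs⟩
    exact ht ⟨s, hs.symm⟩
  have hσs : ∀ (t : ℤ) (x : LaurentPolynomial k), σ (HahnSeries.single t x) = HahnSeries.single (m * t) x := by
    intro t x
    exact HahnSeries.embDomain_single (f := ⟨⟨f, hfi⟩, hfo _ _⟩)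
  let ψ : LaurentSeries k →+* KWp k := σ.comp (OPsp_hom k)
  have hψ : ∀ a, ψ a = σ (OPsp_fun k a) := fun a => rfl
  have hOs : ∀ (t : ℤ) (c : k), OPsp_fun k (HahnSeries.single t c) =
      HahnSeries.single t (LaurentPolynomial.C c * LaurentPolynomial.T (-t)) := by
    intro t c
    refine HahnSeries.ext ?_
    funext n
    rw [OPsp_coeff]
    by_cases hn : n = t
    · subst hn
      rw [HahnSeries.coeff_single_same, HahnSeries.coeff_single_same]
    · rw [HahnSeries.coeff_single_of_ne hn, HahnSeries.coeff_single_of_ne hn, map_zero, zero_mul]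
  have hψs : ∀ (t : ℤ) (c : k), ψ (HahnSeries.single t c) =
      HahnSeries.single (m * t) (LaurentPolynomial.C c * LaurentPolynomial.T (-t)) := by
    intro t c
    rw [hψ, hOs, hσs]
  have hc : ∀ a : k, ψ (HahnSeries.C a) = HahnSeries.C (LaurentPolynomial.C a) := by
    intro a
    rw [HahnSeries.C_apply, hψs, HahnSeries.C_apply]
    simp
  refine ⟨ψ, hc, ?_, ?_, ?_⟩
  · intro g
    have h2 : ψ.comp (atInf k) = toXp k m := by
      refine Polynomial.ringHom_ext ?_ ?_
      · intro a
        simp only [RingHom.comp_apply, atInf, toXp, coe_eval₂RingHom, eval₂_C]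
        exact hc a
      · simp only [RingHom.comp_apply, atInf, toXp, coe_eval₂RingHom, eval₂_X]
        rw [hψs]
        simp
    exact RingHom.congr_fun h2 g
  · intro g
    have h2 : (WFp k).comp (toXp k m) = toXm k m := by
      refine Polynomial.ringHom_ext ?_ ?_
      · intro a
        simp only [RingHom.comp_apply, toXm, toXp, coe_eval₂RingHom, eval₂_C]
        refine HahnSeries.ext ?_
        funext n
        rw [WFp, lmap_coeff]
        by_cases hn : n = 0
        · subst hn
          have h := OPsp_wLp k a 0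
          rw [LaurentPolynomial.T_zero, mul_one] at h
          simp only [HahnSeries.C_apply, HahnSeries.coeff_single_same, kF, RingHom.comp_apply]
          rw [h]
        · simp [kF, HahnSeries.C_apply, HahnSeries.coeff_single_of_ne hn]
      · simp only [RingHom.comp_apply, toXm, toXp, coe_eval₂RingHom, eval₂_X]
        have h3 : (Tt k)⁻¹ = HahnSeries.single (-1 : ℤ) (1 : LaurentSeries k) := by
          refine inv_eq_of_mul_eq_one_right ?_
          rw [Tt, HahnSeries.single_mul_single]
          simp
        rw [h3, HahnSeries.single_pow, Ww, HahnSeries.C_apply, HahnSeries.single_mul_single]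
        refine HahnSeries.ext ?_
        funext n
        rw [WFp, lmap_coeff]
        by_cases hn : n = -(m : ℤ)
        · subst hn
          have h := OPsp_wLp k 1 1
          rw [map_one, one_mul] at h
          have e : (0 : ℤ) + m • (-1 : ℤ) = -(m : ℤ) := by simp
          rw [e, HahnSeries.coeff_single_same, HahnSeries.coeff_single_same, h]
          simp
        · have e : (0 : ℤ) + m • (-1 : ℤ) = -(m : ℤ) := by simp
          rw [e, HahnSeries.coeff_single_of_ne hn, HahnSeries.coeff_single_of_ne hn, map_zero]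
    exact RingHom.congr_fun h2 g
  · intro a ha
    have hco : ∀ t, (WFp k (ψ a)).coeff (m * t) = HahnSeries.single (-t) (a.coeff t) := by
      intro t
      rw [WFp, lmap_coeff, hψ, hσ1, OPsp_coeff, OPsp_wLp]
    have hco2 : ∀ t, ¬ (m : ℤ) ∣ t → (WFp k (ψ a)).coeff t = 0 := by
      intro t ht
      rw [WFp, lmap_coeff, hψ, hσ2 _ _ ht, map_zero]
    have h1 : (WFp k (ψ a)).coeff (m * a.order) ≠ 0 := by
      rw [hco]
      intro h
      exact ha (HahnSeries.coeff_order_eq_zero.1 (HahnSeries.single_eq_zero_iff.1 h))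
    have h2 : WFp k (ψ a) ≠ 0 := by
      intro h
      rw [h] at h1
      exact h1 rfl
    refine le_antisymm (HahnSeries.order_le_of_coeff_ne_zero h1) ?_
    have h3 : (WFp k (ψ a)).coeff (WFp k (ψ a)).order ≠ 0 := fun h => h2 (HahnSeries.coeff_order_eq_zero.1 h)
    by_cases hd : (m : ℤ) ∣ (WFp k (ψ a)).order
    · obtain ⟨t, ht⟩ := hd
      rw [ht] at h3 ⊢
      rw [hco] at h3
      have h4 : a.coeff t ≠ 0 := by
        intro h
        rw [h] at h3
        simp at h3
      exact mul_le_mul_of_nonneg_left (HahnSeries.order_le_of_coeff_ne_zero h4) hm'.le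
    · exact absurd (hco2 _ hd) h3

end MP7b0bad.MT
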