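import Pool.Agent.Work.MP_7b0bad_ag.MT.TStmts

set_option autoImplicit false

/-!
# ORB: existence of the base ring
-/

namespace MP7b0bad.MT

open Polynomial

theorem ORB_WF_comp (k : Type) [Field k] : (WF k).comp (KKW k) = KF k := by
  refine RingHom.ext fun a => ?_
  refine HahnSeries.ext ?_
  funext n
  show wL k (Polynomial.C (a.coeff n)) = HahnSeries.C (a.coeff n)
  unfold wL
  simp

theorem ORB_WFp_toP (k : Type) [Field k] (a : KW k) : WFp k (toP k a) = WF k a := by
  refine HahnSeries.ext ?_
  funext n
  show wLp k (Polynomial.toLaurent (a.coeff n)) = wL k (a.coeff n)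
  unfold wLp wL
  rw [LaurentPolynomial.eval₂_toLaurent]
  rfl

theorem ORB_toP_C (k : Type) [Field k] (c : k[X]) :
    toP k (HahnSeries.C c) = HahnSeries.C (Polynomial.toLaurent c) := by
  refine HahnSeries.ext ?_
  funext n
  show Polynomial.toLaurent ((HahnSeries.C c : KW k).coeff n) = _
  rw [HahnSeries.C_apply, HahnSeries.C_apply, HahnSeries.coeff_single, HahnSeries.coeff_single]
  split_ifs <;> simp

theorem ORB_pid {A S : Type} [CommRing A] [IsPrincipalIdealRing A] [CommRing S] [Algebra A S]
    (M : Submonoid A) [IsLocalization M S] : IsPrincipalIdealRing S := by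
  constructor
  intro J
  obtain ⟨g, hg⟩ := (IsPrincipalIdealRing.principal (Ideal.under A J)).principal
  refine ⟨⟨algebraMap A S g, ?_⟩⟩
  have h1 := IsLocalization.map_under M S J
  rw [← h1, hg, Ideal.submodule_span_eq, Ideal.map_span, Set.image_singleton,
    Ideal.submodule_span_eq]

theorem prf_ORB : ORB := by
  intro k _ N W a η h hN
  have hV : VT k W ≠ 0 := by
    unfold VT
    refine mul_ne_zero ?_ ?_
    · rw [Ne, Polynomial.C_eq_zero]
      intro h0
      have := congrArg (fun z : LaurentSeries k => z.coeff (-1)) h0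
      simp at this
    · exact (h.monic.map _).ne_zero
  have hdom : IsDomain (Localization.Away (VT k W)) :=
    IsLocalization.isDomain_localization (powers_le_nonZeroDivisors_of_noZeroDivisors hV)
  have hpid : IsPrincipalIdealRing (Localization.Away (VT k W)) :=
    ORB_pid (Submonoid.powers (VT k W))
  have hg : ∀ i : Fin N, IsUnit (((toP k).comp (eval₂RingHom (KKW k) (η i))) (VT k W)) := by
    intro i
    rw [RingHom.comp_apply, coe_eval₂RingHom, h.root i, ORB_toP_C, Polynomial.toLaurent_X]
    exact (LaurentPolynomial.isUnit_T 1).map (HahnSeries.C : LaurentPolynomial k →+* KWp k)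
  have hI : IsUnit (atInf (LaurentSeries k) (VT k W)) := by
    refine IsUnit.mk0 _ ?_
    intro h0
    exact hV (TI_atInf_injective (LaurentSeries k) (by rw [h0, map_zero]))
  refine ⟨{
    R := Localization.Away (VT k W)
    κ := algebraMap _ _
    inj := IsLocalization.injective _ (powers_le_nonZeroDivisors_of_noZeroDivisors hV)
    unit := IsLocalization.Away.algebraMap_isUnit _
    frac := ?_
    ρ := fun i => IsLocalization.Away.lift (VT k W) (hg i)
    ρ_κ := ?_
    ρI := IsLocalization.Away.lift (VT k W) hI
    ρI_κ := ?_ }, ?_⟩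
  · intro r
    obtain ⟨n, f, hf⟩ := IsLocalization.Away.surj (VT k W) r
    exact ⟨n, f, by rw [mul_comm]; exact hf⟩
  · intro i f
    show WFp k (IsLocalization.Away.lift (VT k W) (hg i) (algebraMap _ _ f)) = _
    rw [IsLocalization.Away.lift_eq, RingHom.comp_apply, coe_eval₂RingHom, ORB_WFp_toP,
      hom_eval₂, ORB_WF_comp]
  · intro f
    show IsLocalization.Away.lift (VT k W) hI (algebraMap _ _ f) = _
    rw [IsLocalization.Away.lift_eq]
  · intro i f
    show IsLocalization.Away.lift (VT k W) (hg i) (algebraMap _ _ f) = _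
    rw [IsLocalization.Away.lift_eq, RingHom.comp_apply, coe_eval₂RingHom]

end MP7b0bad.MT
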