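import Pool.Agent.Work.MP_7b0bad_ag.MT.TStmts
import Pool.Agent.Work.MP_7b0bad_ag.Bd.B14

set_option autoImplicit false

/-!
# Roots of `x - a_j` at the disc `i`
-/

namespace MP7b0bad.MT

open Polynomial

/-- roots of power series over a commutative ring -/
theorem ORt_ps (A : Type) [CommRing A] [Nontrivial A] (n : ℕ) (hn : IsUnit (n : A)) (d : A)
    (hd : IsUnit d) (P : PowerSeries A) (hP : PowerSeries.constantCoeff P = d ^ n) :
    ∃ e : PowerSeries A, e ^ n = P ∧ IsUnit e := by
  have hn0 : n ≠ 0 := by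
    rintro rfl
    rw [Nat.cast_zero] at hn
    exact not_isUnit_zero hn
  have hc := B5a_complete A
  have hh : HenselianRing (PowerSeries A) (Ideal.span {(PowerSeries.X : PowerSeries A)}) :=
    inferInstance
  obtain ⟨a, ha, -⟩ := hh.is_henselian
    (Polynomial.X ^ n - Polynomial.C P)
    (Polynomial.monic_X_pow_sub_C _ hn0) (PowerSeries.C d)
    (by
      rw [Polynomial.eval_sub, Polynomial.eval_pow, Polynomial.eval_X, Polynomial.eval_C,
        Ideal.mem_span_singleton, PowerSeries.X_dvd_iff]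
      simp [hP])
    (by
      have h1 : Polynomial.eval (PowerSeries.C d) (Polynomial.derivative (Polynomial.X ^ n -
          Polynomial.C P)) = PowerSeries.C ((n : A) * d ^ (n - 1)) := by
        rw [Polynomial.derivative_sub, Polynomial.derivative_C, sub_zero,
          Polynomial.derivative_X_pow, Polynomial.eval_mul, Polynomial.eval_pow, Polynomial.eval_X]
        simp
      rw [h1]
      exact ((hn.mul (hd.pow _)).map (PowerSeries.C (R := A))).map _)
  rw [Polynomial.IsRoot, Polynomial.eval_sub, Polynomial.eval_pow, Polynomial.eval_X,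
    Polynomial.eval_C] at ha
  have ha' : a ^ n = P := sub_eq_zero.1 ha
  refine ⟨a, ha', ?_⟩
  have h2 : IsUnit P := by
    rw [PowerSeries.isUnit_iff_constantCoeff, hP]
    exact hd.pow n
  rw [← ha'] at h2
  exact (isUnit_pow_iff hn0).1 h2

/-- the power series of `η` -/
theorem ORt_series {k : Type} [Field k] (η : KW k) (a : k) (hneg : ∀ n : ℤ, n < 0 → η.coeff n = 0)
    (h0 : η.coeff 0 = C a) :
    ∃ h : PowerSeries k[X], HahnSeries.ofPowerSeries ℤ k[X] h = η ∧
      PowerSeries.constantCoeff h = C a := by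
  refine ⟨PowerSeries.mk fun n => η.coeff (n : ℤ), ?_, ?_⟩
  · refine HahnSeries.ext (funext fun j => ?_)
    have h1 := PowerSeries.coeff_coe (PowerSeries.mk fun n : ℕ => η.coeff (n : ℤ)) j
    refine h1.trans ?_
    split_ifs with hj
    · exact (hneg j hj).symm
    · rw [PowerSeries.coeff_mk]
      congr 1
      omega
  · rw [← PowerSeries.coeff_zero_eq_constantCoeff_apply, PowerSeries.coeff_mk, Nat.cast_zero, h0]

/-- `k → k[w][[T]]` -/
noncomputable def ORt_c (k : Type) [Field k] : k →+* PowerSeries k[X] :=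
  (PowerSeries.C (R := k[X])).comp (C : k →+* k[X])

theorem ORt_KKW {k : Type} [Field k] (a : k) :
    KKW k (HahnSeries.C a) = HahnSeries.ofPowerSeries ℤ k[X] (ORt_c k a) := by
  unfold ORt_c
  rw [RingHom.comp_apply, HahnSeries.ofPowerSeries_C]
  change HahnSeries.map (HahnSeries.C a) (Polynomial.C : k →+* k[X]) = _
  refine HahnSeries.ext (funext fun n => ?_)
  rw [HahnSeries.map_coeff, HahnSeries.C_apply, HahnSeries.C_apply, HahnSeries.coeff_single,
    HahnSeries.coeff_single]
  split_ifs
  · rfl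
  · exact map_zero _

/-- `W(η) = T w` as an identity of power series -/
theorem ORt_W {k : Type} [Field k] (W : k[X]) (η : KW k) (h : PowerSeries k[X])
    (hh : HahnSeries.ofPowerSeries ℤ k[X] h = η)
    (hroot : (VT k W).eval₂ (KKW k) η = HahnSeries.C (X : k[X])) :
    W.eval₂ (ORt_c k) h = PowerSeries.X * PowerSeries.C (X : k[X]) := by
  apply HahnSeries.ofPowerSeries_injective (Γ := ℤ) (R := k[X])
  rw [Polynomial.hom_eval₂, hh, map_mul, HahnSeries.ofPowerSeries_X, HahnSeries.ofPowerSeries_C]
  unfold VT at hroot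
  rw [eval₂_mul, eval₂_C, eval₂_map] at hroot
  have h3 : KKW k (HahnSeries.single (-1 : ℤ) (1 : k)) =
      HahnSeries.single (-1 : ℤ) (1 : k[X]) := by
    change HahnSeries.map (HahnSeries.single (-1 : ℤ) (1 : k)) (Polynomial.C : k →+* k[X]) = _
    refine HahnSeries.ext (funext fun n => ?_)
    rw [HahnSeries.map_coeff, HahnSeries.coeff_single, HahnSeries.coeff_single]
    split_ifs
    · exact map_one _
    · exact map_zero _
  have h4 : ((KKW k).comp (HahnSeries.C : k →+* LaurentSeries k)) =
      (HahnSeries.ofPowerSeries ℤ k[X]).comp (ORt_c k) := by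
    refine RingHom.ext fun a => ?_
    exact ORt_KKW a
  rw [h3, h4] at hroot
  have h5 : (HahnSeries.single (1 : ℤ) (1 : k[X]) * HahnSeries.single (-1 : ℤ) (1 : k[X]) :
      KW k) = 1 := by
    rw [HahnSeries.single_mul_single, mul_one, show (1 : ℤ) + -1 = 0 from by norm_num]
    rfl
  rw [← hroot, ← mul_assoc, h5, one_mul]

theorem ORt_eval {k : Type} [Field k] (W : k[X]) (a : k) (h : PowerSeries k[X])
    (h0 : PowerSeries.constantCoeff h = C a)
    (hW : W.eval₂ (ORt_c k) h = PowerSeries.X * PowerSeries.C (X : k[X])) : W.eval a = 0 := by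
  have h1 := congrArg (PowerSeries.constantCoeff (R := k[X])) hW
  rw [Polynomial.hom_eval₂, h0, map_mul, PowerSeries.constantCoeff_X, zero_mul] at h1
  have h2 : (PowerSeries.constantCoeff (R := k[X])).comp (ORt_c k) = (C : k →+* k[X]) := by
    refine RingHom.ext fun x => ?_
    unfold ORt_c
    simp
  rw [h2] at h1
  have h3 : W.eval₂ (C : k →+* k[X]) (C a) = C (W.eval a) := by
    rw [Polynomial.eval₂_at_apply]
  rw [h3] at h1
  exact Polynomial.C_eq_zero.1 h1

theorem ORt_prod {k : Type} [Field k] {N : ℕ} (W : k[X]) (a : Fin N → k)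
    (ha : Function.Injective a) (hm : W.Monic) (hd : W.natDegree = N)
    (hr : ∀ i, W.eval (a i) = 0) : W = ∏ j, (X - C (a j)) := by
  classical
  have h1 : (∏ j, (X - C (a j))) ∣ W := by
    refine Finset.prod_dvd_of_coprime ?_ fun j _ => Polynomial.dvd_iff_isRoot.2 (hr j)
    intro i _ j _ hij
    exact Polynomial.isCoprime_X_sub_C_of_isUnit_sub
      (isUnit_iff_ne_zero.2 (sub_ne_zero.2 fun h => hij (ha h)))
  refine Polynomial.eq_of_monic_of_dvd_of_natDegree_le
    (Polynomial.monic_prod_of_monic _ _ fun j _ => Polynomial.monic_X_sub_C _) hm h1 ?_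
  rw [Polynomial.natDegree_prod_of_monic _ _ fun j _ => Polynomial.monic_X_sub_C _, hd]
  simp

theorem ORt_toP_single {k : Type} [Field k] (n : ℤ) (f : k[X]) :
    toP k (HahnSeries.single n f) = HahnSeries.single n (Polynomial.toLaurent f) := by
  refine HahnSeries.ext (funext fun m => ?_)
  unfold toP
  rw [lmap_coeff, HahnSeries.coeff_single, HahnSeries.coeff_single]
  split_ifs
  · rfl
  · exact map_zero _

theorem prf_ORt : ORt := by
  intro k _ _ N W a η hD b hρ n m i hn hnk hdiv
  classical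
  choose h hh h0 using fun i => ORt_series (η i) (a i) (hD.neg i) (hD.zero i)
  have hW := fun i => ORt_W W (η i) (h i) (hh i) (hD.root i)
  have hr : ∀ i, W.eval (a i) = 0 := fun i => ORt_eval W (a i) (h i) (h0 i) (hW i)
  have hprod := ORt_prod W a hD.inj hD.monic hD.deg hr
  have hnA : IsUnit (n : k[X]) := by
    have : (n : k[X]) = C (n : k) := by simp
    rw [this]
    exact Polynomial.isUnit_C.2 (isUnit_iff_ne_zero.2 hnk)
  -- evaluation
  have hev : ∀ j : Fin N, b.ρ i (b.κ (X - C (HahnSeries.C (a j)))) =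
      toP k (HahnSeries.ofPowerSeries ℤ k[X] (h i - ORt_c k (a j))) := by
    intro j
    rw [hρ, eval₂_sub, eval₂_X, eval₂_C, ORt_KKW, ← hh i, ← map_sub]
  -- roots of the other factors
  have hroots : ∀ j : Fin N, ∃ e : PowerSeries k[X], j ≠ i →
      e ^ n = h i - ORt_c k (a j) ∧ IsUnit e := by
    intro j
    by_cases hji : j = i
    · exact ⟨0, fun h => absurd hji h⟩
    · have hne : a i - a j ≠ 0 := sub_ne_zero.2 fun h => hji (hD.inj h).symm
      obtain ⟨d, hd⟩ := IsAlgClosed.exists_pow_nat_eq (a i - a j) hn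
      have hd0 : d ≠ 0 := by
        rintro rfl
        rw [zero_pow hn.ne'] at hd
        exact hne hd.symm
      obtain ⟨e, he, hu⟩ := ORt_ps k[X] n hnA (C d)
        (Polynomial.isUnit_C.2 (isUnit_iff_ne_zero.2 hd0)) (h i - ORt_c k (a j)) (by
          unfold ORt_c
          rw [map_sub, h0, RingHom.comp_apply, PowerSeries.constantCoeff_C, ← C_pow, hd, C_sub])
      exact ⟨e, fun _ => ⟨he, hu⟩⟩
  choose e he using hroots
  refine ⟨?_, ?_⟩
  · -- the factor i
    obtain ⟨q, hq⟩ := hdiv
    have hE : IsUnit (∏ j ∈ Finset.univ.erase i, e j) := by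
      rw [IsUnit.prod_iff]
      intro j hj
      exact (he j (Finset.ne_of_mem_erase hj)).2
    obtain ⟨E, hEE⟩ := hE.exists_left_inv
    have h1 : (h i - ORt_c k (a i)) * (∏ j ∈ Finset.univ.erase i, e j) ^ n =
        PowerSeries.X * PowerSeries.C (X : k[X]) := by
      rw [← hW i]
      conv_rhs => rw [hprod]
      rw [eval₂_finsetProd, ← Finset.mul_prod_erase Finset.univ _ (Finset.mem_univ i),
        ← Finset.prod_pow]
      congr 1
      · rw [eval₂_sub, eval₂_X, eval₂_C]
      · refine Finset.prod_congr rfl fun j hj => ?_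
        rw [(he j (Finset.ne_of_mem_erase hj)).1, eval₂_sub, eval₂_X, eval₂_C]
    have h2 : h i - ORt_c k (a i) = PowerSeries.X * PowerSeries.C (X : k[X]) * E ^ n := by
      rw [← h1, mul_assoc, ← mul_pow, mul_comm (∏ j ∈ Finset.univ.erase i, e j) E, hEE, one_pow,
        mul_one]
    refine ⟨HahnSeries.single ((q : ℕ) : ℤ) (1 : LaurentPolynomial k) *
      toP k (HahnSeries.ofPowerSeries ℤ k[X] E), ?_⟩
    rw [hev, h2, map_mul, map_mul, map_mul, map_mul, HahnSeries.ofPowerSeries_X,
      HahnSeries.ofPowerSeries_C, map_pow, map_pow, HahnSeries.C_apply, ORt_toP_single,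
      ORt_toP_single, map_one, Polynomial.toLaurent_X, mul_pow, HahnSeries.single_pow, one_pow]
    unfold toXp
    rw [coe_eval₂RingHom, eval₂_X]
    have h3 : (HahnSeries.single (n • ((q : ℕ) : ℤ)) (1 : LaurentPolynomial k) *
        HahnSeries.single (-(m : ℤ)) (LaurentPolynomial.T 1 : LaurentPolynomial k) : KWp k) =
        HahnSeries.single (1 : ℤ) (1 : LaurentPolynomial k) *
          HahnSeries.single (0 : ℤ) (LaurentPolynomial.T 1 : LaurentPolynomial k) := by
      have h4 : ((n * q : ℕ) : ℤ) = ((m + 1 : ℕ) : ℤ) := by rw [hq]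
      have h5 : n • ((q : ℕ) : ℤ) + -(m : ℤ) = 1 + 0 := by
        rw [nsmul_eq_mul]
        push_cast at h4
        linarith
      rw [HahnSeries.single_mul_single, HahnSeries.single_mul_single, h5]
    rw [← h3]
    ring
  · intro j hji
    refine ⟨toP k (HahnSeries.ofPowerSeries ℤ k[X] (e j)), ?_⟩
    rw [hev, ← (he j hji).1, map_pow, map_pow]

end MP7b0bad.MT
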