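import Pool.Agent.Work.MP_7b0bad_ag.MT.TStmts
import Pool.Agent.Work.MP_7b0bad_ag.Bd.B14

set_option autoImplicit false

/-!
# Roots of `x - a` at infinity
-/

namespace MP7b0bad.MT

open Polynomial

theorem ORtI_single {κ : Type} [Field κ] (N : ℕ) (hN : 0 < N)
    (σ : LaurentSeries κ →+* LaurentSeries κ) (hσ : SubN N σ) :
    σ (HahnSeries.single (-1 : ℤ) (1 : κ)) = HahnSeries.single (-(N : ℤ)) (1 : κ) := by
  have hNz : (N : ℤ) ≠ 0 := by exact_mod_cast hN.ne'
  refine HahnSeries.ext ?_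
  funext t
  by_cases ht : (N : ℤ) ∣ t
  · obtain ⟨s, rfl⟩ := ht
    rw [hσ.coeff, HahnSeries.coeff_single, HahnSeries.coeff_single]
    have h1 : (s = -1) ↔ ((N : ℤ) * s = -(N : ℤ)) := by
      constructor
      · rintro rfl
        ring
      · intro h
        have h2 : (N : ℤ) * s = (N : ℤ) * (-1) := by rw [h]; ring
        exact mul_left_cancel₀ hNz h2
    by_cases hs : s = -1
    · rw [if_pos hs, if_pos (h1.1 hs)]
    · rw [if_neg hs, if_neg (fun h => hs (h1.2 h))]
  · rw [hσ.coeff0 _ _ ht, HahnSeries.coeff_single, if_neg]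
    intro h
    exact ht (h ▸ (dvd_neg.2 (dvd_refl _)))

theorem prf_ORtI : ORtI := by
  intro κ _ a n N σ hN hnN hn hσ
  have hn0 : n ≠ 0 := by
    rintro rfl
    exact hn Nat.cast_zero
  obtain ⟨e, he⟩ := YRoot_ps κ n hn 1 one_ne_zero
    (1 - PowerSeries.C a * PowerSeries.X) (by simp)
  have he0 : PowerSeries.constantCoeff e ≠ 0 := by
    intro h
    have h1 := congrArg (PowerSeries.constantCoeff (R := κ)) he
    rw [map_pow, h, zero_pow hn0] at h1
    simp at h1
  have hc0 : (HahnSeries.ofPowerSeries ℤ κ e).coeff 0 ≠ 0 := by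
    have h2 := HahnSeries.ofPowerSeries_apply_coeff (Γ := ℤ) e 0
    rw [Nat.cast_zero] at h2
    rw [h2, PowerSeries.coeff_zero_eq_constantCoeff_apply]
    exact he0
  have hv : HahnSeries.ofPowerSeries ℤ κ e ≠ 0 := by
    intro h
    rw [h] at hc0
    exact hc0 rfl
  refine ⟨HahnSeries.ofPowerSeries ℤ κ e, ?_, hv, ?_⟩
  · have h1 : atInf κ (X - C a) =
        HahnSeries.single (-1 : ℤ) (1 : κ) * (HahnSeries.ofPowerSeries ℤ κ e) ^ n := by
      have h2 : atInf κ (X - C a) = HahnSeries.single (-1 : ℤ) (1 : κ) - HahnSeries.C a := by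
        simp [atInf]
      have h3 : HahnSeries.ofPowerSeries ℤ κ (1 - PowerSeries.C a * PowerSeries.X) =
          1 - HahnSeries.C a * HahnSeries.single (1 : ℤ) (1 : κ) := by
        rw [map_sub, map_mul, HahnSeries.ofPowerSeries_C, HahnSeries.ofPowerSeries_X,
          map_one (HahnSeries.ofPowerSeries ℤ κ)]
      have h4 : HahnSeries.single (-1 : ℤ) (1 : κ) * HahnSeries.single (1 : ℤ) (1 : κ) = 1 := by
        rw [HahnSeries.single_mul_single]
        simp
      rw [← map_pow, he, h3, h2]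
      linear_combination (HahnSeries.C a : LaurentSeries κ) * h4
    rw [h1, map_mul, map_pow, ORtI_single N hN σ hσ, mul_pow, HahnSeries.single_pow, one_pow]
    congr 2
    rw [nsmul_eq_mul, mul_neg]
    have h5 : (N : ℤ) = (n : ℤ) * ((N / n : ℕ) : ℤ) := by
      exact_mod_cast (Nat.mul_div_cancel' hnN).symm
    rw [← h5]
  · apply le_antisymm
    · exact HahnSeries.order_le_of_coeff_ne_zero hc0
    · rw [HahnSeries.le_order_iff_forall hv]
      intro j hj
      have h6 := PowerSeries.coeff_coe e j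
      rw [if_pos hj] at h6
      exact h6

end MP7b0bad.MT
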