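import Pool.Agent.Work.MP_7b0bad_ag.MT.TStmts

set_option autoImplicit false

/-!
# Existence of the substitution and of the rotation
-/

namespace MP7b0bad.MT

/-- the rotation: coefficients multiplied by the powers of the inverse of zeta -/
theorem OSub_rot (κ : Type) [Field κ] (ζ : κ) (hζ : ζ ≠ 0) :
    ∃ rot : LaurentSeries κ →+* LaurentSeries κ,
      ∀ (a : LaurentSeries κ) (t : ℤ), (rot a).coeff t = ζ ^ (-t) * a.coeff t := by
  have hne : ∀ t : ℤ, ζ ^ (-t) ≠ 0 := fun t => zpow_ne_zero _ hζ
  have hsupp : ∀ a : LaurentSeries κ,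
      (Function.support fun t : ℤ => ζ ^ (-t) * a.coeff t).IsPWO := by
    intro a
    have : (Function.support fun t : ℤ => ζ ^ (-t) * a.coeff t) = a.support := by
      ext t
      rw [Function.mem_support, HahnSeries.mem_support, mul_ne_zero_iff]
      exact ⟨fun h => h.2, fun h => ⟨hne t, h⟩⟩
    rw [this]
    exact a.isPWO_support
  let r : LaurentSeries κ → LaurentSeries κ := fun a =>
    { coeff := fun t : ℤ => ζ ^ (-t) * a.coeff t
      isPWO_support' := hsupp a }
  have hr : ∀ a (t : ℤ), (r a).coeff t = ζ ^ (-t) * a.coeff t := fun a t => rfl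
  have hrs : ∀ a, (r a).support = a.support := by
    intro a
    ext t
    rw [HahnSeries.mem_support, HahnSeries.mem_support, hr, mul_ne_zero_iff]
    exact ⟨fun h => h.2, fun h => ⟨hne t, h⟩⟩
  refine ⟨{ toFun := r, map_one' := ?_, map_mul' := ?_, map_zero' := ?_, map_add' := ?_ },
    fun a t => rfl⟩
  · ext t
    rw [hr, HahnSeries.coeff_one]
    split_ifs with h
    · subst h; simp
    · simp
  · intro a b
    ext t
    rw [hr, HahnSeries.coeff_mul, HahnSeries.coeff_mul, Finset.mul_sum]
    refine Finset.sum_congr ?_ fun ij hij => ?_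
    · ext ij
      simp only [Finset.mem_antidiagonal, hrs]
    · rw [Finset.mem_antidiagonal] at hij
      rw [hr, hr, ← hij.2.2, neg_add, zpow_add₀ hζ]
      ring
  · ext t
    rw [hr]; simp
  · intro a b
    ext t
    rw [HahnSeries.coeff_add, hr, hr, hr, HahnSeries.coeff_add]
    ring

/-- existence of the substitution and the rotation -/
theorem prf_OSub : OSub := by
  intro κ _ n ζ hn hζ
  obtain ⟨rot, hrot⟩ := OSub_rot κ ζ hζ
  have hn' : (0 : ℤ) < n := by exact_mod_cast hn
  have hinj : Function.Injective (AddMonoidHom.mulLeft (n : ℤ)) := fun a b h =>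
    mul_left_cancel₀ hn'.ne' h
  have hle : ∀ g g' : ℤ, AddMonoidHom.mulLeft (n : ℤ) g ≤ AddMonoidHom.mulLeft (n : ℤ) g' ↔
      g ≤ g' := fun g g' => mul_le_mul_iff_right₀ hn'
  refine ⟨HahnSeries.embDomainRingHom (AddMonoidHom.mulLeft (n : ℤ)) hinj hle, rot, ?_, hrot⟩
  constructor
  · intro a
    exact HahnSeries.embDomainRingHom_C
  · intro a t
    exact HahnSeries.embDomain_coeff
  · intro a t ht
    refine HahnSeries.embDomain_of_notMem_range ?_
    rintro ⟨s, hs⟩
    exact ht ⟨s, hs.symm⟩

end MP7b0bad.MT
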