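import Pool.Agent.Work.MP_7b0bad_ag.MT.TStmts

set_option autoImplicit false

/-! Item OTDen: finitely many invariant vectors generate all local invariants. -/

namespace MP7b0bad.MT

open Polynomial

theorem OTDen_mod {B : Type} [CommRing B] (p n : ℕ) (hp : (p : B) = 0) :
    ((n % p : ℕ) : B) = n := by
  conv_rhs => rw [← Nat.mod_add_div n p]
  push_cast
  rw [hp]
  ring

/-- the ring homomorphism from `ZMod p` -/
def OTDen_hom {p : ℕ} [Fact p.Prime] {B : Type} [CommRing B] (hp : (p : B) = 0) :
    ZMod p →+* B where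
  toFun := cz B
  map_one' := by
    have : Fact (1 < p) := ⟨(Fact.out : p.Prime).one_lt⟩
    unfold cz
    rw [ZMod.val_one]
    simp
  map_mul' a b := by
    unfold cz
    rw [ZMod.val_mul, OTDen_mod p _ hp]
    push_cast
    ring
  map_zero' := by
    unfold cz
    simp
  map_add' a b := by
    unfold cz
    rw [ZMod.val_add, OTDen_mod p _ hp]
    push_cast
    ring

theorem OTDen_map_cz {p : ℕ} {B L : Type} [CommRing B] [CommRing L] (ψ : B →+* L) (a : ZMod p) :
    ψ (cz B a) = cz L a := by
  unfold cz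
  exact map_natCast ψ _

theorem OTDen_smul_cz {p : ℕ} {L D : Type} [CommRing L] [Group D] [MulSemiringAction D L] (e : D)
    (a : ZMod p) : e • (cz L a : L) = cz L a := by
  unfold cz
  exact map_natCast (MulSemiringAction.toRingHom D L e) _

theorem OTDen_vA_mul {p r : ℕ} [Fact p.Prime] {B : Type} [CommRing B] (hp : (p : B) = 0)
    (M N : Matrix (Fin r) (Fin r) (ZMod p)) (x : Fin r → B) :
    vA (M * N) x = vA M (vA N x) := by
  funext i
  have hm : ∀ a b : ZMod p, cz B (a * b) = cz B a * cz B b := (OTDen_hom hp).map_mul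
  have hs : ∀ f : Fin r → ZMod p, cz B (∑ j, f j) = ∑ j, cz B (f j) :=
    fun f => map_sum (OTDen_hom hp) f Finset.univ
  show ∑ j, cz B ((M * N) i j) * x j = ∑ l, cz B (M i l) * ∑ j, cz B (N l j) * x j
  simp only [Matrix.mul_apply, hs, hm, Finset.sum_mul, Finset.mul_sum]
  rw [Finset.sum_comm]
  refine Finset.sum_congr rfl fun l _ => Finset.sum_congr rfl fun j _ => ?_
  ring

theorem OTDen_vA_one {p r : ℕ} [Fact p.Prime] {B : Type} [CommRing B] (x : Fin r → B) :
    vA (1 : Matrix (Fin r) (Fin r) (ZMod p)) x = x := by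
  funext i
  have : Fact (1 < p) := ⟨(Fact.out : p.Prime).one_lt⟩
  show ∑ j, cz B ((1 : Matrix (Fin r) (Fin r) (ZMod p)) i j) * x j = x i
  rw [Finset.sum_eq_single i]
  · rw [Matrix.one_apply_eq]
    unfold cz
    rw [ZMod.val_one]
    simp
  · intro j _ hj
    rw [Matrix.one_apply_ne hj.symm]
    unfold cz
    simp
  · intro h
    exact absurd (Finset.mem_univ i) h

theorem prf_OTDen : OTDen := by
  intro R _ p _ r Γb _ _ M B _ _ _ hp hB
  classical
  let _ : Fintype Γb := Fintype.ofFinite Γb
  obtain ⟨n, x, y, hxy, hxy1⟩ := gal_dual' hB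
  obtain ⟨t, ht⟩ := gal_trace_one hB
  have hpB : (p : B) = 0 := by
    rw [← map_natCast (algebraMap R B), hp, map_zero]
  let U : Fin n × Fin r → Fin r → B := fun s j =>
    ∑ g : Γb, cz B (M g j s.2) * (g • (t * x s.1))
  refine ⟨n * r, fun l => U (finProdFinEquiv.symm l), ?_, ?_⟩
  · intro l g
    have hm : ∀ a b : ZMod p, cz B (a * b) = cz B a * cz B b := (OTDen_hom hpB).map_mul
    have hs : ∀ f : Fin r → ZMod p, cz B (∑ j, f j) = ∑ j, cz B (f j) :=
      fun f => map_sum (OTDen_hom hpB) f Finset.univ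
    show vA (M g) (g • U (finProdFinEquiv.symm l)) = U (finProdFinEquiv.symm l)
    generalize finProdFinEquiv.symm l = s
    funext j
    show ∑ i, cz B (M g j i) * (g • ∑ h : Γb, cz B (M h i s.2) * (h • (t * x s.1))) =
      ∑ h : Γb, cz B (M h j s.2) * (h • (t * x s.1))
    have h1 : ∀ i, cz B (M g j i) * (g • ∑ h : Γb, cz B (M h i s.2) * (h • (t * x s.1))) =
        ∑ h : Γb, cz B (M g j i * M h i s.2) * ((g * h) • (t * x s.1)) := by
      intro i
      rw [Finset.smul_sum, Finset.mul_sum]
      refine Finset.sum_congr rfl fun h _ => ?_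
      rw [smul_mul', OTDen_smul_cz, hm, mul_smul]
      ring
    simp only [h1]
    rw [Finset.sum_comm]
    have h2 : ∀ h : Γb, ∑ i, cz B (M g j i * M h i s.2) * ((g * h) • (t * x s.1)) =
        cz B (M (g * h) j s.2) * ((g * h) • (t * x s.1)) := by
      intro h
      rw [← Finset.sum_mul, ← hs, map_mul M, Matrix.mul_apply]
    simp only [h2]
    exact Fintype.sum_equiv (Equiv.mulLeft g) _ _ (fun h => rfl)
  · intro R' _ φ D _ _ δ L _ _ _ ψ hL hψ hψD w hw
    have hpL : (p : L) = 0 := by
      rw [← map_natCast ψ, hpB, map_zero]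
    -- the functions
    let v : Fin r → Γb → L := fun j γ => vA (M γ) w j
    have hv : ∀ j (γ : Γb) (d : D), d • v j (γ * δ d) = v j γ := by
      intro j γ d
      have h1 : vA (M γ) (vA (M (δ d)) (d • w)) j = v j γ := by rw [hw d]
      rw [← h1, ← OTDen_vA_mul hpL, ← map_mul M]
      show d • (∑ i, cz L (M (γ * δ d) j i) * w i) = ∑ i, cz L (M (γ * δ d) j i) * (d • w i)
      rw [Finset.smul_sum]
      refine Finset.sum_congr rfl fun i _ => ?_
      rw [smul_mul', OTDen_smul_cz]
    have hc := fun j => gal_coord δ ψ hψD hxy hxy1 (v j) (hv j)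
    have hk : ∀ (j : Fin r) (m : Fin n), ∃ a : R', algebraMap R' L a =
        ∑ γ, ψ (γ⁻¹ • y m) * v j γ := fun j m => hL.inv _ (fun d => (hc j).1 (y m) d)
    choose a ha using hk
    refine ⟨fun l => a (finProdFinEquiv.symm l).2 (finProdFinEquiv.symm l).1, fun j => ?_⟩
    have h3 : ∑ l, algebraMap R' L (a (finProdFinEquiv.symm l).2 (finProdFinEquiv.symm l).1) *
        ψ (U (finProdFinEquiv.symm l) j) =
        ∑ s : Fin n × Fin r, algebraMap R' L (a s.2 s.1) * ψ (U s j) :=
      Fintype.sum_equiv finProdFinEquiv.symm _ _ (fun l => rfl)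
    show w j = ∑ l, algebraMap R' L (a (finProdFinEquiv.symm l).2 (finProdFinEquiv.symm l).1) *
        ψ (U (finProdFinEquiv.symm l) j)
    rw [h3]
    -- the vector `w` from the functions
    have h4 : ∀ g : Γb, w j = ∑ i, cz L (M g j i) * v i g⁻¹ := by
      intro g
      have h5 : vA (M g) (vA (M g⁻¹) w) = w := by
        rw [← OTDen_vA_mul hpL, ← map_mul M, mul_inv_cancel, map_one, OTDen_vA_one]
      exact (congrFun h5 j).symm
    have h6 : ∀ (i : Fin r) (g : Γb), v i g⁻¹ =
        ∑ m, algebraMap R' L (a i m) * ψ (g • x m) := by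
      intro i g
      rw [(hc i).2 g⁻¹]
      refine Finset.sum_congr rfl fun m _ => ?_
      rw [ha, inv_inv]
    calc w j = ∑ g : Γb, ψ (g • t) * w j := by
          rw [← Finset.sum_mul, ← map_sum, ht, map_one, one_mul]
      _ = ∑ g : Γb, ψ (g • t) * ∑ i, cz L (M g j i) *
            ∑ m, algebraMap R' L (a i m) * ψ (g • x m) := by
          refine Finset.sum_congr rfl fun g _ => ?_
          congr 1
          rw [h4 g]
          refine Finset.sum_congr rfl fun i _ => ?_
          rw [h6]
      _ = ∑ g : Γb, ∑ i, ∑ m, algebraMap R' L (a i m) *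
            (cz L (M g j i) * ψ (g • (t * x m))) := by
          refine Finset.sum_congr rfl fun g _ => ?_
          simp only [Finset.mul_sum]
          refine Finset.sum_congr rfl fun i _ => Finset.sum_congr rfl fun m _ => ?_
          rw [smul_mul', map_mul]
          ring
      _ = ∑ m, ∑ i, ∑ g : Γb, algebraMap R' L (a i m) *
            (cz L (M g j i) * ψ (g • (t * x m))) := by
          rw [Finset.sum_comm]
          have h7 : ∀ i, ∑ g : Γb, ∑ m, algebraMap R' L (a i m) *
              (cz L (M g j i) * ψ (g • (t * x m))) = ∑ m, ∑ g : Γb, algebraMap R' L (a i m) *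
              (cz L (M g j i) * ψ (g • (t * x m))) := fun i => Finset.sum_comm
          simp only [h7]
          rw [Finset.sum_comm]
      _ = ∑ s : Fin n × Fin r, algebraMap R' L (a s.2 s.1) * ψ (U s j) := by
          rw [Fintype.sum_prod_type]
          refine Finset.sum_congr rfl fun m _ => Finset.sum_congr rfl fun i _ => ?_
          rw [← Finset.mul_sum]
          congr 1
          show _ = ψ (∑ g : Γb, cz B (M g j i) * (g • (t * x m)))
          rw [map_sum]
          refine Finset.sum_congr rfl fun g _ => ?_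
          rw [map_mul, OTDen_map_cz]

end MP7b0bad.MT
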