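import Pool.Agent.Work.MP_7b0bad_ag.MT.TStmts

set_option autoImplicit false

/-!
# The outer torsor from the tame one: induction on the order of the kernel
-/

namespace MP7b0bad.MT

open Polynomial

theorem prf_OTor (hOStep : OStep) (hOMin : OMin) : OTor := by
  intro k _ _ p _ _ N R _ ρ kR θ C _ _ A0 _ _ _ κ _ _ ik t₀ jI hpC hT
  suffices H : ∀ (n : ℕ) (Γ : Type) [Group Γ] [Finite Γ] (q : Γ →* C), Nat.card q.ker = n →
      Function.Surjective q → IsPGroup p q.ker →
      ∀ (D : Fin N → Type) [∀ l, Group (D l)] [∀ l, Finite (D l)] (δ : ∀ l, D l →* Γ)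
        (L : Fin N → Type) [∀ l, CommRing (L l)] [∀ l, Algebra (KWp k) (L l)]
        [∀ l, MulSemiringAction (D l) (L l)] (ψ : ∀ l, A0 →+* L l),
      (∀ l, GalAlg (KWp k) (D l) (L l)) →
      (∀ l (x : R), ψ l (algebraMap R A0 x) = algebraMap (KWp k) (L l) (ρ l x)) →
      (∀ l (d : D l) (x : A0), ψ l (q (δ l d) • x) = d • ψ l x) →
      ∃ (A : Type) (_ : CommRing A) (_ : Algebra R A) (_ : MulSemiringAction Γ A) (e : A0 →+* A)
        (ψ' : ∀ l, A →+* L l), GalAlg R Γ A ∧
        (∀ x : R, e (algebraMap R A0 x) = algebraMap R A x) ∧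
        (∀ (g : Γ) (x : A0), g • e x = e (q g • x)) ∧ (∀ l x, ψ' l (e x) = ψ l x) ∧
        (∀ l (d : D l) (x : A), ψ' l (δ l d • x) = d • ψ' l x) ∧ TRA p q e jI by
    intro Γ _ _ q hq hP D _ _ δ L _ _ _ ψ hL hψ hψD
    exact H _ Γ q rfl hq hP D δ L ψ hL hψ hψD
  intro n
  induction n using Nat.strong_induction_on with
  | _ n ih =>
    intro Γ _ _ q hn hq hP D _ _ δ L _ _ _ ψ hL hψ hψD
    by_cases hk : q.ker = ⊥
    · have hqi : Function.Injective q := (MonoidHom.ker_eq_bot_iff q).1 hk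
      let inst : MulSemiringAction Γ A0 := MulSemiringAction.compHom A0 q
      have hsm : ∀ (g : Γ) (x : A0), g • x = q g • x := fun _ _ => rfl
      refine ⟨A0, inferInstance, inferInstance, inst, RingHom.id A0, ψ, ?_, fun x => rfl,
        fun g x => rfl, fun l x => rfl, fun l d x => ?_, ?_⟩
      · refine ⟨fun g a => ?_, hT.gal.inj, fun b hb => ?_, fun σ hσ => ?_⟩
        · rw [hsm]
          exact hT.gal.comm _ _
        · refine hT.gal.inv b fun c => ?_
          obtain ⟨g, rfl⟩ := hq c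
          exact hb g
        · have h1 : q σ ≠ 1 := fun h => hσ (hqi (by rw [h, map_one]))
          exact hT.gal.unr (q σ) h1
      · rw [hsm]
        exact hψD l d x
      · intro l hl
        exfalso
        apply hl
        apply MonoidHom.ext
        intro x
        have hx : x = 1 := by
          apply Subtype.ext
          have h2 : (x : Γ) ∈ (⊥ : Subgroup Γ) := hk ▸ x.2
          exact Subgroup.mem_bot.1 h2
        rw [hx, map_one, map_one]
    · obtain ⟨r, Γb, _, _, π, qb, i, M, hr, hE, hqq, hqbs, hPb, hcard, hM1, hirr⟩ :=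
        hOMin p Γ C q hq hP hk
      subst hqq
      obtain ⟨B, _, _, _, e0, ψ0, hB, hBalg, hBact, hBψ, hBD, hBT⟩ :=
        ih (Nat.card qb.ker) (hn ▸ hcard) Γb qb rfl hqbs hPb D (fun l => π.comp (δ l)) L ψ hL hψ
          (fun l d x => hψD l d x)
      obtain ⟨A, _, _, _, e, ψ', hA, hAalg, hAact, hAψ, hAD, hAT⟩ :=
        hOStep k p N R ρ kR θ C A0 κ ik t₀ jI hpC hT r Γ Γb π i M qb B e0 hr hE hqbs hM1 hirr hB
          hBalg (fun g x => (hBact g x).symm) hBT D δ L ψ0 hL
          (fun l x => by rw [← hBalg, hBψ, hψ]) (fun l d x => hBD l d x)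
      refine ⟨A, inferInstance, inferInstance, inferInstance, e.comp e0, ψ', hA, fun x => ?_,
        fun g x => ?_, fun l x => ?_, hAD, hAT⟩
      · rw [RingHom.comp_apply, hBalg, hAalg]
      · rw [RingHom.comp_apply, RingHom.comp_apply, hAact, hBact]
        rfl
      · rw [RingHom.comp_apply, hAψ, hBψ]

end MP7b0bad.MT
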