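import Mathlib
import Pool.Agent.Work.MP_7b0bad_ag.MT.TStmts

set_option autoImplicit false

namespace MP7b0bad.MT

open Polynomial

section cz

variable {p : ℕ} [hp : Fact p.Prime] {B : Type} [CommRing B]

omit hp in
theorem OTra_cast_mod (h : (p : B) = 0) (m : ℕ) : ((m % p : ℕ) : B) = (m : B) := by
  have h1 : ((p * (m / p) + m % p : ℕ) : B) = (m : B) := by rw [Nat.div_add_mod]
  rw [← h1]
  push_cast
  rw [h]
  ring

theorem OTra_cz_zero : cz B (0 : ZMod p) = 0 := by
  simp [cz]

theorem OTra_cz_one : cz B (1 : ZMod p) = 1 := by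
  have : Fact (1 < p) := ⟨hp.out.one_lt⟩
  simp [cz, ZMod.val_one]

theorem OTra_cz_add (h : (p : B) = 0) (a b : ZMod p) : cz B (a + b) = cz B a + cz B b := by
  have : NeZero p := ⟨hp.out.ne_zero⟩
  simp only [cz]
  rw [ZMod.val_add, OTra_cast_mod h]
  push_cast
  ring

theorem OTra_cz_mul (h : (p : B) = 0) (a b : ZMod p) : cz B (a * b) = cz B a * cz B b := by
  simp only [cz]
  rw [ZMod.val_mul, OTra_cast_mod h]
  push_cast
  ring

theorem OTra_cz_sum (h : (p : B) = 0) {ι : Type} (s : Finset ι) (f : ι → ZMod p) :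
    cz B (∑ i ∈ s, f i) = ∑ i ∈ s, cz B (f i) := by
  classical
  induction s using Finset.induction_on with
  | empty => simp [OTra_cz_zero]
  | insert a s ha ih => rw [Finset.sum_insert ha, Finset.sum_insert ha, OTra_cz_add h, ih]

theorem OTra_cz_pow (h : (p : B) = 0) (a : ZMod p) (n : ℕ) : cz B (a ^ n) = cz B a ^ n := by
  induction n with
  | zero => simp [OTra_cz_one]
  | succ n ih => rw [pow_succ, OTra_cz_mul h, ih, pow_succ]

theorem OTra_cz_frob (h : (p : B) = 0) (a : ZMod p) : cz B a ^ p = cz B a := by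
  rw [← OTra_cz_pow h, ZMod.pow_card]

omit hp in
theorem OTra_cz_map {A : Type} [CommRing A] (f : B →+* A) (a : ZMod p) : f (cz B a) = cz A a := by
  simp only [cz, map_natCast]

omit hp in
theorem OTra_cz_smul {G : Type} [Group G] [MulSemiringAction G B] (g : G) (a : ZMod p) :
    g • cz B a = cz B a := by
  exact OTra_cz_map (MulSemiringAction.toRingHom G B g) a

theorem OTra_vA_one {r : ℕ} (x : Fin r → B) :
    vA (1 : Matrix (Fin r) (Fin r) (ZMod p)) x = x := by
  classical
  funext i
  simp only [vA]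
  rw [Finset.sum_eq_single i]
  · rw [Matrix.one_apply_eq, OTra_cz_one, one_mul]
  · intro j _ hj
    rw [Matrix.one_apply_ne (Ne.symm hj), OTra_cz_zero, zero_mul]
  · intro h
    exact absurd (Finset.mem_univ i) h

theorem OTra_add_pow (h : (p : B) = 0) (x y : B) : (x + y) ^ p = x ^ p + y ^ p := by
  obtain ⟨r, hr⟩ := exists_add_pow_prime_eq hp.out x y
  rw [hr, h]
  ring

theorem OTra_neg_pow (h : (p : B) = 0) (x : B) : (-x) ^ p = -x ^ p := by
  have h1 := OTra_add_pow h x (-x)
  rw [add_neg_cancel, zero_pow hp.out.ne_zero] at h1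
  exact (neg_eq_of_add_eq_zero_right h1.symm).symm

theorem OTra_sub_pow (h : (p : B) = 0) (x y : B) : (x - y) ^ p = x ^ p - y ^ p := by
  rw [sub_eq_add_neg, OTra_add_pow h, OTra_neg_pow h]
  ring

theorem OTra_sum_pow (h : (p : B) = 0) {ι : Type} (s : Finset ι) (f : ι → B) :
    (∑ i ∈ s, f i) ^ p = ∑ i ∈ s, f i ^ p := by
  classical
  induction s using Finset.induction_on with
  | empty => simp [zero_pow hp.out.ne_zero]
  | insert a s ha ih => rw [Finset.sum_insert ha, Finset.sum_insert ha, OTra_add_pow h, ih]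

theorem OTra_lin_pow (h : (p : B) = 0) {r : ℕ} (v : Fin r → ZMod p) (f : Fin r → B) :
    (∑ i, cz B (v i) * f i) ^ p = ∑ i, cz B (v i) * f i ^ p := by
  rw [OTra_sum_pow h]
  refine Finset.sum_congr rfl fun i _ => ?_
  rw [mul_pow, OTra_cz_frob h]

end cz

/-- elements of `B` fixed by the kernel of `q` come from `A0` -/
theorem OTra_inv {R C Γb : Type} [CommRing R] [Group C] [Finite C] [Group Γb] [Finite Γb]
    {A0 B : Type} [CommRing A0] [Algebra R A0] [MulSemiringAction C A0] [CommRing B] [Algebra R B]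
    [MulSemiringAction Γb B] (hA : GalAlg R C A0) (hB : GalAlg R Γb B) (q : Γb →* C)
    (hq : Function.Surjective q) (e0 : A0 →+* B)
    (halg : ∀ x : R, e0 (algebraMap R A0 x) = algebraMap R B x)
    (hact : ∀ (g : Γb) (x : A0), e0 (q g • x) = g • e0 x) (β : B)
    (hβ : ∀ n : Γb, q n = 1 → n • β = β) : ∃ b : A0, e0 b = β := by
  classical
  have := Fintype.ofFinite C
  obtain ⟨n, x, y, h1, h2⟩ := gal_dual' hA
  choose t ht using hq
  have hT : ∀ b : B, (∀ n : Γb, q n = 1 → n • b = b) → ∀ g : Γb,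
      g • (∑ σ : C, t σ • b) = ∑ σ : C, t σ • b := by
    intro b hb g
    rw [Finset.smul_sum]
    refine Fintype.sum_bijective (fun σ => q g * σ) (Group.mulLeft_bijective (q g)) _ _ fun σ => ?_
    have h3 : q ((t (q g * σ))⁻¹ * (g * t σ)) = 1 := by
      rw [map_mul, map_inv, map_mul, ht, ht, inv_mul_cancel]
    have h4 := hb _ h3
    calc g • t σ • b = (g * t σ) • b := by rw [mul_smul]
      _ = t (q g * σ) • (((t (q g * σ))⁻¹ * (g * t σ)) • b) := by
          rw [smul_smul, mul_inv_cancel_left]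
      _ = t (q g * σ) • b := by rw [h4]
  choose a ha using fun m => hB.inv (∑ σ : C, t σ • (e0 (y m) * β)) (hT _ (by
    intro g hg
    rw [smul_mul', ← hact, hg, one_smul, hβ g hg]))
  refine ⟨∑ m, x m * algebraMap R A0 (a m), ?_⟩
  rw [map_sum]
  have h5 : ∀ σ : C, ∑ m, e0 (x m) * e0 (σ • y m) = if σ = 1 then 1 else 0 := by
    intro σ
    have h6 : ∑ m, e0 (x m) * e0 (σ • y m) = e0 (∑ m, x m * (σ • y m)) := by
      rw [map_sum]
      exact Finset.sum_congr rfl fun m _ => by rw [map_mul]
    rw [h6]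
    split_ifs with h
    · subst h
      simp only [one_smul]
      rw [h2, map_one]
    · rw [h1 σ h, map_zero]
  calc ∑ m, e0 (x m * algebraMap R A0 (a m))
      = ∑ m, ∑ σ : C, (e0 (x m) * e0 (σ • y m)) * (t σ • β) := by
        refine Finset.sum_congr rfl fun m _ => ?_
        rw [map_mul, halg, ha, Finset.mul_sum]
        refine Finset.sum_congr rfl fun σ _ => ?_
        rw [smul_mul', ← hact, ht]
        ring
    _ = ∑ σ : C, (∑ m, e0 (x m) * e0 (σ • y m)) * (t σ • β) := by
        rw [Finset.sum_comm]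
        exact Finset.sum_congr rfl fun σ _ => by rw [Finset.sum_mul]
    _ = β := by
        rw [Finset.sum_eq_single (1 : C)]
        · rw [h5, if_pos rfl, one_mul]
          exact hβ _ (ht 1)
        · intro σ _ hσ
          rw [h5, if_neg hσ, zero_mul]
        · intro h
          exact absurd (Finset.mem_univ _) h

/-- additive Hilbert 90 for a subgroup -/
theorem OTra_H1 {R Γb : Type} [CommRing R] [Group Γb] [Finite Γb] {B : Type} [CommRing B]
    [Algebra R B] [MulSemiringAction Γb B] (hB : GalAlg R Γb B) (N : Subgroup Γb)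
    (c : N → B) (hc : ∀ g h : N, c (g * h) = c g + (g : Γb) • c h) :
    ∃ u : B, ∀ g : N, c g = (g : Γb) • u - u := by
  classical
  have := Fintype.ofFinite N
  have hG : GalAlg (FixedPoints.subring B N) N B := by
    refine ⟨fun g a => a.2 g, Subtype.val_injective, fun b hb => ⟨⟨b, hb⟩, rfl⟩, fun σ hσ => ?_⟩
    have h1 : (σ : Γb) ≠ 1 := fun h => hσ (Subtype.ext h)
    exact hB.unr (σ : Γb) h1
  exact gal_H1 hG c hc

theorem OTra_order {κ : Type} [Field κ] (x y : LaurentSeries κ) (d : ℕ) (hd : d ≠ 0)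
    (hy : y.order = -(d : ℤ)) (hx : -(d : ℤ) < x.order) : (x + y).order = -(d : ℤ) := by
  have hy0 : y ≠ 0 := by
    rintro rfl
    rw [HahnSeries.order_zero] at hy
    omega
  have h1 : (x + y).coeff (-(d : ℤ)) ≠ 0 := by
    rw [HahnSeries.coeff_add, HahnSeries.coeff_eq_zero_of_lt_order hx, zero_add, ← hy]
    exact fun h => hy0 (HahnSeries.coeff_order_eq_zero.1 h)
  have h2 : x + y ≠ 0 := by
    intro h
    rw [h] at h1
    exact h1 rfl
  refine le_antisymm (HahnSeries.order_le_of_coeff_ne_zero h1) ?_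
  have h3 := HahnSeries.min_order_le_order_add h2
  rw [hy, min_eq_right hx.le] at h3
  exact h3

section main

variable {p : ℕ} [hp : Fact p.Prime] {C : Type} [Group C] {r : ℕ} {Γ Γb : Type} [Group Γ]
  [Group Γb] {π : Γ →* Γb} {i : Multiplicative (Fin r → ZMod p) →* Γ}
  {M : Γb →* Matrix (Fin r) (Fin r) (ZMod p)} {qb : Γb →* C}

theorem OTra_mem (hE : ElExt π i M) (x : Fin r → ZMod p) :
    i (Multiplicative.ofAdd x) ∈ (qb.comp π).ker := by
  have h1 : π (i (Multiplicative.ofAdd x)) = 1 := (hE.ker _).2 ⟨_, rfl⟩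
  rw [MonoidHom.mem_ker, MonoidHom.comp_apply, h1, map_one]

/-- the restriction of a character to the kernel -/
theorem OTra_vec (hE : ElExt π i M) (l : (qb.comp π).ker →* Multiplicative (ZMod p)) :
    ∃ v : Fin r → ZMod p, ∀ (x : Fin r → ZMod p)
      (h : i (Multiplicative.ofAdd x) ∈ (qb.comp π).ker),
      Multiplicative.toAdd (l ⟨i (Multiplicative.ofAdd x), h⟩) = ∑ j, v j * x j := by
  classical
  let L : (Fin r → ZMod p) →+ ZMod p :=
    { toFun := fun x => Multiplicative.toAdd (l ⟨i (Multiplicative.ofAdd x), OTra_mem hE x⟩)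
      map_zero' := by
        have h1 : (⟨i (Multiplicative.ofAdd 0), OTra_mem hE 0⟩ : (qb.comp π).ker) = 1 := by
          ext
          simp
        rw [h1, map_one]
        rfl
      map_add' := fun x y => by
        have h1 : (⟨i (Multiplicative.ofAdd (x + y)), OTra_mem hE (x + y)⟩ : (qb.comp π).ker) =
            ⟨i (Multiplicative.ofAdd x), OTra_mem hE x⟩ *
              ⟨i (Multiplicative.ofAdd y), OTra_mem hE y⟩ := by
          ext
          simp
        rw [h1, map_mul]
        rfl }
  refine ⟨fun j => L (Pi.single j 1), fun x h => ?_⟩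
  have h1 : x = ∑ j, x j • (Pi.single j (1 : ZMod p) : Fin r → ZMod p) := by
    funext k
    simp [Finset.sum_apply, Pi.single_apply]
  have h2 : L x = ∑ j, x j • L (Pi.single j 1) := by
    conv_lhs => rw [h1]
    rw [map_sum]
    refine Finset.sum_congr rfl fun j _ => ?_
    exact (AddMonoidHom.toZModLinearMap p L).map_smul (x j) (Pi.single j 1)
  change L x = _
  rw [h2]
  refine Finset.sum_congr rfl fun j _ => ?_
  rw [smul_eq_mul, mul_comm]

end main

theorem prf_OTra : OTra := by
  classical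
  intro p hp κ _ _ R _ C _ _ A0 _ _ _ jI hpR hA r Γ Γb _ _ _ _ π i M qb B _ _ _ e0 z a hE hqb hM
    hB hz hza halg hact hTRA
  have hpB : (p : B) = 0 := by
    have h1 := congrArg (algebraMap R B) hpR
    rwa [map_natCast, map_zero] at h1
  have hpA : (p : A0) = 0 := by
    have h1 := congrArg (algebraMap R A0) hpR
    rwa [map_natCast, map_zero] at h1
  have hK : ∀ g : (qb.comp π).ker, qb (π (g : Γ)) = 1 := fun g => g.2
  have hMK : ∀ g : (qb.comp π).ker, M (π (g : Γ)) = 1 := fun g => hM _ (hK g)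
  -- lifts
  have hlift : ∀ n : qb.ker, ∃ g : (qb.comp π).ker, π (g : Γ) = (n : Γb) := by
    intro n
    obtain ⟨g, hg⟩ := hE.surj (n : Γb)
    refine ⟨⟨g, ?_⟩, hg⟩
    rw [MonoidHom.mem_ker, MonoidHom.comp_apply, hg]
    exact n.2
  choose S hS using hlift
  choose V hV using fun l : (qb.comp π).ker →* Multiplicative (ZMod p) => OTra_vec hE l
  -- the kernel
  have hker : ∀ g h : (qb.comp π).ker, π (g : Γ) = π (h : Γ) →
      ∃ (x : Fin r → ZMod p) (hx : i (Multiplicative.ofAdd x) ∈ (qb.comp π).ker),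
        h = g * ⟨i (Multiplicative.ofAdd x), hx⟩ := by
    intro g h hgh
    have h1 : π ((g : Γ)⁻¹ * h) = 1 := by rw [map_mul, map_inv, hgh, inv_mul_cancel]
    obtain ⟨x, hx⟩ := (hE.ker _).1 h1
    refine ⟨Multiplicative.toAdd x, OTra_mem hE _, ?_⟩
    ext
    simp [hx]
  -- the function F and the cocycle
  have hFmul : ∀ (v : Fin r → ZMod p) (g h : (qb.comp π).ker),
      ∑ j, cz B (v j) * z ((g : Γ) * h) j =
        ∑ j, cz B (v j) * z (g : Γ) j + π (g : Γ) • ∑ j, cz B (v j) * z (h : Γ) j := by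
    intro v g h
    rw [hz.mul, hMK, OTra_vA_one, Finset.smul_sum, ← Finset.sum_add_distrib]
    refine Finset.sum_congr rfl fun j _ => ?_
    rw [Pi.add_apply, Pi.smul_apply, smul_mul', OTra_cz_smul]
    ring
  have key : ∀ l : (qb.comp π).ker →* Multiplicative (ZMod p), ∃ (u : B) (b : A0),
      (∀ g : (qb.comp π).ker, ∑ j, cz B (V l j) * z (g : Γ) j -
        cz B (Multiplicative.toAdd (l g)) = π (g : Γ) • u - u) ∧
      e0 b = ∑ j, cz B (V l j) * a j - (u ^ p - u) := by
    intro l
    set f : (qb.comp π).ker → B := fun g => ∑ j, cz B (V l j) * z (g : Γ) j -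
      cz B (Multiplicative.toAdd (l g)) with hf
    have hfmul : ∀ g h : (qb.comp π).ker, f (g * h) = f g + π (g : Γ) • f h := by
      intro g h
      simp only [hf]
      rw [Subgroup.coe_mul, hFmul, map_mul, toAdd_mul, OTra_cz_add hpB, smul_sub, OTra_cz_smul]
      ring
    have hfk : ∀ (x : Fin r → ZMod p) (hx : i (Multiplicative.ofAdd x) ∈ (qb.comp π).ker),
        f ⟨i (Multiplicative.ofAdd x), hx⟩ = 0 := by
      intro x hx
      simp only [hf]
      rw [hV l x hx, hz.ker, OTra_cz_sum hpB, sub_eq_zero]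
      refine Finset.sum_congr rfl fun j _ => ?_
      rw [OTra_cz_mul hpB]
    have hfe : ∀ g h : (qb.comp π).ker, π (g : Γ) = π (h : Γ) → f g = f h := by
      intro g h hgh
      obtain ⟨x, hx, rfl⟩ := hker g h hgh
      rw [hfmul, hfk, smul_zero, add_zero]
    obtain ⟨u, hu⟩ := OTra_H1 hB qb.ker (fun n => f (S n)) (by
      intro n m
      have h1 : f (S (n * m)) = f (S n * S m) := by
        refine hfe _ _ ?_
        rw [Subgroup.coe_mul, map_mul, hS, hS, hS, Subgroup.coe_mul]
      rw [h1, hfmul, hS])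
    have hfu : ∀ g : (qb.comp π).ker, f g = π (g : Γ) • u - u := by
      intro g
      have h1 := hu ⟨π (g : Γ), hK g⟩
      rw [← h1]
      exact hfe _ _ (by rw [hS])
    obtain ⟨b, hb⟩ := OTra_inv hA hB qb hqb e0 halg hact
      (∑ j, cz B (V l j) * a j - (u ^ p - u)) (by
        intro n hn
        have hg : π (S ⟨n, hn⟩ : Γ) = n := hS ⟨n, hn⟩
        set g : (qb.comp π).ker := S ⟨n, hn⟩ with hgdef
        have h1 : ∀ j, n • a j = a j + (z (g : Γ) j ^ p - z (g : Γ) j) := by
          intro j
          have h2 := congrFun (hza (g : Γ)) j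
          rw [hMK, OTra_vA_one, Pi.sub_apply, Pi.smul_apply, hg] at h2
          rw [h2]
          ring
        have h3 : n • ∑ j, cz B (V l j) * a j = ∑ j, cz B (V l j) * a j +
            ((∑ j, cz B (V l j) * z (g : Γ) j) ^ p - ∑ j, cz B (V l j) * z (g : Γ) j) := by
          rw [OTra_lin_pow hpB, Finset.smul_sum, ← Finset.sum_sub_distrib,
            ← Finset.sum_add_distrib]
          refine Finset.sum_congr rfl fun j _ => ?_
          rw [smul_mul', OTra_cz_smul, h1]
          ring
        have h4 : ∑ j, cz B (V l j) * z (g : Γ) j =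
            cz B (Multiplicative.toAdd (l g)) + (n • u - u) := by
          have h5 := hfu g
          simp only [hf] at h5
          rw [hg] at h5
          rw [← h5]
          ring
        rw [smul_sub, h3, h4, OTra_add_pow hpB, OTra_cz_frob hpB, OTra_sub_pow hpB, smul_sub,
          smul_pow']
        ring)
    exact ⟨u, b, hfu, hb⟩
  choose U b hU hb using key
  -- the bound
  have : NeZero p := ⟨hp.out.ne_zero⟩
  have hfin : Finite (Multiplicative (ZMod p)) := inferInstanceAs (Finite (ZMod p))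
  have hfin2 : Finite ((qb.comp π).ker →* Multiplicative (ZMod p)) := DFunLike.finite _
  obtain ⟨D, hD⟩ := (Set.finite_range
    (fun l : (qb.comp π).ker →* Multiplicative (ZMod p) => (-(jI (b l)).order).toNat)).bddAbove
  refine ⟨D + 1, fun w d hd hpd hw hord E _ _ _ e y hV' l hl => ?_⟩
  have hpE : (p : E) = 0 := by
    have h1 := congrArg (algebraMap R E) hpR
    rwa [map_natCast, map_zero] at h1
  by_cases hv : V l = 0
  · -- the character comes from the quotient
    have hlk : ∀ g h : (qb.comp π).ker, π (g : Γ) = π (h : Γ) → l g = l h := by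
      intro g h hgh
      obtain ⟨x, hx, rfl⟩ := hker g h hgh
      have h1 := hV l x hx
      rw [hv] at h1
      simp only [Pi.zero_apply, zero_mul, Finset.sum_const_zero] at h1
      have h2 : l ⟨i (Multiplicative.ofAdd x), hx⟩ = 1 := h1
      rw [map_mul, h2, mul_one]
    let l' : qb.ker →* Multiplicative (ZMod p) :=
      { toFun := fun n => l (S n)
        map_one' := by
          rw [hlk (S 1) 1 (by rw [hS]; simp), map_one]
        map_mul' := fun n m => by
          rw [hlk (S (n * m)) (S n * S m) (by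
            rw [Subgroup.coe_mul, map_mul, hS, hS, hS, Subgroup.coe_mul]), map_mul] }
    have hl'a : ∀ g : (qb.comp π).ker, l' ⟨π (g : Γ), hK g⟩ = l g := by
      intro g
      exact hlk _ _ (by rw [hS])
    have hl' : l' ≠ 1 := by
      intro h
      apply hl
      ext g
      rw [← hl'a, h]
      rfl
    obtain ⟨y0, b0, d1, h1, h2, h3, h4⟩ := hTRA l' hl'
    refine ⟨e y0, b0, d1, fun g => ?_, ?_, h3, h4⟩
    · have h5 := h1 ⟨π (g : Γ), hK g⟩
      rw [hl'a] at h5
      rw [hV'.e_act]
      have h6 := congrArg e h5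
      rw [map_add, map_natCast] at h6
      exact h6
    · rw [← map_pow, ← map_sub, h2]
      rfl
  · refine ⟨∑ j, cz E (V l j) * y j - e (U l), b l + ∑ j, cz A0 (V l j) * w j, d, fun g => ?_, ?_,
      hpd, ?_⟩
    · have h1 : ∀ j, (g : Γ) • y j = y j + e (z (g : Γ) j) := by
        intro j
        have h2 := congrFun (hV'.y_act (g : Γ)) j
        rw [hMK, OTra_vA_one] at h2
        exact h2
      have h3 : (g : Γ) • ∑ j, cz E (V l j) * y j = ∑ j, cz E (V l j) * y j +
          e (∑ j, cz B (V l j) * z (g : Γ) j) := by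
        rw [Finset.smul_sum, map_sum, ← Finset.sum_add_distrib]
        refine Finset.sum_congr rfl fun j _ => ?_
        rw [smul_mul', OTra_cz_smul, h1, map_mul, OTra_cz_map]
        ring
      have h4 : ∑ j, cz B (V l j) * z (g : Γ) j =
          cz B (Multiplicative.toAdd (l g)) + (π (g : Γ) • U l - U l) := by
        rw [← hU]
        ring
      rw [smul_sub, h3, h4, hV'.e_act, map_add, map_sub, OTra_cz_map]
      change _ = _ + cz E (Multiplicative.toAdd (l g))
      ring
    · have h1 : ∀ j, y j ^ p = y j + e (a j + e0 (w j)) := by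
        intro j
        rw [← hV'.y_pow]
        ring
      have h2 : (∑ j, cz E (V l j) * y j) ^ p = ∑ j, cz E (V l j) * y j +
          e (∑ j, cz B (V l j) * (a j + e0 (w j))) := by
        rw [OTra_lin_pow hpE, map_sum, ← Finset.sum_add_distrib]
        refine Finset.sum_congr rfl fun j _ => ?_
        rw [h1, map_mul, OTra_cz_map]
        ring
      have h3 : ∑ j, cz B (V l j) * (a j + e0 (w j)) =
          ∑ j, cz B (V l j) * a j + e0 (∑ j, cz A0 (V l j) * w j) := by
        rw [map_sum, ← Finset.sum_add_distrib]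
        refine Finset.sum_congr rfl fun j _ => ?_
        rw [map_mul, OTra_cz_map]
        ring
      have h4 : e (e0 (b l)) = e (∑ j, cz B (V l j) * a j) - (e (U l) ^ p - e (U l)) := by
        rw [hb, map_sub, map_sub, map_pow]
      rw [OTra_sub_pow hpE, h2, h3, RingHom.comp_apply, map_add e0, map_add e, map_add e, h4]
      ring
    · rw [map_add]
      have hd0 : d ≠ 0 := by
        rintro rfl
        exact hpd (dvd_zero p)
      refine OTra_order _ _ d hd0 (hord (V l) hv) ?_
      have h1 : (-(jI (b l)).order).toNat ≤ D := hD ⟨l, rfl⟩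
      omega

end MP7b0bad.MT
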