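import Pool.Agent.Work.MP_7b0bad_ag.MT.TStmts

set_option autoImplicit false

/-! Item OVX: the action of the extended group on the Artin-Schreier algebra. -/

namespace MP7b0bad.MT

open Polynomial

theorem OVX_mod {p : ℕ} {B : Type} [CommRing B] (hp : (p : B) = 0) (n : ℕ) :
    ((n % p : ℕ) : B) = (n : B) := by
  conv_rhs => rw [← Nat.mod_add_div n p]
  push_cast
  rw [hp, zero_mul, add_zero]

/-- `cz` as a ring homomorphism -/
def OVX_czR {p : ℕ} [Fact p.Prime] {B : Type} [CommRing B] (hp : (p : B) = 0) : ZMod p →+* B where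
  toFun := cz B
  map_zero' := by
    show (((0 : ZMod p).val : ℕ) : B) = 0
    rw [ZMod.val_zero, Nat.cast_zero]
  map_one' := by
    show (((1 : ZMod p).val : ℕ) : B) = 1
    rw [ZMod.val_one, Nat.cast_one]
  map_add' a b := by
    show (((a + b : ZMod p).val : ℕ) : B) = ((a.val : ℕ) : B) + ((b.val : ℕ) : B)
    rw [ZMod.val_add, OVX_mod hp, Nat.cast_add]
  map_mul' a b := by
    show (((a * b : ZMod p).val : ℕ) : B) = ((a.val : ℕ) : B) * ((b.val : ℕ) : B)
    rw [ZMod.val_mul, OVX_mod hp, Nat.cast_mul]

theorem OVX_map_cz {p : ℕ} {B L : Type} [CommRing B] [CommRing L] (ψ : B →+* L) (a : ZMod p) :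
    ψ (cz B a) = cz L a := by
  unfold cz
  exact map_natCast ψ _

theorem OVX_vA_mul {p r : ℕ} [Fact p.Prime] {B : Type} [CommRing B] (hp : (p : B) = 0)
    (M N : Matrix (Fin r) (Fin r) (ZMod p)) (x : Fin r → B) :
    vA (M * N) x = vA M (vA N x) := by
  funext i
  show ∑ j, OVX_czR hp ((M * N) i j) * x j =
    ∑ j, OVX_czR hp (M i j) * ∑ l, OVX_czR hp (N j l) * x l
  simp only [Matrix.mul_apply, map_sum, map_mul, Finset.sum_mul, Finset.mul_sum]
  rw [Finset.sum_comm]
  refine Finset.sum_congr rfl fun a _ => Finset.sum_congr rfl fun b _ => ?_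
  ring

theorem OVX_vA_one {p r : ℕ} [Fact p.Prime] {B : Type} [CommRing B] (hp : (p : B) = 0)
    (x : Fin r → B) : vA (1 : Matrix (Fin r) (Fin r) (ZMod p)) x = x := by
  funext i
  show ∑ j, OVX_czR hp ((1 : Matrix (Fin r) (Fin r) (ZMod p)) i j) * x j = x i
  rw [Finset.sum_eq_single i]
  · rw [Matrix.one_apply_eq, map_one, one_mul]
  · intro j _ hj
    rw [Matrix.one_apply_ne (Ne.symm hj), map_zero, zero_mul]
  · intro h
    exact absurd (Finset.mem_univ i) h

theorem OVX_vA_add {p r : ℕ} {B : Type} [CommRing B] (M : Matrix (Fin r) (Fin r) (ZMod p))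
    (x y : Fin r → B) : vA M (x + y) = vA M x + vA M y := by
  funext i
  show ∑ j, cz B (M i j) * (x j + y j) = ∑ j, cz B (M i j) * x j + ∑ j, cz B (M i j) * y j
  simp only [mul_add, Finset.sum_add_distrib]

theorem OVX_vA_map {p r : ℕ} {B L : Type} [CommRing B] [CommRing L] (ψ : B →+* L)
    (M : Matrix (Fin r) (Fin r) (ZMod p)) (x : Fin r → B) :
    (fun i => ψ (vA M x i)) = vA M (fun j => ψ (x j)) := by
  funext i
  show ψ (∑ j, cz B (M i j) * x j) = ∑ j, cz L (M i j) * ψ (x j)
  simp only [map_sum, map_mul, OVX_map_cz]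

theorem OVX_addpow {p : ℕ} [Fact p.Prime] {B : Type} [CommRing B] (hp : (p : B) = 0) (x y : B) :
    (x + y) ^ p = x ^ p + y ^ p := by
  rw [add_pow_prime_eq (Fact.out : p.Prime), hp]
  simp

theorem OVX_sumpow {p : ℕ} [Fact p.Prime] {B ι : Type} [CommRing B] (hp : (p : B) = 0)
    (s : Finset ι) (x : ι → B) : (∑ j ∈ s, x j) ^ p = ∑ j ∈ s, x j ^ p := by
  classical
  induction s using Finset.induction_on with
  | empty => simp [(Fact.out : p.Prime).ne_zero]
  | insert a s ha ih => rw [Finset.sum_insert ha, Finset.sum_insert ha, OVX_addpow hp, ih]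

theorem OVX_vA_pow {p r : ℕ} [Fact p.Prime] {B : Type} [CommRing B] (hp : (p : B) = 0)
    (M : Matrix (Fin r) (Fin r) (ZMod p)) (x : Fin r → B) :
    (fun i => vA M x i ^ p - vA M x i) = vA M (fun j => x j ^ p - x j) := by
  funext i
  show (∑ j, OVX_czR hp (M i j) * x j) ^ p - ∑ j, OVX_czR hp (M i j) * x j =
    ∑ j, OVX_czR hp (M i j) * (x j ^ p - x j)
  rw [OVX_sumpow hp, ← Finset.sum_sub_distrib]
  refine Finset.sum_congr rfl fun j _ => ?_
  rw [mul_pow, ← map_pow, ZMod.pow_card]
  ring

theorem prf_OVX (hOAS : OAS) : OVX := by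
  intro R _ p _ r Γ Γb _ _ _ _ π i M B _ _ _ z a hp hE hB hz ha
  have hpB : (p : B) = 0 := by
    rw [← map_natCast (algebraMap R B) p, hp, map_zero]
  obtain ⟨E, _, _, _, y, hgal, hact, hpow, huniv, huniq⟩ := hOAS p r B a hpB
  have hpE : (p : E) = 0 := by
    rw [← map_natCast (algebraMap B E) p, hpB, map_zero]
  -- inverse matrices
  have hMi : ∀ g : Γb, ∀ x : Fin r → E, vA (M g⁻¹) (vA (M g) x) = x := by
    intro g x
    rw [← OVX_vA_mul hpE, ← map_mul, inv_mul_cancel, map_one, OVX_vA_one hpE]
  have hMi' : ∀ g : Γb, ∀ x : Fin r → E, vA (M g) (vA (M g⁻¹) x) = x := by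
    intro g x
    rw [← OVX_vA_mul hpE, ← map_mul, mul_inv_cancel, map_one, OVX_vA_one hpE]
  -- the images of the generators
  let t : Γ → Fin r → E := fun g => vA (M (π g)⁻¹) (y + fun j => algebraMap B E (z g j))
  have ht : ∀ (g : Γ) (j : Fin r), t g j ^ p - t g j = algebraMap B E (π g • a j) := by
    intro g j
    have h1 := congrFun (OVX_vA_pow hpE (M (π g)⁻¹) (y + fun j => algebraMap B E (z g j))) j
    have h2 : (fun j => (y + fun j => algebraMap B E (z g j)) j ^ p -
        (y + fun j => algebraMap B E (z g j)) j) =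
        vA (M (π g)) (fun j => algebraMap B E (π g • a j)) := by
      rw [← OVX_vA_map (algebraMap B E)]
      funext l
      show (y l + algebraMap B E (z g l)) ^ p - (y l + algebraMap B E (z g l)) =
        algebraMap B E (vA (M (π g)) (fun j => π g • a j) l)
      have h3 := congrFun (ha g) l
      have h4 : vA (M (π g)) (fun j => π g • a j) l = z g l ^ p - z g l + a l := by
        have h5 : z g l ^ p - z g l = vA (M (π g)) (π g • a) l - a l := h3
        rw [h5]
        show _ = vA (M (π g)) (π g • a) l - a l + a l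
        rw [sub_add_cancel]
        rfl
      rw [h4, map_add, map_sub, map_pow, ← hpow l, OVX_addpow hpE]
      ring
    have h6 : t g j ^ p - t g j = vA (M (π g)⁻¹)
        (fun j => (y + fun j => algebraMap B E (z g j)) j ^ p -
        (y + fun j => algebraMap B E (z g j)) j) j := h1
    rw [h6, h2, hMi]
  -- the endomorphisms
  have hT : ∀ g : Γ, ∃ F : E →+* E, (∀ x, F (algebraMap B E x) = algebraMap B E (π g • x)) ∧
      ∀ j, F (y j) = t g j := fun g =>
    huniv E ((algebraMap B E).comp (MulSemiringAction.toRingHom Γb B (π g))) (t g) (ht g)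
  choose T hTe hTy using hT
  have hTt : ∀ (g h : Γ) (j : Fin r), T g (t h j) =
      vA (M (π h)⁻¹) (t g + fun l => algebraMap B E (π g • z h l)) j := by
    intro g h j
    have h1 := congrFun (OVX_vA_map (T g) (M (π h)⁻¹) (y + fun j => algebraMap B E (z h j))) j
    have h2 : (fun l => T g ((y + fun j => algebraMap B E (z h j)) l)) =
        t g + fun l => algebraMap B E (π g • z h l) := by
      funext l
      show T g (y l + algebraMap B E (z h l)) = t g l + algebraMap B E (π g • z h l)
      rw [map_add, hTy, hTe]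
    rw [h2] at h1
    exact h1
  have hTmul : ∀ g h : Γ, T (g * h) = (T g).comp (T h) := by
    intro g h
    refine huniq E _ _ (fun x => ?_) (fun j => ?_)
    · show T (g * h) (algebraMap B E x) = T g (T h (algebraMap B E x))
      rw [hTe, hTe, hTe, map_mul, mul_smul]
    · show T (g * h) (y j) = T g (T h (y j))
      rw [hTy, hTy, hTt]
      show vA (M (π (g * h))⁻¹) (y + fun j => algebraMap B E (z (g * h) j)) j = _
      have h1 : (fun j => algebraMap B E (z (g * h) j)) =
          (fun j => algebraMap B E (z g j)) +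
            vA (M (π g)) (fun l => algebraMap B E (π g • z h l)) := by
        rw [← OVX_vA_map (algebraMap B E)]
        funext l
        have h2 : z (g * h) l = z g l + vA (M (π g)) (π g • z h) l := congrFun (hz.mul g h) l
        show algebraMap B E (z (g * h) l) = algebraMap B E (z g l) +
          algebraMap B E (vA (M (π g)) (fun l => π g • z h l) l)
        rw [h2, map_add]
        rfl
      have h3 : (M (π (g * h))⁻¹) = M (π h)⁻¹ * M (π g)⁻¹ := by
        rw [← map_mul, map_mul π, mul_inv_rev]
      rw [h1, h3, OVX_vA_mul hpE, ← add_assoc, OVX_vA_add, hMi]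
  have hTone : T 1 = RingHom.id E := by
    refine huniq E _ _ (fun x => ?_) (fun j => ?_)
    · rw [hTe, map_one, one_smul]
      rfl
    · rw [hTy]
      show vA (M (π 1)⁻¹) (y + fun j => algebraMap B E (z 1 j)) j = y j
      have h1 : z 1 = 0 := by
        have h2 := hz.ker 0
        rw [ofAdd_zero, map_one] at h2
        rw [h2]
        funext l
        exact map_zero (OVX_czR hpB)
      rw [h1, map_one, inv_one, map_one, OVX_vA_one hpE]
      show y j + algebraMap B E 0 = y j
      rw [map_zero, add_zero]
  -- elements of the kernel act by translations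
  have hTi : ∀ v : Multiplicative (Fin r → ZMod p),
      T (i v) = MulSemiringAction.toRingHom (Multiplicative (Fin r → ZMod p)) E v := by
    intro v
    have hπ : π (i v) = 1 := (hE.ker (i v)).2 ⟨v, rfl⟩
    refine huniq E _ _ (fun x => ?_) (fun j => ?_)
    · rw [hTe, hπ, one_smul]
      exact (hgal.comm v x).symm
    · rw [hTy]
      show vA (M (π (i v))⁻¹) (y + fun j => algebraMap B E (z (i v) j)) j = v • y j
      have h2 : z (i v) = fun j => cz B ((Multiplicative.toAdd v) j) :=
        hz.ker (Multiplicative.toAdd v)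
      rw [hπ, inv_one, map_one, OVX_vA_one hpE, h2]
      show y j + algebraMap B E (cz B ((Multiplicative.toAdd v) j)) = v • y j
      rw [OVX_map_cz]
      exact (hact (Multiplicative.toAdd v) j).symm
  let algRE : Algebra R E := ((algebraMap B E).comp (algebraMap R B)).toAlgebra
  let actE : MulSemiringAction Γ E :=
    { smul := fun g x => T g x
      one_smul := fun x => by
        show T 1 x = x
        rw [hTone]; rfl
      mul_smul := fun g h x => by
        show T (g * h) x = T g (T h x)
        rw [hTmul]; rfl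
      smul_zero := fun g => map_zero (T g)
      smul_add := fun g x x' => map_add (T g) x x'
      smul_one := fun g => map_one (T g)
      smul_mul := fun g x x' => map_mul (T g) x x' }
  have hact' : ∀ (g : Γ) (x : E), g • x = T g x := fun g x => rfl
  refine ⟨E, inferInstance, algRE, actE, algebraMap B E, y, ?_⟩
  refine
    { gal :=
        { comm := ?_
          inj := ?_
          inv := ?_
          unr := ?_ }
      e_alg := fun x => rfl
      e_inj := hgal.inj
      e_act := fun g x => hTe g x
      y_act := ?_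
      y_pow := hpow
      univ := fun T' _ f t' h => huniv T' f t' h
      uniq := fun T' _ F F' h h' => huniq T' F F' h h' }
  · intro g x
    show T g (algebraMap B E (algebraMap R B x)) = algebraMap B E (algebraMap R B x)
    rw [hTe, hB.comm]
  · show Function.Injective ((algebraMap B E).comp (algebraMap R B))
    exact hgal.inj.comp hB.inj
  · intro b hb
    obtain ⟨x, hx⟩ := hgal.inv b (fun v => by
      have h1 : T (i v) b = b := hb (i v)
      rw [hTi] at h1
      exact h1)
    obtain ⟨c, hc⟩ := hB.inv x (fun g => by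
      obtain ⟨g', rfl⟩ := hE.surj g
      apply hgal.inj
      rw [← hTe, hx]
      exact hb g')
    exact ⟨c, by show algebraMap B E (algebraMap R B c) = b; rw [hc, hx]⟩
  · intro σ hσ
    by_cases h : π σ = 1
    · obtain ⟨v, rfl⟩ := (hE.ker σ).1 h
      have hv : v ≠ 1 := by
        rintro rfl
        exact hσ (map_one i)
      have h1 := hgal.unr v hv
      have h2 : {x : E | ∃ b : E, x = b - i v • b} = {x : E | ∃ b : E, x = b - v • b} := by
        have h3 : ∀ b : E, i v • b = v • b := fun b => by
          rw [hact', hTi]; rfl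
        simp only [h3]
      rw [h2]
      exact h1
    · have h1 := hB.unr (π σ) h
      have h2 : Ideal.map (algebraMap B E) (Ideal.span {x : B | ∃ b : B, x = b - π σ • b}) = ⊤ := by
        rw [h1, Ideal.map_top]
      rw [Ideal.map_span] at h2
      rw [eq_top_iff, ← h2]
      refine Ideal.span_mono ?_
      rintro _ ⟨_, ⟨b, rfl⟩, rfl⟩
      exact ⟨algebraMap B E b, by rw [hact', hTe, map_sub]⟩
  · intro g
    have h1 : (g • y) = t g := by
      funext j
      exact hTy g j
    rw [h1]
    exact hMi' (π g) _

end MP7b0bad.MT
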