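import Pool.Agent.Work.MP_7b0bad_ag.MT.OAS
import Pool.Agent.Work.MP_7b0bad_ag.MT.OVX
import Pool.Agent.Work.MP_7b0bad_ag.MT.OCoh
import Pool.Agent.Work.MP_7b0bad_ag.MT.OLoc
import Pool.Agent.Work.MP_7b0bad_ag.MT.OTDen
import Pool.Agent.Work.MP_7b0bad_ag.MT.OFil
import Pool.Agent.Work.MP_7b0bad_ag.MT.ODisc
import Pool.Agent.Work.MP_7b0bad_ag.MT.OTra
import Pool.Agent.Work.MP_7b0bad_ag.MT.OEig
import Pool.Agent.Work.MP_7b0bad_ag.MT.OMin
import Pool.Agent.Work.MP_7b0bad_ag.MT.OStep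
import Pool.Agent.Work.MP_7b0bad_ag.MT.OTor
import Pool.Agent.Work.MP_7b0bad_ag.MT.OInf
import Pool.Agent.Work.MP_7b0bad_ag.MT.ORB
import Pool.Agent.Work.MP_7b0bad_ag.MT.ODns
import Pool.Agent.Work.MP_7b0bad_ag.MT.OPsp
import Pool.Agent.Work.MP_7b0bad_ag.MT.OLQ
import Pool.Agent.Work.MP_7b0bad_ag.MT.OKA
import Pool.Agent.Work.MP_7b0bad_ag.MT.ORt
import Pool.Agent.Work.MP_7b0bad_ag.MT.ORtI
import Pool.Agent.Work.MP_7b0bad_ag.MT.OSub
import Pool.Agent.Work.MP_7b0bad_ag.MT.OKum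
import Pool.Agent.Work.MP_7b0bad_ag.MT.MGrp
import Pool.Agent.Work.MP_7b0bad_ag.MT.MNorm
import Pool.Agent.Work.MP_7b0bad_ag.MT.MNormS
import Pool.Agent.Work.MP_7b0bad_ag.MT.MJ2
import Pool.Agent.Work.MP_7b0bad_ag.SV.JAll

set_option autoImplicit false

/-! # The outer torsor: assembly -/

namespace MP7b0bad.MT

theorem all_OVX : OVX := prf_OVX prf_OAS
theorem all_ODisc : ODisc := prf_ODisc prf_OLoc prf_OTDen prf_OFil
theorem all_OStep : OStep := prf_OStep all_OVX prf_OCoh all_ODisc prf_OTra prf_OEig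
theorem all_OTor : OTor := prf_OTor all_OStep prf_OMin
theorem all_OKum : OKum := prf_OKum prf_OKA prf_ODns prf_ORt prf_ORtI
theorem all_MNormS : MNormS := prf_MNormS prf_MNorm

theorem MJ2_of (hMPT : MPT) (hMDes : MDes) (hMTDom : MTDom) : MJ2 :=
  prf_MJ2 hMPT hMDes hMTDom all_MNormS all_OTor prf_OInf prf_ORB prf_OPsp prf_OLQ all_OKum prf_OSub
    prf_MGrp all_QDiscs all_QDF

end MP7b0bad.MT
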