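import Pool.Agent.Work.MP_7b0bad_ag.MT.OTDen

set_option autoImplicit false

/-! Item OGen: invariants are surjective for equivariant homomorphisms of Galois algebras. -/

namespace MP7b0bad.MT

open Polynomial

theorem prf_OGen : OGen := by
  intro R' _ p _ r Γb D _ _ _ _ δ M C L _ _ _ _ _ _ Φ hp hC hL hΦ hΦδ w hw
  obtain ⟨n, u, hu, hall⟩ := prf_OTDen R' p r Γb M C hp hC
  obtain ⟨κ, hκ⟩ := hall R' (RingHom.id R') D δ L Φ hL hΦ hΦδ w hw
  refine ⟨fun j => ∑ l, algebraMap R' C (κ l) * u l j, fun g => ?_, fun j => ?_⟩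
  · funext i
    show ∑ j, cz C (M g i j) * (g • ∑ l, algebraMap R' C (κ l) * u l j) =
      ∑ l, algebraMap R' C (κ l) * u l i
    have h1 : ∀ j, cz C (M g i j) * (g • ∑ l, algebraMap R' C (κ l) * u l j) =
        ∑ l, algebraMap R' C (κ l) * (cz C (M g i j) * (g • u l j)) := by
      intro j
      rw [Finset.smul_sum, Finset.mul_sum]
      refine Finset.sum_congr rfl fun l _ => ?_
      rw [smul_mul', hC.comm]
      ring
    simp only [h1]
    rw [Finset.sum_comm]
    refine Finset.sum_congr rfl fun l _ => ?_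
    rw [← Finset.mul_sum]
    congr 1
    exact congrFun (hu l g) i
  · rw [hκ j, map_sum]
    refine Finset.sum_congr rfl fun l _ => ?_
    rw [map_mul, hΦ]

end MP7b0bad.MT
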