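import Pool.Agent.Work.MP_7b0bad_ag.MT.TStmts
import Pool.Agent.Work.MP_7b0bad_ag.Bd.B08

set_option autoImplicit false

/-!
Part B of OInf: total ramification of the local algebra at infinity from `TRA`.
-/

namespace MP7b0bad.MT

open Polynomial

/-- a Laurent series with pole order `d` prime to `p` is, up to `h^p - h`, a polynomial of degree `d`
in `1/υ` -/
theorem OInfB_small (p : ℕ) [Fact p.Prime] (κ : Type) [Field κ] [CharP κ p]
    (a : LaurentSeries κ) (d : ℕ) (had : a.order = -(d : ℤ)) (hd : ¬ p ∣ d) :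
    ∃ (h : LaurentSeries κ) (f : κ[X]), f.natDegree = d ∧
      a - (h ^ p - h) = f.eval₂ (HahnSeries.C : κ →+* LaurentSeries κ)
        (HahnSeries.single (-1 : ℤ) (1 : κ)) := by
  have hd0 : d ≠ 0 := by
    rintro rfl
    exact hd (dvd_zero p)
  have ha0 : a ≠ 0 := by
    rintro rfl
    rw [HahnSeries.order_zero] at had
    omega
  have hlead : a.coeff (-(d : ℤ)) ≠ 0 := by
    rw [← had]
    exact fun h => ha0 (HahnSeries.coeff_order_eq_zero.1 h)
  set f : κ[X] := ∑ j ∈ Finset.range (d + 1), C (a.coeff (-(j : ℤ))) * X ^ j with hf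
  have hcf : ∀ m : ℕ, f.coeff m = if m ≤ d then a.coeff (-(m : ℤ)) else 0 := by
    intro m
    rw [hf, finsetSum_coeff]
    simp only [coeff_C_mul, coeff_X_pow, mul_ite, mul_one, mul_zero]
    rw [Finset.sum_ite_eq]
    simp only [Finset.mem_range, Nat.lt_succ_iff]
  have hdeg : f.natDegree = d := by
    apply le_antisymm
    · apply natDegree_le_iff_coeff_eq_zero.2
      intro m hm
      rw [hcf, if_neg (by omega)]
    · apply le_natDegree_of_ne_zero
      rw [hcf, if_pos le_rfl]
      exact hlead
  have hev : f.eval₂ (HahnSeries.C : κ →+* LaurentSeries κ)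
      (HahnSeries.single (-1 : ℤ) (1 : κ)) =
      ∑ j ∈ Finset.range (d + 1), HahnSeries.single (-(j : ℤ)) (a.coeff (-(j : ℤ))) := by
    rw [hf, eval₂_finsetSum]
    refine Finset.sum_congr rfl fun j _ => ?_
    rw [eval₂_mul, eval₂_C, eval₂_pow, eval₂_X, HahnSeries.single_pow, HahnSeries.C_apply,
      HahnSeries.single_mul_single]
    simp
  have hco : ∀ t : ℤ, t ≤ 0 → (a - f.eval₂ (HahnSeries.C : κ →+* LaurentSeries κ)
      (HahnSeries.single (-1 : ℤ) (1 : κ))).coeff t = 0 := by
    intro t ht
    rw [HahnSeries.coeff_sub, hev, HahnSeries.coeff_sum]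
    obtain ⟨m, rfl⟩ : ∃ m : ℕ, t = -(m : ℤ) := ⟨t.natAbs, by omega⟩
    simp only [HahnSeries.coeff_single]
    by_cases hm : m ≤ d
    · rw [Finset.sum_eq_single m]
      · simp
      · intro j _ hj
        rw [if_neg]
        omega
      · intro hh
        exact absurd (Finset.mem_range.2 (by omega)) hh
    · rw [Finset.sum_eq_zero, sub_zero]
      · apply HahnSeries.coeff_eq_zero_of_lt_order
        rw [had]
        omega
      · intro j hj
        rw [if_neg]
        have := Finset.mem_range.1 hj
        omega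
  obtain ⟨h, -, hh⟩ := prf_QSm0 κ p _ hco
  refine ⟨h, f, hdeg, ?_⟩
  rw [← hh]
  ring

/-- Total ramification of `E` from `TRA`, given the embedding `ε : κ((υ)) → E`. -/
theorem OInfB_ttr (p : ℕ) [Fact p.Prime] (κ : Type) [Field κ] [CharP κ p] (C : Type) [Group C]
    (A0 : Type) [CommRing A0] (jI : A0 →+* LaurentSeries κ) (c : C)
    (n : ℕ) (ζ : κ) (σ rot : LaurentSeries κ →+* LaurentSeries κ) (hn : 0 < n)
    (hσ : SubN n σ)
    (hrot : ∀ (a : LaurentSeries κ) (t : ℤ), (rot a).coeff t = ζ ^ (-t) * a.coeff t)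
    (Γ : Type) [Group Γ] (q : Γ →* C) (A : Type) [CommRing A]
    [MulSemiringAction Γ A] (e : A0 →+* A) (hT : TRA p q e jI)
    (G₀ : Type) [Group G₀] (δ : G₀ →* Γ) (P : Subgroup G₀) (c₀ : G₀)
    (hδ : Function.Injective δ) (hr : δ.range = (Subgroup.zpowers c).comap q)
    (hP : P = q.ker.comap δ)
    (E : Type) [CommRing E] [Algebra (LaurentSeries κ) E] [MulSemiringAction G₀ E]
    (j : A →+* E) (ε : LaurentSeries κ →+* E)
    (hεσ : ∀ x, ε (σ x) = algebraMap (LaurentSeries κ) E x)
    (hjε : ∀ x : A0, j (e x) = ε (jI x))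
    (hj : ∀ (g : G₀) (x : A), j (δ g • x) = g • j x)
    (hεP : ∀ g ∈ P, ∀ x, g • ε x = ε x) (hεc : ∀ x, c₀ • ε x = ε (rot x)) :
    TTR κ p n ζ P c₀ E (ε (HahnSeries.single (-1 : ℤ) (1 : κ))) := by
  have hp : p.Prime := Fact.out
  have hchar : (p : E) = 0 := by
    have h1 : (p : LaurentSeries κ) = 0 := by
      have h2 : (HahnSeries.C : κ →+* LaurentSeries κ) (p : κ) = (p : LaurentSeries κ) :=
        map_natCast _ p
      rw [← h2, CharP.cast_eq_zero κ p, map_zero]
    have h3 := congrArg ε h1
    simpa using h3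
  have hεC : ε.comp (HahnSeries.C : κ →+* LaurentSeries κ) =
      (algebraMap (LaurentSeries κ) E).comp (HahnSeries.C : κ →+* LaurentSeries κ) := by
    ext x
    rw [RingHom.comp_apply, RingHom.comp_apply, ← hεσ, hσ.c]
  have hσX : σ (HahnSeries.single (1 : ℤ) (1 : κ)) = HahnSeries.single (n : ℤ) (1 : κ) := by
    ext t
    by_cases ht : (n : ℤ) ∣ t
    · obtain ⟨s, rfl⟩ := ht
      rw [hσ.coeff]
      by_cases hs : s = 1
      · subst hs
        rw [mul_one, HahnSeries.coeff_single_same, HahnSeries.coeff_single_same]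
      · rw [HahnSeries.coeff_single_of_ne hs, HahnSeries.coeff_single_of_ne]
        intro h
        apply hs
        have hn' : (n : ℤ) ≠ 0 := by omega
        exact mul_left_cancel₀ hn' (by rw [h, mul_one])
    · rw [hσ.coeff0 _ _ ht, HahnSeries.coeff_single_of_ne]
      rintro rfl
      exact ht dvd_rfl
  refine ⟨?_, ?_, ?_, ?_⟩
  · rw [← hεσ, hσX, ← map_pow, ← map_mul, HahnSeries.single_pow, HahnSeries.single_mul_single]
    have h1 : n • (-1 : ℤ) + (n : ℤ) = 0 := by simp
    rw [h1, one_pow, mul_one]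
    exact map_one ε
  · intro g hg
    exact hεP g hg _
  · rw [hεc, ← hεσ, hσ.c, ← map_mul]
    congr 1
    ext t
    rw [hrot, HahnSeries.C_mul_eq_smul, HahnSeries.coeff_smul]
    by_cases ht : t = -1
    · subst ht
      simp
    · rw [HahnSeries.coeff_single_of_ne ht]
      simp
  · intro l hl
    -- the isomorphism `P ≃ ker q`
    have hmem : ∀ g : P, δ (g : G₀) ∈ q.ker := by
      intro g
      have h0 : ∀ x : G₀, x ∈ P → x ∈ q.ker.comap δ := fun x hx => hP ▸ hx
      exact h0 _ g.2
    let δP : P →* q.ker :=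
      { toFun := fun g => ⟨δ (g : G₀), hmem g⟩
        map_one' := by
          apply Subtype.ext
          simp
        map_mul' := by
          intro a b
          apply Subtype.ext
          simp }
    have hinj : Function.Injective δP := by
      intro a b hab
      apply Subtype.ext
      apply hδ
      exact congrArg Subtype.val hab
    have hsurj : Function.Surjective δP := by
      intro x
      have h1 : (x : Γ) ∈ δ.range := by
        rw [hr, Subgroup.mem_comap, MonoidHom.mem_ker.1 x.2]
        exact Subgroup.one_mem _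
      obtain ⟨g, hg⟩ := h1
      have h2 : g ∈ P := by
        rw [hP, Subgroup.mem_comap, hg]
        exact x.2
      exact ⟨⟨g, h2⟩, Subtype.ext hg⟩
    let φ : P ≃* q.ker := MulEquiv.ofBijective δP ⟨hinj, hsurj⟩
    have hφ : ∀ g : P, φ g = δP g := fun g => rfl
    have hl' : l.comp φ.symm.toMonoidHom ≠ 1 := by
      intro h
      apply hl
      ext g
      have h1 := DFunLike.congr_fun h (φ g)
      simp only [MonoidHom.comp_apply, MulEquiv.coe_toMonoidHom, MulEquiv.symm_apply_apply,
        MonoidHom.one_apply] at h1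
      rw [h1]
      rfl
    obtain ⟨y, b, d, hy, hyb, hdp, hbd⟩ := hT _ hl'
    obtain ⟨h, f, hfd, hf⟩ := OInfB_small p κ (jI b) d hbd hdp
    refine ⟨j y - ε h, f, ?_, ?_, ?_⟩
    · intro g
      have h1 := hy (φ g)
      rw [smul_sub, hεP g g.2, ← hj]
      have h2 : ((φ g : q.ker) : Γ) = δ (g : G₀) := rfl
      rw [← h2, h1, map_add, map_natCast]
      simp only [MonoidHom.comp_apply, MulEquiv.coe_toMonoidHom, MulEquiv.symm_apply_apply]
      ring
    · have hsub : (j y - ε h) ^ p = (j y) ^ p - (ε h) ^ p := by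
        by_cases hE : Nontrivial E
        · have : CharP E p := by
            obtain ⟨r, hr'⟩ := CharP.exists E
            have h1 : r ∣ p := (CharP.cast_eq_zero_iff E r p).1 hchar
            rcases (Nat.dvd_prime hp).1 h1 with h2 | h2
            · exfalso
              have h3 : ((1 : ℕ) : E) = 0 := by
                rw [← h2]
                exact CharP.cast_eq_zero E r
              rw [Nat.cast_one] at h3
              exact one_ne_zero h3
            · rw [← h2]
              exact hr'
          exact sub_pow_char (j y) (ε h)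
        · have := not_nontrivial_iff_subsingleton.1 hE
          exact Subsingleton.elim _ _
      have h1 : (j y) ^ p - j y = ε (jI b) := by
        rw [← hjε, ← hyb, map_sub, map_pow]
      have h2 : ε (jI b - (h ^ p - h)) = f.eval₂ (ε.comp (HahnSeries.C : κ →+* LaurentSeries κ))
          (ε (HahnSeries.single (-1 : ℤ) (1 : κ))) := by
        rw [hf, Polynomial.hom_eval₂]
      rw [← hεC, ← h2, hsub, map_sub, map_sub, map_pow, ← h1]
      ring
    · rw [hfd]
      exact hdp

end MP7b0bad.MT
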