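import Pool.Agent.Work.MP_7b0bad_ag.MT.TStmts
import Pool.Agent.Work.MP_7b0bad_ag.Bd.B09

set_option autoImplicit false

/-!
# Join of covers with tame inertia, item OKum: the tame torsor
-/

namespace MP7b0bad.MT

open Polynomial

/-- `κ (C (C z))` at the discs -/
theorem OKum_ev {k : Type} [Field k] {W : k[X]} {η : Fin 2 → KW k}
    (b : RB k 2 (VT k W) (fun i => WF k (η i)))
    (hρ : ∀ i (f : (LaurentSeries k)[X]), b.ρ i (b.κ f) = toP k (f.eval₂ (KKW k) (η i)))
    (i : Fin 2) (c : LaurentSeries k) : b.ρ i (b.κ (C c)) = toP k (KKW k c) := by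
  rw [hρ, eval₂_C]

theorem OKum_KKWs {k : Type} [Field k] (t : ℤ) (z : k) :
    toP k (KKW k (HahnSeries.single t z)) = HahnSeries.single t (LaurentPolynomial.C z) := by
  have h1 : KKW k (HahnSeries.single t z) = HahnSeries.single t (Polynomial.C z : k[X]) := by
    change HahnSeries.map (HahnSeries.single t z) (Polynomial.C : k →+* k[X]) =
      HahnSeries.single t (Polynomial.C z : k[X])
    refine HahnSeries.ext (funext fun n => ?_)
    rw [HahnSeries.map_coeff, HahnSeries.coeff_single, HahnSeries.coeff_single]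
    split_ifs
    · rfl
    · exact map_zero _
  rw [h1]
  refine HahnSeries.ext (funext fun n => ?_)
  unfold toP
  rw [lmap_coeff, HahnSeries.coeff_single, HahnSeries.coeff_single]
  split_ifs
  · simp
  · exact map_zero _

theorem OKum_W {k : Type} [Field k] {W : k[X]} {a : Fin 2 → k} {η : Fin 2 → KW k}
    (h : DiscsT k 2 W a η) (i : Fin 2) : W.eval (a i) = 0 := by
  have h1 := h.root i
  have h2 := (QDenT_E k W (a i) (η i) (h.neg i) (h.zero i)).2
  unfold VT at h1
  rw [eval₂_mul, eval₂_C, eval₂_map] at h1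
  have h3 : KKW k (HahnSeries.single (-1 : ℤ) (1 : k)) =
      HahnSeries.single (-1 : ℤ) (1 : k[X]) := by
    change HahnSeries.map (HahnSeries.single (-1 : ℤ) (1 : k)) (Polynomial.C : k →+* k[X]) = _
    refine HahnSeries.ext (funext fun n => ?_)
    rw [HahnSeries.map_coeff, HahnSeries.coeff_single, HahnSeries.coeff_single]
    split_ifs
    · exact map_one _
    · exact map_zero _
  rw [h3] at h1
  have h4 : (HahnSeries.single (1 : ℤ) (1 : k[X]) * (HahnSeries.single (-1 : ℤ) (1 : k[X]) *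
      W.eval₂ ((KKW k).comp (HahnSeries.C : k →+* LaurentSeries k)) (η i)) : KW k).coeff 0 =
      (HahnSeries.single (1 : ℤ) (1 : k[X]) * HahnSeries.C X : KW k).coeff 0 := by rw [h1]
  rw [← mul_assoc, HahnSeries.single_mul_single] at h4
  have h5 : (HahnSeries.single ((1 : ℤ) + -1) ((1 : k[X]) * 1) : KW k) = 1 := by
    rw [mul_one, show (1 : ℤ) + -1 = 0 from by norm_num]
    rfl
  rw [h5, one_mul, h2] at h4
  have h6 : ((HahnSeries.single (1 : ℤ) (1 : k[X]) * HahnSeries.C X : KW k)).coeff 0 = 0 := by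
    rw [HahnSeries.C_apply, HahnSeries.single_mul_single, HahnSeries.coeff_single]
    norm_num
  rw [h6] at h4
  exact Polynomial.C_eq_zero.1 h4

theorem OKum_unit {k : Type} [Field k] {W : k[X]} {a : Fin 2 → k} {η : Fin 2 → KW k}
    (h : DiscsT k 2 W a η) (b : RB k 2 (VT k W) (fun i => WF k (η i))) (i : Fin 2) :
    IsUnit (b.κ (X - C (HahnSeries.C (a i)))) := by
  have h1 : (X - C (a i)) ∣ W := Polynomial.dvd_iff_isRoot.2 (OKum_W h i)
  obtain ⟨q, hq⟩ := h1
  have h2 : VT k W = (X - C (HahnSeries.C (a i))) *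
      (C (HahnSeries.single (-1 : ℤ) (1 : k)) * q.map (HahnSeries.C : k →+* LaurentSeries k)) := by
    unfold VT
    conv_lhs => rw [hq]
    rw [Polynomial.map_mul, Polynomial.map_sub, Polynomial.map_X, Polynomial.map_C]
    ring
  have h3 := b.unit
  have h4 : b.κ (VT k W) = b.κ (X - C (HahnSeries.C (a i))) *
      b.κ (C (HahnSeries.single (-1 : ℤ) (1 : k)) *
        q.map (HahnSeries.C : k →+* LaurentSeries k)) := by
    rw [← map_mul]
    exact congrArg b.κ h2
  rw [h4] at h3
  exact isUnit_of_mul_isUnit_left h3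

theorem OKum_rot_single {k : Type} [Field k] {ζ : k}
    {rot : LaurentSeries (LaurentSeries k) →+* LaurentSeries (LaurentSeries k)}
    (hrot : ∀ (x : LaurentSeries (LaurentSeries k)) (t : ℤ),
      (rot x).coeff t = (HahnSeries.C ζ : LaurentSeries k) ^ (-t) * x.coeff t) (t : ℤ) :
    rot (HahnSeries.single t (1 : LaurentSeries k)) =
      HahnSeries.C ((HahnSeries.C ζ : LaurentSeries k) ^ (-t)) *
        HahnSeries.single t (1 : LaurentSeries k) := by
  refine HahnSeries.ext (funext fun s => ?_)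
  rw [hrot, HahnSeries.C_mul_eq_smul, HahnSeries.coeff_smul, HahnSeries.coeff_single]
  split_ifs with hs
  · rw [hs, smul_eq_mul]
  · rw [mul_zero, smul_zero]

theorem OKum_rot_sub {k : Type} [Field k] {ζ : k} {N : ℕ} (hζ : IsPrimitiveRoot ζ N)
    {σ rot : LaurentSeries (LaurentSeries k) →+* LaurentSeries (LaurentSeries k)}
    (hσ : SubN N σ)
    (hrot : ∀ (x : LaurentSeries (LaurentSeries k)) (t : ℤ),
      (rot x).coeff t = (HahnSeries.C ζ : LaurentSeries k) ^ (-t) * x.coeff t)
    (x : LaurentSeries (LaurentSeries k)) : rot (σ x) = σ x := by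
  refine HahnSeries.ext (funext fun t => ?_)
  rw [hrot]
  by_cases ht : (N : ℤ) ∣ t
  · obtain ⟨s, hs⟩ := ht
    have h1 : (HahnSeries.C ζ : LaurentSeries k) ^ N = 1 := by
      rw [← map_pow, hζ.pow_eq_one, map_one]
    have h2 : (HahnSeries.C ζ : LaurentSeries k) ^ (-t) = 1 := by
      rw [hs, neg_mul_eq_mul_neg, zpow_mul, zpow_natCast, h1, one_zpow]
    rw [h2, one_mul]
  · rw [hσ.coeff0 x t ht, mul_zero]


/-- the order of `σ x` -/
theorem OKum_order {k : Type} [Field k] {N : ℕ}
    {σ : LaurentSeries (LaurentSeries k) →+* LaurentSeries (LaurentSeries k)}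
    (hσ : SubN N σ) (hN : 0 < N) {x : LaurentSeries (LaurentSeries k)} (hx : x ≠ 0) :
    σ x ≠ 0 ∧ (σ x).order = N * x.order := by
  have h0 : σ x ≠ 0 := by
    intro h
    have h1 := hσ.coeff x x.order
    rw [h, HahnSeries.coeff_zero] at h1
    exact hx (HahnSeries.coeff_order_eq_zero.1 h1.symm)
  refine ⟨h0, le_antisymm ?_ ?_⟩
  · apply HahnSeries.order_le_of_coeff_ne_zero
    rw [hσ.coeff]
    exact fun h => hx (HahnSeries.coeff_order_eq_zero.1 h)
  · by_contra hlt
    push Not at hlt
    have h1 : (σ x).coeff (σ x).order ≠ 0 := fun h => h0 (HahnSeries.coeff_order_eq_zero.1 h)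
    by_cases hd : (N : ℤ) ∣ (σ x).order
    · obtain ⟨s, hs⟩ := hd
      rw [hs, hσ.coeff] at h1
      rw [hs] at hlt
      have h2 : s < x.order := by
        have : (0 : ℤ) < N := by exact_mod_cast hN
        exact lt_of_mul_lt_mul_left hlt this.le
      exact h1 (HahnSeries.coeff_eq_zero_of_lt_order h2)
    · exact h1 (hσ.coeff0 x _ hd)

theorem OKum_order_pow {κ : Type} [Field κ] {x : LaurentSeries κ} (hx : x ≠ 0) (n : ℕ) :
    x ^ n ≠ 0 ∧ (x ^ n).order = n * x.order := by
  induction n with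
  | zero => simp
  | succ n ih =>
    refine ⟨pow_ne_zero _ hx, ?_⟩
    rw [pow_succ, HahnSeries.order_mul ih.1 hx, ih.2]
    push_cast
    ring

theorem OKum_gen {n : Fin 2 → ℕ} (hn : ∀ i, 0 < n i) (g : CT n) :
    g = cT n 0 ^ (Multiplicative.toAdd (g 0)).val * cT n 1 ^ (Multiplicative.toAdd (g 1)).val := by
  have : ∀ i, NeZero (n i) := fun i => ⟨(hn i).ne'⟩
  funext i
  have hv : ∀ (m : ℕ) [NeZero m] (x : Multiplicative (ZMod m)),
      (Multiplicative.ofAdd (1 : ZMod m)) ^ (Multiplicative.toAdd x).val = x := by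
    intro m _ x
    rw [← ofAdd_nsmul, nsmul_eq_mul, mul_one, ZMod.natCast_zmod_val]
    rfl
  unfold cT
  rw [Pi.mul_apply, Pi.pow_apply, Pi.pow_apply]
  fin_cases i
  · simp only [Fin.zero_eta, Fin.isValue, Pi.mulSingle_eq_same]
    rw [Pi.mulSingle_eq_of_ne (show (0 : Fin 2) ≠ 1 by decide), one_pow, mul_one]
    exact (hv (n 0) (g 0)).symm
  · simp only [Fin.mk_one, Fin.isValue, Pi.mulSingle_eq_same]
    rw [Pi.mulSingle_eq_of_ne (show (1 : Fin 2) ≠ 0 by decide), one_pow, one_mul]
    exact (hv (n 1) (g 1)).symm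

theorem OKum_cT_pow {n : Fin 2 → ℕ} (i : Fin 2) : cT n i ^ n i = 1 := by
  unfold cT
  rw [← Pi.mulSingle_pow, ← ofAdd_nsmul, nsmul_eq_mul, CharP.cast_eq_zero, zero_mul, ofAdd_zero,
    Pi.mulSingle_one]

theorem prf_OKum (hOKA : OKA) (hODns : ODns) (hORt : ORt) (hORtI : ORtI) : OKum := by
  intro k _ _ p _ _ W a η hD b hρ m N n ζ σ rot hn hnp hnm hN hζ hσ hrot
  classical
  have hp : p.Prime := Fact.out
  have hdvd : ∀ i, n i ∣ N := by
    intro i
    rw [hN]
    fin_cases i
    · exact Nat.dvd_lcm_left _ _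
    · exact Nat.dvd_lcm_right _ _
  have hN0 : 0 < N := by
    rw [hN]
    exact Nat.lcm_pos (hn 0) (hn 1)
  have hpN : ¬ p ∣ N := by
    intro h
    rw [hN] at h
    have h1 : p ∣ n 0 * n 1 := h.trans (Nat.lcm_dvd_mul _ _)
    rcases (Nat.Prime.dvd_mul hp).1 h1 with h2 | h2
    · exact hnp 0 h2
    · exact hnp 1 h2
  have hnk : ∀ i, (n i : k) ≠ 0 := by
    intro i h
    exact hnp i ((CharP.cast_eq_zero_iff k p (n i)).1 h)
  set kR : k →+* b.R := b.κ.comp ((C : LaurentSeries k →+* (LaurentSeries k)[X]).comp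
      (HahnSeries.C : k →+* LaurentSeries k)) with hkR
  have hkRa : ∀ z : k, kR z = b.κ (C (HahnSeries.C z)) := fun z => rfl
  have : Nontrivial b.R := inferInstance
  set f : Fin 2 → b.R := fun i => b.κ (X - C (HahnSeries.C (a i))) with hf
  set e : Fin 2 → ℕ := fun i => N / n i with he
  have hne : ∀ i, n i * e i = N := fun i => Nat.mul_div_cancel' (hdvd i)
  have he0 : ∀ i, 0 < e i := fun i => Nat.div_pos (Nat.le_of_dvd hN0 (hdvd i)) (hn i)
  have hζi : ∀ i, IsPrimitiveRoot (ζ ^ e i) (n i) := fun i =>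
    hζ.pow hN0 (by rw [mul_comm, hne i])
  obtain ⟨A0, _, _, _, s, hgal, hs, hact, huniv, huniq⟩ := hOKA b.R n f (fun i => kR (ζ ^ e i)) hn
    (fun i => by
      have h1 : ((n i : k)) ≠ 0 := hnk i
      have h2 : IsUnit (kR (n i : k)) := (isUnit_iff_ne_zero.2 h1).map kR
      rwa [map_natCast] at h2)
    (fun i => OKum_unit hD b i)
    (fun i => by rw [← map_pow, (hζi i).pow_eq_one, map_one])
    (fun i j hj hjn => by
      have h1 : (1 : k) - (ζ ^ e i) ^ j ≠ 0 := by
        rw [sub_ne_zero]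
        exact fun h => (hζi i).pow_ne_one_of_pos_of_lt hj.ne' hjn h.symm
      have h2 : IsUnit (kR (1 - (ζ ^ e i) ^ j)) := (isUnit_iff_ne_zero.2 h1).map kR
      rwa [map_sub, map_one, map_pow] at h2)
  -- roots at infinity
  have hv := fun i => hORtI (LaurentSeries k) (HahnSeries.C (a i)) (n i) N σ hN0 (hdvd i)
    (by
      intro h
      apply hnk i
      have h1 : (HahnSeries.C (n i : k) : LaurentSeries k) = 0 := by rw [map_natCast]; exact h
      exact (HahnSeries.C_injective (Γ := ℤ) (R := k)) (by rw [h1, map_zero])) hσ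
  choose v hv1 hv2 hv3 using hv
  set tI : Fin 2 → LaurentSeries (LaurentSeries k) := fun i =>
    HahnSeries.single (-((e i : ℕ) : ℤ)) (1 : LaurentSeries k) * σ (v i) with htI
  obtain ⟨jI, hjI1, hjI2⟩ := huniv (LaurentSeries (LaurentSeries k)) (σ.comp b.ρI) tI (by
    intro i
    rw [RingHom.comp_apply, hf]
    simp only
    rw [b.ρI_κ, hv1 i])
  have hjκ : ∀ g : (LaurentSeries k)[X], jI (algebraMap b.R A0 (b.κ g)) =
      σ (atInf (LaurentSeries k) g) := by
    intro g
    rw [hjI1, RingHom.comp_apply, b.ρI_κ]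
  have hatC : ∀ c : LaurentSeries k, atInf (LaurentSeries k) (C c) = HahnSeries.C c := by
    intro c
    unfold atInf
    rw [coe_eval₂RingHom, eval₂_C]
  have hatX : atInf (LaurentSeries k) X = HahnSeries.single (-1 : ℤ) (1 : LaurentSeries k) := by
    unfold atInf
    rw [coe_eval₂RingHom, eval₂_X]
  have hjC : ∀ c : LaurentSeries k, jI (algebraMap b.R A0 (b.κ (C c))) = HahnSeries.C c := by
    intro c
    rw [hjκ, hatC, hσ.c]
  have hrotN : ∀ x, rot (σ x) = σ x := OKum_rot_sub hζ hσ hrot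
  have hval1 : ∀ i, kR (ζ ^ e i) ^ (Multiplicative.toAdd ((cT n 0 * cT n 1) i)).val =
      kR (ζ ^ e i) := by
    intro i
    have : NeZero (n i) := ⟨(hn i).ne'⟩
    have h1 : (cT n 0 * cT n 1) i = Multiplicative.ofAdd (1 : ZMod (n i)) := by
      unfold cT
      rw [Pi.mul_apply]
      fin_cases i
      · simp only [Fin.zero_eta, Fin.isValue, Pi.mulSingle_eq_same]
        rw [Pi.mulSingle_eq_of_ne (show (0 : Fin 2) ≠ 1 by decide), mul_one]
      · simp only [Fin.mk_one, Fin.isValue, Pi.mulSingle_eq_same]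
        rw [Pi.mulSingle_eq_of_ne (show (1 : Fin 2) ≠ 0 by decide), one_mul]
    rw [h1, toAdd_ofAdd]
    rcases Nat.lt_or_ge 1 (n i) with h2 | h2
    · have : Fact (1 < n i) := ⟨h2⟩
      rw [ZMod.val_one, pow_one]
    · have h3 : n i = 1 := le_antisymm h2 (hn i)
      have h4 := (hζi i).pow_eq_one
      rw [h3, pow_one] at h4
      rw [h4, map_one, one_pow]
  refine ⟨A0, inferInstance, inferInstance, inferInstance, jI, ?_, ?_, ?_, ?_⟩
  · -- tame data
    refine ⟨?_, hODns k p 2 W a η hD (by norm_num) b hρ, ?_, hgal, ?_, ?_, ?_, ?_⟩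
    · have h1 : (p : b.R) = b.κ (C (HahnSeries.C (p : k))) := by
        rw [map_natCast, map_natCast, map_natCast]
      rw [h1, CharP.cast_eq_zero, map_zero, map_zero, map_zero]
    · intro i
      rw [OKum_ev b hρ, OKum_KKWs, map_one]
    · exact HahnSeries.single_ne_zero one_ne_zero
    · exact hjC _
    · intro c
      exact hjC _
    · -- eigen elements
      intro χ d₀
      have hχ : ∀ i, ∃ c : ℕ, c < n i ∧ ((χ (cT n i) : kˣ) : k) = (ζ ^ e i) ^ c := by
        intro i
        have h1 : ((χ (cT n i) : kˣ) : k) ^ n i = 1 := by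
          rw [← Units.val_pow_eq_pow_val, ← map_pow, OKum_cT_pow, map_one, Units.val_one]
        have : NeZero (n i) := ⟨(hn i).ne'⟩
        obtain ⟨c, hc, hc'⟩ := (hζi i).eq_pow_of_pow_eq_one h1
        exact ⟨c, hc, hc'.symm⟩
      choose c hc1 hc2 using hχ
      -- choose j
      have hj : ∃ j : ℕ, d₀ ≤ j ∧ ¬ p ∣ (c 0 * e 0 + c 1 * e 1 + j * N) := by
        by_contra hcon
        push Not at hcon
        have h1 := hcon d₀ le_rfl
        have h2 := hcon (d₀ + 1) (by omega)
        have h3 : c 0 * e 0 + c 1 * e 1 + (d₀ + 1) * N = (c 0 * e 0 + c 1 * e 1 + d₀ * N) + N := by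
          ring
        rw [h3] at h2
        exact hpN ((Nat.dvd_add_right h1).1 h2)
      obtain ⟨j, hj1, hj2⟩ := hj
      refine ⟨s 0 ^ c 0 * s 1 ^ c 1 * algebraMap b.R A0 (b.κ X) ^ j,
        c 0 * e 0 + c 1 * e 1 + j * N, ?_, ?_, hj2, ?_⟩
      · intro g
        rw [smul_mul', smul_mul', smul_pow', smul_pow', smul_pow', hact, hact, hgal.comm]
        have h1 : ((χ g : kˣ) : k) = (ζ ^ e 0) ^ (c 0 * (Multiplicative.toAdd (g 0)).val) *
            (ζ ^ e 1) ^ (c 1 * (Multiplicative.toAdd (g 1)).val) := by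
          conv_lhs => rw [OKum_gen hn g]
          rw [map_mul, map_pow, map_pow, Units.val_mul, Units.val_pow_eq_pow_val,
            Units.val_pow_eq_pow_val, hc2, hc2, ← pow_mul (ζ ^ e 0), ← pow_mul (ζ ^ e 1)]
        rw [h1]
        simp only [map_mul, map_pow, mul_pow]
        ring
      · calc d₀ ≤ j := hj1
          _ ≤ j * N := Nat.le_mul_of_pos_right _ hN0
          _ ≤ _ := Nat.le_add_left _ _
      · rw [map_mul, map_mul, map_pow, map_pow, map_pow, hjI2, hjI2, hjκ, hatX]
        have hs1 : ∀ t : ℤ, HahnSeries.single t (1 : LaurentSeries k) ≠ 0 := fun t =>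
          HahnSeries.single_ne_zero one_ne_zero
        have ht : ∀ i, tI i ≠ 0 ∧ (tI i).order = -((e i : ℕ) : ℤ) := by
          intro i
          have h1 := OKum_order hσ hN0 (hv2 i)
          refine ⟨mul_ne_zero (hs1 _) h1.1, ?_⟩
          rw [htI]
          simp only
          rw [HahnSeries.order_mul (hs1 _) h1.1, h1.2, hv3 i, HahnSeries.order_single one_ne_zero]
          ring
        have hX := OKum_order hσ hN0 (hs1 (-1))
        rw [HahnSeries.order_single one_ne_zero] at hX
        have p0 := OKum_order_pow (ht 0).1 (c 0)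
        have p1 := OKum_order_pow (ht 1).1 (c 1)
        have pX := OKum_order_pow hX.1 j
        rw [HahnSeries.order_mul (mul_ne_zero p0.1 p1.1) pX.1, HahnSeries.order_mul p0.1 p1.1,
          p0.2, p1.2, pX.2, (ht 0).2, (ht 1).2, hX.2]
        push_cast
        ring
  · intro x
    exact hjI1 x
  · -- rotation
    have h1 := huniq (LaurentSeries (LaurentSeries k))
      (jI.comp (MulSemiringAction.toRingHom (CT n) A0 (cT n 0 * cT n 1))) (rot.comp jI)
      (fun x => by
        rw [RingHom.comp_apply, RingHom.comp_apply, MulSemiringAction.toRingHom_apply, hgal.comm,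
          hjI1, RingHom.comp_apply, hrotN])
      (fun i => by
        rw [RingHom.comp_apply, RingHom.comp_apply, MulSemiringAction.toRingHom_apply, hact,
          hval1, map_mul, hjI2, htI]
        simp only
        rw [map_mul, hrotN, OKum_rot_single hrot, hkRa, hjC, ← mul_assoc]
        congr 3
        rw [neg_neg, zpow_natCast, map_pow])
    intro x
    exact RingHom.congr_fun h1 x
  · -- local maps
    intro i D _ L _ _ _ q t hDfix ht hq hdt
    have hRt := hORt k 2 W a η hD b hρ
    obtain ⟨vi, hvi⟩ := (hRt (n i) m i (hn i) (hnk i) (hnm i)).1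
    have hvj : ∀ j : Fin 2, j ≠ i → ∃ v : KWp k,
        b.ρ i (b.κ (X - C (HahnSeries.C (a j)))) = v ^ n j := fun j hj =>
      (hRt (n j) m i (hn j) (hnk j) (hnm j)).2 j hj
    choose! w hw using hvj
    have hkρ : ∀ z : k, b.ρ i (kR z) = HahnSeries.C (LaurentPolynomial.C z) := by
      intro z
      rw [hkRa, OKum_ev b hρ, HahnSeries.C_apply, OKum_KKWs]
      rfl
    obtain ⟨ψ, hψ1, hψ2⟩ := huniv L ((algebraMap (KWp k) L).comp (b.ρ i))
      (fun j => if j = i then t * algebraMap (KWp k) L vi else algebraMap (KWp k) L (w j)) (by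
        intro j
        rw [RingHom.comp_apply]
        by_cases hj : j = i
        · rw [if_pos hj, mul_pow, hj, ht, ← map_pow, ← map_mul, mul_comm, ← hvi]
        · rw [if_neg hj, ← map_pow, ← hw j hj])
    refine ⟨ψ, fun x => hψ1 x, ?_⟩
    intro d
    have h1 := huniq L (ψ.comp (MulSemiringAction.toRingHom (CT n) A0 (q d)))
      ((MulSemiringAction.toRingHom D L d).comp ψ)
      (fun x => by
        rw [RingHom.comp_apply, RingHom.comp_apply, MulSemiringAction.toRingHom_apply, hgal.comm,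
          hψ1, RingHom.comp_apply, MulSemiringAction.toRingHom_apply, hDfix])
      (fun j => by
        rw [RingHom.comp_apply, RingHom.comp_apply, MulSemiringAction.toRingHom_apply,
          MulSemiringAction.toRingHom_apply, hact, map_mul, hψ2, hψ1, RingHom.comp_apply]
        by_cases hj : j = i
        · subst hj
          rw [if_pos rfl, smul_mul', hDfix, hdt, ← map_pow kR, hkρ, ← pow_mul, ← mul_assoc]
        · rw [if_neg hj, hDfix, hq d j hj]
          have h2 : (Multiplicative.toAdd (1 : Multiplicative (ZMod (n j)))).val = 0 := by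
            rw [toAdd_one]
            exact ZMod.val_zero
          rw [h2, pow_zero, map_one, map_one, one_mul])
    intro x
    exact RingHom.congr_fun h1 x

end MP7b0bad.MT
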