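import Pool.Agent.Work.MP_7b0bad_ag.MT.Defs

set_option autoImplicit false

/-!
# Join of covers with tame inertia: construction of the outer torsor, statements
-/

namespace MP7b0bad.MT

open Polynomial

/-- `ZMod p → B` through representatives (a ring homomorphism if `p = 0` in `B`) -/
def cz {p : ℕ} (B : Type) [CommRing B] (a : ZMod p) : B := ((a.val : ℕ) : B)

/-- action of a matrix over `F_p` on `B^r` -/
def vA {p r : ℕ} {B : Type} [CommRing B] (M : Matrix (Fin r) (Fin r) (ZMod p)) (x : Fin r → B) :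
    Fin r → B := fun i => ∑ j, cz B (M i j) * x j

/-- `Γ → Γb` surjective with kernel `i(F_p^r)`, `M` the action of `Γb` on the kernel -/
structure ElExt {p r : ℕ} {Γ Γb : Type} [Group Γ] [Group Γb] (π : Γ →* Γb)
    (i : Multiplicative (Fin r → ZMod p) →* Γ) (M : Γb →* Matrix (Fin r) (Fin r) (ZMod p)) :
    Prop where
  surj : Function.Surjective π
  inj : Function.Injective i
  ker : ∀ g : Γ, π g = 1 ↔ ∃ v, i v = g
  conj : ∀ (g : Γ) (v : Fin r → ZMod p),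
    g * i (Multiplicative.ofAdd v) * g⁻¹ = i (Multiplicative.ofAdd ((M (π g)).mulVec v))

/-- the cocycle `z : Γ → B^r` extending the inclusion of the kernel -/
structure ZC {p r : ℕ} {Γ Γb : Type} [Group Γ] [Group Γb] (π : Γ →* Γb)
    (i : Multiplicative (Fin r → ZMod p) →* Γ) (M : Γb →* Matrix (Fin r) (Fin r) (ZMod p))
    {B : Type} [CommRing B] [MulSemiringAction Γb B] (z : Γ → Fin r → B) : Prop where
  mul : ∀ g h : Γ, z (g * h) = z g + vA (M (π g)) (π g • z h)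
  ker : ∀ v : Fin r → ZMod p, z (i (Multiplicative.ofAdd v)) = fun j => cz B (v j)

/-- `z^p - z` is the coboundary of `a` -/
def ZA {p r : ℕ} {Γ Γb : Type} [Group Γ] [Group Γb] (π : Γ →* Γb)
    (M : Γb →* Matrix (Fin r) (Fin r) (ZMod p)) {B : Type} [CommRing B] [MulSemiringAction Γb B]
    (z : Γ → Fin r → B) (a : Fin r → B) : Prop :=
  ∀ g : Γ, (fun j => z g j ^ p - z g j) = vA (M (π g)) (π g • a) - a

/-- the `Γ`-Galois algebra `E = B[y]`, `y^p - y = a`, `g y = y + z(g)` (diagonal action) -/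
structure VExt {R : Type} [CommRing R] {p r : ℕ} {Γ Γb : Type} [Group Γ] [Group Γb] (π : Γ →* Γb)
    (M : Γb →* Matrix (Fin r) (Fin r) (ZMod p)) {B : Type} [CommRing B] [Algebra R B]
    [MulSemiringAction Γb B] (z : Γ → Fin r → B) (a : Fin r → B) {E : Type} [CommRing E]
    [Algebra R E] [MulSemiringAction Γ E] (e : B →+* E) (y : Fin r → E) : Prop where
  gal : GalAlg R Γ E
  e_alg : ∀ x : R, e (algebraMap R B x) = algebraMap R E x
  e_inj : Function.Injective e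
  e_act : ∀ (g : Γ) (x : B), g • e x = e (π g • x)
  y_act : ∀ g : Γ, vA (M (π g)) (g • y) = y + fun j => e (z g j)
  y_pow : ∀ j, y j ^ p - y j = e (a j)
  univ : ∀ (T : Type) [CommRing T] (f : B →+* T) (t : Fin r → T),
    (∀ j, t j ^ p - t j = f (a j)) → ∃ F : E →+* T, (∀ x, F (e x) = f x) ∧ ∀ j, F (y j) = t j
  uniq : ∀ (T : Type) [CommRing T] (F F' : E →+* T), (∀ x, F (e x) = F' (e x)) →
    (∀ j, F (y j) = F' (y j)) → F = F'

/-- Artin-Schreier algebras for `F_p^r` -/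
def OAS : Prop := ∀ (p : ℕ) [Fact p.Prime] (r : ℕ) (B : Type) [CommRing B] (a : Fin r → B),
  (p : B) = 0 →
  ∃ (E : Type) (_ : CommRing E) (_ : Algebra B E)
    (_ : MulSemiringAction (Multiplicative (Fin r → ZMod p)) E) (y : Fin r → E),
    GalAlg B (Multiplicative (Fin r → ZMod p)) E ∧
    (∀ (v : Fin r → ZMod p) (j : Fin r), Multiplicative.ofAdd v • y j = y j + cz E (v j)) ∧
    (∀ j, y j ^ p - y j = algebraMap B E (a j)) ∧
    (∀ (T : Type) [CommRing T] (f : B →+* T) (t : Fin r → T),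
      (∀ j, t j ^ p - t j = f (a j)) →
      ∃ F : E →+* T, (∀ x, F (algebraMap B E x) = f x) ∧ ∀ j, F (y j) = t j) ∧
    ∀ (T : Type) [CommRing T] (F F' : E →+* T),
      (∀ x, F (algebraMap B E x) = F' (algebraMap B E x)) → (∀ j, F (y j) = F' (y j)) → F = F'

/-- the `Γ`-action on the Artin-Schreier algebra -/
def OVX : Prop := ∀ (R : Type) [CommRing R] (p : ℕ) [Fact p.Prime] (r : ℕ) (Γ Γb : Type)
  [Group Γ] [Finite Γ] [Group Γb] [Finite Γb] (π : Γ →* Γb)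
  (i : Multiplicative (Fin r → ZMod p) →* Γ) (M : Γb →* Matrix (Fin r) (Fin r) (ZMod p))
  (B : Type) [CommRing B] [Algebra R B] [MulSemiringAction Γb B] (z : Γ → Fin r → B)
  (a : Fin r → B), (p : R) = 0 → ElExt π i M → GalAlg R Γb B → ZC π i M z → ZA π M z a →
  ∃ (E : Type) (_ : CommRing E) (_ : Algebra R E) (_ : MulSemiringAction Γ E) (e : B →+* E)
    (y : Fin r → E), VExt (R := R) π M z a e y

/-- existence of the cocycle -/
def OCoh : Prop := ∀ (R : Type) [CommRing R] (p : ℕ) [Fact p.Prime] (r : ℕ) (Γ Γb : Type)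
  [Group Γ] [Finite Γ] [Group Γb] [Finite Γb] (π : Γ →* Γb)
  (i : Multiplicative (Fin r → ZMod p) →* Γ) (M : Γb →* Matrix (Fin r) (Fin r) (ZMod p))
  (B : Type) [CommRing B] [Algebra R B] [MulSemiringAction Γb B],
  (p : R) = 0 → ElExt π i M → GalAlg R Γb B →
  ∃ (z : Γ → Fin r → B) (a : Fin r → B), ZC π i M z ∧ ZA π M z a

/-- cocycles with values in `L^r` are coboundaries -/
def OLoc : Prop := ∀ (p : ℕ) [Fact p.Prime] (r : ℕ) (Γ Γb : Type) [Group Γ] [Group Γb]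
  (π : Γ →* Γb) (i : Multiplicative (Fin r → ZMod p) →* Γ)
  (M : Γb →* Matrix (Fin r) (Fin r) (ZMod p)) (B : Type) [CommRing B] [MulSemiringAction Γb B]
  (z : Γ → Fin r → B) (R' : Type) [CommRing R'] (D : Type) [Group D] [Finite D] (δ : D →* Γ)
  (L : Type) [CommRing L] [Algebra R' L] [MulSemiringAction D L] (ψ : B →+* L),
  (p : L) = 0 → (∀ g h : Γ, z (g * h) = z g + vA (M (π g)) (π g • z h)) → GalAlg R' D L →
  (∀ (d : D) (x : B), ψ (π (δ d) • x) = d • ψ x) →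
  ∃ y : Fin r → L, ∀ d : D, vA (M (π (δ d))) (d • y) = y + fun j => ψ (z (δ d) j)

/-- invariants are surjective for equivariant homomorphisms of Galois algebras -/
def OGen : Prop := ∀ (R' : Type) [CommRing R'] (p : ℕ) [Fact p.Prime] (r : ℕ) (Γb D : Type)
  [Group Γb] [Finite Γb] [Group D] [Finite D] (δ : D →* Γb)
  (M : Γb →* Matrix (Fin r) (Fin r) (ZMod p))
  (C L : Type) [CommRing C] [Algebra R' C] [MulSemiringAction Γb C] [CommRing L] [Algebra R' L]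
  [MulSemiringAction D L] (Φ : C →+* L), (p : R') = 0 → GalAlg R' Γb C → GalAlg R' D L →
  (∀ a : R', Φ (algebraMap R' C a) = algebraMap R' L a) →
  (∀ (d : D) (c : C), Φ (δ d • c) = d • Φ c) →
  ∀ w : Fin r → L, (∀ d : D, vA (M (δ d)) (d • w) = w) →
  ∃ x : Fin r → C, (∀ g : Γb, vA (M g) (g • x) = x) ∧ ∀ j, Φ (x j) = w j

/-- finitely many invariant vectors generate all local invariants -/
def OTDen : Prop := ∀ (R : Type) [CommRing R] (p : ℕ) [Fact p.Prime] (r : ℕ) (Γb : Type)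
  [Group Γb] [Finite Γb] (M : Γb →* Matrix (Fin r) (Fin r) (ZMod p))
  (B : Type) [CommRing B] [Algebra R B] [MulSemiringAction Γb B], (p : R) = 0 → GalAlg R Γb B →
  ∃ (n : ℕ) (u : Fin n → Fin r → B), (∀ l (g : Γb), vA (M g) (g • u l) = u l) ∧
    ∀ (R' : Type) [CommRing R'] (φ : R →+* R') (D : Type) [Group D] [Finite D] (δ : D →* Γb)
      (L : Type) [CommRing L] [Algebra R' L] [MulSemiringAction D L] (ψ : B →+* L),
      GalAlg R' D L → (∀ a : R, ψ (algebraMap R B a) = algebraMap R' L (φ a)) →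
      (∀ (d : D) (x : B), ψ (δ d • x) = d • ψ x) →
      ∀ w : Fin r → L, (∀ d : D, vA (M (δ d)) (d • w) = w) →
      ∃ κ : Fin n → R', ∀ j, w j = ∑ l, algebraMap R' L (κ l) * ψ (u l j)

/-- small elements are uniquely of the form `h^p - h` with `h` small -/
def OFil : Prop := ∀ (Λ : Type) [CommRing Λ] (p : ℕ) [Fact p.Prime] (D : Type) [Group D] [Finite D]
  (L : Type) [CommRing L] [Algebra (LaurentSeries Λ) L] [MulSemiringAction D L],
  (p : Λ) = 0 → GalAlg (LaurentSeries Λ) D L →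
  ∃ S : AddSubgroup L, (∀ (g : D), ∀ z ∈ S, g • z ∈ S) ∧
    (∀ z ∈ S, ∃ h ∈ S, h ^ p - h = z ∧ ∀ h' ∈ S, h' ^ p - h' = z → h' = h) ∧
    ∀ (n : ℕ) (z : Fin n → L), ∃ m : ℤ, ∀ c : Fin n → LaurentSeries Λ,
      (∀ l (t : ℤ), t < m → (c l).coeff t = 0) → ∑ l, algebraMap (LaurentSeries Λ) L (c l) * z l ∈ S

/-- `R` is dense in the product of the rings at the discs -/
def Dns {k : Type} [Field k] {N : ℕ} {R : Type} [CommRing R] (ρ : Fin N → R →+* KWp k) : Prop :=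
  ∀ (u : Fin N → KWp k) (n : ℤ), ∃ x : R, ∀ i, ∀ t < n, (ρ i x - u i).coeff t = 0

/-- the local embedding problems at the discs -/
def ODisc : Prop := ∀ (k : Type) [Field k] (p : ℕ) [Fact p.Prime] [CharP k p] (N : ℕ)
  (R : Type) [CommRing R] (ρ : Fin N → R →+* KWp k) (θ : R), (p : R) = 0 → Dns ρ →
  (∀ i, ρ i θ = HahnSeries.single (1 : ℤ) (1 : LaurentPolynomial k)) →
  ∀ (r : ℕ) (Γ Γb : Type) [Group Γ] [Finite Γ] [Group Γb] [Finite Γb] (π : Γ →* Γb)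
  (i : Multiplicative (Fin r → ZMod p) →* Γ) (M : Γb →* Matrix (Fin r) (Fin r) (ZMod p))
  (B : Type) [CommRing B] [Algebra R B] [MulSemiringAction Γb B] (z : Γ → Fin r → B)
  (a : Fin r → B), ElExt π i M → GalAlg R Γb B → ZC π i M z → ZA π M z a →
  ∀ (D : Fin N → Type) [∀ l, Group (D l)] [∀ l, Finite (D l)] (δ : ∀ l, D l →* Γ)
    (L : Fin N → Type) [∀ l, CommRing (L l)] [∀ l, Algebra (KWp k) (L l)]
    [∀ l, MulSemiringAction (D l) (L l)] (ψ : ∀ l, B →+* L l),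
  (∀ l, GalAlg (KWp k) (D l) (L l)) →
  (∀ l (x : R), ψ l (algebraMap R B x) = algebraMap (KWp k) (L l) (ρ l x)) →
  (∀ l (d : D l) (x : B), ψ l (π (δ l d) • x) = d • ψ l x) →
  ∃ r₁ : Fin r → B, (∀ g : Γb, vA (M g) (g • r₁) = r₁) ∧
    ∀ w : Fin r → B, (∀ g : Γb, vA (M g) (g • w) = w) → ∃ b₀ : ℕ, ∀ b : ℕ, b₀ ≤ b →
      ∀ l, ∃ y : Fin r → L l,
        (∀ d : D l, vA (M (π (δ l d))) (d • y) = y + fun j => ψ l (z (δ l d) j)) ∧
        ∀ j, y j ^ p - y j = ψ l (a j + r₁ j + algebraMap R B (θ ^ b) * w j)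

/-- total ramification over the tame algebra `A0`: Artin-Schreier data with poles of order prime to
`p` at infinity -/
def TRA (p : ℕ) {Γ C : Type} [Group Γ] [Group C] (q : Γ →* C) {A0 A : Type} [CommRing A0]
    [CommRing A] [MulSemiringAction Γ A] {κ : Type} [Field κ] (e : A0 →+* A)
    (jI : A0 →+* LaurentSeries κ) : Prop :=
  ∀ l : q.ker →* Multiplicative (ZMod p), l ≠ 1 → ∃ (y : A) (b : A0) (d : ℕ),
    (∀ g : q.ker, (g : Γ) • y = y + (((Multiplicative.toAdd (l g)).val : ℕ) : A)) ∧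
    y ^ p - y = e b ∧ ¬ p ∣ d ∧ (jI b).order = -(d : ℤ)

/-- the ramification condition in one step -/
def OTra : Prop := ∀ (p : ℕ) [Fact p.Prime] (κ : Type) [Field κ] [CharP κ p] (R : Type)
  [CommRing R] (C : Type) [Group C] [Finite C] (A0 : Type) [CommRing A0] [Algebra R A0]
  [MulSemiringAction C A0] (jI : A0 →+* LaurentSeries κ), (p : R) = 0 → GalAlg R C A0 →
  ∀ (r : ℕ) (Γ Γb : Type) [Group Γ] [Finite Γ] [Group Γb] [Finite Γb] (π : Γ →* Γb)
  (i : Multiplicative (Fin r → ZMod p) →* Γ) (M : Γb →* Matrix (Fin r) (Fin r) (ZMod p))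
  (qb : Γb →* C) (B : Type) [CommRing B] [Algebra R B] [MulSemiringAction Γb B] (e0 : A0 →+* B)
  (z : Γ → Fin r → B) (a : Fin r → B), ElExt π i M → Function.Surjective qb →
  (∀ g : Γb, qb g = 1 → M g = 1) → GalAlg R Γb B → ZC π i M z → ZA π M z a →
  (∀ x : R, e0 (algebraMap R A0 x) = algebraMap R B x) →
  (∀ (g : Γb) (x : A0), e0 (qb g • x) = g • e0 x) → TRA p qb e0 jI →
  ∃ d₀ : ℕ, ∀ (w : Fin r → A0) (d : ℕ), d₀ ≤ d → ¬ p ∣ d →
    (∀ g : Γb, vA (M g) (qb g • w) = w) →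
    (∀ v : Fin r → ZMod p, v ≠ 0 → (jI (∑ j, cz A0 (v j) * w j)).order = -(d : ℤ)) →
    ∀ (E : Type) [CommRing E] [Algebra R E] [MulSemiringAction Γ E] (e : B →+* E) (y : Fin r → E),
      VExt (R := R) π M z (fun j => a j + e0 (w j)) e y → TRA p (qb.comp π) (e.comp e0) jI

/-- the tame data: eigen elements of large pole order -/
structure TameD {k : Type} [Field k] (p : ℕ) {N : ℕ} {R : Type} [CommRing R]
    (ρ : Fin N → R →+* KWp k) (kR : k →+* R) (θ : R) {C : Type} [CommGroup C] {A0 : Type}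
    [CommRing A0] [Algebra R A0] [MulSemiringAction C A0] {κ : Type} [Field κ] (ik : k →+* κ)
    (t₀ : κ) (jI : A0 →+* LaurentSeries κ) : Prop where
  char : (p : R) = 0
  dns : Dns ρ
  ρθ : ∀ i, ρ i θ = HahnSeries.single (1 : ℤ) (1 : LaurentPolynomial k)
  gal : GalAlg R C A0
  t₀_ne : t₀ ≠ 0
  jθ : jI (algebraMap R A0 θ) = HahnSeries.C t₀
  jk : ∀ c : k, jI (algebraMap R A0 (kR c)) = HahnSeries.C (ik c)
  eig : ∀ (χ : C →* kˣ) (d₀ : ℕ), ∃ (b : A0) (d : ℕ),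
    (∀ g : C, g • b = algebraMap R A0 (kR ((χ g : kˣ) : k)) * b) ∧ d₀ ≤ d ∧ ¬ p ∣ d ∧
    (jI b).order = -(d : ℤ)

/-- one step of the construction of the outer torsor -/
def OStep : Prop := ∀ (k : Type) [Field k] [IsAlgClosed k] (p : ℕ) [Fact p.Prime] [CharP k p]
  (N : ℕ) (R : Type) [CommRing R] (ρ : Fin N → R →+* KWp k) (kR : k →+* R) (θ : R)
  (C : Type) [CommGroup C] [Finite C] (A0 : Type) [CommRing A0] [Algebra R A0]
  [MulSemiringAction C A0] (κ : Type) [Field κ] [CharP κ p] (ik : k →+* κ) (t₀ : κ)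
  (jI : A0 →+* LaurentSeries κ), ¬ p ∣ Nat.card C → TameD (C := C) p ρ kR θ ik t₀ jI →
  ∀ (r : ℕ) (Γ Γb : Type) [Group Γ] [Finite Γ] [Group Γb] [Finite Γb] (π : Γ →* Γb)
  (i : Multiplicative (Fin r → ZMod p) →* Γ) (M : Γb →* Matrix (Fin r) (Fin r) (ZMod p))
  (qb : Γb →* C) (B : Type) [CommRing B] [Algebra R B] [MulSemiringAction Γb B] (e0 : A0 →+* B),
  0 < r → ElExt π i M → Function.Surjective qb → (∀ g : Γb, qb g = 1 → M g = 1) →
  (∀ W : Submodule (ZMod p) (Fin r → ZMod p), (∀ (g : Γb), ∀ v ∈ W, (M g).mulVec v ∈ W) →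
    W = ⊥ ∨ W = ⊤) →
  GalAlg R Γb B → (∀ x : R, e0 (algebraMap R A0 x) = algebraMap R B x) →
  (∀ (g : Γb) (x : A0), e0 (qb g • x) = g • e0 x) → TRA p qb e0 jI →
  ∀ (D : Fin N → Type) [∀ l, Group (D l)] [∀ l, Finite (D l)] (δ : ∀ l, D l →* Γ)
    (L : Fin N → Type) [∀ l, CommRing (L l)] [∀ l, Algebra (KWp k) (L l)]
    [∀ l, MulSemiringAction (D l) (L l)] (ψ : ∀ l, B →+* L l),
  (∀ l, GalAlg (KWp k) (D l) (L l)) →
  (∀ l (x : R), ψ l (algebraMap R B x) = algebraMap (KWp k) (L l) (ρ l x)) →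
  (∀ l (d : D l) (x : B), ψ l (π (δ l d) • x) = d • ψ l x) →
  ∃ (A : Type) (_ : CommRing A) (_ : Algebra R A) (_ : MulSemiringAction Γ A) (e : B →+* A)
    (ψ' : ∀ l, A →+* L l), GalAlg R Γ A ∧
    (∀ x : R, e (algebraMap R B x) = algebraMap R A x) ∧
    (∀ (g : Γ) (x : B), g • e x = e (π g • x)) ∧ (∀ l x, ψ' l (e x) = ψ l x) ∧
    (∀ l (d : D l) (x : A), ψ' l (δ l d • x) = d • ψ' l x) ∧
    TRA p (qb.comp π) (e.comp e0) jI

/-- an eigenvector of an irreducible representation over `F_p` of an abelian group of order prime to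
`p` -/
def OEig : Prop := ∀ (k : Type) [Field k] [IsAlgClosed k] (p : ℕ) [Fact p.Prime] [CharP k p]
  (C Γb : Type) [CommGroup C] [Finite C] [Group Γb] [Finite Γb] (qb : Γb →* C) (r : ℕ)
  (M : Γb →* Matrix (Fin r) (Fin r) (ZMod p)), ¬ p ∣ Nat.card C → 0 < r →
  Function.Surjective qb → (∀ g : Γb, qb g = 1 → M g = 1) →
  (∀ W : Submodule (ZMod p) (Fin r → ZMod p), (∀ (g : Γb), ∀ v ∈ W, (M g).mulVec v ∈ W) →
    W = ⊥ ∨ W = ⊤) →
  ∃ (v₀ : Fin r → k) (χ : C →* kˣ),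
    (∀ g : Γb, vA (M g) v₀ = fun j => ((χ (qb g) : kˣ) : k) * v₀ j) ∧
    ∀ v : Fin r → ZMod p, v ≠ 0 → ∑ j, cz k (v j) * v₀ j ≠ 0

/-- a minimal normal subgroup contained in the kernel -/
def OMin : Prop := ∀ (p : ℕ) [Fact p.Prime] (Γ C : Type) [Group Γ] [Finite Γ] [CommGroup C]
  [Finite C] (q : Γ →* C), Function.Surjective q → IsPGroup p q.ker → q.ker ≠ ⊥ →
  ∃ (r : ℕ) (Γb : Type) (_ : Group Γb) (_ : Finite Γb) (π : Γ →* Γb) (qb : Γb →* C)
    (i : Multiplicative (Fin r → ZMod p) →* Γ) (M : Γb →* Matrix (Fin r) (Fin r) (ZMod p)),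
    0 < r ∧ ElExt π i M ∧ qb.comp π = q ∧ Function.Surjective qb ∧ IsPGroup p qb.ker ∧
    Nat.card qb.ker < Nat.card q.ker ∧ (∀ g : Γb, qb g = 1 → M g = 1) ∧
    ∀ W : Submodule (ZMod p) (Fin r → ZMod p), (∀ (g : Γb), ∀ v ∈ W, (M g).mulVec v ∈ W) →
      W = ⊥ ∨ W = ⊤

/-- THE OUTER TORSOR over `R` from the tame one -/
def OTor : Prop := ∀ (k : Type) [Field k] [IsAlgClosed k] (p : ℕ) [Fact p.Prime] [CharP k p]
  (N : ℕ) (R : Type) [CommRing R] (ρ : Fin N → R →+* KWp k) (kR : k →+* R) (θ : R)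
  (C : Type) [CommGroup C] [Finite C] (A0 : Type) [CommRing A0] [Algebra R A0]
  [MulSemiringAction C A0] (κ : Type) [Field κ] [CharP κ p] (ik : k →+* κ) (t₀ : κ)
  (jI : A0 →+* LaurentSeries κ), ¬ p ∣ Nat.card C → TameD (C := C) p ρ kR θ ik t₀ jI →
  ∀ (Γ : Type) [Group Γ] [Finite Γ] (q : Γ →* C), Function.Surjective q → IsPGroup p q.ker →
  ∀ (D : Fin N → Type) [∀ l, Group (D l)] [∀ l, Finite (D l)] (δ : ∀ l, D l →* Γ)
    (L : Fin N → Type) [∀ l, CommRing (L l)] [∀ l, Algebra (KWp k) (L l)]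
    [∀ l, MulSemiringAction (D l) (L l)] (ψ : ∀ l, A0 →+* L l),
  (∀ l, GalAlg (KWp k) (D l) (L l)) →
  (∀ l (x : R), ψ l (algebraMap R A0 x) = algebraMap (KWp k) (L l) (ρ l x)) →
  (∀ l (d : D l) (x : A0), ψ l (q (δ l d) • x) = d • ψ l x) →
  ∃ (A : Type) (_ : CommRing A) (_ : Algebra R A) (_ : MulSemiringAction Γ A) (e : A0 →+* A)
    (ψ' : ∀ l, A →+* L l), GalAlg R Γ A ∧
    (∀ x : R, e (algebraMap R A0 x) = algebraMap R A x) ∧
    (∀ (g : Γ) (x : A0), g • e x = e (q g • x)) ∧ (∀ l x, ψ' l (e x) = ψ l x) ∧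
    (∀ l (d : D l) (x : A), ψ' l (δ l d • x) = d • ψ' l x) ∧ TRA p q e jI

/-- the substitution `ξ ↦ υ^n` -/
structure SubN {κ : Type} [Field κ] (n : ℕ) (σ : LaurentSeries κ →+* LaurentSeries κ) : Prop where
  c : ∀ a : κ, σ (HahnSeries.C a) = HahnSeries.C a
  coeff : ∀ (a : LaurentSeries κ) (t : ℤ), (σ a).coeff (n * t) = a.coeff t
  coeff0 : ∀ (a : LaurentSeries κ) (t : ℤ), ¬ (n : ℤ) ∣ t → (σ a).coeff t = 0

/-- the local extension at infinity of the outer torsor -/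
def OInf : Prop := ∀ (p : ℕ) [Fact p.Prime] (κ : Type) [Field κ] [CharP κ p] (R : Type)
  [CommRing R] (ρI : R →+* LaurentSeries κ) (C : Type) [CommGroup C] [Finite C] (A0 : Type)
  [CommRing A0] [Algebra R A0] [MulSemiringAction C A0] (jI : A0 →+* LaurentSeries κ) (c : C)
  (n : ℕ) (ζ : κ) (σ rot : LaurentSeries κ →+* LaurentSeries κ), (p : R) = 0 →
  ¬ p ∣ Nat.card C → GalAlg R C A0 → orderOf c = n → IsPrimitiveRoot ζ n → SubN n σ →
  (∀ (a : LaurentSeries κ) (t : ℤ), (rot a).coeff t = ζ ^ (-t) * a.coeff t) →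
  (∀ x : R, jI (algebraMap R A0 x) = σ (ρI x)) → (∀ x : A0, jI (c • x) = rot (jI x)) →
  ∀ (Γ : Type) [Group Γ] [Finite Γ] (q : Γ →* C) (A : Type) [CommRing A] [Algebra R A]
    [MulSemiringAction Γ A] (e : A0 →+* A), Function.Surjective q → IsPGroup p q.ker →
  GalAlg R Γ A → (∀ x : R, e (algebraMap R A0 x) = algebraMap R A x) →
  (∀ (g : Γ) (x : A0), g • e x = e (q g • x)) → TRA p q e jI →
  ∀ (G₀ : Type) [Group G₀] [Finite G₀] (δ : G₀ →* Γ) (P : Subgroup G₀) (c₀ : G₀),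
  Function.Injective δ → δ.range = (Subgroup.zpowers c).comap q → P = q.ker.comap δ →
  q (δ c₀) = c →
  ∃ (E : Type) (_ : CommRing E) (_ : Algebra (LaurentSeries κ) E) (_ : MulSemiringAction G₀ E)
    (j : A →+* E) (τ : E), GalAlg (LaurentSeries κ) G₀ E ∧
    (∀ x : R, j (algebraMap R A x) = algebraMap (LaurentSeries κ) E (ρI x)) ∧
    (∀ (g : G₀) (x : A), j (δ g • x) = g • j x) ∧ TTR κ p n ζ P c₀ E τ

end MP7b0bad.MT
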