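import Pool.Agent.Work.MP_7b0bad_ag.MT.PA

set_option autoImplicit false

/-!
# Patching, inner covers with `X = w / T^m`: proofs
-/

namespace MP7b0bad.MT.PJ

open Polynomial

/-! ## the map `k[[w]]((T)) → k[X]((T))`, `w ↦ X T^m` -/

/-- the polynomial coefficient -/
noncomputable def A3_c {k : Type} [Field k] (m : ℕ) (r : Fk k) (n : ℤ) : k[X] :=
  ∑ i ∈ Finset.range (n - r.order + 1).toNat,
    monomial i ((r.coeff (n - (m : ℤ) * (i : ℤ))).coeff (i : ℤ))

theorem A3_c_coeff {k : Type} [Field k] {m : ℕ} (hm : 0 < m) (r : Fk k) (n : ℤ) (i : ℕ) :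
    (A3_c m r n).coeff i = (r.coeff (n - (m : ℤ) * (i : ℤ))).coeff (i : ℤ) := by
  unfold A3_c
  rw [finsetSum_coeff]
  simp only [coeff_monomial, Finset.sum_ite_eq', Finset.mem_range]
  split_ifs with h
  · rfl
  · have h1 : (i : ℤ) ≤ (m : ℤ) * (i : ℤ) := by
      have h2 : (1 : ℤ) ≤ (m : ℤ) := by exact_mod_cast hm
      nlinarith [Int.natCast_nonneg i]
    rw [HahnSeries.coeff_eq_zero_of_lt_order (x := r) (by omega)]
    simp

theorem A3_c_zero {k : Type} [Field k] (m : ℕ) (r : Fk k) (n : ℤ) (h : n < r.order) :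
    A3_c m r n = 0 := by
  unfold A3_c
  rw [Int.toNat_eq_zero.2 (by omega)]
  simp

/-- the Laurent series -/
noncomputable def A3_s {k : Type} [Field k] (m : ℕ) (r : Fk k) : LaurentSeries k[X] :=
  HahnSeries.ofSuppBddBelow (A3_c m r) ⟨r.order, fun n hn => by
    by_contra hc
    exact hn (A3_c_zero m r n (not_le.1 hc))⟩

theorem A3_s_coeff {k : Type} [Field k] {m : ℕ} (hm : 0 < m) (r : Fk k) (n : ℤ) (i : ℕ) :
    ((A3_s m r).coeff n).coeff i = (r.coeff (n - (m : ℤ) * (i : ℤ))).coeff (i : ℤ) := by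
  change (A3_c m r n).coeff i = _
  exact A3_c_coeff hm r n i

theorem A3_mul {k : Type} [Field k] {m : ℕ} (hm : 0 < m) (a b : Fk k) (ha : a ∈ Rr k)
    (hb : b ∈ Rr k) : A3_s m (a * b) = A3_s m a * A3_s m b := by
  ext n i
  rw [A3_s_coeff hm]
  have hA : ∀ j : ℤ, j < a.order → a.coeff j = 0 :=
    fun j hj => HahnSeries.coeff_eq_zero_of_lt_order hj
  have hB : ∀ j : ℤ, j < b.order → b.coeff j = 0 :=
    fun j hj => HahnSeries.coeff_eq_zero_of_lt_order hj
  rw [A3_mulZ a b a.order b.order _ hA hB, HahnSeries.coeff_sum]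
  rw [A3_mulZ (A3_s m a) (A3_s m b) a.order b.order n (fun j hj => A3_c_zero m a j hj)
    (fun j hj => A3_c_zero m b j hj), finsetSum_coeff]
  have h1 : ∀ j : ℤ, (a.coeff j * b.coeff (n - (m : ℤ) * (i : ℤ) - j)).coeff (i : ℤ) =
      ∑ p ∈ Finset.HasAntidiagonal.antidiagonal i, (a.coeff j).coeff (p.1 : ℤ) *
        (b.coeff (n - (m : ℤ) * (i : ℤ) - j)).coeff (p.2 : ℤ) :=
    fun j => A3_mulN _ _ (fun l hl => ha j l hl) (fun l hl => hb _ l hl) i
  have h2 : ∀ s : ℤ, ((A3_s m a).coeff s * (A3_s m b).coeff (n - s)).coeff i =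
      ∑ p ∈ Finset.HasAntidiagonal.antidiagonal i,
        (a.coeff (s - (m : ℤ) * (p.1 : ℤ))).coeff (p.1 : ℤ) *
        (b.coeff (n - s - (m : ℤ) * (p.2 : ℤ))).coeff (p.2 : ℤ) := by
    intro s
    rw [coeff_mul]
    exact Finset.sum_congr rfl fun p _ => by rw [A3_s_coeff hm, A3_s_coeff hm]
  rw [Finset.sum_congr rfl fun j _ => h1 j, Finset.sum_congr rfl fun s _ => h2 s,
    Finset.sum_comm, Finset.sum_comm (s := Finset.Icc a.order (n - b.order))]
  refine Finset.sum_congr rfl fun p hp => ?_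
  rw [Finset.HasAntidiagonal.mem_antidiagonal] at hp
  have hpi : (m : ℤ) * (i : ℤ) = (m : ℤ) * (p.1 : ℤ) + (m : ℤ) * (p.2 : ℤ) := by
    rw [← mul_add]
    congr 1
    exact_mod_cast hp.symm
  have hp2 : (0 : ℤ) ≤ (m : ℤ) * (p.2 : ℤ) := by positivity
  have hmp : ((m * p.1 : ℕ) : ℤ) = (m : ℤ) * (p.1 : ℤ) := by push_cast; ring
  rw [← A3_shift (fun j => (a.coeff j).coeff (p.1 : ℤ) *
    (b.coeff (n - (m : ℤ) * (i : ℤ) - j)).coeff (p.2 : ℤ)) a.order
    (n - (m : ℤ) * (i : ℤ) - b.order) (n - b.order) (m * p.1)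
    (fun j hj => by rw [hA j hj]; simp) (fun j hj => by rw [hB _ (by omega)]; simp)
    (by rw [hmp]; omega)]
  refine Finset.sum_congr rfl fun s _ => ?_
  have h3 : n - (m : ℤ) * (i : ℤ) - (s - (m : ℤ) * (p.1 : ℤ)) = n - s - (m : ℤ) * (p.2 : ℤ) := by
    omega
  simp only [hmp, h3]

theorem prf_A3 (k : Type) [Field k] (m : ℕ) (hm : 0 < m) : ∃ χ : Rr k →+* LaurentSeries k[X],
    ∀ (r : Rr k) (n : ℤ) (i : ℕ), ((χ r).coeff n).coeff i =
      ((r : Fk k).coeff (n - (m : ℤ) * (i : ℤ))).coeff (i : ℤ) := by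
  refine ⟨{ toFun := fun r => A3_s m (r : Fk k), map_one' := ?_, map_mul' := ?_, map_zero' := ?_,
            map_add' := ?_ }, fun r n i => A3_s_coeff hm _ n i⟩
  · ext n i
    rw [A3_s_coeff hm]
    change ((1 : Fk k).coeff (n - (m : ℤ) * (i : ℤ))).coeff (i : ℤ) = _
    rw [HahnSeries.coeff_one, HahnSeries.coeff_one]
    by_cases hi : i = 0
    · subst hi
      by_cases hn : n = 0
      · simp [hn]
      · simp [hn]
    · by_cases hn : n = 0
      · have h0 : (0 : ℤ) < (m : ℤ) * (i : ℤ) := by positivity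
        have h1 : n - (m : ℤ) * (i : ℤ) ≠ 0 := by omega
        rw [if_neg h1, if_pos hn, coeff_one, if_neg hi]
        simp
      · rw [if_neg hn]
        split_ifs with h1
        · rw [HahnSeries.coeff_one, if_neg (by omega)]
          simp
        · simp
  · intro a b
    exact A3_mul hm _ _ a.2 b.2
  · ext n i
    rw [A3_s_coeff hm]
    simp
  · intro a b
    ext n i
    rw [A3_s_coeff hm, HahnSeries.coeff_add, coeff_add, A3_s_coeff hm, A3_s_coeff hm]
    simp

/-- `w / T^m` -/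
theorem Xm_single (k : Type) [Field k] (m : ℕ) : Ww k * (Tt k)⁻¹ ^ m =
    HahnSeries.single (-(m : ℤ)) (HahnSeries.single (1 : ℤ) (1 : k)) := by
  rw [Ww, Tt, HahnSeries.inv_single, HahnSeries.single_pow, HahnSeries.C_apply,
    HahnSeries.single_mul_single]
  simp

theorem Xm_coeff (k : Type) [Field k] (m : ℕ) (j i : ℤ) :
    ((Ww k * (Tt k)⁻¹ ^ m).coeff j).coeff i = if j = -(m : ℤ) ∧ i = 1 then 1 else 0 := by
  rw [Xm_single, HahnSeries.coeff_single]
  by_cases h : j = -(m : ℤ)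
  · rw [if_pos h, HahnSeries.coeff_single]
    simp [h]
  · rw [if_neg h]
    simp [h]

theorem Xm_mem (k : Type) [Field k] (m : ℕ) : Ww k * (Tt k)⁻¹ ^ m ∈ Rr k := by
  intro j i hi
  rw [Xm_coeff, if_neg (by omega)]

theorem toXm_mem (k : Type) [Field k] (m : ℕ) (a : k[X]) : toXm k m a ∈ Rr k := by
  induction a using Polynomial.induction_on' with
  | add a b ha hb => rw [map_add]; exact (Rr k).add_mem ha hb
  | monomial n c =>
    have : toXm k m (monomial n c) = kF k c * (Ww k * (Tt k)⁻¹ ^ m) ^ n := by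
      unfold toXm
      simp
    rw [this]
    exact (Rr k).mul_mem (D3_kF_mem k c) ((Rr k).pow_mem (Xm_mem k m) n)

theorem D3_chi {k : Type} [Field k] {m : ℕ} (χ : Rr k →+* LaurentSeries k[X])
    (hχ : ∀ (r : Rr k) (n : ℤ) (i : ℕ), ((χ r).coeff n).coeff i =
      ((r : Fk k).coeff (n - (m : ℤ) * (i : ℤ))).coeff (i : ℤ)) (a : k[X]) :
    χ ((toXm k m).codRestrict (Rr k) (toXm_mem k m) a) = HahnSeries.C a := by
  have : χ.comp ((toXm k m).codRestrict (Rr k) (toXm_mem k m)) = HahnSeries.C := by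
    refine Polynomial.ringHom_ext (fun c => ?_) ?_
    · ext n i
      rw [RingHom.comp_apply, hχ]
      have e : (((toXm k m).codRestrict (Rr k) (toXm_mem k m) (C c) : Rr k) : Fk k) = kF k c := by
        simp [toXm]
      rw [e, kF, RingHom.comp_apply, D3_coeff_C, D3_coeff_C]
      by_cases h : i = 0
      · subst h
        by_cases hn : n = 0
        · subst hn
          simp
        · simp [hn]
      · by_cases hn : n = 0
        · subst hn
          rw [if_pos rfl, Polynomial.coeff_C, if_neg h]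
          split_ifs with h2
          · rw [D3_coeff_C, if_neg (by omega)]
          · simp
        · rw [if_neg hn]
          split_ifs with h2
          · rw [D3_coeff_C, if_neg (by omega)]
            simp
          · simp
    · ext n i
      rw [RingHom.comp_apply, hχ]
      have e : (((toXm k m).codRestrict (Rr k) (toXm_mem k m) X : Rr k) : Fk k) =
          Ww k * (Tt k)⁻¹ ^ m := by
        simp [toXm]
      rw [e, Xm_coeff, D3_coeff_C]
      by_cases hi : i = 1
      · subst hi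
        by_cases hn : n = 0
        · subst hn
          rw [if_pos rfl, Polynomial.coeff_X]
          simp
        · rw [if_neg hn, if_neg (by push_cast; omega)]
          simp
      · rw [if_neg (by omega)]
        by_cases hn : n = 0
        · subst hn
          rw [if_pos rfl, Polynomial.coeff_X, if_neg (by omega)]
        · rw [if_neg hn]
          simp
  exact RingHom.congr_fun this a

theorem D3_chi_inj {k : Type} [Field k] {m : ℕ} (χ : Rr k →+* LaurentSeries k[X])
    (hχ : ∀ (r : Rr k) (n : ℤ) (i : ℕ), ((χ r).coeff n).coeff i =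
      ((r : Fk k).coeff (n - (m : ℤ) * (i : ℤ))).coeff (i : ℤ)) (r : Rr k)
    (h : χ r = 0) : r = 0 := by
  apply Subtype.ext
  ext j i
  by_cases hi : i < 0
  · rw [r.2 j i hi]
    simp
  · obtain ⟨i, rfl⟩ := Int.eq_ofNat_of_zero_le (not_lt.1 hi)
    have := hχ r (j + (m : ℤ) * (i : ℤ)) i
    rw [h] at this
    simp only [HahnSeries.coeff_zero, Polynomial.coeff_zero, add_sub_cancel_right] at this
    rw [← this]
    simp

/-! ## QP2 -/

/-- functions of the form `γ ↦ ∑ r_m ι(γ⁻¹ b_m)` with a finite index type -/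
def QP2_P {k : Type} [Field k] {μ : ℕ} {H P' : Type} [Group H] [Group P'] {π : P' →* H}
    {Q : Type} [CommRing Q] [Algebra (Fk k) Q] [MulSemiringAction P' Q] (c : InnerM k μ H P' π Q)
    (u : H → Q) : Prop :=
  ∃ (I : Type) (_ : Fintype I) (r : I → Fk k) (b : I → c.B), (∀ m, r m ∈ Rr k) ∧
    ∀ γ : H, u γ = ∑ m, algebraMap (Fk k) Q (r m) * c.ι (γ⁻¹ • b m)

theorem QP2_P_of_mem {k : Type} [Field k] {μ : ℕ} {H P' : Type} [Group H] [Group P'] {π : P' →* H}
    {Q : Type} [CommRing Q] [Algebra (Fk k) Q] [MulSemiringAction P' Q] (c : InnerM k μ H P' π Q)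
    (u : H → Q) (hu : u ∈ RN c) : QP2_P c u := by
  unfold RN at hu
  induction hu using Subring.closure_induction with
  | mem x hx =>
    rcases hx with ⟨r, hr, rfl⟩ | ⟨b, rfl⟩
    · refine ⟨Unit, inferInstance, fun _ => r, fun _ => 1, fun _ => hr, fun γ => ?_⟩
      simp [smul_one]
    · refine ⟨Unit, inferInstance, fun _ => 1, fun _ => b, fun _ => (Rr k).one_mem, fun γ => ?_⟩
      simp
  | zero =>
    refine ⟨Empty, inferInstance, fun x => x.elim, fun x => x.elim, fun x => x.elim, fun γ => ?_⟩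
    simp
  | one =>
    refine ⟨Unit, inferInstance, fun _ => 1, fun _ => 1, fun _ => (Rr k).one_mem, fun γ => ?_⟩
    simp [smul_one]
  | add x y _ _ hx hy =>
    obtain ⟨I, _, r, b, h1, h2⟩ := hx
    obtain ⟨J, _, s, d, h3, h4⟩ := hy
    refine ⟨I ⊕ J, inferInstance, Sum.elim r s, Sum.elim b d, ?_, fun γ => ?_⟩
    · rintro (m | m)
      · exact h1 m
      · exact h3 m
    · rw [Pi.add_apply, h2, h4, Fintype.sum_sum_type]
      rfl
  | neg x _ hx =>
    obtain ⟨I, _, r, b, h1, h2⟩ := hx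
    refine ⟨I, inferInstance, fun m => - r m, b, fun m => (Rr k).neg_mem (h1 m), fun γ => ?_⟩
    rw [Pi.neg_apply, h2, ← Finset.sum_neg_distrib]
    refine Finset.sum_congr rfl fun m _ => ?_
    rw [map_neg, neg_mul]
  | mul x y _ _ hx hy =>
    obtain ⟨I, _, r, b, h1, h2⟩ := hx
    obtain ⟨J, _, s, d, h3, h4⟩ := hy
    refine ⟨I × J, inferInstance, fun m => r m.1 * s m.2, fun m => b m.1 * d m.2,
      fun m => (Rr k).mul_mem (h1 m.1) (h3 m.2), fun γ => ?_⟩
    rw [Pi.mul_apply, h2, h4, Finset.sum_mul_sum, Fintype.sum_prod_type]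
    refine Finset.sum_congr rfl fun i _ => Finset.sum_congr rfl fun j _ => ?_
    rw [map_mul, smul_mul', map_mul]
    ring

theorem QP2_mem_of_P {k : Type} [Field k] {μ : ℕ} {H P' : Type} [Group H] [Group P'] {π : P' →* H}
    {Q : Type} [CommRing Q] [Algebra (Fk k) Q] [MulSemiringAction P' Q] (c : InnerM k μ H P' π Q)
    (u : H → Q) (hu : QP2_P c u) : u ∈ RN c := by
  obtain ⟨I, _, r, b, h1, h2⟩ := hu
  have : u = ∑ m, (fun _ => algebraMap (Fk k) Q (r m)) * (fun γ : H => c.ι (γ⁻¹ • b m)) := by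
    funext γ
    rw [h2, Finset.sum_apply]
    rfl
  rw [this]
  refine Subring.sum_mem _ fun m _ => Subring.mul_mem _ ?_ ?_
  · exact Subring.subset_closure (Or.inl ⟨r m, h1 m, rfl⟩)
  · exact Subring.subset_closure (Or.inr ⟨b m, rfl⟩)

theorem prf_QP2 : QP2 := by
  intro k _ μ H P' _ _ π Q _ _ _ c u
  refine ⟨⟨?_, ?_⟩, ?_, ?_⟩
  · intro hu
    obtain ⟨I, _, r, b, h1, h2⟩ := QP2_P_of_mem c u hu
    refine ⟨Fintype.card I, fun m => r ((Fintype.equivFin I).symm m),
      fun m => b ((Fintype.equivFin I).symm m), fun m => h1 _, fun γ => ?_⟩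
    rw [h2]
    exact (Equiv.sum_comp (Fintype.equivFin I).symm
      (fun m => algebraMap (Fk k) Q (r m) * c.ι (γ⁻¹ • b m))).symm
  · rintro ⟨n, r, b, h1, h2⟩
    exact QP2_mem_of_P c u ⟨Fin n, inferInstance, r, b, h1, h2⟩
  · intro hu hQ γ τ
    obtain ⟨I, _, r, b, h1, h2⟩ := QP2_P_of_mem c u hu
    rw [h2, h2, Finset.smul_sum]
    refine Finset.sum_congr rfl fun m _ => ?_
    rw [smul_mul', hQ.comm, ← c.ι_act, smul_smul]
    simp
  · intro hu δ
    obtain ⟨I, _, r, b, h1, h2⟩ := QP2_P_of_mem c u hu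
    refine QP2_mem_of_P c _ ⟨I, inferInstance, r, fun m => δ⁻¹ • b m, h1, fun γ => ?_⟩
    refine (h2 (δ * γ)).trans (Finset.sum_congr rfl fun m _ => ?_)
    rw [smul_smul, mul_inv_rev]

/-! ## QB1 -/

theorem prf_QB1 (hQGL : QGL) (hQFree : QFree) (hQP2 : QP2) : QB1 := by
  intro k _ μ H P' _ _ _ _ π Q _ _ _ c hm hQ
  classical
  have : Module.Free k[X] c.B := hQFree k H c.B c.gal
  have : Module.Finite k[X] c.B := gal_finite c.gal
  let β0 := Module.Free.chooseBasis k[X] c.B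
  let β := β0.reindex (Fintype.equivFin (Module.Free.ChooseBasisIndex k[X] c.B))
  have key := hQGL k[X] (Fk k) (toXm k μ) H P' π c.B Q c.ι c.gal hQ.comm hQ.inj hQ.inv c.ι_alg c.ι_act
    _ β
  refine ⟨_, β, key, ?_⟩
  intro r
  constructor
  · intro hmem
    obtain ⟨n', r', b, hr', hb⟩ := (hQP2 k μ H P' π Q c _).1.1 hmem
    have heq := (hQP2 k μ H P' π Q c _).2.1 hmem hQ
    obtain ⟨r0, hr0, huniq⟩ := key
      (fun γ : H => ∑ l, algebraMap (Fk k) Q (r l) * c.ι (γ⁻¹ • β l)) heq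
    have h1 := huniq r (fun γ => rfl)
    have h2 := huniq (fun l => ∑ m, r' m * toXm k μ (β.repr (b m) l)) (by
      intro γ
      rw [hb γ]
      have h3 : ∀ m, c.ι (γ⁻¹ • b m) =
          ∑ l, algebraMap (Fk k) Q (toXm k μ (β.repr (b m) l)) * c.ι (γ⁻¹ • β l) := by
        intro m
        conv_lhs => rw [← β.sum_repr (b m)]
        rw [Finset.smul_sum, map_sum]
        refine Finset.sum_congr rfl fun l _ => ?_
        rw [Algebra.smul_def, smul_mul', c.gal.comm, map_mul, c.ι_alg]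
      simp only [h3]
      simp only [map_sum, map_mul, Finset.sum_mul, Finset.mul_sum]
      rw [Finset.sum_comm]
      refine Finset.sum_congr rfl fun l _ => Finset.sum_congr rfl fun m _ => ?_
      ring)
    intro l
    rw [h1, ← h2]
    exact Subring.sum_mem _ fun m _ => Subring.mul_mem _ (hr' m) (toXm_mem k μ _)
  · intro hr
    exact (hQP2 k μ H P' π Q c _).1.2 ⟨_, r, β, hr, fun γ => rfl⟩

/-! ## QD3 -/

theorem prf_QD3 (_ : QB1) (hQP2 : QP2) : QD3 := by
  classical
  intro k _ μ H P' _ _ _ _ π Q _ _ _ c hm hQ u hu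
  obtain ⟨n, r, b, hr, hb⟩ := (hQP2 k μ H P' π Q c u).1.1 hu
  constructor
  · rintro ⟨γ₀, hγ₀⟩
    obtain ⟨χ, hχ⟩ := prf_A3 k μ hm
    have := c.dom
    have := gal_finite c.gal
    have htf : Module.IsTorsionFree k[X] c.B :=
      Module.isTorsionFree_iff_algebraMap_injective.2 c.gal.inj
    have hfree : Module.Free k[X] c.B := Module.free_of_finite_type_torsion_free'
    let β := Module.Free.chooseBasis k[X] c.B
    let g : c.B ≃ₗ[k[X]] c.B :=
      { toFun := fun x => γ₀⁻¹ • x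
        invFun := fun x => γ₀ • x
        left_inv := fun x => by simp
        right_inv := fun x => by simp
        map_add' := fun x y => smul_add _ _ _
        map_smul' := fun a x => by
          rw [Algebra.smul_def, smul_mul', c.gal.comm, RingHom.id_apply, Algebra.smul_def] }
    let β' := β.map g
    have hβ' : ∀ l, β' l = γ₀⁻¹ • β l := fun l => by
      simp only [β', Module.Basis.map_apply]
      rfl
    let τ : k[X] →+* Rr k := (toXm k μ).codRestrict (Rr k) (toXm_mem k μ)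
    have hτ : ∀ a, ((τ a : Rr k) : Fk k) = toXm k μ a := fun a => rfl
    -- the coordinates
    have key : ∀ γ : H, u γ = ∑ l, algebraMap (Fk k) Q
        ((∑ m, (⟨r m, hr m⟩ : Rr k) * τ (β.repr (b m) l) : Rr k) : Fk k) * c.ι (γ⁻¹ • β l) := by
      intro γ
      rw [hb]
      have h1 : ∀ m, c.ι (γ⁻¹ • b m) =
          ∑ l, algebraMap (Fk k) Q (toXm k μ (β.repr (b m) l)) * c.ι (γ⁻¹ • β l) := by
        intro m
        conv_lhs => rw [← β.sum_repr (b m)]
        rw [Finset.smul_sum, map_sum]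
        refine Finset.sum_congr rfl fun l _ => ?_
        rw [Algebra.smul_def, smul_mul', c.gal.comm, map_mul, c.ι_alg]
      have h2 : ∀ l, algebraMap (Fk k) Q
          ((∑ m, (⟨r m, hr m⟩ : Rr k) * τ (β.repr (b m) l) : Rr k) : Fk k) * c.ι (γ⁻¹ • β l)
          = ∑ m, algebraMap (Fk k) Q (r m) *
            (algebraMap (Fk k) Q (toXm k μ (β.repr (b m) l)) * c.ι (γ⁻¹ • β l)) := by
        intro l
        have e : ((∑ m, (⟨r m, hr m⟩ : Rr k) * τ (β.repr (b m) l) : Rr k) : Fk k)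
            = ∑ m, r m * toXm k μ (β.repr (b m) l) := by
          rw [AddSubmonoidClass.coe_finsetSum]
          rfl
        rw [e, map_sum, Finset.sum_mul]
        refine Finset.sum_congr rfl fun m _ => ?_
        rw [map_mul, mul_assoc]
      simp only [h1, h2]
      rw [Finset.sum_comm]
      refine Finset.sum_congr rfl fun m _ => ?_
      rw [Finset.mul_sum]
    have hz := key γ₀
    rw [hγ₀] at hz
    have hzero := QD3_indep (I := Module.Free.ChooseBasisIndex k[X] c.B) β' τ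
      ((algebraMap (Fk k) Q).comp (Rr k).subtype) c.ι
      ((D3_map (algebraMap k[X] c.B)).comp χ) (HahnSeries.C : c.B →+* LaurentSeries c.B)
      (by
        intro x y hxy
        apply Subtype.ext
        exact hQ.inj hxy)
      (fun a => c.ι_alg a)
      (fun a => by
        rw [RingHom.comp_apply, D3_chi χ hχ]
        ext n
        rw [D3_map_coeff, D3_coeff_C, D3_coeff_C]
        split_ifs <;> simp)
      (by
        intro r hr
        funext l
        apply D3_chi_inj χ hχ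
        refine HahnSeries.ext (funext fun n => ?_)
        have h1 : ∑ l, (χ (r l)).coeff n • β' l = 0 := by
          have h2 := congrArg (fun f : LaurentSeries c.B => f.coeff n) hr
          simp only [HahnSeries.coeff_sum, HahnSeries.coeff_zero] at h2
          rw [← h2]
          refine Finset.sum_congr rfl fun l _ => ?_
          rw [mul_comm, HahnSeries.C_mul_eq_smul, HahnSeries.coeff_smul, RingHom.comp_apply,
            D3_map_coeff, Algebra.smul_def, smul_eq_mul, mul_comm]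
        have h3 := Fintype.linearIndependent_iff.1 β'.linearIndependent _ h1 l
        rw [h3]
        simp)
      (fun l => ∑ m, (⟨r m, hr m⟩ : Rr k) * τ (β.repr (b m) l))
      (by
        rw [hz]
        refine Finset.sum_congr rfl fun l _ => ?_
        rw [hβ']
        rfl)
    funext γ
    rw [key γ]
    refine Finset.sum_eq_zero fun l _ => ?_
    have := congrFun hzero l
    simp only [Pi.zero_apply] at this
    rw [this]
    simp
  · intro hinv
    have := Fintype.ofFinite H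
    obtain ⟨θ, hθ⟩ := gal_trace_one c.gal
    choose f hf using fun m => gal_trace c.gal (θ * b m)
    refine ⟨∑ m, r m * toXm k μ (f m), (Rr k).sum_mem fun m _ =>
      (Rr k).mul_mem (hr m) (toXm_mem k μ _), fun γ => ?_⟩
    rw [hinv γ]
    have h1 : ∑ δ : H, c.ι (δ⁻¹ • θ) = 1 := by
      rw [← map_sum, ← map_one c.ι, ← hθ]
      congr 1
      exact Fintype.sum_bijective (fun x => x⁻¹) (inv_involutive.bijective) _ _ fun x => rfl
    calc u 1 = ∑ δ : H, c.ι (δ⁻¹ • θ) * u δ := by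
          rw [← one_mul (u 1), ← h1, Finset.sum_mul]
          exact Finset.sum_congr rfl fun δ _ => by rw [hinv δ]
      _ = ∑ δ : H, ∑ m, algebraMap (Fk k) Q (r m) * c.ι (δ⁻¹ • (θ * b m)) := by
          refine Finset.sum_congr rfl fun δ _ => ?_
          rw [hb, Finset.mul_sum]
          refine Finset.sum_congr rfl fun m _ => ?_
          rw [smul_mul', map_mul]
          ring
      _ = ∑ m, algebraMap (Fk k) Q (r m) * algebraMap (Fk k) Q (toXm k μ (f m)) := by
          rw [Finset.sum_comm]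
          refine Finset.sum_congr rfl fun m _ => ?_
          rw [← Finset.mul_sum, ← c.ι_alg, hf, ← map_sum]
          congr 2
          exact Fintype.sum_bijective (fun x => x⁻¹) (inv_involutive.bijective) _ _ fun x => rfl
      _ = _ := by
          rw [map_sum]
          exact Finset.sum_congr rfl fun m _ => by rw [map_mul]

/-! ## QV2 -/

/-- `RN` is stable under translations -/
theorem QV2_tr {k : Type} [Field k] {μ : ℕ} {H : Type} [Group H] {P' : Type} [Group P']
    {π : P' →* H} {Q : Type} [CommRing Q] [Algebra (Fk k) Q] [MulSemiringAction P' Q]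
    (c : InnerM k μ H P' π Q) (δ : H) {u : H → Q} (hu : u ∈ RN c) :
    (fun γ => u (δ * γ)) ∈ RN c := by
  unfold RN at hu ⊢
  induction hu using Subring.closure_induction with
  | mem x hx =>
    rcases hx with ⟨r, hr, rfl⟩ | ⟨b, rfl⟩
    · exact Subring.subset_closure (Or.inl ⟨r, hr, rfl⟩)
    · refine Subring.subset_closure (Or.inr ⟨δ⁻¹ • b, ?_⟩)
      funext γ
      beta_reduce
      rw [mul_inv_rev, mul_smul]
  | zero => exact Subring.zero_mem _
  | one => exact Subring.one_mem _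
  | add x y _ _ hx hy => exact Subring.add_mem _ hx hy
  | neg x _ hx => exact Subring.neg_mem _ hx
  | mul x y _ _ hx hy => exact Subring.mul_mem _ hx hy

section

variable {k : Type} [Field k] {μ : ℕ} {N : ℕ} {G : Type} [Group G] {P' : Fin N → Subgroup G}
  {H : Fin N → Subgroup G} {hH : ∀ i, P' i ≤ H i}
  {Q : Fin N → Type} [∀ i, CommRing (Q i)] [∀ i, Algebra (Fk k) (Q i)]
  [∀ i, MulSemiringAction (P' i) (Q i)]
  (c : ∀ i, InnerM k μ (H i) (P' i) (Subgroup.inclusion (hH i)) (Q i))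
  (hQ : ∀ i, GalAlg (Fk k) (P' i) (Q i))
  {n : Fin N → ℕ} (β : ∀ i, Fin (n i) → (c i).B)
  (r : ∀ i, G ⧸ H i → G)
  (hr : ∀ i (g : G), (r i (QuotientGroup.mk g))⁻¹ * g ∈ H i)

/-- the element of `H i` with `g = r γ` -/
def QV2_gam (i : Fin N) (g : G) : H i := ⟨(r i (QuotientGroup.mk g))⁻¹ * g, hr i g⟩

/-- the function with given coordinates -/
noncomputable def QV2_fun (a : (Σ i, (G ⧸ H i) × Fin (n i)) → Fk k) : G → ∀ i, Q i :=
  fun g i => ∑ l, algebraMap (Fk k) (Q i) (a ⟨i, (QuotientGroup.mk g, l)⟩) *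
    (c i).ι ((QV2_gam r hr i g)⁻¹ • β i l)

include hQ in
theorem QV2_mem (a : (Σ i, (G ⧸ H i) × Fin (n i)) → Fk k) :
    QV2_fun c β r hr a ∈ VQ (G := G) hQ := by
  intro g i τ
  have h1 : (QuotientGroup.mk (g * τ) : G ⧸ H i) = QuotientGroup.mk g := by
    rw [QuotientGroup.eq, mul_inv_rev, inv_mul_cancel_right]
    exact (H i).inv_mem (hH i τ.2)
  have h2 : QV2_gam r hr i (g * τ) = QV2_gam r hr i g * Subgroup.inclusion (hH i) τ := by
    apply Subtype.ext
    change (r i (QuotientGroup.mk (g * τ)))⁻¹ * (g * τ) = (r i (QuotientGroup.mk g))⁻¹ * g * τ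
    rw [h1, mul_assoc]
  unfold QV2_fun
  rw [Finset.smul_sum]
  refine Finset.sum_congr rfl fun l _ => ?_
  rw [h1, h2, smul_mul', (hQ i).comm, ← (c i).ι_act, mul_inv_rev, mul_smul, smul_inv_smul]

/-- the linear map from coordinates to equivariant functions -/
noncomputable def QV2_lin : ((Σ i, (G ⧸ H i) × Fin (n i)) → Fk k) →ₗ[Fk k] VQ (G := G) hQ where
  toFun a := ⟨QV2_fun c β r hr a, QV2_mem c hQ β r hr a⟩
  map_add' a b := by
    apply Subtype.ext
    funext g i
    change QV2_fun c β r hr (a + b) g i = QV2_fun c β r hr a g i + QV2_fun c β r hr b g i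
    unfold QV2_fun
    rw [← Finset.sum_add_distrib]
    refine Finset.sum_congr rfl fun l _ => ?_
    rw [Pi.add_apply, map_add, add_mul]
  map_smul' x a := by
    apply Subtype.ext
    funext g i
    change QV2_fun c β r hr (x • a) g i = x • QV2_fun c β r hr a g i
    rw [Algebra.smul_def]
    unfold QV2_fun
    rw [Finset.mul_sum]
    refine Finset.sum_congr rfl fun l _ => ?_
    rw [Pi.smul_apply, smul_eq_mul, map_mul, mul_assoc]

end

theorem prf_QV2 (hQB1 : QB1) : QV2 := by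
  classical
  intro k _ μ N G _ _ P' H hH Q _ _ _ c hm hQ
  have hfin : ∀ i, Finite (H i) := fun i => inferInstance
  choose n β hβ1 hβ2 using fun i => hQB1 k μ (H i) (P' i) (Subgroup.inclusion (hH i)) (Q i) (c i)
    hm (hQ i)
  have hfinq : ∀ i, Finite (G ⧸ H i) := fun i => inferInstance
  have hfintq : ∀ i, Fintype (G ⧸ H i) := fun i => Fintype.ofFinite _
  let r : ∀ i, G ⧸ H i → G := fun i => Quotient.out
  have hr0 : ∀ i (x : G ⧸ H i), (QuotientGroup.mk (r i x) : G ⧸ H i) = x :=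
    fun i x => QuotientGroup.out_eq' x
  have hr : ∀ i (g : G), (r i (QuotientGroup.mk g))⁻¹ * g ∈ H i := by
    intro i g
    rw [← QuotientGroup.eq]
    exact hr0 i _
  let Θ := QV2_lin c hQ (fun i => ⇑(β i)) r hr
  -- values of `Θ a` on a coset
  have hval : ∀ (a : (Σ i, (G ⧸ H i) × Fin (n i)) → Fk k) (i : Fin N) (x : G ⧸ H i) (γ : H i),
      ((Θ a : VQ (G := G) hQ) : G → ∀ i, Q i) (r i x * γ) i =
        ∑ l, algebraMap (Fk k) (Q i) (a ⟨i, (x, l)⟩) * (c i).ι (γ⁻¹ • β i l) := by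
    intro a i x γ
    have h1 : (QuotientGroup.mk (r i x * γ) : G ⧸ H i) = x := by
      rw [← hr0 i x, QuotientGroup.eq, hr0 i x, mul_inv_rev, inv_mul_cancel_right]
      exact (H i).inv_mem γ.2
    have h2 : QV2_gam r hr i (r i x * γ) = γ := by
      apply Subtype.ext
      change (r i (QuotientGroup.mk (r i x * γ)))⁻¹ * (r i x * γ) = γ
      rw [h1, inv_mul_cancel_left]
    change QV2_fun c (fun i => ⇑(β i)) r hr a (r i x * γ) i = _
    unfold QV2_fun
    rw [h1, h2]
  have hsurj : Function.Surjective Θ := by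
    intro v
    have hv : ∀ g i (τ : P' i), τ • (v : G → ∀ i, Q i) (g * τ) i = (v : G → ∀ i, Q i) g i := v.2
    choose a ha _ using fun (i : Fin N) (x : G ⧸ H i) =>
      hβ1 i (fun γ => (v : G → ∀ i, Q i) (r i x * γ) i) (fun γ τ => by
        have := hv (r i x * γ) i τ
        rw [mul_assoc] at this
        exact this)
    refine ⟨fun s => a s.1 s.2.1 s.2.2, ?_⟩
    apply Subtype.ext
    funext g i
    have h1 : g = r i (QuotientGroup.mk g) * (⟨_, hr i g⟩ : H i) := by
      change g = r i (QuotientGroup.mk g) * ((r i (QuotientGroup.mk g))⁻¹ * g)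
      rw [mul_inv_cancel_left]
    conv_lhs => rw [h1]
    rw [hval]
    have h2 := ha i (QuotientGroup.mk g) ⟨_, hr i g⟩
    rw [← h1] at h2
    exact h2.symm
  have hinj : Function.Injective Θ := by
    intro a b hab
    funext s
    obtain ⟨i, x, l⟩ := s
    have hv : ∀ g i (τ : P' i), τ • ((Θ a : VQ (G := G) hQ) : G → ∀ i, Q i) (g * τ) i =
        ((Θ a : VQ (G := G) hQ) : G → ∀ i, Q i) g i := (Θ a).2
    obtain ⟨a', -, huniq⟩ := hβ1 i
      (fun γ => ((Θ a : VQ (G := G) hQ) : G → ∀ i, Q i) (r i x * γ) i) (fun γ τ => by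
        have := hv (r i x * γ) i τ
        rw [mul_assoc] at this
        exact this)
    have h1 := huniq (fun l => a ⟨i, (x, l)⟩) (fun γ => hval a i x γ)
    have h2 := huniq (fun l => b ⟨i, (x, l)⟩) (fun γ => by
      beta_reduce
      rw [hab]
      exact hval b i x γ)
    exact congrFun (h1.trans h2.symm) l
  let Ψ : VQ (G := G) hQ ≃ₗ[Fk k] ((Σ i, (G ⧸ H i) × Fin (n i)) → Fk k) :=
    (LinearEquiv.ofBijective Θ ⟨hinj, hsurj⟩).symm
  refine ⟨(Σ i, (G ⧸ H i) × Fin (n i)), inferInstance, Module.Basis.ofEquivFun Ψ, fun v => ?_⟩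
  have hrepr : ∀ s, (Module.Basis.ofEquivFun Ψ).repr v s = Ψ v s := by
    intro s
    rw [Module.Basis.ofEquivFun_repr_apply]
  simp only [hrepr]
  have hΨ : Θ (Ψ v) = v := (LinearEquiv.ofBijective Θ ⟨hinj, hsurj⟩).apply_symm_apply v
  have hcos : ∀ (i : Fin N) (x : G ⧸ H i),
      (fun γ : H i => (v : G → ∀ i, Q i) (r i x * γ) i) =
      fun γ : H i => ∑ l, algebraMap (Fk k) (Q i) (Ψ v ⟨i, (x, l)⟩) *
        (c i).ι (γ⁻¹ • β i l) := by
    intro i x
    funext γ
    conv_lhs => rw [← hΨ]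
    exact hval _ i x γ
  constructor
  · rintro h ⟨i, x, l⟩
    have h1 := h i (r i x)
    rw [hcos] at h1
    exact (hβ2 i _).1 h1 l
  · intro h i g
    have h1 : (fun γ : H i => (v : G → ∀ i, Q i) (r i (QuotientGroup.mk g) * γ) i) ∈
        RN (c i) := by
      rw [hcos]
      exact (hβ2 i _).2 fun l => h ⟨i, (QuotientGroup.mk g, l)⟩
    have h2 := QV2_tr (c i) ⟨_, hr i g⟩ h1
    have h3 : (fun γ : H i => (v : G → ∀ i, Q i) (g * γ) i) = fun γ : H i =>
        (v : G → ∀ i, Q i) (r i (QuotientGroup.mk g) *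
          (((⟨_, hr i g⟩ : H i) * γ : H i) : G)) i := by
      funext γ
      have h4 : g * (γ : G) = r i (QuotientGroup.mk g) *
          (((⟨_, hr i g⟩ : H i) * γ : H i) : G) := by
        change g * (γ : G) = r i (QuotientGroup.mk g) * ((r i (QuotientGroup.mk g))⁻¹ * g * γ)
        rw [mul_assoc, mul_inv_cancel_left]
      rw [← h4]
    rw [h3]
    exact h2

/-! ## QV4R -/

section

variable {k : Type} [Field k] {μ N : ℕ} {G : Type} [Group G]
  {Q : Fin N → Type} [∀ i, CommRing (Q i)] [∀ i, Algebra (Fk k) (Q i)]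

theorem QV4R_cert {H P' : Type} [Group H] [Group P'] {π : P' →* H} {Q0 : Type} [CommRing Q0]
    [Algebra (Fk k) Q0] [MulSemiringAction P' Q0] (c : InnerM k μ H P' π Q0) (σ : H) (hσ : σ ≠ 1) :
    ∃ (n : ℕ) (α β : Fin n → H → Q0), (∀ m, α m ∈ RN c ∧ β m ∈ RN c) ∧
      ∀ γ, ∑ m, α m γ * (β m γ - β m (σ⁻¹ * γ)) = 1 := by
  have h1 : (1 : c.B) ∈ Ideal.span {x : c.B | ∃ b : c.B, x = b - σ • b} := by
    rw [c.gal.unr σ hσ]
    trivial
  obtain ⟨n, f, g, hfg⟩ := Submodule.mem_span_set'.mp h1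
  choose b hb using fun m : Fin n => (g m).2
  have hmem : ∀ e : c.B, (fun γ : H => c.ι (γ⁻¹ • e)) ∈ RN c := fun e =>
    Subring.subset_closure (Or.inr ⟨e, rfl⟩)
  refine ⟨n, fun m => fun γ => c.ι (γ⁻¹ • f m), fun m => fun γ => c.ι (γ⁻¹ • b m),
    fun m => ⟨hmem _, hmem _⟩, fun γ => ?_⟩
  have h2 : ∀ m, c.ι (γ⁻¹ • f m) * (c.ι (γ⁻¹ • b m) - c.ι ((σ⁻¹ * γ)⁻¹ • b m)) =
      c.ι (γ⁻¹ • (f m * (g m : c.B))) := by
    intro m
    rw [hb m, smul_mul', smul_sub, map_mul, map_sub, mul_inv_rev, inv_inv, mul_smul]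
  simp only [h2]
  rw [← map_sum, ← Finset.smul_sum]
  have h3 : ∑ m, f m * (g m : c.B) = 1 := by
    rw [← hfg]
    rfl
  rw [h3, smul_one, map_one]

variable {P' H : Fin N → Subgroup G} {hH : ∀ i, P' i ≤ H i} [∀ i, MulSemiringAction (P' i) (Q i)]

theorem QV4R_ind_EqQ (i0 : Fin N) (q : G ⧸ H i0) (hH : ∀ i, P' i ≤ H i) (f : G → Q i0)
    (hf : ∀ g, (QuotientGroup.mk g : G ⧸ H i0) = q → ∀ τ : P' i0, τ • f (g * τ) = f g) :
    QV4R_ind (H i0) i0 q f ∈ EqQ G P' Q := by
  intro g i τ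
  by_cases hi : i = i0
  · subst hi
    by_cases hg : (QuotientGroup.mk g : G ⧸ H i) = q
    · have hg' : (QuotientGroup.mk (g * (τ : G)) : G ⧸ H i) = q := by
        rw [QuotientGroup.mk_mul_of_mem g (hH i τ.2), hg]
      rw [QV4R_ind_pos hg, QV4R_ind_pos hg']
      exact hf g hg τ
    · have hg' : ¬ (QuotientGroup.mk (g * (τ : G)) : G ⧸ H i) = q := by
        rw [QuotientGroup.mk_mul_of_mem g (hH i τ.2)]
        exact hg
      rw [QV4R_ind_neg _ hg, QV4R_ind_neg _ hg', smul_zero]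
  · rw [QV4R_ind_ne hi, QV4R_ind_ne hi, smul_zero]

theorem QV4R_ind_InR (c : ∀ i, InnerM k μ (H i) (P' i) (Subgroup.inclusion (hH i)) (Q i))
    (i0 : Fin N) (q : G ⧸ H i0) (f : G → Q i0)
    (hf : ∀ g, (QuotientGroup.mk g : G ⧸ H i0) = q →
      (fun γ : H i0 => f (g * γ)) ∈ RN (c i0)) :
    QV4R_ind (H i0) i0 q f ∈ InRQ c := by
  intro i g
  by_cases hi : i = i0
  · subst hi
    by_cases hg : (QuotientGroup.mk g : G ⧸ H i) = q
    · have e : (fun γ : H i => QV4R_ind (H i) i q f (g * (γ : G)) i) =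
          fun γ : H i => f (g * γ) := by
        funext γ
        exact QV4R_ind_pos (by rw [QuotientGroup.mk_mul_of_mem g γ.2, hg])
      rw [e]
      exact hf g hg
    · have e : (fun γ : H i => QV4R_ind (H i) i q f (g * (γ : G)) i) = (0 : H i → Q i) := by
        funext γ
        exact QV4R_ind_neg _ (fun h => hg (by rw [← h, QuotientGroup.mk_mul_of_mem g γ.2]))
      rw [e]
      exact (RN (c i)).zero_mem
  · have e : (fun γ : H i => QV4R_ind (H i0) i0 q f (g * (γ : G)) i) = (0 : H i → Q i) := by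
      funext γ
      exact QV4R_ind_ne hi
    rw [e]
    exact (RN (c i)).zero_mem

theorem QV4R_ext_mem (hQP2 : QP2)
    (c : ∀ i, InnerM k μ (H i) (P' i) (Subgroup.inclusion (hH i)) (Q i))
    (hgal : ∀ i, GalAlg (Fk k) (P' i) (Q i)) (i0 : Fin N) (q : G ⧸ H i0)
    (a : H i0 → Q i0) (ha : a ∈ RN (c i0)) :
    QV4R_ind (H i0) i0 q (QV4R_ext (H i0) q.out a) ∈ EqQ G P' Q ⊓ InRQ c := by
  obtain ⟨-, h1, h2⟩ := hQP2 k μ (H i0) (P' i0) (Subgroup.inclusion (hH i0)) (Q i0) (c i0) a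
  refine ⟨QV4R_ind_EqQ i0 q hH _ fun g hg τ => ?_, QV4R_ind_InR c i0 q _ fun g hg => ?_⟩
  · have hg' : (QuotientGroup.mk (g * (τ : G)) : G ⧸ H i0) = q := by
      rw [QuotientGroup.mk_mul_of_mem g (hH i0 τ.2), hg]
    rw [QV4R_ext_eq a hg, QV4R_ext_eq a hg', ← h1 ha (hgal i0) ⟨q.out⁻¹ * g, QV4R_mem hg⟩ τ]
    congr 2
    apply Subtype.ext
    show q.out⁻¹ * (g * τ) = q.out⁻¹ * g * τ
    rw [mul_assoc]
  · have h3 := h2 ha ⟨q.out⁻¹ * g, QV4R_mem hg⟩
    have e : (fun γ : H i0 => QV4R_ext (H i0) q.out a (g * (γ : G))) =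
        fun γ : H i0 => a (⟨q.out⁻¹ * g, QV4R_mem hg⟩ * γ) := by
      funext γ
      have hg' : (QuotientGroup.mk (g * (γ : G)) : G ⧸ H i0) = q := by
        rw [QuotientGroup.mk_mul_of_mem g γ.2, hg]
      rw [QV4R_ext_eq a hg']
      congr 1
      apply Subtype.ext
      show q.out⁻¹ * (g * (γ : G)) = q.out⁻¹ * g * γ
      rw [mul_assoc]
    rw [e]
    exact h3

end

theorem prf_QV4R (hQP2 : QP2) : QV4R := by
  classical
  intro k _ μ N G _ _ P' H hH Q _ _ _ c σ hgal hσ
  -- the constant functions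
  have hone : ∀ (i : Fin N) (q : G ⧸ H i), QV4R_ind (H i) i q (fun _ => (1 : Q i)) ∈
      EqQ G P' Q ⊓ InRQ c := by
    intro i q
    refine ⟨QV4R_ind_EqQ i q hH _ fun g _ τ => smul_one τ, QV4R_ind_InR c i q _ fun g _ => ?_⟩
    exact (RN (c i)).one_mem
  have hσq : ∀ (i : Fin N) (q : G ⧸ H i) (g : G), (QuotientGroup.mk g : G ⧸ H i) = q →
      (QuotientGroup.mk (σ⁻¹ * g) : G ⧸ H i) = QuotientGroup.mk (σ⁻¹ * q.out) := by
    intro i q g hg
    rw [QuotientGroup.eq]
    have h1 : (σ⁻¹ * g)⁻¹ * (σ⁻¹ * q.out) = (q.out⁻¹ * g)⁻¹ := by group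
    rw [h1]
    exact (H i).inv_mem (QV4R_mem hg)
  have key : ∀ (i : Fin N) (q : G ⧸ H i), ∃ (n : ℕ) (α β : Fin n → G → ∀ i, Q i),
      (∀ m, α m ∈ EqQ G P' Q ⊓ InRQ c ∧ β m ∈ EqQ G P' Q ⊓ InRQ c) ∧
      ∑ m, α m * (β m - trQ σ (β m)) = QV4R_ind (H i) i q (fun _ => (1 : Q i)) := by
    intro i q
    by_cases hq : (QuotientGroup.mk (σ⁻¹ * q.out) : G ⧸ H i) = q
    · -- the coset is fixed
      have hmem : q.out⁻¹ * (σ⁻¹ * q.out) ∈ H i := QV4R_mem hq
      obtain ⟨γ0, hγ0⟩ : ∃ γ0 : H i, γ0⁻¹ = ⟨q.out⁻¹ * (σ⁻¹ * q.out), hmem⟩ := ⟨_, inv_inv _⟩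
      have hne : γ0 ≠ 1 := by
        intro h
        rw [h, inv_one] at hγ0
        have h1 : (1 : G) = q.out⁻¹ * (σ⁻¹ * q.out) := congrArg Subtype.val hγ0
        apply hσ
        have h2 : σ⁻¹ * q.out = q.out := (inv_mul_eq_one.1 h1.symm).symm
        have h3 : σ⁻¹ = 1 := mul_eq_right.1 h2
        exact inv_eq_one.1 h3
      obtain ⟨n, α, β, hαβ, hsum⟩ := QV4R_cert (c i) γ0 hne
      refine ⟨n, fun m => QV4R_ind (H i) i q (QV4R_ext (H i) q.out (α m)),
        fun m => QV4R_ind (H i) i q (QV4R_ext (H i) q.out (β m)),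
        fun m => ⟨QV4R_ext_mem hQP2 c hgal i q _ (hαβ m).1,
          QV4R_ext_mem hQP2 c hgal i q _ (hαβ m).2⟩, ?_⟩
      funext g i'
      rw [Finset.sum_apply, Finset.sum_apply]
      show ∑ m, QV4R_ind (H i) i q (QV4R_ext (H i) q.out (α m)) g i' *
        (QV4R_ind (H i) i q (QV4R_ext (H i) q.out (β m)) g i' -
          QV4R_ind (H i) i q (QV4R_ext (H i) q.out (β m)) (σ⁻¹ * g) i') = _
      by_cases hi : i' = i
      · subst hi
        by_cases h : (QuotientGroup.mk g : G ⧸ H i') = q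
        · have hg' : (QuotientGroup.mk (σ⁻¹ * g) : G ⧸ H i') = q := by rw [hσq i' q g h, hq]
          rw [QV4R_ind_pos h]
          simp_rw [QV4R_ind_pos h, QV4R_ind_pos hg', QV4R_ext_eq _ h, QV4R_ext_eq _ hg']
          have h5 := hsum ⟨q.out⁻¹ * g, QV4R_mem h⟩
          rw [← h5]
          refine Finset.sum_congr rfl fun m _ => ?_
          congr 3
          rw [hγ0]
          apply Subtype.ext
          show q.out⁻¹ * (σ⁻¹ * g) = q.out⁻¹ * (σ⁻¹ * q.out) * (q.out⁻¹ * g)
          group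
        · rw [QV4R_ind_neg _ h]
          simp_rw [QV4R_ind_neg _ h, zero_mul]
          exact Finset.sum_const_zero
      · rw [QV4R_ind_ne hi]
        simp_rw [QV4R_ind_ne hi, zero_mul]
        exact Finset.sum_const_zero
    · refine ⟨1, fun _ => QV4R_ind (H i) i q (fun _ => (1 : Q i)),
        fun _ => QV4R_ind (H i) i q (fun _ => (1 : Q i)), fun _ => ⟨hone i q, hone i q⟩, ?_⟩
      rw [Fin.sum_univ_one]
      funext g i'
      show QV4R_ind (H i) i q (fun _ => (1 : Q i)) g i' *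
        (QV4R_ind (H i) i q (fun _ => (1 : Q i)) g i' -
          QV4R_ind (H i) i q (fun _ => (1 : Q i)) (σ⁻¹ * g) i') =
        QV4R_ind (H i) i q (fun _ => (1 : Q i)) g i'
      by_cases hi : i' = i
      · subst hi
        by_cases h : (QuotientGroup.mk g : G ⧸ H i') = q
        · have hg' : ¬ (QuotientGroup.mk (σ⁻¹ * g) : G ⧸ H i') = q := by
            intro h'
            exact hq (by rw [← hσq i' q g h, h'])
          rw [QV4R_ind_pos h, QV4R_ind_neg _ hg', sub_zero, mul_one]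
        · rw [QV4R_ind_neg _ h, zero_mul]
      · rw [QV4R_ind_ne hi, zero_mul]
  choose n α β hm hsum using key
  have hF : ∀ i, Finite (G ⧸ H i) := fun i => inferInstance
  have : ∀ i, Fintype (G ⧸ H i) := fun i => Fintype.ofFinite _
  let ι := Σ (x : Σ i : Fin N, G ⧸ H i), Fin (n x.1 x.2)
  refine ⟨Fintype.card ι, fun m => α _ _ ((Fintype.equivFin ι).symm m).2,
    fun m => β _ _ ((Fintype.equivFin ι).symm m).2, fun m => hm _ _ _, ?_⟩
  rw [Equiv.sum_comp (Fintype.equivFin ι).symm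
    (fun x : ι => α _ _ x.2 * (β _ _ x.2 - trQ σ (β _ _ x.2)))]
  rw [Fintype.sum_sigma]
  have h1 : ∀ x : Σ i : Fin N, G ⧸ H i, ∑ y : Fin (n x.1 x.2), α x.1 x.2 y *
      (β x.1 x.2 y - trQ σ (β x.1 x.2 y)) = QV4R_ind (H x.1) x.1 x.2 (fun _ => (1 : Q x.1)) :=
    fun x => hsum x.1 x.2
  rw [Finset.sum_congr rfl fun x _ => h1 x, Fintype.sum_sigma]
  funext g i
  rw [Finset.sum_apply, Finset.sum_apply]
  simp_rw [Finset.sum_apply]
  rw [Finset.sum_eq_single i]
  · rw [Finset.sum_eq_single (QuotientGroup.mk g : G ⧸ H i)]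
    · rw [QV4R_ind_pos rfl]
      rfl
    · intro q _ hq
      rw [QV4R_ind_neg _ (fun h => hq h.symm)]
    · intro h
      exact absurd (Finset.mem_univ _) h
  · intro i' _ hi'
    refine Finset.sum_eq_zero fun q _ => ?_
    rw [QV4R_ind_ne (fun h => hi' h.symm)]
  · intro h
    exact absurd (Finset.mem_univ _) h

end MP7b0bad.MT.PJ
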