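import Mathlib.RingTheory.Invariant.Basic
import Mathlib.RingTheory.Localization.Away.Basic
import Pool.Agent.Work.MP_7b0bad_ag.MT.PC

set_option autoImplicit false

/-!
# The ring `SM` of an outer torsor over `K[x][1/V]` is a domain
-/

namespace MP7b0bad.MT.PJ

open Polynomial

/-! ## Galois algebras over domains -/

section

variable {A M : Type} [CommRing A] [CommRing M] [Algebra A M] {Γ : Type} [Group Γ]
  [Finite Γ] [MulSemiringAction Γ M]

/-- an invariant ideal that meets the base ring in zero is zero -/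
theorem gal_fix (hM : GalAlg A Γ M) (p : Ideal M) (hp : ∀ a : A, algebraMap A M a ∈ p → a = 0)
    (hst : ∀ (g : Γ), ∀ z ∈ p, g • z ∈ p) : p = ⊥ := by
  classical
  have := Fintype.ofFinite Γ
  obtain ⟨n, x, y, h1, h2⟩ := gal_dual' hM
  rw [eq_bot_iff]
  intro z hz
  rw [Ideal.mem_bot, gal_formula h1 h2 z]
  refine Finset.sum_eq_zero fun m _ => ?_
  obtain ⟨a, ha⟩ := gal_trace hM (y m * z)
  have h3 : algebraMap A M a ∈ p := by
    rw [ha]
    exact p.sum_mem fun g _ => hst g _ (p.mul_mem_left _ hz)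
  rw [← ha, hp a h3, map_zero, zero_mul]

/-- primes over zero are conjugate -/
theorem gal_conj (hM : GalAlg A Γ M) (p q : Ideal M) (hpp : p.IsPrime) (hqp : q.IsPrime)
    (hp : ∀ a : A, algebraMap A M a ∈ p → a = 0) (hq : ∀ a : A, algebraMap A M a ∈ q → a = 0) :
    ∃ g : Γ, ∀ z, z ∈ q ↔ g⁻¹ • z ∈ p := by
  have h1 : SMulCommClass Γ A M := ⟨fun g a z => by
    rw [Algebra.smul_def, Algebra.smul_def, smul_mul', hM.comm]⟩
  have h2 : Algebra.IsInvariant A M Γ := ⟨fun b hb => hM.inv b hb⟩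
  have h3 : p.under A = ⊥ := by
    rw [eq_bot_iff]
    intro a ha
    exact hp a ha
  have h4 : q.under A = ⊥ := by
    rw [eq_bot_iff]
    intro a ha
    exact hq a ha
  obtain ⟨g, hg⟩ := Algebra.IsInvariant.exists_smul_of_under_eq A M Γ p q (h3.trans h4.symm)
  exact ⟨g, fun z => by rw [hg, Ideal.mem_pointwise_smul_iff_inv_smul_mem]⟩

/-- primes over zero with large stabilisers are zero -/
theorem gal_bot (hM : GalAlg A Γ M) {N : ℕ} (p : Ideal M) (q : Fin N → Ideal M)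
    (hpp : p.IsPrime) (hqp : ∀ i, (q i).IsPrime) (hp : ∀ a : A, algebraMap A M a ∈ p → a = 0)
    (hq : ∀ i, ∀ a : A, algebraMap A M a ∈ q i → a = 0) (D0 : Subgroup Γ) (D : Fin N → Subgroup Γ)
    (h0 : ∀ g ∈ D0, ∀ z ∈ p, g • z ∈ p) (hD : ∀ i, ∀ g ∈ D i, ∀ z ∈ q i, g • z ∈ q i)
    (hab : ∀ g h : Γ, g * h * g⁻¹ * h⁻¹ ∈ D0) (hgen : D0 ⊔ (⨆ i, D i) = ⊤) :
    p = ⊥ ∧ ∀ i, q i = ⊥ := by
  let K : Subgroup Γ :=
    { carrier := {g | ∀ z, z ∈ p ↔ g • z ∈ p}
      one_mem' := fun z => by rw [one_smul]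
      mul_mem' := fun {a b} ha hb z => by
        have h1 : z ∈ p ↔ b • z ∈ p := hb z
        have h2 : b • z ∈ p ↔ a • b • z ∈ p := ha (b • z)
        rw [mul_smul]
        exact h1.trans h2
      inv_mem' := fun {a} ha z => by
        have h1 : a⁻¹ • z ∈ p ↔ a • a⁻¹ • z ∈ p := ha (a⁻¹ • z)
        rw [smul_inv_smul] at h1
        exact h1.symm }
  have hK0 : D0 ≤ K := by
    intro g hg z
    refine ⟨fun hz => h0 g hg z hz, fun hz => ?_⟩
    have h1 := h0 g⁻¹ (D0.inv_mem hg) _ hz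
    rwa [inv_smul_smul] at h1
  choose t ht using fun i => gal_conj hM p (q i) hpp (hqp i) hp (hq i)
  have hKi : ∀ i, D i ≤ K := by
    intro i d hd
    have h1 : ∀ e ∈ D i, ∀ z ∈ p, ((t i)⁻¹ * e * t i) • z ∈ p := by
      intro e he z hz
      have h2 : t i • z ∈ q i := by rw [ht, inv_smul_smul]; exact hz
      have h3 := hD i e he _ h2
      rw [ht] at h3
      rwa [mul_smul, mul_smul]
    have h2 : (t i)⁻¹ * d * t i ∈ K := by
      intro z
      refine ⟨fun hz => h1 d hd z hz, fun hz => ?_⟩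
      have h3 := h1 d⁻¹ ((D i).inv_mem hd) _ hz
      rw [smul_smul] at h3
      have h4 : (t i)⁻¹ * d⁻¹ * t i * ((t i)⁻¹ * d * t i) = 1 := by group
      rwa [h4, one_smul] at h3
    have h3 := hab d (t i)⁻¹
    have h4 : d = (d * (t i)⁻¹ * d⁻¹ * (t i)⁻¹⁻¹) * ((t i)⁻¹ * d * t i) := by group
    rw [h4]
    exact K.mul_mem (hK0 h3) h2
  have hK : K = ⊤ := by
    rw [eq_top_iff, ← hgen]
    exact sup_le hK0 (iSup_le hKi)
  have hbot : p = ⊥ := by
    refine gal_fix hM p hp fun g z hz => ?_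
    have h1 : g ∈ K := by rw [hK]; trivial
    exact (h1 z).1 hz
  refine ⟨hbot, fun i => ?_⟩
  rw [eq_bot_iff]
  intro z hz
  rw [ht, hbot, Ideal.mem_bot] at hz
  rw [Ideal.mem_bot]
  have h1 := congrArg (fun y => t i • y) hz
  simpa using h1

end

/-! ## The map `R → S[x]` -/

/-- homomorphisms from `R` are determined by their restriction to `K[x]` -/
theorem rb_loc {k : Type} [Field k] {N : ℕ} {V : (LaurentSeries k)[X]} {ξ : Fin N → Fk k}
    (b : RB k N V ξ) {T : Type} [CommRing T] (g : (LaurentSeries k)[X] →+* T)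
    (hg : IsUnit (g V)) :
    (∃ l : b.R →+* T, ∀ f, l (b.κ f) = g f) ∧
    ∀ l l' : b.R →+* T, (∀ f, l (b.κ f) = l' (b.κ f)) → l = l' := by
  let _ : Algebra (LaurentSeries k)[X] b.R := b.κ.toAlgebra
  have hal : ∀ f, algebraMap (LaurentSeries k)[X] b.R f = b.κ f := fun f => rfl
  have hloc : IsLocalization (Submonoid.powers V) b.R :=
    { map_units := by
        rintro ⟨_, n, rfl⟩
        rw [hal, map_pow]
        exact b.unit.pow n
      surj := fun r => by
        obtain ⟨n, f, h⟩ := b.frac r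
        refine ⟨(f, ⟨V ^ n, n, rfl⟩), ?_⟩
        rw [hal, hal, map_pow, mul_comm]
        exact h
      exists_of_eq := fun {x y} h => ⟨1, by rw [b.inj h]⟩ }
  have hu : ∀ y : Submonoid.powers V, IsUnit (g y) := by
    rintro ⟨_, n, rfl⟩
    rw [map_pow]
    exact hg.pow n
  refine ⟨⟨IsLocalization.lift (M := Submonoid.powers V) (S := b.R) hu, fun f =>
    IsLocalization.lift_eq hu f⟩, fun l l' h => ?_⟩
  exact IsLocalization.ringHom_ext (Submonoid.powers V) (RingHom.ext h)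

/-! ## The ring `SM` -/

theorem SM_dom (k : Type) [Field k] (N : ℕ) (V : (LaurentSeries k)[X])
    (ξ : Fin N → Fk k) (b : RB k N V ξ) (P : Type) [Group P] [Finite P] (P' : Fin N → Type)
    [∀ i, Group (P' i)] [∀ i, Finite (P' i)] (π : ∀ i, P' i →* P)
    (Q : Fin N → Type) [∀ i, CommRing (Q i)] [∀ i, Algebra (Fk k) (Q i)]
    [∀ i, MulSemiringAction (P' i) (Q i)] (O : OuterR k b P P' π Q) (hD : DiscsK k N V ξ)
    (hN : 0 < N) (hG : ∀ i, GalAlg (Fk k) (P' i) (Q i)) (hQd : ∀ i, IsDomain (Q i))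
    (G₀ : Type) [Group G₀] (π₀ : G₀ →* P) (E : Type) [CommRing E]
    [Algebra (LaurentSeries (LaurentSeries k)) E] [MulSemiringAction G₀ E]
    (hE : GalAlg (LaurentSeries (LaurentSeries k)) G₀ E) (hEd : IsDomain E) (j : O.A →+* E)
    (j_alg : ∀ r : b.R, j (algebraMap b.R O.A r) =
      algebraMap (LaurentSeries (LaurentSeries k)) E (b.ρI r))
    (j_act : ∀ (g : G₀) (e : O.A), j (π₀ g • e) = g • j e)
    (hab : ∀ g h : P, g * h * g⁻¹ * h⁻¹ ∈ π₀.range)
    (hgen : π₀.range ⊔ (⨆ i, (π i).range) = ⊤) :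
    (∀ u ∈ SM O, (∃ γ i, u γ i = 0) → u = 0) ∧
    ∃ Θ : SM O →+* E, Function.Injective Θ ∧
      (∀ (e : O.A) (h : (fun (γ : P) i => O.a i (γ⁻¹ • e)) ∈ SM O), Θ ⟨_, h⟩ = j e) ∧
      ∀ (u : P → ∀ i, Q i) (h : u ∈ SM O) (δ : G₀) (h' : (fun γ => u ((π₀ δ)⁻¹ * γ)) ∈ SM O),
        Θ ⟨_, h'⟩ = δ • Θ ⟨u, h⟩ := by
  classical
  obtain ⟨A1, _, o, x, a, aI, h1, h2, h3, h4, h5, h6, h7⟩ := all_QC2c k N V ξ hD hN
  let i0 : Fin N := ⟨0, hN⟩
  have hA1 : IsDomain A1 := (h3 i0).isDomain (a i0)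
  -- K → S
  let ks : LaurentSeries k →+* Ss k :=
    ((jj k).comp (C : LaurentSeries k →+* (LaurentSeries k)[X])).codRestrict (Ss k)
      (fun c => by rw [RingHom.comp_apply, QTh_jjC]; exact QTh_KF_Ss k c)
  let κ : (LaurentSeries k)[X] →+* A1 := eval₂RingHom (o.comp ks) x
  have hκa : ∀ i f, a i (κ f) = f.eval₂ (KF k) (ξ i) := by
    intro i f
    have : (a i).comp κ = eval₂RingHom (KF k) (ξ i) := by
      refine Polynomial.ringHom_ext (fun c => ?_) ?_
      · simp only [κ, RingHom.comp_apply, coe_eval₂RingHom, eval₂_C]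
        rw [h1]
        change jj k (C c) = _
        exact QTh_jjC k c
      · simp only [κ, RingHom.comp_apply, coe_eval₂RingHom, eval₂_X]
        exact h2 i
    exact congrArg (fun g => g f) this
  have hκI : ∀ f, aI (κ f) = atInf (LaurentSeries k) f := by
    intro f
    have : aI.comp κ = atInf (LaurentSeries k) := by
      refine Polynomial.ringHom_ext (fun c => ?_) ?_
      · simp only [κ, RingHom.comp_apply, coe_eval₂RingHom, eval₂_C]
        have := h6 (C c) (by rw [QTh_jjC]; exact QTh_KF_Ss k c)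
        rw [C_comp] at this
        exact this
      · simp only [κ, RingHom.comp_apply, coe_eval₂RingHom, eval₂_X]
        exact h5
    exact congrArg (fun g => g f) this
  -- `V` is a unit
  have hWS : Ww k ∈ Ss k := JP.QS3_W_mem k
  have hVo : κ V = o ⟨Ww k, hWS⟩ := by
    apply h3 i0
    rw [hκa, h1, hD.root]
  have hVu : IsUnit (κ V) := by
    rw [hVo]
    refine IsUnit.map o ?_
    refine IsUnit.of_mul_eq_one ⟨(Ww k)⁻¹, Ww_inv_mem k⟩ (Subtype.ext ?_)
    exact mul_inv_cancel₀ (Ww_ne k)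
  obtain ⟨l, hl⟩ := (rb_loc b κ hVu).1
  have hla : ∀ i r, a i (l r) = WFp k (b.ρ i r) := by
    intro i r
    have hu : IsUnit (((a i).comp κ) V) := hVu.map (a i)
    have := (rb_loc b ((a i).comp κ) hu).2 ((a i).comp l) ((WFp k).comp (b.ρ i)) (fun f => by
      rw [RingHom.comp_apply, RingHom.comp_apply, hl, hκa, b.ρ_κ])
    exact RingHom.congr_fun this r
  have hlI : ∀ r, aI (l r) = b.ρI r := by
    intro r
    have hu : IsUnit ((aI.comp κ) V) := hVu.map aI
    have := (rb_loc b (aI.comp κ) hu).2 (aI.comp l) b.ρI (fun f => by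
      rw [RingHom.comp_apply, hl, hκI, b.ρI_κ])
    exact RingHom.congr_fun this r
  -- base change
  obtain ⟨M, _, _, _, q, galM, q_alg, q_act, univ, gen⟩ := all_QBC b.R A1 l P O.A O.gal
  have hΦ : ∀ i, ∃ F : M →+* Q i, (∀ e, F (q e) = O.a i e) ∧
      ∀ α, F (algebraMap A1 M α) = algebraMap (Fk k) (Q i) (a i α) := by
    intro i
    refine univ (Q i) (O.a i) ((algebraMap (Fk k) (Q i)).comp (a i)) fun r => ?_
    rw [RingHom.comp_apply, hla, O.a_alg]
  choose Φ hΦq hΦa using hΦ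
  obtain ⟨W, hWq, hWa⟩ : ∃ F : M →+* E, (∀ e, F (q e) = j e) ∧
      ∀ α, F (algebraMap A1 M α) = algebraMap (LaurentSeries (LaurentSeries k)) E (aI α) := by
    refine univ E j ((algebraMap (LaurentSeries (LaurentSeries k)) E).comp aI) fun r => ?_
    rw [RingHom.comp_apply, hlI, j_alg]
  have hΦe : ∀ i (g : P' i) (z : M), Φ i (π i g • z) = g • Φ i z := by
    intro i g z
    obtain ⟨n, r, e, rfl⟩ := gen z
    rw [Finset.smul_sum, map_sum, map_sum, Finset.smul_sum]
    refine Finset.sum_congr rfl fun m _ => ?_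
    rw [smul_mul', galM.comm, ← q_act, map_mul, map_mul, smul_mul', hΦq, hΦq, hΦa, (hG i).comm,
      O.a_act]
  have hWe : ∀ (g : G₀) (z : M), W (π₀ g • z) = g • W z := by
    intro g z
    obtain ⟨n, r, e, rfl⟩ := gen z
    rw [Finset.smul_sum, map_sum, map_sum, Finset.smul_sum]
    refine Finset.sum_congr rfl fun m _ => ?_
    rw [smul_mul', galM.comm, ← q_act, map_mul, map_mul, smul_mul', hWq, hWq, hWa, hE.comm, j_act]
  -- the primes
  obtain ⟨hp0, hq0⟩ := gal_bot galM (RingHom.ker W) (fun i => RingHom.ker (Φ i))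
    (RingHom.ker_isPrime W) (fun i => RingHom.ker_isPrime (Φ i))
    (fun α hα => by
      rw [RingHom.mem_ker, hWa] at hα
      have e1 : aI α = 0 := hE.inj (by rw [hα, map_zero])
      exact h4 (by rw [e1, map_zero]))
    (fun i α hα => by
      rw [RingHom.mem_ker, hΦa] at hα
      have e1 : a i α = 0 := (hG i).inj (by rw [hα, map_zero])
      exact h3 i (by rw [e1, map_zero]))
    π₀.range (fun i => (π i).range)
    (by
      rintro _ ⟨g, rfl⟩ z hz
      rw [RingHom.mem_ker] at hz ⊢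
      rw [hWe, hz, smul_zero])
    (by
      rintro i _ ⟨g, rfl⟩ z hz
      rw [RingHom.mem_ker] at hz ⊢
      rw [hΦe, hz, smul_zero]) hab hgen
  have hWi : ∀ z, W z = 0 → z = 0 := by
    intro z hz
    have e1 : z ∈ RingHom.ker W := hz
    rw [hp0] at e1
    exact e1
  have hΦi : ∀ i z, Φ i z = 0 → z = 0 := by
    intro i z hz
    have e1 : z ∈ RingHom.ker (Φ i) := hz
    rw [hq0 i] at e1
    exact e1
  -- the map to functions
  let U : M →+* (P → ∀ i, Q i) := RingHom.pi fun γ => RingHom.pi fun i =>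
    (Φ i).comp (MulSemiringAction.toRingHom P M γ⁻¹)
  have hU : ∀ z γ i, U z γ i = Φ i (γ⁻¹ • z) := fun z γ i => rfl
  have hUq : ∀ e, U (q e) = fun (γ : P) i => O.a i (γ⁻¹ • e) := by
    intro e
    funext γ i
    rw [hU, ← q_act, hΦq]
  have hUa : ∀ α, U (algebraMap A1 M α) = fun (_ : P) i => algebraMap (Fk k) (Q i) (a i α) := by
    intro α
    funext γ i
    rw [hU, galM.comm, hΦa]
  have hUmem : ∀ z, U z ∈ SM O := by
    intro z
    obtain ⟨n, r, e, rfl⟩ := gen z
    rw [map_sum]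
    refine Subring.sum_mem _ fun m _ => ?_
    rw [map_mul]
    refine Subring.mul_mem _ ?_ ?_
    · obtain ⟨c, hc⟩ := h7 (r m)
      rw [hc, map_sum, map_sum]
      refine Subring.sum_mem _ fun t _ => ?_
      rw [map_mul, map_mul, map_pow, map_pow]
      refine Subring.mul_mem _ ?_ (Subring.pow_mem _ ?_ _)
      · refine Subring.subset_closure (Or.inl ⟨(c t : Fk k), (c t).2, ?_⟩)
        rw [hUa]
        funext γ i
        rw [h1]
      · refine Subring.subset_closure (Or.inr ⟨algebraMap b.R O.A (b.κ X), ?_⟩)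
        rw [hUa]
        funext γ i
        rw [h2, O.gal.comm, O.a_alg, b.ρ_κ, eval₂_X]
    · rw [hUq]
      exact Subring.subset_closure (Or.inr ⟨e m, rfl⟩)
  have hUsurj : ∀ u ∈ SM O, ∃ z, U z = u := by
    intro u hu
    have hle : SM O ≤ U.range := by
      refine Subring.closure_le.2 ?_
      rintro v (⟨s, hs, rfl⟩ | ⟨e, rfl⟩)
      · refine ⟨algebraMap A1 M (o ⟨s, hs⟩), ?_⟩
        rw [hUa]
        funext γ i
        rw [h1]
      · exact ⟨q e, hUq e⟩
    exact hle hu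
  have hU0 : ∀ z γ i, U z γ i = 0 → z = 0 := by
    intro z γ i hz
    rw [hU] at hz
    have e1 := hΦi i _ hz
    have e2 := congrArg (fun y => γ • y) e1
    simpa using e2
  have hUinj : Function.Injective U := by
    rw [injective_iff_map_eq_zero]
    intro z hz
    exact hU0 z 1 i0 (by rw [hz]; rfl)
  refine ⟨?_, ?_⟩
  · rintro u hu ⟨γ, i, h0⟩
    obtain ⟨z, rfl⟩ := hUsurj u hu
    rw [hU0 z γ i h0, map_zero]
  let U' : M →+* SM O := U.codRestrict (SM O) hUmem
  have hU'b : Function.Bijective U' := by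
    refine ⟨fun z z' h => hUinj (congrArg Subtype.val h), fun u => ?_⟩
    obtain ⟨z, hz⟩ := hUsurj u.1 u.2
    exact ⟨z, Subtype.ext hz⟩
  let E' := RingEquiv.ofBijective U' hU'b
  have hE' : ∀ z (u : P → ∀ i, Q i) (h : u ∈ SM O), U z = u → E'.symm ⟨u, h⟩ = z := by
    intro z u h hz
    rw [RingEquiv.symm_apply_eq]
    exact Subtype.ext hz.symm
  refine ⟨W.comp E'.symm.toRingHom, ?_, ?_, ?_⟩
  · rw [injective_iff_map_eq_zero]
    intro u hu
    have e1 : W (E'.symm u) = 0 := hu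
    have e2 := hWi _ e1
    have e3 := congrArg E' e2
    rw [RingEquiv.apply_symm_apply, map_zero] at e3
    exact e3
  · intro e h
    change W (E'.symm ⟨_, h⟩) = _
    rw [hE' (q e) _ h (hUq e), hWq]
  · intro u h δ h'
    change W (E'.symm ⟨_, h'⟩) = δ • W (E'.symm ⟨u, h⟩)
    obtain ⟨z, hz⟩ := hUsurj u h
    have hUD : U (π₀ δ • z) = fun γ => u ((π₀ δ)⁻¹ * γ) := by
      funext γ i
      rw [← hz, hU, hU, smul_smul, mul_inv_rev, inv_inv]
    rw [hE' (π₀ δ • z) _ h' hUD, hE' z u h hz, hWe]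

end MP7b0bad.MT.PJ
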