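import Pool.Agent.Work.MP_7b0bad_ag.MT.DStmts
import Pool.Agent.Work.MP_7b0bad_ag.SV.JAll

set_option autoImplicit false

/-!
# Item TAppr: simultaneous approximation
-/

namespace MP7b0bad.MT

open Polynomial

theorem TAppr_xi {κ : Type} [Field κ] {D : Type} [CommRing D] [Algebra (LaurentSeries κ) D]
    (a b : ℤ) : xi κ D a * xi κ D b = xi κ D (a + b) := by
  rw [xi, xi, xi, ← map_mul, HahnSeries.single_mul_single, mul_one]

theorem prf_TAppr : TAppr := by
  classical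
  intro κ _ Γ _ _ C D _ _ _ _ _ _ q hC hD hq hqa I _ z L
  have := Fintype.ofFinite I
  obtain ⟨-, -, -, tint, -⟩ := all_QTN κ Γ D hD
  choose d β hβ using fun i => all_JApp κ Γ C D q hC hD hq hqa (xi κ D (-(L : ℤ)) * z i)
  set m : ℕ := Finset.univ.sup d with hm
  have hdm : ∀ i, d i ≤ m := fun i => Finset.le_sup (f := d) (Finset.mem_univ i)
  refine ⟨m + L, fun i => algebraMap κ[X] C (X ^ (m - d i)) * β i, fun i => ?_⟩
  refine ⟨algebraMap (LaurentSeries κ) D (HahnSeries.single ((d i : ℕ) : ℤ) (1 : κ)) * q (β i) -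
    xi κ D (-(L : ℤ)) * z i, tint _ (hβ i), ?_⟩
  have h1 : q (algebraMap κ[X] C (X ^ (m - d i))) = xi κ D (-((m - d i : ℕ) : ℤ)) := by
    rw [hq, JCertK_atInf]
    rfl
  have h2 : algebraMap (LaurentSeries κ) D (HahnSeries.single ((d i : ℕ) : ℤ) (1 : κ)) =
      xi κ D ((d i : ℕ) : ℤ) := rfl
  have h0 : xi κ D 0 = 1 := by
    rw [xi]
    exact map_one (algebraMap (LaurentSeries κ) D)
  rw [h2, map_mul, h1, mul_sub, ← mul_assoc, ← mul_assoc, ← mul_assoc, TAppr_xi, TAppr_xi,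
    TAppr_xi, add_neg_cancel, h0, one_mul]
  have h3 : ((m + L : ℕ) : ℤ) + -((m - d i : ℕ) : ℤ) = (L : ℤ) + ((d i : ℕ) : ℤ) := by
    have := hdm i
    push_cast [Nat.cast_sub this]
    ring
  rw [h3]
  ring

end MP7b0bad.MT
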