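import Pool.Agent.Work.MP_7b0bad_ag.MT.DStmts
import Pool.Agent.Work.MP_7b0bad_ag.SV.JSm
import Pool.Agent.Work.MP_7b0bad_ag.Bd.B12

set_option autoImplicit false

/-!
# Rules for continuity
-/

namespace MP7b0bad.MT

open Polynomial

section

variable {κ : Type} [Field κ] {D : Type} [CommRing D] [Algebra (LaurentSeries κ) D]

theorem TCont_xi_add (a b : ℤ) : xi κ D (a + b) = xi κ D a * xi κ D b := by
  unfold xi
  rw [← map_mul, HahnSeries.single_mul_single, one_mul]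

theorem TCont_intXi (a : ℤ) (ha : 0 ≤ a) : IntL (κ := κ) (xi κ D a) := by
  refine JSm_intL _ fun m hm => ?_
  exact HahnSeries.coeff_single_of_ne (by omega)

theorem TCont_int_zero : IntL (κ := κ) (0 : D) :=
  ⟨1, fun _ => 0, one_pos, fun _ _ _ => rfl, by simp⟩

/-- closeness with a smaller exponent -/
theorem TCont_mono (hmul : ∀ z z' : D, IntL (κ := κ) z → IntL (κ := κ) z' →
    IntL (κ := κ) (z * z')) {L M : ℕ} (h : M ≤ L) {z z' : D} (hz : Near κ L z z') :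
    Near κ M z z' := by
  obtain ⟨w, hw, hw'⟩ := hz
  refine ⟨xi κ D ((L : ℤ) - M) * w, hmul _ _ (TCont_intXi _ (by omega)) hw, ?_⟩
  rw [hw', ← mul_assoc, ← TCont_xi_add]
  congr 3
  omega

/-- the action preserves integral elements -/
theorem TCont_smul {Γ : Type} [Group Γ] [MulSemiringAction Γ D]
    (hal : ∀ (γ : Γ) (a : LaurentSeries κ), γ • algebraMap (LaurentSeries κ) D a =
      algebraMap (LaurentSeries κ) D a) (γ : Γ) (w : D) (hw : IntL (κ := κ) w) :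
    IntL (κ := κ) (γ • w) := by
  obtain ⟨n, c, hn, hc, h⟩ := hw
  refine ⟨n, c, hn, hc, ?_⟩
  have h1 := congrArg (fun z => γ • z) h
  simp only [smul_add, smul_pow', Finset.smul_sum, smul_mul', hal, smul_zero] at h1
  exact h1

end

theorem prf_TCont : TCont := by
  intro κ _ Γ _ _ D _ _ _ hG I _ z
  obtain ⟨hint, hadd, hmul, htn, -⟩ := all_QTN κ Γ D hG
  have hfin := gal_finite hG
  have hmulI : ∀ z z' : D, IntL (κ := κ) z → IntL (κ := κ) z' → IntL (κ := κ) (z * z') :=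
    fun z z' h h' => (hint z z' h h').2.1
  have haddI : ∀ z z' : D, IntL (κ := κ) z → IntL (κ := κ) z' → IntL (κ := κ) (z + z') :=
    fun z z' h h' => (hint z z' h h').1
  have hnegI : ∀ z : D, IntL (κ := κ) z → IntL (κ := κ) (-z) :=
    fun z h => (hint z z h h).2.2
  have hal : ∀ (γ : Γ) (a : LaurentSeries κ), γ • algebraMap (LaurentSeries κ) D a =
      algebraMap (LaurentSeries κ) D a := hG.comm
  have hint2 : ∀ a : D, ∃ N : ℕ, IntL (κ := κ) (xi κ D (N : ℤ) * a) := by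
    intro a
    obtain ⟨N, hN⟩ := JSm_root a (IsIntegral.of_finite (LaurentSeries κ) a)
    refine ⟨N.toNat, ?_⟩
    have h1 : xi κ D ((N.toNat : ℕ) : ℤ) * a =
        algebraMap (LaurentSeries κ) D (HahnSeries.single N (1 : κ)) * a *
          xi κ D (((N.toNat : ℕ) : ℤ) - N) := by
      have h2 : algebraMap (LaurentSeries κ) D (HahnSeries.single N (1 : κ)) = xi κ D N := rfl
      rw [h2, mul_right_comm, ← TCont_xi_add]
      congr 2
      omega
    rw [h1]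
    exact htn _ (hmul _ _ hN (TCont_intXi _ (by omega)))
  refine ⟨fun a M => ⟨0, fun z' _ => ⟨0, TCont_int_zero, by simp⟩⟩, fun i M =>
    ⟨M, fun z' h => h i⟩, fun Φ Ψ hΦ hΨ => ⟨fun M => ?_, fun M => ?_, fun M => ?_⟩,
    fun Φ γ hΦ M => ?_⟩
  · obtain ⟨L1, h1⟩ := hΦ M
    obtain ⟨L2, h2⟩ := hΨ M
    refine ⟨max L1 L2, fun z' hz' => ?_⟩
    obtain ⟨w1, hw1, hw1'⟩ := h1 z' fun i => TCont_mono hmulI (le_max_left _ _) (hz' i)
    obtain ⟨w2, hw2, hw2'⟩ := h2 z' fun i => TCont_mono hmulI (le_max_right _ _) (hz' i)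
    refine ⟨w1 + w2, haddI _ _ hw1 hw2, ?_⟩
    simp only [hw1', hw2']
    ring
  · obtain ⟨N1, hN1⟩ := hint2 (Φ z)
    obtain ⟨N2, hN2⟩ := hint2 (Ψ z)
    obtain ⟨L1, h1⟩ := hΦ (M + N2)
    obtain ⟨L2, h2⟩ := hΨ (M + N1)
    refine ⟨max L1 L2, fun z' hz' => ?_⟩
    obtain ⟨w1, hw1, hw1'⟩ := h1 z' fun i => TCont_mono hmulI (le_max_left _ _) (hz' i)
    obtain ⟨w2, hw2, hw2'⟩ := h2 z' fun i => TCont_mono hmulI (le_max_right _ _) (hz' i)
    refine ⟨xi κ D (N2 : ℤ) * Ψ z * w1 + xi κ D (N1 : ℤ) * Φ z * w2 +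
      xi κ D (((M + N1 + N2 : ℕ) : ℕ) : ℤ) * (w1 * w2), ?_, ?_⟩
    · refine haddI _ _ (haddI _ _ (hmulI _ _ hN2 hw1) (hmulI _ _ hN1 hw2)) ?_
      exact hmulI _ _ (TCont_intXi _ (by positivity)) (hmulI _ _ hw1 hw2)
    · have e1 : xi κ D ((M + N2 : ℕ) : ℤ) = xi κ D (M : ℤ) * xi κ D (N2 : ℤ) := by
        rw [← TCont_xi_add]; push_cast; rfl
      have e2 : xi κ D ((M + N1 : ℕ) : ℤ) = xi κ D (M : ℤ) * xi κ D (N1 : ℤ) := by
        rw [← TCont_xi_add]; push_cast; rfl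
      have e3 : xi κ D ((M + N1 + N2 : ℕ) : ℤ) =
          xi κ D (M : ℤ) * xi κ D (N1 : ℤ) * xi κ D (N2 : ℤ) := by
        rw [← TCont_xi_add, ← TCont_xi_add]; push_cast; rfl
      simp only [hw1', hw2', e1, e2, e3]
      ring
  · obtain ⟨L1, h1⟩ := hΦ M
    obtain ⟨L2, h2⟩ := hΨ M
    refine ⟨max L1 L2, fun z' hz' => ?_⟩
    obtain ⟨w1, hw1, hw1'⟩ := h1 z' fun i => TCont_mono hmulI (le_max_left _ _) (hz' i)
    obtain ⟨w2, hw2, hw2'⟩ := h2 z' fun i => TCont_mono hmulI (le_max_right _ _) (hz' i)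
    refine ⟨w1 + -w2, haddI _ _ hw1 (hnegI _ hw2), ?_⟩
    simp only [hw1', hw2']
    ring
  · obtain ⟨L, h⟩ := hΦ M
    refine ⟨L, fun z' hz' => ?_⟩
    obtain ⟨w, hw, hw'⟩ := h z' hz'
    refine ⟨γ • w, TCont_smul hal γ w hw, ?_⟩
    simp only [hw', smul_add, smul_mul']
    congr 2
    exact hal γ _

end MP7b0bad.MT
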