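import Pool.Agent.Work.MP_7b0bad_ag.MT.ANax
import Pool.Agent.Work.MP_7b0bad_ag.MT.ANgrp
import Pool.Agent.Work.MP_7b0bad_ag.MT.ANmain
import Pool.Agent.Work.MP_7b0bad_ag.MT.ANred
import Pool.Agent.Work.MP_7b0bad_ag.MT.DStmts
import Pool.Agent.Work.MP_7b0bad_ag.MT.Defs
import Pool.Agent.Work.MP_7b0bad_ag.MT.FStmts
import Pool.Agent.Work.MP_7b0bad_ag.MT.GStmts
import Pool.Agent.Work.MP_7b0bad_ag.MT.LStmts
import Pool.Agent.Work.MP_7b0bad_ag.MT.MCRT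
import Pool.Agent.Work.MP_7b0bad_ag.MT.MCSp
import Pool.Agent.Work.MP_7b0bad_ag.MT.MCertT
import Pool.Agent.Work.MP_7b0bad_ag.MT.MChar2
import Pool.Agent.Work.MP_7b0bad_ag.MT.MDesA
import Pool.Agent.Work.MP_7b0bad_ag.MT.MEx1
import Pool.Agent.Work.MP_7b0bad_ag.MT.MEx2
import Pool.Agent.Work.MP_7b0bad_ag.MT.MEx3
import Pool.Agent.Work.MP_7b0bad_ag.MT.MExact
import Pool.Agent.Work.MP_7b0bad_ag.MT.MFam
import Pool.Agent.Work.MP_7b0bad_ag.MT.MGS
import Pool.Agent.Work.MP_7b0bad_ag.MT.MGeoT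
import Pool.Agent.Work.MP_7b0bad_ag.MT.MGrp
import Pool.Agent.Work.MP_7b0bad_ag.MT.MJ2
import Pool.Agent.Work.MP_7b0bad_ag.MT.MNorm
import Pool.Agent.Work.MP_7b0bad_ag.MT.MNormS
import Pool.Agent.Work.MP_7b0bad_ag.MT.MQp
import Pool.Agent.Work.MP_7b0bad_ag.MT.MQpC
import Pool.Agent.Work.MP_7b0bad_ag.MT.MRz
import Pool.Agent.Work.MP_7b0bad_ag.MT.MRz0
import Pool.Agent.Work.MP_7b0bad_ag.MT.MSgn
import Pool.Agent.Work.MP_7b0bad_ag.MT.MSolv
import Pool.Agent.Work.MP_7b0bad_ag.MT.MSp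
import Pool.Agent.Work.MP_7b0bad_ag.MT.MTDomI
import Pool.Agent.Work.MP_7b0bad_ag.MT.MTVal
import Pool.Agent.Work.MP_7b0bad_ag.MT.OAS
import Pool.Agent.Work.MP_7b0bad_ag.MT.OAll
import Pool.Agent.Work.MP_7b0bad_ag.MT.OCoh
import Pool.Agent.Work.MP_7b0bad_ag.MT.ODisc
import Pool.Agent.Work.MP_7b0bad_ag.MT.ODns
import Pool.Agent.Work.MP_7b0bad_ag.MT.OEig
import Pool.Agent.Work.MP_7b0bad_ag.MT.OFil
import Pool.Agent.Work.MP_7b0bad_ag.MT.OGen
import Pool.Agent.Work.MP_7b0bad_ag.MT.OInf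
import Pool.Agent.Work.MP_7b0bad_ag.MT.OInfB
import Pool.Agent.Work.MP_7b0bad_ag.MT.OKA
import Pool.Agent.Work.MP_7b0bad_ag.MT.OKum
import Pool.Agent.Work.MP_7b0bad_ag.MT.OLQ
import Pool.Agent.Work.MP_7b0bad_ag.MT.OLoc
import Pool.Agent.Work.MP_7b0bad_ag.MT.OMin
import Pool.Agent.Work.MP_7b0bad_ag.MT.OPsp
import Pool.Agent.Work.MP_7b0bad_ag.MT.ORB
import Pool.Agent.Work.MP_7b0bad_ag.MT.ORt
import Pool.Agent.Work.MP_7b0bad_ag.MT.ORtI
import Pool.Agent.Work.MP_7b0bad_ag.MT.OStep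
import Pool.Agent.Work.MP_7b0bad_ag.MT.OStmts
import Pool.Agent.Work.MP_7b0bad_ag.MT.OSub
import Pool.Agent.Work.MP_7b0bad_ag.MT.OTDen
import Pool.Agent.Work.MP_7b0bad_ag.MT.OTor
import Pool.Agent.Work.MP_7b0bad_ag.MT.OTra
import Pool.Agent.Work.MP_7b0bad_ag.MT.OVX
import Pool.Agent.Work.MP_7b0bad_ag.MT.PA
import Pool.Agent.Work.MP_7b0bad_ag.MT.PB
import Pool.Agent.Work.MP_7b0bad_ag.MT.PC
import Pool.Agent.Work.MP_7b0bad_ag.MT.PD
import Pool.Agent.Work.MP_7b0bad_ag.MT.PT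
import Pool.Agent.Work.MP_7b0bad_ag.MT.TAppr
import Pool.Agent.Work.MP_7b0bad_ag.MT.TCont
import Pool.Agent.Work.MP_7b0bad_ag.MT.TStmts
import Pool.Agent.Work.MP_7b0bad_ag.AnT.AnAll
import Pool.Agent.Work.MP_7b0bad_ag.Ad.All

set_option autoImplicit false

/-!
# Block MT: assembly without hypotheses
-/

namespace MP7b0bad.MT

/-! ## Descent -/

theorem all_MTVal : MTVal := prf_MTVal
theorem all_MTDom : MTDom := prf_MTDomI all_MTVal
theorem all_MGeoT : MGeoT := prf_MGeoT all_MTDom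
theorem all_TCont : TCont := prf_TCont
theorem all_TAppr : TAppr := prf_TAppr
theorem all_MCertT : MCertT := prf_MCertT all_TCont all_TAppr
theorem all_MSp : MSp := prf_MSp
theorem all_MCSp : MCSp := prf_MCSp all_MSp
theorem all_MEx1 : MEx1 := prf_MEx1
theorem all_MEx2 : MEx2 := prf_MEx2
theorem all_MEx3 : MEx3 := prf_MEx3
theorem all_MExact : MExact := prf_MExact all_MEx1 all_MEx2 all_MEx3
theorem all_MCRT : MCRT := prf_MCRT all_MExact all_MTDom all_MEx3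
theorem all_MDes : MDes := prf_MDesA all_MTDom all_MGeoT all_MCertT all_MCSp all_MCRT

/-! ## The join and its consequences -/

theorem all_MPT : MPT := prf_MPT
theorem all_MNorm : MNorm := prf_MNorm
theorem all_MJ2 : MJ2 := MJ2_of all_MPT all_MDes all_MTDom
theorem all_MRz0 : MRz0 := prf_MRz0 all_MJ2
theorem all_MGS : MGS := prf_MGS
theorem all_MQp : MQp := prf_MQp
theorem all_MRz : MRz := prf_MRz all_MRz0 all_MGS all_MQp
theorem all_MFam : MFam := prf_MFam all_MRz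
theorem all_MSolv : MSolv := prf_MSolv
theorem all_MChar2 : MChar2 := prf_MChar2 all_MRz
theorem all_MSgn : MSgn := prf_MSgn

/-! ## Abhyankar's covers and alternating groups -/

theorem all_AbMain : AbMain := AnT.all_AbMain
theorem all_AdMain : AdMain := Ad.all_AdMain
theorem all_ANax : ANax := prf_ANax all_MRz all_MSgn all_AbMain
theorem all_ANgrp : ANgrp := prf_ANgrp
theorem all_ANmain : ANmain := prf_ANmain all_MRz all_ANgrp all_ANax
theorem all_ANred : ANred := prf_ANred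

/-! ## Groups generated by images of `SL_2` -/

theorem all_MLie : MLie := Ad.MLie_of all_MFam
theorem all_MSLn : MSLn := Ad.MSLn_of all_MFam
theorem all_MSL2 : MSL2 := Ad.MSL2_of all_MChar2

end MP7b0bad.MT
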