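import Pool.Agent.Work.MP_7b0bad_ag.MT.DStmts
import Pool.Agent.Work.MP_7b0bad_ag.SV.JAll

set_option autoImplicit false

/-!
# Item MCRT: the cover from the certificate over `k`
-/

namespace MP7b0bad.MT

open Polynomial

theorem MCRT_xi_add (κ : Type) [Field κ] (D : Type) [CommRing D] [Algebra (LaurentSeries κ) D]
    (a b : ℤ) : xi κ D (a + b) = xi κ D a * xi κ D b := by
  unfold xi
  rw [← map_mul, HahnSeries.single_mul_single, mul_one]

theorem MCRT_xi_zero (κ : Type) [Field κ] (D : Type) [CommRing D] [Algebra (LaurentSeries κ) D] :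
    xi κ D 0 = 1 := by
  unfold xi
  exact map_one _

theorem MCRT_xi_mul (κ : Type) [Field κ] (D : Type) [CommRing D] [Algebra (LaurentSeries κ) D]
    (d m : ℕ) : xi κ D ((d * m : ℕ) : ℤ) = xi κ D (d : ℤ) ^ m := by
  induction m with
  | zero => simp [MCRT_xi_zero]
  | succ m ih =>
    have h : ((d * (m + 1) : ℕ) : ℤ) = ((d * m : ℕ) : ℤ) + (d : ℤ) := by
      push_cast
      ring
    rw [pow_succ, ← ih, ← MCRT_xi_add, h]

theorem MCRT_xi_mul' (κ : Type) [Field κ] (D : Type) [CommRing D] [Algebra (LaurentSeries κ) D]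
    (d m : ℕ) : xi κ D (-((d * m : ℕ) : ℤ)) = xi κ D (-(d : ℤ)) ^ m := by
  induction m with
  | zero => simp [MCRT_xi_zero]
  | succ m ih =>
    have h : (-((d * (m + 1) : ℕ) : ℤ)) = -((d * m : ℕ) : ℤ) + -(d : ℤ) := by
      push_cast
      ring
    rw [pow_succ, ← ih, ← MCRT_xi_add, h]

theorem MCRT_inv (κ : Type) [Field κ] (D : Type) [CommRing D] [Algebra (LaurentSeries κ) D]
    (d : ℤ) : xi κ D d * xi κ D (-d) = 1 := by
  rw [← MCRT_xi_add, add_neg_cancel, MCRT_xi_zero]

theorem MCRT_q {k : Type} [Field k] {C D : Type} [CommRing C] [Algebra k[X] C] [CommRing D]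
    [Algebra (LaurentSeries k) D] (q : C →+* D)
    (hq : ∀ f, q (algebraMap k[X] C f) = algebraMap (LaurentSeries k) D (atInf k f)) (m : ℕ) :
    q (algebraMap k[X] C (X ^ m)) = xi k D (-(m : ℤ)) := by
  rw [hq, QCR_atInf]
  rfl

theorem MCRT_xiS {κ : Type} [Field κ] {Γ D : Type} [Group Γ] [CommRing D]
    [Algebra (LaurentSeries κ) D] [MulSemiringAction Γ D] (hD : GalAlg (LaurentSeries κ) Γ D)
    (γ : Γ) (d : ℤ) : γ • xi κ D d = xi κ D d := hD.comm γ _

/-- `b = β / x^d` in terms of `TN` -/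
theorem MCRT_b {k : Type} [Field k] {Γ G₀ : Type} [Group Γ] [Finite Γ] [Group G₀]
    (δ : G₀ →* Γ) {C D : Type}
    [CommRing C] [Algebra k[X] C] [MulSemiringAction Γ C] [CommRing D]
    [Algebra (LaurentSeries k) D] [MulSemiringAction Γ D] (q : C →+* D)
    (hD : GalAlg (LaurentSeries k) Γ D)
    (hq : ∀ f, q (algebraMap k[X] C f) = algebraMap (LaurentSeries k) D (atInf k f))
    (hq' : ∀ (γ : Γ) (c : C), q (γ • c) = γ • q c) {d : ℕ} {β : C}
    (h1 : Small k (2 * d) (β ^ 2 - algebraMap k[X] C (X ^ d) * β))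
    (h2 : ∀ γ : Γ, γ ∉ δ.range → Small k (2 * d) (β * (γ • β)))
    (h3 : ∀ τ : G₀, Small k d (δ τ • β - β))
    (h4 : ∃ s : Finset Γ, Small k d (∑ γ ∈ s, γ • β - algebraMap k[X] C (X ^ d)))
    (b : D) (hb : b = xi k D (d : ℤ) * q β) :
    TN (κ := k) (b * b - b) ∧ (∀ γ : Γ, γ ∉ δ.range → TN (κ := k) (b * (γ • b))) ∧
      (∀ τ : G₀, TN (κ := k) (δ τ • b - b)) ∧
      ∃ s : Finset Γ, TN (κ := k) (∑ γ ∈ s, γ • b - 1) := by
  classical
  have hQ : ∀ (m : ℕ) (j : C), Small k m j → TN (κ := k) (xi k D (m : ℤ) * q j) :=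
    fun m j hj => all_QSTN k C D q hq m j hj
  set S : D := xi k D (d : ℤ) with hS
  have hSX : S * q (algebraMap k[X] C (X ^ d)) = 1 := by
    rw [MCRT_q q hq, MCRT_inv]
  have hS2 : xi k D ((2 * d : ℕ) : ℤ) = S * S := by
    rw [mul_comm 2 d, MCRT_xi_mul, sq]
  have hγS : ∀ γ : Γ, γ • S = S := fun γ => MCRT_xiS hD γ _
  have hγb : ∀ γ : Γ, γ • b = S * q (γ • β) := by
    intro γ
    rw [hb, smul_mul', hγS, hq']
  refine ⟨?_, fun γ hγ => ?_, fun τ => ?_, ?_⟩
  · have h := hQ (2 * d) _ h1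
    rw [hS2, map_sub, map_mul, map_pow] at h
    have e : S * S * (q β ^ 2 - q (algebraMap k[X] C (X ^ d)) * q β) = b * b - b := by
      calc S * S * (q β ^ 2 - q (algebraMap k[X] C (X ^ d)) * q β) =
            (S * q β) * (S * q β) - (S * q (algebraMap k[X] C (X ^ d))) * (S * q β) := by ring
        _ = b * b - b := by rw [hSX, one_mul, hb]
    rwa [e] at h
  · have h := hQ (2 * d) _ (h2 γ hγ)
    rw [hS2, map_mul] at h
    have e : S * S * (q β * q (γ • β)) = b * (γ • b) := by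
      rw [hγb, hb]
      ring
    rwa [e] at h
  · have h := hQ d _ (h3 τ)
    rw [map_sub] at h
    have e : S * (q (δ τ • β) - q β) = δ τ • b - b := by
      rw [hγb, hb]
      ring
    rwa [e] at h
  · obtain ⟨s, hs⟩ := h4
    refine ⟨s, ?_⟩
    have h := hQ d _ hs
    rw [map_sub, map_sum, mul_sub, hSX, Finset.mul_sum] at h
    have e1 : ∑ γ ∈ s, S * q (γ • β) = ∑ γ ∈ s, γ • b :=
      Finset.sum_congr rfl fun γ _ => (hγb γ).symm
    rwa [e1] at h

/-- the expression `Ev` in terms of `T = t / x^d` -/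
theorem MCRT_Ev {k : Type} [Field k] {A D : Type} [CommRing A] [Algebra k[X] A] [CommRing D]
    [Algebra (LaurentSeries k) D] (q : A →+* D)
    (hq : ∀ f, q (algebraMap k[X] A f) = algebraMap (LaurentSeries k) D (atInf k f)) (d N : ℕ)
    (f : k[X]) (hf : f.natDegree ≤ N) (t : A) (T : D) (hT : T = xi k D (d : ℤ) * q t) :
    xi k D (d : ℤ) ^ N * q (Ev k d N f t) = f.eval₂ ((algebraMap (LaurentSeries k) D).comp
      (HahnSeries.C : k →+* LaurentSeries k)) T := by
  rw [eval₂_eq_sum_range' _ (Nat.lt_succ_of_le hf), Ev, map_sum, Finset.mul_sum]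
  refine Finset.sum_congr rfl fun i hi => ?_
  have hi' : i ≤ N := Nat.lt_succ_iff.1 (Finset.mem_range.1 hi)
  have e1 : q (algebraMap k[X] A (C (f.coeff i) * X ^ (d * (N - i)))) =
      algebraMap (LaurentSeries k) D (HahnSeries.C (f.coeff i)) *
        xi k D (-(d : ℤ)) ^ (N - i) := by
    rw [map_mul, map_mul, MCRT_q q hq, MCRT_xi_mul', hq]
    congr 2
    rw [atInf, coe_eval₂RingHom, eval₂_C]
  have e2 : xi k D (d : ℤ) ^ N = xi k D (d : ℤ) ^ i * xi k D (d : ℤ) ^ (N - i) := by
    rw [← pow_add, Nat.add_sub_cancel' hi']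
  have e3 : xi k D (d : ℤ) ^ (N - i) * xi k D (-(d : ℤ)) ^ (N - i) = 1 := by
    rw [← mul_pow, MCRT_inv, one_pow]
  rw [map_mul, map_pow, e1, e2, hT, mul_pow, RingHom.comp_apply]
  calc xi k D (d : ℤ) ^ i * xi k D (d : ℤ) ^ (N - i) *
        (algebraMap (LaurentSeries k) D (HahnSeries.C (f.coeff i)) *
          xi k D (-(d : ℤ)) ^ (N - i) * q t ^ i) =
        (xi k D (d : ℤ) ^ (N - i) * xi k D (-(d : ℤ)) ^ (N - i)) *
          (algebraMap (LaurentSeries k) D (HahnSeries.C (f.coeff i)) *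
          (xi k D (d : ℤ) ^ i * q t ^ i)) := by ring
    _ = _ := by rw [e3, one_mul]

theorem prf_MCRT (hExact : MExact) (hTDom : MTDom) (hEx3 : MEx3) : MCRT := by
  intro k _ _ p _ _ n ζ G _ _ G₀ P c hPn hP hPc hc hpn hζ B _ _ _ d N β t η f hB hdom hCT
  classical
  obtain ⟨D, _, _, _, q, hD, hq, hqe, _, _⟩ :=
    all_QBC k[X] (LaurentSeries k) (atInf k) G B hB
  obtain ⟨tI, tadd, tmul, tint, tsmul, _, tidI, tunit, tid0⟩ := all_QTN k G D hD
  have hn : 0 < n := by
    rw [← hc]
    exact orderOf_pos c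
  have hp : 0 < p := (Fact.out : p.Prime).pos
  have hN : 0 < N := lt_of_lt_of_le hp hCT.pN
  have hQ : ∀ (m : ℕ) (j : B), Small k m j → TN (κ := k) (xi k D (m : ℤ) * q j) :=
    fun m j hj => all_QSTN k B D q hq m j hj
  set b : D := xi k D (d : ℤ) * q β with hb
  have hr : ∀ γ : G, γ ∉ G₀.subtype.range → γ ∉ G₀ := by
    intro γ hγ
    rwa [Subgroup.range_subtype] at hγ
  obtain ⟨b1, b2, b3, b4⟩ := MCRT_b G₀.subtype q hD hq hqe hCT.idem
    (fun γ hγ => hCT.orth γ (hr γ hγ)) hCT.inv hCT.sum b hb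
  obtain ⟨e, he1, he2, he3, he4, he5⟩ := all_JIdem k G G₀ G₀.subtype D hD b b1 b2 b3 b4
  obtain ⟨E, _, _, _, π, hE, hπa, hπe, hπq⟩ :=
    all_QQuo (LaurentSeries k) G G₀ G₀.subtype D e G₀.subtype_injective hD he1 he3 he4 he5
  have hπq' : ∀ (g : G₀) (z : D), π ((g : G) • z) = g • π z := hπq
  obtain ⟨tI', tadd', tmul', tint', tsmul', _, tidI', tunit', tid0'⟩ := all_QTN k G₀ E hE
  have hπxi : ∀ m : ℤ, π (xi k D m) = xi k E m := fun m => hπa _
  have tπ : ∀ z : D, TN (κ := k) z → TN (κ := k) (π z) := by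
    intro z hz
    refine JCR_tn_map (RingHom.id (LaurentSeries k)) 1 one_pos (fun a _ => ?_) π (fun a => ?_) z hz
    · simp
    · exact hπa a
  -- `π b` is a unit with integral inverse
  obtain ⟨u, hu, hu1⟩ := (hEx3 k G₀ E hE).2 (π (e - b)) (tπ _ he2)
  have hbu : π b * u = 1 := by
    rw [← hu1, map_sub, hπe]
    ring
  have key : ∀ z : D, TN (κ := k) (b * z) → TN (κ := k) (π z) := by
    intro z hz
    have h := tmul' _ _ (tπ _ hz) hu
    rw [map_mul] at h
    have e1 : π b * π z * u = π z := by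
      calc π b * π z * u = (π b * u) * π z := by ring
        _ = π z := by rw [hbu, one_mul]
    rwa [e1] at h
  set s : D := xi k D (d : ℤ) with hs
  set s' : D := xi k D (-(d : ℤ)) with hs'
  set x : D := xi k D 1 with hx
  set x' : D := xi k D (-1) with hx'
  have hss : s * s' = 1 := MCRT_inv k D _
  have hxx : x * x' = 1 := MCRT_inv k D _
  have hssp : ∀ m : ℕ, s ^ m * s' ^ m = 1 := fun m => by rw [← mul_pow, hss, one_pow]
  have hqX : ∀ m : ℕ, q (algebraMap k[X] B (X ^ (d * m))) = s' ^ m := fun m => by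
    rw [MCRT_q q hq, MCRT_xi_mul']
  set T₀ : D := s * q t with hT₀
  set T : E := π T₀ with hT
  set Y₀ : (P →* Multiplicative (ZMod p)) → D := fun l => s * q (η l) with hY₀
  have hxi1 : xi k D ((d * (n + 1) + 1 : ℕ) : ℤ) = s ^ (n + 1) * x := by
    rw [Nat.cast_add, MCRT_xi_add, MCRT_xi_mul, Nat.cast_one]
  have hγT : ∀ γ : G, γ • T₀ = s * q (γ • t) := by
    intro γ
    rw [hT₀, smul_mul', MCRT_xiS hD, hqe]
  have hγY : ∀ (γ : G) (l), γ • Y₀ l = s * q (γ • η l) := by
    intro γ l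
    change γ • (s * q (η l)) = _
    rw [smul_mul', MCRT_xiS hD, hqe]
  have hn1 : s ^ (n + 1) = s * (s * s ^ (n - 1)) := by
    rw [← pow_succ', ← pow_succ', Nat.sub_add_cancel hn]
  obtain ⟨τ, hτ⟩ := hExact k p n N ζ G₀ P c E T (fun l => π (Y₀ l)) f hE hn hpn hζ.pow_eq_one hN
    (by
      have h := hQ _ _ hCT.pow
      have hX : q (algebraMap k[X] B (X ^ (d * n + 1))) = s' ^ n * x' := by
        rw [pow_add, map_mul, map_mul, hqX, MCRT_q q hq, Nat.cast_one]
      rw [hxi1, map_mul, map_mul, map_sub, hX, MCRT_q q hq, map_pow] at h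
      have e1 : s ^ (n + 1) * x * (xi k D (-(N : ℤ)) * q β * (q t ^ n - s' ^ n * x')) =
          b * (xi k D (-(N : ℤ)) * (T₀ ^ n * x - 1)) := by
        calc s ^ (n + 1) * x * (xi k D (-(N : ℤ)) * q β * (q t ^ n - s' ^ n * x')) =
              (s * q β) * (xi k D (-(N : ℤ)) * ((s ^ n * q t ^ n) * x -
                (s ^ n * s' ^ n) * (x * x'))) := by ring
          _ = _ := by rw [hssp, hxx, one_mul, ← mul_pow]
      rw [e1] at h
      have h2 := key _ h
      rw [map_mul, map_sub, map_mul, map_pow, map_one, hπxi, hπxi] at h2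
      exact h2)
    (fun g hg => by
      have h := hQ _ _ (hCT.fix g hg)
      rw [hxi1, map_mul, map_mul, map_sub, map_pow] at h
      have e1 : s ^ (n + 1) * x * (q β * (q ((g : G) • t) - q t) * q t ^ (n - 1)) =
          b * (((g : G) • T₀ - T₀) * T₀ ^ (n - 1) * x) := by
        rw [hn1, hγT, hT₀, mul_pow, hb]
        ring
      rw [e1] at h
      have h2 := key _ h
      rw [map_mul, map_mul, map_sub, hπq', map_pow, hπxi] at h2
      exact h2)
    (by
      have h := hQ _ _ hCT.tame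
      rw [hxi1, map_mul, map_mul, map_sub, map_pow, map_mul, hq] at h
      have hCζ : atInf k (C ζ) = HahnSeries.C ζ := by
        rw [atInf, coe_eval₂RingHom, eval₂_C]
      rw [hCζ] at h
      have e1 : s ^ (n + 1) * x * (q β * (q ((c : G) • t) -
          algebraMap (LaurentSeries k) D (HahnSeries.C ζ) * q t) * q t ^ (n - 1)) =
          b * (((c : G) • T₀ - algebraMap (LaurentSeries k) D (HahnSeries.C ζ) * T₀) *
            T₀ ^ (n - 1) * x) := by
        rw [hn1, hγT, hT₀, mul_pow, hb]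
        ring
      rw [e1] at h
      have h2 := key _ h
      have e5 : π (algebraMap (LaurentSeries k) D (HahnSeries.C ζ) * T₀) =
          algebraMap (LaurentSeries k) E (HahnSeries.C ζ) * T := by rw [map_mul, hπa]
      rw [map_mul, map_mul, map_sub, hπq', map_pow, e5, hπxi] at h2
      exact h2)
    (fun l hl => by
      have h := hQ _ _ (hCT.as l hl)
      rw [MCRT_xi_mul, map_mul, map_sub, map_sub, map_mul, map_mul, hqX, hqX, map_pow] at h
      have hEv := MCRT_Ev q hq d N (f l) (hCT.deg l hl).2 t T₀ hT₀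
      have e2 : s ^ N = s ^ p * s ^ (N - p) := by
        rw [← pow_add, Nat.add_sub_cancel' hCT.pN]
      have e3 : s ^ N = s * s ^ (N - 1) := by
        rw [← pow_succ', Nat.sub_add_cancel hN]
      have e1 : s ^ (N + 1) * (q β * (s' ^ (N - p) * q (η l) ^ p - s' ^ (N - 1) * q (η l) -
          q (Ev k d N (f l) t))) = b * (Y₀ l ^ p - Y₀ l - (f l).eval₂
          ((algebraMap (LaurentSeries k) D).comp (HahnSeries.C : k →+* LaurentSeries k)) T₀) := by
        rw [← hEv]
        calc s ^ (N + 1) * (q β * (s' ^ (N - p) * q (η l) ^ p - s' ^ (N - 1) * q (η l) -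
              q (Ev k d N (f l) t))) = (s * q β) * (s ^ N * s' ^ (N - p) * q (η l) ^ p -
              s ^ N * s' ^ (N - 1) * q (η l) - s ^ N * q (Ev k d N (f l) t)) := by ring
          _ = (s * q β) * (s ^ p * (s ^ (N - p) * s' ^ (N - p)) * q (η l) ^ p -
              s * (s ^ (N - 1) * s' ^ (N - 1)) * q (η l) - s ^ N * q (Ev k d N (f l) t)) := by
            rw [show s ^ N * s' ^ (N - p) = s ^ p * (s ^ (N - p) * s' ^ (N - p)) by rw [e2]; ring,
              show s ^ N * s' ^ (N - 1) = s * (s ^ (N - 1) * s' ^ (N - 1)) by rw [e3]; ring]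
          _ = _ := by
            rw [hssp, hssp, mul_one, mul_one]
            change _ = b * ((s * q (η l)) ^ p - s * q (η l) - _)
            rw [mul_pow]
      rw [e1] at h
      have h2 := key _ h
      rw [map_sub, map_sub, map_pow, hom_eval₂] at h2
      have e4 : π.comp ((algebraMap (LaurentSeries k) D).comp
          (HahnSeries.C : k →+* LaurentSeries k)) = (algebraMap (LaurentSeries k) E).comp
          (HahnSeries.C : k →+* LaurentSeries k) := RingHom.ext fun a => hπa _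
      rw [e4] at h2
      exact h2)
    (fun l hl g => by
      have h := hQ _ _ (hCT.act l hl g)
      rw [mul_comm 2 d, MCRT_xi_mul, map_mul, map_sub, map_sub, map_mul, map_natCast] at h
      have hX : q (algebraMap k[X] B (X ^ d)) = s' := by
        have := hqX 1
        rwa [mul_one, pow_one] at this
      rw [hX] at h
      have e1 : s ^ 2 * (q β * (q (((g : G₀) : G) • η l) - q (η l) - s' *
          (((Multiplicative.toAdd (l g)).val : ℕ) : D))) =
          b * ((((g : G₀) : G) • Y₀ l) - Y₀ l - (((Multiplicative.toAdd (l g)).val : ℕ) : D)) := by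
        rw [hγY]
        change _ = b * (_ - s * q (η l) - _)
        calc s ^ 2 * (q β * (q (((g : G₀) : G) • η l) - q (η l) - s' *
              (((Multiplicative.toAdd (l g)).val : ℕ) : D))) =
              (s * q β) * (s * q (((g : G₀) : G) • η l) - s * q (η l) - (s * s') *
              (((Multiplicative.toAdd (l g)).val : ℕ) : D)) := by ring
          _ = _ := by rw [hss, one_mul]
      rw [e1] at h
      have h2 := key _ h
      rw [map_sub, map_sub, hπq', map_natCast] at h2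
      exact h2)
    hCT.deg
  have hEd : IsDomain E := hTDom k p n ζ G₀ P c hPn hP hPc hc hpn hζ E τ hE hτ
  refine ⟨B, inferInstance, inferInstance, inferInstance, E, inferInstance, inferInstance,
    inferInstance, π.comp q, hB, hdom, hE, hEd, fun a => ?_, fun g a => ?_⟩
  · rw [RingHom.comp_apply, hq, hπa]
  · rw [RingHom.comp_apply, RingHom.comp_apply, hqe, hπq']

end MP7b0bad.MT
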