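import Pool.Agent.Work.MP_7b0bad_ag.MT.DStmts
import Pool.Agent.Work.MP_7b0bad_ag.Bd.B12

set_option autoImplicit false

/-!
# Item MGeoT: total ramification data are geometrically a domain
-/

namespace MP7b0bad.MT

open Polynomial

theorem MGeoT_single (K Ω : Type) [Field K] [Field Ω] [Algebra K Ω] (n : ℤ) (a : K) :
    E7_phi K Ω (HahnSeries.single n a) = HahnSeries.single n (algebraMap K Ω a) := by
  ext m
  rw [E7_phi_coeff, HahnSeries.coeff_single, HahnSeries.coeff_single]
  split_ifs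
  · rfl
  · exact map_zero _

theorem MGeoT_C (K Ω : Type) [Field K] [Field Ω] [Algebra K Ω] (a : K) :
    E7_phi K Ω (HahnSeries.C a) = HahnSeries.C (algebraMap K Ω a) := by
  rw [HahnSeries.C_apply, HahnSeries.C_apply, MGeoT_single]

theorem prf_MGeoT (hTDom : MTDom) : MGeoT := by
  intro K _ p _ _ n ζ G₀ _ _ P c hPn hP hPc hord hpn hζ E _ _ _ τ hE hT Ω _ _
  obtain ⟨E', c1, c2, c3, q, hG, hq1, hq2, -, -⟩ :=
    all_QBC (LaurentSeries K) (LaurentSeries Ω) (E7_phi K Ω) G₀ E hE
  have hch : CharP Ω p := charP_of_injective_algebraMap (algebraMap K Ω).injective p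
  refine ⟨E', c1, c2, c3, q, hG, ?_, hq1, hq2⟩
  refine hTDom Ω p n (algebraMap K Ω ζ) G₀ P c hPn hP hPc hord hpn
    (hζ.map_of_injective (algebraMap K Ω).injective) E' (q τ) hG ⟨?_, ?_, ?_, ?_⟩
  · have h := congrArg q hT.pow
    rw [map_mul, map_pow, hq1, MGeoT_single, map_one (algebraMap K Ω), map_one q] at h
    exact h
  · intro g hg
    rw [← hq2, hT.fix g hg]
  · rw [← hq2, hT.tame, map_mul, hq1, MGeoT_C]
  · intro l hl
    obtain ⟨y, f, h1, h2, h3⟩ := hT.as l hl
    refine ⟨q y, f.map (algebraMap K Ω), ?_, ?_, ?_⟩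
    · intro g
      rw [← hq2, h1 g, map_add, map_natCast]
    · rw [← map_pow, ← map_sub, h2, hom_eval₂, eval₂_map]
      congr 1
      ext a
      change q (algebraMap (LaurentSeries K) E (HahnSeries.C a)) =
        algebraMap (LaurentSeries Ω) E' (HahnSeries.C (algebraMap K Ω a))
      rw [hq1, MGeoT_C]
    · rw [natDegree_map]
      exact h3

end MP7b0bad.MT
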