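import Pool.Agent.Work.MP_7b0bad_ag.MT.DStmts
import Pool.Agent.Work.MP_7b0bad_ag.Bd.B12

set_option autoImplicit false

/-!
Item MSp: general specialisation lemma.
-/

namespace MP7b0bad.MT

open Polynomial

theorem MSp_main (hE9 : E9) (hQSpr : QSpr) (hQBC : QBC) : MSp := by
  classical
  intro k _ _ K _ _ Γ _ _ C _ _ _ hgal ZC ZK F hFm hFd hFirr w hw I _ d s hs
  have := Fintype.ofFinite I
  choose Z hZ using fun i => TII_small k (hs i)
  set ZK' : Finset K := ZK ∪ {w} ∪ F.coeffs.biUnion (fun c => c.coeffs) ∪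
    Finset.univ.biUnion Z with hZK
  obtain ⟨R', hR'fg, hR'Z, C', _, _, _, incl, hinj, halg, hact, hgal', hCZ⟩ :=
    hQSpr k K Γ C hgal ZC ZK'
  have hK1 : ∀ z ∈ ZK, z ∈ R' := fun z hz => hR'Z z (by
    rw [hZK]
    exact Finset.mem_union_left _ (Finset.mem_union_left _ (Finset.mem_union_left _ hz)))
  have hKw : w ∈ R' := hR'Z w (by
    rw [hZK]
    exact Finset.mem_union_left _ (Finset.mem_union_left _ (Finset.mem_union_right _
      (Finset.mem_singleton_self _))))
  have hKF : ∀ c ∈ F.coeffs, ∀ z ∈ c.coeffs, z ∈ R' := fun c hc z hz => hR'Z z (by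
    rw [hZK]
    exact Finset.mem_union_left _ (Finset.mem_union_right _ (Finset.mem_biUnion.2 ⟨c, hc, hz⟩)))
  have hKZ : ∀ i, ∀ z ∈ Z i, z ∈ R' := fun i z hz => hR'Z z (by
    rw [hZK]
    exact Finset.mem_union_right _ (Finset.mem_biUnion.2 ⟨i, Finset.mem_univ _, hz⟩))
  have hRK : Function.Injective (algebraMap R' K) := FaithfulSMul.algebraMap_injective R' K
  -- lift of F
  have hFl : F ∈ Polynomial.lifts (mapRingHom (algebraMap R' K)) := by
    rw [lifts_iff_coeff_lifts]
    intro n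
    by_cases hn : F.coeff n = 0
    · exact ⟨0, by rw [map_zero, hn]⟩
    · obtain ⟨c', hc'⟩ := TII_lift (R' := R') (F.coeff n) fun z hz =>
        ⟨⟨z, hKF _ (coeff_mem_coeffs hn) z hz⟩, rfl⟩
      exact ⟨c', hc'⟩
  obtain ⟨F', hF', hF'd, hF'm⟩ := lifts_and_natDegree_eq_and_monic hFl hFm
  have hF'd0 : 0 < F'.natDegree := by rw [hF'd]; exact hFd
  -- specialisation
  have hft : Algebra.FiniteType k R' := (Subalgebra.fg_iff_finiteType R').1 hR'fg
  have hw' : (⟨w, hKw⟩ : R') ≠ 0 := by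
    intro h
    exact hw (congrArg (fun r : R' => (r : K)) h)
  obtain ⟨φ, hφ1, hφ2⟩ := hE9 k R' hft (AlgebraicClosure K)
    (by
      rw [IsScalarTower.algebraMap_eq R' K (AlgebraicClosure K)]
      exact (algebraMap K (AlgebraicClosure K)).injective.comp hRK)
    F' hF'm hF'd0
    (by
      have h1 := hFirr (AlgebraicClosure K)
      rw [← hF', map_map] at h1
      have h2 : (mapRingHom (algebraMap K (AlgebraicClosure K))).comp
          (mapRingHom (algebraMap R' K)) = mapRingHom (algebraMap R' (AlgebraicClosure K)) := by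
        rw [IsScalarTower.algebraMap_eq R' K (AlgebraicClosure K), mapRingHom_comp]
      rw [h2] at h1
      exact h1)
    ⟨w, hKw⟩ hw'
  obtain ⟨C'', _, _, _, q, hq0, hq1, hq2, -, -⟩ := hQBC (R')[X] k[X] (mapRingHom (φ : R' →+* k))
    Γ C' hgal'
  have hq1' : ∀ a : (R')[X], q (algebraMap (R')[X] C' a) = algebraMap k[X] C''
      (a.map (φ : R' →+* k)) := hq1
  refine ⟨R', φ, C', inferInstance, inferInstance, inferInstance, incl, C'', inferInstance,
    inferInstance, inferInstance, q, F', hK1, hKw, ?_, hinj, halg, hact, hCZ, hq0, hq1', hq2, ?_,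
    hF', hF'm, hF'd, hφ2⟩
  · intro r hr
    have h1 : r = ⟨w, hKw⟩ := Subtype.ext hr
    rw [h1]
    exact hφ1
  · intro i z' hz'
    exact TII_small' (φ : R' →+* k) q hq1' (hZ i R' (hKZ i) C' incl hinj halg z' hz')

theorem prf_MSp : MSp := MSp_main prf_E9 all_QSpr all_QBC

end MP7b0bad.MT
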