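import Pool.Agent.Work.MP_7b0bad_ag.MT.TStmts

set_option autoImplicit false

/-! Item OStep: one step of the construction of the outer torsor. -/

namespace MP7b0bad.MT

open Polynomial

theorem OStep_map_cz {p : ℕ} {B L : Type} [CommRing B] [CommRing L] (ψ : B →+* L) (a : ZMod p) :
    ψ (cz B a) = cz L a := by
  unfold cz
  exact map_natCast ψ _

/-- `cz` as a ring homomorphism -/
theorem OStep_cz_hom (p : ℕ) [Fact p.Prime] (B : Type) [CommRing B] (hB : (p : B) = 0) :
    ∃ F : ZMod p →+* B, ∀ a, F a = cz B a := by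
  have hd : CharP B p ∨ Subsingleton B := by
    by_cases h : Subsingleton B
    · exact Or.inr h
    · rw [not_subsingleton_iff_nontrivial] at h
      have h2 := CharP.ringChar_of_prime_eq_zero (R := B) (p := p) Fact.out hB
      have h3 : CharP B (ringChar B) := ringChar.charP B
      rw [h2] at h3
      exact Or.inl h3
  rcases hd with h | h
  · refine ⟨ZMod.castHom (dvd_refl p) B, fun a => ?_⟩
    unfold cz
    rw [ZMod.castHom_apply, ← ZMod.natCast_val]
  · exact ⟨{ toFun := fun _ => 0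
             map_one' := Subsingleton.elim _ _
             map_mul' := fun _ _ => Subsingleton.elim _ _
             map_zero' := rfl
             map_add' := fun _ _ => Subsingleton.elim _ _ }, fun a => Subsingleton.elim _ _⟩

theorem OStep_vA_mul {p r : ℕ} [Fact p.Prime] {B : Type} [CommRing B] (hB : (p : B) = 0)
    (M N : Matrix (Fin r) (Fin r) (ZMod p)) (x : Fin r → B) :
    vA (M * N) x = vA M (vA N x) := by
  obtain ⟨F, hF⟩ := OStep_cz_hom p B hB
  funext i
  unfold vA
  simp only [← hF, Matrix.mul_apply, map_sum, map_mul, Finset.sum_mul, Finset.mul_sum]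
  rw [Finset.sum_comm]
  refine Finset.sum_congr rfl fun j _ => Finset.sum_congr rfl fun l _ => ?_
  ring

theorem OStep_vA_one {p r : ℕ} [Fact p.Prime] {B : Type} [CommRing B] (hB : (p : B) = 0)
    (x : Fin r → B) : vA (1 : Matrix (Fin r) (Fin r) (ZMod p)) x = x := by
  obtain ⟨F, hF⟩ := OStep_cz_hom p B hB
  funext i
  unfold vA
  simp only [← hF, Matrix.one_apply]
  rw [Finset.sum_eq_single i]
  · simp
  · intro j _ hj
    rw [if_neg (Ne.symm hj), map_zero, zero_mul]
  · intro h; exact absurd (Finset.mem_univ i) h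

theorem OStep_vA_inj {p r : ℕ} [Fact p.Prime] {Γ : Type} [Group Γ]
    (M : Γ →* Matrix (Fin r) (Fin r) (ZMod p)) {B : Type} [CommRing B] (hB : (p : B) = 0) (g : Γ)
    (x y : Fin r → B) (h : vA (M g) x = vA (M g) y) : x = y := by
  have h1 := congrArg (vA (M g⁻¹)) h
  rwa [← OStep_vA_mul hB, ← OStep_vA_mul hB, ← map_mul, inv_mul_cancel, map_one,
    OStep_vA_one hB, OStep_vA_one hB] at h1

theorem OStep_vA_add {p r : ℕ} {B : Type} [CommRing B] (M : Matrix (Fin r) (Fin r) (ZMod p))
    (x y : Fin r → B) : vA M (x + y) = vA M x + vA M y := by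
  funext i
  simp only [vA, Pi.add_apply, mul_add, Finset.sum_add_distrib]

theorem OStep_vA_map {p r : ℕ} {B L : Type} [CommRing B] [CommRing L] (ψ : B →+* L)
    (M : Matrix (Fin r) (Fin r) (ZMod p)) (x : Fin r → B) :
    (fun j => ψ (vA M x j)) = vA M (fun j => ψ (x j)) := by
  funext i
  simp only [vA, map_sum, map_mul, OStep_map_cz]

theorem prf_OStep (hOVX : OVX) (hOCoh : OCoh) (hODisc : ODisc) (hOTra : OTra) (hOEig : OEig) :
    OStep := by
  intro k _ _ p _ _ N R _ ρ kR θ C _ _ A0 _ _ _ κ _ _ ik t₀ jI hcard hT r Γ Γb _ _ _ _ π i M qb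
    B _ _ _ e0 hr hEl hqb hM1 hirr hGB he0alg he0act hTRA D _ _ δ L _ _ _ ψ hGL hψalg hψact
  have hpR := hT.char
  have hpB : (p : B) = 0 := by
    have := congrArg (algebraMap R B) hpR
    rwa [map_natCast, map_zero] at this
  have hpL : ∀ l, (p : L l) = 0 := by
    intro l
    have := congrArg (ψ l) hpB
    rwa [map_natCast, map_zero] at this
  have hpA : (p : A0) = 0 := by
    have := congrArg (algebraMap R A0) hpR
    rwa [map_natCast, map_zero] at this
  obtain ⟨z, a, hZC, hZA⟩ := hOCoh R p r Γ Γb π i M B hpR hEl hGB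
  obtain ⟨r₁, hr₁, hdisc⟩ := hODisc k p N R ρ θ hpR hT.dns hT.ρθ r Γ Γb π i M B z a hEl hGB hZC hZA
    D δ L ψ hGL hψalg hψact
  -- adding an invariant vector keeps `ZA`
  have hZAadd : ∀ (a' s : Fin r → B), ZA π M z a' → (∀ g : Γb, vA (M g) (g • s) = s) →
      ZA π M z (fun j => a' j + s j) := by
    intro a' s h1 h2 g
    have h3 : (fun j => a' j + s j) = a' + s := rfl
    rw [h3, smul_add, OStep_vA_add, h2, h1 g]
    abel
  have hZA1 : ZA π M z (fun j => a j + r₁ j) := hZAadd a r₁ hZA hr₁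
  obtain ⟨d₀, hd₀⟩ := hOTra p κ R C A0 jI hpR hT.gal r Γ Γb π i M qb B e0 z (fun j => a j + r₁ j)
    hEl hqb hM1 hGB hZC hZA1 he0alg he0act hTRA
  obtain ⟨v₀, χ, hv₀, hv₀ne⟩ := hOEig k p C Γb qb r M hcard hr hqb hM1 hirr
  obtain ⟨b', d, hb'eig, hd₀d, hpd, hord⟩ := hT.eig χ⁻¹ d₀
  have hpk : (p : k) = 0 := CharP.cast_eq_zero k p
  -- invariance of multiples of the eigenvector
  have hinvA : ∀ c : R, ∀ g : Γb,
      vA (M g) (qb g • (fun j => algebraMap R A0 c * (algebraMap R A0 (kR (v₀ j)) * b'))) =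
        fun j => algebraMap R A0 c * (algebraMap R A0 (kR (v₀ j)) * b') := by
    intro c g
    funext j
    have h1 : ∀ l, (qb g • (fun j => algebraMap R A0 c * (algebraMap R A0 (kR (v₀ j)) * b')) :
        Fin r → A0) l =
        algebraMap R A0 (c * (kR (v₀ l) * kR (((χ (qb g))⁻¹ : kˣ) : k))) * b' := by
      intro l
      show qb g • (algebraMap R A0 c * (algebraMap R A0 (kR (v₀ l)) * b')) = _
      rw [smul_mul', smul_mul', hT.gal.comm, hT.gal.comm, hb'eig, map_mul, map_mul]
      have h2 : (χ⁻¹ (qb g) : kˣ) = (χ (qb g))⁻¹ := rfl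
      rw [h2]
      ring
    have h3 := congrFun (hv₀ g) j
    have h4 : ∑ l, cz k (M g j l) * v₀ l = ((χ (qb g) : kˣ) : k) * v₀ j := h3
    show ∑ l, cz A0 (M g j l) *
      (qb g • (fun j => algebraMap R A0 c * (algebraMap R A0 (kR (v₀ j)) * b')) : Fin r → A0) l = _
    simp only [h1]
    have h5 : ∀ l, cz A0 (M g j l) *
        (algebraMap R A0 (c * (kR (v₀ l) * kR (((χ (qb g))⁻¹ : kˣ) : k))) * b') =
        algebraMap R A0 (c * kR (((χ (qb g))⁻¹ : kˣ) : k)) *
          (algebraMap R A0 (kR (cz k (M g j l) * v₀ l)) * b') := by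
      intro l
      have h6 : cz A0 (M g j l) = algebraMap R A0 (kR (cz k (M g j l))) := by
        rw [OStep_map_cz, OStep_map_cz]
      rw [h6]
      simp only [map_mul]
      ring
    simp only [h5]
    rw [← Finset.mul_sum, ← Finset.sum_mul, ← map_sum, ← map_sum, h4]
    have h7 : kR (((χ (qb g))⁻¹ : kˣ) : k) * kR (((χ (qb g) : kˣ) : k) * v₀ j) = kR (v₀ j) := by
      rw [← map_mul, ← mul_assoc, Units.inv_mul, one_mul]
    rw [← mul_assoc, ← map_mul, mul_assoc c, h7, map_mul, mul_assoc]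
  -- the local solutions
  set w' : Fin r → A0 := fun j => algebraMap R A0 (kR (v₀ j)) * b' with hw'
  have hw'inv : ∀ g : Γb, vA (M g) (qb g • w') = w' := by
    intro g
    have h1 := hinvA 1 g
    simpa only [map_one, one_mul] using h1
  have he0vec : ∀ (g : Γb) (x : Fin r → A0), vA (M g) (qb g • x) = x →
      vA (M g) (g • (fun j => e0 (x j))) = fun j => e0 (x j) := by
    intro g x hx
    have h1 : (g • (fun j => e0 (x j)) : Fin r → B) = fun j => e0 ((qb g • x) j) := by
      funext j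
      exact (he0act g (x j)).symm
    rw [h1, ← OStep_vA_map, hx]
  obtain ⟨b₀, hb₀⟩ := hdisc (fun j => e0 (w' j)) (fun g => he0vec g w' (hw'inv g))
  have hy := hb₀ b₀ le_rfl
  set w : Fin r → A0 := fun j => algebraMap R A0 (θ ^ b₀) * w' j with hw
  have hwinv : ∀ g : Γb, vA (M g) (qb g • w) = w := fun g => hinvA (θ ^ b₀) g
  have he0w : ∀ j, e0 (w j) = algebraMap R B (θ ^ b₀) * e0 (w' j) := by
    intro j
    rw [hw]
    simp only [map_mul, he0alg]
  -- the pole orders
  have hword : ∀ v : Fin r → ZMod p, v ≠ 0 →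
      (jI (∑ j, cz A0 (v j) * w j)).order = -(d : ℤ) := by
    intro v hv
    have h1 : ∑ j, cz A0 (v j) * w j =
        algebraMap R A0 (θ ^ b₀) * (algebraMap R A0 (kR (∑ j, cz k (v j) * v₀ j)) * b') := by
      rw [map_sum, map_sum, Finset.sum_mul, Finset.mul_sum]
      refine Finset.sum_congr rfl fun j _ => ?_
      have h6 : cz A0 (v j) = algebraMap R A0 (kR (cz k (v j))) := by
        rw [OStep_map_cz, OStep_map_cz]
      rw [h6, hw, hw', map_mul kR, map_mul (algebraMap R A0)]
      ring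
    have hc : t₀ ^ b₀ * ik (∑ j, cz k (v j) * v₀ j) ≠ 0 := by
      refine mul_ne_zero (pow_ne_zero _ hT.t₀_ne) ?_
      intro h
      exact hv₀ne v hv (ik.injective (by rw [h, map_zero]))
    have h2 : jI (∑ j, cz A0 (v j) * w j) =
        HahnSeries.C (t₀ ^ b₀ * ik (∑ j, cz k (v j) * v₀ j)) * jI b' := by
      rw [h1, map_mul, map_mul, hT.jk, map_pow, map_pow, hT.jθ, map_mul, map_pow, mul_assoc]
    have hb0 : jI b' ≠ 0 := by
      intro h
      rw [h, HahnSeries.order_zero] at hord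
      apply hpd
      have : d = 0 := by omega
      rw [this]
      exact dvd_zero p
    rw [h2, HahnSeries.order_mul (HahnSeries.C_ne_zero hc) hb0, HahnSeries.order_C, zero_add, hord]
  have hTRA2 := hd₀ w d hd₀d hpd hwinv hword
  -- the algebra
  have hZA2 : ZA π M z (fun j => (a j + r₁ j) + e0 (w j)) :=
    hZAadd (fun j => a j + r₁ j) (fun j => e0 (w j)) hZA1 (fun g => he0vec g w (hwinv g))
  obtain ⟨E, _, _, _, e, y, hV⟩ := hOVX R p r Γ Γb π i M B z (fun j => (a j + r₁ j) + e0 (w j)) hpR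
    hEl hGB hZC hZA2
  choose yl hyl1 hyl2 using hy
  have hex : ∀ l, ∃ F : E →+* L l, (∀ x, F (e x) = ψ l x) ∧ ∀ j, F (y j) = yl l j := by
    intro l
    refine hV.univ (L l) (ψ l) (yl l) fun j => ?_
    rw [hyl2 l j, he0w]
  choose ψ' hψ'1 hψ'2 using hex
  refine ⟨E, inferInstance, inferInstance, inferInstance, e, ψ', hV.gal, hV.e_alg, hV.e_act, hψ'1,
    ?_, hTRA2 E e y hV⟩
  intro l dd x
  have hmain : (ψ' l).comp (MulSemiringAction.toRingHom Γ E (δ l dd)) =
      (MulSemiringAction.toRingHom (D l) (L l) dd).comp (ψ' l) := by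
    refine hV.uniq (L l) _ _ (fun x => ?_) (fun j => ?_)
    · show ψ' l (δ l dd • e x) = dd • ψ' l (e x)
      rw [hV.e_act, hψ'1, hψ'1, hψact]
    · show ψ' l (δ l dd • y j) = dd • ψ' l (y j)
      have h1 := hV.y_act (δ l dd)
      have h2 := hyl1 l dd
      have h3 : vA (M (π (δ l dd))) (fun j => ψ' l ((δ l dd • y) j)) =
          vA (M (π (δ l dd))) (dd • yl l) := by
        rw [h2, ← OStep_vA_map, h1]
        funext j
        simp only [Pi.add_apply, map_add, hψ'1, hψ'2]
      have h4 := congrFun (OStep_vA_inj M (hpL l) _ _ _ h3) j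
      rw [hψ'2]
      exact h4
  exact congrArg (fun F : E →+* L l => F x) hmain

end MP7b0bad.MT
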