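import Pool.Agent.Work.MP_7b0bad_ag.MT.PD

set_option autoImplicit false

/-!
# The patching theorem with tame inertia
-/

namespace MP7b0bad.MT.PJ

open Polynomial

theorem a_QP1 : QP1 := prf_QP1
theorem a_QP2 : QP2 := prf_QP2
theorem a_QB1 : QB1 := prf_QB1 all_QGL all_QFree a_QP2
theorem a_QB2 : QB2 := prf_QB2 all_QGL a_QP1 all_QC2a
theorem a_QD3 : QD3 := prf_QD3 a_QB1 a_QP2
theorem a_QV1 : QV1 := prf_QV1 a_QB2
theorem a_QV2 : QV2 := prf_QV2 a_QB1
theorem a_QV3 : QV3 := prf_QV3 a_QV1 a_QV2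
theorem a_QV4S : QV4S := prf_QV4S a_QP1
theorem a_QV4R : QV4R := prf_QV4R a_QP2
theorem a_QT1 : QT1 := prf_QT1
theorem a_QV5 : QV5 := prf_QV5 a_QT1 a_QV3 a_QV4R a_QV4S
theorem a_QV7 : QV7 := prf_QV7 a_QP1 a_QD3 all_QC2a

/-- elements of the patched ring that vanish somewhere are zero -/
theorem QV6 (k : Type) [Field k] (m N : ℕ) (V : (LaurentSeries k)[X]) (ξ : Fin N → Fk k)
    (b : RB k N V ξ) (G : Type) [Group G] [Finite G] (P : Subgroup G) (P' : Fin N → Subgroup G)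
    (hP : ∀ i, P' i ≤ P) (H : Fin N → Subgroup G) (hH : ∀ i, P' i ≤ H i)
    (Q : Fin N → Type) [∀ i, CommRing (Q i)] [∀ i, Algebra (Fk k) (Q i)]
    [∀ i, MulSemiringAction (P' i) (Q i)]
    (O : OuterR k b P (fun i => P' i) (fun i => Subgroup.inclusion (hP i)) Q)
    (c : ∀ i, InnerM k m (H i) (P' i) (Subgroup.inclusion (hH i)) (Q i)) (hm : 0 < m)
    (hQ : ∀ i, GalAlg (Fk k) (P' i) (Q i)) (hN : 0 < N) (hgen : (P ⊔ ⨆ i, H i) = ⊤)
    (hS3 : ∀ u ∈ SM O, (∃ γ i, u γ i = 0) → u = 0) :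
    ∀ v ∈ BQ O c, (∃ g i, v g i = 0) → v = 0 := by
  intro v hv hv0
  obtain ⟨⟨_, hvS⟩, hvR⟩ := hv
  have hS : ∀ g : G, (fun γ : P => v (g * γ)) ∈ SM O := hvS
  have hR : ∀ i (g : G), (fun γ : H i => v (g * γ) i) ∈ RN (c i) := hvR
  -- along `P`
  have stepP : ∀ (g : G) (i : Fin N), v g i = 0 → ∀ γ : P, v (g * γ) = 0 := by
    intro g i hgi γ
    have h1 := hS3 (fun γ : P => v (g * γ)) (hS g) ⟨1, i, by
        show v (g * ((1 : P) : G)) i = 0
        rw [Subgroup.coe_one, mul_one]; exact hgi⟩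
    exact congrFun h1 γ
  -- along `H i`
  have stepH : ∀ (i : Fin N) (g : G), v g = 0 → ∀ γ : H i, v (g * γ) = 0 := by
    intro i g hg γ
    have h1 := (a_QD3 k m (H i) (P' i) (Subgroup.inclusion (hH i)) (Q i) (c i) hm (hQ i)
      (fun γ : H i => v (g * γ) i) (hR i g)).1 ⟨1, by
        show v (g * ((1 : H i) : G)) i = 0
        rw [Subgroup.coe_one, mul_one, hg]; rfl⟩
    have h2 : v (g * γ) i = 0 := congrFun h1 γ
    have h3 := stepP (g * γ) i h2 1
    rwa [Subgroup.coe_one, mul_one] at h3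
  let K : Subgroup G :=
    { carrier := {a | ∀ g, v g = 0 ↔ v (g * a) = 0}
      one_mem' := fun g => by rw [mul_one]
      mul_mem' := fun {a b} ha hb g => by
        have h1 : v g = 0 ↔ v (g * a) = 0 := ha g
        have h2 : v (g * a) = 0 ↔ v (g * a * b) = 0 := hb (g * a)
        rw [← mul_assoc]
        exact h1.trans h2
      inv_mem' := fun {a} ha g => by
        have h1 : v (g * a⁻¹) = 0 ↔ v (g * a⁻¹ * a) = 0 := ha (g * a⁻¹)
        rw [inv_mul_cancel_right] at h1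
        exact h1.symm }
  have hPK : P ≤ K := by
    intro a ha g
    have i0 : Fin N := ⟨0, hN⟩
    constructor
    · intro hg
      exact stepP g i0 (by rw [hg]; rfl) ⟨a, ha⟩
    · intro hg
      have h1 := stepP (g * a) i0 (by rw [hg]; rfl) ⟨a⁻¹, P.inv_mem ha⟩
      rwa [mul_inv_cancel_right] at h1
  have hHK : ∀ i, H i ≤ K := by
    intro i a ha g
    constructor
    · intro hg
      exact stepH i g hg ⟨a, ha⟩
    · intro hg
      have h1 := stepH i (g * a) hg ⟨a⁻¹, (H i).inv_mem ha⟩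
      rwa [mul_inv_cancel_right] at h1
  have hK : K = ⊤ := by
    rw [eq_top_iff, ← hgen]
    exact sup_le hPK (iSup_le hHK)
  obtain ⟨g0, i0, h0⟩ := hv0
  have h1 : v g0 = 0 := by
    have := stepP g0 i0 h0 1
    rwa [Subgroup.coe_one, mul_one] at this
  funext g
  have h2 : g0⁻¹ * g ∈ K := by rw [hK]; trivial
  have h3 := (h2 g0).mp h1
  rw [mul_inv_cancel_left] at h3
  exact h3

theorem res_mem {k : Type} [Field k] {m N : ℕ} {V : (LaurentSeries k)[X]} {ξ : Fin N → Fk k}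
    {b : RB k N V ξ} {G : Type} [Group G]
    {P : Subgroup G} {P' : Fin N → Subgroup G} {hP : ∀ i, P' i ≤ P} {H : Fin N → Subgroup G}
    {hH : ∀ i, P' i ≤ H i} {Q : Fin N → Type} [∀ i, CommRing (Q i)] [∀ i, Algebra (Fk k) (Q i)]
    [∀ i, MulSemiringAction (P' i) (Q i)]
    (O : OuterR k b P (fun i => P' i) (fun i => Subgroup.inclusion (hP i)) Q)
    (c : ∀ i, InnerM k m (H i) (P' i) (Subgroup.inclusion (hH i)) (Q i))
    {v : G → ∀ i, Q i} (hv : v ∈ BQ O c) : (fun γ : P => v γ) ∈ SM O := by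
  have h1 : v ∈ InSQ O := hv.1.2
  have h2 := h1 1
  simpa only [one_mul] using h2

/-- restriction to `P` -/
noncomputable def res {k : Type} [Field k] {m N : ℕ} {V : (LaurentSeries k)[X]}
    {ξ : Fin N → Fk k} {b : RB k N V ξ} {G : Type} [Group G]
    {P : Subgroup G} {P' : Fin N → Subgroup G} {hP : ∀ i, P' i ≤ P} {H : Fin N → Subgroup G}
    {hH : ∀ i, P' i ≤ H i} {Q : Fin N → Type} [∀ i, CommRing (Q i)] [∀ i, Algebra (Fk k) (Q i)]
    [∀ i, MulSemiringAction (P' i) (Q i)]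
    (O : OuterR k b P (fun i => P' i) (fun i => Subgroup.inclusion (hP i)) Q)
    (c : ∀ i, InnerM k m (H i) (P' i) (Subgroup.inclusion (hH i)) (Q i)) : BQ O c →+* SM O where
  toFun v := ⟨fun γ : P => v.1 γ, res_mem O c v.2⟩
  map_one' := rfl
  map_mul' _ _ := rfl
  map_zero' := rfl
  map_add' _ _ := rfl

/-- PATCHING -/
theorem main : MPT := by
  intro k _ m N V ξ b G _ _ Γ P G₀ D H hD hH h0 Q _ _ _ O c E _ _ _ j hm hN hdis hQ hQd hPG hPn
    hab hgen1 hgen2 hE hEd j_alg j_act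
  classical
  obtain ⟨hcst, htr⟩ := a_QT1 k m N V ξ b G Γ D hD H hH Q O c hQ hdis
  -- the group theory
  have hr0 : ∀ x : Γ, x ∈ (Subgroup.inclusion h0).range ↔ (x : G) ∈ G₀ := by
    intro x
    constructor
    · rintro ⟨y, rfl⟩
      exact y.2
    · intro hx
      exact ⟨⟨x, hx⟩, Subtype.ext rfl⟩
  have hab' : ∀ g h : Γ, g * h * g⁻¹ * h⁻¹ ∈ (Subgroup.inclusion h0).range := by
    intro g h
    rw [hr0]
    exact hPG (hab g g.2 h h.2)
  have hgen1' : (Subgroup.inclusion h0).range ⊔ (⨆ i, (Subgroup.inclusion (hD i)).range) = ⊤ := by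
    apply Subgroup.map_injective Γ.subtype_injective
    rw [Subgroup.map_sup, Subgroup.map_iSup, ← MonoidHom.range_eq_map Γ.subtype,
      Subgroup.range_subtype]
    have e1 : ∀ (L : Subgroup G) (hL : L ≤ Γ),
        (Subgroup.inclusion hL).range.map Γ.subtype = L := by
      intro L hL
      ext x
      constructor
      · rintro ⟨_, ⟨y, rfl⟩, rfl⟩
        exact y.2
      · intro hx
        exact ⟨⟨x, hL hx⟩, ⟨⟨x, hx⟩, rfl⟩, rfl⟩
    rw [e1 G₀ h0]
    simp only [e1]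
    exact hgen1
  obtain ⟨hS3, Θ, hΘinj, hΘe, hΘδ⟩ := SM_dom k N V ξ b Γ (fun i => D i)
    (fun i => Subgroup.inclusion (hD i)) Q O hdis hN hQ hQd G₀ (Subgroup.inclusion h0) E hE hEd j
    j_alg j_act hab' hgen1'
  have hV6 := PJ.QV6 k m N V ξ b G Γ D hD H hH Q O c hm hQ hN hgen2 hS3
  let ι : BQ O c →+* E := Θ.comp (res O c)
  have hι1 : ∀ (f : (LaurentSeries k)[X]) (h : cstQ k ξ G Q f ∈ BQ O c),
      ι ⟨cstQ k ξ G Q f, h⟩ =
      algebraMap (LaurentSeries (LaurentSeries k)) E (atInf (LaurentSeries k) f) := by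
    intro f h
    have e1 : (fun (γ : Γ) (i : Fin N) => O.a i (γ⁻¹ • algebraMap b.R O.A (b.κ f))) =
        fun γ : Γ => cstQ k ξ G Q f γ := by
      funext γ i
      rw [O.gal.comm, O.a_alg, b.ρ_κ]
      rfl
    have h2 : (fun (γ : Γ) (i : Fin N) => O.a i (γ⁻¹ • algebraMap b.R O.A (b.κ f))) ∈ SM O := by
      rw [e1]; exact res_mem O c h
    have e2 : res O c ⟨cstQ k ξ G Q f, h⟩ = ⟨_, h2⟩ := Subtype.ext e1.symm
    change Θ (res O c _) = _
    rw [e2, hΘe, j_alg, b.ρI_κ]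
  have hι2 : ∀ (g : G₀) (v : G → ∀ i, Q i) (h : v ∈ BQ O c)
      (h' : trQ (g : G) v ∈ BQ O c), ι ⟨trQ (g : G) v, h'⟩ = g • ι ⟨v, h⟩ := by
    intro g v h h'
    have h2 : (fun γ : Γ => (fun γ : Γ => v γ) ((Subgroup.inclusion h0 g)⁻¹ * γ)) ∈ SM O :=
      res_mem O c h'
    exact hΘδ (fun γ : Γ => v γ) (res_mem O c h) g h2
  have hι0 : Function.Injective ι := by
    rw [injective_iff_map_eq_zero]
    intro v hv
    have h1 : res O c v = 0 := hΘinj (by rw [map_zero]; exact hv)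
    have h2 : v.1 ((1 : Γ) : G) ⟨0, hN⟩ = 0 := by
      have h3 := congrFun (congrFun (congrArg Subtype.val h1) (1 : Γ)) ⟨0, hN⟩
      exact h3
    exact Subtype.ext (hV6 v.1 v.2 ⟨_, _, h2⟩)
  let algB : Algebra (LaurentSeries k)[X] (BQ O c) :=
    RingHom.toAlgebra ((cstQ k ξ G Q).codRestrict (BQ O c) hcst)
  let actB : MulSemiringAction G (BQ O c) :=
    { smul := fun σ v => ⟨trQ σ v.1, htr σ v.1 v.2⟩
      one_smul := fun v => by
        apply Subtype.ext
        funext g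
        show v.1 (1⁻¹ * g) = v.1 g
        rw [inv_one, one_mul]
      mul_smul := fun σ τ v => by
        apply Subtype.ext
        funext g
        show v.1 ((σ * τ)⁻¹ * g) = v.1 (τ⁻¹ * (σ⁻¹ * g))
        rw [mul_inv_rev, mul_assoc]
      smul_zero := fun σ => rfl
      smul_add := fun σ u v => rfl
      smul_one := fun σ => rfl
      smul_mul := fun σ u v => rfl }
  refine ⟨↥(BQ O c), inferInstance, algB, actB, ι, ?_, hι0.isDomain ι, ?_, ?_⟩
  · refine @GalAlg.mk (LaurentSeries k)[X] _ G _ ↥(BQ O c) _ algB actB ?_ ?_ ?_ ?_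
    · intro g a
      apply Subtype.ext
      rfl
    · intro a a' hab
      have h2 : ι ⟨cstQ k ξ G Q a, hcst a⟩ = ι ⟨cstQ k ξ G Q a', hcst a'⟩ := congrArg ι hab
      rw [hι1, hι1] at h2
      exact TI_atInf_injective _ (hE.inj h2)
    · intro v hv
      obtain ⟨f, hf⟩ := a_QV7 k m N V ξ b G Γ D hD H hH Q O c hm hQ hdis hN v.1 v.2
        (fun σ => congrArg Subtype.val (hv σ))
      exact ⟨f, Subtype.ext hf.symm⟩
    · intro σ hσ
      obtain ⟨n, α, β, hαβ, h1⟩ := a_QV5 k m N V ξ b G Γ D hD H hH Q O c σ hm hQ hdis hN hσ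
      refine TII_unr' σ n (fun m => (⟨α m, (hαβ m).1⟩ : BQ O c))
        (fun m => (⟨β m, (hαβ m).2⟩ : BQ O c)) ?_
      apply (BQ O c).subtype_injective
      rw [map_sum, map_one]
      exact h1
  · intro f
    exact hι1 f (hcst f)
  · intro g v
    exact hι2 g v.1 v.2 (htr g v.1 v.2)

end MP7b0bad.MT.PJ

namespace MP7b0bad.MT

/-- PATCHING -/
theorem prf_MPT : MPT := PJ.main

end MP7b0bad.MT
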